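import Pool.Agent.Lib.MP_188651_an.Defs

open Set Filter Metric Topology InnerProductSpace Laplacian
open scoped Pointwise

namespace Pool.Agent.Lib.MP_188651_an

variable {n : ℕ}

private theorem norm_sq_Bd (v ν : EE n) (hν : ‖ν‖ = 1) (t : ℝ) :
    ‖v + t • ν‖ ^ 2 = ‖v‖ ^ 2 + 2 * (t * inner ℝ v ν) + t ^ 2 := by
  rw [norm_add_sq_real, real_inner_smul_right, norm_smul, hν, mul_one, Real.norm_eq_abs, sq_abs]

private theorem der_Bd (c p q : ℝ) (hc : 0 < c + p) :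
    HasDerivAt (fun t : ℝ => √(c + (p + 2 * (t * q) + t ^ 2))) (q / √(c + p)) 0 := by
  have h1 : HasDerivAt (fun t : ℝ => c + (p + 2 * (t * q) + t ^ 2)) (2 * q) 0 := by
    have h2 : HasDerivAt (fun t : ℝ => 2 * (t * q)) (2 * (1 * q)) 0 :=
      ((hasDerivAt_id (0 : ℝ)).mul_const q).const_mul 2
    have h3 : HasDerivAt (fun t : ℝ => t ^ 2) (2 * (0 : ℝ)) 0 := by
      refine (hasDerivAt_pow 2 (0 : ℝ)).congr_deriv ?_
      norm_num
    refine (((h2.const_add p).fun_add h3).const_add c).congr_deriv ?_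
    ring
  have h4 : c + (p + 2 * ((0 : ℝ) * q) + (0 : ℝ) ^ 2) = c + p := by ring
  have h5 := h1.sqrt (by rw [h4]; exact hc.ne')
  rw [h4] at h5
  refine h5.congr_deriv ?_
  rw [mul_div_mul_left _ _ (two_ne_zero)]

/-- directional derivative of `hh` is at most 1 in absolute value. -/
theorem hasDerivAt_hh (y ν : EE n) (hν : ‖ν‖ = 1) :
    ∃ b : ℝ, |b| ≤ 1 ∧ HasDerivAt (fun t : ℝ => hh (y + t • ν)) b 0 := by
  refine ⟨inner ℝ y ν / √(1 + ‖y‖ ^ 2), ?_, ?_⟩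
  · have hpos : 0 < √(1 + ‖y‖ ^ 2) := Real.sqrt_pos.2 (by positivity)
    rw [abs_div, abs_of_pos hpos, div_le_one hpos]
    have h1 : |inner ℝ y ν| ≤ ‖y‖ := by
      have := abs_real_inner_le_norm y ν
      rwa [hν, mul_one] at this
    refine h1.trans ?_
    refine Real.le_sqrt_of_sq_le ?_
    linarith
  · have h1 := der_Bd 1 (‖y‖ ^ 2) (inner ℝ y ν) (by positivity)
    have e : (fun t : ℝ => hh (y + t • ν)) =
        fun t : ℝ => √(1 + (‖y‖ ^ 2 + 2 * (t * inner ℝ y ν) + t ^ 2)) := by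
      funext t
      rw [hh, norm_sq_Bd y ν hν]
    rw [e]
    exact h1

theorem hasDerivAt_norm_sub {y ν c : EE n} (hν : ‖ν‖ = 1) (h : y ≠ c) :
    HasDerivAt (fun t : ℝ => ‖y + t • ν - c‖) (inner ℝ (y - c) ν / ‖y - c‖) 0 := by
  have hpos : 0 < ‖y - c‖ := norm_pos_iff.2 (sub_ne_zero.2 h)
  have h1 := der_Bd 0 (‖y - c‖ ^ 2) (inner ℝ (y - c) ν) (by positivity)
  have e : (fun t : ℝ => ‖y + t • ν - c‖) =
      fun t : ℝ => √(0 + (‖y - c‖ ^ 2 + 2 * (t * inner ℝ (y - c) ν) + t ^ 2)) := by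
    funext t
    rw [← norm_sq_Bd (y - c) ν hν, zero_add, Real.sqrt_sq (norm_nonneg _)]
    congr 1
    abel
  rw [e]
  rwa [zero_add, Real.sqrt_sq (norm_nonneg _)] at h1

/-- Boundary test. -/
theorem bd_le {y ν : EE n} {φ β : EE n → ℝ} {a b : ℝ}
    (hφ : HasDerivWithinAt (fun t : ℝ => φ (y + t • ν)) a (Iic 0) 0)
    (hβ : HasDerivWithinAt (fun t : ℝ => β (y + t • ν)) b (Iic 0) 0)
    (hle : ∀ᶠ t in 𝓝[<] (0 : ℝ), φ (y + t • ν) ≤ β (y + t • ν)) (heq : φ y = β y) : b ≤ a := by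
  have h1 := (hasDerivWithinAt_iff_tendsto_slope' (s := Iio (0 : ℝ)) (by simp)).1
    (hφ.mono Iio_subset_Iic_self)
  have h2 := (hasDerivWithinAt_iff_tendsto_slope' (s := Iio (0 : ℝ)) (by simp)).1
    (hβ.mono Iio_subset_Iic_self)
  refine le_of_tendsto_of_tendsto h2 h1 ?_
  have h3 : ∀ᶠ t in 𝓝[<] (0 : ℝ), t < 0 := self_mem_nhdsWithin
  filter_upwards [hle, h3] with t ht ht0
  rw [slope_def_field, slope_def_field]
  simp only [zero_smul, add_zero, sub_zero]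
  rw [heq]
  exact div_le_div_of_nonpos_of_le ht0.le (by linarith)

/-- Inner points of the normal segment. -/
theorem mem_normal_seg {D : Set (EE n)} {y ν : EE n} {ρ : ℝ} (hν : ‖ν‖ = 1)
    (hb : ball (y - ρ • ν) ρ ⊆ D) {t : ℝ} (ht : t < 0) (ht2 : -(2 * ρ) < t) : y + t • ν ∈ D := by
  apply hb
  rw [mem_ball, dist_eq_norm]
  have e : y + t • ν - (y - ρ • ν) = (t + ρ) • ν := by
    rw [add_smul]
    abel
  rw [e, norm_smul, hν, mul_one, Real.norm_eq_abs, abs_lt]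
  constructor <;> linarith

end Pool.Agent.Lib.MP_188651_an
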