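import Pool.Agent.Lib.MP_188651_an.Defs

open Set Filter Metric Topology InnerProductSpace Laplacian
open scoped Pointwise

namespace Pool.Agent.Lib.MP_188651_an

variable {n : ℕ}

/-- quadratic Taylor bound -/
private theorem taylor_C2 {W : Type*} [NormedAddCommGroup W] [NormedSpace ℝ W] {g : W → ℝ}
    {r K : ℝ} (hr : 0 < r) (hK : 0 < K) (hg : ContDiffOn ℝ 2 g (ball 0 r))
    (hb : ∀ z ∈ ball (0 : W) r, ‖iteratedFDeriv ℝ 2 g z‖ ≤ K) (z : W) (hz : z ∈ ball (0 : W) r) :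
    |g z - g 0 - fderiv ℝ g 0 z| ≤ K * ‖z‖ ^ 2 := by
  have hat : ∀ w ∈ ball (0 : W) r, ContDiffAt ℝ 2 g w := fun w hw =>
    hg.contDiffAt (isOpen_ball.mem_nhds hw)
  have hfd : ∀ w ∈ ball (0 : W) r, DifferentiableAt ℝ (fderiv ℝ g) w := fun w hw =>
    ((hat w hw).fderiv_right (m := 1) (by norm_num)).differentiableAt (by norm_num)
  have hfdb : ∀ w ∈ ball (0 : W) r, ‖fderiv ℝ (fderiv ℝ g) w‖ ≤ K := by
    intro w hw
    rw [← norm_iteratedFDeriv_one, norm_iteratedFDeriv_fderiv]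
    exact hb w hw
  have h0 : (0 : W) ∈ ball (0 : W) r := mem_ball_self hr
  have hlip : ∀ w ∈ ball (0 : W) r, ‖fderiv ℝ g w - fderiv ℝ g 0‖ ≤ K * ‖w‖ := by
    intro w hw
    have := (convex_ball (0 : W) r).norm_image_sub_le_of_norm_fderiv_le hfd hfdb h0 hw
    simpa using this
  have hsub : closedBall (0 : W) ‖z‖ ⊆ ball 0 r := closedBall_subset_ball (by simpa using hz)
  have := (convex_closedBall (0 : W) ‖z‖).norm_image_sub_le_of_norm_fderiv_le'
    (f := g) (φ := fderiv ℝ g 0) (C := K * ‖z‖)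
    (fun w hw => ((hat w (hsub hw)).differentiableAt (by norm_num)))
    (fun w hw => (hlip w (hsub hw)).trans (by
      have : ‖w‖ ≤ ‖z‖ := by simpa using hw
      gcongr)) (x := 0) (y := z) (by simp) (by simp)
  rw [sub_zero] at this
  rw [← Real.norm_eq_abs]
  calc _ ≤ K * ‖z‖ * ‖z‖ := this
    _ = K * ‖z‖ ^ 2 := by ring

private theorem arith_C2 {V ρ s q K : ℝ} (hρ : 0 < ρ) (hs : 1 ≤ s) (hV : 0 ≤ V)
    (hK : K * (2 * ρ) ≤ 1) (h : V < 2 * ρ * (s⁻¹ * q)) : K * V < q := by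
  have hs0 : 0 < s := by linarith
  have hq : 0 < q := by
    by_contra hq
    push Not at hq
    have : s⁻¹ * q ≤ 0 := mul_nonpos_of_nonneg_of_nonpos (by positivity) hq
    nlinarith
  have h1 : s⁻¹ * q ≤ q := by
    have : s⁻¹ ≤ 1 := inv_le_one_of_one_le₀ hs
    nlinarith
  have h2 : V < 2 * ρ * q := lt_of_lt_of_le h (by nlinarith)
  have h3 : K * V * (2 * ρ) ≤ V := by nlinarith
  nlinarith

/-- The graph condition with a function on the hyperplane itself. -/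
def IsGraphC2 {n : ℕ} (Ω : Set (EE n)) : Prop :=
  ∃ r > 0, ∃ K > 0, ∀ y ∈ frontier Ω, ∃ (e : EE n) (g : (ℝ ∙ e)ᗮ → ℝ), ‖e‖ = 1 ∧
    ContDiffOn ℝ 2 g (ball 0 r) ∧
    (∀ z ∈ ball (0 : (ℝ ∙ e)ᗮ) r, ‖iteratedFDeriv ℝ 2 g z‖ ≤ K) ∧
    ∀ x ∈ ball y r, x ∈ Ω ↔ g ((ℝ ∙ e)ᗮ.orthogonalProjectionOnto (x - y)) < inner ℝ e (x - y)

theorem IsUniformlyC2.isGraphC2 {Ω : Set (EE n)} (hΩ : IsUniformlyC2 Ω) : IsGraphC2 Ω := by
  obtain ⟨r, hr, K, hK, H⟩ := hΩ
  refine ⟨r, hr, K, hK, fun y hy => ?_⟩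
  obtain ⟨e, g, he, hg, hb, hiff⟩ := H y hy
  have hmem : ∀ z ∈ ball (0 : (ℝ ∙ e)ᗮ) r, (z : EE n) ∈ ball (0 : EE n) r := by
    intro z hz
    simpa using hz
  refine ⟨e, fun z => g (z : EE n), he, ?_, ?_, ?_⟩
  · exact hg.comp ((ℝ ∙ e)ᗮ.subtypeL.contDiff.contDiffOn) (fun z hz => hmem z hz)
  · intro z hz
    have hat : ContDiffAt ℝ 2 g (z : EE n) := hg.contDiffAt (isOpen_ball.mem_nhds (hmem z hz))
    have h1 := (hb _ (hmem z hz)).2
    refine le_trans ?_ h1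
    have h2 : iteratedFDeriv ℝ 2 (fun z : (ℝ ∙ e)ᗮ => g (z : EE n)) z =
        (iteratedFDeriv ℝ 2 g (z : EE n)).compContinuousLinearMap (fun _ => (ℝ ∙ e)ᗮ.subtypeL) := by
      have hpre : IsOpen ((ℝ ∙ e)ᗮ.subtypeL ⁻¹' ball (0 : EE n) r) :=
        isOpen_ball.preimage (ℝ ∙ e)ᗮ.subtypeL.continuous
      have h4 := (ℝ ∙ e)ᗮ.subtypeL.iteratedFDerivWithin_comp_right hg isOpen_ball.uniqueDiffOn
        hpre.uniqueDiffOn (x := z) (hmem z hz) (i := 2) le_rfl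
      have h5 : iteratedFDerivWithin ℝ 2 g (ball 0 r) ((ℝ ∙ e)ᗮ.subtypeL z) =
          iteratedFDeriv ℝ 2 g ((ℝ ∙ e)ᗮ.subtypeL z) :=
        iteratedFDerivWithin_of_isOpen 2 isOpen_ball (hmem z hz)
      have h6 : iteratedFDerivWithin ℝ 2 (g ∘ (ℝ ∙ e)ᗮ.subtypeL) ((ℝ ∙ e)ᗮ.subtypeL ⁻¹' ball 0 r) z =
          iteratedFDeriv ℝ 2 (g ∘ (ℝ ∙ e)ᗮ.subtypeL) z :=
        iteratedFDerivWithin_of_isOpen 2 hpre (hmem z hz)
      rw [h5, h6] at h4
      exact h4
    rw [h2]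
    refine ContinuousMultilinearMap.opNorm_le_bound (norm_nonneg _) (fun m => ?_)
    rw [ContinuousMultilinearMap.compContinuousLinearMap_apply]
    have h3 := (iteratedFDeriv ℝ 2 g (z : EE n)).le_opNorm (fun i => ((ℝ ∙ e)ᗮ.subtypeL (m i)))
    simpa using h3
  · intro x hx
    rw [hiff x hx]
    have h3 : (((ℝ ∙ e)ᗮ.orthogonalProjectionOnto (x - y) : (ℝ ∙ e)ᗮ) : EE n) =
        (x - y) - inner ℝ e (x - y) • e := by
      rw [Submodule.orthogonalProjectionOnto_orthogonal]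
      show (x - y) - (ℝ ∙ e).starProjection (x - y) = _
      rw [Submodule.starProjection_unit_singleton ℝ he]
    show _ ↔ g ((((ℝ ∙ e)ᗮ.orthogonalProjectionOnto (x - y) : (ℝ ∙ e)ᗮ) : EE n)) < _
    rw [h3]

theorem ballDomain_of_C2 {Ω : Set (EE n)} (hopen : IsOpen Ω) (hΩ : IsUniformlyC2 Ω) :
    ∃ ρ > 0, BallDomain ρ Ω := by
  obtain ⟨r, hr, K, hK, H⟩ := hΩ.isGraphC2
  have hρ0 : 0 < min (r / 2) (1 / (2 * K)) := by positivity
  refine ⟨min (r / 2) (1 / (2 * K)), hρ0, hopen, ?_⟩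
  have hρr : 2 * min (r / 2) (1 / (2 * K)) ≤ r := by
    have := min_le_left (r / 2) (1 / (2 * K)); linarith
  have hρK : K * (2 * min (r / 2) (1 / (2 * K))) ≤ 1 := by
    have h := min_le_right (r / 2) (1 / (2 * K))
    rw [le_div_iff₀ (by positivity)] at h
    linarith
  generalize min (r / 2) (1 / (2 * K)) = ρ at hρ0 hρr hρK ⊢
  intro y hy
  obtain ⟨e, g, he, hg, hb, hiff⟩ := H y hy
  have hyn : y ∉ Ω := by
    rw [hopen.frontier_eq] at hy; exact hy.2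
  have hyc : y ∈ closure Ω := frontier_subset_closure hy
  have hcont : ContinuousAt g 0 :=
    (hg.contDiffAt (isOpen_ball.mem_nhds (mem_ball_self hr))).continuousAt
  have hg0 : g 0 = 0 := by
    apply le_antisymm
    · by_contra hpos
      push Not at hpos
      have hF : ContinuousAt (fun x : EE n =>
          g ((ℝ ∙ e)ᗮ.orthogonalProjectionOnto (x - y)) - inner ℝ e (x - y)) y := by
        apply ContinuousAt.sub
        · apply ContinuousAt.comp (g := g)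
          · simpa using hcont
          · fun_prop
        · fun_prop
      have hv : g ((ℝ ∙ e)ᗮ.orthogonalProjectionOnto (y - y)) - inner ℝ e (y - y) = g 0 := by
        simp
      have hev : ∀ᶠ x in 𝓝 y,
          0 < g ((ℝ ∙ e)ᗮ.orthogonalProjectionOnto (x - y)) - inner ℝ e (x - y) := by
        apply hF.eventually (Ioi_mem_nhds _)
        show 0 < g ((ℝ ∙ e)ᗮ.orthogonalProjectionOnto (y - y)) - inner ℝ e (y - y)
        rw [hv]
        exact hpos
      rw [mem_closure_iff_frequently] at hyc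
      obtain ⟨x, hxΩ, h1, h2⟩ := (hyc.and_eventually (hev.and (ball_mem_nhds y hr))).exists
      have := (hiff x h2).1 hxΩ
      linarith
    · by_contra hneg
      push Not at hneg
      apply hyn
      rw [hiff y (mem_ball_self hr)]
      simpa using hneg
  -- the gradient of `g` at `0`
  obtain ⟨w, hw⟩ : ∃ w : (ℝ ∙ e)ᗮ, ∀ z, fderiv ℝ g 0 z = inner ℝ w z :=
    ⟨(InnerProductSpace.toDual ℝ _).symm (fderiv ℝ g 0), fun z =>
      (InnerProductSpace.toDual_symm_apply).symm⟩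
  have hew : inner ℝ e (w : EE n) = 0 := by
    have := w.2
    rw [Submodule.mem_orthogonal_singleton_iff_inner_right] at this
    exact this
  have hs1 : 1 ≤ ‖e - (w : EE n)‖ := by
    have h1 : inner ℝ e (e - (w : EE n)) = 1 := by
      rw [inner_sub_right, hew, real_inner_self_eq_norm_sq, he]; norm_num
    have h2 := real_inner_le_norm e (e - (w : EE n))
    rw [h1, he, one_mul] at h2
    exact h2
  have hinner : ∀ v : EE n, inner ℝ v (e - (w : EE n)) =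
      inner ℝ e v - fderiv ℝ g 0 ((ℝ ∙ e)ᗮ.orthogonalProjectionOnto v) := by
    intro v
    rw [inner_sub_right, hw, Submodule.inner_orthogonalProjectionOnto_eq_of_mem_left,
      real_inner_comm v e, real_inner_comm v (w : EE n)]
  have hT : ∀ v : EE n, ‖v‖ < r →
      |g ((ℝ ∙ e)ᗮ.orthogonalProjectionOnto v) -
        fderiv ℝ g 0 ((ℝ ∙ e)ᗮ.orthogonalProjectionOnto v)| ≤ K * ‖v‖ ^ 2 := by
    intro v hv
    have hz := (ℝ ∙ e)ᗮ.norm_orthogonalProjectionOnto_apply_le v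
    have := taylor_C2 hr hK hg hb
      ((ℝ ∙ e)ᗮ.orthogonalProjectionOnto v) (by simpa using lt_of_le_of_lt hz hv)
    rw [hg0, sub_zero] at this
    refine this.trans ?_
    gcongr
  have hsn : ‖(-‖e - (w : EE n)‖⁻¹) • (e - (w : EE n))‖ = 1 := by
    rw [norm_smul, norm_neg, norm_inv, norm_norm]
    exact inv_mul_cancel₀ (by linarith)
  refine ⟨(-‖e - (w : EE n)‖⁻¹) • (e - (w : EE n)), hsn, ?_, ?_⟩
  · intro x hx
    rw [mem_ball, dist_eq_norm] at hx
    obtain ⟨v, rfl⟩ : ∃ v, x = y + v := ⟨x - y, by abel⟩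
    have e1 : y + v - (y - ρ • ((-‖e - (w : EE n)‖⁻¹) • (e - (w : EE n)))) =
        v + ρ • ((-‖e - (w : EE n)‖⁻¹) • (e - (w : EE n))) := by abel
    rw [e1] at hx
    have hvr : ‖v‖ < r := by
      have h1 : ‖v‖ ≤ ‖v + ρ • ((-‖e - (w : EE n)‖⁻¹) • (e - (w : EE n)))‖ +
          ‖ρ • ((-‖e - (w : EE n)‖⁻¹) • (e - (w : EE n)))‖ := by
        have := norm_sub_le (v + ρ • ((-‖e - (w : EE n)‖⁻¹) • (e - (w : EE n))))
          (ρ • ((-‖e - (w : EE n)‖⁻¹) • (e - (w : EE n))))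
        rwa [add_sub_cancel_right] at this
      rw [norm_smul ρ, hsn, Real.norm_eq_abs, abs_of_pos hρ0] at h1
      linarith
    have hsq : ‖v + ρ • ((-‖e - (w : EE n)‖⁻¹) • (e - (w : EE n)))‖ ^ 2 < ρ ^ 2 := by
      apply pow_lt_pow_left₀ hx (norm_nonneg _) (by norm_num)
    rw [norm_add_sq_real, norm_smul ρ, hsn, real_inner_smul_right, real_inner_smul_right,
      hinner, Real.norm_eq_abs, mul_one, sq_abs] at hsq
    have h2 := arith_C2 (V := ‖v‖ ^ 2) (K := K)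
      (q := inner ℝ e v - fderiv ℝ g 0 ((ℝ ∙ e)ᗮ.orthogonalProjectionOnto v))
      hρ0 hs1 (by positivity) hρK (by linarith)
    have h3 := (abs_le.1 (hT v hvr)).2
    rw [hiff (y + v) (by simpa [mem_ball, dist_eq_norm] using hvr)]
    rw [add_sub_cancel_left]
    linarith
  · rw [Set.disjoint_left]
    intro x hx hxΩ
    rw [mem_ball, dist_eq_norm] at hx
    obtain ⟨v, rfl⟩ : ∃ v, x = y + v := ⟨x - y, by abel⟩
    have e1 : y + v - (y + ρ • ((-‖e - (w : EE n)‖⁻¹) • (e - (w : EE n)))) =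
        v - ρ • ((-‖e - (w : EE n)‖⁻¹) • (e - (w : EE n))) := by abel
    rw [e1] at hx
    have hvr : ‖v‖ < r := by
      have h1 : ‖v‖ ≤ ‖v - ρ • ((-‖e - (w : EE n)‖⁻¹) • (e - (w : EE n)))‖ +
          ‖ρ • ((-‖e - (w : EE n)‖⁻¹) • (e - (w : EE n)))‖ := by
        have := norm_add_le (v - ρ • ((-‖e - (w : EE n)‖⁻¹) • (e - (w : EE n))))
          (ρ • ((-‖e - (w : EE n)‖⁻¹) • (e - (w : EE n))))
        rwa [sub_add_cancel] at this
      rw [norm_smul ρ, hsn, Real.norm_eq_abs, abs_of_pos hρ0] at h1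
      linarith
    have hsq : ‖v - ρ • ((-‖e - (w : EE n)‖⁻¹) • (e - (w : EE n)))‖ ^ 2 < ρ ^ 2 := by
      apply pow_lt_pow_left₀ hx (norm_nonneg _) (by norm_num)
    rw [norm_sub_sq_real, norm_smul ρ, hsn, real_inner_smul_right, real_inner_smul_right,
      hinner, Real.norm_eq_abs, mul_one, sq_abs] at hsq
    have h2 := arith_C2 (V := ‖v‖ ^ 2) (K := K)
      (q := fderiv ℝ g 0 ((ℝ ∙ e)ᗮ.orthogonalProjectionOnto v) - inner ℝ e v)
      hρ0 hs1 (by positivity) hρK (by linarith)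
    have h3 := (abs_le.1 (hT v hvr)).1
    rw [hiff (y + v) (by simpa [mem_ball, dist_eq_norm] using hvr)] at hxΩ
    rw [add_sub_cancel_left] at hxΩ
    linarith

end Pool.Agent.Lib.MP_188651_an
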