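import Pool.Agent.Lib.MP_188651_an.GeoA

open Set Filter Metric Topology InnerProductSpace Laplacian
open scoped Pointwise

namespace Pool.Agent.Lib.MP_188651_an

variable {n : ℕ} {ρ : ℝ} {D : Set (EE n)}

/-- The nearest boundary point and its normal. -/
theorem nearest (hρ : 0 < ρ) (hD : BallDomain ρ D) (hne : (frontier D).Nonempty) {x : EE n} (hx : x ∈ D) :
    0 < infDist x (frontier D) ∧ ∃ y ∈ frontier D, ∃ ν : EE n, ‖ν‖ = 1 ∧ ball (y - ρ • ν) ρ ⊆ D ∧
      Disjoint (ball (y + ρ • ν) ρ) D ∧ x = y - infDist x (frontier D) • ν := by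
  have hxf : x ∉ frontier D := by
    intro hxf
    exact hxf.2 (hD.isOpen.interior_eq.symm ▸ hx)
  have hd : 0 < infDist x (frontier D) := (isClosed_frontier.notMem_iff_infDist_pos hne).1 hxf
  refine ⟨hd, ?_⟩
  obtain ⟨y, hy, hyd⟩ := isClosed_frontier.exists_infDist_eq_dist hne x
  obtain ⟨ν, hν, hint, hext⟩ := hD.normal y hy
  refine ⟨y, hy, ν, hν, hint, hext, ?_⟩
  set d := infDist x (frontier D) with hdd
  have hball : ball x d ⊆ D := by
    intro z hz
    rw [mem_ball] at hz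
    exact closedBall_subset_of_infDist hx hne hz (mem_closedBall.2 le_rfl)
  have hdisj : Disjoint (ball x d) (ball (y + ρ • ν) ρ) := (hext.mono_right hball).symm
  rw [disjoint_ball_ball_iff hd hρ, dist_eq_norm] at hdisj
  have hxy : ‖x - y‖ = d := by rw [← dist_eq_norm]; exact hyd.symm
  have e1 : x - (y + ρ • ν) = (x - y) - ρ • ν := by abel
  have h1 : (d + ρ) ^ 2 ≤ ‖(x - y) - ρ • ν‖ ^ 2 := by
    rw [← e1]
    exact pow_le_pow_left₀ (by positivity) hdisj 2
  rw [norm_sub_sq_real, norm_smul, hν, hxy, inner_smul_right, Real.norm_eq_abs, abs_of_pos hρ] at h1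
  have h2 : inner ℝ (x - y) ν ≤ -d := by
    have : 2 * ρ * (d + inner ℝ (x - y) ν) ≤ 0 := by nlinarith
    have h3 : d + inner ℝ (x - y) ν ≤ 0 := by
      by_contra h4
      push Not at h4
      have : 0 < 2 * ρ * (d + inner ℝ (x - y) ν) := by positivity
      linarith
    linarith
  have h3 : ‖(x - y) + d • ν‖ ^ 2 ≤ 0 := by
    rw [norm_add_sq_real, norm_smul, hν, hxy, inner_smul_right, Real.norm_eq_abs, abs_of_pos hd]
    nlinarith
  have h4 : (x - y) + d • ν = 0 := by
    have : ‖(x - y) + d • ν‖ = 0 := by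
      have h5 := sq_nonneg ‖(x - y) + d • ν‖
      have h6 : ‖(x - y) + d • ν‖ ^ 2 = 0 := le_antisymm h3 h5
      exact pow_eq_zero_iff (two_ne_zero) |>.1 h6
    exact norm_eq_zero.1 this
  have h5 : x = y - d • ν := by
    have : x - (y - d • ν) = 0 := by rw [← h4]; abel
    exact sub_eq_zero.1 this
  exact h5

end Pool.Agent.Lib.MP_188651_an
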