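import Pool.Agent.Lib.MP_188651_an.ExGeo
import Pool.Agent.Lib.MP_188651_an.Nearest

/-!
# Normals
-/

open Set Filter Metric Topology InnerProductSpace Laplacian

namespace Pool.Agent.Lib.MP_188651_an

variable {n : ℕ} {ρ : ℝ} {D : Set (EE n)} {N : EE n → EE n}

private theorem exGeoB_key (h : BD ρ D N) {y y' : EE n} (hy : y ∈ frontier D)
    (hy' : y' ∈ frontier D) :
    4 * ρ ^ 2 ≤ ‖y - y'‖ ^ 2 - 2 * ρ * inner ℝ (y - y') (N y + N y') + ρ ^ 2 * ‖N y + N y'‖ ^ 2 := by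
  have hd : Disjoint (ball (y - ρ • N y) ρ) (ball (y' + ρ • N y') ρ) :=
    ((h.ext y' hy').mono_right (h.int y hy)).symm
  rw [disjoint_ball_ball_iff h.pos h.pos, dist_eq_norm] at hd
  have e1 : y - ρ • N y - (y' + ρ • N y') = (y - y') - ρ • (N y + N y') := by
    rw [smul_add]; abel
  rw [e1] at hd
  have h1 : (ρ + ρ) ^ 2 ≤ ‖(y - y') - ρ • (N y + N y')‖ ^ 2 :=
    pow_le_pow_left₀ (by linarith [h.pos]) hd 2
  rw [norm_sub_sq_real, norm_smul, inner_smul_right, Real.norm_eq_abs, abs_of_pos h.pos] at h1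
  nlinarith

theorem BD.N_sub_le (h : BD ρ D N) {y y' : EE n} (hy : y ∈ frontier D) (hy' : y' ∈ frontier D) :
    ‖N y - N y'‖ ≤ ‖y - y'‖ / ρ := by
  have hρ := h.pos
  have h1 := exGeoB_key h hy hy'
  have h2 := exGeoB_key h hy' hy
  have e1 : inner ℝ (y' - y) (N y' + N y) = - inner ℝ (y - y') (N y + N y') := by
    rw [← neg_sub y y', inner_neg_left, add_comm]
  rw [e1, norm_sub_rev y' y, add_comm (N y') (N y)] at h2
  have h3 : ‖N y + N y'‖ ^ 2 + ‖N y - N y'‖ ^ 2 = 4 := by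
    have h4 := parallelogram_law_with_norm ℝ (N y) (N y')
    rw [h.unit y hy, h.unit y' hy'] at h4
    nlinarith
  have h5 : (ρ * ‖N y - N y'‖) ^ 2 ≤ ‖y - y'‖ ^ 2 := by
    rw [mul_pow]
    nlinarith
  have h6 : ρ * ‖N y - N y'‖ ≤ ‖y - y'‖ := by
    exact (pow_le_pow_iff_left₀ (by positivity) (norm_nonneg _) two_ne_zero).1 h5
  rw [le_div_iff₀ hρ]
  linarith

theorem BD.unique (h : BD ρ D N) {y ν : EE n} (hy : y ∈ frontier D) (hν : IsOutwardNormal D y ν) : ν = N y := by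
  obtain ⟨hν1, r, hr, hint, -⟩ := hν
  have hρ := h.pos
  have hd : Disjoint (ball (y - r • ν) r) (ball (y + ρ • N y) ρ) :=
    ((h.ext y hy).mono_right hint).symm
  rw [disjoint_ball_ball_iff hr hρ, dist_eq_norm] at hd
  have e1 : y - r • ν - (y + ρ • N y) = -(r • ν + ρ • N y) := by abel
  rw [e1, norm_neg] at hd
  have h1 : (r + ρ) ^ 2 ≤ ‖r • ν + ρ • N y‖ ^ 2 := pow_le_pow_left₀ (by positivity) hd 2
  rw [norm_add_sq_real, norm_smul, norm_smul, inner_smul_left, inner_smul_right, Real.norm_eq_abs,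
    Real.norm_eq_abs, abs_of_pos hr, abs_of_pos hρ, hν1, h.unit y hy] at h1
  have h2 : 1 ≤ inner ℝ ν (N y) := by
    have h3 : 0 ≤ 2 * (r * ρ) * (inner ℝ ν (N y) - 1) := by
      simp only [conj_trivial] at h1
      nlinarith
    by_contra h4
    push Not at h4
    have h5 : 0 < r * ρ := mul_pos hr hρ
    nlinarith
  have h3 : ‖ν - N y‖ ^ 2 ≤ 0 := by
    rw [norm_sub_sq_real, hν1, h.unit y hy]
    linarith
  have h4 : ‖ν - N y‖ = 0 := by
    have := sq_nonneg ‖ν - N y‖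
    exact pow_eq_zero_iff (two_ne_zero) |>.1 (le_antisymm h3 this)
  exact sub_eq_zero.1 (norm_eq_zero.1 h4)

/-- representation by nearest points -/
theorem BD.nearest (h : BD ρ D N) (hne : (frontier D).Nonempty) {x : EE n} (hx : x ∈ closure D) :
    ∃ y ∈ frontier D, x = y - infDist x (frontier D) • N y := by
  by_cases hxD : x ∈ D
  · have hB : BallDomain ρ D := ⟨h.isOpen, fun y hy => ⟨N y, h.unit y hy, h.int y hy, h.ext y hy⟩⟩
    obtain ⟨-, y, hy, ν, hν, hint, hext, hxy⟩ :=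
      Pool.Agent.Lib.MP_188651_an.nearest h.pos hB hne hxD
    refine ⟨y, hy, ?_⟩
    rw [← h.unique hy ⟨hν, ρ, h.pos, hint, hext⟩]
    exact hxy
  · have hxf : x ∈ frontier D := ⟨hx, by rwa [h.isOpen.interior_eq]⟩
    refine ⟨x, hxf, ?_⟩
    rw [infDist_zero_of_mem hxf, zero_smul, sub_zero]

end Pool.Agent.Lib.MP_188651_an
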