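import Pool.Agent.Lib.MP_188651_an.Defs

open Set Filter Metric Topology InnerProductSpace Laplacian
open scoped Pointwise

namespace Pool.Agent.Lib.MP_188651_an

variable {n : ℕ} {φ ψ : EE n → ℝ} {x : EE n} {g g' : Fin n → ℝ} {L L' : ℝ}

private theorem slice_zero_JetA (φ : EE n → ℝ) (x : EE n) (i : Fin n) :
    φ (x + (0 : ℝ) • EuclideanSpace.single i (1 : ℝ)) = φ x := by
  rw [zero_smul, add_zero]

theorem jet_const (c : ℝ) : Jet (fun _ : EE n => c) x (fun _ => 0) 0 := by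
  refine ⟨fun _ _ => 0, fun _ => 0, ?_, ?_, ?_, ?_⟩
  · intro i
    exact Filter.Eventually.of_forall fun t => hasDerivAt_const t c
  · intro i
    rfl
  · intro i
    exact hasDerivAt_const (0 : ℝ) (0 : ℝ)
  · exact Finset.sum_const_zero

theorem Jet.add (h : Jet φ x g L) (h' : Jet ψ x g' L') :
    Jet (fun y => φ y + ψ y) x (fun i => g i + g' i) (L + L') := by
  obtain ⟨D1, H, h1, h2, h3, h4⟩ := h
  obtain ⟨D1', H', h1', h2', h3', h4'⟩ := h'
  refine ⟨fun i t => D1 i t + D1' i t, fun i => H i + H' i, ?_, ?_, ?_, ?_⟩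
  · intro i
    filter_upwards [h1 i, h1' i] with t ht ht'
    exact ht.fun_add ht'
  · intro i
    dsimp only
    rw [h2 i, h2' i]
  · intro i
    exact (h3 i).fun_add (h3' i)
  · rw [Finset.sum_add_distrib, h4, h4']

theorem Jet.const_mul (c : ℝ) (h : Jet φ x g L) :
    Jet (fun y => c * φ y) x (fun i => c * g i) (c * L) := by
  obtain ⟨D1, H, h1, h2, h3, h4⟩ := h
  refine ⟨fun i t => c * D1 i t, fun i => c * H i, ?_, ?_, ?_, ?_⟩
  · intro i
    filter_upwards [h1 i] with t ht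
    exact ht.const_mul c
  · intro i
    dsimp only
    rw [h2 i]
  · intro i
    exact (h3 i).const_mul c
  · rw [← Finset.mul_sum, h4]

theorem Jet.sub (h : Jet φ x g L) (h' : Jet ψ x g' L') :
    Jet (fun y => φ y - ψ y) x (fun i => g i - g' i) (L - L') := by
  obtain ⟨D1, H, h1, h2, h3, h4⟩ := h
  obtain ⟨D1', H', h1', h2', h3', h4'⟩ := h'
  refine ⟨fun i t => D1 i t - D1' i t, fun i => H i - H' i, ?_, ?_, ?_, ?_⟩
  · intro i
    filter_upwards [h1 i, h1' i] with t ht ht'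
    exact ht.fun_sub ht'
  · intro i
    dsimp only
    rw [h2 i, h2' i]
  · intro i
    exact (h3 i).fun_sub (h3' i)
  · rw [Finset.sum_sub_distrib, h4, h4']

theorem Jet.mul (h : Jet φ x g L) (h' : Jet ψ x g' L') :
    Jet (fun y => φ y * ψ y) x (fun i => φ x * g' i + ψ x * g i)
      (φ x * L' + 2 * ∑ i, g i * g' i + ψ x * L) := by
  obtain ⟨D1, H, h1, h2, h3, h4⟩ := h
  obtain ⟨D1', H', h1', h2', h3', h4'⟩ := h'
  refine ⟨fun i t => φ (x + t • EuclideanSpace.single i (1 : ℝ)) * D1' i t +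
      ψ (x + t • EuclideanSpace.single i (1 : ℝ)) * D1 i t,
    fun i => φ x * H' i + 2 * (g i * g' i) + ψ x * H i, ?_, ?_, ?_, ?_⟩
  · intro i
    filter_upwards [h1 i, h1' i] with t ht ht'
    refine (ht.fun_mul ht').congr_deriv ?_
    ring
  · intro i
    dsimp only
    rw [slice_zero_JetA φ x i, slice_zero_JetA ψ x i, h2 i, h2' i]
  · intro i
    have k1 := (h1 i).self_of_nhds
    have k2 := (h1' i).self_of_nhds
    refine ((k1.fun_mul (h3' i)).fun_add (k2.fun_mul (h3 i))).congr_deriv ?_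
    rw [slice_zero_JetA φ x i, slice_zero_JetA ψ x i, h2 i, h2' i]
    ring
  · rw [Finset.sum_add_distrib, Finset.sum_add_distrib, ← Finset.mul_sum, ← Finset.mul_sum,
      ← Finset.mul_sum, h4, h4']

theorem Jet.comp {T T1 : ℝ → ℝ} {T2 : ℝ} (h : Jet φ x g L)
    (hT : ∀ᶠ s in 𝓝 (φ x), HasDerivAt T (T1 s) s) (hT1 : HasDerivAt T1 T2 (φ x)) :
    Jet (fun y => T (φ y)) x (fun i => T1 (φ x) * g i) (T2 * ∑ i, g i ^ 2 + T1 (φ x) * L) := by
  obtain ⟨D1, H, h1, h2, h3, h4⟩ := h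
  refine ⟨fun i t => T1 (φ (x + t • EuclideanSpace.single i (1 : ℝ))) * D1 i t,
    fun i => T2 * g i ^ 2 + T1 (φ x) * H i, ?_, ?_, ?_, ?_⟩
  · intro i
    have k1 := (h1 i).self_of_nhds
    have hc : Tendsto (fun t : ℝ => φ (x + t • EuclideanSpace.single i (1 : ℝ))) (𝓝 0)
        (𝓝 (φ x)) := by
      have := k1.continuousAt.tendsto
      rwa [slice_zero_JetA φ x i] at this
    filter_upwards [h1 i, hc.eventually hT] with t ht ht'
    exact HasDerivAt.comp t ht' ht
  · intro i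
    dsimp only
    rw [slice_zero_JetA φ x i, h2 i]
  · intro i
    have k1 := (h1 i).self_of_nhds
    have hT1' : HasDerivAt T1 T2 (φ (x + (0 : ℝ) • EuclideanSpace.single i (1 : ℝ))) := by
      rwa [slice_zero_JetA φ x i]
    have k3 := HasDerivAt.comp (0 : ℝ) hT1' k1
    refine (k3.mul (h3 i)).congr_deriv ?_
    rw [Function.comp_apply, slice_zero_JetA φ x i, h2 i]
    ring
  · rw [Finset.sum_add_distrib, ← Finset.mul_sum, ← Finset.mul_sum, h4]

end Pool.Agent.Lib.MP_188651_an
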