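import Pool.Agent.Lib.MP_188651_an.Defs

open Set Filter Metric Topology InnerProductSpace Laplacian
open scoped Pointwise

namespace Pool.Agent.Lib.MP_188651_an

variable {n : ℕ} {φ ψ : EE n → ℝ} {x : EE n} {g g' : Fin n → ℝ} {L L' : ℝ}

private theorem slice_max {σ D : ℝ → ℝ} {H : ℝ} (hm : IsLocalMax σ 0)
    (h1 : ∀ᶠ t in 𝓝 (0 : ℝ), HasDerivAt σ (D t) t) (h2 : HasDerivAt D H 0) :
    D 0 = 0 ∧ H ≤ 0 := by
  have h0 : HasDerivAt σ (D 0) 0 := h1.self_of_nhds
  have hD0 : D 0 = 0 := hm.hasDerivAt_eq_zero h0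
  refine ⟨hD0, ?_⟩
  by_contra hH
  push Not at hH
  have hev : deriv σ =ᶠ[𝓝 0] D := h1.mono fun t ht => ht.deriv
  have hdd : deriv (deriv σ) 0 = H := by
    rw [hev.deriv_eq]
    exact h2.deriv
  have hmin : IsLocalMin σ 0 := isLocalMin_of_deriv_deriv_pos (by rw [hdd]; exact hH)
    (by rw [h0.deriv]; exact hD0) h0.continuousAt
  have hconst : σ =ᶠ[𝓝 0] fun _ => σ 0 := by
    filter_upwards [hm, hmin] with t h3 h4
    exact le_antisymm h3 h4
  have hd : deriv σ =ᶠ[𝓝 0] fun _ => 0 := by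
    have h5 := hconst.deriv
    refine h5.trans ?_
    filter_upwards with t
    exact deriv_const t _
  have h6 : deriv (deriv σ) 0 = 0 := by
    rw [hd.deriv_eq]
    exact deriv_const _ _
  rw [hdd] at h6
  exact hH.ne' h6

private theorem jet_neg (h : Jet φ x g L) : Jet (fun y => -φ y) x (fun i => -g i) (-L) := by
  obtain ⟨D1, H, h1, h2, h3, h4⟩ := h
  refine ⟨fun i t => -D1 i t, fun i => -H i, fun i => (h1 i).mono fun t ht => ht.neg,
    fun i => congrArg Neg.neg (h2 i), fun i => (h3 i).neg, ?_⟩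
  rw [Finset.sum_neg_distrib, h4]

theorem Jet.of_isLocalMax (h : Jet φ x g L) (hm : IsLocalMax φ x) : (∀ i, g i = 0) ∧ L ≤ 0 := by
  obtain ⟨D1, H, h1, h2, h3, h4⟩ := h
  have key : ∀ i, D1 i 0 = 0 ∧ H i ≤ 0 := by
    intro i
    refine slice_max (σ := fun t : ℝ => φ (x + t • EuclideanSpace.single i (1 : ℝ))) ?_ (h1 i)
      (h3 i)
    have hc : ContinuousAt (fun t : ℝ => x + t • EuclideanSpace.single i (1 : ℝ)) 0 := by
      fun_prop
    have hx : x + (0 : ℝ) • EuclideanSpace.single i (1 : ℝ) = x := by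
      simp
    have hc' : Tendsto (fun t : ℝ => x + t • EuclideanSpace.single i (1 : ℝ)) (𝓝 0) (𝓝 x) := by
      have h2 := hc.tendsto
      rwa [hx] at h2
    have h5 := hc'.eventually hm
    show ∀ᶠ t in 𝓝 (0 : ℝ), φ (x + t • EuclideanSpace.single i (1 : ℝ)) ≤
      φ (x + (0 : ℝ) • EuclideanSpace.single i (1 : ℝ))
    rw [hx]
    exact h5
  refine ⟨fun i => by rw [← h2 i]; exact (key i).1, ?_⟩
  rw [← h4]
  exact Finset.sum_nonpos fun i _ => (key i).2

theorem Jet.of_isLocalMin (h : Jet φ x g L) (hm : IsLocalMin φ x) : (∀ i, g i = 0) ∧ 0 ≤ L := by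
  obtain ⟨h1, h2⟩ := (jet_neg h).of_isLocalMax hm.neg
  exact ⟨fun i => neg_eq_zero.mp (h1 i), by linarith⟩

theorem jet_of_contDiffAt {u : EE n → ℝ} (h : ContDiffAt ℝ 2 u x) : ∃ g : Fin n → ℝ, Jet u x g ((Δ u) x) := by
  have hd : ContDiffAt ℝ 1 (fderiv ℝ u) x := h.fderiv_right (m := 1) (by norm_num)
  have hev : ∀ᶠ y in 𝓝 x, DifferentiableAt ℝ u y := by
    have h1 : ∀ᶠ y in 𝓝 x, ContDiffAt ℝ 2 u y := h.eventually (by simp)
    exact h1.mono fun y hy => hy.differentiableAt (by norm_num)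
  set D1 : Fin n → ℝ → ℝ := fun i t =>
    fderiv ℝ u (x + t • EuclideanSpace.single i (1 : ℝ)) (EuclideanSpace.single i (1 : ℝ)) with hD1
  set H : Fin n → ℝ := fun i =>
    fderiv ℝ (fderiv ℝ u) x (EuclideanSpace.single i (1 : ℝ)) (EuclideanSpace.single i (1 : ℝ)) with hH
  have hline : ∀ (i : Fin n) (t : ℝ), HasDerivAt
      (fun t : ℝ => x + t • EuclideanSpace.single i (1 : ℝ)) (EuclideanSpace.single i (1 : ℝ)) t := by
    intro i t
    have h1 := ((hasDerivAt_id t).smul_const (EuclideanSpace.single i (1 : ℝ))).const_add x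
    simpa using h1
  have hx0 : ∀ i : Fin n, x + (0 : ℝ) • EuclideanSpace.single i (1 : ℝ) = x := by
    intro i
    simp
  refine ⟨fun i => D1 i 0, D1, H, ?_, fun i => rfl, ?_, ?_⟩
  · intro i
    have hc : ContinuousAt (fun t : ℝ => x + t • EuclideanSpace.single i (1 : ℝ)) 0 := by
      fun_prop
    have hc' : Tendsto (fun t : ℝ => x + t • EuclideanSpace.single i (1 : ℝ)) (𝓝 0) (𝓝 x) := by
      have h2 := hc.tendsto
      rwa [hx0 i] at h2
    filter_upwards [hc'.eventually hev] with t ht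
    exact ht.hasFDerivAt.comp_hasDerivAt t (hline i t)
  · intro i
    have h2 : HasFDerivAt (fderiv ℝ u) (fderiv ℝ (fderiv ℝ u) x) x :=
      (hd.differentiableAt (by norm_num)).hasFDerivAt
    have h2' : HasFDerivAt (fderiv ℝ u) (fderiv ℝ (fderiv ℝ u) x)
        (x + (0 : ℝ) • EuclideanSpace.single i (1 : ℝ)) := by
      rw [hx0 i]
      exact h2
    have h3 := h2'.comp_hasDerivAt (0 : ℝ) (hline i 0)
    have h4 := h3.clm_apply (hasDerivAt_const (0 : ℝ) (EuclideanSpace.single i (1 : ℝ)))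
    simpa using h4
  · rw [laplacian_eq_iteratedFDeriv_orthonormalBasis u (EuclideanSpace.basisFun (Fin n) ℝ)]
    refine Finset.sum_congr rfl fun i _ => ?_
    rw [iteratedFDeriv_two_apply]
    simp [hH]

end Pool.Agent.Lib.MP_188651_an
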