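import Pool.Agent.Lib.MP_188651_an.ExDefs
import Pool.Agent.Lib.MP_188651_an.JetA
import Pool.Agent.Lib.MP_188651_an.JetC

/-!
# Calculus for the Laplacian, part A
-/

open Set Filter Metric Topology InnerProductSpace Laplacian

namespace Pool.Agent.Lib.MP_188651_an

variable {n : ℕ} {f g : EE n → ℝ} {x : EE n}

private theorem jet_unique_ExLapA {φ : EE n → ℝ} {g g' : Fin n → ℝ} {L L' : ℝ} (h : Jet φ x g L)
    (h' : Jet φ x g' L') : g = g' ∧ L = L' := by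
  obtain ⟨D1, H, h1, h2, h3, h4⟩ := h
  obtain ⟨D1', H', h1', h2', h3', h4'⟩ := h'
  have key : ∀ i, D1 i =ᶠ[𝓝 0] D1' i := by
    intro i
    filter_upwards [h1 i, h1' i] with t ht ht'
    exact ht.unique ht'
  constructor
  · funext i
    rw [← h2 i, ← h2' i]
    exact (key i).self_of_nhds
  · rw [← h4, ← h4']
    refine Finset.sum_congr rfl fun i _ => ?_
    exact (h3 i).unique ((h3' i).congr_of_eventuallyEq (key i))

private theorem lap_of_jet_ExLapA {φ : EE n → ℝ} {g : Fin n → ℝ} {L : ℝ} (hφ : ContDiffAt ℝ 2 φ x)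
    (h : Jet φ x g L) : (Δ φ) x = L := by
  obtain ⟨g', h'⟩ := jet_of_contDiffAt hφ
  exact (jet_unique_ExLapA h' h).2

private theorem jet_grad_ExLapA {φ : EE n → ℝ} {g : Fin n → ℝ} {L : ℝ} (hφ : ContDiffAt ℝ 2 φ x)
    (h : Jet φ x g L) (i : Fin n) : g i = fderiv ℝ φ x (EuclideanSpace.single i (1 : ℝ)) := by
  obtain ⟨D1, H, h1, h2, h3, h4⟩ := h
  have h5 := (h1 i).self_of_nhds
  have hx0 : x + (0 : ℝ) • EuclideanSpace.single i (1 : ℝ) = x := by simp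
  have h6 : HasDerivAt (fun t : ℝ => x + t • EuclideanSpace.single i (1 : ℝ))
      (EuclideanSpace.single i (1 : ℝ)) 0 := by
    have h7 := ((hasDerivAt_id (0 : ℝ)).smul_const (EuclideanSpace.single i (1 : ℝ))).const_add x
    simpa using h7
  have h7 : HasFDerivAt φ (fderiv ℝ φ x) (x + (0 : ℝ) • EuclideanSpace.single i (1 : ℝ)) := by
    rw [hx0]
    exact (hφ.differentiableAt (by norm_num)).hasFDerivAt
  have h8 := h7.comp_hasDerivAt (0 : ℝ) h6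
  rw [← h2 i]
  exact h5.unique h8

private theorem sum_sq_ExLapA (ℓ : EE n →L[ℝ] ℝ) :
    ∑ i, ℓ (EuclideanSpace.single i (1 : ℝ)) ^ 2 = ‖ℓ‖ ^ 2 := by
  obtain ⟨v, rfl⟩ := (InnerProductSpace.toDual ℝ (EE n)).surjective ℓ
  rw [LinearIsometryEquiv.norm_map, EuclideanSpace.norm_sq_eq]
  refine Finset.sum_congr rfl fun i _ => ?_
  rw [InnerProductSpace.toDual_apply_apply, EuclideanSpace.inner_single_right]
  simp

theorem lap_add (hf : ContDiffAt ℝ 2 f x) (hg : ContDiffAt ℝ 2 g x) :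
    (Δ (fun y => f y + g y)) x = (Δ f) x + (Δ g) x := by
  obtain ⟨a, ha⟩ := jet_of_contDiffAt hf
  obtain ⟨b, hb⟩ := jet_of_contDiffAt hg
  exact lap_of_jet_ExLapA (hf.add hg) (ha.add hb)

theorem lap_sub (hf : ContDiffAt ℝ 2 f x) (hg : ContDiffAt ℝ 2 g x) :
    (Δ (fun y => f y - g y)) x = (Δ f) x - (Δ g) x := by
  obtain ⟨a, ha⟩ := jet_of_contDiffAt hf
  obtain ⟨b, hb⟩ := jet_of_contDiffAt hg
  exact lap_of_jet_ExLapA (hf.sub hg) (ha.sub hb)

theorem lap_const_mul (c : ℝ) (hf : ContDiffAt ℝ 2 f x) :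
    (Δ (fun y => c * f y)) x = c * (Δ f) x := by
  obtain ⟨a, ha⟩ := jet_of_contDiffAt hf
  exact lap_of_jet_ExLapA (contDiffAt_const.mul hf) (ha.const_mul c)

theorem lap_congr (h : f =ᶠ[𝓝 x] g) : (Δ f) x = (Δ g) x :=
  (laplacian_congr_nhds h).self_of_nhds

theorem lap_const (c : ℝ) (x : EE n) : (Δ (fun _ : EE n => c)) x = 0 :=
  lap_of_jet_ExLapA contDiffAt_const (jet_const c)

theorem lap_translate (f : EE n → ℝ) (a x : EE n) : (Δ (fun y => f (y + a))) x = (Δ f) (x + a) := by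
  rw [laplacian_eq_iteratedFDeriv_orthonormalBasis _ (EuclideanSpace.basisFun (Fin n) ℝ),
    laplacian_eq_iteratedFDeriv_orthonormalBasis _ (EuclideanSpace.basisFun (Fin n) ℝ)]
  refine Finset.sum_congr rfl fun i _ => ?_
  rw [iteratedFDeriv_comp_add_right]

theorem lap_continuousAt (hf : ContDiffAt ℝ 2 f x) : ContinuousAt (Δ f) x := by
  rw [laplacian_eq_iteratedFDeriv_orthonormalBasis _ (EuclideanSpace.basisFun (Fin n) ℝ)]
  have h1 : ContDiffAt ℝ 0 (iteratedFDeriv ℝ 2 f) x := hf.iteratedFDeriv_right (i := 2) (by norm_num)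
  have h2 := h1.continuousAt
  refine tendsto_finsetSum _ fun i _ => ?_
  exact ((ContinuousMultilinearMap.apply ℝ (fun _ : Fin 2 => EE n) ℝ
    ![EuclideanSpace.basisFun (Fin n) ℝ i, EuclideanSpace.basisFun (Fin n) ℝ i]).continuous.tendsto
      _).comp h2

/-- product rule with remainder -/
theorem lap_mul_bound (hf : ContDiffAt ℝ 2 f x) (hg : ContDiffAt ℝ 2 g x) :
    |(Δ (fun y => f y * g y)) x - (f x * (Δ g) x + g x * (Δ f) x)| ≤
      2 * ‖fderiv ℝ f x‖ * ‖fderiv ℝ g x‖ := by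
  obtain ⟨a, ha⟩ := jet_of_contDiffAt hf
  obtain ⟨b, hb⟩ := jet_of_contDiffAt hg
  rw [lap_of_jet_ExLapA (hf.mul hg) (ha.mul hb)]
  have h1 : f x * (Δ g) x + 2 * ∑ i, a i * b i + g x * (Δ f) x - (f x * (Δ g) x + g x * (Δ f) x) =
      2 * ∑ i, a i * b i := by ring
  rw [h1, abs_mul, abs_two, mul_assoc]
  refine mul_le_mul_of_nonneg_left ?_ (by norm_num)
  have ha2 : ∑ i, a i ^ 2 = ‖fderiv ℝ f x‖ ^ 2 := by
    rw [← sum_sq_ExLapA]
    exact Finset.sum_congr rfl fun i _ => by rw [jet_grad_ExLapA hf ha i]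
  have hb2 : ∑ i, b i ^ 2 = ‖fderiv ℝ g x‖ ^ 2 := by
    rw [← sum_sq_ExLapA]
    exact Finset.sum_congr rfl fun i _ => by rw [jet_grad_ExLapA hg hb i]
  have h2 := Finset.sum_mul_sq_le_sq_mul_sq Finset.univ a b
  rw [ha2, hb2, ← mul_pow] at h2
  exact abs_le_of_sq_le_sq h2 (by positivity)

/-- chain rule -/
theorem lap_comp {η η' : ℝ → ℝ} {η'' : ℝ} (hf : ContDiffAt ℝ 2 f x) (hη : ContDiffAt ℝ 2 η (f x))
    (h1 : ∀ᶠ s in 𝓝 (f x), HasDerivAt η (η' s) s) (h2 : HasDerivAt η' η'' (f x)) :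
    ContDiffAt ℝ 2 (fun y => η (f y)) x ∧
      (Δ (fun y => η (f y))) x = η'' * ‖fderiv ℝ f x‖ ^ 2 + η' (f x) * (Δ f) x ∧
      fderiv ℝ (fun y => η (f y)) x = η' (f x) • fderiv ℝ f x := by
  have hc : ContDiffAt ℝ 2 (fun y => η (f y)) x := hη.comp x hf
  obtain ⟨a, ha⟩ := jet_of_contDiffAt hf
  refine ⟨hc, ?_, ?_⟩
  · rw [lap_of_jet_ExLapA hc (ha.comp h1 h2)]
    have ha2 : ∑ i, a i ^ 2 = ‖fderiv ℝ f x‖ ^ 2 := by
      rw [← sum_sq_ExLapA]
      exact Finset.sum_congr rfl fun i _ => by rw [jet_grad_ExLapA hf ha i]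
    rw [ha2]
  · have h3 := h1.self_of_nhds
    have h4 := (hf.differentiableAt (by norm_num)).hasFDerivAt
    exact (h3.comp_hasFDerivAt x h4).fderiv

theorem lap_le_of_isLocalMax (hf : ContDiffAt ℝ 2 f x) (h : IsLocalMax f x) :
    fderiv ℝ f x = 0 ∧ (Δ f) x ≤ 0 := by
  obtain ⟨a, ha⟩ := jet_of_contDiffAt hf
  exact ⟨h.fderiv_eq_zero, (ha.of_isLocalMax h).2⟩

end Pool.Agent.Lib.MP_188651_an
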