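import Pool.Agent.Lib.MP_188651_an.Defs

open Set Filter Metric Topology InnerProductSpace Laplacian
open scoped Pointwise

namespace Pool.Agent.Lib.MP_188651_an

variable {n : ℕ} {x : EE n}

private theorem jb_sq (v : EE n) (i : Fin n) (t : ℝ) :
    ‖v + t • EuclideanSpace.single i (1 : ℝ)‖ ^ 2 = ‖v‖ ^ 2 + 2 * t * v i + t ^ 2 := by
  rw [norm_add_sq_real, inner_smul_right, EuclideanSpace.inner_single_right, norm_smul]
  simp
  ring

private theorem jb_sum (v : EE n) : ∑ i, v i ^ 2 = ‖v‖ ^ 2 := by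
  rw [EuclideanSpace.norm_sq_eq]
  simp

private theorem jb_jet (κ : ℝ) (c x : EE n) (h : 0 < κ + ‖x - c‖ ^ 2) :
    Jet (fun y => √(κ + ‖y - c‖ ^ 2)) x
      (fun i => (x i - c i) / √(κ + ‖x - c‖ ^ 2))
      (n / √(κ + ‖x - c‖ ^ 2) - ‖x - c‖ ^ 2 / √(κ + ‖x - c‖ ^ 2) ^ 3) := by
  set v := x - c with hv
  set q := √(κ + ‖v‖ ^ 2) with hq
  have hq0 : 0 < q := Real.sqrt_pos.mpr h
  set Q : Fin n → ℝ → ℝ := fun i t => κ + ‖v‖ ^ 2 + 2 * t * v i + t ^ 2 with hQ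
  have hsl : ∀ (i : Fin n) (t : ℝ),
      κ + ‖x + t • EuclideanSpace.single i (1 : ℝ) - c‖ ^ 2 = Q i t := by
    intro i t
    have h1 : x + t • EuclideanSpace.single i (1 : ℝ) - c =
        v + t • EuclideanSpace.single i (1 : ℝ) := by
      rw [hv]
      abel
    rw [h1, jb_sq]
    simp only [hQ]
    ring
  have hQd : ∀ (i : Fin n) (t : ℝ), HasDerivAt (Q i) (2 * v i + 2 * t) t := by
    intro i t
    have h1 := (((hasDerivAt_id t).const_mul 2).mul_const (v i)).const_add (κ + ‖v‖ ^ 2)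
    have h2 := h1.add ((hasDerivAt_id t).pow 2)
    refine h2.congr_deriv ?_
    simp
  have hQ0 : ∀ i, Q i 0 = κ + ‖v‖ ^ 2 := by
    intro i
    simp [hQ]
  have hpos : ∀ i, ∀ᶠ t in 𝓝 (0 : ℝ), 0 < Q i t := by
    intro i
    have h1 : ContinuousAt (Q i) 0 := (hQd i 0).continuousAt
    exact h1.eventually (lt_mem_nhds (by rw [hQ0]; exact h))
  have hder : ∀ (i : Fin n) (t : ℝ), 0 < Q i t →
      HasDerivAt (fun t => √(Q i t)) ((v i + t) / √(Q i t)) t := by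
    intro i t ht
    have h1 := (hQd i t).sqrt ht.ne'
    refine h1.congr_deriv ?_
    have h2 : √(Q i t) ≠ 0 := (Real.sqrt_pos.mpr ht).ne'
    field_simp
  refine ⟨fun i t => (v i + t) / √(Q i t), fun i => 1 / q - v i ^ 2 / q ^ 3, ?_, ?_, ?_, ?_⟩
  · intro i
    filter_upwards [hpos i] with t ht
    have h1 : (fun t : ℝ => √(κ + ‖x + t • EuclideanSpace.single i (1 : ℝ) - c‖ ^ 2)) =
        fun t => √(Q i t) := by
      funext s
      rw [hsl]
    show HasDerivAt (fun t : ℝ => √(κ + ‖x + t • EuclideanSpace.single i (1 : ℝ) - c‖ ^ 2)) _ t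
    rw [h1]
    exact hder i t ht
  · intro i
    show (v i + 0) / √(Q i 0) = (x i - c i) / q
    rw [hQ0, add_zero]
    rfl
  · intro i
    have h0 : 0 < Q i 0 := by rw [hQ0]; exact h
    have h1 : HasDerivAt (fun t => v i + t) 1 (0 : ℝ) := (hasDerivAt_id 0).const_add _
    have h2 := h1.div (hder i 0 h0) (Real.sqrt_pos.mpr h0).ne'
    refine h2.congr_deriv ?_
    rw [hQ0, ← hq]
    simp only [add_zero, one_mul]
    field_simp
  · rw [Finset.sum_sub_distrib, ← Finset.sum_div, ← Finset.sum_div, jb_sum]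
    simp

theorem jet_norm_sub {c : EE n} (h : x ≠ c) :
    Jet (fun y => ‖y - c‖) x (fun i => (x i - c i) / ‖x - c‖) ((n - 1) / ‖x - c‖) := by
  have h0 : 0 < ‖x - c‖ := norm_pos_iff.mpr (sub_ne_zero.mpr h)
  have h1 := jb_jet 0 c x (by positivity)
  have h2 : ∀ y : EE n, √(0 + ‖y - c‖ ^ 2) = ‖y - c‖ := by
    intro y
    rw [zero_add, Real.sqrt_sq (norm_nonneg _)]
  simp only [h2] at h1
  have h3 : (n : ℝ) / ‖x - c‖ - ‖x - c‖ ^ 2 / ‖x - c‖ ^ 3 = (n - 1) / ‖x - c‖ := by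
    field_simp
  rw [h3] at h1
  exact h1

theorem sum_sq_norm_sub {c : EE n} (h : x ≠ c) : ∑ i, ((x i - c i) / ‖x - c‖) ^ 2 = 1 := by
  have h0 : 0 < ‖x - c‖ := norm_pos_iff.mpr (sub_ne_zero.mpr h)
  have h1 := jb_sum (x - c)
  have h2 : ∑ i, ((x i - c i) / ‖x - c‖) ^ 2 = (∑ i, (x - c) i ^ 2) / ‖x - c‖ ^ 2 := by
    rw [Finset.sum_div]
    refine Finset.sum_congr rfl fun i _ => ?_
    rw [div_pow]
    rfl
  rw [h2, h1, div_self (by positivity)]

theorem jet_hh (x : EE n) : ∃ (g : Fin n → ℝ) (L : ℝ), Jet hh x g L ∧ ∑ i, g i ^ 2 ≤ 1 ∧ |L| ≤ n := by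
  have h1 := jb_jet 1 0 x (by positivity)
  simp only [sub_zero] at h1
  set q := √(1 + ‖x‖ ^ 2) with hq
  have hq1 : 1 ≤ q := by
    rw [hq]
    apply Real.one_le_sqrt.mpr
    nlinarith [sq_nonneg ‖x‖]
  have hq0 : 0 < q := by linarith
  have hqq : q ^ 2 = 1 + ‖x‖ ^ 2 := Real.sq_sqrt (by positivity)
  refine ⟨_, _, h1, ?_, ?_⟩
  · have h2 : ∑ i, ((x i - (0 : EE n) i) / q) ^ 2 = ‖x‖ ^ 2 / q ^ 2 := by
      rw [← jb_sum, Finset.sum_div]
      refine Finset.sum_congr rfl fun i _ => ?_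
      rw [div_pow]
      simp
    rw [h2, div_le_one (by positivity), hqq]
    linarith
  · have h3 : ‖x‖ ^ 2 / q ^ 3 ≤ 1 / q := by
      rw [div_le_div_iff₀ (by positivity) hq0]
      nlinarith [sq_nonneg ‖x‖]
    have h4 : 0 ≤ ‖x‖ ^ 2 / q ^ 3 := by positivity
    have h5 : (n : ℝ) / q ≤ n := div_le_self (Nat.cast_nonneg n) hq1
    rw [abs_le]
    constructor
    · rcases Nat.eq_zero_or_pos n with hn | hn
      · subst hn
        have h6 : x = 0 := Subsingleton.elim _ _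
        rw [h6]
        simp
      · have h7 : (1 : ℝ) ≤ n := by exact_mod_cast hn
        have h8 : 1 / q ≤ (n : ℝ) / q := div_le_div_of_nonneg_right h7 hq0.le
        linarith
    · linarith

end Pool.Agent.Lib.MP_188651_an
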