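import Pool.Agent.Lib.MP_188651_an.ExDefs
import Pool.Agent.Lib.MP_188651_an.ExLapA
import Pool.Agent.Lib.MP_188651_an.JetB
import Pool.Agent.Lib.MP_188651_an.JetC

/-!
# Calculus for the Laplacian, part B: explicit functions
-/

open Set Filter Metric Topology InnerProductSpace Laplacian

namespace Pool.Agent.Lib.MP_188651_an

variable {n : ℕ}

private theorem lap_of_jet_ExLapB {φ : EE n → ℝ} {x : EE n} {g : Fin n → ℝ} {L : ℝ}
    (hφ : ContDiffAt ℝ 2 φ x) (h : Jet φ x g L) : (Δ φ) x = L := by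
  obtain ⟨g', h'⟩ := jet_of_contDiffAt hφ
  obtain ⟨D1, H, h1, h2, h3, h4⟩ := h
  obtain ⟨D1', H', h1', h2', h3', h4'⟩ := h'
  have key : ∀ i, D1 i =ᶠ[𝓝 0] D1' i := by
    intro i
    filter_upwards [h1 i, h1' i] with t ht ht'
    exact ht.unique ht'
  rw [← h4, ← h4']
  refine Finset.sum_congr rfl fun i _ => ?_
  exact ((h3 i).unique ((h3' i).congr_of_eventuallyEq (key i))).symm

private theorem jet_grad_ExLapB {φ : EE n → ℝ} {x : EE n} {g : Fin n → ℝ} {L : ℝ}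
    (hφ : ContDiffAt ℝ 2 φ x) (h : Jet φ x g L) (i : Fin n) :
    g i = fderiv ℝ φ x (EuclideanSpace.single i (1 : ℝ)) := by
  obtain ⟨D1, H, h1, h2, h3, h4⟩ := h
  have h5 := (h1 i).self_of_nhds
  have hx0 : x + (0 : ℝ) • EuclideanSpace.single i (1 : ℝ) = x := by simp
  have h6 : HasDerivAt (fun t : ℝ => x + t • EuclideanSpace.single i (1 : ℝ))
      (EuclideanSpace.single i (1 : ℝ)) 0 := by
    have h7 := ((hasDerivAt_id (0 : ℝ)).smul_const (EuclideanSpace.single i (1 : ℝ))).const_add x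
    simpa using h7
  have h7 : HasFDerivAt φ (fderiv ℝ φ x) (x + (0 : ℝ) • EuclideanSpace.single i (1 : ℝ)) := by
    rw [hx0]
    exact (hφ.differentiableAt (by norm_num)).hasFDerivAt
  have h8 := h7.comp_hasDerivAt (0 : ℝ) h6
  rw [← h2 i]
  exact h5.unique h8

private theorem sum_sq_ExLapB (ℓ : EE n →L[ℝ] ℝ) :
    ∑ i, ℓ (EuclideanSpace.single i (1 : ℝ)) ^ 2 = ‖ℓ‖ ^ 2 := by
  obtain ⟨v, rfl⟩ := (InnerProductSpace.toDual ℝ (EE n)).surjective ℓ
  rw [LinearIsometryEquiv.norm_map, EuclideanSpace.norm_sq_eq]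
  refine Finset.sum_congr rfl fun i _ => ?_
  rw [InnerProductSpace.toDual_apply_apply, EuclideanSpace.inner_single_right]
  simp

private theorem sq_slice_ExLapB (v : EE n) (i : Fin n) (t : ℝ) :
    ‖v + t • EuclideanSpace.single i (1 : ℝ)‖ ^ 2 = ‖v‖ ^ 2 + 2 * t * v i + t ^ 2 := by
  rw [norm_add_sq_real, inner_smul_right, EuclideanSpace.inner_single_right, norm_smul]
  simp
  ring

private theorem jet_sq_ExLapB (c x : EE n) :
    Jet (fun y => ‖y - c‖ ^ 2) x (fun i => 2 * (x i - c i)) (2 * (n : ℝ)) := by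
  refine ⟨fun i t => 2 * (x i - c i + t), fun _ => 2, ?_, ?_, ?_, ?_⟩
  · intro i
    refine Filter.Eventually.of_forall fun t => ?_
    have h : (fun t : ℝ => ‖x + t • EuclideanSpace.single i (1 : ℝ) - c‖ ^ 2) =
        fun t => ‖x - c‖ ^ 2 + 2 * t * (x i - c i) + t ^ 2 := by
      funext t
      have h1 : x + t • EuclideanSpace.single i (1 : ℝ) - c =
          (x - c) + t • EuclideanSpace.single i (1 : ℝ) := by abel
      rw [h1, sq_slice_ExLapB]
      rfl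
    show HasDerivAt (fun t : ℝ => ‖x + t • EuclideanSpace.single i (1 : ℝ) - c‖ ^ 2) _ t
    rw [h]
    have h1 := (((hasDerivAt_id t).const_mul 2).mul_const (x i - c i)).const_add (‖x - c‖ ^ 2)
    have h2 := h1.add ((hasDerivAt_id t).pow 2)
    refine h2.congr_deriv ?_
    simp
    ring
  · intro i
    show 2 * (x i - c i + 0) = 2 * (x i - c i)
    rw [add_zero]
  · intro i
    have h1 := ((hasDerivAt_id (0 : ℝ)).const_add (x i - c i)).const_mul 2
    refine h1.congr_deriv ?_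
    simp
  · simp
    ring

private theorem hasFDerivAt_sq_ExLapB (c x : EE n) :
    HasFDerivAt (fun y : EE n => ‖y - c‖ ^ 2) ((2 : ℝ) • innerSL ℝ (x - c)) x := by
  have h := ((hasFDerivAt_id x).sub_const c).norm_sq
  refine h.congr_fderiv ?_
  ext w
  simp

private theorem contDiff_sq_ExLapB (c : EE n) : ContDiff ℝ 2 (fun y : EE n => ‖y - c‖ ^ 2) :=
  (contDiff_id.sub contDiff_const).norm_sq ℝ

theorem radial {c x : EE n} {η : ℝ → ℝ} (hx : x ≠ c) (hη : ContDiffAt ℝ 2 η ‖x - c‖) :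
    ContDiffAt ℝ 2 (fun y => η ‖y - c‖) x ∧
      (Δ (fun y => η ‖y - c‖)) x =
        deriv (deriv η) ‖x - c‖ + ((n : ℝ) - 1) / ‖x - c‖ * deriv η ‖x - c‖ ∧
      ∀ w : EE n, fderiv ℝ (fun y => η ‖y - c‖) x w = deriv η ‖x - c‖ * (inner ℝ (x - c) w / ‖x - c‖) := by
  have hx' : x - c ≠ 0 := sub_ne_zero.mpr hx
  have h0 : 0 < ‖x - c‖ := norm_pos_iff.mpr hx'
  have hc : ContDiffAt ℝ 2 (fun y : EE n => ‖y - c‖) x :=
    (contDiffAt_id.sub contDiffAt_const).norm ℝ hx'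
  have hJ := jet_norm_sub hx
  have hlap : (Δ (fun y : EE n => ‖y - c‖)) x = ((n : ℝ) - 1) / ‖x - c‖ := lap_of_jet_ExLapB hc hJ
  have hnorm : ‖fderiv ℝ (fun y : EE n => ‖y - c‖) x‖ ^ 2 = 1 := by
    refine Eq.trans ?_ (sum_sq_norm_sub hx)
    rw [← sum_sq_ExLapB]
    exact Finset.sum_congr rfl fun i _ => by rw [← jet_grad_ExLapB hc hJ i]
  have hfd : HasFDerivAt (fun y : EE n => ‖y - c‖)
      ((1 / (2 * √(‖x - c‖ ^ 2))) • ((2 : ℝ) • innerSL ℝ (x - c))) x := by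
    have h1 := (hasFDerivAt_sq_ExLapB c x).sqrt (by positivity)
    have h2 : (fun y : EE n => √(‖y - c‖ ^ 2)) = fun y => ‖y - c‖ := by
      funext y
      exact Real.sqrt_sq (norm_nonneg _)
    rwa [h2] at h1
  have hη1 : ∀ᶠ s in 𝓝 ‖x - c‖, HasDerivAt η (deriv η s) s := by
    have h1 : ∀ᶠ s in 𝓝 ‖x - c‖, ContDiffAt ℝ 2 η s := hη.eventually (by simp)
    exact h1.mono fun s hs => (hs.differentiableAt (by norm_num)).hasDerivAt
  have hη2 : HasDerivAt (deriv η) (deriv (deriv η) ‖x - c‖) ‖x - c‖ := by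
    have h4 : DifferentiableAt ℝ (fderiv ℝ η) ‖x - c‖ :=
      (hη.fderiv_right (m := 1) (by norm_num)).differentiableAt (by norm_num)
    have h5 : deriv η = fun y => fderiv ℝ η y 1 := by
      ext y
      simp
    have h6 : DifferentiableAt ℝ (deriv η) ‖x - c‖ := by
      rw [h5]
      exact h4.clm_apply (differentiableAt_const _)
    exact h6.hasDerivAt
  obtain ⟨k1, k2, k3⟩ := lap_comp (f := fun y : EE n => ‖y - c‖) hc hη hη1 hη2
  refine ⟨k1, ?_, ?_⟩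
  · rw [k2, hnorm, hlap]
    ring
  · intro w
    rw [k3, hfd.fderiv, Real.sqrt_sq h0.le]
    simp only [smul_apply, innerSL_apply_apply, smul_eq_mul]
    field_simp

theorem hh_facts (x : EE n) : ContDiff ℝ 2 (hh : EE n → ℝ) ∧ |(Δ (hh : EE n → ℝ)) x| ≤ (n : ℝ) ∧
    ‖fderiv ℝ (hh : EE n → ℝ) x‖ ≤ 1 := by
  have hc : ContDiff ℝ 2 (hh : EE n → ℝ) := by
    have h1 : ContDiff ℝ 2 (fun x : EE n => 1 + ‖x‖ ^ 2) :=
      contDiff_const.add (contDiff_id.norm_sq ℝ)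
    have h2 : ∀ x : EE n, 1 + ‖x‖ ^ 2 ≠ 0 := fun x => by positivity
    exact h1.sqrt h2
  obtain ⟨g, L, hJ, h1, h2⟩ := jet_hh x
  refine ⟨hc, ?_, ?_⟩
  · rw [lap_of_jet_ExLapB hc.contDiffAt hJ]
    exact h2
  · have h3 : ‖fderiv ℝ (hh : EE n → ℝ) x‖ ^ 2 ≤ 1 := by
      rw [← sum_sq_ExLapB]
      refine le_trans (le_of_eq ?_) h1
      exact Finset.sum_congr rfl fun i _ => by rw [jet_grad_ExLapB hc.contDiffAt hJ i]
    have h4 := norm_nonneg (fderiv ℝ (hh : EE n → ℝ) x)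
    nlinarith

theorem sq_facts (c x : EE n) : ContDiff ℝ 2 (fun y : EE n => ‖y - c‖ ^ 2) ∧
    (Δ (fun y : EE n => ‖y - c‖ ^ 2)) x = 2 * (n : ℝ) ∧
    ∀ w, fderiv ℝ (fun y : EE n => ‖y - c‖ ^ 2) x w = 2 * inner ℝ (x - c) w := by
  refine ⟨contDiff_sq_ExLapB c,
    lap_of_jet_ExLapB (contDiff_sq_ExLapB c).contDiffAt (jet_sq_ExLapB c x), ?_⟩
  intro w
  rw [(hasFDerivAt_sq_ExLapB c x).fderiv]
  simp [inner_sub_left]

theorem quart_facts (c x : EE n) : ContDiff ℝ 2 (fun y : EE n => ‖y - c‖ ^ 4) ∧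
    (Δ (fun y : EE n => ‖y - c‖ ^ 4)) x = (4 * (n : ℝ) + 8) * ‖x - c‖ ^ 2 ∧
    ∀ w, fderiv ℝ (fun y : EE n => ‖y - c‖ ^ 4) x w = 4 * ‖x - c‖ ^ 2 * inner ℝ (x - c) w := by
  obtain ⟨s1, s2, s3⟩ := sq_facts c x
  have he : (fun y : EE n => ‖y - c‖ ^ 4) = fun y : EE n => (fun s : ℝ => s ^ 2) (‖y - c‖ ^ 2) := by
    funext y
    show ‖y - c‖ ^ 4 = (‖y - c‖ ^ 2) ^ 2
    ring
  have hη1 : ∀ᶠ s in 𝓝 (‖x - c‖ ^ 2), HasDerivAt (fun s : ℝ => s ^ 2) ((fun s : ℝ => 2 * s) s) s := by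
    refine Filter.Eventually.of_forall fun s => ?_
    refine ((hasDerivAt_id s).pow 2).congr_deriv ?_
    simp
  have hη2 : HasDerivAt (fun s : ℝ => 2 * s) 2 (‖x - c‖ ^ 2) := by
    refine ((hasDerivAt_id (‖x - c‖ ^ 2)).const_mul 2).congr_deriv ?_
    simp
  have hη : ContDiffAt ℝ 2 (fun s : ℝ => s ^ 2) (‖x - c‖ ^ 2) := by fun_prop
  obtain ⟨k1, k2, k3⟩ := lap_comp (f := fun y : EE n => ‖y - c‖ ^ 2) s1.contDiffAt hη hη1 hη2
  have hn : ‖fderiv ℝ (fun y : EE n => ‖y - c‖ ^ 2) x‖ = 2 * ‖x - c‖ := by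
    rw [(hasFDerivAt_sq_ExLapB c x).fderiv, norm_smul, innerSL_apply_norm]
    simp
  refine ⟨?_, ?_, ?_⟩
  · have h1 := s1.pow 2
    rw [he]
    exact h1
  · rw [he, k2, hn, s2]
    ring
  · intro w
    rw [he, k3]
    simp only [smul_apply, smul_eq_mul]
    rw [s3 w]
    ring

theorem inner_facts (a x : EE n) : ContDiff ℝ 2 (fun y : EE n => inner ℝ a y) ∧
    (Δ (fun y : EE n => inner ℝ a y)) x = 0 ∧
    ∀ w, fderiv ℝ (fun y : EE n => inner ℝ a y) x w = inner ℝ a w := by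
  have h1 : ContDiff ℝ 2 (fun y : EE n => inner ℝ a y) := (innerSL ℝ a).contDiff
  refine ⟨h1, ?_, ?_⟩
  · refine lap_of_jet_ExLapB (g := fun i => a i) h1.contDiffAt
      ⟨fun i _ => a i, fun _ => 0, ?_, fun i => rfl, fun i => hasDerivAt_const _ _, by simp⟩
    intro i
    refine Filter.Eventually.of_forall fun t => ?_
    have h2 : (fun t : ℝ => inner ℝ a (x + t • EuclideanSpace.single i (1 : ℝ))) =
        fun t => inner ℝ a x + t * a i := by
      funext t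
      rw [inner_add_right, inner_smul_right, EuclideanSpace.inner_single_right]
      simp
    show HasDerivAt (fun t : ℝ => inner ℝ a (x + t • EuclideanSpace.single i (1 : ℝ))) _ t
    rw [h2]
    refine (((hasDerivAt_id t).mul_const (a i)).const_add (inner ℝ a x)).congr_deriv ?_
    simp
  · intro w
    have h3 : HasFDerivAt (fun y : EE n => inner ℝ a y) (innerSL ℝ a) x :=
      (innerSL ℝ a).hasFDerivAt
    rw [h3.fderiv]
    rfl

end Pool.Agent.Lib.MP_188651_an
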