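import Pool.Agent.Lib.MP_188651_an.CDefs
import Pool.Agent.Lib.MP_188651_an.ExGeoB
import Pool.Agent.Lib.MP_188651_an.ExLapA
import Pool.Agent.Lib.MP_188651_an.ExLapB

/-!
# Comparison with a harmonic function near a boundary point
-/

open Set Filter Metric Topology InnerProductSpace Laplacian

namespace Pool.Agent.Lib.MP_188651_an

variable {n : ℕ} {ρ : ℝ} {D : Set (EE n)} {N : EE n → EE n}

/-- the barrier -/
private noncomputable def cCmpB (y ν : EE n) (a b : ℝ) (x : EE n) : ℝ :=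
  a * (inner ℝ ν x - inner ℝ ν y) - b * ‖x - y‖ ^ 2

private theorem cCmpB_contDiff (y ν : EE n) (a b : ℝ) : ContDiff ℝ 2 (cCmpB y ν a b) := by
  obtain ⟨s1, -, -⟩ := sq_facts y y
  obtain ⟨i1, -, -⟩ := inner_facts ν y
  exact (contDiff_const.mul (i1.sub contDiff_const)).sub (contDiff_const.mul s1)

private theorem cCmpB_lap (y ν : EE n) (a b : ℝ) (x : EE n) :
    (Δ (cCmpB y ν a b)) x = -(b * (2 * (n : ℝ))) := by
  obtain ⟨s1, s2, -⟩ := sq_facts y x
  obtain ⟨i1, i2, -⟩ := inner_facts ν x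
  have h1 : (Δ (fun z : EE n => inner ℝ ν z - inner ℝ ν y)) x = 0 := by
    rw [lap_sub i1.contDiffAt contDiffAt_const, i2, lap_const, sub_zero]
  have h2 : (Δ (fun z : EE n => a * (inner ℝ ν z - inner ℝ ν y))) x = 0 := by
    rw [lap_const_mul a (i1.contDiffAt.sub contDiffAt_const), h1, mul_zero]
  have h3 : (Δ (fun z : EE n => b * ‖z - y‖ ^ 2)) x = b * (2 * (n : ℝ)) := by
    rw [lap_const_mul b s1.contDiffAt, s2]
  have h4 : (Δ (cCmpB y ν a b)) x = (Δ (fun z : EE n => a * (inner ℝ ν z - inner ℝ ν y))) x -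
      (Δ (fun z : EE n => b * ‖z - y‖ ^ 2)) x :=
    lap_sub (contDiffAt_const.mul (i1.contDiffAt.sub contDiffAt_const))
      (contDiffAt_const.mul s1.contDiffAt)
  rw [h4, h2, h3, zero_sub]

private theorem cCmpB_fderiv (y ν : EE n) (a b : ℝ) (x w : EE n) :
    fderiv ℝ (cCmpB y ν a b) x w = a * inner ℝ ν w - b * (2 * inner ℝ (x - y) w) := by
  obtain ⟨s1, -, s3⟩ := sq_facts y x
  obtain ⟨i1, -, i3⟩ := inner_facts ν x
  have hi : DifferentiableAt ℝ (fun z : EE n => inner ℝ ν z) x := i1.contDiffAt.differentiableAt (by norm_num)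
  have hs : DifferentiableAt ℝ (fun z : EE n => ‖z - y‖ ^ 2) x := s1.contDiffAt.differentiableAt (by norm_num)
  have h1 : HasFDerivAt (cCmpB y ν a b) (a • fderiv ℝ (fun z : EE n => inner ℝ ν z) x -
      b • fderiv ℝ (fun z : EE n => ‖z - y‖ ^ 2) x) x := by
    refine ((hi.hasFDerivAt.sub_const (inner ℝ ν y)).const_mul a).sub (hs.hasFDerivAt.const_mul b)
  rw [h1.fderiv]
  simp only [sub_apply, smul_apply, smul_eq_mul, i3, s3]

theorem cmp_neu (hn : 1 ≤ n) (hD : BD ρ D N) {y : EE n} (hy : y ∈ frontier D) {R r κ Λ m : ℝ} (hR : 0 < R)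
    (hRρ : R ≤ ρ / 4) (hr : R < r) (hκ : 0 < κ) (hΛ : 0 ≤ Λ) {v h : EE n → ℝ}
    (hv : ContinuousOn v (closure D)) (hv2 : ContDiffOn ℝ 2 v D) (hΔ : ∀ x ∈ D, |(Δ v) x| ≤ Λ)
    (hh : ContDiffOn ℝ 2 h (ball y r)) (hh0 : ∀ x ∈ ball y r, (Δ h) x = 0)
    (hb : ∀ y' ∈ frontier D, ‖y' - y‖ ≤ R → ∀ φ : EE n → ℝ, TouchA (closure D) v φ y' →
      fderiv ℝ φ y' (N y') ≤ κ)
    (hhN : ∀ y' ∈ frontier D, ‖y' - y‖ ≤ R → -κ ≤ fderiv ℝ h y' (N y'))
    (hm : ∀ x ∈ closure D, ‖x - y‖ = R → v x - h x ≤ m) :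
    ∀ x ∈ closure D, ‖x - y‖ ≤ R → v x - h x ≤ m + 12 * (κ + (Λ + 1) * R) * R + (Λ + 1) * R ^ 2 := by
  have hn' : (1 : ℝ) ≤ n := by exact_mod_cast hn
  have hn0 : (0 : ℝ) < n := by linarith
  have hρ := hD.pos
  set ν := N y with hνdef
  have hν : ‖ν‖ = 1 := hD.unit y hy
  set κ' : ℝ := κ + (Λ + 1) * R with hκ'
  have hκ'0 : 0 < κ' := by positivity
  set b : ℝ := (Λ + 1) / (2 * n) with hbdef
  have hb0 : 0 ≤ b := by positivity
  have hb1 : b * (2 * (n : ℝ)) = Λ + 1 := by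
    rw [hbdef]; field_simp
  have hb2 : 2 * b ≤ Λ + 1 := by
    nlinarith
  set β : EE n → ℝ := cCmpB y ν (6 * κ') b with hβ
  have hβc : ContDiff ℝ 2 β := cCmpB_contDiff y ν (6 * κ') b
  set S : Set (EE n) := closure D ∩ closedBall y R with hS
  have hScomp : IsCompact S := (isCompact_closedBall y R).inter_left isClosed_closure
  have hsub : closedBall y R ⊆ ball y r := closedBall_subset_ball hr
  have hw : ContinuousOn (fun x => v x - h x - β x) S :=
    ((hv.mono inter_subset_left).sub (hh.continuousOn.mono (inter_subset_right.trans hsub))).sub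
      hβc.continuous.continuousOn
  have hyS : y ∈ S := ⟨frontier_subset_closure hy, mem_closedBall_self hR.le⟩
  obtain ⟨z, hzS, hz⟩ := hScomp.exists_isMaxOn ⟨y, hyS⟩ hw
  have hzle : ∀ x ∈ S, v x - h x - β x ≤ v z - h z - β z := fun x hx => hz hx
  have hzR : ‖z - y‖ ≤ R := by
    have := hzS.2
    rwa [mem_closedBall, dist_eq_norm] at this
  have hhat : ∀ x, ‖x - y‖ < r → ContDiffAt ℝ 2 h x := by
    intro x hx
    refine hh.contDiffAt (isOpen_ball.mem_nhds ?_)
    rwa [mem_ball, dist_eq_norm]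
  have key : ‖z - y‖ = R := by
    by_contra hne
    have hlt : ‖z - y‖ < R := lt_of_le_of_ne hzR hne
    have hzB : z ∈ ball y R := by rwa [mem_ball, dist_eq_norm]
    have hhz := hhat z (hlt.trans hr)
    by_cases hzD : z ∈ D
    · have hmem : D ∩ ball y R ∈ 𝓝 z := (hD.isOpen.inter isOpen_ball).mem_nhds ⟨hzD, hzB⟩
      have hmax : IsLocalMax (fun x => (v x - h x) - β x) z := by
        filter_upwards [hmem] with x hx
        exact hzle x ⟨subset_closure hx.1, ball_subset_closedBall hx.2⟩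
      have hvz : ContDiffAt ℝ 2 v z := hv2.contDiffAt (hD.isOpen.mem_nhds hzD)
      have h1 := (lap_le_of_isLocalMax ((hvz.sub hhz).sub hβc.contDiffAt) hmax).2
      have h2 : (Δ (fun x => (v x - h x) - β x)) z = (Δ v) z - (Δ h) z - (Δ β) z := by
        rw [lap_sub (f := fun x => v x - h x) (g := β) (hvz.sub hhz) hβc.contDiffAt,
          lap_sub hvz hhz]
      have h3 : (Δ β) z = -(b * (2 * (n : ℝ))) := cCmpB_lap y ν (6 * κ') b z
      have h4 : (Δ h) z = 0 := hh0 z (hsub hzS.2)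
      rw [h2, h3, h4, hb1] at h1
      have h5 := (abs_le.1 (hΔ z hzD)).1
      linarith
    · have hzf : z ∈ frontier D := ⟨hzS.1, by rwa [hD.isOpen.interior_eq]⟩
      set c : ℝ := v z - h z - β z with hc
      have hφ : ContDiffAt ℝ 2 (fun x => h x + β x + c) z :=
        (hhz.add hβc.contDiffAt).add contDiffAt_const
      have hT : TouchA (closure D) v (fun x => h x + β x + c) z := by
        refine ⟨hφ, by simp only [hc]; ring, ?_⟩
        have h1 : ball y R ∈ 𝓝[closure D] z := mem_nhdsWithin_of_mem_nhds (isOpen_ball.mem_nhds hzB)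
        filter_upwards [h1, self_mem_nhdsWithin] with x hx1 hx2
        have := hzle x ⟨hx2, ball_subset_closedBall hx1⟩
        simp only [hc]
        linarith
      have h1 := hb z hzf hzR _ hT
      have hd1 : DifferentiableAt ℝ h z := hhz.differentiableAt (by norm_num)
      have hd2 : DifferentiableAt ℝ β z := hβc.contDiffAt.differentiableAt (by norm_num)
      have h2 : fderiv ℝ (fun x => h x + β x + c) z = fderiv ℝ h z + fderiv ℝ β z :=
        ((hd1.hasFDerivAt.add hd2.hasFDerivAt).add_const c).fderiv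
      rw [h2, add_apply] at h1
      have h3 : fderiv ℝ β z (N z) = 6 * κ' * inner ℝ ν (N z) - b * (2 * inner ℝ (z - y) (N z)) :=
        cCmpB_fderiv y ν (6 * κ') b z (N z)
      have h4 := hhN z hzf hzR
      have hNz : ‖N z‖ = 1 := hD.unit z hzf
      have h5 : ‖ν - N z‖ ≤ 1 / 4 := by
        refine (hD.N_sub_le hy hzf).trans ?_
        rw [norm_sub_rev, div_le_iff₀ hρ]
        linarith
      have h6 : 1 / 2 ≤ inner ℝ ν (N z) := by
        have h7 := norm_sub_sq_real ν (N z)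
        rw [hν, hNz] at h7
        have h8 : ‖ν - N z‖ ^ 2 ≤ (1 / 4) ^ 2 := pow_le_pow_left₀ (norm_nonneg _) h5 2
        linarith
      have h7 : inner ℝ (z - y) (N z) ≤ R := by
        refine (real_inner_le_norm _ _).trans ?_
        rw [hNz, mul_one]
        exact hzR
      have h8 : b * (2 * inner ℝ (z - y) (N z)) ≤ (Λ + 1) * R := by
        calc b * (2 * inner ℝ (z - y) (N z)) ≤ b * (2 * R) :=
              mul_le_mul_of_nonneg_left (by linarith) hb0
          _ = (2 * b) * R := by ring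
          _ ≤ (Λ + 1) * R := mul_le_mul_of_nonneg_right hb2 hR.le
      have h9 : 3 * κ' ≤ 6 * κ' * inner ℝ ν (N z) := by
        nlinarith
      rw [h3] at h1
      have h10 : 0 ≤ (Λ + 1) * R := by positivity
      linarith
  intro x hx hxR
  have hxS : x ∈ S := ⟨hx, by rwa [mem_closedBall, dist_eq_norm]⟩
  have h1 := hzle x hxS
  have h2 := hm z hzS.1 key
  have hβx : β x = 6 * κ' * inner ℝ ν (x - y) - b * ‖x - y‖ ^ 2 := by
    rw [hβ, cCmpB, inner_sub_right]
  have hβz : β z = 6 * κ' * inner ℝ ν (z - y) - b * ‖z - y‖ ^ 2 := by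
    rw [hβ, cCmpB, inner_sub_right]
  have h3 : inner ℝ ν (x - y) ≤ R := by
    refine (real_inner_le_norm _ _).trans ?_
    rw [hν, one_mul]
    exact hxR
  have h4 : -R ≤ inner ℝ ν (z - y) := by
    have h5 := (abs_le.1 (abs_real_inner_le_norm ν (z - y))).1
    rw [hν, one_mul, key] at h5
    exact h5
  have h5 : β x ≤ 6 * κ' * R := by
    rw [hβx]
    have h6 : 6 * κ' * inner ℝ ν (x - y) ≤ 6 * κ' * R := mul_le_mul_of_nonneg_left h3 (by positivity)
    have h7 : 0 ≤ b * ‖x - y‖ ^ 2 := by positivity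
    linarith
  have h6 : -β z ≤ 6 * κ' * R + (Λ + 1) * R ^ 2 := by
    rw [hβz, key]
    have h7 : 6 * κ' * (-R) ≤ 6 * κ' * inner ℝ ν (z - y) := mul_le_mul_of_nonneg_left h4 (by positivity)
    have h8 : b * R ^ 2 ≤ (Λ + 1) * R ^ 2 :=
      mul_le_mul_of_nonneg_right (by linarith) (by positivity)
    linarith
  linarith

end Pool.Agent.Lib.MP_188651_an
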