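import Pool.Agent.Lib.MP_188651_an.ExMaxBall

/-!
# Generalised solutions: elementary facts, bound, `C¹` regularity
-/

open Set Filter Metric Topology InnerProductSpace Laplacian

namespace Pool.Agent.Lib.MP_188651_an

variable {n : ℕ}

theorem LimSol.mono {O O' : Set (EE n)} {G w : EE n → ℝ} (h : LimSol O G w) (hO : O' ⊆ O) : LimSol O' G w := by
  obtain ⟨wk, h1, h2, h3⟩ := h
  exact ⟨wk, fun k => (h1 k).mono hO, h2.mono hO, h3.mono hO⟩

theorem LimSol.congr {O : Set (EE n)} {G w G' w' : EE n → ℝ} (h : LimSol O G w) (hG : ∀ x ∈ O, G x = G' x)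
    (hw : ∀ x ∈ O, w x = w' x) : LimSol O G' w' := by
  obtain ⟨wk, h1, h2, h3⟩ := h
  exact ⟨wk, h1, h2.congr_right hw, h3.congr_right hG⟩

theorem LimSol.sub {O : Set (EE n)} (hO : IsOpen O) {G w G' w' : EE n → ℝ} (h : LimSol O G w)
    (h' : LimSol O G' w') : LimSol O (fun x => G x - G' x) (fun x => w x - w' x) := by
  obtain ⟨wk, h1, h2, h3⟩ := h
  obtain ⟨wk', h1', h2', h3'⟩ := h'
  refine ⟨fun k x => wk k x - wk' k x, fun k => (h1 k).sub (h1' k), ?_, ?_⟩
  · exact h2.fun_sub h2'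
  · refine (h3.fun_sub h3').congr (Eventually.of_forall fun k x hx => ?_)
    have e1 : ContDiffAt ℝ 2 (wk k) x := (h1 k).contDiffAt (hO.mem_nhds hx)
    have e2 : ContDiffAt ℝ 2 (wk' k) x := (h1' k).contDiffAt (hO.mem_nhds hx)
    have e3 := lap_sub e1 e2
    show -(Δ (wk k)) x - -(Δ (wk' k)) x = -(Δ (fun y => wk k y - wk' k y)) x
    rw [e3]
    ring

/-- A radius `r' < r`, larger than a given radius and close to `r`, on whose sphere `w` is at most `A + e`. -/
private theorem near_sphere_ExLimA {c : EE n} {r : ℝ} (hr : 0 < r) {w : EE n → ℝ}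
    (hw : ContinuousOn w (closedBall c r)) {A : ℝ} (hA : ∀ x ∈ sphere c r, |w x| ≤ A) {e s : ℝ} (he : 0 < e)
    (hs : s < r) :
    ∃ r', 0 < r' ∧ s < r' ∧ r' < r ∧ ∀ y ∈ sphere c r', |w y| ≤ A + e := by
  have hu : UniformContinuousOn w (closedBall c r) :=
    (isCompact_closedBall c r).uniformContinuousOn_of_continuous hw
  obtain ⟨δ, hδ, hd⟩ := Metric.uniformContinuousOn_iff.1 hu e he
  obtain ⟨r', hr1, hr2⟩ := exists_between (show max (max 0 s) (r - δ) < r from
    max_lt (max_lt hr hs) (by linarith))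
  have h0 : 0 < r' := lt_of_le_of_lt (le_trans (le_max_left _ _) (le_max_left _ _)) hr1
  have h1 : s < r' := lt_of_le_of_lt (le_trans (le_max_right _ _) (le_max_left _ _)) hr1
  have h2 : r - δ < r' := lt_of_le_of_lt (le_max_right _ _) hr1
  refine ⟨r', h0, h1, hr2, fun y hy => ?_⟩
  have hy' : ‖y - c‖ = r' := by rw [← dist_eq_norm]; exact hy
  set z : EE n := c + (r / r') • (y - c) with hz
  have hzs : z ∈ sphere c r := by
    rw [mem_sphere, dist_eq_norm, hz, add_sub_cancel_left, norm_smul, hy', Real.norm_of_nonneg (by positivity)]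
    field_simp
  have hyz : dist y z < δ := by
    have e1 : y - z = (1 - r / r') • (y - c) := by
      rw [hz]
      module
    rw [dist_eq_norm, e1, norm_smul, hy', Real.norm_of_nonpos, neg_sub, sub_mul, div_mul_cancel₀ _ h0.ne', one_mul]
    · linarith
    · rw [sub_nonpos, le_div_iff₀ h0, one_mul]
      exact hr2.le
  have hyB : y ∈ closedBall c r := by
    rw [mem_closedBall]
    exact (mem_sphere.1 hy).le.trans hr2.le
  have h3 := hd y hyB z (sphere_subset_closedBall hzs) hyz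
  rw [Real.dist_eq] at h3
  have h4 := hA z hzs
  have h5 : |w y| ≤ |w y - w z| + |w z| := by
    have := abs_add_le (w y - w z) (w z)
    simpa using this
  linarith

theorem LimSol.bound (hn : 1 ≤ n) {c : EE n} {r : ℝ} (hr : 0 < r) {G w : EE n → ℝ} (h : LimSol (ball c r) G w)
    (hw : ContinuousOn w (closedBall c r)) {A B : ℝ} (hA : ∀ x ∈ sphere c r, |w x| ≤ A)
    (hB : ∀ x ∈ ball c r, |G x| ≤ B) : ∀ x ∈ closedBall c r, |w x| ≤ A + B * r ^ 2 / (2 * n) := by
  intro x hx
  have hB0 : 0 ≤ B := (abs_nonneg _).trans (hB c (mem_ball_self hr))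
  have hn0 : (0 : ℝ) < n := by exact_mod_cast hn
  rcases (mem_closedBall.1 hx).eq_or_lt with hxs | hxb
  · have h1 := hA x (mem_sphere.2 hxs)
    have h2 : 0 ≤ B * r ^ 2 / (2 * n) := by positivity
    linarith
  obtain ⟨wk, h1, h2, h3⟩ := h
  have hK : 0 < 3 + r ^ 2 / (2 * n) := by positivity
  refine le_of_forall_pos_le_add fun ε hε => ?_
  set e := ε / (3 + r ^ 2 / (2 * n)) with he
  have he0 : 0 < e := by rw [he]; positivity
  obtain ⟨r', hr0, hxr', hr'r, hsph⟩ := near_sphere_ExLimA hr hw hA he0 hxb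
  have hsub : closedBall c r' ⊆ ball c r := closedBall_subset_ball hr'r
  obtain ⟨k, hk1, hk2⟩ := ((Metric.tendstoUniformlyOn_iff.1 h2 e he0).and
    (Metric.tendstoUniformlyOn_iff.1 h3 e he0)).exists
  have hc : ContinuousOn (wk k) (closedBall c r') := (h1 k).continuousOn.mono hsub
  have hc2 : ContDiffOn ℝ 2 (wk k) (ball c r') := (h1 k).mono (ball_subset_closedBall.trans hsub)
  have hb1 : ∀ y ∈ sphere c r', |wk k y| ≤ A + 2 * e := by
    intro y hy
    have g1 := hk1 y (hsub (sphere_subset_closedBall hy))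
    have g2 := hsph y hy
    rw [Real.dist_eq] at g1
    have g3 := abs_lt.1 g1
    have g4 := abs_le.1 g2
    rw [abs_le]
    constructor <;> linarith
  have hb2 : ∀ y ∈ ball c r', |(Δ (wk k)) y| ≤ B + e := by
    intro y hy
    have hyO : y ∈ ball c r := hsub (ball_subset_closedBall hy)
    have g1 := hk2 y hyO
    have g2 := hB y hyO
    rw [Real.dist_eq] at g1
    have g3 := abs_lt.1 g1
    have g4 := abs_le.1 g2
    rw [abs_le]
    constructor <;> linarith
  have hfin := ball_bound hn hr0 hc hc2 hb1 hb2 x (mem_closedBall.2 hxr'.le)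
  have g1 := hk1 x (mem_ball.2 hxb)
  rw [Real.dist_eq] at g1
  have g3 := abs_lt.1 g1
  have g4 := abs_le.1 hfin
  have g5 : (B + e) * r' ^ 2 / (2 * n) ≤ (B + e) * r ^ 2 / (2 * n) := by
    have : r' ^ 2 ≤ r ^ 2 := pow_le_pow_left₀ hr0.le hr'r.le 2
    gcongr
  have g6 : (B + e) * r ^ 2 / (2 * n) = B * r ^ 2 / (2 * n) + e * (r ^ 2 / (2 * n)) := by
    field_simp
  have g7 : 3 * e + e * (r ^ 2 / (2 * n)) = ε := by
    have : e * (3 + r ^ 2 / (2 * n)) = ε := by
      rw [he]
      exact div_mul_cancel₀ _ hK.ne'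
    linarith
  rw [abs_le]
  constructor <;> linarith

end Pool.Agent.Lib.MP_188651_an
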