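import Pool.Agent.Lib.MP_188651_an.ExLipInt

/-!
# Generalised solutions are `C¹`
-/

open Set Filter Metric Topology InnerProductSpace Laplacian

namespace Pool.Agent.Lib.MP_188651_an

variable {n : ℕ}

theorem LimSol.c1 {c : EE n} {R : ℝ} (hR : 0 < R) {G w : EE n → ℝ} (h : LimSol (ball c R) G w) :
    ContDiffOn ℝ 1 w (ball c R) := by
  obtain ⟨wk, hwk, hw, hG⟩ := h
  obtain ⟨C, hC, hlip⟩ := lip_int n
  intro x0 hx0
  apply ContDiffAt.contDiffWithinAt
  set r0 : ℝ := R - dist x0 c with hr0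
  have hr0p : 0 < r0 := by
    rw [mem_ball] at hx0
    linarith
  have hsub : ball x0 r0 ⊆ ball c R := by
    refine ball_subset_ball' ?_
    rw [hr0]
    linarith
  have hsub2 : ball x0 (r0 / 2) ⊆ ball c R := (ball_subset_ball (by linarith)).trans hsub
  have hCk : ∀ k, ∀ x ∈ ball c R, ContDiffAt ℝ 2 (wk k) x := fun k x hx =>
    (hwk k).contDiffAt (isOpen_ball.mem_nhds hx)
  have hD : ∀ k, ∀ x ∈ ball c R, DifferentiableAt ℝ (wk k) x := fun k x hx =>
    (hCk k x hx).differentiableAt (by simp)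
  have hCauchy : UniformCauchySeqOn (fun k x => fderiv ℝ (wk k) x) atTop (ball x0 (r0 / 2)) := by
    rw [Metric.uniformCauchySeqOn_iff]
    intro ε hε
    set q : ℝ := C * (1 / r0 + r0) with hq
    have hqp : 0 < q := by positivity
    set η : ℝ := ε / (2 * q) with hη
    have hηp : 0 < η := by positivity
    have hw' := (Metric.tendstoUniformlyOn_iff.1 hw) (η / 2) (by positivity)
    have hG' := (Metric.tendstoUniformlyOn_iff.1 hG) (η / 2) (by positivity)
    obtain ⟨N, hN⟩ := eventually_atTop.1 (hw'.and hG')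
    refine ⟨N, fun k hk l hl x hx => ?_⟩
    have hvC : ContDiffOn ℝ 2 (fun y => wk k y - wk l y) (ball x0 r0) :=
      ((hwk k).sub (hwk l)).mono hsub
    have h1 := hlip x0 r0 η η (fun y => wk k y - wk l y) hr0p hηp.le hηp.le hvC
      (fun y hy => by
        have e1 := (hN k hk).1 y (hsub hy)
        have e2 := (hN l hl).1 y (hsub hy)
        rw [Real.dist_eq, abs_lt] at e1 e2
        rw [abs_le]
        constructor <;> linarith)
      (fun y hy => by
        have e1 := (hN k hk).2 y (hsub hy)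
        have e2 := (hN l hl).2 y (hsub hy)
        rw [Real.dist_eq, abs_lt] at e1 e2
        rw [lap_sub (hCk k y (hsub hy)) (hCk l y (hsub hy)), abs_le]
        constructor <;> linarith)
    have h2 : ‖fderiv ℝ (fun y => wk k y - wk l y) x‖ ≤ C * (η / r0 + η * r0) := by
      refine norm_fderiv_le_of_lip' ℝ (by positivity) ?_
      filter_upwards [isOpen_ball.mem_nhds hx] with y hy
      exact h1 y hy x hx
    have h3 : fderiv ℝ (fun y => wk k y - wk l y) x = fderiv ℝ (wk k) x - fderiv ℝ (wk l) x :=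
      fderiv_fun_sub (hD k x (hsub2 hx)) (hD l x (hsub2 hx))
    rw [dist_eq_norm, ← h3]
    refine lt_of_le_of_lt h2 ?_
    have h4 : C * (η / r0 + η * r0) = ε / 2 := by
      rw [hη, hq]
      field_simp
    rw [h4]
    linarith
  have hlim : ∀ x ∈ ball x0 (r0 / 2), ∃ g : EE n →L[ℝ] ℝ,
      Tendsto (fun k => fderiv ℝ (wk k) x) atTop (𝓝 g) := by
    intro x hx
    refine cauchySeq_tendsto_of_complete ?_
    rw [Metric.cauchySeq_iff]
    intro ε hε
    obtain ⟨N, hN⟩ := (Metric.uniformCauchySeqOn_iff.1 hCauchy) ε hε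
    exact ⟨N, fun k hk l hl => hN k hk l hl x hx⟩
  classical
  let g' : EE n → EE n →L[ℝ] ℝ := fun x =>
    if hx : x ∈ ball x0 (r0 / 2) then (hlim x hx).choose else 0
  have hg' : ∀ x ∈ ball x0 (r0 / 2), Tendsto (fun k => fderiv ℝ (wk k) x) atTop (𝓝 (g' x)) := by
    intro x hx
    simp only [g', dif_pos hx]
    exact (hlim x hx).choose_spec
  have hunif : TendstoUniformlyOn (fun k x => fderiv ℝ (wk k) x) g' atTop (ball x0 (r0 / 2)) :=
    hCauchy.tendstoUniformlyOn_of_tendsto hg'
  rw [contDiffAt_one_iff]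
  refine ⟨g', ball x0 (r0 / 2), ball_mem_nhds _ (by positivity), ?_, ?_⟩
  · refine hunif.continuousOn (Frequently.of_forall fun k => ?_)
    intro x hx
    exact (((hCk k x (hsub2 hx)).fderiv_right (m := 1) (by norm_num)).continuousAt).continuousWithinAt
  · intro x hx
    refine hasFDerivAt_of_tendstoUniformlyOn isOpen_ball hunif
      (fun k y hy => (hD k y (hsub2 hy)).hasFDerivAt) (fun y hy => ?_) hx
    exact hw.tendsto_at (hsub2 hy)

end Pool.Agent.Lib.MP_188651_an
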