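import Pool.Agent.Lib.MP_188651_an.ExLapA
import Pool.Agent.Lib.MP_188651_an.ExLapB

/-!
# Generalised solutions of class C2
-/

open Set Filter Metric Topology InnerProductSpace Laplacian

namespace Pool.Agent.Lib.MP_188651_an

variable {n : ℕ}

private theorem limEq_le {O : Set (EE n)} (hO : IsOpen O) {G w : EE n → ℝ}
    (h : LimSol O G w) (hG : ContinuousOn G O) (hw : ContDiffOn ℝ 2 w O) {x0 : EE n} (hx0 : x0 ∈ O) :
    -(Δ w) x0 ≤ G x0 := by
  by_contra hcon
  push Not at hcon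
  obtain ⟨wk, hwk, hwu, hGu⟩ := h
  set ε : ℝ := (-(Δ w) x0 - G x0) / 4 with hε
  have hεp : 0 < ε := by rw [hε]; linarith
  have hwc : ∀ x ∈ O, ContDiffAt ℝ 2 w x := fun x hx => hw.contDiffAt (hO.mem_nhds hx)
  have hwkc : ∀ k, ∀ x ∈ O, ContDiffAt ℝ 2 (wk k) x := fun k x hx =>
    (hwk k).contDiffAt (hO.mem_nhds hx)
  have hΔ : ∀ᶠ x in 𝓝 x0, -(Δ w) x0 - ε < -(Δ w) x :=
    (lap_continuousAt (hwc x0 hx0)).neg.eventually (lt_mem_nhds (by simpa using hεp))
  have hGe : ∀ᶠ x in 𝓝 x0, G x < G x0 + ε :=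
    (hG.continuousAt (hO.mem_nhds hx0)).eventually (gt_mem_nhds (by linarith))
  obtain ⟨r, hr, hrs⟩ := Metric.nhds_basis_closedBall.mem_iff.1
    (inter_mem (inter_mem hΔ hGe) (hO.mem_nhds hx0))
  set κ : ℝ := ε / (2 * n + 2) with hκ
  have hκp : 0 < κ := by positivity
  have hκn : 2 * (n : ℝ) * κ ≤ ε := by
    rw [hκ, mul_div_assoc', div_le_iff₀ (by positivity)]
    nlinarith
  have e1 := (Metric.tendstoUniformlyOn_iff.1 hwu) (κ * r ^ 2 / 4) (by positivity)
  have e2 := (Metric.tendstoUniformlyOn_iff.1 hGu) (ε / 2) (by positivity)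
  obtain ⟨k, hk1, hk2⟩ := (e1.and e2).exists
  let f : EE n → ℝ := fun x => wk k x - w x - κ * ‖x - x0‖ ^ 2
  have hsubO : closedBall x0 r ⊆ O := fun x hx => (hrs hx).2
  have hfc : ContinuousOn f (closedBall x0 r) := by
    have h1 : ContinuousOn (wk k) (closedBall x0 r) := (hwk k).continuousOn.mono hsubO
    have h2 : ContinuousOn w (closedBall x0 r) := hw.continuousOn.mono hsubO
    have h3 : Continuous fun x : EE n => κ * ‖x - x0‖ ^ 2 := by fun_prop
    exact (h1.sub h2).sub h3.continuousOn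
  obtain ⟨x, hx, hmax⟩ := (isCompact_closedBall x0 r).exists_isMaxOn
    ⟨x0, mem_closedBall_self hr.le⟩ hfc
  have hxO := hsubO hx
  have hfx : f x0 ≤ f x := hmax (mem_closedBall_self hr.le)
  have hxlt : x ∈ ball x0 r := by
    rw [mem_ball]
    refine lt_of_le_of_ne hx fun heq => ?_
    have a1 := hk1 x hxO
    have a2 := hk1 x0 hx0
    rw [Real.dist_eq, abs_lt] at a1 a2
    rw [dist_eq_norm] at heq
    simp only [f, heq, sub_self, norm_zero] at hfx
    have : 0 < κ * r ^ 2 := by positivity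
    nlinarith
  have hloc : IsLocalMax f x := hmax.isLocalMax (mem_of_superset (isOpen_ball.mem_nhds hxlt)
    ball_subset_closedBall)
  obtain ⟨q1, q2, _⟩ := sq_facts x0 x
  have hd1 : ContDiffAt ℝ 2 (fun y => wk k y - w y) x := (hwkc k x hxO).sub (hwc x hxO)
  have hd2 : ContDiffAt ℝ 2 (fun y : EE n => κ * ‖y - x0‖ ^ 2) x :=
    contDiffAt_const.mul q1.contDiffAt
  have hlap := (lap_le_of_isLocalMax (hd1.sub hd2) hloc).2
  have hlap' : (Δ (fun y => (wk k y - w y) - κ * ‖y - x0‖ ^ 2)) x ≤ 0 := hlap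
  rw [lap_sub hd1 hd2, lap_sub (hwkc k x hxO) (hwc x hxO), lap_const_mul κ q1.contDiffAt, q2] at hlap'
  have b1 := hk2 x hxO
  rw [Real.dist_eq, abs_lt] at b1
  have b2 : -(Δ w) x0 - ε < -(Δ w) x := (hrs hx).1.1
  have b3 : G x < G x0 + ε := (hrs hx).1.2
  have b4 : 4 * ε = -(Δ w) x0 - G x0 := by rw [hε]; ring
  linarith

theorem LimSol.eq_of_c2 {O : Set (EE n)} (hO : IsOpen O) {G w : EE n → ℝ}
    (h : LimSol O G w) (hG : ContinuousOn G O) (hw : ContDiffOn ℝ 2 w O) : ∀ x ∈ O, -(Δ w) x = G x := by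
  intro x hx
  apply le_antisymm (limEq_le hO h hG hw hx)
  have hneg : LimSol O (fun x => -G x) (fun x => -w x) := by
    obtain ⟨wk, hwk, hwu, hGu⟩ := h
    refine ⟨fun k x => -wk k x, fun k => (hwk k).neg, ?_, ?_⟩
    · rw [Metric.tendstoUniformlyOn_iff] at hwu ⊢
      intro ε hε
      filter_upwards [hwu ε hε] with k hk y hy
      rw [dist_neg_neg]
      exact hk y hy
    · rw [Metric.tendstoUniformlyOn_iff] at hGu ⊢
      intro ε hε
      filter_upwards [hGu ε hε] with k hk y hy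
      have h1 : (Δ (fun x => -wk k x)) y = -(Δ (wk k)) y := by
        have := lap_const_mul (-1) ((hwk k).contDiffAt (hO.mem_nhds hy))
        simpa using this
      rw [h1, dist_neg_neg]
      exact hk y hy
  have h2 := limEq_le hO hneg hG.neg hw.neg hx
  have h1 : (Δ (fun x => -w x)) x = -(Δ w) x := by
    have := lap_const_mul (-1) (hw.contDiffAt (hO.mem_nhds hx))
    simpa using this
  rw [h1] at h2
  linarith

end Pool.Agent.Lib.MP_188651_an
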