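import Pool.Agent.Lib.MP_188651_an.ExLimDer
import Pool.Agent.Lib.MP_188651_an.ExLimEq

/-!
# C2 regularity of generalised solutions
-/

open Set Filter Metric Topology InnerProductSpace Laplacian

namespace Pool.Agent.Lib.MP_188651_an

variable {n : ℕ}

theorem LimSol.c2 {c : EE n} {R : ℝ} (hR : 0 < R) {G w : EE n → ℝ}
    (h : LimSol (ball c R) G w) (hG : ContDiffOn ℝ 1 G (ball c R)) :
    ContDiffOn ℝ 2 w (ball c R) ∧ ∀ x ∈ ball c R, -(Δ w) x = G x := by
  have h1 : ContDiffOn ℝ 1 w (ball c R) := h.c1 hR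
  have h2 : ContDiffOn ℝ 2 w (ball c R) := by
    intro x hx
    apply ContDiffAt.contDiffWithinAt
    rw [mem_ball] at hx
    obtain ⟨R', hxR', hR'R⟩ := exists_between hx
    have hR'0 : 0 < R' := lt_of_le_of_lt dist_nonneg hxR'
    have hsub : ball c R' ⊆ ball c R := ball_subset_ball hR'R.le
    have hd : ContDiffOn ℝ 1 (fderiv ℝ w) (ball c R') := by
      rw [contDiffOn_clm_apply]
      intro e
      exact (h.deriv hR'0 hR'R hG e).c1 hR'0
    have hC2 : ContDiffOn ℝ 2 w (ball c R') := by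
      have h3 : (2 : WithTop ℕ∞) = 1 + 1 := by norm_num
      rw [h3, contDiffOn_succ_iff_fderiv_of_isOpen isOpen_ball]
      refine ⟨(h1.mono hsub).differentiableOn (by simp), by simp, hd⟩
    exact hC2.contDiffAt (isOpen_ball.mem_nhds hxR')
  exact ⟨h2, h.eq_of_c2 isOpen_ball hG.continuousOn h2⟩

end Pool.Agent.Lib.MP_188651_an
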