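import Pool.Agent.Lib.MP_188651_an.ExPois
import Pool.Agent.Lib.MP_188651_an.ExLimD
import Pool.Agent.Lib.MP_188651_an.ExLimC1
import Pool.Agent.Lib.MP_188651_an.ExLimA

/-!
# The Dirichlet problem `-Δw + M w = g` on small balls
-/

open Set Filter Metric Topology InnerProductSpace Laplacian

namespace Pool.Agent.Lib.MP_188651_an

variable {n : ℕ}

/-- contraction -/
theorem ball_fix (hn : 1 ≤ n) {M : ℝ} (hM : 0 ≤ M) {c : EE n} {r : ℝ} (hr : 0 < r) (hMr : M * r ^ 2 ≤ 1)
    {g b : EE n → ℝ} (hg : ContinuousOn g (closedBall c r)) (hb : ContinuousOn b (closedBall c r)) :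
    ∃ w : EE n → ℝ, ContinuousOn w (closedBall c r) ∧ LimSol (ball c r) (fun x => g x - M * w x) w ∧
      ∀ x ∈ sphere c r, w x = b x := by
  classical
  haveI : CompactSpace (closedBall c r) := isCompact_iff_compactSpace.mp (isCompact_closedBall c r)
  obtain ⟨ext, hext⟩ : ∃ ext : C(closedBall c r, ℝ) → EE n → ℝ, ext = fun u x =>
      if hx : x ∈ closedBall c r then u ⟨x, hx⟩ else 0 := ⟨_, rfl⟩
  have hext1 : ∀ (u : C(closedBall c r, ℝ)) (x : closedBall c r), ext u x = u x := by
    intro u x
    rw [hext]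
    simp only [dif_pos x.2]
  have hextc : ∀ u : C(closedBall c r, ℝ), ContinuousOn (ext u) (closedBall c r) := by
    intro u
    rw [continuousOn_iff_continuous_domRestrict]
    have h1 : (closedBall c r).domRestrict (ext u) = u := by
      funext x
      exact hext1 u x
    rw [h1]
    exact u.continuous
  have hsol : ∀ u : C(closedBall c r, ℝ), ∃ w : EE n → ℝ, ContinuousOn w (closedBall c r) ∧
      LimSol (ball c r) (fun x => g x - M * ext u x) w ∧ ∀ x ∈ sphere c r, w x = b x := fun u =>
    poisson_lim hn hr (hg.sub (continuousOn_const.mul (hextc u))) hb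
  choose w hwc hwl hws using hsol
  let T : C(closedBall c r, ℝ) → C(closedBall c r, ℝ) := fun u =>
    ⟨(closedBall c r).domRestrict (w u), continuousOn_iff_continuous_domRestrict.mp (hwc u)⟩
  have hT : ∀ u (x : closedBall c r), T u x = w u x := fun u x => rfl
  have hn0 : (1 : ℝ) ≤ n := by exact_mod_cast hn
  have hcon : ContractingWith (1 / 2 : NNReal) T := by
    refine ⟨?_, LipschitzWith.of_dist_le_mul fun u v => ?_⟩
    · rw [div_lt_one (by norm_num)]
      norm_num
    · rw [ContinuousMap.dist_le (by positivity)]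
      intro x
      have h1 := ((hwl u).sub isOpen_ball (hwl v)).bound hn hr ((hwc u).sub (hwc v)) (A := 0)
        (B := M * dist u v) ?_ ?_ x x.2
      · rw [hT, hT, Real.dist_eq]
        refine h1.trans ?_
        have h2 : M * dist u v * r ^ 2 / (2 * n) ≤ (M * dist u v * r ^ 2) / 2 := by
          apply div_le_div_of_nonneg_left _ (by norm_num) (by linarith)
          positivity
        have h3 : M * r ^ 2 * dist u v ≤ 1 * dist u v :=
          mul_le_mul_of_nonneg_right hMr dist_nonneg
        have h4 : (((1 / 2 : NNReal) : ℝ)) = 1 / 2 := by norm_num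
        rw [h4]
        linarith
      · intro y hy
        rw [hws u y hy, hws v y hy, sub_self, abs_zero]
      · intro y hy
        have hy' := ball_subset_closedBall hy
        have e1 : g y - M * ext u y - (g y - M * ext v y) = -(M * (ext u y - ext v y)) := by ring
        rw [e1, abs_neg, abs_mul, abs_of_nonneg hM]
        apply mul_le_mul_of_nonneg_left _ hM
        have e2 := hext1 u ⟨y, hy'⟩
        have e3 := hext1 v ⟨y, hy'⟩
        simp only at e2 e3
        rw [e2, e3, ← Real.dist_eq]
        exact ContinuousMap.dist_apply_le_dist _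
  obtain ⟨u, hu, -⟩ := hcon.exists_fixedPoint (0 : C(closedBall c r, ℝ)) (edist_ne_top _ _)
  have hux : ∀ x ∈ closedBall c r, ext u x = w u x := by
    intro x hx
    have h1 := hext1 u ⟨x, hx⟩
    have h2 := hT u ⟨x, hx⟩
    rw [hu.eq] at h2
    simp only at h1 h2
    rw [h1, h2]
  refine ⟨w u, hwc u, (hwl u).congr (fun x hx => ?_) (fun x _ => rfl), hws u⟩
  rw [hux x (ball_subset_closedBall hx)]

theorem ball_solve (hn : 1 ≤ n) {M : ℝ} (hM : 0 ≤ M) {c : EE n} {r : ℝ} (hr : 0 < r) (hMr : M * r ^ 2 ≤ 1)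
    {g b : EE n → ℝ} (hg : ContinuousOn g (closedBall c r)) (hg1 : ContDiffOn ℝ 1 g (ball c r))
    (hb : ContinuousOn b (closedBall c r)) :
    ∃ w : EE n → ℝ, ContinuousOn w (closedBall c r) ∧ ContDiffOn ℝ 2 w (ball c r) ∧
      (∀ x ∈ ball c r, -(Δ w) x + M * w x = g x) ∧ ∀ x ∈ sphere c r, w x = b x := by
  obtain ⟨w, hw, hl, hs⟩ := ball_fix hn hM hr hMr hg hb
  have h1 := hl.c1 hr
  have h2 := hl.c2 hr (hg1.sub (contDiffOn_const.mul h1))
  exact ⟨w, hw, h2.1, fun x hx => by have := h2.2 x hx; linarith, hs⟩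

end Pool.Agent.Lib.MP_188651_an
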