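import Pool.Agent.Lib.MP_188651_an.ExLapA
import Pool.Agent.Lib.MP_188651_an.ExLapB

/-!
# Comparison on bounded sets
-/

open Set Filter Metric Topology InnerProductSpace Laplacian

namespace Pool.Agent.Lib.MP_188651_an

variable {n : ℕ}

theorem comp_bdd (hn : 1 ≤ n) {O : Set (EE n)} (hO : IsOpen O) (hb : Bornology.IsBounded O) {M : ℝ} (hM : 0 ≤ M)
    {u v : EE n → ℝ} (hu : ContinuousOn u (closure O)) (hv : ContinuousOn v (closure O))
    (hu2 : ContDiffOn ℝ 2 u O) (hv2 : ContDiffOn ℝ 2 v O)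
    (hle : ∀ x ∈ O, -(Δ u) x + M * u x ≤ -(Δ v) x + M * v x) (hbd : ∀ x ∈ frontier O, u x ≤ v x) :
    ∀ x ∈ closure O, u x ≤ v x := by
  by_contra hcon
  push Not at hcon
  obtain ⟨x0, hx0, hlt⟩ := hcon
  have hcomp : IsCompact (closure O) := hb.isCompact_closure
  obtain ⟨R, hR⟩ := hb.closure.exists_norm_le
  set m := u x0 - v x0 with hm
  have hmpos : 0 < m := by rw [hm]; linarith
  set ε := m / (2 * (R ^ 2 + 1)) with hε
  have hεpos : 0 < ε := by rw [hε]; positivity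
  have hεR : ∀ x ∈ closure O, ε * ‖x - 0‖ ^ 2 ≤ m / 2 := by
    intro x hx
    have h1 := hR x hx
    have h2 : ‖x - 0‖ ^ 2 ≤ R ^ 2 + 1 := by
      rw [sub_zero]
      have := pow_le_pow_left₀ (norm_nonneg x) h1 2
      linarith
    calc ε * ‖x - 0‖ ^ 2 ≤ ε * (R ^ 2 + 1) := mul_le_mul_of_nonneg_left h2 hεpos.le
      _ = m / 2 := by rw [hε]; field_simp
  have hwc : ContinuousOn (fun y => (u y - v y) + ε * ‖y - 0‖ ^ 2) (closure O) := by
    refine (hu.sub hv).add (Continuous.continuousOn ?_)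
    fun_prop
  obtain ⟨x1, hx1, hmax⟩ := hcomp.exists_isMaxOn ⟨x0, hx0⟩ hwc
  have h1 : m ≤ (u x1 - v x1) + ε * ‖x1 - 0‖ ^ 2 := by
    have h2 : (u x0 - v x0) + ε * ‖x0 - 0‖ ^ 2 ≤ (u x1 - v x1) + ε * ‖x1 - 0‖ ^ 2 := hmax hx0
    have h3 : 0 ≤ ε * ‖x0 - 0‖ ^ 2 := by positivity
    linarith
  have h4 := hεR x1 hx1
  have h5 : 0 < u x1 - v x1 := by linarith
  have hx1O : x1 ∈ O := by
    by_contra hno
    have h6 : x1 ∈ frontier O := by
      rw [hO.frontier_eq]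
      exact ⟨hx1, hno⟩
    have := hbd x1 h6
    linarith
  have hloc : IsLocalMax (fun y => (u y - v y) + ε * ‖y - 0‖ ^ 2) x1 := by
    filter_upwards [hO.mem_nhds hx1O] with y hy
    exact hmax (subset_closure hy)
  have hua : ContDiffAt ℝ 2 u x1 := hu2.contDiffAt (hO.mem_nhds hx1O)
  have hva : ContDiffAt ℝ 2 v x1 := hv2.contDiffAt (hO.mem_nhds hx1O)
  obtain ⟨hq1, hq2, -⟩ := sq_facts (0 : EE n) x1
  have hqa : ContDiffAt ℝ 2 (fun y : EE n => ‖y - 0‖ ^ 2) x1 := hq1.contDiffAt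
  have hqb : ContDiffAt ℝ 2 (fun y : EE n => ε * ‖y - 0‖ ^ 2) x1 := contDiffAt_const.mul hqa
  have hsub : ContDiffAt ℝ 2 (fun y => u y - v y) x1 := hua.sub hva
  have hlap : (Δ (fun y => (u y - v y) + ε * ‖y - 0‖ ^ 2)) x1 = ((Δ u) x1 - (Δ v) x1) + ε * (2 * (n : ℝ)) := by
    rw [lap_add hsub hqb, lap_sub hua hva, lap_const_mul ε hqa, hq2]
  have hle2 := (lap_le_of_isLocalMax (hsub.add hqb) hloc).2
  have hle3 : ((Δ u) x1 - (Δ v) x1) + ε * (2 * (n : ℝ)) ≤ 0 := by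
    rw [← hlap]; exact hle2
  have h7 := hle x1 hx1O
  have h8 : 0 ≤ M * (u x1 - v x1) := by positivity
  have hn' : (1 : ℝ) ≤ n := by exact_mod_cast hn
  have h9 : 0 < ε * (2 * (n : ℝ)) := by positivity
  nlinarith

theorem ExMaxBall_lap (c x : EE n) (K b : ℝ) :
    (Δ (fun y : EE n => K - b * ‖y - c‖ ^ 2)) x = -(b * (2 * (n : ℝ))) := by
  obtain ⟨hq1, hq2, -⟩ := sq_facts c x
  have h1 : ContDiffAt ℝ 2 (fun y : EE n => ‖y - c‖ ^ 2) x := hq1.contDiffAt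
  have h2 : ContDiffAt ℝ 2 (fun y : EE n => b * ‖y - c‖ ^ 2) x := contDiffAt_const.mul h1
  have h3 : ContDiffAt ℝ 2 (fun _ : EE n => K) x := contDiffAt_const
  have h4 := lap_sub h3 h2
  have h5 := lap_const_mul b h1
  have h6 := lap_const K x
  rw [h4, h6, h5, hq2]
  ring

theorem ExMaxBall_one (hn : 1 ≤ n) {c : EE n} {r : ℝ} (hr : 0 < r) {u : EE n → ℝ}
    (hu : ContinuousOn u (closedBall c r)) (hu2 : ContDiffOn ℝ 2 u (ball c r)) {A B : ℝ}
    (hA : ∀ x ∈ sphere c r, u x ≤ A) (hB0 : 0 ≤ B) (hB : ∀ x ∈ ball c r, -(Δ u) x ≤ B) :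
    ∀ x ∈ closedBall c r, u x ≤ A + B * r ^ 2 / (2 * n) := by
  have hn' : (1 : ℝ) ≤ n := by exact_mod_cast hn
  have hn0 : (0 : ℝ) < n := by linarith
  have hcl : closure (ball c r) = closedBall c r := closure_ball c hr.ne'
  have hfr : frontier (ball c r) = sphere c r := frontier_ball c hr.ne'
  obtain ⟨K, hK⟩ : ∃ K : ℝ, K = A + B * r ^ 2 / (2 * n) := ⟨_, rfl⟩
  obtain ⟨b, hb⟩ : ∃ b : ℝ, b = B / (2 * n) := ⟨_, rfl⟩
  have hb0 : 0 ≤ b := by rw [hb]; positivity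
  have hbB : b * (2 * (n : ℝ)) = B := by rw [hb]; field_simp
  have hKb : K - b * r ^ 2 = A := by rw [hK, hb]; ring
  have hvc : ContDiff ℝ 2 (fun y : EE n => K - b * ‖y - c‖ ^ 2) :=
    contDiff_const.sub (contDiff_const.mul (sq_facts c c).1)
  intro x hx
  have h := comp_bdd hn (O := ball c r) isOpen_ball isBounded_ball (M := 0) le_rfl (u := u)
    (v := fun y : EE n => K - b * ‖y - c‖ ^ 2)
    (by rw [hcl]; exact hu) (hvc.continuous.continuousOn) hu2 hvc.contDiffOn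
    (by
      intro y hy
      rw [ExMaxBall_lap c y K b, hbB]
      have := hB y hy
      linarith)
    (by
      intro y hy
      rw [hfr] at hy
      have h1 := hA y hy
      have h2 : ‖y - c‖ = r := by rw [← dist_eq_norm]; exact hy
      simp only [h2]
      rw [hKb]; exact h1)
    x (by rw [hcl]; exact hx)
  rw [← hK]
  have h3 : 0 ≤ b * ‖x - c‖ ^ 2 := by positivity
  have h4 : u x ≤ K - b * ‖x - c‖ ^ 2 := h
  linarith

theorem ball_bound (hn : 1 ≤ n) {c : EE n} {r : ℝ} (hr : 0 < r) {u : EE n → ℝ}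
    (hu : ContinuousOn u (closedBall c r)) (hu2 : ContDiffOn ℝ 2 u (ball c r)) {A B : ℝ}
    (hA : ∀ x ∈ sphere c r, |u x| ≤ A) (hB : ∀ x ∈ ball c r, |(Δ u) x| ≤ B) :
    ∀ x ∈ closedBall c r, |u x| ≤ A + B * r ^ 2 / (2 * n) := by
  have hB0 : 0 ≤ B := (abs_nonneg _).trans (hB c (mem_ball_self hr))
  have h1 := ExMaxBall_one hn hr hu hu2 (A := A) (B := B) (fun x hx => (abs_le.1 (hA x hx)).2) hB0
    (fun x hx => by linarith [(abs_le.1 (hB x hx)).1])
  have h2 := ExMaxBall_one hn hr (u := fun x => (-1) * u x) (continuousOn_const.mul hu)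
    (contDiffOn_const.mul hu2) (A := A) (B := B)
    (fun x hx => by linarith [(abs_le.1 (hA x hx)).1]) hB0
    (fun x hx => by
      rw [lap_const_mul (-1) (hu2.contDiffAt (isOpen_ball.mem_nhds hx))]
      linarith [(abs_le.1 (hB x hx)).2])
  intro x hx
  rw [abs_le]
  have h3 := h1 x hx
  have h4 := h2 x hx
  constructor <;> linarith

end Pool.Agent.Lib.MP_188651_an
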