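import Pool.Agent.Lib.MP_188651_an.CFold
import Pool.Agent.Lib.MP_188651_an.ExBall
import Pool.Agent.Lib.MP_188651_an.ExMaxBall

/-!
# Even harmonic functions with Lipschitz data
-/

open Set Filter Metric Topology InnerProductSpace Laplacian

namespace Pool.Agent.Lib.MP_188651_an

variable {n : ℕ} {y ν : EE n}

private theorem CEven_aff (hn : 1 ≤ n) {r : ℝ} (hr : 0 < r) {h : EE n → ℝ}
    (hc : ContinuousOn h (closedBall y r)) (h2 : ContDiffOn ℝ 2 h (ball y r))
    (h0 : ∀ x ∈ ball y r, (Δ h) x = 0) {C : ℝ} {a : EE n}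
    (hs : ∀ z ∈ sphere y r, h z ≤ C + inner ℝ a z) :
    ∀ z ∈ closedBall y r, h z ≤ C + inner ℝ a z := by
  have hcl : closure (ball y r) = closedBall y r := closure_ball y hr.ne'
  have hfr : frontier (ball y r) = sphere y r := frontier_ball y hr.ne'
  have hin : ContDiff ℝ 2 (fun z : EE n => inner ℝ a z) := (innerSL ℝ a).contDiff
  have hv : ContDiff ℝ 2 (fun z : EE n => C + inner ℝ a z) := contDiff_const.add hin
  have := comp_bdd hn (O := ball y r) isOpen_ball isBounded_ball (M := 0) le_rfl
    (u := h) (v := fun z => C + inner ℝ a z) (by rw [hcl]; exact hc)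
    (hv.continuous.continuousOn) h2 hv.contDiffOn
    (by
      intro x hx
      have e1 : (Δ (fun z : EE n => C + inner ℝ a z)) x = 0 := by
        rw [lap_add (f := fun _ => C) (g := fun z => inner ℝ a z) contDiffAt_const
          hin.contDiffAt, lap_const, (inner_facts a x).2.1, add_zero]
      rw [e1, h0 x hx]
      simp)
    (by rw [hfr]; exact hs)
  rw [hcl] at this
  exact this

private theorem CEven_sg_cont : Continuous (sg y ν : EE n → EE n) := by
  unfold sg
  fun_prop

theorem even_harm (hn : 1 ≤ n) (hν : ‖ν‖ = 1) {r K : ℝ} (hr : 0 < r) (hK : 0 ≤ K) {V : EE n → ℝ}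
    (hV : ∀ x x', |V x - V x'| ≤ K * ‖x - x'‖) (hy : V y = 0) :
    ∃ h : EE n → ℝ, ContinuousOn h (closedBall y r) ∧ ContDiffOn ℝ 2 h (ball y r) ∧
      (∀ x ∈ ball y r, (Δ h) x = 0) ∧ (∀ x ∈ closedBall y r, h (sg y ν x) = h x) ∧
      (∀ x ∈ closedBall y r, |h x| ≤ K * r) ∧
      ∀ x ∈ closedBall y r, |h x - V (fold y ν x)| ≤ 3 * K * r * √(1 - ‖x - y‖ / r) := by
  obtain ⟨b, hb⟩ : ∃ b : EE n → ℝ, b = fun x => V (fold y ν x) := ⟨_, rfl⟩
  have hbL : ∀ x x', |b x - b x'| ≤ K * ‖x - x'‖ := by
    intro x x'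
    rw [hb]
    exact (hV _ _).trans (mul_le_mul_of_nonneg_left ((fold_facts hν x).2.2.2.2 x') hK)
  have hbc : Continuous b := by
    have : LipschitzWith (Real.toNNReal K) b := by
      refine LipschitzWith.of_dist_le_mul fun x x' => ?_
      rw [Real.dist_eq, dist_eq_norm, Real.coe_toNNReal K hK]
      exact hbL x x'
    exact this.continuous
  obtain ⟨h, hc, h2, h0, hsph⟩ := ball_solve hn (le_refl (0 : ℝ)) (c := y) hr (by simp)
    (g := fun _ => 0) continuousOn_const contDiffOn_const (b := b) hbc.continuousOn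
  have hlap : ∀ x ∈ ball y r, (Δ h) x = 0 := by
    intro x hx
    have := h0 x hx
    linarith
  have hsy : ∀ z : EE n, ‖sg y ν z - y‖ = ‖z - y‖ := fun z => (sg_facts hν z).1
  have hmapc : ∀ z ∈ closedBall y r, sg y ν z ∈ closedBall y r := by
    intro z hz
    rw [mem_closedBall, dist_eq_norm] at hz ⊢
    rw [hsy]; exact hz
  have hmapb : ∀ z ∈ ball y r, sg y ν z ∈ ball y r := by
    intro z hz
    rw [mem_ball, dist_eq_norm] at hz ⊢
    rw [hsy]; exact hz
  have hmaps : ∀ z ∈ sphere y r, sg y ν z ∈ sphere y r := by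
    intro z hz
    rw [mem_sphere, dist_eq_norm] at hz ⊢
    rw [hsy]; exact hz
  have hbs : ∀ z, b (sg y ν z) = b z := by
    intro z
    rw [hb]
    show V (fold y ν (sg y ν z)) = V (fold y ν z)
    rw [(fold_facts hν z).2.2.1]
  refine ⟨h, hc, h2, hlap, ?_, ?_, ?_⟩
  · -- evenness
    intro x hx
    have hat : ∀ z ∈ ball y r, ContDiffAt ℝ 2 h (sg y ν z) := fun z hz =>
      h2.contDiffAt (isOpen_ball.mem_nhds (hmapb z hz))
    have hd := ball_bound hn hr (u := fun z => h (sg y ν z) - h z)
      ((hc.comp CEven_sg_cont.continuousOn hmapc).sub hc)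
      (by
        intro z hz
        exact (((lap_sg hν (hat z hz)).1).sub (h2.contDiffAt (isOpen_ball.mem_nhds hz))).contDiffWithinAt)
      (A := 0) (B := 0)
      (by
        intro z hz
        rw [hsph _ (hmaps z hz), hsph _ hz, hbs, sub_self, abs_zero])
      (by
        intro z hz
        rw [lap_sub (lap_sg hν (hat z hz)).1 (h2.contDiffAt (isOpen_ball.mem_nhds hz)),
          (lap_sg hν (hat z hz)).2, hlap _ (hmapb z hz), hlap z hz, sub_self, abs_zero])
      x hx
    have h3 : |h (sg y ν x) - h x| ≤ 0 := by simpa using hd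
    have h4 := abs_nonpos_iff.1 h3
    linarith
  · -- bound
    intro x hx
    have := ball_bound hn hr hc h2 (A := K * r) (B := 0)
      (by
        intro z hz
        rw [hsph z hz]
        have h1 := hV (fold y ν z) y
        rw [hy, sub_zero, (fold_facts hν z).1] at h1
        rw [mem_sphere, dist_eq_norm] at hz
        rw [hz] at h1
        rw [hb]
        exact h1)
      (by intro z hz; rw [hlap z hz, abs_zero]) x hx
    simpa using this
  · -- near the sphere
    intro x hx
    have hxr : ‖x - y‖ ≤ r := by rw [mem_closedBall, dist_eq_norm] at hx; exact hx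
    obtain ⟨η, hη⟩ : ∃ η : ℝ, η = 1 - ‖x - y‖ / r := ⟨_, rfl⟩
    have hη0 : 0 ≤ η := by
      rw [hη, sub_nonneg, div_le_one hr]; exact hxr
    have hη1 : η ≤ 1 := by
      rw [hη]
      have : 0 ≤ ‖x - y‖ / r := by positivity
      linarith
    have hxη : ‖x - y‖ = (1 - η) * r := by
      rw [hη]; field_simp; ring
    have hbx : V (fold y ν x) = b x := by rw [hb]
    rw [← hη, hbx]
    rcases hη0.eq_or_lt with h00 | hpos
    · have hxs : x ∈ sphere y r := by
        rw [mem_sphere, dist_eq_norm, hxη, ← h00]; ring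
      rw [hsph x hxs, sub_self, abs_zero]
      positivity
    · -- the point on the sphere
      obtain ⟨z₀, hz₀, hxz⟩ : ∃ z₀ : EE n, ‖z₀ - y‖ = r ∧ x - y = (1 - η) • (z₀ - y) := by
        by_cases hxy : x = y
        · refine ⟨y + r • ν, ?_, ?_⟩
          · rw [add_sub_cancel_left, norm_smul, hν, Real.norm_of_nonneg hr.le, mul_one]
          · have : (1 - η) * r = 0 := by rw [← hxη, hxy, sub_self, norm_zero]
            have h1 : 1 - η = 0 := by
              rcases mul_eq_zero.1 this with h | h
              · exact h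
              · exact absurd h hr.ne'
            rw [h1, zero_smul, hxy, sub_self]
        · have hne : ‖x - y‖ ≠ 0 := norm_ne_zero_iff.2 (sub_ne_zero.2 hxy)
          have hpos' : 0 < ‖x - y‖ := norm_pos_iff.2 (sub_ne_zero.2 hxy)
          refine ⟨y + (r / ‖x - y‖) • (x - y), ?_, ?_⟩
          · rw [add_sub_cancel_left, norm_smul, Real.norm_of_nonneg (by positivity)]
            field_simp
          · rw [add_sub_cancel_left, smul_smul]
            have : (1 - η) * (r / ‖x - y‖) = 1 := by
              rw [← mul_div_assoc, ← hxη]; exact div_self hne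
            rw [this, one_smul]
      set s := √η with hs
      have hs0 : 0 < s := Real.sqrt_pos.2 hpos
      have hss : s * s = η := Real.mul_self_sqrt hη0
      have hs1 : s ≤ 1 := by
        rw [hs]; exact Real.sqrt_le_one.2 hη1
      set κ := r * s with hκ
      have hκ0 : 0 < κ := mul_pos hr hs0
      have hdist : ∀ z ∈ sphere y r, ‖z - z₀‖ ^ 2 = 2 * r ^ 2 - 2 * inner ℝ (z₀ - y) (z - y) := by
        intro z hz
        rw [mem_sphere, dist_eq_norm] at hz
        have e : z - z₀ = (z - y) - (z₀ - y) := by abel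
        rw [e, norm_sub_sq_real, hz, hz₀, real_inner_comm (z₀ - y) (z - y)]
        ring
      have hA : ∀ z ∈ sphere y r, |b z - b z₀| ≤
          K * (κ + (2 * r ^ 2 - 2 * inner ℝ (z₀ - y) (z - y)) / (4 * κ)) := by
        intro z hz
        refine (hbL z z₀).trans (mul_le_mul_of_nonneg_left ?_ hK)
        rw [← hdist z hz]
        have : ‖z - z₀‖ ≤ κ + ‖z - z₀‖ ^ 2 / (4 * κ) := by
          have h1 : 0 ≤ (‖z - z₀‖ - 2 * κ) ^ 2 / (4 * κ) := by positivity
          have h2 : (‖z - z₀‖ - 2 * κ) ^ 2 / (4 * κ) =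
              ‖z - z₀‖ ^ 2 / (4 * κ) - ‖z - z₀‖ + κ := by
            field_simp; ring
          linarith
        exact this
      -- the affine functions
      obtain ⟨a, ha⟩ : ∃ a : EE n, a = (-(K / (2 * κ))) • (z₀ - y) := ⟨_, rfl⟩
      obtain ⟨C, hC⟩ : ∃ C : ℝ, C = K * (κ + 2 * r ^ 2 / (4 * κ)) - inner ℝ a y := ⟨_, rfl⟩
      have hAff : ∀ z : EE n, C + inner ℝ a z =
          K * (κ + (2 * r ^ 2 - 2 * inner ℝ (z₀ - y) (z - y)) / (4 * κ)) := by
        intro z
        have e1 : inner ℝ a z - inner ℝ a y = -(K / (2 * κ)) * inner ℝ (z₀ - y) (z - y) := by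
          rw [← inner_sub_right, ha, inner_smul_left]
          simp
        rw [hC]
        have e2 : K * (κ + 2 * r ^ 2 / (4 * κ)) - inner ℝ a y + inner ℝ a z =
            K * (κ + 2 * r ^ 2 / (4 * κ)) + (inner ℝ a z - inner ℝ a y) := by ring
        rw [e2, e1]
        field_simp
        ring
      have hup := CEven_aff hn hr hc h2 hlap (C := b z₀ + C) (a := a) (by
        intro z hz
        rw [hsph z hz, add_assoc, hAff z]
        have := (abs_le.1 (hA z hz)).2
        linarith) x hx
      have hlo := CEven_aff hn hr (h := fun z => (-1) * h z) (continuousOn_const.mul hc)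
        (contDiffOn_const.mul h2) (by
          intro z hz
          rw [lap_const_mul (-1) (h2.contDiffAt (isOpen_ball.mem_nhds hz)), hlap z hz, mul_zero])
        (C := -b z₀ + C) (a := a) (by
          intro z hz
          rw [hsph z hz, add_assoc, hAff z]
          have := (abs_le.1 (hA z hz)).1
          linarith) x hx
      rw [add_assoc, hAff x] at hup hlo
      have hin : inner ℝ (z₀ - y) (x - y) = (1 - η) * r ^ 2 := by
        rw [hxz, inner_smul_right, real_inner_self_eq_norm_sq, hz₀]
      have hval : κ + (2 * r ^ 2 - 2 * inner ℝ (z₀ - y) (x - y)) / (4 * κ) = 3 / 2 * (r * s) := by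
        rw [hin, hκ, ← hss]
        field_simp
        ring
      rw [hval] at hup hlo
      have hbz : |b x - b z₀| ≤ K * (r * s) := by
        refine (hbL x z₀).trans (mul_le_mul_of_nonneg_left ?_ hK)
        have e : x - z₀ = (-η) • (z₀ - y) := by
          have : x - z₀ = (x - y) - (z₀ - y) := by abel
          rw [this, hxz, sub_smul, one_smul, neg_smul]
          abel
        rw [e, norm_smul, hz₀, Real.norm_eq_abs, abs_neg, abs_of_nonneg hη0, ← hss]
        nlinarith [mul_pos hr hs0]
      have h5 := abs_le.1 hbz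
      rw [abs_le]
      have h6 : 0 ≤ K * (r * s) := by positivity
      constructor
      · linarith [h5.1, h5.2]
      · linarith [h5.1, h5.2]

end Pool.Agent.Lib.MP_188651_an
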