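import Pool.Agent.Lib.MP_188651_an.CNeu
import Pool.Agent.Lib.MP_188651_an.CCmp
import Pool.Agent.Lib.MP_188651_an.CEven

/-!
# Approximation by even harmonic functions at the boundary
-/

open Set Filter Metric Topology InnerProductSpace Laplacian

namespace Pool.Agent.Lib.MP_188651_an

/-- good approximation at scale `τ ^ 10` -/
structure Apx {n : ℕ} (D : Set (EE n)) (y ν : EE n) (K C τ : ℝ) (v h : EE n → ℝ) : Prop where
  smooth : ContDiffOn ℝ 2 h (ball y (τ ^ 10))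
  harm : ∀ x ∈ ball y (τ ^ 10), (Δ h) x = 0
  even : ∀ x ∈ ball y (τ ^ 10), h (sg y ν x) = h x
  bdd : ∀ x ∈ ball y (τ ^ 10), |h x| ≤ K * τ ^ 10
  near : ∀ x ∈ closure D, ‖x - y‖ ≤ τ ^ 10 / 2 → |v x - h x| ≤ C * τ ^ 12

/-- one sided estimate -/
private theorem CApx_one {n : ℕ} (hn : 1 ≤ n) {ρ : ℝ} {D : Set (EE n)} {N : EE n → EE n}
    (hD : BD ρ D N) {y : EE n} (hy : y ∈ frontier D) {K K₀ Λ C₁ τ : ℝ} (hK₀ : 0 ≤ K₀)
    (hΛ : 0 ≤ Λ) (hC₁ : 0 < C₁) (hτ : 0 < τ) (hτ2 : τ ≤ 1 / 2) (hτρ : τ ≤ ρ / 4)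
    {v h : EE n → ℝ} (hv : ContinuousOn v (closure D)) (hv2 : ContDiffOn ℝ 2 v D)
    (hΔ : ∀ x ∈ D, |(Δ v) x| ≤ Λ)
    (hh : ContDiffOn ℝ 2 h (ball y (τ ^ 10))) (hh0 : ∀ x ∈ ball y (τ ^ 10), (Δ h) x = 0)
    (hb : ∀ y' ∈ frontier D, ∀ φ : EE n → ℝ, TouchA (closure D) v φ y' →
      fderiv ℝ φ y' (N y') ≤ K₀ * ‖y' - y‖)
    (hhN : ∀ y' ∈ frontier D, ‖y' - y‖ ≤ (1 - τ ^ 4) * τ ^ 10 →
      |fderiv ℝ h y' (N y')| ≤ C₁ * τ ^ 2)
    (hm : ∀ x ∈ closure D, ‖x - y‖ = (1 - τ ^ 4) * τ ^ 10 →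
      |v x - h x| ≤ (K / ρ + 3 * K) * τ ^ 12) :
    ∀ x ∈ closure D, ‖x - y‖ ≤ (1 - τ ^ 4) * τ ^ 10 →
      v x - h x ≤ (K / ρ + 3 * K + 12 * (C₁ + K₀ + 1 + (Λ + 1)) + (Λ + 1)) * τ ^ 12 := by
  have hτ1 : τ ≤ 1 := by linarith
  have h4 : τ ^ 4 ≤ 1 / 16 := by
    calc τ ^ 4 ≤ (1 / 2) ^ 4 := pow_le_pow_left₀ hτ.le hτ2 4
      _ = 1 / 16 := by norm_num
  have h4' : 0 < τ ^ 4 := pow_pos hτ 4
  have h10 : 0 < τ ^ 10 := pow_pos hτ 10
  have h12 : 0 < τ ^ 12 := pow_pos hτ 12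
  have h10τ : τ ^ 10 ≤ τ := by
    calc τ ^ 10 ≤ τ ^ 1 := pow_le_pow_of_le_one hτ.le hτ1 (by norm_num)
      _ = τ := pow_one τ
  have h102 : τ ^ 10 ≤ τ ^ 2 := pow_le_pow_of_le_one hτ.le hτ1 (by norm_num)
  have h2012 : τ ^ 20 ≤ τ ^ 12 := pow_le_pow_of_le_one hτ.le hτ1 (by norm_num)
  set R : ℝ := (1 - τ ^ 4) * τ ^ 10 with hRdef
  have hR0 : 0 < R := mul_pos (by linarith) h10
  have hRlt : R < τ ^ 10 := by
    rw [hRdef, sub_mul, one_mul]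
    have := mul_pos h4' h10
    linarith
  have hRρ : R ≤ ρ / 4 := by linarith
  have hκ : 0 < (C₁ + K₀ + 1) * τ ^ 2 := by positivity
  have key := cmp_neu hn hD hy hR0 hRρ hRlt hκ hΛ hv hv2 hΔ hh hh0
    (fun y' hy' hy'R φ hφ => by
      refine (hb y' hy' φ hφ).trans ?_
      have h1 : K₀ * ‖y' - y‖ ≤ K₀ * τ ^ 2 :=
        mul_le_mul_of_nonneg_left (by linarith) hK₀
      have h2 : 0 ≤ (C₁ + 1) * τ ^ 2 := by positivity
      nlinarith)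
    (fun y' hy' hy'R => by
      have h1 := (abs_le.1 (hhN y' hy' hy'R)).1
      have h2 : 0 ≤ (K₀ + 1) * τ ^ 2 := by positivity
      nlinarith)
    (fun x hx hxR => (le_abs_self _).trans (hm x hx hxR))
  intro x hx hxR
  refine (key x hx hxR).trans ?_
  have e1 : R * τ ^ 2 ≤ τ ^ 12 := by
    calc R * τ ^ 2 ≤ τ ^ 10 * τ ^ 2 := mul_le_mul_of_nonneg_right hRlt.le (by positivity)
      _ = τ ^ 12 := by ring
  have e2 : R ^ 2 ≤ τ ^ 12 := by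
    calc R ^ 2 ≤ (τ ^ 10) ^ 2 := pow_le_pow_left₀ hR0.le hRlt.le 2
      _ = τ ^ 20 := by ring
      _ ≤ τ ^ 12 := h2012
  have e3 : (C₁ + K₀ + 1) * (R * τ ^ 2) ≤ (C₁ + K₀ + 1) * τ ^ 12 :=
    mul_le_mul_of_nonneg_left e1 (by positivity)
  have e4 : (Λ + 1) * R ^ 2 ≤ (Λ + 1) * τ ^ 12 :=
    mul_le_mul_of_nonneg_left e2 (by positivity)
  calc (K / ρ + 3 * K) * τ ^ 12 + 12 * ((C₁ + K₀ + 1) * τ ^ 2 + (Λ + 1) * R) * R
        + (Λ + 1) * R ^ 2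
      = (K / ρ + 3 * K) * τ ^ 12 + 12 * ((C₁ + K₀ + 1) * (R * τ ^ 2))
        + 12 * ((Λ + 1) * R ^ 2) + (Λ + 1) * R ^ 2 := by ring
    _ ≤ (K / ρ + 3 * K) * τ ^ 12 + 12 * ((C₁ + K₀ + 1) * τ ^ 12)
        + 12 * ((Λ + 1) * τ ^ 12) + (Λ + 1) * τ ^ 12 := by linarith
    _ = (K / ρ + 3 * K + 12 * (C₁ + K₀ + 1 + (Λ + 1)) + (Λ + 1)) * τ ^ 12 := by ring

theorem exists_apx (n : ℕ) (hn : 1 ≤ n) {ρ K K₀ Λ : ℝ} (hρ : 0 < ρ) (hK : 0 ≤ K) (hK₀ : 0 ≤ K₀) (hΛ : 0 ≤ Λ) :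
    ∃ C > 0, ∃ τ₀ > 0, ∀ (D : Set (EE n)) (N : EE n → EE n) (y : EE n) (v : EE n → ℝ), BD ρ D N →
      y ∈ frontier D → VN D N y K K₀ Λ v → ∀ τ, 0 < τ → τ ≤ τ₀ → ∃ h, Apx D y (N y) K C τ v h := by
  obtain ⟨C₁, hC₁, τ₁, hτ₁, hτ₁2, hneu⟩ := even_neu n hρ hK
  refine ⟨K / ρ + 3 * K + 12 * (C₁ + K₀ + 1 + (Λ + 1)) + (Λ + 1), by positivity,
    min τ₁ (ρ / 4), lt_min hτ₁ (by positivity), ?_⟩
  intro D N y v hD hy hV τ hτ hττ
  have hττ₁ : τ ≤ τ₁ := hττ.trans (min_le_left _ _)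
  have hτρ : τ ≤ ρ / 4 := hττ.trans (min_le_right _ _)
  have hτ2 : τ ≤ 1 / 2 := hττ₁.trans hτ₁2
  have hτ1 : τ ≤ 1 := by linarith
  have h4 : τ ^ 4 ≤ 1 / 16 := by
    calc τ ^ 4 ≤ (1 / 2) ^ 4 := pow_le_pow_left₀ hτ.le hτ2 4
      _ = 1 / 16 := by norm_num
  have h4' : 0 < τ ^ 4 := pow_pos hτ 4
  have h10 : 0 < τ ^ 10 := pow_pos hτ 10
  -- the extension
  have hlip : LipschitzOnWith ⟨K, hK⟩ v (closure D) :=
    LipschitzOnWith.of_dist_le_mul fun x hx x' hx' => by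
      rw [Real.dist_eq, dist_eq_norm]
      exact hV.lip x hx x' hx'
  obtain ⟨V, hVl, hVe⟩ := hlip.extend_real
  have hV' : ∀ x x', |V x - V x'| ≤ K * ‖x - x'‖ := by
    intro x x'
    have := hVl.dist_le_mul x x'
    rw [Real.dist_eq, dist_eq_norm] at this
    exact this
  have hyc : y ∈ closure D := frontier_subset_closure hy
  have hVy : V y = 0 := by rw [← hVe hyc, hV.zero]
  obtain ⟨h, hc, hs, hharm, heven, hbdd, hsph⟩ := even_harm hn (hD.unit y hy) h10 hK hV' hVy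
  have hneu' := hneu D N y h τ hD hy hτ hττ₁ hs hharm
    (fun x hx => heven x (ball_subset_closedBall hx))
    (fun x hx => hbdd x (ball_subset_closedBall hx))
  have hm : ∀ x ∈ closure D, ‖x - y‖ = (1 - τ ^ 4) * τ ^ 10 →
      |v x - h x| ≤ (K / ρ + 3 * K) * τ ^ 12 := by
    intro x hx hxR
    have hxle : ‖x - y‖ ≤ τ ^ 10 := by
      rw [hxR, sub_mul, one_mul]
      have := mul_pos h4' h10
      linarith
    have hxb : x ∈ closedBall y (τ ^ 10) := by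
      rw [mem_closedBall_iff_norm]
      exact hxle
    have h1 := hsph x hxb
    have h2 : √(1 - ‖x - y‖ / τ ^ 10) = τ ^ 2 := by
      rw [hxR, mul_div_assoc, div_self h10.ne', mul_one, sub_sub_cancel]
      rw [show τ ^ 4 = (τ ^ 2) ^ 2 by ring]
      exact Real.sqrt_sq (by positivity)
    rw [h2] at h1
    have h3 : |V x - V (fold y (N y) x)| ≤ K / ρ * τ ^ 12 := by
      have h5 := fold_near hD hy hx
      calc |V x - V (fold y (N y) x)| ≤ K * ‖x - fold y (N y) x‖ := hV' _ _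
        _ ≤ K * (‖x - y‖ ^ 2 / ρ) := mul_le_mul_of_nonneg_left h5 hK
        _ ≤ K * ((τ ^ 10) ^ 2 / ρ) := by
            refine mul_le_mul_of_nonneg_left ?_ hK
            exact div_le_div_of_nonneg_right (pow_le_pow_left₀ (norm_nonneg _) hxle 2) hρ.le
        _ = K / ρ * τ ^ 20 := by ring
        _ ≤ K / ρ * τ ^ 12 := mul_le_mul_of_nonneg_left
            (pow_le_pow_of_le_one hτ.le hτ1 (by norm_num)) (by positivity)
    have h6 : v x - h x = (V x - V (fold y (N y) x)) - (h x - V (fold y (N y) x)) := by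
      rw [← hVe hx]
      ring
    rw [h6]
    refine (abs_sub _ _).trans ?_
    calc |V x - V (fold y (N y) x)| + |h x - V (fold y (N y) x)|
        ≤ K / ρ * τ ^ 12 + 3 * K * τ ^ 10 * τ ^ 2 := add_le_add h3 h1
      _ = (K / ρ + 3 * K) * τ ^ 12 := by ring
  have hvc : ContinuousOn v (closure D) := hlip.continuousOn
  have hO := hD.isOpen
  have up := CApx_one hn hD hy hK₀ hΛ hC₁ hτ hτ2 hτρ hvc hV.smooth hV.lap hs hharm
    (fun y' hy' φ hφ => hV.up y' hy' φ hφ) hneu' hm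
  have hlapneg : ∀ (f : EE n → ℝ) (x : EE n), ContDiffAt ℝ 2 f x →
      (Δ (fun z => -f z)) x = -(Δ f) x := by
    intro f x hf
    have := lap_const_mul (-1) hf
    simpa using this
  have low := CApx_one hn hD hy (v := fun x => -v x) (h := fun x => -h x) hK₀ hΛ hC₁ hτ
    hτ2 hτρ hvc.neg hV.smooth.neg
    (fun x hx => by
      rw [hlapneg v x (hV.smooth.contDiffAt (hO.mem_nhds hx)), abs_neg]
      exact hV.lap x hx)
    hs.neg
    (fun x hx => by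
      rw [hlapneg h x (hs.contDiffAt (isOpen_ball.mem_nhds hx)), hharm x hx, neg_zero])
    (fun y' hy' φ hφ => by
      have h1 := hV.low y' hy' (fun z => -φ z) ⟨hφ.1.neg, by
        show -φ y' = v y'
        rw [hφ.2.1, neg_neg], hφ.2.2.mono fun z hz => by linarith⟩
      rw [fderiv_fun_neg, neg_apply] at h1
      linarith)
    (fun y' hy' hy'R => by
      rw [fderiv_fun_neg, neg_apply, abs_neg]
      exact hneu' y' hy' hy'R)
    (fun x hx hxR => by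
      have h1 := hm x hx hxR
      rw [show -v x - -h x = -(v x - h x) by ring, abs_neg]
      exact h1)
  refine ⟨h, hs, hharm, fun x hx => heven x (ball_subset_closedBall hx),
    fun x hx => hbdd x (ball_subset_closedBall hx), fun x hx hxR => ?_⟩
  have hxR' : ‖x - y‖ ≤ (1 - τ ^ 4) * τ ^ 10 := by nlinarith
  have h1 := up x hx hxR'
  have h2 := low x hx hxR'
  rw [abs_le]
  constructor
  · linarith
  · exact h1

end Pool.Agent.Lib.MP_188651_an
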