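import Pool.Agent.Lib.MP_188651_an.CCampA

/-!
# Campanato iteration
-/

open Set Filter Metric Topology InnerProductSpace Laplacian

namespace Pool.Agent.Lib.MP_188651_an

/-- the eleventh root -/
private noncomputable def CCamp_w (s : ℝ) : ℝ := |s| ^ (((11 : ℕ) : ℝ)⁻¹)

private theorem CCamp_w_nonneg (s : ℝ) : 0 ≤ CCamp_w s := Real.rpow_nonneg (abs_nonneg s) _

private theorem CCamp_w_pow (s : ℝ) : CCamp_w s ^ 11 = |s| :=
  Real.rpow_inv_natCast_pow (abs_nonneg s) (by norm_num)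

private theorem CCamp_w_le {s t : ℝ} (ht : 0 ≤ t) (h : |s| ≤ t ^ 11) : CCamp_w s ≤ t := by
  rw [← pow_le_pow_iff_left₀ (CCamp_w_nonneg s) ht (by norm_num : 11 ≠ 0), CCamp_w_pow]
  exact h

private theorem CCamp_le_w {s t : ℝ} (ht : 0 ≤ t) (h : t ^ 11 ≤ |s|) : t ≤ CCamp_w s := by
  rw [← pow_le_pow_iff_left₀ ht (CCamp_w_nonneg s) (by norm_num : 11 ≠ 0), CCamp_w_pow]
  exact h

private theorem CCamp_isMod {A : ℝ} (hA : 0 < A) : IsMod fun s => A * CCamp_w s := by
  refine ⟨fun s => mul_nonneg hA.le (CCamp_w_nonneg s), fun ε hε => ?_⟩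
  refine ⟨(ε / A) ^ 11, by positivity, fun s hs hs' => ?_⟩
  have h1 : CCamp_w s ≤ ε / A := CCamp_w_le (by positivity) (by rwa [abs_of_nonneg hs])
  calc A * CCamp_w s ≤ A * (ε / A) := mul_le_mul_of_nonneg_left h1 hA.le
    _ = ε := by field_simp

private theorem CCamp_sq (τ₀ : ℝ) (k : ℕ) : (τ₀ / 2 ^ k) ^ 2 = τ₀ ^ 2 * (1 / 4) ^ k := by
  rw [div_pow, ← pow_mul, mul_comm k 2, pow_mul, one_div, inv_pow, div_eq_mul_inv]
  norm_num

/-- the scale of a small number -/
private theorem CCamp_scale {τ₀ σ : ℝ} (hσ : 0 < σ) (hσ' : σ ≤ τ₀ ^ 11) :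
    ∃ k : ℕ, (τ₀ / 2 ^ (k + 1)) ^ 11 < σ ∧ σ ≤ (τ₀ / 2 ^ k) ^ 11 := by
  have hex : ∃ k : ℕ, (τ₀ / 2 ^ (k + 1)) ^ 11 < σ := by
    have h1 : Tendsto (fun k : ℕ => (τ₀ * (1 / 2) ^ (k + 1)) ^ 11) atTop (𝓝 ((τ₀ * 0) ^ 11)) := by
      refine (Tendsto.const_mul τ₀ ?_).pow 11
      exact (tendsto_pow_atTop_nhds_zero_of_lt_one (by norm_num) (by norm_num)).comp
        (tendsto_add_atTop_nat 1)
    rw [mul_zero, zero_pow (by norm_num)] at h1
    obtain ⟨k, hk⟩ := (h1.eventually (gt_mem_nhds hσ)).exists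
    refine ⟨k, ?_⟩
    have e : τ₀ / 2 ^ (k + 1) = τ₀ * (1 / 2) ^ (k + 1) := by
      rw [one_div, inv_pow, div_eq_mul_inv]
    rw [e]
    exact hk
  classical
  refine ⟨Nat.find hex, Nat.find_spec hex, ?_⟩
  rcases Nat.eq_zero_or_pos (Nat.find hex) with h0 | h0
  · rw [h0, pow_zero, div_one]
    exact hσ'
  · have h1 := Nat.find_min hex (m := Nat.find hex - 1) (by omega)
    rw [Nat.sub_add_cancel h0] at h1
    exact not_lt.1 h1

theorem camp (n : ℕ) (hn : 1 ≤ n) {ρ K K₀ Λ : ℝ} (hρ : 0 < ρ) (hK : 0 ≤ K) (hK₀ : 0 ≤ K₀) (hΛ : 0 ≤ Λ) :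
    ∃ ω : ℝ → ℝ, IsMod ω ∧ ∀ (D : Set (EE n)) (N : EE n → EE n) (y : EE n) (v : EE n → ℝ), BD ρ D N →
      y ∈ frontier D → VN D N y K K₀ Λ v → ∃ a : EE n →L[ℝ] ℝ, a (N y) = 0 ∧
        ∀ x ∈ closure D, |v x - a (x - y)| ≤ ω ‖x - y‖ * ‖x - y‖ := by
  obtain ⟨C, hC, τ₁, hτ₁, hapx⟩ := exists_apx n hn hρ hK hK₀ hΛ
  obtain ⟨C', hC', τ₂, hτ₂, hgrad⟩ := apx_grad n hρ hK hC.le
  obtain ⟨C₀, hC₀, hest⟩ := harm_est n
  set τ₀ : ℝ := min τ₁ (min τ₂ (1 / 8)) with hτ₀def
  have hτ₀ : 0 < τ₀ := lt_min hτ₁ (lt_min hτ₂ (by norm_num))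
  have hτ₀1 : τ₀ ≤ τ₁ := min_le_left _ _
  have hτ₀2 : τ₀ ≤ τ₂ := (min_le_right _ _).trans (min_le_left _ _)
  have hτ₀3 : τ₀ ≤ 1 / 8 := (min_le_right _ _).trans (min_le_right _ _)
  set C₂ : ℝ := 2 ^ 12 * C + C₀ * K + 2 * C' with hC₂
  have hC₂0 : 0 < C₂ := by positivity
  set A : ℝ := 2 * C₂ + (K + C₀ * K + 2 * C') / τ₀ with hAdef
  have hA : 0 < A := by positivity
  refine ⟨fun s => A * CCamp_w s, CCamp_isMod hA, ?_⟩
  intro D N y v hD hy hV
  have hyc : y ∈ closure D := frontier_subset_closure hy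
  have hν := hD.unit y hy
  have hτk : ∀ k : ℕ, 0 < τ₀ / 2 ^ k := fun k => by positivity
  have hτk' : ∀ k : ℕ, τ₀ / 2 ^ k ≤ τ₀ := fun k =>
    div_le_self hτ₀.le (one_le_pow₀ (by norm_num))
  choose h hh using fun k : ℕ => hapx D N y v hD hy hV (τ₀ / 2 ^ k) (hτk k)
    ((hτk' k).trans hτ₀1)
  set a : ℕ → (EE n →L[ℝ] ℝ) := fun k => fderiv ℝ (h k) y with ha
  have hstep : ∀ k, dist (a k) (a (k + 1)) ≤ C' * τ₀ ^ 2 * (1 / 4) ^ k := by
    intro k
    have h1 := hgrad D N y v (h k) (h (k + 1)) (τ₀ / 2 ^ k) hD hy (hτk k)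
      ((hτk' k).trans hτ₀2) (hh k) (by
        have e : τ₀ / 2 ^ k / 2 = τ₀ / 2 ^ (k + 1) := by
          rw [pow_succ, div_div]
        rw [e]
        exact hh (k + 1))
    rw [dist_eq_norm]
    refine h1.trans (le_of_eq ?_)
    rw [CCamp_sq]
    ring
  obtain ⟨b, hb⟩ := cauchySeq_tendsto_of_complete
    (cauchySeq_of_le_geometric (1 / 4) (C' * τ₀ ^ 2) (by norm_num) hstep)
  have hab : ∀ k, ‖a k - b‖ ≤ 2 * C' * (τ₀ / 2 ^ k) ^ 2 := by
    intro k
    have h1 := dist_le_of_le_geometric_of_tendsto (1 / 4) (C' * τ₀ ^ 2) (by norm_num) hstep hb k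
    rw [dist_eq_norm] at h1
    refine h1.trans ?_
    rw [CCamp_sq]
    have h2 : 0 ≤ C' * τ₀ ^ 2 * (1 / 4 : ℝ) ^ k := by positivity
    have e2 : C' * τ₀ ^ 2 * (1 / 4 : ℝ) ^ k / (1 - 1 / 4)
        = 4 / 3 * (C' * τ₀ ^ 2 * (1 / 4 : ℝ) ^ k) := by ring
    rw [e2]
    have e3 : 2 * C' * (τ₀ ^ 2 * (1 / 4 : ℝ) ^ k) = 2 * (C' * τ₀ ^ 2 * (1 / 4 : ℝ) ^ k) := by ring
    rw [e3]
    linarith
  have hy10 : ∀ k : ℕ, y ∈ ball y ((τ₀ / 2 ^ k) ^ 10) := fun k =>
    mem_ball_self (pow_pos (hτk k) 10)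
  have hak0 : ∀ k, a k (N y) = 0 := by
    intro k
    refine even_fderiv hν (hh k).even (hy10 k) ?_ (by rw [sub_self, inner_zero_left])
    exact ((hh k).smooth.contDiffAt (isOpen_ball.mem_nhds (hy10 k))).differentiableAt
      (by norm_num)
  refine ⟨b, ?_, fun x hx => ?_⟩
  · have h1 : Tendsto (fun k => a k (N y)) atTop (𝓝 (b (N y))) :=
      ((ContinuousLinearMap.apply ℝ ℝ (N y)).continuous.tendsto b).comp hb
    simp only [hak0] at h1
    exact (tendsto_nhds_unique h1 tendsto_const_nhds)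
  · rcases eq_or_lt_of_le (norm_nonneg (x - y)) with h0 | h0
    · have hxy : x = y := sub_eq_zero.1 (norm_eq_zero.1 h0.symm)
      rw [hxy, sub_self, map_zero, hV.zero]
      simp
    · rcases le_or_gt ‖x - y‖ (τ₀ ^ 11) with hσ | hσ
      · obtain ⟨k, hk1, hk2⟩ := CCamp_scale h0 hσ
        set τ : ℝ := τ₀ / 2 ^ k with hτdef
        have hτ : 0 < τ := hτk k
        have hτ8 : τ ≤ 1 / 8 := (hτk' k).trans hτ₀3
        have hτ1 : τ ≤ 1 := by linarith
        have hσ1 : τ ^ 11 ≤ 2 ^ 11 * ‖x - y‖ := by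
          have e : τ₀ / 2 ^ (k + 1) = τ / 2 := by
            rw [pow_succ, ← div_div]
          rw [e, div_pow, div_lt_iff₀ (by positivity)] at hk1
          linarith
        have h10 : 0 < τ ^ 10 := pow_pos hτ 10
        have h11 : τ ^ 11 = τ * τ ^ 10 := by ring
        have hσ4 : ‖x - y‖ < τ ^ 10 / 4 := by
          have : τ * τ ^ 10 ≤ 1 / 8 * τ ^ 10 := mul_le_mul_of_nonneg_right hτ8 h10.le
          linarith
        have hn1 := (hh k).near x hx (by linarith)
        have hn2 := (hh k).near y hyc (by rw [sub_self, norm_zero]; positivity)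
        rw [hV.zero, zero_sub, abs_neg] at hn2
        have he := (hest y (τ ^ 10) (K * τ ^ 10) (h k) h10 (by positivity) (hh k).smooth
          (hh k).harm (hh k).bdd).2.2 x (by
            rw [mem_ball_iff_norm]
            exact hσ4)
        have he1 : C₀ * (K * τ ^ 10) / (τ ^ 10) ^ 2 * ‖x - y‖ ^ 2 ≤ C₀ * K * (τ * ‖x - y‖) := by
          have e : C₀ * (K * τ ^ 10) / (τ ^ 10) ^ 2 * ‖x - y‖ ^ 2
              = C₀ * K * (‖x - y‖ / τ ^ 10 * ‖x - y‖) := by
            field_simp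
          rw [e]
          refine mul_le_mul_of_nonneg_left ?_ (by positivity)
          refine mul_le_mul_of_nonneg_right ?_ h0.le
          rw [div_le_iff₀ h10, ← h11]
          exact hk2
        have hb1 : |a k (x - y) - b (x - y)| ≤ 2 * C' * (τ * ‖x - y‖) := by
          have h2 := (a k - b).le_opNorm (x - y)
          rw [sub_apply, Real.norm_eq_abs] at h2
          refine h2.trans ((mul_le_mul_of_nonneg_right (hab k) (norm_nonneg _)).trans ?_)
          have h3 : τ ^ 2 ≤ τ := by nlinarith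
          have h4 : τ ^ 2 * ‖x - y‖ ≤ τ * ‖x - y‖ := mul_le_mul_of_nonneg_right h3 h0.le
          calc 2 * C' * τ ^ 2 * ‖x - y‖ = 2 * C' * (τ ^ 2 * ‖x - y‖) := by ring
            _ ≤ 2 * C' * (τ * ‖x - y‖) := mul_le_mul_of_nonneg_left h4 (by positivity)
        have h12 : C * τ ^ 12 ≤ 2 ^ 11 * C * (τ * ‖x - y‖) := by
          calc C * τ ^ 12 = C * τ * τ ^ 11 := by ring
            _ ≤ C * τ * (2 ^ 11 * ‖x - y‖) := mul_le_mul_of_nonneg_left hσ1 (by positivity)
            _ = 2 ^ 11 * C * (τ * ‖x - y‖) := by ring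
        have htot : |v x - b (x - y)| ≤ C₂ * (τ * ‖x - y‖) := by
          have e : v x - b (x - y) = (v x - h k x) + (h k x - h k y - a k (x - y)) + h k y
              + (a k (x - y) - b (x - y)) := by ring
          rw [e]
          have i1 := abs_add_le ((v x - h k x) + (h k x - h k y - a k (x - y)) + h k y)
            (a k (x - y) - b (x - y))
          have i2 := abs_add_le ((v x - h k x) + (h k x - h k y - a k (x - y))) (h k y)
          have i3 := abs_add_le (v x - h k x) (h k x - h k y - a k (x - y))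
          have e2 : C₂ * (τ * ‖x - y‖) = 2 ^ 11 * C * (τ * ‖x - y‖) + 2 ^ 11 * C * (τ * ‖x - y‖)
              + C₀ * K * (τ * ‖x - y‖) + 2 * C' * (τ * ‖x - y‖) := by
            rw [hC₂]
            ring
          rw [e2]
          linarith
        have hτw : τ ≤ 2 * CCamp_w ‖x - y‖ := by
          have h2 : τ / 2 ≤ CCamp_w ‖x - y‖ := by
            refine CCamp_le_w (by positivity) ?_
            rw [abs_of_pos h0, div_pow, div_le_iff₀ (by positivity)]
            linarith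
          linarith
        have hw := CCamp_w_nonneg ‖x - y‖
        calc |v x - b (x - y)| ≤ C₂ * (τ * ‖x - y‖) := htot
          _ = C₂ * τ * ‖x - y‖ := by ring
          _ ≤ A * CCamp_w ‖x - y‖ * ‖x - y‖ := by
              refine mul_le_mul_of_nonneg_right ?_ h0.le
              calc C₂ * τ ≤ C₂ * (2 * CCamp_w ‖x - y‖) := mul_le_mul_of_nonneg_left hτw hC₂0.le
                _ = 2 * C₂ * CCamp_w ‖x - y‖ := by ring
                _ ≤ A * CCamp_w ‖x - y‖ := by
                    refine mul_le_mul_of_nonneg_right ?_ hw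
                    rw [hAdef]
                    have : 0 ≤ (K + C₀ * K + 2 * C') / τ₀ := by positivity
                    linarith
      · have h1 : |v x| ≤ K * ‖x - y‖ := by
          have := hV.lip x hx y hyc
          rwa [hV.zero, sub_zero] at this
        have h10 : 0 < (τ₀ / 2 ^ 0) ^ 10 := pow_pos (hτk 0) 10
        have h2 : ‖a 0‖ ≤ C₀ * K := by
          have he := (hest y ((τ₀ / 2 ^ 0) ^ 10) (K * (τ₀ / 2 ^ 0) ^ 10) (h 0) h10 (by positivity)
            (hh 0).smooth (hh 0).harm (hh 0).bdd).1 y (mem_ball_self (by positivity))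
          refine he.trans (le_of_eq ?_)
          field_simp
        have h3 : ‖b‖ ≤ C₀ * K + 2 * C' := by
          have h4 := hab 0
          rw [pow_zero, div_one] at h4
          have h5 : ‖b‖ ≤ ‖a 0‖ + ‖a 0 - b‖ := by
            have := norm_sub_le (a 0) (a 0 - b)
            rwa [sub_sub_cancel] at this
          have h6 : τ₀ ^ 2 ≤ 1 := pow_le_one₀ hτ₀.le (by linarith)
          have h7 : 2 * C' * τ₀ ^ 2 ≤ 2 * C' := mul_le_of_le_one_right (by positivity) h6
          linarith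
        have h4 : |b (x - y)| ≤ (C₀ * K + 2 * C') * ‖x - y‖ := by
          have h5 := b.le_opNorm (x - y)
          rw [Real.norm_eq_abs] at h5
          exact h5.trans (mul_le_mul_of_nonneg_right h3 h0.le)
        have hτw : τ₀ ≤ CCamp_w ‖x - y‖ := by
          refine CCamp_le_w hτ₀.le ?_
          rw [abs_of_pos h0]
          exact hσ.le
        calc |v x - b (x - y)| ≤ |v x| + |b (x - y)| := abs_sub _ _
          _ ≤ (K + C₀ * K + 2 * C') * ‖x - y‖ := by linarith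
          _ ≤ A * CCamp_w ‖x - y‖ * ‖x - y‖ := by
              refine mul_le_mul_of_nonneg_right ?_ h0.le
              have h5 : (K + C₀ * K + 2 * C') / τ₀ ≤ A := by
                rw [hAdef]
                linarith
              have h6 : 0 ≤ (K + C₀ * K + 2 * C') / τ₀ := by positivity
              calc K + C₀ * K + 2 * C' = (K + C₀ * K + 2 * C') / τ₀ * τ₀ := by
                    field_simp
                _ ≤ A * CCamp_w ‖x - y‖ := mul_le_mul h5 hτw hτ₀.le hA.le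

end Pool.Agent.Lib.MP_188651_an
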