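import Pool.Agent.Lib.MP_188651_an.ExDefs
import Pool.Agent.Lib.MP_188651_an.Bd

/-!
# Geometry of domains with interior and exterior balls
-/

open Set Filter Metric Topology InnerProductSpace Laplacian

namespace Pool.Agent.Lib.MP_188651_an

variable {n : ℕ} {ρ : ℝ} {D : Set (EE n)} {N : EE n → EE n}

theorem BD.of_ballDomain (hρ : 0 < ρ) (h : BallDomain ρ D) : ∃ N : EE n → EE n, BD ρ D N := by
  classical
  refine ⟨fun y => if hy : y ∈ frontier D then (h.normal y hy).choose else 0,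
    hρ, h.isOpen, fun y hy => ?_, fun y hy => ?_, fun y hy => ?_⟩
  · simp only [dif_pos hy]
    exact (h.normal y hy).choose_spec.1
  · simp only [dif_pos hy]
    exact (h.normal y hy).choose_spec.2.1
  · simp only [dif_pos hy]
    exact (h.normal y hy).choose_spec.2.2

theorem BD.isOutwardNormal (h : BD ρ D N) {y : EE n} (hy : y ∈ frontier D) : IsOutwardNormal D y (N y) :=
  ⟨h.unit y hy, ρ, h.pos, h.int y hy, h.ext y hy⟩

/-- exterior ball inequality -/
theorem BD.inner_le (h : BD ρ D N) {x y : EE n} (hy : y ∈ frontier D) (hx : x ∈ closure D) :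
    2 * ρ * inner ℝ (x - y) (N y) ≤ ‖x - y‖ ^ 2 := by
  have h1 : Disjoint (ball (y + ρ • N y) ρ) (closure D) := (h.ext y hy).closure_right isOpen_ball
  have h2 : x ∉ ball (y + ρ • N y) ρ := fun hx' => Set.disjoint_left.1 h1 hx' hx
  rw [mem_ball, not_lt, dist_eq_norm] at h2
  have e1 : x - (y + ρ • N y) = (x - y) - ρ • N y := by abel
  rw [e1] at h2
  have h3 := pow_le_pow_left₀ h.pos.le h2 2
  rw [norm_sub_sq_real, norm_smul, h.unit y hy, inner_smul_right, Real.norm_eq_abs,
    abs_of_pos h.pos, mul_one] at h3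
  linarith

/-- interior ball inequality: points outside `D` -/
theorem BD.inner_ge (h : BD ρ D N) {x y : EE n} (hy : y ∈ frontier D) (hx : x ∉ D) :
    -‖x - y‖ ^ 2 ≤ 2 * ρ * inner ℝ (x - y) (N y) := by
  have h2 : x ∉ ball (y - ρ • N y) ρ := fun hx' => hx (h.int y hy hx')
  rw [mem_ball, not_lt, dist_eq_norm] at h2
  have e1 : x - (y - ρ • N y) = (x - y) + ρ • N y := by abel
  rw [e1] at h2
  have h3 := pow_le_pow_left₀ h.pos.le h2 2
  rw [norm_add_sq_real, norm_smul, h.unit y hy, inner_smul_right, Real.norm_eq_abs,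
    abs_of_pos h.pos, mul_one] at h3
  linarith

theorem BD.seg (h : BD ρ D N) {y : EE n} (hy : y ∈ frontier D) {t : ℝ} (ht : 0 < t) (ht2 : t < 2 * ρ) :
    y - t • N y ∈ D := by
  refine h.int y hy ?_
  rw [mem_ball, dist_eq_norm]
  have e1 : y - t • N y - (y - ρ • N y) = (ρ - t) • N y := by
    rw [sub_smul]
    abel
  rw [e1, norm_smul, h.unit y hy, mul_one, Real.norm_eq_abs, abs_lt]
  constructor <;> linarith

/-- a test function touching zero at `y` from above on `closure D` has nonpositive normal derivative -/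
theorem BD.fderiv_le (h : BD ρ D N) {y : EE n} (hy : y ∈ frontier D) {φ : EE n → ℝ} (hφ : DifferentiableAt ℝ φ y)
    (hle : ∀ᶠ z in 𝓝[closure D] y, φ y ≤ φ z) : fderiv ℝ φ y (N y) ≤ 0 := by
  have h0 : HasDerivAt (fun t : ℝ => y - t • N y) (-(N y)) 0 := by
    have h1 : HasDerivAt (fun t : ℝ => t • N y) ((1 : ℝ) • N y) 0 :=
      (hasDerivAt_id (0 : ℝ)).smul_const (N y)
    rw [one_smul] at h1
    exact h1.const_sub y
  have e0 : y - (0 : ℝ) • N y = y := by rw [zero_smul, sub_zero]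
  have h1 : HasDerivAt (fun t : ℝ => φ (y - t • N y)) (fderiv ℝ φ y (-(N y))) 0 := by
    have h2 : HasFDerivAt φ (fderiv ℝ φ y) (y - (0 : ℝ) • N y) := by
      rw [e0]
      exact hφ.hasFDerivAt
    exact h2.comp_hasDerivAt (0 : ℝ) h0
  have h2 := (hasDerivWithinAt_iff_tendsto_slope' (self_notMem_Ioi (a := (0 : ℝ)))).1
    (h1.hasDerivWithinAt (s := Ioi 0))
  have h3 : Tendsto (fun t : ℝ => y - t • N y) (𝓝[>] 0) (𝓝[closure D] y) := by
    refine tendsto_nhdsWithin_iff.2 ⟨?_, ?_⟩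
    · have h4 := h0.continuousAt.tendsto
      rw [e0] at h4
      exact h4.mono_left nhdsWithin_le_nhds
    · have h5 : Ioo (0 : ℝ) (2 * ρ) ∈ 𝓝[>] (0 : ℝ) := Ioo_mem_nhdsGT (by linarith [h.pos])
      filter_upwards [h5] with t ht
      exact subset_closure (h.seg hy ht.1 ht.2)
  have h4 : ∀ᶠ t in 𝓝[>] (0 : ℝ), 0 ≤ slope (fun t : ℝ => φ (y - t • N y)) 0 t := by
    filter_upwards [h3.eventually hle, self_mem_nhdsWithin] with t ht ht0
    rw [slope_def_field]
    have ht0' : (0 : ℝ) < t := ht0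
    refine div_nonneg ?_ (by linarith)
    rw [e0]
    linarith
  have h5 := ge_of_tendsto h2 h4
  rw [map_neg] at h5
  linarith

end Pool.Agent.Lib.MP_188651_an
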