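import Pool.Agent.Lib.MP_188651_an.CDefs
import Pool.Agent.Lib.MP_188651_an.ExGeo
import Pool.Agent.Lib.MP_188651_an.ExLapA

/-!
# Reflection and folding
-/

open Set Filter Metric Topology InnerProductSpace Laplacian

namespace Pool.Agent.Lib.MP_188651_an

variable {n : ℕ} {y ν : EE n}

private theorem cFold_sub (x : EE n) : sg y ν x - y = (x - y) - (2 * inner ℝ (x - y) ν) • ν := by
  unfold sg; abel

private theorem cFold_inner (hν : ‖ν‖ = 1) (x : EE n) (c : ℝ) :
    inner ℝ ((x - y) - c • ν) ν = inner ℝ (x - y) ν - c := by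
  rw [inner_sub_left, inner_smul_left, real_inner_self_eq_norm_sq, hν]
  simp

theorem sg_facts (hν : ‖ν‖ = 1) (x : EE n) : ‖sg y ν x - y‖ = ‖x - y‖ ∧ sg y ν (sg y ν x) = x ∧
    inner ℝ (sg y ν x - y) ν = -inner ℝ (x - y) ν := by
  have h3 : inner ℝ (sg y ν x - y) ν = -inner ℝ (x - y) ν := by
    rw [cFold_sub, cFold_inner hν]; ring
  refine ⟨?_, ?_, h3⟩
  · have h1 : ‖sg y ν x - y‖ ^ 2 = ‖x - y‖ ^ 2 := by
      rw [cFold_sub, norm_sub_sq_real, inner_smul_right, norm_smul, hν, mul_one, Real.norm_eq_abs,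
        sq_abs]
      ring
    exact (pow_left_inj₀ (norm_nonneg _) (norm_nonneg _) two_ne_zero).1 h1
  · have h1 : sg y ν (sg y ν x) = sg y ν x - (2 * inner ℝ (sg y ν x - y) ν) • ν := rfl
    rw [h1, h3]
    unfold sg
    rw [mul_neg, neg_smul]
    abel

private theorem cFold_neg {x : EE n} (h : inner ℝ (x - y) ν ≤ 0) : fold y ν x = x := by
  unfold fold
  rw [max_eq_left h, mul_zero, zero_smul, sub_zero]

private theorem cFold_pos {x : EE n} (h : 0 ≤ inner ℝ (x - y) ν) : fold y ν x = sg y ν x := by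
  unfold fold sg
  rw [max_eq_right h]

private theorem cFold_sub_sg (x x' : EE n) : sg y ν x - sg y ν x' =
    (x - x') - (2 * inner ℝ (x - x') ν) • ν := by
  unfold sg
  have h1 : inner ℝ (x - x') ν = inner ℝ (x - y) ν - inner ℝ (x' - y) ν := by
    rw [← inner_sub_left]; congr 1; abel
  rw [h1, mul_sub, sub_smul]
  abel

private theorem cFold_isom (hν : ‖ν‖ = 1) (x x' : EE n) : ‖sg y ν x - sg y ν x'‖ = ‖x - x'‖ := by
  have h1 : ‖sg y ν x - sg y ν x'‖ ^ 2 = ‖x - x'‖ ^ 2 := by
    rw [cFold_sub_sg, norm_sub_sq_real, inner_smul_right, norm_smul, hν, mul_one, Real.norm_eq_abs,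
      sq_abs]
    ring
  exact (pow_left_inj₀ (norm_nonneg _) (norm_nonneg _) two_ne_zero).1 h1

private theorem cFold_mix (hν : ‖ν‖ = 1) {x x' : EE n} (h : inner ℝ (x - y) ν ≤ 0)
    (h' : 0 ≤ inner ℝ (x' - y) ν) : ‖x - sg y ν x'‖ ≤ ‖x - x'‖ := by
  have h1 : ‖x - sg y ν x'‖ ^ 2 ≤ ‖x - x'‖ ^ 2 := by
    have e1 : x - sg y ν x' = (x - x') + (2 * inner ℝ (x' - y) ν) • ν := by
      unfold sg; abel
    have e2 : inner ℝ (x - x') ν = inner ℝ (x - y) ν - inner ℝ (x' - y) ν := by
      rw [← inner_sub_left]; congr 1; abel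
    rw [e1, norm_add_sq_real, inner_smul_right, norm_smul, hν, mul_one, Real.norm_eq_abs,
      sq_abs, e2]
    nlinarith
  exact (pow_le_pow_iff_left₀ (norm_nonneg _) (norm_nonneg _) two_ne_zero).1 h1

theorem fold_facts (hν : ‖ν‖ = 1) (x : EE n) : ‖fold y ν x - y‖ = ‖x - y‖ ∧
    inner ℝ (fold y ν x - y) ν ≤ 0 ∧ fold y ν (sg y ν x) = fold y ν x ∧
    (fold y ν x = x ∨ fold y ν x = sg y ν x) ∧ ∀ x' : EE n, ‖fold y ν x - fold y ν x'‖ ≤ ‖x - x'‖ := by
  obtain ⟨hs1, hs2, hs3⟩ := sg_facts (y := y) hν x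
  rcases le_total (inner ℝ (x - y) ν) 0 with h | h
  · have hf := cFold_neg h
    refine ⟨by rw [hf], by rw [hf]; exact h, ?_, Or.inl hf, fun x' => ?_⟩
    · rw [cFold_pos (x := sg y ν x) (by rw [hs3]; linarith), hs2, hf]
    · rw [hf]
      rcases le_total (inner ℝ (x' - y) ν) 0 with h' | h'
      · rw [cFold_neg h']
      · rw [cFold_pos h']
        exact cFold_mix hν h h'
  · have hf := cFold_pos h
    refine ⟨by rw [hf, hs1], by rw [hf, hs3]; linarith, ?_, Or.inr hf, fun x' => ?_⟩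
    · rw [cFold_neg (x := sg y ν x) (by rw [hs3]; linarith), hf]
    · rw [hf]
      rcases le_total (inner ℝ (x' - y) ν) 0 with h' | h'
      · rw [cFold_neg h', norm_sub_rev, norm_sub_rev x x']
        exact cFold_mix hν h' h
      · rw [cFold_pos h', cFold_isom hν]

/-- points of `closure D` near `y` are almost folded -/
theorem fold_near {ρ : ℝ} {D : Set (EE n)} {N : EE n → EE n} (hD : BD ρ D N) (hy : y ∈ frontier D) {x : EE n}
    (hx : x ∈ closure D) : ‖x - fold y (N y) x‖ ≤ ‖x - y‖ ^ 2 / ρ := by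
  have hρ := hD.pos
  have h1 := hD.inner_le hy hx
  have e1 : x - fold y (N y) x = (2 * max 0 (inner ℝ (x - y) (N y))) • N y := by
    unfold fold; abel
  rw [e1, norm_smul, hD.unit y hy, mul_one, Real.norm_eq_abs,
    abs_of_nonneg (mul_nonneg two_pos.le (le_max_left _ _)), le_div_iff₀ hρ]
  rcases le_total (inner ℝ (x - y) (N y)) 0 with h | h
  · rw [max_eq_left h, mul_zero, zero_mul]
    positivity
  · rw [max_eq_right h]
    linarith

private theorem cFold_refl (hν : ‖ν‖ = 1) (w : EE n) :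
    (Submodule.reflection (Submodule.span ℝ {ν})ᗮ) w = w - (2 * inner ℝ w ν) • ν := by
  rw [Submodule.reflection_orthogonal_apply, Submodule.reflection_singleton_apply, hν]
  simp
  rw [two_mul, add_smul, two_smul, real_inner_comm]

private theorem cFold_lap_isom (A : EE n ≃ₗᵢ[ℝ] EE n) (f : EE n → ℝ) (x : EE n) :
    (Δ (fun z => f (A z))) x = (Δ f) (A x) := by
  rw [laplacian_eq_iteratedFDeriv_orthonormalBasis _ (EuclideanSpace.basisFun (Fin n) ℝ),
    laplacian_eq_iteratedFDeriv_orthonormalBasis f ((EuclideanSpace.basisFun (Fin n) ℝ).map A)]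
  refine Finset.sum_congr rfl fun i _ => ?_
  have h1 := A.toContinuousLinearEquiv.iteratedFDerivWithin_comp_right (𝕜 := ℝ) f
    (s := univ) uniqueDiffOn_univ (x := x) (mem_univ _) 2
  rw [preimage_univ, iteratedFDerivWithin_univ, iteratedFDerivWithin_univ] at h1
  have h2 : (fun z => f (A z)) = f ∘ A.toContinuousLinearEquiv := rfl
  rw [h2, h1, ContinuousMultilinearMap.compContinuousLinearMap_apply]
  congr 1
  funext j
  fin_cases j <;> simp

/-- the Laplacian is invariant under the reflection -/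
theorem lap_sg (hν : ‖ν‖ = 1) {h : EE n → ℝ} {x : EE n} (hh : ContDiffAt ℝ 2 h (sg y ν x)) :
    ContDiffAt ℝ 2 (fun z => h (sg y ν z)) x ∧ (Δ (fun z => h (sg y ν z))) x = (Δ h) (sg y ν x) := by
  set A : EE n ≃ₗᵢ[ℝ] EE n := Submodule.reflection (Submodule.span ℝ {ν})ᗮ with hA
  have e1 : ∀ z : EE n, sg y ν z = A z + (y - A y) := by
    intro z
    rw [hA, cFold_refl hν, cFold_refl hν]
    unfold sg
    rw [inner_sub_left, mul_sub, sub_smul]
    abel
  constructor
  · refine hh.comp x ?_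
    unfold sg
    exact contDiffAt_id.sub ((contDiffAt_const.mul
      ((contDiffAt_id.sub contDiffAt_const).inner ℝ contDiffAt_const)).smul contDiffAt_const)
  · have e2 : (fun z => h (sg y ν z)) = fun z => (fun w => h (w + (y - A y))) (A z) := by
      funext z
      rw [e1]
    rw [e2, cFold_lap_isom A (fun w => h (w + (y - A y))), lap_translate, ← e1]

/-- even functions have vanishing normal derivative on the hyperplane -/
theorem even_fderiv (hν : ‖ν‖ = 1) {h : EE n → ℝ} {r : ℝ} (hh : ∀ x ∈ ball y r, h (sg y ν x) = h x) {x : EE n}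
    (hx : x ∈ ball y r) (hd : DifferentiableAt ℝ h x) (h0 : inner ℝ (x - y) ν = 0) : fderiv ℝ h x ν = 0 := by
  have hsg : ∀ t : ℝ, sg y ν (x + t • ν) = x + t • (-ν) := by
    intro t
    unfold sg
    have e1 : x + t • ν - y = (x - y) + t • ν := by abel
    rw [e1, inner_add_left, h0, inner_smul_left, real_inner_self_eq_norm_sq, hν, zero_add]
    simp only [conj_trivial, one_pow, mul_one]
    rw [two_mul, add_smul, smul_neg]
    abel
  have hderiv : ∀ v : EE n, HasDerivAt (fun t : ℝ => h (x + t • v)) (fderiv ℝ h x v) 0 := by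
    intro v
    have h1 : HasDerivAt (fun t : ℝ => x + t • v) v 0 := by
      have h7 := ((hasDerivAt_id (0 : ℝ)).smul_const v).const_add x
      simpa using h7
    have h2 : HasFDerivAt h (fderiv ℝ h x) (x + (0 : ℝ) • v) := by
      rw [zero_smul, add_zero]
      exact hd.hasFDerivAt
    exact h2.comp_hasDerivAt (0 : ℝ) h1
  have hev : (fun t : ℝ => h (x + t • ν)) =ᶠ[𝓝 0] fun t : ℝ => h (x + t • (-ν)) := by
    have hc : ContinuousAt (fun t : ℝ => x + t • ν) 0 := by fun_prop
    have hm : ball y r ∈ 𝓝 (x + (0 : ℝ) • ν) := by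
      rw [zero_smul, add_zero]
      exact isOpen_ball.mem_nhds hx
    filter_upwards [hc hm] with t ht
    rw [← hsg t]
    exact (hh _ ht).symm
  have h1 := (hderiv ν).unique ((hderiv (-ν)).congr_of_eventuallyEq hev)
  rw [map_neg] at h1
  linarith

end Pool.Agent.Lib.MP_188651_an
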