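import Pool.Agent.Lib.MP_188651_an.ExRC
import Pool.Agent.Lib.MP_188651_an.ExLapB

/-!
# Interior Lipschitz estimate
-/

open Set Filter Metric Topology InnerProductSpace Laplacian

namespace Pool.Agent.Lib.MP_188651_an

private theorem lipInt_one {n : ℕ} {c : EE n} {R A B L : ℝ} {v : EE n → ℝ} (hR : 0 < R) (hA : 0 ≤ A)
    (hB : 0 ≤ B) (hv : ContDiffOn ℝ 2 v (ball c R)) (hvA : ∀ x ∈ ball c R, |v x| ≤ A)
    (hvB : ∀ x ∈ ball c R, |(Δ v) x| ≤ B) (hL : (32 + 8 * n) * (A / R) + B * R < L)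
    {x1 x1' : EE n} (hx1 : x1 ∈ ball c (R / 2)) (hx1' : x1' ∈ ball c (R / 2))
    (hclose : ‖x1 - x1'‖ < R / 8) : v x1 - v x1' ≤ L * ‖x1 - x1'‖ := by
  have hAR : 0 ≤ A / R := div_nonneg hA hR.le
  have hBR : 0 ≤ B * R := mul_nonneg hB hR.le
  have hn : (0 : ℝ) ≤ n := Nat.cast_nonneg n
  have hL0 : 0 < L := lt_of_le_of_lt (by positivity) hL
  set s0 : ℝ := R / 8 with hs0
  have hs0p : 0 < s0 := by positivity
  set K : ℝ := 128 * A / R ^ 2 with hK
  have hK0 : 0 ≤ K := by positivity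
  let ω : ℝ → ℝ := fun s => L * (s - s ^ 2 / (2 * s0))
  have hωnn : ∀ s, 0 ≤ s → s ≤ s0 → 0 ≤ ω s := by
    intro s hs hs'
    refine mul_nonneg hL0.le ?_
    rw [sub_nonneg, div_le_iff₀ (by positivity)]
    nlinarith
  have hωle : ∀ s, 0 ≤ s → ω s ≤ L * s := by
    intro s hs
    refine mul_le_mul_of_nonneg_left ?_ hL0.le
    have : 0 ≤ s ^ 2 / (2 * s0) := by positivity
    linarith
  let Φ : EE n × EE n → ℝ := fun p => v p.1 - v p.2 - ω ‖p.1 - p.2‖ - K * ‖p.1 - x1‖ ^ 2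
  by_contra hcon
  push Not at hcon
  have hΦ1 : 0 < Φ (x1, x1') := by
    have := hωle ‖x1 - x1'‖ (norm_nonneg _)
    simp only [Φ, sub_self, norm_zero]
    linarith
  let S : Set (EE n × EE n) := {p | ‖p.1 - x1‖ ≤ R / 8 ∧ ‖p.1 - p.2‖ ≤ s0}
  rw [mem_ball, dist_eq_norm] at hx1 hx1'
  have hSball : ∀ p ∈ S, p.1 ∈ ball c R ∧ p.2 ∈ ball c R := by
    rintro p ⟨hp1, hp2⟩
    rw [mem_ball, mem_ball, dist_eq_norm, dist_eq_norm]
    have h1 : ‖p.1 - c‖ ≤ ‖p.1 - x1‖ + ‖x1 - c‖ := norm_sub_le_norm_sub_add_norm_sub _ _ _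
    have h2 : ‖p.2 - c‖ ≤ ‖p.2 - p.1‖ + ‖p.1 - c‖ := norm_sub_le_norm_sub_add_norm_sub _ _ _
    rw [norm_sub_rev p.2 p.1] at h2
    constructor <;> linarith
  have hc1 : Continuous fun p : EE n × EE n => ‖p.1 - x1‖ := by fun_prop
  have hc2 : Continuous fun p : EE n × EE n => ‖p.1 - p.2‖ := by fun_prop
  have hSclosed : IsClosed S :=
    (isClosed_le hc1 continuous_const).inter (isClosed_le hc2 continuous_const)
  have hScomp : IsCompact S := by
    refine IsCompact.of_isClosed_subset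
      ((isCompact_closedBall x1 (R / 8)).prod (isCompact_closedBall x1 (R / 4))) hSclosed ?_
    rintro p ⟨hp1, hp2⟩
    rw [mem_prod, mem_closedBall, mem_closedBall, dist_eq_norm, dist_eq_norm]
    refine ⟨hp1, ?_⟩
    have h2 : ‖p.2 - x1‖ ≤ ‖p.2 - p.1‖ + ‖p.1 - x1‖ := norm_sub_le_norm_sub_add_norm_sub _ _ _
    rw [norm_sub_rev p.2 p.1] at h2
    linarith
  have hx1S : (x1, x1') ∈ S := by
    refine ⟨?_, hclose.le⟩
    simp only [sub_self, norm_zero]
    positivity
  have hΦc : ContinuousOn Φ S := by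
    have hvc : ContinuousOn v (ball c R) := hv.continuousOn
    have h1 : ContinuousOn (fun p : EE n × EE n => v p.1) S :=
      hvc.comp continuousOn_fst fun p hp => (hSball p hp).1
    have h2 : ContinuousOn (fun p : EE n × EE n => v p.2) S :=
      hvc.comp continuousOn_snd fun p hp => (hSball p hp).2
    have h3 : Continuous fun p : EE n × EE n => ω ‖p.1 - p.2‖ := by
      simp only [ω]
      fun_prop
    have h4 : Continuous fun p : EE n × EE n => K * ‖p.1 - x1‖ ^ 2 := by fun_prop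
    exact ((h1.sub h2).sub h3.continuousOn).sub h4.continuousOn
  obtain ⟨⟨x, x'⟩, hpS, hpmax⟩ := hScomp.exists_isMaxOn ⟨_, hx1S⟩ hΦc
  have hΦp : 0 < Φ (x, x') := lt_of_lt_of_le hΦ1 (hpmax hx1S)
  obtain ⟨hxb, hx'b⟩ := hSball _ hpS
  simp only at hxb hx'b
  have hvx := abs_le.1 (hvA x hxb)
  have hvx' := abs_le.1 (hvA x' hx'b)
  have hp1 : ‖x - x1‖ ≤ R / 8 := hpS.1
  have hp2 : ‖x - x'‖ ≤ s0 := hpS.2
  have hω1 := hωnn ‖x - x'‖ (norm_nonneg _) hp2
  have hne : x ≠ x' := by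
    rintro rfl
    have : 0 ≤ K * ‖x - x1‖ ^ 2 := by positivity
    simp only [Φ, ω, sub_self, norm_zero] at hΦp
    norm_num at hΦp
    linarith
  have hlt1 : ‖x - x1‖ < R / 8 := by
    refine lt_of_le_of_ne hp1 fun heq => ?_
    simp only [Φ] at hΦp
    rw [heq] at hΦp
    have : K * (R / 8) ^ 2 = 2 * A := by
      rw [hK]
      field_simp
      ring
    linarith
  have hlt2 : ‖x - x'‖ < s0 := by
    refine lt_of_le_of_ne hp2 fun heq => ?_
    simp only [Φ] at hΦp
    rw [heq] at hΦp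
    have h1 : ω s0 = L * s0 / 2 := by
      simp only [ω]
      field_simp
      ring
    have h2 : 2 * A ≤ L * s0 / 2 := by
      have h3 : 32 * (A / R) ≤ L := by nlinarith
      have h4 : 32 * (A / R) * s0 / 2 = 2 * A := by
        rw [hs0]
        field_simp
        ring
      nlinarith
    have : 0 ≤ K * ‖x - x1‖ ^ 2 := by positivity
    rw [h1] at hΦp
    linarith
  have hnhds : S ∈ 𝓝 (x, x') := by
    have ho : IsOpen {p : EE n × EE n | ‖p.1 - x1‖ < R / 8 ∧ ‖p.1 - p.2‖ < s0} :=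
      (isOpen_lt hc1 continuous_const).inter (isOpen_lt hc2 continuous_const)
    exact mem_of_superset (ho.mem_nhds ⟨hlt1, hlt2⟩) fun p hp => ⟨hp.1.le, hp.2.le⟩
  have hvx2 : ContDiffAt ℝ 2 v x := hv.contDiffAt (isOpen_ball.mem_nhds hxb)
  have hvx2' : ContDiffAt ℝ 2 v x' := hv.contDiffAt (isOpen_ball.mem_nhds hx'b)
  obtain ⟨hq1, hq2, _⟩ := sq_facts x1 x
  have hrc := rc_q (v1 := v) (v2 := v) (E1 := fun _ => 0) (E2 := fun _ => 0)
    (θ1 := fun y => K * ‖y - x1‖ ^ 2) (θ2 := fun _ => 0) (ω := ω)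
    (ω' := fun s => L * (1 - s / s0)) (ω'' := -(L / s0)) (k := 0) hne hvx2 hvx2'
    contDiffAt_const contDiffAt_const (contDiffAt_const.mul hq1.contDiffAt) contDiffAt_const
    (Eventually.of_forall fun s => by
      have h1 : HasDerivAt (fun s : ℝ => s ^ 2) (2 * s) s := by simpa using hasDerivAt_pow 2 s
      have h2 := ((hasDerivAt_id s).sub (h1.div_const (2 * s0))).const_mul L
      refine h2.congr_deriv ?_
      field_simp)
    (by
      have h2 := (((hasDerivAt_id ‖x - x'‖).div_const s0).const_sub 1).const_mul L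
      refine h2.congr_deriv ?_
      field_simp)
    (by
      filter_upwards [hnhds] with p hp
      have := hpmax hp
      simp only [mem_ofPred_eq, Φ] at this
      simp only [mul_zero, add_zero, mul_one, sub_zero]
      linarith)
  rw [lap_const_mul K hq1.contDiffAt, hq2, lap_const] at hrc
  have hl1 := abs_le.1 (hvB x hxb)
  have hl2 := abs_le.1 (hvB x' hx'b)
  simp only [mul_zero, zero_mul, add_zero, mul_one] at hrc
  have h5 : 4 * (L / s0) ≤ K * (2 * n) + 2 * B := by linarith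
  have h6 : 4 * (L / s0) = 32 * L / R := by
    rw [hs0]
    field_simp
    ring
  rw [h6, div_le_iff₀ hR] at h5
  have h7 : (K * (2 * n) + 2 * B) * R = 256 * n * (A / R) + 2 * (B * R) := by
    rw [hK]
    field_simp
    ring
  rw [h7] at h5
  have h8 : 0 ≤ (n : ℝ) * (A / R) := by positivity
  nlinarith

theorem lip_int (n : ℕ) : ∃ C > 0, ∀ (c : EE n) (R A B : ℝ) (v : EE n → ℝ), 0 < R → 0 ≤ A → 0 ≤ B →
    ContDiffOn ℝ 2 v (ball c R) → (∀ x ∈ ball c R, |v x| ≤ A) → (∀ x ∈ ball c R, |(Δ v) x| ≤ B) →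
    ∀ x ∈ ball c (R / 2), ∀ x' ∈ ball c (R / 2), |v x - v x'| ≤ C * (A / R + B * R) * ‖x - x'‖ := by
  refine ⟨32 + 8 * n, by positivity, ?_⟩
  intro c R A B v hR hA hB hv hvA hvB
  have hAR : 0 ≤ A / R := div_nonneg hA hR.le
  have hBR : 0 ≤ B * R := mul_nonneg hB hR.le
  have hn : (0 : ℝ) ≤ n := Nat.cast_nonneg n
  have key : ∀ x ∈ ball c (R / 2), ∀ x' ∈ ball c (R / 2),
      v x - v x' ≤ (32 + 8 * n) * (A / R + B * R) * ‖x - x'‖ := by
    intro x hx x' hx'
    rcases lt_or_ge ‖x - x'‖ (R / 8) with hlt | hge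
    · have h1 : v x - v x' ≤ ((32 + 8 * n) * (A / R) + B * R) * ‖x - x'‖ := by
        have h2 : ∀ L, (32 + 8 * n) * (A / R) + B * R < L → v x - v x' ≤ L * ‖x - x'‖ :=
          fun L hL => lipInt_one hR hA hB hv hvA hvB hL hx hx' hlt
        have h3 : Tendsto (fun L : ℝ => L * ‖x - x'‖)
            (𝓝[>] ((32 + 8 * n) * (A / R) + B * R))
            (𝓝 (((32 + 8 * n) * (A / R) + B * R) * ‖x - x'‖)) := by
          have : Continuous fun L : ℝ => L * ‖x - x'‖ := by fun_prop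
          exact (this.tendsto _).mono_left nhdsWithin_le_nhds
        refine ge_of_tendsto h3 ?_
        filter_upwards [self_mem_nhdsWithin] with L hL
        exact h2 L hL
      refine h1.trans (mul_le_mul_of_nonneg_right ?_ (norm_nonneg _))
      nlinarith
    · have hxb : x ∈ ball c R := ball_subset_ball (by linarith) hx
      have hx'b : x' ∈ ball c R := ball_subset_ball (by linarith) hx'
      have h1 := abs_le.1 (hvA x hxb)
      have h2 := abs_le.1 (hvA x' hx'b)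
      have h3 : 2 * A = 16 * (A / R) * (R / 8) := by
        field_simp
        ring
      have h4 : 16 * (A / R) * (R / 8) ≤ 16 * (A / R) * ‖x - x'‖ :=
        mul_le_mul_of_nonneg_left hge (by positivity)
      have h5 : 16 * (A / R) * ‖x - x'‖ ≤ (32 + 8 * n) * (A / R + B * R) * ‖x - x'‖ := by
        refine mul_le_mul_of_nonneg_right ?_ (norm_nonneg _)
        have : 0 ≤ (n : ℝ) * (A / R) := by positivity
        have : 0 ≤ (n : ℝ) * (B * R) := by positivity
        nlinarith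
      linarith
  intro x hx x' hx'
  rw [abs_le]
  have h1 := key x hx x' hx'
  have h2 := key x' hx' x hx
  rw [norm_sub_rev] at h2
  constructor <;> linarith

end Pool.Agent.Lib.MP_188651_an
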