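import Pool.Agent.Lib.MP_188651_an.ExLimD
import Pool.Agent.Lib.MP_188651_an.ExLipInt

/-!
# Interior estimates for harmonic functions
-/

open Set Filter Metric Topology InnerProductSpace Laplacian

namespace Pool.Agent.Lib.MP_188651_an

private theorem CHarm_limSol {n : ℕ} {c : EE n} {R : ℝ} {h : EE n → ℝ}
    (hh : ContDiffOn ℝ 2 h (ball c R)) (hlap : ∀ x ∈ ball c R, (Δ h) x = 0) :
    LimSol (ball c R) (fun _ => 0) h := by
  refine ⟨fun _ => h, fun _ => hh, ?_, ?_⟩
  · rw [Metric.tendstoUniformlyOn_iff]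
    intro ε hε
    exact Eventually.of_forall fun k x _ => by rw [dist_self]; exact hε
  · rw [Metric.tendstoUniformlyOn_iff]
    intro ε hε
    refine Eventually.of_forall fun k x hx => ?_
    show dist (0 : ℝ) (-(Δ h) x) < ε
    rw [hlap x hx, neg_zero, dist_self]
    exact hε

private theorem CHarm_diff {n : ℕ} {c : EE n} {R : ℝ} {h : EE n → ℝ}
    (hh : ContDiffOn ℝ 2 h (ball c R)) {x : EE n} (hx : x ∈ ball c R) : DifferentiableAt ℝ h x :=
  (hh.contDiffAt (isOpen_ball.mem_nhds hx)).differentiableAt (by simp)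

theorem harm_est (n : ℕ) : ∃ C > 0, ∀ (c : EE n) (R A : ℝ) (h : EE n → ℝ), 0 < R → 0 ≤ A →
    ContDiffOn ℝ 2 h (ball c R) → (∀ x ∈ ball c R, (Δ h) x = 0) → (∀ x ∈ ball c R, |h x| ≤ A) →
    (∀ x ∈ ball c (R / 2), ‖fderiv ℝ h x‖ ≤ C * A / R) ∧
    (∀ x ∈ ball c (R / 4), ∀ x' ∈ ball c (R / 4), ‖fderiv ℝ h x - fderiv ℝ h x'‖ ≤ C * A / R ^ 2 * ‖x - x'‖) ∧
    ∀ x ∈ ball c (R / 4), |h x - h c - fderiv ℝ h c (x - c)| ≤ C * A / R ^ 2 * ‖x - c‖ ^ 2 := by
  obtain ⟨C₀, hC₀, hlip⟩ := lip_int n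
  refine ⟨C₀ + 2 * C₀ ^ 2, by positivity, ?_⟩
  intro c R A h hR hA hh hlap hb
  have ha : ∀ x ∈ ball c (R / 2), ‖fderiv ℝ h x‖ ≤ C₀ * (A / R) := by
    intro x hx
    refine norm_fderiv_le_of_lip' ℝ (by positivity) ?_
    filter_upwards [isOpen_ball.mem_nhds hx] with z hz
    have h1 := hlip c R A 0 h hR hA le_rfl hh hb (fun x hx => by rw [hlap x hx, abs_zero]) z hz x hx
    rw [Real.norm_eq_abs]
    simpa using h1
  have hR2 : 0 < R / 2 := by positivity
  have hR2R : R / 2 < R := by linarith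
  have hg : ∀ x ∈ ball c (R / 4), ∀ x' ∈ ball c (R / 4),
      ‖fderiv ℝ h x - fderiv ℝ h x'‖ ≤ 2 * C₀ ^ 2 * A / R ^ 2 * ‖x - x'‖ := by
    intro x hx x' hx'
    refine ContinuousLinearMap.opNorm_le_bound _ (by positivity) fun e => ?_
    have hL := (CHarm_limSol hh hlap).deriv hR2 hR2R (contDiffOn_const) e
    have hL' : LimSol (ball c (R / 2)) (fun _ => 0) (fun x => fderiv ℝ h x e) :=
      hL.congr (fun x _ => by simp) (fun x _ => rfl)
    obtain ⟨h1, h2⟩ := hL'.c2 hR2 contDiffOn_const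
    have h3 := hlip c (R / 2) (C₀ * (A / R) * ‖e‖) 0 (fun x => fderiv ℝ h x e) hR2 (by positivity)
      le_rfl h1 (fun z hz => by
        rw [← Real.norm_eq_abs]
        exact (ContinuousLinearMap.le_opNorm _ e).trans
          (mul_le_mul_of_nonneg_right (ha z hz) (norm_nonneg _)))
      (fun z hz => by
        have := h2 z hz
        have h4 : (Δ fun x => fderiv ℝ h x e) z = 0 := by linarith
        rw [h4, abs_zero]) x (by rwa [show R / 2 / 2 = R / 4 by ring])
      x' (by rwa [show R / 2 / 2 = R / 4 by ring])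
    rw [ContinuousLinearMap.sub_apply, Real.norm_eq_abs]
    refine h3.trans (le_of_eq ?_)
    field_simp
    ring
  have hsub4 : ball c (R / 4) ⊆ ball c R := ball_subset_ball (by linarith)
  refine ⟨fun x hx => ?_, fun x hx x' hx' => ?_, fun x hx => ?_⟩
  · refine (ha x hx).trans ?_
    rw [mul_div_assoc]
    refine mul_le_mul_of_nonneg_right ?_ (by positivity)
    nlinarith [sq_nonneg C₀]
  · refine (hg x hx x' hx').trans ?_
    refine mul_le_mul_of_nonneg_right ?_ (norm_nonneg _)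
    refine div_le_div_of_nonneg_right ?_ (by positivity)
    exact mul_le_mul_of_nonneg_right (by linarith) hA
  · have hxc : ‖x - c‖ < R / 4 := by rwa [mem_ball, dist_eq_norm] at hx
    have hsub : closedBall c ‖x - c‖ ⊆ ball c (R / 4) := closedBall_subset_ball hxc
    have hcmem : c ∈ ball c (R / 4) := mem_ball_self (by positivity)
    have h1 := (convex_closedBall c ‖x - c‖).norm_image_sub_le_of_norm_fderiv_le' (𝕜 := ℝ)
      (f := h) (φ := fderiv ℝ h c) (C := 2 * C₀ ^ 2 * A / R ^ 2 * ‖x - c‖)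
      (fun z hz => CHarm_diff hh (hsub4 (hsub hz)))
      (fun z hz => by
        refine (hg z (hsub hz) c hcmem).trans ?_
        refine mul_le_mul_of_nonneg_left ?_ (by positivity)
        rwa [mem_closedBall, dist_eq_norm] at hz)
      (mem_closedBall_self (norm_nonneg _))
      (show x ∈ closedBall c ‖x - c‖ by rw [mem_closedBall, dist_eq_norm])
    rw [Real.norm_eq_abs] at h1
    refine h1.trans ?_
    calc 2 * C₀ ^ 2 * A / R ^ 2 * ‖x - c‖ * ‖x - c‖ = 2 * C₀ ^ 2 * A / R ^ 2 * ‖x - c‖ ^ 2 := by ring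
      _ ≤ (C₀ + 2 * C₀ ^ 2) * A / R ^ 2 * ‖x - c‖ ^ 2 := by
          refine mul_le_mul_of_nonneg_right ?_ (by positivity)
          refine div_le_div_of_nonneg_right ?_ (by positivity)
          exact mul_le_mul_of_nonneg_right (by linarith) hA

end Pool.Agent.Lib.MP_188651_an
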