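import Pool.Agent.Lib.MP_188651_an.CApx
import Pool.Agent.Lib.MP_188651_an.CHarm
import Pool.Agent.Lib.MP_188651_an.CFold
import Pool.Agent.Lib.MP_188651_an.ExLapA

/-!
# Gradients at consecutive scales
-/

open Set Filter Metric Topology InnerProductSpace Laplacian

namespace Pool.Agent.Lib.MP_188651_an

/-- mean value inequality on a ball -/
private theorem CCampA_mv {n : ℕ} {y : EE n} {R L : ℝ} {g : EE n → ℝ} (hg : ∀ x ∈ ball y R, DifferentiableAt ℝ g x)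
    (hb : ∀ x ∈ ball y R, ‖fderiv ℝ g x‖ ≤ L) {x x' : EE n} (hx : x ∈ ball y R) (hx' : x' ∈ ball y R) :
    |g x - g x'| ≤ L * ‖x - x'‖ := by
  have h := (convex_ball y R).norm_image_sub_le_of_norm_fderiv_le (𝕜 := ℝ) hg hb hx' hx
  rwa [Real.norm_eq_abs] at h

/-- the difference is small at the points below the tangent plane -/
private theorem CCampA_low {n : ℕ} {ρ K C C₀ : ℝ} (hρ : 0 < ρ) (hK : 0 ≤ K) (hC : 0 ≤ C) (hC₀ : 0 < C₀)
    {D : Set (EE n)} {N : EE n → EE n} {y : EE n} {v h h' : EE n → ℝ} {τ : ℝ} (hD : BD ρ D N) (hy : y ∈ frontier D)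
    (hτ : 0 < τ) (hτ1 : τ ≤ 1) (hτρ : τ ≤ ρ / 4) (ha : Apx D y (N y) K C τ v h)
    (ha' : Apx D y (N y) K C (τ / 2) v h')
    (hh : ∀ x ∈ ball y ((τ / 2) ^ 10 / 2), ‖fderiv ℝ h x‖ ≤ C₀ * K)
    (hh' : ∀ x ∈ ball y ((τ / 2) ^ 10 / 2), ‖fderiv ℝ h' x‖ ≤ C₀ * K)
    {x : EE n} (hx : x ∈ ball y ((τ / 2) ^ 10 / 4)) (hs : inner ℝ (x - y) (N y) ≤ 0) :
    |h x - h' x| ≤ (2 * C + 2 * C₀ * K / ρ) * τ ^ 12 := by
  have hν := hD.unit y hy
  set r := (τ / 2) ^ 10 with hr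
  have hr0 : 0 < r := by positivity
  have hrτ : r ≤ τ ^ 10 := by
    rw [hr]
    exact pow_le_pow_left₀ (by positivity) (by linarith) 10
  have hτ10 : τ ^ 10 ≤ τ := by
    calc τ ^ 10 ≤ τ ^ 1 := pow_le_pow_of_le_one hτ.le hτ1 (by norm_num)
      _ = τ := pow_one τ
  have hr1 : r ≤ ρ / 4 := by linarith
  have ht0 : 0 < r ^ 2 / ρ := by positivity
  have ht : r ^ 2 / ρ ≤ r / 4 := by
    rw [div_le_iff₀ hρ]
    nlinarith
  have hsub : ball y (r / 2) ⊆ ball y (τ ^ 10) := ball_subset_ball (by linarith)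
  have hsub' : ball y (r / 2) ⊆ ball y r := ball_subset_ball (by linarith)
  have hdx : ‖x - y‖ < r / 4 := by
    rw [mem_ball, dist_eq_norm] at hx
    exact hx
  -- the point `x'`
  set t := r ^ 2 / ρ with htd
  have hxx : x - (x - t • N y) = t • N y := by abel
  have hn1 : ‖x - (x - t • N y)‖ = t := by
    rw [hxx, norm_smul, hν, mul_one, Real.norm_eq_abs, abs_of_pos ht0]
  have hn2 : ‖x - t • N y - y‖ < r / 2 := by
    have e1 : x - t • N y - y = (x - y) - t • N y := by abel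
    rw [e1]
    have h1 := norm_sub_le (x - y) (t • N y)
    rw [norm_smul, hν, mul_one, Real.norm_eq_abs, abs_of_pos ht0] at h1
    linarith
  have hin : inner ℝ (x - t • N y - y) (N y) ≤ -t := by
    have e1 : x - t • N y - y = (x - y) - t • N y := by abel
    rw [e1, inner_sub_left, inner_smul_left, real_inner_self_eq_norm_sq, hν]
    simp only [conj_trivial, one_pow, mul_one]
    linarith
  have hxD : x - t • N y ∈ D := by
    refine hD.int y hy ?_
    rw [mem_ball, dist_eq_norm]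
    have e1 : x - t • N y - (y - ρ • N y) = (x - t • N y - y) + ρ • N y := by abel
    have h1 : ‖x - t • N y - (y - ρ • N y)‖ ^ 2 < ρ ^ 2 := by
      rw [e1, norm_add_sq_real, norm_smul, hν, inner_smul_right, Real.norm_eq_abs, abs_of_pos hρ, mul_one]
      have h2 : ‖x - t • N y - y‖ ^ 2 < (r / 2) ^ 2 := by
        exact pow_lt_pow_left₀ hn2 (norm_nonneg _) two_ne_zero
      have h3 : ρ * inner ℝ (x - t • N y - y) (N y) ≤ ρ * (-t) := mul_le_mul_of_nonneg_left hin hρ.le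
      have h4 : ρ * (-t) = - r ^ 2 := by
        rw [htd]
        field_simp
      nlinarith
    exact lt_of_pow_lt_pow_left₀ 2 hρ.le h1
  have hmem : x - t • N y ∈ ball y (r / 2) := by
    rw [mem_ball, dist_eq_norm]
    exact hn2
  have hmx : x ∈ ball y (r / 2) := ball_subset_ball (by linarith) hx
  have hd : ∀ z ∈ ball y (r / 2), DifferentiableAt ℝ h z := fun z hz =>
    (ha.smooth.contDiffAt (isOpen_ball.mem_nhds (hsub hz))).differentiableAt (by norm_num)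
  have hd' : ∀ z ∈ ball y (r / 2), DifferentiableAt ℝ h' z := fun z hz =>
    (ha'.smooth.contDiffAt (isOpen_ball.mem_nhds (hsub' hz))).differentiableAt (by norm_num)
  have m1 := CCampA_mv hd hh hmx hmem
  have m2 := CCampA_mv hd' hh' hmx hmem
  rw [hn1] at m1 m2
  have n1 := ha.near _ (subset_closure hxD) (by linarith)
  have n2 := ha'.near _ (subset_closure hxD) hn2.le
  have h12 : C * (τ / 2) ^ 12 ≤ C * τ ^ 12 :=
    mul_le_mul_of_nonneg_left (pow_le_pow_left₀ (by positivity) (by linarith) 12) hC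
  have ht12 : t ≤ τ ^ 12 / ρ := by
    rw [htd]
    apply div_le_div_of_nonneg_right _ hρ.le
    calc r ^ 2 ≤ (τ ^ 10) ^ 2 := pow_le_pow_left₀ hr0.le hrτ 2
      _ = τ ^ 20 := by rw [← pow_mul]
      _ ≤ τ ^ 12 := pow_le_pow_of_le_one hτ.le hτ1 (by norm_num)
  have hCK : 0 ≤ C₀ * K := mul_nonneg hC₀.le hK
  have h5 : C₀ * K * t ≤ C₀ * K * (τ ^ 12 / ρ) := mul_le_mul_of_nonneg_left ht12 hCK
  have e5 : (2 * C + 2 * C₀ * K / ρ) * τ ^ 12 = C * τ ^ 12 + C * τ ^ 12 + (C₀ * K * (τ ^ 12 / ρ) + C₀ * K * (τ ^ 12 / ρ)) := by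
    field_simp
    ring
  rw [e5]
  rw [abs_le] at m1 m2 n1 n2 ⊢
  constructor <;> linarith [m1.1, m1.2, m2.1, m2.2, n1.1, n1.2, n2.1, n2.2]

/-- gradients at consecutive scales -/
theorem apx_grad (n : ℕ) {ρ K C : ℝ} (hρ : 0 < ρ) (hK : 0 ≤ K) (hC : 0 ≤ C) : ∃ C' > 0, ∃ τ₀ > 0,
    ∀ (D : Set (EE n)) (N : EE n → EE n) (y : EE n) (v h h' : EE n → ℝ) (τ : ℝ), BD ρ D N → y ∈ frontier D →
      0 < τ → τ ≤ τ₀ → Apx D y (N y) K C τ v h → Apx D y (N y) K C (τ / 2) v h' →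
      ‖fderiv ℝ h y - fderiv ℝ h' y‖ ≤ C' * τ ^ 2 := by
  obtain ⟨C₀, hC₀, hest⟩ := harm_est n
  refine ⟨4096 * C₀ * (2 * C + 2 * C₀ * K / ρ) + 1, by positivity, min 1 (ρ / 4), by positivity, ?_⟩
  intro D N y v h h' τ hD hy hτ hττ ha ha'
  have hτ1 : τ ≤ 1 := hττ.trans (min_le_left _ _)
  have hτρ : τ ≤ ρ / 4 := hττ.trans (min_le_right _ _)
  have hν := hD.unit y hy
  have hr0 : 0 < (τ / 2) ^ 10 := by positivity
  have hR0 : 0 < τ ^ 10 := by positivity
  have hrτ : (τ / 2) ^ 10 ≤ τ ^ 10 := pow_le_pow_left₀ (by positivity) (by linarith) 10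
  have g1 := (hest y (τ ^ 10) (K * τ ^ 10) h hR0 (by positivity) ha.smooth ha.harm ha.bdd).1
  have g2 := (hest y ((τ / 2) ^ 10) (K * (τ / 2) ^ 10) h' hr0 (by positivity) ha'.smooth ha'.harm ha'.bdd).1
  have e1 : C₀ * (K * τ ^ 10) / τ ^ 10 = C₀ * K := by field_simp
  have e2 : C₀ * (K * (τ / 2) ^ 10) / (τ / 2) ^ 10 = C₀ * K := by
    rw [← mul_assoc, mul_div_assoc, div_self hr0.ne', mul_one]
  rw [e1] at g1
  rw [e2] at g2
  have g1' : ∀ x ∈ ball y ((τ / 2) ^ 10 / 2), ‖fderiv ℝ h x‖ ≤ C₀ * K := fun x hx =>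
    g1 x (ball_subset_ball (by linarith) hx)
  have hbound : ∀ x ∈ ball y ((τ / 2) ^ 10 / 4), |h x - h' x| ≤ (2 * C + 2 * C₀ * K / ρ) * τ ^ 12 := by
    intro x hx
    rcases le_total (inner ℝ (x - y) (N y)) 0 with hs | hs
    · exact CCampA_low hρ hK hC hC₀ hD hy hτ hτ1 hτρ ha ha' g1' g2 hx hs
    · have hf := sg_facts (y := y) hν x
      have hx2 : sg y (N y) x ∈ ball y ((τ / 2) ^ 10 / 4) := by
        rw [mem_ball, dist_eq_norm] at hx ⊢
        rw [hf.1]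
        exact hx
      have h1 := CCampA_low hρ hK hC hC₀ hD hy hτ hτ1 hτρ ha ha' g1' g2 hx2 (by rw [hf.2.2]; linarith)
      rw [ha.even x (ball_subset_ball (by linarith) hx), ha'.even x (ball_subset_ball (by linarith) hx)] at h1
      exact h1
  have c1 : ∀ x ∈ ball y ((τ / 2) ^ 10 / 4), ContDiffAt ℝ 2 h x := fun x hx =>
    ha.smooth.contDiffAt (isOpen_ball.mem_nhds (ball_subset_ball (by linarith) hx))
  have c2 : ∀ x ∈ ball y ((τ / 2) ^ 10 / 4), ContDiffAt ℝ 2 h' x := fun x hx =>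
    ha'.smooth.contDiffAt (isOpen_ball.mem_nhds (ball_subset_ball (by linarith) hx))
  have g3 := (hest y ((τ / 2) ^ 10 / 4) ((2 * C + 2 * C₀ * K / ρ) * τ ^ 12) (fun z => h z - h' z) (by positivity)
    (by positivity) (fun x hx => ((c1 x hx).sub (c2 x hx)).contDiffWithinAt)
    (fun x hx => by
      rw [lap_sub (c1 x hx) (c2 x hx), ha.harm x (ball_subset_ball (by linarith) hx),
        ha'.harm x (ball_subset_ball (by linarith) hx), sub_zero]) hbound).1 y (mem_ball_self (by positivity))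
  have hyb : y ∈ ball y ((τ / 2) ^ 10 / 4) := mem_ball_self (by positivity)
  have e3 : fderiv ℝ (fun z => h z - h' z) y = fderiv ℝ h y - fderiv ℝ h' y := by
    exact fderiv_fun_sub ((c1 y hyb).differentiableAt (by norm_num)) ((c2 y hyb).differentiableAt (by norm_num))
  rw [e3] at g3
  refine g3.trans ?_
  have e4 : C₀ * ((2 * C + 2 * C₀ * K / ρ) * τ ^ 12) / ((τ / 2) ^ 10 / 4) =
      4096 * C₀ * (2 * C + 2 * C₀ * K / ρ) * τ ^ 2 := by
    have h1 : (τ / 2) ^ 10 = τ ^ 10 / 1024 := by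
      rw [div_pow]
      norm_num
    rw [h1]
    field_simp
    ring
  rw [e4]
  nlinarith [sq_nonneg τ]

end Pool.Agent.Lib.MP_188651_an
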