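import Pool.Agent.Lib.MP_188651_an.ExDefs

/-!
# Definitions for the `C¹` regularity up to the boundary
-/

open Set Filter Metric Topology InnerProductSpace Laplacian

namespace Pool.Agent.Lib.MP_188651_an

/-- Classical solutions of the Robin problem: solutions which are `C¹` up to the boundary, that is, there is a
continuous map `G` on the closure of `D` which is the derivative of `u` (within the closure of `D`) at every point of
the closure, and `u + α ∂_ν u = 0` on `∂D` with `∂_ν u = G ν`. -/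
structure IsClassical {n : ℕ} (f : ℝ → ℝ) (α : ℝ) (D : Set (EE n)) (u : EE n → ℝ) : Prop where
  sol : IsSol f α D u
  c1 : ∃ G : EE n → (EE n →L[ℝ] ℝ), ContinuousOn G (closure D) ∧
    (∀ x ∈ closure D, HasFDerivWithinAt u (G x) (closure D) x) ∧
    ∀ y ∈ frontier D, ∀ ν, IsOutwardNormal D y ν → u y + α * G y ν = 0

/-- a modulus -/
def IsMod (ω : ℝ → ℝ) : Prop := (∀ s, 0 ≤ ω s) ∧ ∀ ε > 0, ∃ δ > 0, ∀ s, 0 ≤ s → s ≤ δ → ω s ≤ ε

/-- reflection in the hyperplane through `y` orthogonal to `ν` -/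
noncomputable def sg {n : ℕ} (y ν x : EE n) : EE n := x - (2 * inner ℝ (x - y) ν) • ν

/-- folding to the half space `⟪x - y, ν⟫ ≤ 0` -/
noncomputable def fold {n : ℕ} (y ν x : EE n) : EE n := x - (2 * max 0 (inner ℝ (x - y) ν)) • ν

/-- functions with small Neumann data near the boundary point `y` -/
structure VN {n : ℕ} (D : Set (EE n)) (N : EE n → EE n) (y : EE n) (K K₀ Λ : ℝ) (v : EE n → ℝ) : Prop where
  lip : ∀ x ∈ closure D, ∀ x' ∈ closure D, |v x - v x'| ≤ K * ‖x - x'‖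
  smooth : ContDiffOn ℝ 2 v D
  lap : ∀ x ∈ D, |(Δ v) x| ≤ Λ
  zero : v y = 0
  up : ∀ y' ∈ frontier D, ∀ φ : EE n → ℝ, TouchA (closure D) v φ y' → fderiv ℝ φ y' (N y') ≤ K₀ * ‖y' - y‖
  low : ∀ y' ∈ frontier D, ∀ φ : EE n → ℝ, TouchB (closure D) v φ y' →
    -(K₀ * ‖y' - y‖) ≤ fderiv ℝ φ y' (N y')

end Pool.Agent.Lib.MP_188651_an
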