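import Pool.Agent.Lib.MP_188651_an.ExLapA

/-!
# Laplacian of u exp(phi/alpha)
-/

open Set Filter Metric Topology InnerProductSpace Laplacian

namespace Pool.Agent.Lib.MP_188651_an

/-- bounds for `u e^{E/α}` at a point -/
theorem lap_exp_bound {n : ℕ} {ρ α Λ : ℝ} (hρ : 0 < ρ) (hα : 0 < α) (hΛ : 0 ≤ Λ) : ∃ C > 0, ∀ (u φ : EE n → ℝ) (x : EE n) (G : ℝ),
    ContDiffAt ℝ 2 u x → ContDiffAt ℝ 2 φ x → 0 ≤ u x → u x ≤ 1 → |(Δ u) x| ≤ Λ → 0 ≤ φ x → φ x ≤ ρ →
    ‖fderiv ℝ φ x‖ ≤ 1 → |(Δ φ) x| ≤ (4 + 2 * n) / ρ → 0 ≤ G →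
    ‖fderiv ℝ (fun y => u y * Real.exp (φ y / α)) x‖ ≤ G →
    |(Δ (fun y => u y * Real.exp (φ y / α))) x| ≤ C * (1 + G) := by
  set A : ℝ := Real.exp (ρ / α) with hA
  have hApos : 0 < A := Real.exp_pos _
  set B : ℝ := A / α ^ 2 + A / α * ((4 + 2 * n) / ρ) with hB
  have hBpos : 0 < B := by positivity
  refine ⟨B + A * Λ + 2 * (A / α) ^ 2 + 2 * (A / α), by positivity, ?_⟩
  intro u φ x G hu hφ hu0 hu1 hΔu hφ0 hφ1 hdφ hΔφ hG0 hG
  set e : ℝ := Real.exp (φ x / α) with he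
  have he1 : 1 ≤ e := by
    rw [he, ← Real.exp_zero]
    exact Real.exp_le_exp.2 (by positivity)
  have heA : e ≤ A := Real.exp_le_exp.2 (div_le_div_of_nonneg_right hφ1 hα.le)
  have hη1 : ∀ s : ℝ, HasDerivAt (fun s : ℝ => Real.exp (s / α)) (Real.exp (s / α) / α) s := by
    intro s
    have h1 : HasDerivAt (fun s : ℝ => Real.exp (s / α)) (Real.exp (s / α) * (1 / α)) s :=
      ((hasDerivAt_id s).div_const α).exp
    rw [mul_one_div] at h1
    exact h1
  have hη2 : HasDerivAt (fun s : ℝ => Real.exp (s / α) / α) (e / α / α) (φ x) :=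
    (hη1 (φ x)).div_const α
  have hηC : ContDiffAt ℝ 2 (fun s : ℝ => Real.exp (s / α)) (φ x) := by fun_prop
  obtain ⟨hw1, hw2, hw3⟩ := lap_comp (η' := fun s => Real.exp (s / α) / α) hφ hηC
    (Eventually.of_forall hη1) hη2
  have hw2' : (Δ (fun y => Real.exp (φ y / α))) x = e / α / α * ‖fderiv ℝ φ x‖ ^ 2 +
      e / α * (Δ φ) x := hw2
  have hw3' : fderiv ℝ (fun y => Real.exp (φ y / α)) x = (e / α) • fderiv ℝ φ x := hw3
  have hwn : ‖fderiv ℝ (fun y => Real.exp (φ y / α)) x‖ ≤ A / α := by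
    rw [hw3', norm_smul, Real.norm_of_nonneg (by positivity)]
    calc e / α * ‖fderiv ℝ φ x‖ ≤ A / α * 1 := by
          apply mul_le_mul (div_le_div_of_nonneg_right heA hα.le) hdφ (norm_nonneg _) (by positivity)
      _ = A / α := mul_one _
  have hwΔ : |(Δ (fun y => Real.exp (φ y / α))) x| ≤ B := by
    rw [hw2', hB]
    refine (abs_add_le _ _).trans (add_le_add ?_ ?_)
    · rw [abs_of_nonneg (by positivity)]
      have h1 : ‖fderiv ℝ φ x‖ ^ 2 ≤ 1 := pow_le_one₀ (norm_nonneg _) hdφ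
      calc e / α / α * ‖fderiv ℝ φ x‖ ^ 2 ≤ A / α / α * 1 := by
            apply mul_le_mul _ h1 (by positivity) (by positivity)
            exact div_le_div_of_nonneg_right (div_le_div_of_nonneg_right heA hα.le) hα.le
        _ = A / α ^ 2 := by rw [mul_one, div_div, sq]
    · rw [abs_mul, abs_of_nonneg (by positivity : 0 ≤ e / α)]
      exact mul_le_mul (div_le_div_of_nonneg_right heA hα.le) hΔφ (abs_nonneg _) (by positivity)
  -- gradient of u
  have hfd : fderiv ℝ (fun y => u y * Real.exp (φ y / α)) x =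
      u x • fderiv ℝ (fun y => Real.exp (φ y / α)) x + e • fderiv ℝ u x := by
    have h1 := (hu.differentiableAt (by norm_num)).hasFDerivAt.mul
      (hw1.differentiableAt (by norm_num)).hasFDerivAt
    exact h1.fderiv
  have hdu : ‖fderiv ℝ u x‖ ≤ G + A / α := by
    have h1 : ‖e • fderiv ℝ u x‖ ≤ G + A / α := by
      have h2 : e • fderiv ℝ u x = fderiv ℝ (fun y => u y * Real.exp (φ y / α)) x -
          u x • fderiv ℝ (fun y => Real.exp (φ y / α)) x := by
        rw [hfd]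
        abel
      rw [h2]
      refine (norm_sub_le _ _).trans (add_le_add hG ?_)
      rw [norm_smul, Real.norm_of_nonneg hu0]
      calc u x * ‖fderiv ℝ (fun y => Real.exp (φ y / α)) x‖ ≤ 1 * (A / α) :=
            mul_le_mul hu1 hwn (norm_nonneg _) zero_le_one
        _ = A / α := one_mul _
    rw [norm_smul, Real.norm_of_nonneg (by linarith)] at h1
    have h3 := norm_nonneg (fderiv ℝ u x)
    nlinarith
  have hmul := lap_mul_bound hu hw1
  have h5 : |u x * (Δ (fun y => Real.exp (φ y / α))) x + Real.exp (φ x / α) * (Δ u) x| ≤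
      B + A * Λ := by
    refine (abs_add_le _ _).trans (add_le_add ?_ ?_)
    · rw [abs_mul, abs_of_nonneg hu0]
      calc u x * |(Δ (fun y => Real.exp (φ y / α))) x| ≤ 1 * B :=
            mul_le_mul hu1 hwΔ (abs_nonneg _) zero_le_one
        _ = B := one_mul _
    · rw [abs_mul, abs_of_nonneg (Real.exp_pos _).le]
      exact mul_le_mul heA hΔu (abs_nonneg _) hApos.le
  have h6 : 2 * ‖fderiv ℝ u x‖ * ‖fderiv ℝ (fun y => Real.exp (φ y / α)) x‖ ≤
      2 * (G + A / α) * (A / α) := by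
    apply mul_le_mul _ hwn (norm_nonneg _) (by positivity)
    linarith
  have h7 : |(Δ (fun y => u y * Real.exp (φ y / α))) x| ≤
      (B + A * Λ) + 2 * (G + A / α) * (A / α) := by
    have h8 := abs_add_le ((Δ (fun y => u y * Real.exp (φ y / α))) x -
      (u x * (Δ (fun y => Real.exp (φ y / α))) x + Real.exp (φ x / α) * (Δ u) x))
      (u x * (Δ (fun y => Real.exp (φ y / α))) x + Real.exp (φ x / α) * (Δ u) x)
    rw [sub_add_cancel] at h8
    linarith
  refine h7.trans ?_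
  have h9 : 0 ≤ B * G := by positivity
  have h10 : 0 ≤ A * Λ * G := by positivity
  have h11 : 0 ≤ (A / α) ^ 2 * G := by positivity
  have h12 : 0 ≤ A / α := by positivity
  nlinarith

end Pool.Agent.Lib.MP_188651_an
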