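import Pool.Agent.Lib.MP_188651_an.ExReflT
import Pool.Agent.Lib.MP_188651_an.ExLapA

/-!
# Reflection coupling
-/

open Set Filter Metric Topology InnerProductSpace Laplacian

namespace Pool.Agent.Lib.MP_188651_an

variable {n : ℕ}

private theorem rc_line (x v : EE n) (t : ℝ) : HasDerivAt (fun t : ℝ => x + t • v) v t := by
  simpa using ((hasDerivAt_id t).smul_const v).const_add x

private theorem rc_first {u : EE n → ℝ} {x : EE n} (hu : ContDiffAt ℝ 2 u x) (v : EE n) :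
    ∀ᶠ t in 𝓝 (0 : ℝ), HasDerivAt (fun t : ℝ => u (x + t • v)) (fderiv ℝ u (x + t • v) v) t := by
  have h1 : ∀ᶠ y in 𝓝 x, ContDiffAt ℝ 2 u y := hu.eventually (by simp)
  have h2 : Tendsto (fun t : ℝ => x + t • v) (𝓝 0) (𝓝 x) := by
    have h : Continuous fun t : ℝ => x + t • v := by fun_prop
    simpa using h.tendsto 0
  filter_upwards [h2.eventually h1] with t ht
  have h3 : HasFDerivAt u (fderiv ℝ u (x + t • v)) (x + t • v) :=
    (ht.differentiableAt (by simp)).hasFDerivAt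
  exact h3.comp_hasDerivAt t (rc_line x v t)

private theorem rc_second {u : EE n → ℝ} {x : EE n} (hu : ContDiffAt ℝ 2 u x) (v : EE n) :
    HasDerivAt (fun t : ℝ => fderiv ℝ u (x + t • v) v) (iteratedFDeriv ℝ 2 u x ![v, v]) 0 := by
  have h1 : DifferentiableAt ℝ (fderiv ℝ u) x :=
    (hu.fderiv_right (m := 1) (by norm_num)).differentiableAt (by simp)
  have h2 : HasFDerivAt (fderiv ℝ u) (fderiv ℝ (fderiv ℝ u) x) (x + (0 : ℝ) • v) := by
    simpa using h1.hasFDerivAt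
  have h3 := h2.comp_hasDerivAt (0 : ℝ) (rc_line x v 0)
  have h4 := h3.clm_apply (hasDerivAt_const (0 : ℝ) v)
  rw [iteratedFDeriv_two_apply]
  simpa using h4

private theorem rc_sum_c (e : EE n) (F : EE n →L[ℝ] ℝ) :
    ∑ i, inner ℝ e (EuclideanSpace.basisFun (Fin n) ℝ i) *
      F (EuclideanSpace.basisFun (Fin n) ℝ i) = F e := by
  conv_rhs => rw [← (EuclideanSpace.basisFun (Fin n) ℝ).sum_repr' e, map_sum]
  refine Finset.sum_congr rfl fun i _ => ?_
  rw [map_smul, smul_eq_mul, real_inner_comm]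

private theorem rc_sum_sq (e : EE n) :
    ∑ i, inner ℝ e (EuclideanSpace.basisFun (Fin n) ℝ i) *
      inner ℝ e (EuclideanSpace.basisFun (Fin n) ℝ i) = ‖e‖ ^ 2 := by
  have := rc_sum_c e (innerSL ℝ e)
  simp only [innerSL_apply_apply] at this
  rw [this, real_inner_self_eq_norm_sq]

private theorem rc_lap_refl {E : EE n → ℝ} {x e : EE n} (he : ‖e‖ = 1) :
    ∑ i, iteratedFDeriv ℝ 2 E x ![refl e (EuclideanSpace.basisFun (Fin n) ℝ i),
        refl e (EuclideanSpace.basisFun (Fin n) ℝ i)] = (Δ E) x := by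
  rw [laplacian_eq_iteratedFDeriv_orthonormalBasis E (EuclideanSpace.basisFun (Fin n) ℝ)]
  set B := fderiv ℝ (fderiv ℝ E) x with hB
  have h1 : ∀ ξ : EE n, iteratedFDeriv ℝ 2 E x ![ξ, ξ] = B ξ ξ := by
    intro ξ
    rw [iteratedFDeriv_two_apply]
    simp [hB]
  simp only [h1]
  have h2 : ∀ i, B (refl e (EuclideanSpace.basisFun (Fin n) ℝ i))
      (refl e (EuclideanSpace.basisFun (Fin n) ℝ i)) =
      B (EuclideanSpace.basisFun (Fin n) ℝ i) (EuclideanSpace.basisFun (Fin n) ℝ i) -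
        2 * (inner ℝ e (EuclideanSpace.basisFun (Fin n) ℝ i) *
          (B.flip e) (EuclideanSpace.basisFun (Fin n) ℝ i)) -
        2 * (inner ℝ e (EuclideanSpace.basisFun (Fin n) ℝ i) *
          (B e) (EuclideanSpace.basisFun (Fin n) ℝ i)) +
        4 * (inner ℝ e (EuclideanSpace.basisFun (Fin n) ℝ i) *
          inner ℝ e (EuclideanSpace.basisFun (Fin n) ℝ i)) * B e e := by
    intro i
    simp only [refl, map_sub, map_smul, sub_apply,
      smul_apply, smul_eq_mul, ContinuousLinearMap.flip_apply]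
    ring
  simp only [h2]
  rw [Finset.sum_add_distrib, Finset.sum_sub_distrib, Finset.sum_sub_distrib, ← Finset.mul_sum,
    ← Finset.mul_sum, ← Finset.sum_mul, ← Finset.mul_sum, rc_sum_c, rc_sum_c, rc_sum_sq, he,
    ContinuousLinearMap.flip_apply]
  ring

/-- At a local maximum of `v1(x) - v2(x') - ω(|x - x'|) (1 + k (E1(x) + E2(x'))) - θ1(x) - θ2(x')` -/
theorem rc_q {v1 v2 E1 E2 θ1 θ2 : EE n → ℝ} {ω ω' : ℝ → ℝ} {ω'' k : ℝ} {x x' : EE n} (hne : x ≠ x')
    (h1 : ContDiffAt ℝ 2 v1 x) (h2 : ContDiffAt ℝ 2 v2 x') (hE1 : ContDiffAt ℝ 2 E1 x)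
    (hE2 : ContDiffAt ℝ 2 E2 x') (hθ1 : ContDiffAt ℝ 2 θ1 x) (hθ2 : ContDiffAt ℝ 2 θ2 x')
    (hω : ∀ᶠ s in 𝓝 ‖x - x'‖, HasDerivAt ω (ω' s) s) (hω' : HasDerivAt ω' ω'' ‖x - x'‖)
    (hmax : ∀ᶠ p : EE n × EE n in 𝓝 (x, x'),
      v1 p.1 - v2 p.2 - ω ‖p.1 - p.2‖ * (1 + k * (E1 p.1 + E2 p.2)) - θ1 p.1 - θ2 p.2 ≤
      v1 x - v2 x' - ω ‖x - x'‖ * (1 + k * (E1 x + E2 x')) - θ1 x - θ2 x') :
    (Δ v1) x - (Δ v2) x' ≤ (Δ θ1) x + (Δ θ2) x' + 4 * ω'' * (1 + k * (E1 x + E2 x')) +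
      4 * k * ω' ‖x - x'‖ * (fderiv ℝ E1 x (‖x - x'‖⁻¹ • (x - x')) -
        fderiv ℝ E2 x' (‖x - x'‖⁻¹ • (x - x'))) +
      k * ω ‖x - x'‖ * ((Δ E1) x + (Δ E2) x') := by
  set s : ℝ := ‖x - x'‖ with hs
  have hs0 : 0 < s := norm_pos_iff.2 (sub_ne_zero.2 hne)
  set e : EE n := s⁻¹ • (x - x') with he
  have hen : ‖e‖ = 1 := by
    rw [he, norm_smul, norm_inv, Real.norm_of_nonneg hs0.le, ← hs, inv_mul_cancel₀ hs0.ne']
  have hxe : x - x' = s • e := by
    rw [he, smul_smul, mul_inv_cancel₀ hs0.ne', one_smul]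
  set Q : ℝ := 1 + k * (E1 x + E2 x') with hQ
  let b := EuclideanSpace.basisFun (Fin n) ℝ
  let c : Fin n → ℝ := fun i => inner ℝ e (b i)
  let κ : Fin n → ℝ := fun i => 4 * (c i * c i) * (ω'' * Q) +
    4 * (k * ω' s) * (c i * (fderiv ℝ E1 x (b i) + fderiv ℝ E2 x' (refl e (b i)))) +
    k * ω s * (iteratedFDeriv ℝ 2 E1 x ![b i, b i] +
      iteratedFDeriv ℝ 2 E2 x' ![refl e (b i), refl e (b i)])
  have hV1 : ContDiffAt ℝ 2 (fun y => v1 y - θ1 y) x := h1.sub hθ1
  have hV2 : ContDiffAt ℝ 2 (fun y => v2 y + θ2 y) x' := h2.add hθ2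
  have hκ : ∀ i, iteratedFDeriv ℝ 2 (fun y => v1 y - θ1 y) x ![b i, b i] -
      iteratedFDeriv ℝ 2 (fun y => v2 y + θ2 y) x' ![refl e (b i), refl e (b i)] ≤ κ i := by
    intro i
    set ξ : EE n := b i with hξ
    set ξ' : EE n := refl e (b i) with hξ'
    have hdiff : ξ - ξ' = (2 * c i) • e := by
      simp only [hξ, hξ', refl, c]
      module
    have haff : ∀ t : ℝ, HasDerivAt (fun t : ℝ => s + 2 * c i * t) (2 * c i) t := by
      intro t
      simpa using ((hasDerivAt_id t).const_mul (2 * c i)).const_add s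
    have haff0 : Tendsto (fun t : ℝ => s + 2 * c i * t) (𝓝 0) (𝓝 s) := by
      have h : Continuous fun t : ℝ => s + 2 * c i * t := by fun_prop
      simpa using h.tendsto 0
    refine curve_test (q := fun t => ω (s + 2 * c i * t) *
        (1 + k * (E1 (x + t • ξ) + E2 (x' + t • ξ'))))
      (q' := fun t => ω' (s + 2 * c i * t) * (2 * c i) *
        (1 + k * (E1 (x + t • ξ) + E2 (x' + t • ξ'))) +
        ω (s + 2 * c i * t) * (k * (fderiv ℝ E1 (x + t • ξ) ξ + fderiv ℝ E2 (x' + t • ξ') ξ')))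
      hV1 hV2 ?_ ?_ ?_
    · filter_upwards [haff0.eventually hω, rc_first hE1 ξ, rc_first hE2 ξ'] with t ht1 ht2 ht3
      have h3 := ht1.comp t (haff t)
      exact h3.mul (((ht2.add ht3).const_mul k).const_add 1)
    · have hω0 : HasDerivAt ω (ω' (s + 2 * c i * 0)) (s + 2 * c i * 0) := by
        have := hω.self_of_nhds
        simpa using this
      have hω'0 : HasDerivAt ω' ω'' (s + 2 * c i * 0) := by
        simpa using hω'
      have h3 := hω0.comp (0 : ℝ) (haff 0)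
      have h4 := hω'0.comp (0 : ℝ) (haff 0)
      have h5 := ((((rc_first hE1 ξ).self_of_nhds.add (rc_first hE2 ξ').self_of_nhds).const_mul
        k).const_add 1)
      have h6 := ((rc_second hE1 ξ).add (rc_second hE2 ξ')).const_mul k
      have h7 := ((h4.mul_const (2 * c i)).mul h5).add (h3.mul h6)
      refine h7.congr_deriv ?_
      simp only [κ, Function.comp_apply, mul_zero, add_zero, zero_smul, ← hξ, hQ, Pi.add_apply]
      ring
    · have htend : Tendsto (fun t : ℝ => (x + t • ξ, x' + t • ξ')) (𝓝 0) (𝓝 (x, x')) := by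
        have h : Continuous fun t : ℝ => (x + t • ξ, x' + t • ξ') := by fun_prop
        simpa using h.tendsto 0
      have hpos : ∀ᶠ t : ℝ in 𝓝 0, 0 < s + 2 * c i * t := haff0.eventually (lt_mem_nhds hs0)
      filter_upwards [htend.eventually hmax, hpos] with t ht ht0
      have hnorm : ‖x + t • ξ - (x' + t • ξ')‖ = s + 2 * c i * t := by
        have : x + t • ξ - (x' + t • ξ') = (s + 2 * c i * t) • e := by
          have h3 : x + t • ξ - (x' + t • ξ') = (x - x') + t • (ξ - ξ') := by module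
          rw [h3, hxe, hdiff]
          module
        rw [this, norm_smul, hen, mul_one, Real.norm_of_nonneg ht0.le]
      simp only [hnorm] at ht
      simp only [mul_zero, add_zero, zero_smul]
      linarith
  have hmain := refl_test hen hV1 hV2 κ hκ
  rw [lap_sub h1 hθ1, lap_add h2 hθ2] at hmain
  have hsum : ∑ i, κ i = 4 * ω'' * Q + 4 * k * ω' s * (fderiv ℝ E1 x e - fderiv ℝ E2 x' e) +
      k * ω s * ((Δ E1) x + (Δ E2) x') := by
    have hL1 : (Δ E1) x = ∑ i, iteratedFDeriv ℝ 2 E1 x ![b i, b i] :=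
      congrFun (laplacian_eq_iteratedFDeriv_orthonormalBasis E1
        (EuclideanSpace.basisFun (Fin n) ℝ)) x
    have hL2 : (Δ E2) x' = ∑ i, iteratedFDeriv ℝ 2 E2 x' ![refl e (b i), refl e (b i)] :=
      (rc_lap_refl hen).symm
    have hS : ∑ i, c i * c i = 1 := by
      have := rc_sum_sq e
      rw [hen, one_pow] at this
      exact this
    have hc1 : ∑ i, c i * fderiv ℝ E1 x (b i) = fderiv ℝ E1 x e := rc_sum_c e _
    have hc2 : ∑ i, c i * fderiv ℝ E2 x' (b i) = fderiv ℝ E2 x' e := rc_sum_c e _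
    have hc3 : ∑ i, c i * fderiv ℝ E2 x' (refl e (b i)) = - fderiv ℝ E2 x' e := by
      have h3 : ∀ i, c i * fderiv ℝ E2 x' (refl e (b i)) =
          c i * fderiv ℝ E2 x' (b i) - 2 * (c i * c i) * fderiv ℝ E2 x' e := by
        intro i
        simp only [refl, map_sub, map_smul, smul_eq_mul, c]
        ring
      simp only [h3, Finset.sum_sub_distrib, hc2, ← Finset.sum_mul, ← Finset.mul_sum, hS]
      ring
    simp only [κ, Finset.sum_add_distrib, ← Finset.sum_mul, ← Finset.mul_sum, hS, mul_add, hc1, hc3]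
    rw [hL1, hL2]
    ring
  rw [hsum] at hmain
  linarith

end Pool.Agent.Lib.MP_188651_an
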