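import Pool.Agent.Lib.MP_188651_an.ExLipA
import Pool.Agent.Lib.MP_188651_an.ExLipE
import Pool.Agent.Lib.MP_188651_an.ExRC

/-!
# Boundary Lipschitz estimate: the interior step
-/

open Set Filter Metric Topology InnerProductSpace Laplacian

namespace Pool.Agent.Lib.MP_188651_an

private theorem hasDerivAt_om_b (L s₀ s : ℝ) : HasDerivAt (om L s₀) (L * (1 - s / s₀)) s := by
  have h1 : HasDerivAt (fun t : ℝ => L * (t - t ^ 2 / (2 * s₀))) (L * (1 - (2 * s) / (2 * s₀))) s := by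
    have := ((hasDerivAt_id s).sub (((hasDerivAt_id s).pow 2).div_const (2 * s₀))).const_mul L
    simpa using this
  have h2 : om L s₀ = fun t : ℝ => L * (t - t ^ 2 / (2 * s₀)) := by
    funext t; rfl
  rw [h2]
  convert h1 using 3
  rw [mul_div_mul_left _ _ (two_ne_zero)]

private theorem contDiff_om_b (L s₀ : ℝ) : ContDiff ℝ 2 (om L s₀) := by
  have h2 : om L s₀ = fun t : ℝ => L * (t - t ^ 2 / (2 * s₀)) := by
    funext t; rfl
  rw [h2]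
  fun_prop

private theorem grad_bound_b {n : ℕ} {ρ s₀ L δ c : ℝ} (hρ : 0 < ρ) (hs₀ : 0 < s₀) (hs1 : s₀ ≤ 1)
    (hL : 1 ≤ L) (hδ : 0 < δ) (hδ1 : δ ≤ 1) {V φ : EE n → ℝ} {x x' : EE n} (hne : x ≠ x')
    (hs : ‖x - x'‖ < s₀) (hV : DifferentiableAt ℝ V x) (hφ : ContDiffAt ℝ 2 φ x)
    (hφ0 : 0 ≤ φ x) (hφ1 : φ x ≤ ρ / 6) (hc0 : 0 ≤ c) (hc1 : c ≤ ρ / 6)
    (hφd : ‖fderiv ℝ φ x‖ ≤ 1)
    (hmax : ∀ᶠ z in 𝓝 x, V z - om L s₀ ‖z - x'‖ * (1 + 1 / ρ * (φ z + c)) - δ * (hh z + 2 * φ z) ≤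
      V x - om L s₀ ‖x - x'‖ * (1 + 1 / ρ * (φ x + c)) - δ * (hh x + 2 * φ x)) :
    ‖fderiv ℝ V x‖ ≤ 4 / 3 * L + L / ρ + 3 := by
  have hspos : 0 < ‖x - x'‖ := norm_pos_iff.mpr (sub_ne_zero.mpr hne)
  obtain ⟨o1, o2, -, -, -⟩ := om_facts (L := L) (s₀ := s₀) hs₀ (by linarith) hspos.le hs.le
  have hrad := radial (n := n) (c := x') (x := x) (η := om L s₀) hne (contDiff_om_b L s₀).contDiffAt
  obtain ⟨hr1, -, hr3⟩ := hrad
  have hφdiff : DifferentiableAt ℝ φ x := hφ.differentiableAt (by norm_num)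
  have hodiff : DifferentiableAt ℝ (fun y : EE n => om L s₀ ‖y - x'‖) x := hr1.differentiableAt (by norm_num)
  obtain ⟨hh1, -, hh3⟩ := hh_facts x
  have hhdiff : DifferentiableAt ℝ (hh : EE n → ℝ) x := hh1.contDiffAt.differentiableAt (by norm_num)
  have hodn : ‖fderiv ℝ (fun y : EE n => om L s₀ ‖y - x'‖) x‖ ≤ L := by
    refine ContinuousLinearMap.opNorm_le_bound _ (by linarith) (fun w => ?_)
    rw [hr3 w, (hasDerivAt_om_b L s₀ _).deriv, norm_mul]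
    have e1 : ‖L * (1 - ‖x - x'‖ / s₀)‖ ≤ L := by
      rw [Real.norm_eq_abs, abs_le]
      have h1 : ‖x - x'‖ / s₀ ≤ 1 := by rw [div_le_one hs₀]; exact hs.le
      have h2 : 0 ≤ ‖x - x'‖ / s₀ := by positivity
      constructor <;> nlinarith
    have e2 : ‖inner ℝ (x - x') w / ‖x - x'‖‖ ≤ ‖w‖ := by
      rw [norm_div, norm_norm, div_le_iff₀ hspos, mul_comm]
      exact norm_inner_le_norm _ _
    exact mul_le_mul e1 e2 (norm_nonneg _) (by linarith)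
  -- the derivative of the comparison function
  have hQ : HasFDerivAt (fun z : EE n => 1 + 1 / ρ * (φ z + c)) ((1 / ρ) • fderiv ℝ φ x) x := by
    have := ((hφdiff.hasFDerivAt.add_const c).const_mul (1 / ρ)).const_add 1
    exact this
  have hF : HasFDerivAt (fun z : EE n => om L s₀ ‖z - x'‖ * (1 + 1 / ρ * (φ z + c)) + δ * (hh z + 2 * φ z))
      ((om L s₀ ‖x - x'‖ • ((1 / ρ) • fderiv ℝ φ x) +
        (1 + 1 / ρ * (φ x + c)) • fderiv ℝ (fun y : EE n => om L s₀ ‖y - x'‖) x) +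
        δ • (fderiv ℝ (hh : EE n → ℝ) x + (2 : ℝ) • fderiv ℝ φ x)) x := by
    have h1 := hodiff.hasFDerivAt.mul hQ
    have h2 := (hhdiff.hasFDerivAt.add (hφdiff.hasFDerivAt.const_mul (2 : ℝ))).const_mul δ
    exact h1.add h2
  have hzero : fderiv ℝ V x = ((om L s₀ ‖x - x'‖ • ((1 / ρ) • fderiv ℝ φ x) +
        (1 + 1 / ρ * (φ x + c)) • fderiv ℝ (fun y : EE n => om L s₀ ‖y - x'‖) x) +
        δ • (fderiv ℝ (hh : EE n → ℝ) x + (2 : ℝ) • fderiv ℝ φ x)) := by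
    have h1 := hV.hasFDerivAt.sub hF
    have h2 : IsLocalMax (fun z => V z - (om L s₀ ‖z - x'‖ * (1 + 1 / ρ * (φ z + c)) + δ * (hh z + 2 * φ z))) x := by
      filter_upwards [hmax] with z hz
      linarith
    have h3 := h2.hasFDerivAt_eq_zero h1
    exact sub_eq_zero.mp h3
  rw [hzero]
  have hQ0 : 0 ≤ 1 + 1 / ρ * (φ x + c) := by positivity
  have hQ1 : 1 + 1 / ρ * (φ x + c) ≤ 4 / 3 := by
    have : 1 / ρ * (φ x + c) ≤ 1 / ρ * (ρ / 6 + ρ / 6) := by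
      apply mul_le_mul_of_nonneg_left (by linarith) (by positivity)
    have h2 : 1 / ρ * (ρ / 6 + ρ / 6) = 1 / 3 := by field_simp; norm_num
    linarith
  have ho3 : om L s₀ ‖x - x'‖ ≤ L := by
    have : L * ‖x - x'‖ ≤ L * 1 := mul_le_mul_of_nonneg_left (by linarith) (by linarith)
    linarith
  have n1 : ‖om L s₀ ‖x - x'‖ • ((1 / ρ) • fderiv ℝ φ x)‖ ≤ L / ρ := by
    rw [norm_smul, norm_smul, Real.norm_eq_abs, Real.norm_eq_abs, abs_of_nonneg o1, abs_of_nonneg (by positivity)]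
    calc om L s₀ ‖x - x'‖ * (1 / ρ * ‖fderiv ℝ φ x‖) ≤ L * (1 / ρ * 1) := by
          apply mul_le_mul ho3 _ (by positivity) (by linarith)
          exact mul_le_mul_of_nonneg_left hφd (by positivity)
      _ = L / ρ := by ring
  have n2 : ‖(1 + 1 / ρ * (φ x + c)) • fderiv ℝ (fun y : EE n => om L s₀ ‖y - x'‖) x‖ ≤ 4 / 3 * L := by
    rw [norm_smul, Real.norm_eq_abs, abs_of_nonneg hQ0]
    exact mul_le_mul hQ1 hodn (norm_nonneg _) (by norm_num)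
  have n3 : ‖δ • (fderiv ℝ (hh : EE n → ℝ) x + (2 : ℝ) • fderiv ℝ φ x)‖ ≤ 3 := by
    rw [norm_smul, Real.norm_eq_abs, abs_of_nonneg hδ.le]
    have : ‖fderiv ℝ (hh : EE n → ℝ) x + (2 : ℝ) • fderiv ℝ φ x‖ ≤ 3 := by
      refine (norm_add_le _ _).trans ?_
      rw [norm_smul]
      have : ‖(2 : ℝ)‖ = 2 := by norm_num
      rw [this]
      linarith
    calc δ * ‖fderiv ℝ (hh : EE n → ℝ) x + (2 : ℝ) • fderiv ℝ φ x‖ ≤ 1 * 3 :=
          mul_le_mul hδ1 this (norm_nonneg _) (by norm_num)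
      _ = 3 := by norm_num
  refine (norm_add_le _ _).trans ?_
  have n4 := norm_add_le (om L s₀ ‖x - x'‖ • ((1 / ρ) • fderiv ℝ φ x))
    ((1 + 1 / ρ * (φ x + c)) • fderiv ℝ (fun y : EE n => om L s₀ ‖y - x'‖) x)
  linarith

theorem lipbd_int (n : ℕ) {ρ α Λ : ℝ} (hρ : 0 < ρ) (hα : 0 < α) (hΛ : 0 ≤ Λ) : ∃ C > 0,
    ∀ (D : Set (EE n)) (N : EE n → EE n) (u : EE n → ℝ) (s₀ L δ : ℝ) (x x' : EE n), BD ρ D N →
      (frontier D).Nonempty → 0 < s₀ → s₀ ≤ 1 → 1 ≤ L → 0 < δ → δ ≤ 1 → ContDiffOn ℝ 2 u D →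
      (∀ z ∈ closure D, 0 ≤ u z ∧ u z ≤ 1) → (∀ z ∈ D, |(Δ u) z| ≤ Λ) → x ∈ D → x' ∈ D → x ≠ x' →
      ‖x - x'‖ < s₀ →
      (∀ᶠ p : EE n × EE n in 𝓝 (x, x'), Phi D ρ α s₀ L δ u p.1 p.2 ≤ Phi D ρ α s₀ L δ u x x') →
      4 * L / s₀ ≤ C * (1 + L) := by
  obtain ⟨C₁, hC₁, hexp⟩ := lap_exp_bound (n := n) hρ hα hΛ
  refine ⟨2 * (C₁ * (4 + 4 / 3 + 1 / ρ)) + 2 * (n + 2 * ((4 + 2 * n) / ρ)) + 8 / ρ + 2 * ((4 + 2 * n) / ρ ^ 2),
    by positivity, ?_⟩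
  intro D N u s₀ L δ x x' hBD hfr hs₀ hs1 hL hδ hδ1 huD hu01 hΔu hx hx' hne hs hmax
  have hclx : x ∈ closure D := subset_closure hx
  have hclx' : x' ∈ closure D := subset_closure hx'
  have hDx : D ∈ 𝓝 x := hBD.isOpen.mem_nhds hx
  have hDx' : D ∈ 𝓝 x' := hBD.isOpen.mem_nhds hx'
  have hcx : closure D ∈ 𝓝 x := mem_of_superset hDx subset_closure
  have hcx' : closure D ∈ 𝓝 x' := mem_of_superset hDx' subset_closure
  obtain ⟨φ1, hφ1c, hφ1e, hφ1l, hφ1d, hφ1L, -⟩ := touch_below hBD hfr hclx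
  obtain ⟨φ2, hφ2c, hφ2e, hφ2u, hφ2d, hφ2L, -⟩ := touch_above hBD hfr hclx
  obtain ⟨ψ2, hψ2c, hψ2e, hψ2u, hψ2d, hψ2L, -⟩ := touch_above hBD hfr hclx'
  rw [nhdsWithin_eq_nhds.mpr hcx] at hφ1l hφ2u
  rw [nhdsWithin_eq_nhds.mpr hcx'] at hψ2u
  obtain ⟨-, hE0, hE1, -⟩ := Ed_facts (n := n) (D := D) (s₁ := ρ / 2) (by positivity)
  have hE6 : ∀ z, Ed D (ρ / 2) z ≤ ρ / 6 := fun z => by have := hE1 z; linarith
  have hux : ContDiffAt ℝ 2 u x := huD.contDiffAt hDx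
  have hux' : ContDiffAt ℝ 2 u x' := huD.contDiffAt hDx'
  have hspos : 0 < ‖x - x'‖ := norm_pos_iff.mpr (sub_ne_zero.mpr hne)
  obtain ⟨o1, o2, -, -, -⟩ := om_facts (L := L) (s₀ := s₀) hs₀ (by linarith) hspos.le hs.le
  have ho3 : om L s₀ ‖x - x'‖ ≤ L := by
    have : L * ‖x - x'‖ ≤ L * 1 := mul_le_mul_of_nonneg_left (by linarith) (by linarith)
    linarith
  set V1 : EE n → ℝ := fun y => u y * Real.exp (φ1 y / α) with hV1
  set V2 : EE n → ℝ := fun y => u y * Real.exp (ψ2 y / α) with hV2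
  have hV1c : ContDiffAt ℝ 2 V1 x := hux.mul ((hφ1c.div_const α).exp)
  have hV2c : ContDiffAt ℝ 2 V2 x' := hux'.mul ((hψ2c.div_const α).exp)
  -- comparison of the two functions of two variables
  have hmax2 : ∀ᶠ p : EE n × EE n in 𝓝 (x, x'),
      V1 p.1 - V2 p.2 - om L s₀ ‖p.1 - p.2‖ * (1 + 1 / ρ * (φ2 p.1 + ψ2 p.2)) -
        δ * (hh p.1 + 2 * φ2 p.1) - δ * (hh p.2 + 2 * ψ2 p.2) ≤
      V1 x - V2 x' - om L s₀ ‖x - x'‖ * (1 + 1 / ρ * (φ2 x + ψ2 x')) -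
        δ * (hh x + 2 * φ2 x) - δ * (hh x' + 2 * ψ2 x') := by
    have t1 : Tendsto (fun p : EE n × EE n => p.1) (𝓝 (x, x')) (𝓝 x) := continuous_fst.continuousAt
    have t2 : Tendsto (fun p : EE n × EE n => p.2) (𝓝 (x, x')) (𝓝 x') := continuous_snd.continuousAt
    have t3 : ∀ᶠ p : EE n × EE n in 𝓝 (x, x'), ‖p.1 - p.2‖ < s₀ := by
      have : Tendsto (fun p : EE n × EE n => ‖p.1 - p.2‖) (𝓝 (x, x')) (𝓝 ‖x - x'‖) :=
        (continuous_fst.sub continuous_snd).norm.continuousAt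
      exact this.eventually_lt_const hs
    filter_upwards [hmax, t1.eventually hφ1l, t1.eventually hφ2u, t2.eventually hψ2u, t3,
      t1.eventually hcx, t2.eventually hcx'] with p hp a1 a2 a3 a4 a5 a6
    obtain ⟨p1, p2⟩ := p
    simp only at *
    have b0 : 0 ≤ om L s₀ ‖p1 - p2‖ := (om_facts (L := L) (s₀ := s₀) hs₀ (by linarith) (norm_nonneg _) a4.le).1
    have b1 : V1 p1 ≤ u p1 * Real.exp (Ed D (ρ / 2) p1 / α) := by
      apply mul_le_mul_of_nonneg_left _ (hu01 p1 a5).1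
      apply Real.exp_le_exp.mpr
      exact div_le_div_of_nonneg_right a1 hα.le
    have b2 : u p2 * Real.exp (Ed D (ρ / 2) p2 / α) ≤ V2 p2 := by
      apply mul_le_mul_of_nonneg_left _ (hu01 p2 a6).1
      apply Real.exp_le_exp.mpr
      exact div_le_div_of_nonneg_right a3 hα.le
    have b3 : om L s₀ ‖p1 - p2‖ * (1 + 1 / ρ * (Ed D (ρ / 2) p1 + Ed D (ρ / 2) p2)) ≤
        om L s₀ ‖p1 - p2‖ * (1 + 1 / ρ * (φ2 p1 + ψ2 p2)) := by
      apply mul_le_mul_of_nonneg_left _ b0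
      have : 1 / ρ * (Ed D (ρ / 2) p1 + Ed D (ρ / 2) p2) ≤ 1 / ρ * (φ2 p1 + ψ2 p2) :=
        mul_le_mul_of_nonneg_left (by linarith) (by positivity)
      linarith
    have b4 : δ * (hh p1 + 2 * Ed D (ρ / 2) p1 + (hh p2 + 2 * Ed D (ρ / 2) p2)) ≤
        δ * (hh p1 + 2 * φ2 p1) + δ * (hh p2 + 2 * ψ2 p2) := by
      rw [← mul_add]
      exact mul_le_mul_of_nonneg_left (by linarith) hδ.le
    have c1 : V1 x = u x * Real.exp (Ed D (ρ / 2) x / α) := by simp only [hV1, hφ1e]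
    have c2 : V2 x' = u x' * Real.exp (Ed D (ρ / 2) x' / α) := by simp only [hV2, hψ2e]
    unfold Phi at hp
    rw [c1, c2, hφ2e, hψ2e]
    linarith
  -- gradient bounds
  have hg1 : ‖fderiv ℝ V1 x‖ ≤ 4 / 3 * L + L / ρ + 3 := by
    refine grad_bound_b (c := ψ2 x') (φ := φ2) hρ hs₀ hs1 hL hδ hδ1 hne hs (hV1c.differentiableAt (by norm_num)) hφ2c
      (by rw [hφ2e]; exact hE0 x) (by rw [hφ2e]; exact hE6 x) (by rw [hψ2e]; exact hE0 x')
      (by rw [hψ2e]; exact hE6 x') hφ2d ?_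
    have t : Tendsto (fun z : EE n => (z, x')) (𝓝 x) (𝓝 (x, x')) :=
      (continuous_id.prodMk continuous_const).continuousAt
    filter_upwards [t.eventually hmax2] with z hz
    linarith
  have hg2 : ‖fderiv ℝ V2 x'‖ ≤ 4 / 3 * L + L / ρ + 3 := by
    have hneg : fderiv ℝ (fun z => -V2 z) x' = -fderiv ℝ V2 x' := fderiv_neg
    rw [← norm_neg, ← hneg]
    refine grad_bound_b (c := φ2 x) (φ := ψ2) (x' := x) hρ hs₀ hs1 hL hδ hδ1 hne.symm (by rw [norm_sub_rev]; exact hs)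
      (hV2c.differentiableAt (by norm_num)).neg hψ2c
      (by rw [hψ2e]; exact hE0 x') (by rw [hψ2e]; exact hE6 x') (by rw [hφ2e]; exact hE0 x)
      (by rw [hφ2e]; exact hE6 x) hψ2d ?_
    have t : Tendsto (fun z : EE n => (x, z)) (𝓝 x') (𝓝 (x, x')) :=
      (continuous_const.prodMk continuous_id).continuousAt
    filter_upwards [t.eventually hmax2] with z hz
    rw [norm_sub_rev z x, norm_sub_rev x' x, add_comm (ψ2 z) (φ2 x), add_comm (ψ2 x') (φ2 x)]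
    linarith
  -- Laplacian bounds
  have hG0 : 0 ≤ 4 / 3 * L + L / ρ + 3 := by positivity
  have hl1 : |(Δ V1) x| ≤ C₁ * (1 + (4 / 3 * L + L / ρ + 3)) := by
    refine hexp u φ1 x _ hux hφ1c (hu01 x hclx).1 (hu01 x hclx).2 (hΔu x hx) ?_ ?_ hφ1d hφ1L hG0 hg1
    · rw [hφ1e]; exact hE0 x
    · rw [hφ1e]; have := hE6 x; linarith
  have hl2 : |(Δ V2) x'| ≤ C₁ * (1 + (4 / 3 * L + L / ρ + 3)) := by
    refine hexp u ψ2 x' _ hux' hψ2c (hu01 x' hclx').1 (hu01 x' hclx').2 (hΔu x' hx') ?_ ?_ hψ2d hψ2L hG0 hg2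
    · rw [hψ2e]; exact hE0 x'
    · rw [hψ2e]; have := hE6 x'; linarith
  -- reflection coupling
  obtain ⟨hh1, hh2, -⟩ := hh_facts x
  obtain ⟨hh1', hh2', -⟩ := hh_facts x'
  have hrc := rc_q (n := n) (v1 := V1) (v2 := V2) (E1 := φ2) (E2 := ψ2) (θ1 := fun z => δ * (hh z + 2 * φ2 z))
    (θ2 := fun z => δ * (hh z + 2 * ψ2 z)) (ω := om L s₀) (ω' := fun s => L * (1 - s / s₀)) (ω'' := -(L / s₀))
    (k := 1 / ρ) (x := x) (x' := x') hne hV1c hV2c hφ2c hψ2c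
    (contDiffAt_const.mul (hh1.contDiffAt.add (contDiffAt_const.mul hφ2c)))
    (contDiffAt_const.mul (hh1'.contDiffAt.add (contDiffAt_const.mul hψ2c)))
    (Eventually.of_forall (fun s => hasDerivAt_om_b L s₀ s))
    (by
      have h1 := ((hasDerivAt_id ‖x - x'‖).div_const s₀).const_sub 1
      have h2 := h1.const_mul L
      have e : -(L / s₀) = L * -(1 / s₀) := by ring
      rw [e]
      exact h2)
    hmax2
  have hθ1 : (Δ (fun z : EE n => δ * (hh z + 2 * φ2 z))) x = δ * ((Δ (hh : EE n → ℝ)) x + 2 * (Δ φ2) x) := by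
    rw [lap_const_mul δ (f := fun z : EE n => hh z + 2 * φ2 z) (hh1.contDiffAt.add (contDiffAt_const.mul hφ2c)),
      lap_add (f := (hh : EE n → ℝ)) (g := fun z => 2 * φ2 z) hh1.contDiffAt (contDiffAt_const.mul hφ2c),
      lap_const_mul 2 hφ2c]
  have hθ2 : (Δ (fun z : EE n => δ * (hh z + 2 * ψ2 z))) x' = δ * ((Δ (hh : EE n → ℝ)) x' + 2 * (Δ ψ2) x') := by
    rw [lap_const_mul δ (f := fun z : EE n => hh z + 2 * ψ2 z) (hh1'.contDiffAt.add (contDiffAt_const.mul hψ2c)),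
      lap_add (f := (hh : EE n → ℝ)) (g := fun z => 2 * ψ2 z) hh1'.contDiffAt (contDiffAt_const.mul hψ2c),
      lap_const_mul 2 hψ2c]
  rw [hθ1, hθ2] at hrc
  set K : ℝ := (4 + 2 * (n : ℝ)) / ρ with hK
  have hK0 : 0 ≤ K := by positivity
  have e1 : δ * ((Δ (hh : EE n → ℝ)) x + 2 * (Δ φ2) x) ≤ n + 2 * K := by
    have a1 := (abs_le.mp hh2).2
    have a2 := (abs_le.mp hφ2L).2
    have a3 : (Δ (hh : EE n → ℝ)) x + 2 * (Δ φ2) x ≤ n + 2 * K := by linarith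
    calc δ * ((Δ (hh : EE n → ℝ)) x + 2 * (Δ φ2) x) ≤ δ * (n + 2 * K) := mul_le_mul_of_nonneg_left a3 hδ.le
      _ ≤ 1 * (n + 2 * K) := mul_le_mul_of_nonneg_right hδ1 (by positivity)
      _ = n + 2 * K := one_mul _
  have e2 : δ * ((Δ (hh : EE n → ℝ)) x' + 2 * (Δ ψ2) x') ≤ n + 2 * K := by
    have a1 := (abs_le.mp hh2').2
    have a2 := (abs_le.mp hψ2L).2
    have a3 : (Δ (hh : EE n → ℝ)) x' + 2 * (Δ ψ2) x' ≤ n + 2 * K := by linarith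
    calc δ * ((Δ (hh : EE n → ℝ)) x' + 2 * (Δ ψ2) x') ≤ δ * (n + 2 * K) := mul_le_mul_of_nonneg_left a3 hδ.le
      _ ≤ 1 * (n + 2 * K) := mul_le_mul_of_nonneg_right hδ1 (by positivity)
      _ = n + 2 * K := one_mul _
  have e3 : 4 * -(L / s₀) * (1 + 1 / ρ * (φ2 x + ψ2 x')) ≤ -(4 * L / s₀) := by
    have a1 : 0 ≤ 1 / ρ * (φ2 x + ψ2 x') := by
      rw [hφ2e, hψ2e]
      have := hE0 x
      have := hE0 x'
      positivity
    have a2 : 0 ≤ L / s₀ := by positivity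
    have a3 : 4 * L / s₀ = 4 * (L / s₀) := by ring
    rw [a3]
    nlinarith [mul_nonneg a2 a1]
  have hunit : ‖(‖x - x'‖⁻¹ • (x - x'))‖ = 1 := by
    rw [norm_smul, norm_inv, norm_norm, inv_mul_cancel₀ hspos.ne']
  have e4 : 4 * (1 / ρ) * (L * (1 - ‖x - x'‖ / s₀)) * (fderiv ℝ φ2 x (‖x - x'‖⁻¹ • (x - x')) -
        fderiv ℝ ψ2 x' (‖x - x'‖⁻¹ • (x - x'))) ≤ 8 / ρ * L := by
    have a1 : fderiv ℝ φ2 x (‖x - x'‖⁻¹ • (x - x')) ≤ 1 := by
      have := (fderiv ℝ φ2 x).le_opNorm (‖x - x'‖⁻¹ • (x - x'))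
      rw [hunit, mul_one] at this
      exact (le_abs_self _).trans (this.trans hφ2d)
    have a2 : -fderiv ℝ ψ2 x' (‖x - x'‖⁻¹ • (x - x')) ≤ 1 := by
      have := (fderiv ℝ ψ2 x').le_opNorm (‖x - x'‖⁻¹ • (x - x'))
      rw [hunit, mul_one] at this
      exact (neg_le_abs _).trans (this.trans hψ2d)
    have h1 : ‖x - x'‖ / s₀ ≤ 1 := by rw [div_le_one hs₀]; exact hs.le
    have h2 : 0 ≤ ‖x - x'‖ / s₀ := by positivity
    have a3 : 0 ≤ L * (1 - ‖x - x'‖ / s₀) := mul_nonneg (by linarith) (by linarith)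
    have a4 : L * (1 - ‖x - x'‖ / s₀) ≤ L := by nlinarith
    calc 4 * (1 / ρ) * (L * (1 - ‖x - x'‖ / s₀)) * (fderiv ℝ φ2 x (‖x - x'‖⁻¹ • (x - x')) -
        fderiv ℝ ψ2 x' (‖x - x'‖⁻¹ • (x - x'))) ≤ 4 * (1 / ρ) * (L * (1 - ‖x - x'‖ / s₀)) * 2 := by
          apply mul_le_mul_of_nonneg_left (by linarith) (by positivity)
      _ ≤ 4 * (1 / ρ) * L * 2 := by
          apply mul_le_mul_of_nonneg_right _ (by norm_num)
          exact mul_le_mul_of_nonneg_left a4 (by positivity)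
      _ = 8 / ρ * L := by ring
  have e5 : 1 / ρ * om L s₀ ‖x - x'‖ * ((Δ φ2) x + (Δ ψ2) x') ≤ 2 * ((4 + 2 * n) / ρ ^ 2) * L := by
    have a1 := (abs_le.mp hφ2L).2
    have a2 := (abs_le.mp hψ2L).2
    calc 1 / ρ * om L s₀ ‖x - x'‖ * ((Δ φ2) x + (Δ ψ2) x') ≤ 1 / ρ * om L s₀ ‖x - x'‖ * (2 * K) := by
          apply mul_le_mul_of_nonneg_left (by linarith) (by positivity)
      _ ≤ 1 / ρ * L * (2 * K) := by
          apply mul_le_mul_of_nonneg_right _ (by positivity)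
          exact mul_le_mul_of_nonneg_left ho3 (by positivity)
      _ = 2 * ((4 + 2 * n) / ρ ^ 2) * L := by rw [hK]; field_simp
  have l1 := (abs_le.mp hl1).1
  have l2 := (abs_le.mp hl2).2
  have key : 4 * L / s₀ ≤ 2 * (C₁ * (1 + (4 / 3 * L + L / ρ + 3))) + 2 * (n + 2 * K) + 8 / ρ * L +
      2 * ((4 + 2 * n) / ρ ^ 2) * L := by
    linarith
  refine key.trans ?_
  have f1 : C₁ * (1 + (4 / 3 * L + L / ρ + 3)) ≤ C₁ * (4 + 4 / 3 + 1 / ρ) * (1 + L) := by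
    rw [mul_assoc]
    apply mul_le_mul_of_nonneg_left _ hC₁.le
    have : 0 ≤ 1 / ρ := by positivity
    have e : L / ρ = 1 / ρ * L := by ring
    rw [e]
    nlinarith
  have f2 : n + 2 * K ≤ (n + 2 * K) * (1 + L) := by
    have : 0 ≤ n + 2 * K := by positivity
    nlinarith
  have f3 : 8 / ρ * L ≤ 8 / ρ * (1 + L) := mul_le_mul_of_nonneg_left (by linarith) (by positivity)
  have f4 : 2 * ((4 + 2 * (n : ℝ)) / ρ ^ 2) * L ≤ 2 * ((4 + 2 * n) / ρ ^ 2) * (1 + L) :=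
    mul_le_mul_of_nonneg_left (by linarith) (by positivity)
  nlinarith [f1, f2, f3, f4]

end Pool.Agent.Lib.MP_188651_an
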