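import Pool.Agent.Lib.MP_188651_an.ExLipA

/-!
# Boundary Lipschitz estimate: second point on the boundary
-/

open Set Filter Metric Topology InnerProductSpace Laplacian

namespace Pool.Agent.Lib.MP_188651_an

variable {n : ℕ} {ρ α s₀ L δ : ℝ} {D : Set (EE n)} {N : EE n → EE n} {u : EE n → ℝ}

theorem lipbd_right (h : BD ρ D N) (hne : (frontier D).Nonempty) (hα : 0 < α)
    (hu0 : ∀ x ∈ closure D, 0 ≤ u x) (hub : BSup D N α u) (hs₀ : 0 < s₀) (hL : 0 < L) (hδ : 0 < δ)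
    {x x' : EE n} (hx : x ∈ closure D) (hx' : x' ∈ frontier D) (hxx : x ≠ x') (hs : ‖x - x'‖ < s₀)
    (hpos : 0 < Phi D ρ α s₀ L δ u x x')
    (hmax : ∀ᶠ z in 𝓝[closure D] x', Phi D ρ α s₀ L δ u x z ≤ Phi D ρ α s₀ L δ u x x') : False := by
  have hρ := h.pos
  have hxc : x' ∈ closure D := frontier_subset_closure hx'
  have hs' : ‖x' - x‖ < s₀ := by rw [norm_sub_rev]; exact hs
  obtain ⟨Eu, hu1, hu2, hu3, -, -, hu6⟩ := touch_above h hne hxc
  obtain ⟨-, he1, he2, -⟩ := Ed_facts (D := D) (s₁ := ρ / 2) (by positivity)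
  obtain ⟨hF1, hF2⟩ := Rf_ExLipA (L := L) (δ := δ) h hs₀ hL hδ hx' hx hxx.symm hs' hu1 hu2 (hu6 hx')
    (hh x + 2 * Ed D (ρ / 2) x)
  set F : EE n → ℝ := fun z => om L s₀ ‖z - x‖ * (1 + 1 / ρ * (Eu z + Ed D (ρ / 2) x)) +
      δ * (hh z + 2 * Eu z + (hh x + 2 * Ed D (ρ / 2) x)) with hF
  set C : ℝ := u x * Real.exp (Ed D (ρ / 2) x / α) - Phi D ρ α s₀ L δ u x x' with hC
  have hRC : ContDiffAt ℝ 2 (fun z => C - F z) x' := contDiffAt_const.sub hF1
  have hRD : fderiv ℝ (fun z => C - F z) x' = -fderiv ℝ F x' := by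
    rw [fderiv_const_sub]
  obtain ⟨hφ1, hφ2⟩ := exp_mul_ExLipA (α := α) (ν := N x') hu1 hRC (hu6 hx')
  rw [hRD] at hφ2
  have hCF : u x' * Real.exp (Ed D (ρ / 2) x' / α) = C - F x' := by
    rw [hC, hF]
    simp only [hu2, norm_sub_rev x' x]
    unfold Phi
    ring
  have hval : Real.exp (-(Eu x') / α) * (C - F x') = u x' := by
    rw [← hCF, hu2]
    have h1 : Real.exp (-Ed D (ρ / 2) x' / α) * (u x' * Real.exp (Ed D (ρ / 2) x' / α)) =
        u x' * (Real.exp (-Ed D (ρ / 2) x' / α) * Real.exp (Ed D (ρ / 2) x' / α)) := by ring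
    rw [h1, ← Real.exp_add, neg_div, neg_add_cancel, Real.exp_zero, mul_one]
  have htouch : TouchB (closure D) u (fun z => Real.exp (-(Eu z) / α) * (C - F z)) x' := by
    refine ⟨hφ1, hval, ?_⟩
    have hnear : ∀ᶠ z in 𝓝[closure D] x', ‖z - x‖ < s₀ := by
      apply mem_nhdsWithin_of_mem_nhds
      exact (isOpen_lt (by fun_prop) continuous_const).mem_nhds hs'
    filter_upwards [hmax, hu3, hnear, self_mem_nhdsWithin] with z h1 h2 h4 hz
    obtain ⟨ho1, -⟩ := om_facts hs₀ hL (norm_nonneg (z - x)) h4.le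
    have hEz := he1 z
    have hEx' := he1 x
    have h5 : om L s₀ ‖z - x‖ * (1 + 1 / ρ * (Ed D (ρ / 2) z + Ed D (ρ / 2) x)) ≤
        om L s₀ ‖z - x‖ * (1 + 1 / ρ * (Eu z + Ed D (ρ / 2) x)) := by
      apply mul_le_mul_of_nonneg_left _ ho1
      have : 1 / ρ * (Ed D (ρ / 2) z + Ed D (ρ / 2) x) ≤ 1 / ρ * (Eu z + Ed D (ρ / 2) x) :=
        mul_le_mul_of_nonneg_left (by linarith) (by positivity)
      linarith
    have h6 : δ * (hh z + 2 * Ed D (ρ / 2) z + (hh x + 2 * Ed D (ρ / 2) x)) ≤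
        δ * (hh z + 2 * Eu z + (hh x + 2 * Ed D (ρ / 2) x)) :=
      mul_le_mul_of_nonneg_left (by linarith) hδ.le
    have h7 : C - F z ≤ u z * Real.exp (Ed D (ρ / 2) z / α) := by
      have h8 : u z * Real.exp (Ed D (ρ / 2) z / α) = u x * Real.exp (Ed D (ρ / 2) x / α) -
          Phi D ρ α s₀ L δ u x z -
          om L s₀ ‖z - x‖ * (1 + 1 / ρ * (Ed D (ρ / 2) z + Ed D (ρ / 2) x)) -
          δ * (hh z + 2 * Ed D (ρ / 2) z + (hh x + 2 * Ed D (ρ / 2) x)) := by
        unfold Phi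
        rw [norm_sub_rev z x]
        ring
      rw [h8, hC, hF]
      simp only
      linarith
    have h10 : u z = Real.exp (-(Ed D (ρ / 2) z) / α) * (u z * Real.exp (Ed D (ρ / 2) z / α)) := by
      have h1 : Real.exp (-Ed D (ρ / 2) z / α) * (u z * Real.exp (Ed D (ρ / 2) z / α)) =
        u z * (Real.exp (-Ed D (ρ / 2) z / α) * Real.exp (Ed D (ρ / 2) z / α)) := by ring
      rw [h1, ← Real.exp_add, neg_div, neg_add_cancel, Real.exp_zero, mul_one]
    rcases le_or_gt 0 (C - F z) with h9 | h9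
    · calc Real.exp (-(Eu z) / α) * (C - F z) ≤ Real.exp (-(Ed D (ρ / 2) z) / α) * (C - F z) := by
            apply mul_le_mul_of_nonneg_right _ h9
            apply Real.exp_le_exp.2
            apply div_le_div_of_nonneg_right _ hα.le
            linarith
        _ ≤ Real.exp (-(Ed D (ρ / 2) z) / α) * (u z * Real.exp (Ed D (ρ / 2) z / α)) :=
            mul_le_mul_of_nonneg_left h7 (Real.exp_pos _).le
        _ = u z := h10.symm
    · have h11 : Real.exp (-(Eu z) / α) * (C - F z) ≤ 0 :=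
        mul_nonpos_of_nonneg_of_nonpos (Real.exp_pos _).le h9.le
      exact h11.trans (hu0 z hz)
  have hfin := hub x' hx' _ htouch
  rw [hφ2] at hfin
  have h11 : u x' + α * (Real.exp (-(Eu x') / α) * ((-fderiv ℝ F x') (N x') - (C - F x') / α)) =
      -(α * (Real.exp (-(Eu x') / α) * fderiv ℝ F x' (N x'))) := by
    have : α * (Real.exp (-(Eu x') / α) * ((-fderiv ℝ F x') (N x') - (C - F x') / α)) =
      α * (Real.exp (-(Eu x') / α) * ((-fderiv ℝ F x') (N x'))) -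
        Real.exp (-(Eu x') / α) * (C - F x') := by
      field_simp
    rw [this, hval, ContinuousLinearMap.neg_apply]
    ring
  rw [h11] at hfin
  have : 0 < α * (Real.exp (-(Eu x') / α) * fderiv ℝ F x' (N x')) := by positivity
  linarith

end Pool.Agent.Lib.MP_188651_an
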