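import Pool.Agent.Lib.MP_188651_an.ExLipM
import Pool.Agent.Lib.MP_188651_an.ExLipB
import Pool.Agent.Lib.MP_188651_an.ExLipR

/-!
# Lipschitz estimate up to the boundary
-/

open Set Filter Metric Topology InnerProductSpace Laplacian

namespace Pool.Agent.Lib.MP_188651_an

private theorem exlip_hh_pos {n : ℕ} (x : EE n) : 0 < hh x := by
  unfold hh
  apply Real.sqrt_pos.2
  positivity

/-- the core: `W = u e^{Ed/α}` has modulus `om` (times the correction) at distance `< s₀`. -/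
private theorem exlip_core {n : ℕ} {ρ α Λ C : ℝ} (hρ : 0 < ρ) (hα : 0 < α) (hC : 0 < C)
    (hint : ∀ (D : Set (EE n)) (N : EE n → EE n) (u : EE n → ℝ) (s₀ L δ : ℝ) (x x' : EE n),
      BD ρ D N → (frontier D).Nonempty → 0 < s₀ → s₀ ≤ 1 → 1 ≤ L → 0 < δ → δ ≤ 1 →
      ContDiffOn ℝ 2 u D → (∀ z ∈ closure D, 0 ≤ u z ∧ u z ≤ 1) → (∀ z ∈ D, |(Δ u) z| ≤ Λ) →
      x ∈ D → x' ∈ D → x ≠ x' → ‖x - x'‖ < s₀ →
      (∀ᶠ p : EE n × EE n in 𝓝 (x, x'),
        Phi D ρ α s₀ L δ u p.1 p.2 ≤ Phi D ρ α s₀ L δ u x x') →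
      4 * L / s₀ ≤ C * (1 + L))
    {s₀ L : ℝ} (hs₀ : 0 < s₀) (hs1 : s₀ ≤ 1) (hsC : s₀ ≤ 1 / C) (hL : 1 ≤ L)
    (hL2 : 2 * Real.exp (ρ / α) ≤ L * s₀)
    {D : Set (EE n)} {N : EE n → EE n} {u : EE n → ℝ} (hD : BD ρ D N)
    (hne : (frontier D).Nonempty) (hc : ContinuousOn u (closure D)) (h2 : ContDiffOn ℝ 2 u D)
    (h01 : ∀ z ∈ closure D, 0 ≤ u z ∧ u z ≤ 1) (hΔ : ∀ z ∈ D, |(Δ u) z| ≤ Λ)
    (hsub : BSub D N α u) (hsup : BSup D N α u) {x₁ x₁' : EE n} (hx₁ : x₁ ∈ closure D)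
    (hx₁' : x₁' ∈ closure D) (hs : ‖x₁ - x₁'‖ ≤ s₀) :
    u x₁ * Real.exp (Ed D (ρ / 2) x₁ / α) - u x₁' * Real.exp (Ed D (ρ / 2) x₁' / α) ≤
      om L s₀ ‖x₁ - x₁'‖ * (1 + 1 / ρ * (Ed D (ρ / 2) x₁ + Ed D (ρ / 2) x₁')) := by
  by_contra hcon
  push Not at hcon
  obtain ⟨hEc, hE0, hE1, hEl⟩ := Ed_facts (D := D) (s₁ := ρ / 2) (by positivity)
  set κ : ℝ := u x₁ * Real.exp (Ed D (ρ / 2) x₁ / α) - u x₁' * Real.exp (Ed D (ρ / 2) x₁' / α) -
    om L s₀ ‖x₁ - x₁'‖ * (1 + 1 / ρ * (Ed D (ρ / 2) x₁ + Ed D (ρ / 2) x₁')) with hκ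
  have hκ0 : 0 < κ := sub_pos.2 hcon
  set S : ℝ := hh x₁ + 2 * Ed D (ρ / 2) x₁ + (hh x₁' + 2 * Ed D (ρ / 2) x₁') with hS
  have hS0 : 0 < S := by
    have := exlip_hh_pos x₁
    have := exlip_hh_pos x₁'
    have := hE0 x₁
    have := hE0 x₁'
    rw [hS]; linarith
  set δ : ℝ := min 1 (κ / (2 * S)) with hδ
  have hδ0 : 0 < δ := lt_min one_pos (by positivity)
  have hδ1 : δ ≤ 1 := min_le_left _ _
  have hδS : δ * S ≤ κ / 2 := by
    have h1 : δ * S ≤ κ / (2 * S) * S := mul_le_mul_of_nonneg_right (min_le_right _ _) hS0.le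
    have h2 : κ / (2 * S) * S = κ / 2 := by field_simp
    linarith
  have hDne : D.Nonempty := by
    obtain ⟨y, hy⟩ := hne
    exact closure_nonempty_iff.1 ⟨y, frontier_subset_closure hy⟩
  obtain ⟨x, hx, x', hx', hxs, hmax⟩ := exists_max_Phi (α := α) hρ hα hs₀
    (lt_of_lt_of_le one_pos hL) hδ0 hc h01 hDne
  have hPhi1 : 0 < Phi D ρ α s₀ L δ u x₁ x₁' := by
    have : Phi D ρ α s₀ L δ u x₁ x₁' = κ - δ * S := by
      unfold Phi
      rw [hκ, hS]
    rw [this]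
    linarith
  have hPhi : 0 < Phi D ρ α s₀ L δ u x x' := lt_of_lt_of_le hPhi1 (hmax x₁ hx₁ x₁' hx₁' hs)
  have hTpos : ∀ y y' : EE n, 0 < hh y + 2 * Ed D (ρ / 2) y + (hh y' + 2 * Ed D (ρ / 2) y') := by
    intro y y'
    have := exlip_hh_pos y
    have := exlip_hh_pos y'
    have := hE0 y
    have := hE0 y'
    linarith
  have hxx : x ≠ x' := by
    intro h
    have h1 : Phi D ρ α s₀ L δ u x x' = -(δ * (hh x + 2 * Ed D (ρ / 2) x +
        (hh x + 2 * Ed D (ρ / 2) x))) := by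
      rw [← h]
      unfold Phi om
      simp
    have h2 := mul_pos hδ0 (hTpos x x)
    linarith
  have hlt : ‖x - x'‖ < s₀ := by
    rcases hxs.lt_or_eq with h | h
    · exact h
    · exfalso
      have hom : om L s₀ ‖x - x'‖ = L * s₀ / 2 := by
        rw [h]
        unfold om
        field_simp
        ring
      have e1 : u x * Real.exp (Ed D (ρ / 2) x / α) ≤ Real.exp (ρ / α) := by
        have h3 : Real.exp (Ed D (ρ / 2) x / α) ≤ Real.exp (ρ / α) := by
          apply Real.exp_le_exp.2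
          apply div_le_div_of_nonneg_right _ hα.le
          have := hE1 x
          linarith
        calc u x * Real.exp (Ed D (ρ / 2) x / α) ≤ 1 * Real.exp (ρ / α) :=
              mul_le_mul (h01 x hx).2 h3 (Real.exp_pos _).le zero_le_one
          _ = _ := one_mul _
      have e2 : 0 ≤ u x' * Real.exp (Ed D (ρ / 2) x' / α) :=
        mul_nonneg (h01 x' hx').1 (Real.exp_pos _).le
      have e3 : Real.exp (ρ / α) ≤ om L s₀ ‖x - x'‖ *
          (1 + 1 / ρ * (Ed D (ρ / 2) x + Ed D (ρ / 2) x')) := by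
        rw [hom]
        have h4 : 0 ≤ 1 / ρ * (Ed D (ρ / 2) x + Ed D (ρ / 2) x') :=
          mul_nonneg (by positivity) (add_nonneg (hE0 x) (hE0 x'))
        have h5 : Real.exp (ρ / α) ≤ L * s₀ / 2 := by linarith
        calc Real.exp (ρ / α) ≤ L * s₀ / 2 * 1 := by rw [mul_one]; exact h5
          _ ≤ _ := by
            apply mul_le_mul_of_nonneg_left _ (by positivity)
            linarith
      have e4 := mul_pos hδ0 (hTpos x x')
      unfold Phi at hPhi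
      linarith
  have hLp : 0 < L := lt_of_lt_of_le one_pos hL
  have hclD : ∀ y ∈ closure D, y ∈ D ∨ y ∈ frontier D := by
    intro y hy
    by_cases h : y ∈ D
    · exact Or.inl h
    · right
      rw [frontier, hD.isOpen.interior_eq]
      exact ⟨hy, h⟩
  rcases hclD x hx with hxD | hxF
  · rcases hclD x' hx' with hxD' | hxF'
    · have hev : ∀ᶠ p : EE n × EE n in 𝓝 (x, x'),
          Phi D ρ α s₀ L δ u p.1 p.2 ≤ Phi D ρ α s₀ L δ u x x' := by
        have h1 : ∀ᶠ p : EE n × EE n in 𝓝 (x, x'), p.1 ∈ D :=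
          continuous_fst.continuousAt.eventually (hD.isOpen.mem_nhds hxD)
        have h2 : ∀ᶠ p : EE n × EE n in 𝓝 (x, x'), p.2 ∈ D :=
          continuous_snd.continuousAt.eventually (hD.isOpen.mem_nhds hxD')
        have h3 : ∀ᶠ p : EE n × EE n in 𝓝 (x, x'), ‖p.1 - p.2‖ < s₀ := by
          have hcont : ContinuousAt (fun p : EE n × EE n => ‖p.1 - p.2‖) (x, x') := by fun_prop
          exact hcont.eventually (gt_mem_nhds hlt)
        filter_upwards [h1, h2, h3] with p h1 h2 h3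
        exact hmax p.1 (subset_closure h1) p.2 (subset_closure h2) h3.le
      have hfin := hint D N u s₀ L δ x x' hD hne hs₀ hs1 hL hδ0 hδ1 h2 h01 hΔ hxD hxD' hxx hlt hev
      rw [div_le_iff₀ hs₀] at hfin
      rw [le_div_iff₀ hC] at hsC
      have h6 : C * (1 + L) * s₀ ≤ 1 + L := by
        have : C * (1 + L) * s₀ = s₀ * C * (1 + L) := by ring
        rw [this]
        calc s₀ * C * (1 + L) ≤ 1 * (1 + L) := mul_le_mul_of_nonneg_right hsC (by linarith)
          _ = 1 + L := one_mul _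
      linarith
    · refine lipbd_right hD hne hα (fun z hz => (h01 z hz).1) hsup hs₀ hLp hδ0 hx hxF' hxx hlt hPhi ?_
      have h3 : ∀ᶠ z in 𝓝[closure D] x', ‖x - z‖ < s₀ := by
        have hcont : ContinuousAt (fun z : EE n => ‖x - z‖) x' := by fun_prop
        exact (hcont.eventually (gt_mem_nhds hlt)).filter_mono nhdsWithin_le_nhds
      filter_upwards [h3, self_mem_nhdsWithin] with z h3 hz
      exact hmax x hx z hz h3.le
  · refine lipbd_left hD hne hα (fun z hz => (h01 z hz).1) hsub hs₀ hLp hδ0 hxF hx' hxx hlt hPhi ?_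
    have h3 : ∀ᶠ z in 𝓝[closure D] x, ‖z - x'‖ < s₀ := by
      have hcont : ContinuousAt (fun z : EE n => ‖z - x'‖) x := by fun_prop
      exact (hcont.eventually (gt_mem_nhds hlt)).filter_mono nhdsWithin_le_nhds
    filter_upwards [h3, self_mem_nhdsWithin] with z h3 hz
    exact hmax z hz x' hx' h3.le

private theorem exlip_exp_sub {a b : ℝ} (ha : 0 ≤ a) (hb : 0 ≤ b) :
    |Real.exp (-a) - Real.exp (-b)| ≤ |a - b| := by
  have key : ∀ a b : ℝ, 0 ≤ a → a ≤ b → |Real.exp (-a) - Real.exp (-b)| ≤ |a - b| := by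
    intro a b ha hab
    have h1 : Real.exp (-b) ≤ Real.exp (-a) := Real.exp_le_exp.2 (by linarith)
    rw [abs_of_nonneg (by linarith), abs_sub_comm, abs_of_nonneg (by linarith)]
    have h2 : Real.exp (-b) = Real.exp (-a) * Real.exp (-(b - a)) := by
      rw [← Real.exp_add]; congr 1; ring
    have h3 : 1 - (b - a) ≤ Real.exp (-(b - a)) := by
      have := Real.add_one_le_exp (-(b - a))
      linarith
    have h4 : Real.exp (-a) ≤ 1 := by
      rw [← Real.exp_zero]; exact Real.exp_le_exp.2 (by linarith)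
    have h5 : 0 < Real.exp (-a) := Real.exp_pos _
    rw [h2]
    nlinarith
  rcases le_total a b with h | h
  · exact key a b ha h
  · rw [abs_sub_comm, abs_sub_comm a b]
    exact key b a hb h

theorem lip_bd (n : ℕ) {ρ α Λ : ℝ} (hρ : 0 < ρ) (hα : 0 < α) (hΛ : 0 ≤ Λ) : ∃ L > 0,
    ∀ (D : Set (EE n)) (N : EE n → EE n) (u : EE n → ℝ), BD ρ D N →
      (frontier D).Nonempty → ContinuousOn u (closure D) → ContDiffOn ℝ 2 u D →
      (∀ z ∈ closure D, 0 ≤ u z ∧ u z ≤ 1) → (∀ z ∈ D, |(Δ u) z| ≤ Λ) → BSub D N α u → BSup D N α u →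
      ∀ x ∈ closure D, ∀ x' ∈ closure D, |u x - u x'| ≤ L * ‖x - x'‖ := by
  obtain ⟨C, hC, hint⟩ := lipbd_int n hρ hα hΛ
  set s₀ : ℝ := min 1 (1 / C) with hs₀def
  have hs₀ : 0 < s₀ := lt_min one_pos (by positivity)
  have hs1 : s₀ ≤ 1 := min_le_left _ _
  have hsC : s₀ ≤ 1 / C := min_le_right _ _
  set E : ℝ := Real.exp (ρ / α) with hE
  have hE0 : 0 < E := Real.exp_pos _
  set L : ℝ := max 1 (2 * E / s₀) with hLdef
  have hL : 1 ≤ L := le_max_left _ _
  have hL2 : 2 * E ≤ L * s₀ := by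
    have : 2 * E / s₀ ≤ L := le_max_right _ _
    rwa [div_le_iff₀ hs₀] at this
  refine ⟨3 * L + E / α, by positivity, ?_⟩
  intro D N u hD hne hc h2 h01 hΔ hsub hsup
  obtain ⟨hEc, hEd0, hEd1, hEl⟩ := Ed_facts (D := D) (s₁ := ρ / 2) (by positivity)
  set W : EE n → ℝ := fun x => u x * Real.exp (Ed D (ρ / 2) x / α) with hW
  have hW0 : ∀ x ∈ closure D, 0 ≤ W x := fun x hx =>
    mul_nonneg (h01 x hx).1 (Real.exp_pos _).le
  have hW1 : ∀ x ∈ closure D, W x ≤ E := by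
    intro x hx
    have h3 : Real.exp (Ed D (ρ / 2) x / α) ≤ E := by
      apply Real.exp_le_exp.2
      apply div_le_div_of_nonneg_right _ hα.le
      have := hEd1 x
      linarith
    calc W x ≤ 1 * E := mul_le_mul (h01 x hx).2 h3 (Real.exp_pos _).le zero_le_one
      _ = E := one_mul _
  have hstep : ∀ x ∈ closure D, ∀ x' ∈ closure D, W x - W x' ≤ 3 * L * ‖x - x'‖ := by
    intro x hx x' hx'
    rcases le_or_gt ‖x - x'‖ s₀ with hs | hs
    · have h3 := exlip_core hρ hα hC hint hs₀ hs1 hsC hL hL2 hD hne hc h2 h01 hΔ hsub hsup hx hx' hs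
      refine h3.trans ?_
      obtain ⟨o1, o2, -, -, -⟩ := om_facts hs₀ (lt_of_lt_of_le one_pos hL) (norm_nonneg (x - x')) hs
      have q1 : 1 + 1 / ρ * (Ed D (ρ / 2) x + Ed D (ρ / 2) x') ≤ 3 := by
        have h4 := hEd1 x
        have h5 := hEd1 x'
        have h6 : 1 / ρ * (Ed D (ρ / 2) x + Ed D (ρ / 2) x') ≤ 1 / ρ * (2 * ρ) :=
          mul_le_mul_of_nonneg_left (by linarith) (by positivity)
        have h7 : 1 / ρ * (2 * ρ) = 2 := by field_simp
        linarith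
      have q0 : 0 ≤ 1 + 1 / ρ * (Ed D (ρ / 2) x + Ed D (ρ / 2) x') := by
        have h4 : 0 ≤ 1 / ρ * (Ed D (ρ / 2) x + Ed D (ρ / 2) x') :=
          mul_nonneg (by positivity) (add_nonneg (hEd0 x) (hEd0 x'))
        linarith
      calc om L s₀ ‖x - x'‖ * (1 + 1 / ρ * (Ed D (ρ / 2) x + Ed D (ρ / 2) x'))
          ≤ (L * ‖x - x'‖) * 3 := mul_le_mul o2 q1 q0 (by positivity)
        _ = 3 * L * ‖x - x'‖ := by ring
    · have h3 : W x - W x' ≤ E := by
        have := hW1 x hx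
        have := hW0 x' hx'
        linarith
      have h4 : E ≤ L * s₀ := by linarith
      have h5 : L * s₀ ≤ L * ‖x - x'‖ := mul_le_mul_of_nonneg_left hs.le (by linarith)
      have h6 : 0 ≤ L * ‖x - x'‖ := by positivity
      linarith
  have hWl : ∀ x ∈ closure D, ∀ x' ∈ closure D, |W x - W x'| ≤ 3 * L * ‖x - x'‖ := by
    intro x hx x' hx'
    rw [abs_le]
    have h3 := hstep x hx x' hx'
    have h4 := hstep x' hx' x hx
    rw [norm_sub_rev] at h4
    constructor <;> linarith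
  intro x hx x' hx'
  have hu : ∀ y : EE n, u y = W y * Real.exp (-(Ed D (ρ / 2) y / α)) := by
    intro y
    simp only [hW]
    rw [mul_assoc, ← Real.exp_add]
    simp
  have e1 : u x - u x' = (W x - W x') * Real.exp (-(Ed D (ρ / 2) x / α)) +
      W x' * (Real.exp (-(Ed D (ρ / 2) x / α)) - Real.exp (-(Ed D (ρ / 2) x' / α))) := by
    rw [hu x, hu x']; ring
  rw [e1]
  have p0 : 0 ≤ Ed D (ρ / 2) x / α := div_nonneg (hEd0 x) hα.le
  have p0' : 0 ≤ Ed D (ρ / 2) x' / α := div_nonneg (hEd0 x') hα.le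
  have t1 : |(W x - W x') * Real.exp (-(Ed D (ρ / 2) x / α))| ≤ 3 * L * ‖x - x'‖ := by
    rw [abs_mul, abs_of_pos (Real.exp_pos _)]
    have h4 : Real.exp (-(Ed D (ρ / 2) x / α)) ≤ 1 := by
      rw [← Real.exp_zero]; exact Real.exp_le_exp.2 (by linarith)
    calc |W x - W x'| * Real.exp (-(Ed D (ρ / 2) x / α)) ≤ (3 * L * ‖x - x'‖) * 1 :=
          mul_le_mul (hWl x hx x' hx') h4 (Real.exp_pos _).le (by positivity)
      _ = _ := mul_one _
  have t2 : |W x' * (Real.exp (-(Ed D (ρ / 2) x / α)) - Real.exp (-(Ed D (ρ / 2) x' / α)))| ≤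
      E / α * ‖x - x'‖ := by
    rw [abs_mul, abs_of_nonneg (hW0 x' hx')]
    have h5 := exlip_exp_sub p0 p0'
    have h6 : |Ed D (ρ / 2) x / α - Ed D (ρ / 2) x' / α| ≤ ‖x - x'‖ / α := by
      rw [← sub_div, abs_div, abs_of_pos hα]
      exact div_le_div_of_nonneg_right (hEl x x') hα.le
    calc W x' * |Real.exp (-(Ed D (ρ / 2) x / α)) - Real.exp (-(Ed D (ρ / 2) x' / α))|
        ≤ E * (‖x - x'‖ / α) := mul_le_mul (hW1 x' hx') (h5.trans h6) (abs_nonneg _) hE0.le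
      _ = E / α * ‖x - x'‖ := by ring
  calc _ ≤ 3 * L * ‖x - x'‖ + E / α * ‖x - x'‖ := (abs_add_le _ _).trans (add_le_add t1 t2)
    _ = (3 * L + E / α) * ‖x - x'‖ := by ring

end Pool.Agent.Lib.MP_188651_an
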