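import Pool.Agent.Lib.MP_188651_an.CCamp
import Pool.Agent.Lib.MP_188651_an.ExLip
import Pool.Agent.Lib.MP_188651_an.ExLapA
import Pool.Agent.Lib.MP_188651_an.ExLapB
import Pool.Agent.Lib.MP_188651_an.ExGeoB

/-!
# First order expansions at boundary points
-/

open Set Filter Metric Topology InnerProductSpace Laplacian

namespace Pool.Agent.Lib.MP_188651_an

/-- the assumptions on `u` -/
structure UH {n : ℕ} (ρ : ℝ) (D : Set (EE n)) (N : EE n → EE n) (α Λ : ℝ) (u : EE n → ℝ) : Prop where
  bd : BD ρ D N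
  ne : (frontier D).Nonempty
  cont : ContinuousOn u (closure D)
  smooth : ContDiffOn ℝ 2 u D
  bdd : ∀ x ∈ closure D, 0 ≤ u x ∧ u x ≤ 1
  lap : ∀ x ∈ D, |(Δ u) x| ≤ Λ
  sub : BSub D N α u
  sup : BSup D N α u

theorem exists_exp (n : ℕ) (hn : 1 ≤ n) {ρ α Λ : ℝ} (hρ : 0 < ρ) (hα : 0 < α) (hΛ : 0 ≤ Λ) :
    ∃ ω : ℝ → ℝ, IsMod ω ∧ ∀ (D : Set (EE n)) (N : EE n → EE n) (u : EE n → ℝ), UH ρ D N α Λ u →
      ∀ y ∈ frontier D, ∃ G : EE n →L[ℝ] ℝ, u y + α * G (N y) = 0 ∧
        ∀ x ∈ closure D, |u x - u y - G (x - y)| ≤ ω ‖x - y‖ * ‖x - y‖ := by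
  obtain ⟨L, hL, hLip⟩ := lip_bd n hρ hα hΛ
  obtain ⟨ω, hω, H⟩ := camp n hn (ρ := ρ) (K := L + 1 / α) (K₀ := (L + 1 / ρ) / α) (Λ := Λ) hρ
    (by positivity) (by positivity) hΛ
  refine ⟨ω, hω, ?_⟩
  intro D N u hu y hy
  have hD := hu.bd
  have hu01 := hu.bdd
  have hlip := hLip D N u hD hu.ne hu.cont hu.smooth hu.bdd hu.lap hu.sub hu.sup
  have hsub := hu.sub
  have hsup := hu.sup
  have hyc : y ∈ closure D := frontier_subset_closure hy
  have hNy : ‖N y‖ = 1 := hD.unit y hy
  set b : ℝ := u y / α with hb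
  have hb0 : 0 ≤ b := div_nonneg (hu01 y hyc).1 hα.le
  have hb1 : b ≤ 1 / α := div_le_div_of_nonneg_right (hu01 y hyc).2 hα.le
  have hanorm : ‖b • N y‖ ≤ 1 / α := by
    rw [norm_smul, hNy, mul_one, Real.norm_of_nonneg hb0]
    exact hb1
  have hαb : α * b = u y := by
    rw [hb]
    field_simp
  -- the geometric estimate
  have hgeo : ∀ y' ∈ frontier D, 1 - inner ℝ (N y) (N y') ≤ ‖y' - y‖ / ρ := by
    intro y' hy'
    have h1 := hD.N_sub_le hy hy'
    have hNy' : ‖N y'‖ = 1 := hD.unit y' hy'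
    have h2 : ‖N y - N y'‖ ^ 2 = 2 - 2 * inner ℝ (N y) (N y') := by
      rw [norm_sub_sq_real, hNy, hNy']
      ring
    have h3 : ‖N y - N y'‖ ≤ 2 := by
      refine (norm_sub_le _ _).trans ?_
      rw [hNy, hNy']
      norm_num
    have h4 := norm_nonneg (N y - N y')
    rw [norm_sub_rev y' y]
    nlinarith
  have hginner : ∀ y' ∈ frontier D, inner ℝ (N y) (N y') ≤ (1 : ℝ) := by
    intro y' hy'
    have h1 := real_inner_le_norm (N y) (N y')
    rw [hNy, hD.unit y' hy'] at h1
    linarith
  have hin : ∀ x : EE n, ContDiffAt ℝ 2 (fun z : EE n => (inner ℝ (b • N y) z : ℝ)) x := fun x =>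
    (inner_facts (b • N y) x).1.contDiffAt
  have hind : ∀ x w : EE n, fderiv ℝ (fun z : EE n => (inner ℝ (b • N y) z : ℝ)) x w =
      inner ℝ (b • N y) w := fun x => (inner_facts (b • N y) x).2.2
  set m : ℝ := u y + inner ℝ (b • N y) y with hm
  set v : EE n → ℝ := fun x => u x + inner ℝ (b • N y) x - m with hv
  have hvx : ∀ x, v x = u x - u y + inner ℝ (b • N y) (x - y) := by
    intro x
    rw [inner_sub_right]
    simp only [hv, hm]
    ring
  have hVN : VN D N y (L + 1 / α) ((L + 1 / ρ) / α) Λ v := by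
    refine ⟨?_, ?_, ?_, ?_, ?_, ?_⟩
    · intro x hx x' hx'
      have h1 : v x - v x' = (u x - u x') + inner ℝ (b • N y) (x - x') := by
        rw [inner_sub_right]
        simp only [hv]
        ring
      rw [h1]
      refine (abs_add_le _ _).trans ?_
      have h2 := hlip x hx x' hx'
      have h3 : |(inner ℝ (b • N y) (x - x') : ℝ)| ≤ 1 / α * ‖x - x'‖ :=
        (abs_real_inner_le_norm _ _).trans (mul_le_mul_of_nonneg_right hanorm (norm_nonneg _))
      linarith
    · exact (hu.smooth.add (inner_facts (b • N y) (0 : EE n)).1.contDiffOn).sub contDiffOn_const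
    · intro x hx
      have hux : ContDiffAt ℝ 2 u x := hu.smooth.contDiffAt (hD.isOpen.mem_nhds hx)
      have h1 : (Δ v) x = (Δ u) x := by
        rw [hv, lap_sub (hux.add (hin x)) contDiffAt_const, lap_add hux (hin x), (inner_facts (b • N y) x).2.1,
          lap_const]
        ring
      rw [h1]
      exact hu.lap x hx
    · rw [hvx, sub_self, sub_self, inner_zero_right, add_zero]
    · intro y' hy' φ hφ
      have hy'c : y' ∈ closure D := frontier_subset_closure hy'
      obtain ⟨hφ1, hφ2, hφ3⟩ := hφ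
      have hg2 := hginner y' hy'
      have hl := hlip y' hy'c y hyc
      have hl2 := neg_abs_le (u y' - u y)
      have hφD := (hφ1.differentiableAt (by norm_num)).hasFDerivAt
      have hinD := ((hin y').differentiableAt (by norm_num)).hasFDerivAt
      have hgoal : α * ((L + 1 / ρ) / α * ‖y' - y‖) = L * ‖y' - y‖ + ‖y' - y‖ / ρ := by
        field_simp
      have hψ : TouchA (closure D) u (fun z => φ z - inner ℝ (b • N y) z + m) y' := by
        refine ⟨(hφ1.sub (hin y')).add contDiffAt_const, ?_, ?_⟩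
        · simp only [hφ2, hv]
          ring
        · filter_upwards [hφ3] with z hz
          simp only [hv] at hz
          linarith
      have h1 := hsub y' hy' _ hψ
      have h2 : fderiv ℝ (fun z => φ z - inner ℝ (b • N y) z + m) y' (N y') =
          fderiv ℝ φ y' (N y') - b * inner ℝ (N y) (N y') := by
        have h4 := ((hφD.sub hinD).add_const m).fderiv
        have h5 : fderiv ℝ (fun z => φ z - inner ℝ (b • N y) z + m) y' = _ := h4
        rw [h5, sub_apply, hind, real_inner_smul_left]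
      rw [h2] at h1
      have h6 : α * (fderiv ℝ φ y' (N y') - b * inner ℝ (N y) (N y')) =
          α * fderiv ℝ φ y' (N y') - (α * b) * inner ℝ (N y) (N y') := by ring
      rw [h6, hαb] at h1
      have h7 : u y * inner ℝ (N y) (N y') ≤ u y * 1 :=
        mul_le_mul_of_nonneg_left hg2 (hu01 y hyc).1
      have h8 : 0 ≤ ‖y' - y‖ / ρ := by positivity
      refine le_of_mul_le_mul_left ?_ hα
      rw [hgoal]
      linarith
    · intro y' hy' φ hφ
      have hy'c : y' ∈ closure D := frontier_subset_closure hy'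
      obtain ⟨hφ1, hφ2, hφ3⟩ := hφ
      have hg := hgeo y' hy'
      have hg2 := hginner y' hy'
      have hl := hlip y' hy'c y hyc
      have hl1 := le_abs_self (u y' - u y)
      have hφD := (hφ1.differentiableAt (by norm_num)).hasFDerivAt
      have hinD := ((hin y').differentiableAt (by norm_num)).hasFDerivAt
      have hgoal : α * ((L + 1 / ρ) / α * ‖y' - y‖) = L * ‖y' - y‖ + ‖y' - y‖ / ρ := by
        field_simp
      have hψ : TouchB (closure D) u (fun z => φ z - inner ℝ (b • N y) z + m) y' := by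
        refine ⟨(hφ1.sub (hin y')).add contDiffAt_const, ?_, ?_⟩
        · simp only [hφ2, hv]
          ring
        · filter_upwards [hφ3] with z hz
          simp only [hv] at hz
          linarith
      have h1 := hsup y' hy' _ hψ
      have h2 : fderiv ℝ (fun z => φ z - inner ℝ (b • N y) z + m) y' (N y') =
          fderiv ℝ φ y' (N y') - b * inner ℝ (N y) (N y') := by
        have h4 := ((hφD.sub hinD).add_const m).fderiv
        have h5 : fderiv ℝ (fun z => φ z - inner ℝ (b • N y) z + m) y' = _ := h4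
        rw [h5, sub_apply, hind, real_inner_smul_left]
      rw [h2] at h1
      have h6 : α * (fderiv ℝ φ y' (N y') - b * inner ℝ (N y) (N y')) =
          α * fderiv ℝ φ y' (N y') - (α * b) * inner ℝ (N y) (N y') := by ring
      rw [h6, hαb] at h1
      have hprod : u y * (1 - inner ℝ (N y) (N y')) ≤ ‖y' - y‖ / ρ := by
        have h0 : 0 ≤ 1 - (inner ℝ (N y) (N y') : ℝ) := by linarith
        calc u y * (1 - inner ℝ (N y) (N y')) ≤ 1 * (1 - inner ℝ (N y) (N y')) :=
              mul_le_mul_of_nonneg_right (hu01 y hyc).2 h0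
          _ ≤ ‖y' - y‖ / ρ := by rw [one_mul]; exact hg
      refine le_of_mul_le_mul_left ?_ hα
      rw [mul_neg, hgoal]
      linarith
  obtain ⟨a, ha, hest⟩ := H D N y v hD hy hVN
  refine ⟨a - innerSL ℝ (b • N y), ?_, ?_⟩
  · rw [sub_apply, ha, innerSL_apply_apply, real_inner_smul_left, real_inner_self_eq_norm_sq, hNy]
    have : α * (0 - b * 1 ^ 2) = -(α * b) := by ring
    rw [this, hαb]
    ring
  · intro x hx
    have h1 := hest x hx
    rw [hvx] at h1
    have h2 : u x - u y - (a - innerSL ℝ (b • N y)) (x - y) =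
        u x - u y + inner ℝ (b • N y) (x - y) - a (x - y) := by
      rw [sub_apply, innerSL_apply_apply]
      ring
    rw [h2]
    exact h1

end Pool.Agent.Lib.MP_188651_an
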