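import Pool.Agent.Lib.MP_188651_an.CDefs
import Pool.Agent.Lib.MP_188651_an.ExGeoB

/-!
# Expansions at nearby boundary points
-/

open Set Filter Metric Topology InnerProductSpace Laplacian

namespace Pool.Agent.Lib.MP_188651_an

variable {n : ℕ} {ρ : ℝ} {D : Set (EE n)} {N : EE n → EE n} {u : EE n → ℝ} {G : EE n → (EE n →L[ℝ] ℝ)}
  {ω : ℝ → ℝ}

/-- nearby boundary points -/
theorem grad_bdy (hn : 1 ≤ n) (hD : BD ρ D N) (hω : IsMod ω)
    (hG : ∀ y ∈ frontier D, ∀ x ∈ closure D, |u x - u y - G y (x - y)| ≤ ω ‖x - y‖ * ‖x - y‖) {ε : ℝ} (hε : 0 < ε) :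
    ∃ δ > 0, ∀ y ∈ frontier D, ∀ y' ∈ frontier D, ‖y - y'‖ ≤ δ → ‖G y - G y'‖ ≤ ε := by
  obtain ⟨σ, hσ, hσ'⟩ := hω.2 (ε / 40) (by positivity)
  have hρ := hD.pos
  set δ := min ρ (σ / 3) with hδdef
  have hδ : 0 < δ := lt_min hρ (by positivity)
  have hδρ : δ ≤ ρ := min_le_left _ _
  have hδσ : 3 * δ ≤ σ := by
    have := min_le_right ρ (σ / 3)
    linarith
  refine ⟨δ, hδ, ?_⟩
  intro y hy y' hy' hyy
  set c := y - δ • N y with hc
  have hball : ∀ x, ‖x - c‖ < δ → x ∈ D := by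
    intro x hx
    refine hD.int y hy ?_
    rw [mem_ball, dist_eq_norm]
    have e1 : x - (y - ρ • N y) = (x - c) + (ρ - δ) • N y := by
      rw [hc, sub_smul]
      abel
    rw [e1]
    refine (norm_add_le _ _).trans_lt ?_
    rw [norm_smul, hD.unit y hy, mul_one, Real.norm_eq_abs, abs_of_nonneg (sub_nonneg.2 hδρ)]
    linarith
  have hcy : ‖c - y‖ = δ := by
    have e1 : c - y = -(δ • N y) := by
      rw [hc]
      abel
    rw [e1, norm_neg, norm_smul, hD.unit y hy, mul_one, Real.norm_eq_abs, abs_of_pos hδ]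
  have hE : ∀ x, ‖x - c‖ < δ → |(u y + G y (x - y)) - (u y' + G y' (x - y'))| ≤ ε / 8 * δ := by
    intro x hx
    have hxD : x ∈ closure D := subset_closure (hball x hx)
    have h1 : ‖x - y‖ ≤ 2 * δ := by
      have e1 : x - y = (x - c) + (c - y) := by abel
      rw [e1]
      refine (norm_add_le _ _).trans ?_
      linarith
    have h2 : ‖x - y'‖ ≤ 3 * δ := by
      have e1 : x - y' = (x - y) + (y - y') := by abel
      rw [e1]
      refine (norm_add_le _ _).trans ?_
      linarith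
    have h3 := hG y hy x hxD
    have h4 := hG y' hy' x hxD
    have h5 : ω ‖x - y‖ * ‖x - y‖ ≤ ε / 40 * (2 * δ) :=
      mul_le_mul (hσ' _ (norm_nonneg _) (by linarith)) h1 (norm_nonneg _) (by positivity)
    have h6 : ω ‖x - y'‖ * ‖x - y'‖ ≤ ε / 40 * (3 * δ) :=
      mul_le_mul (hσ' _ (norm_nonneg _) (by linarith)) h2 (norm_nonneg _) (by positivity)
    have h7 := abs_le.1 (h3.trans h5)
    have h8 := abs_le.1 (h4.trans h6)
    rw [abs_le]
    constructor <;> linarith [h7.1, h7.2, h8.1, h8.2]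
  refine ContinuousLinearMap.opNorm_le_bound _ hε.le fun e => ?_
  rcases eq_or_ne e 0 with rfl | he
  · simp
  have hne : 0 < ‖e‖ := norm_pos_iff.2 he
  set t := δ / (2 * ‖e‖) with ht
  have ht0 : 0 < t := by positivity
  have hte : t * ‖e‖ = δ / 2 := by
    rw [ht]
    field_simp
  have h1 := hE c (by simpa using hδ)
  have h2 := hE (c + t • e) (by
    rw [add_sub_cancel_left, norm_smul, Real.norm_eq_abs, abs_of_pos ht0, hte]
    linarith)
  have e1 : t * (G y - G y') e = ((u y + G y (c + t • e - y)) - (u y' + G y' (c + t • e - y'))) -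
      ((u y + G y (c - y)) - (u y' + G y' (c - y'))) := by
    have e2 : c + t • e - y = (c - y) + t • e := by abel
    have e3 : c + t • e - y' = (c - y') + t • e := by abel
    rw [e2, e3, map_add, map_add, map_smul, map_smul, sub_apply, smul_eq_mul, smul_eq_mul]
    ring
  have h3 : t * |(G y - G y') e| ≤ ε / 4 * δ := by
    have h6 : t * |(G y - G y') e| = |t * (G y - G y') e| := by
      rw [abs_mul, abs_of_pos ht0]
    rw [h6, e1]
    have h7 := abs_le.1 h1
    have h8 := abs_le.1 h2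
    rw [abs_le]
    constructor <;> linarith [h7.1, h7.2, h8.1, h8.2]
  have h4 : ε / 4 * δ = t * (ε / 2 * ‖e‖) := by
    have : t * (ε / 2 * ‖e‖) = ε / 2 * (t * ‖e‖) := by ring
    rw [this, hte]
    ring
  rw [h4] at h3
  have h5 := le_of_mul_le_mul_left h3 ht0
  rw [Real.norm_eq_abs]
  nlinarith [hne, hε]

end Pool.Agent.Lib.MP_188651_an
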