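import Pool.Agent.Lib.MP_188651_an.CDefs
import Pool.Agent.Lib.MP_188651_an.ExLipInt
import Pool.Agent.Lib.MP_188651_an.ExLapA
import Pool.Agent.Lib.MP_188651_an.ExLapB

/-!
# The gradient near the boundary
-/

open Set Filter Metric Topology InnerProductSpace Laplacian

namespace Pool.Agent.Lib.MP_188651_an

variable {n : ℕ} {ρ Λ : ℝ} {D : Set (EE n)} {N : EE n → EE n} {u : EE n → ℝ} {G : EE n → (EE n →L[ℝ] ℝ)}
  {ω : ℝ → ℝ}

/-- a continuous linear functional on `EE n` is `C²` with vanishing Laplacian -/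
private theorem lap_lin_CGradB (g : EE n →L[ℝ] ℝ) (x : EE n) : (Δ (fun z : EE n => g z)) x = 0 := by
  obtain ⟨a, rfl⟩ := (InnerProductSpace.toDual ℝ (EE n)).surjective g
  have h : (fun z : EE n => (InnerProductSpace.toDual ℝ (EE n) a) z) = fun z => inner ℝ a z := by
    funext z
    rw [InnerProductSpace.toDual_apply_apply]
  rw [h]
  exact (inner_facts a x).2.1

/-- interior points near the boundary -/
theorem grad_near (hD : BD ρ D N) (hω : IsMod ω) (hΛ : 0 ≤ Λ) (hu : ContDiffOn ℝ 2 u D)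
    (hΔ : ∀ x ∈ D, |(Δ u) x| ≤ Λ)
    (hG : ∀ y ∈ frontier D, ∀ x ∈ closure D, |u x - u y - G y (x - y)| ≤ ω ‖x - y‖ * ‖x - y‖) {ε : ℝ} (hε : 0 < ε) :
    ∃ δ > 0, ∀ y ∈ frontier D, ∀ d, 0 < d → d ≤ δ → ball (y - d • N y) d ⊆ D →
      ‖fderiv ℝ u (y - d • N y) - G y‖ ≤ ε := by
  obtain ⟨C, hC, hint⟩ := lip_int n
  obtain ⟨σ, hσ, hσ'⟩ := hω.2 (ε / (4 * C)) (by positivity)
  refine ⟨min (σ / 2) (ε / (2 * C * (Λ + 1))), lt_min (by positivity) (by positivity), ?_⟩
  intro y hy d hd hdδ hball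
  have hd1 : 2 * d ≤ σ := by
    have := hdδ.trans (min_le_left _ _)
    linarith
  have hd2 : C * (Λ * d) ≤ ε / 2 := by
    have h1 := hdδ.trans (min_le_right _ _)
    rw [le_div_iff₀ (by positivity)] at h1
    nlinarith [mul_nonneg hC.le hd.le]
  set x₀ := y - d • N y with hx₀
  have hxy : ‖x₀ - y‖ = d := by
    have e1 : x₀ - y = -(d • N y) := by
      rw [hx₀]
      abel
    rw [e1, norm_neg, norm_smul, hD.unit y hy, mul_one, Real.norm_eq_abs, abs_of_pos hd]
  set m : ℝ := G y y - u y with hm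
  set w : EE n → ℝ := fun z => u z - G y z + m with hw
  have hwx : ∀ z, w z = u z - u y - G y (z - y) := by
    intro z
    simp only [hw, hm, map_sub]
    ring
  have hGs : ContDiff ℝ 2 (fun z : EE n => G y z) := (G y).contDiff
  have hws : ContDiffOn ℝ 2 w (ball x₀ d) :=
    (((hu.mono hball).sub hGs.contDiffOn).add contDiffOn_const)
  have hwA : ∀ x ∈ ball x₀ d, |w x| ≤ ε / (4 * C) * (2 * d) := by
    intro x hx
    rw [hwx]
    have h1 : ‖x - y‖ ≤ 2 * d := by
      have e1 : x - y = (x - x₀) + (x₀ - y) := by abel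
      rw [mem_ball, dist_eq_norm] at hx
      rw [e1]
      refine (norm_add_le _ _).trans ?_
      linarith
    refine (hG y hy x (subset_closure (hball hx))).trans ?_
    exact mul_le_mul (hσ' _ (norm_nonneg _) (by linarith)) h1 (norm_nonneg _) (by positivity)
  have hwB : ∀ x ∈ ball x₀ d, |(Δ w) x| ≤ Λ := by
    intro x hx
    have hux : ContDiffAt ℝ 2 u x := hu.contDiffAt (hD.isOpen.mem_nhds (hball hx))
    have h1 : (Δ w) x = (Δ u) x := by
      rw [hw, lap_add (hux.sub hGs.contDiffAt) contDiffAt_const, lap_sub hux hGs.contDiffAt,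
        lap_lin_CGradB, lap_const]
      ring
    rw [h1]
    exact hΔ x (hball hx)
  have hlip := hint x₀ d (ε / (4 * C) * (2 * d)) Λ w hd (by positivity) hΛ hws hwA hwB
  have hx₀D : x₀ ∈ D := hball (mem_ball_self hd)
  have hder : HasFDerivAt w (fderiv ℝ u x₀ - G y) x₀ := by
    have h1 : HasFDerivAt u (fderiv ℝ u x₀) x₀ :=
      ((hu.contDiffAt (hD.isOpen.mem_nhds hx₀D)).differentiableAt (by norm_num)).hasFDerivAt
    exact (h1.sub (G y).hasFDerivAt).add_const m
  have hfin := hder.le_of_lip' (C := C * (ε / (4 * C) * (2 * d) / d + Λ * d)) (by positivity) (by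
    filter_upwards [ball_mem_nhds x₀ (half_pos hd)] with x hx
    exact hlip x hx x₀ (mem_ball_self (half_pos hd)))
  refine hfin.trans ?_
  have e2 : C * (ε / (4 * C) * (2 * d) / d + Λ * d) = ε / 2 + C * (Λ * d) := by
    field_simp
    ring
  rw [e2]
  linarith

end Pool.Agent.Lib.MP_188651_an
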