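import Pool.Agent.Lib.MP_188651_an.CHarm
import Pool.Agent.Lib.MP_188651_an.CFold
import Pool.Agent.Lib.MP_188651_an.ExGeoB

/-!
# Neumann data of even harmonic functions on the curved boundary
-/

open Set Filter Metric Topology InnerProductSpace Laplacian

namespace Pool.Agent.Lib.MP_188651_an

/-- `r = τ ^ 10`, `η = τ ^ 4` -/
theorem even_neu (n : ℕ) {ρ K : ℝ} (hρ : 0 < ρ) (hK : 0 ≤ K) : ∃ C > 0, ∃ τ₀ > 0, τ₀ ≤ 1 / 2 ∧
    ∀ (D : Set (EE n)) (N : EE n → EE n) (y : EE n) (h : EE n → ℝ) (τ : ℝ), BD ρ D N → y ∈ frontier D →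
      0 < τ → τ ≤ τ₀ → ContDiffOn ℝ 2 h (ball y (τ ^ 10)) → (∀ x ∈ ball y (τ ^ 10), (Δ h) x = 0) →
      (∀ x ∈ ball y (τ ^ 10), h (sg y (N y) x) = h x) → (∀ x ∈ ball y (τ ^ 10), |h x| ≤ K * τ ^ 10) →
      ∀ y' ∈ frontier D, ‖y' - y‖ ≤ (1 - τ ^ 4) * τ ^ 10 → |fderiv ℝ h y' (N y')| ≤ C * τ ^ 2 := by
  obtain ⟨C₀, hC₀, hest⟩ := harm_est n
  refine ⟨2 * C₀ * K / ρ + 1, by positivity, min (1 / 2) (ρ / 4), by positivity,
    min_le_left _ _, ?_⟩
  intro D N y h τ hD hy hτ hτ0 hh hlap heven hb y' hy' hyy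
  have hτ1 : τ ≤ 1 / 2 := hτ0.trans (min_le_left _ _)
  have hτ2 : τ ≤ ρ / 4 := hτ0.trans (min_le_right _ _)
  have hτle1 : τ ≤ 1 := by linarith
  set r : ℝ := τ ^ 10 with hr
  set η : ℝ := τ ^ 4 with hη
  have hr0 : 0 < r := by positivity
  have hη0 : 0 < η := by positivity
  have hη1 : η ≤ 1 := pow_le_one₀ hτ.le hτle1
  have hν : ‖N y‖ = 1 := hD.unit y hy
  set s : ℝ := inner ℝ (y' - y) (N y) with hs
  have hyyr : ‖y' - y‖ ≤ r := by nlinarith
  have hcl : y' ∈ closure D := frontier_subset_closure hy'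
  have hnd : y' ∉ D := by
    rw [hD.isOpen.frontier_eq] at hy'
    exact hy'.2
  have h1 := hD.inner_le hy hcl
  have h2 := hD.inner_ge hy hnd
  rw [← hs] at h1 h2
  have hsq : ‖y' - y‖ ^ 2 ≤ r ^ 2 := pow_le_pow_left₀ (norm_nonneg _) hyyr 2
  have hsabs : |s| ≤ r ^ 2 / (2 * ρ) := by
    rw [le_div_iff₀ (by positivity), ← abs_of_pos (show 0 < 2 * ρ by positivity), ← abs_mul, abs_le]
    constructor <;> nlinarith
  -- the projected point
  set y'' : EE n := y' - s • N y with hy''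
  have e1 : y'' - y = (y' - y) - s • N y := by rw [hy'']; abel
  have hin0 : inner ℝ (y'' - y) (N y) = 0 := by
    rw [e1, inner_sub_left, inner_smul_left, real_inner_self_eq_norm_sq, hν, ← hs]
    simp
  have hnorm : ‖y'' - y‖ ≤ ‖y' - y‖ := by
    have h3 : ‖y'' - y‖ ^ 2 = ‖y' - y‖ ^ 2 - s ^ 2 := by
      rw [e1, norm_sub_sq_real, inner_smul_right, ← hs, norm_smul, hν, Real.norm_eq_abs, mul_one,
        sq_abs]
      ring
    have h4 : ‖y'' - y‖ ^ 2 ≤ ‖y' - y‖ ^ 2 := by rw [h3]; nlinarith [sq_nonneg s]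
    exact le_of_sq_le_sq h4 (norm_nonneg _)
  have hball : ball y'' (η * r) ⊆ ball y r := by
    intro z hz
    rw [mem_ball] at hz ⊢
    have h3 : dist z y ≤ dist z y'' + dist y'' y := dist_triangle _ _ _
    rw [dist_eq_norm y'' y] at h3
    have h4 : dist z y < η * r + (1 - η) * r := by linarith
    calc dist z y < η * r + (1 - η) * r := h4
      _ = r := by ring
  have hηr : 0 < η * r := by positivity
  obtain ⟨g1, g2, -⟩ := hest y'' (η * r) (K * r) h hηr (by positivity) (hh.mono hball)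
    (fun x hx => hlap x (hball hx)) (fun x hx => hb x (hball hx))
  have hd' : ‖y' - y''‖ = |s| := by
    have : y' - y'' = s • N y := by rw [hy'']; abel
    rw [this, norm_smul, hν, mul_one, Real.norm_eq_abs]
  have hslt : |s| < η * r / 4 := by
    refine hsabs.trans_lt ?_
    rw [div_lt_iff₀ (by positivity)]
    have h3 : τ ^ 6 ≤ τ := by
      calc τ ^ 6 = τ ^ 5 * τ := by ring
        _ ≤ 1 * τ := mul_le_mul_of_nonneg_right (pow_le_one₀ hτ.le hτle1) hτ.le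
        _ = τ := one_mul τ
    have h4 : r = η * τ ^ 6 := by rw [hr, hη]; ring
    have h5 : τ ^ 6 < ρ / 2 := by linarith
    have h6 : 0 < η * r := hηr
    calc r ^ 2 = r * (η * τ ^ 6) := by rw [← h4]; ring
      _ = (η * r) * τ ^ 6 := by ring
      _ < (η * r) * (ρ / 2) := mul_lt_mul_of_pos_left h5 h6
      _ = η * r / 4 * (2 * ρ) := by ring
  have hm1 : y' ∈ ball y'' (η * r / 2) := by
    rw [mem_ball, dist_eq_norm, hd']; linarith
  have hm2 : y' ∈ ball y'' (η * r / 4) := by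
    rw [mem_ball, dist_eq_norm, hd']; exact hslt
  have hm3 : y'' ∈ ball y'' (η * r / 4) := mem_ball_self (by positivity)
  have hyb : y'' ∈ ball y r := hball (mem_ball_self hηr)
  have hdiff : DifferentiableAt ℝ h y'' :=
    (hh.contDiffAt (isOpen_ball.mem_nhds hyb)).differentiableAt (by simp)
  have hz : fderiv ℝ h y'' (N y) = 0 := even_fderiv hν heven hyb hdiff hin0
  have hf1 := g1 y' hm1
  have hf2 := g2 y' hm2 y'' hm3
  rw [hd'] at hf2
  have e2 : fderiv ℝ h y' (N y') =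
      (fderiv ℝ h y' - fderiv ℝ h y'') (N y) + fderiv ℝ h y' (N y' - N y) := by
    rw [ContinuousLinearMap.sub_apply, hz, map_sub]
    ring
  rw [e2]
  have hA : |(fderiv ℝ h y' - fderiv ℝ h y'') (N y)| ≤ C₀ * K / (2 * ρ) * τ ^ 2 := by
    have h3 := ContinuousLinearMap.le_opNorm (fderiv ℝ h y' - fderiv ℝ h y'') (N y)
    rw [hν, mul_one, Real.norm_eq_abs] at h3
    refine h3.trans (hf2.trans ?_)
    calc C₀ * (K * r) / (η * r) ^ 2 * |s| ≤ C₀ * (K * r) / (η * r) ^ 2 * (r ^ 2 / (2 * ρ)) :=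
          mul_le_mul_of_nonneg_left hsabs (by positivity)
      _ = C₀ * K / (2 * ρ) * τ ^ 2 := by
          rw [hr, hη]
          field_simp
  have hB : |fderiv ℝ h y' (N y' - N y)| ≤ C₀ * K / ρ * τ ^ 2 := by
    have h3 := ContinuousLinearMap.le_opNorm (fderiv ℝ h y') (N y' - N y)
    rw [Real.norm_eq_abs] at h3
    have h4 : ‖N y' - N y‖ ≤ r / ρ :=
      (hD.N_sub_le hy' hy).trans (div_le_div_of_nonneg_right hyyr hρ.le)
    refine h3.trans ?_
    calc ‖fderiv ℝ h y'‖ * ‖N y' - N y‖ ≤ (C₀ * (K * r) / (η * r)) * (r / ρ) :=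
          mul_le_mul hf1 h4 (norm_nonneg _) (by positivity)
      _ = C₀ * K / ρ * τ ^ 2 * τ ^ 4 := by
          rw [hr, hη]
          field_simp
      _ ≤ C₀ * K / ρ * τ ^ 2 * 1 :=
          mul_le_mul_of_nonneg_left hη1 (by positivity)
      _ = C₀ * K / ρ * τ ^ 2 := mul_one _
  calc |(fderiv ℝ h y' - fderiv ℝ h y'') (N y) + fderiv ℝ h y' (N y' - N y)|
      ≤ C₀ * K / (2 * ρ) * τ ^ 2 + C₀ * K / ρ * τ ^ 2 := (abs_add_le _ _).trans (add_le_add hA hB)
    _ ≤ (2 * C₀ * K / ρ + 1) * τ ^ 2 := by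
        have e3 : C₀ * K / (2 * ρ) = 1 / 2 * (C₀ * K / ρ) := by field_simp
        have e4 : 2 * C₀ * K / ρ = 2 * (C₀ * K / ρ) := by ring
        rw [e3, e4]
        have h5 : 0 ≤ C₀ * K / ρ := by positivity
        nlinarith [sq_nonneg τ, mul_nonneg h5 (sq_nonneg τ)]

end Pool.Agent.Lib.MP_188651_an
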