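import Pool.Agent.Lib.MP_188651_an.CDefs
import Pool.Agent.Lib.MP_188651_an.ExGeo

/-!
# The boundary condition in the viscosity sense
-/

open Set Filter Metric Topology InnerProductSpace Laplacian

namespace Pool.Agent.Lib.MP_188651_an

variable {n : ℕ} {ρ α : ℝ} {D : Set (EE n)} {N : EE n → EE n} {f : ℝ → ℝ} {u : EE n → ℝ}

private theorem cSolB_der {y ν : EE n} {φ : EE n → ℝ} (hφ : DifferentiableAt ℝ φ y) :
    HasDerivWithinAt (fun t : ℝ => φ (y + t • ν)) (fderiv ℝ φ y ν) (Iic 0) 0 := by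
  have h0 : HasDerivAt (fun t : ℝ => y + t • ν) ν 0 := by
    have h1 : HasDerivAt (fun t : ℝ => t • ν) ((1 : ℝ) • ν) 0 :=
      (hasDerivAt_id (0 : ℝ)).smul_const ν
    rw [one_smul] at h1
    exact h1.const_add y
  have e0 : y + (0 : ℝ) • ν = y := by rw [zero_smul, add_zero]
  have h2 : HasFDerivAt φ (fderiv ℝ φ y) (y + (0 : ℝ) • ν) := by
    rw [e0]
    exact hφ.hasFDerivAt
  exact (h2.comp_hasDerivAt (0 : ℝ) h0).hasDerivWithinAt

private theorem cSolB_tendsto (hD : BD ρ D N) {y : EE n} (hy : y ∈ frontier D) :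
    Tendsto (fun t : ℝ => y + t • N y) (𝓝[<] 0) (𝓝[closure D] y) := by
  refine tendsto_nhdsWithin_iff.2 ⟨?_, ?_⟩
  · have h4 : Continuous fun t : ℝ => y + t • N y := by fun_prop
    have h5 := h4.tendsto 0
    rw [zero_smul, add_zero] at h5
    exact h5.mono_left nhdsWithin_le_nhds
  · have h5 : ∀ᶠ t in 𝓝[<] (0 : ℝ), -(2 * ρ) < t :=
      mem_nhdsWithin_of_mem_nhds (Ioi_mem_nhds (by linarith [hD.pos]))
    filter_upwards [self_mem_nhdsWithin, h5] with t ht ht2
    exact subset_closure (mem_normal_seg (hD.unit y hy) (hD.int y hy) ht ht2)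

theorem IsSol.bsub (hD : BD ρ D N) (hα : 0 < α) (hu : IsSol f α D u) : BSub D N α u := by
  rintro y hy φ ⟨hφ, heq, hle⟩
  obtain ⟨u', hder, hbc⟩ := hu.bc y hy (N y) (hD.isOutwardNormal hy)
  have h1 := cSolB_der (ν := N y) (hφ.differentiableAt (by norm_num))
  have h2 := bd_le hder h1 ((cSolB_tendsto hD hy).eventually hle) heq.symm
  have h3 := mul_le_mul_of_nonneg_left h2 hα.le
  linarith

theorem IsSol.bsup (hD : BD ρ D N) (hα : 0 < α) (hu : IsSol f α D u) : BSup D N α u := by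
  rintro y hy φ ⟨hφ, heq, hle⟩
  obtain ⟨u', hder, hbc⟩ := hu.bc y hy (N y) (hD.isOutwardNormal hy)
  have h1 := cSolB_der (ν := N y) (hφ.differentiableAt (by norm_num))
  have h2 := bd_le h1 hder ((cSolB_tendsto hD hy).eventually hle) heq
  have h3 := mul_le_mul_of_nonneg_left h2 hα.le
  linarith

end Pool.Agent.Lib.MP_188651_an
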