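import Pool.Agent.Lib.MP_188651_an.ExGeoB

/-!
# From the expansion to the one-sided derivative
-/

open Set Filter Metric Topology InnerProductSpace Laplacian

namespace Pool.Agent.Lib.MP_188651_an

variable {n : ℕ} {ρ α : ℝ} {D : Set (EE n)} {N : EE n → EE n}

/-- from the expansion to the one-sided derivative -/
theorem NDB.bc (h : BD ρ D N) (hα : 0 < α) {u : EE n → ℝ} {C h₀ : ℝ} (hC : 0 < C) (hh₀ : 0 < h₀)
    (hu : NDB D N α C h₀ u) : ∀ y ∈ frontier D, ∀ ν, IsOutwardNormal D y ν →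
    ∃ u', HasDerivWithinAt (fun t : ℝ => u (y + t • ν)) u' (Iic 0) 0 ∧ u y + α * u' = 0 := by
  intro y hy ν hν
  have hνN : ν = N y := h.unique hy hν
  subst hνN
  refine ⟨-(u y / α), ?_, by field_simp; ring⟩
  rw [hasDerivWithinAt_iff_isLittleO, Asymptotics.isLittleO_iff]
  intro e he
  set k : ℝ := min h₀ (e / (2 * C)) with hk
  have hk0 : 0 < k := lt_min hh₀ (by positivity)
  have hk1 : C * k ≤ e / 2 := by
    have h1 : k ≤ e / (2 * C) := min_le_right _ _
    rw [le_div_iff₀ (by positivity)] at h1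
    linarith
  have hm : 0 < min (k ^ 2) (e * k ^ 2 / (2 * C)) := lt_min (by positivity) (by positivity)
  have hnb : ∀ᶠ t : ℝ in 𝓝[Iic 0] 0, -(min (k ^ 2) (e * k ^ 2 / (2 * C))) < t :=
    (lt_mem_nhds (by linarith)).filter_mono nhdsWithin_le_nhds
  filter_upwards [hnb, self_mem_nhdsWithin] with t ht ht0
  have ht0' : t ≤ 0 := ht0
  have h1 := hu y hy k (-t) hk0 (min_le_left _ _) (by linarith)
    (by have := min_le_left (k ^ 2) (e * k ^ 2 / (2 * C)); linarith)
  have e1 : y - (-t) • N y = y + t • N y := by rw [neg_smul, sub_neg_eq_add]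
  rw [e1] at h1
  have e2 : u (y + t • N y) - u (y + (0 : ℝ) • N y) - (t - 0) • (-(u y / α)) =
      u (y + t • N y) - u y - -t / α * u y := by
    rw [zero_smul, add_zero, sub_zero, smul_eq_mul]
    ring
  show ‖u (y + t • N y) - u (y + (0 : ℝ) • N y) - (t - 0) • (-(u y / α))‖ ≤ e * ‖t - 0‖
  rw [e2, Real.norm_eq_abs, sub_zero, Real.norm_eq_abs, abs_of_nonpos ht0']
  refine h1.trans ?_
  have h2 : -t ≤ e * k ^ 2 / (2 * C) := by
    have := min_le_right (k ^ 2) (e * k ^ 2 / (2 * C))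
    linarith
  have h3 : C / k ^ 2 * (-t) ≤ e / 2 := by
    calc C / k ^ 2 * (-t) ≤ C / k ^ 2 * (e * k ^ 2 / (2 * C)) :=
          mul_le_mul_of_nonneg_left h2 (by positivity)
      _ = e / 2 := by field_simp
  have h4 : C / k ^ 2 * (-t) ^ 2 = (C / k ^ 2 * (-t)) * (-t) := by ring
  rw [h4]
  have h5 : (C / k ^ 2 * (-t)) * (-t) ≤ e / 2 * (-t) :=
    mul_le_mul_of_nonneg_right h3 (by linarith)
  have h6 : C * k * (-t) ≤ e / 2 * (-t) := mul_le_mul_of_nonneg_right hk1 (by linarith)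
  linarith

end Pool.Agent.Lib.MP_188651_an
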