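import Pool.Agent.Lib.MP_188651_an.ExMaxBall

/-!
# Strong minimum principle
-/

open Set Filter Metric Topology InnerProductSpace Laplacian

namespace Pool.Agent.Lib.MP_188651_an

theorem ExStrong_bar {n : ℕ} (a x : EE n) {m K E : ℝ} (hm : 0 ≤ m) (hK : 0 < K)
    (hx : 2 * (n : ℝ) ≤ 4 * K * ‖x - a‖ ^ 2) :
    0 ≤ (Δ (fun y : EE n => m * (Real.exp (-K * ‖y - a‖ ^ 2) - E))) x := by
  obtain ⟨hq1, hq2, hq3⟩ := sq_facts a x
  have hqa : ContDiffAt ℝ 2 (fun y : EE n => ‖y - a‖ ^ 2) x := hq1.contDiffAt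
  have hη : ContDiff ℝ 2 (fun s : ℝ => m * (Real.exp (-K * s) - E)) := by fun_prop
  have hd : ∀ s : ℝ, HasDerivAt (fun s : ℝ => m * (Real.exp (-K * s) - E))
      (m * (Real.exp (-K * s) * (-K))) s := by
    intro s
    have h1 : HasDerivAt (fun s : ℝ => -K * s) (-K) s := by
      simpa using (hasDerivAt_id s).const_mul (-K)
    exact ((h1.exp).sub_const E).const_mul m
  have hd2 : ∀ s : ℝ, HasDerivAt (fun s : ℝ => m * (Real.exp (-K * s) * (-K)))
      (m * (Real.exp (-K * s) * (-K) * (-K))) s := by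
    intro s
    have h1 : HasDerivAt (fun s : ℝ => -K * s) (-K) s := by
      simpa using (hasDerivAt_id s).const_mul (-K)
    exact ((h1.exp).mul_const (-K)).const_mul m
  obtain ⟨-, h2, -⟩ := lap_comp (f := fun y : EE n => ‖y - a‖ ^ 2)
    (η := fun s : ℝ => m * (Real.exp (-K * s) - E)) (η' := fun s : ℝ => m * (Real.exp (-K * s) * (-K)))
    (η'' := m * (Real.exp (-K * ‖x - a‖ ^ 2) * (-K) * (-K))) hqa hη.contDiffAt
    (Eventually.of_forall hd) (hd2 _)
  have h3 : 2 * ‖x - a‖ ≤ ‖fderiv ℝ (fun y : EE n => ‖y - a‖ ^ 2) x‖ := by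
    rcases eq_or_lt_of_le (norm_nonneg (x - a)) with h | h
    · rw [← h]; simp
    · have h4 := (fderiv ℝ (fun y : EE n => ‖y - a‖ ^ 2) x).le_opNorm (x - a)
      rw [hq3, real_inner_self_eq_norm_sq, Real.norm_eq_abs, abs_of_nonneg (by positivity)] at h4
      have h5 : (2 * ‖x - a‖) * ‖x - a‖ ≤ ‖fderiv ℝ (fun y : EE n => ‖y - a‖ ^ 2) x‖ * ‖x - a‖ := by
        calc (2 * ‖x - a‖) * ‖x - a‖ = 2 * ‖x - a‖ ^ 2 := by ring
          _ ≤ _ := h4
      exact le_of_mul_le_mul_right h5 h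
  have h6 : 4 * ‖x - a‖ ^ 2 ≤ ‖fderiv ℝ (fun y : EE n => ‖y - a‖ ^ 2) x‖ ^ 2 := by
    calc 4 * ‖x - a‖ ^ 2 = (2 * ‖x - a‖) ^ 2 := by ring
      _ ≤ _ := pow_le_pow_left₀ (by positivity) h3 2
  rw [h2, hq2]
  have he := Real.exp_pos (-K * ‖x - a‖ ^ 2)
  have h7 : m * (Real.exp (-K * ‖x - a‖ ^ 2) * -K * -K) * ‖fderiv ℝ (fun y : EE n => ‖y - a‖ ^ 2) x‖ ^ 2
      + m * (Real.exp (-K * ‖x - a‖ ^ 2) * -K) * (2 * (n : ℝ)) =
      (m * Real.exp (-K * ‖x - a‖ ^ 2) * K) *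
        (K * ‖fderiv ℝ (fun y : EE n => ‖y - a‖ ^ 2) x‖ ^ 2 - 2 * (n : ℝ)) := by ring
  rw [h7]
  refine mul_nonneg (by positivity) ?_
  nlinarith [mul_le_mul_of_nonneg_left h6 hK.le]

theorem ExStrong_ball {n : ℕ} (hn : 1 ≤ n) {a : EE n} {R : ℝ} (hR : 0 < R) {u : EE n → ℝ}
    {D : Set (EE n)} (hD : IsOpen D) (hb : closedBall a R ⊆ D)
    (hu : ContDiffOn ℝ 2 u D) (h0 : ∀ x ∈ D, 0 ≤ u x) (hΔ : ∀ x ∈ D, (Δ u) x ≤ 0)
    (hpos : 0 < u a) : ∀ x ∈ ball a R, 0 < u x := by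
  have hn' : (1 : ℝ) ≤ n := by exact_mod_cast hn
  have haD : a ∈ D := hb (mem_closedBall_self hR.le)
  have huc : ContinuousOn u D := hu.continuousOn
  have hua : ContinuousAt u a := huc.continuousAt (hD.mem_nhds haD)
  obtain ⟨δ, hδ, hδu⟩ := Metric.eventually_nhds_iff.1 (hua.eventually (lt_mem_nhds (half_lt_self hpos)))
  obtain ⟨r0, hr0, hr0R, hr0δ⟩ : ∃ r0 : ℝ, 0 < r0 ∧ r0 < R ∧ r0 < δ :=
    ⟨min (R / 2) (δ / 2), by positivity, by have := min_le_left (R / 2) (δ / 2); linarith,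
      by have := min_le_right (R / 2) (δ / 2); linarith⟩
  obtain ⟨m, hm⟩ : ∃ m : ℝ, m = u a / 2 := ⟨_, rfl⟩
  have hmpos : 0 < m := by rw [hm]; linarith
  have hum : ∀ x ∈ closedBall a r0, m ≤ u x := by
    intro x hx
    have := hδu (y := x) (lt_of_le_of_lt hx hr0δ)
    rw [hm]; exact this.le
  obtain ⟨K, hK⟩ : ∃ K : ℝ, K = n / (2 * r0 ^ 2) := ⟨_, rfl⟩
  have hKpos : 0 < K := by rw [hK]; positivity
  have hKr : 4 * K * r0 ^ 2 = 2 * n := by rw [hK]; field_simp; ring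
  obtain ⟨E, hE⟩ : ∃ E : ℝ, E = Real.exp (-K * R ^ 2) := ⟨_, rfl⟩
  have hbc : ContDiff ℝ 2 (fun y : EE n => m * (Real.exp (-K * ‖y - a‖ ^ 2) - E)) := by
    have h1 : ContDiff ℝ 2 (fun y : EE n => ‖y - a‖ ^ 2) := (sq_facts a a).1
    exact contDiff_const.mul (((contDiff_const.mul h1).exp).sub contDiff_const)
  obtain ⟨O, hO⟩ : ∃ O : Set (EE n), O = ball a R \ closedBall a r0 := ⟨_, rfl⟩
  have hOo : IsOpen O := by rw [hO]; exact isOpen_ball.sdiff isClosed_closedBall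
  have hOb : O ⊆ ball a R := by rw [hO]; exact diff_subset
  have hclO : closure O ⊆ closedBall a R := closure_minimal (hOb.trans ball_subset_closedBall) isClosed_closedBall
  have hfr : ∀ x ∈ frontier O, x ∈ sphere a R ∨ x ∈ closedBall a r0 := by
    intro x hx
    rw [hOo.frontier_eq] at hx
    rcases lt_or_eq_of_le (mem_closedBall.1 (hclO hx.1)) with h | h
    · right
      by_contra hno
      exact hx.2 (by rw [hO]; exact ⟨h, hno⟩)
    · left; exact h
  have hcmp := comp_bdd hn hOo (isBounded_ball.subset hOb) (M := 0) le_rfl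
    (u := fun y : EE n => m * (Real.exp (-K * ‖y - a‖ ^ 2) - E)) (v := u)
    hbc.continuous.continuousOn (huc.mono (hclO.trans hb)) hbc.contDiffOn
    (hu.mono ((hOb.trans ball_subset_closedBall).trans hb))
    (by
      intro x hx
      have hxO : x ∈ ball a R \ closedBall a r0 := by rw [← hO]; exact hx
      have h1 : r0 < ‖x - a‖ := by
        have := hxO.2
        rw [mem_closedBall, not_le, dist_eq_norm] at this
        exact this
      have h2 : r0 ^ 2 ≤ ‖x - a‖ ^ 2 := pow_le_pow_left₀ hr0.le h1.le 2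
      have h3 := ExStrong_bar a x (E := E) hmpos.le hKpos (by nlinarith)
      have h4 := hΔ x (hb (ball_subset_closedBall hxO.1))
      linarith)
    (by
      intro x hx
      rcases hfr x hx with h | h
      · have h1 : ‖x - a‖ = R := by rw [← dist_eq_norm]; exact h
        simp only [h1]
        rw [hE, sub_self, mul_zero]
        exact h0 x (hb (sphere_subset_closedBall h))
      · refine le_trans ?_ (hum x h)
        have h1 : Real.exp (-K * ‖x - a‖ ^ 2) ≤ 1 := by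
          rw [Real.exp_le_one_iff]
          have : 0 ≤ K * ‖x - a‖ ^ 2 := by positivity
          linarith
        have h2 : 0 < E := by rw [hE]; exact Real.exp_pos _
        have h3 : Real.exp (-K * ‖x - a‖ ^ 2) - E ≤ 1 := by linarith
        calc m * (Real.exp (-K * ‖x - a‖ ^ 2) - E) ≤ m * 1 := mul_le_mul_of_nonneg_left h3 hmpos.le
          _ = m := mul_one m)
  intro x hx
  by_cases hxr : x ∈ closedBall a r0
  · exact lt_of_lt_of_le hmpos (hum x hxr)
  · have hxO : x ∈ O := by rw [hO]; exact ⟨hx, hxr⟩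
    have h1 : m * (Real.exp (-K * ‖x - a‖ ^ 2) - E) ≤ u x := hcmp x (subset_closure hxO)
    refine lt_of_lt_of_le ?_ h1
    refine mul_pos hmpos (sub_pos.2 ?_)
    rw [hE]
    refine Real.exp_lt_exp.2 ?_
    have h2 : ‖x - a‖ < R := by rw [← dist_eq_norm]; exact hx
    have h3 : ‖x - a‖ ^ 2 < R ^ 2 := pow_lt_pow_left₀ h2 (norm_nonneg _) (by norm_num)
    nlinarith

theorem strong_min {n : ℕ} (hn : 1 ≤ n) {D : Set (EE n)} (hD : IsOpen D) (hc : IsPreconnected D) {u : EE n → ℝ}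
    (hu : ContDiffOn ℝ 2 u D) (h0 : ∀ x ∈ D, 0 ≤ u x) (hΔ : ∀ x ∈ D, (Δ u) x ≤ 0) {x0 : EE n} (hx0 : x0 ∈ D)
    (hpos : 0 < u x0) : ∀ x ∈ D, 0 < u x := by
  have huc : ContinuousOn u D := hu.continuousOn
  have hPo : IsOpen (D ∩ u ⁻¹' Ioi 0) := huc.isOpen_inter_preimage hD isOpen_Ioi
  have hsub : D ⊆ D ∩ u ⁻¹' Ioi 0 := by
    refine hc.subset_of_closure_inter_subset hPo ⟨x0, hx0, hx0, hpos⟩ ?_
    rintro x ⟨hxc, hxD⟩
    refine ⟨hxD, ?_⟩
    obtain ⟨ε, hε, hεD⟩ := Metric.isOpen_iff.1 hD x hxD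
    obtain ⟨a, haP, hax⟩ := Metric.mem_closure_iff.1 hxc (ε / 4) (by positivity)
    have hb : closedBall a (ε / 2) ⊆ D := by
      intro y hy
      refine hεD ?_
      rw [mem_ball]
      have h1 : dist y a ≤ ε / 2 := hy
      have h2 : dist a x = dist x a := dist_comm _ _
      have h3 := dist_triangle y a x
      linarith
    have h4 := ExStrong_ball hn (a := a) (R := ε / 2) (by positivity) hD hb hu h0 hΔ haP.2
    exact h4 x (by rw [mem_ball]; linarith)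
  exact fun x hx => (hsub hx).2

end Pool.Agent.Lib.MP_188651_an
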