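import Pool.Agent.Lib.MP_188651_an.Defs

open Set Filter Metric Topology InnerProductSpace Laplacian
open scoped Pointwise

namespace Pool.Agent.Lib.MP_188651_an

variable {n : ℕ} {ρ : ℝ} {D : Set (EE n)}

private lemma smul_ball_aux {κ : ℝ} (hκ : 0 < κ) (x : EE n) (r : ℝ) :
    κ • ball x r = ball (κ • x) (κ * r) := by
  rw [_root_.smul_ball hκ.ne', Real.norm_of_nonneg hκ.le]

theorem BallDomain.smul {κ : ℝ} (hκ : 0 < κ) (h : BallDomain ρ D) : BallDomain (κ * ρ) (κ • D) := by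
  refine ⟨h.isOpen.smul₀ hκ.ne', ?_⟩
  intro y hy
  have h1 : y ∈ κ • frontier D := by
    have h2 : frontier (κ • D) = κ • frontier D := by
      have := (Homeomorph.smulOfNeZero κ hκ.ne' (α := EE n)).image_frontier D
      exact this.symm
    rwa [h2] at hy
  obtain ⟨y0, hy0, rfl⟩ := h1
  obtain ⟨ν, hν, hν1, hν2⟩ := h.normal y0 hy0
  refine ⟨ν, hν, ?_, ?_⟩
  · have h3 : (fun x => κ • x) y0 - (κ * ρ) • ν = κ • (y0 - ρ • ν) := by
      rw [smul_sub, smul_smul]
    rw [h3, ← smul_ball_aux hκ]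
    exact smul_set_mono hν1
  · have h3 : (fun x => κ • x) y0 + (κ * ρ) • ν = κ • (y0 + ρ • ν) := by
      rw [smul_add, smul_smul]
    rw [h3, ← smul_ball_aux hκ]
    rw [Set.disjoint_left]
    rintro z ⟨a, ha, rfl⟩ ⟨b, hb, hab⟩
    have h4 : b = a := smul_right_injective _ hκ.ne' hab
    rw [h4] at hb
    exact Set.disjoint_left.mp hν2 ha hb

theorem BallDomain.mono {ρ' : ℝ} (hρ : 0 < ρ') (h : ρ' ≤ ρ) (hD : BallDomain ρ D) : BallDomain ρ' D := by
  refine ⟨hD.isOpen, ?_⟩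
  intro y hy
  obtain ⟨ν, hν, hν1, hν2⟩ := hD.normal y hy
  refine ⟨ν, hν, ?_, ?_⟩
  · refine subset_trans ?_ hν1
    apply ball_subset_ball'
    rw [dist_eq_norm]
    have h1 : y - ρ' • ν - (y - ρ • ν) = (ρ - ρ') • ν := by
      rw [sub_smul]; abel
    rw [h1, norm_smul, hν, mul_one, Real.norm_of_nonneg (by linarith)]
    linarith
  · refine Set.disjoint_of_subset_left ?_ hν2
    apply ball_subset_ball'
    rw [dist_eq_norm]
    have h1 : y + ρ' • ν - (y + ρ • ν) = -((ρ - ρ') • ν) := by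
      rw [sub_smul]; abel
    rw [h1, norm_neg, norm_smul, hν, mul_one, Real.norm_of_nonneg (by linarith)]
    linarith

end Pool.Agent.Lib.MP_188651_an
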