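import Pool.Agent.Lib.MP_188651_an.CloseA

open Set Filter Metric Topology InnerProductSpace Laplacian
open scoped Pointwise

namespace Pool.Agent.Lib.MP_188651_an

variable {f : ℝ → ℝ}

/-- The boundary value of the lower profile. -/
theorem low_cond (hf : IsPositiveReaction f) {η η₂ c b a θ δ α : ℝ} {G T : ℝ → ℝ} (hη : 0 < η) (hη1 : η ≤ 1)
    (h2 : 0 < η₂) (h2' : η₂ < 1) (hc : 0 < c) (hc' : c ≤ FF f 1 - FF f (1 - η₂))
    (hb : 1 - η₂ < b) (hP : Profile f (-η) b G T)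
    (hG : ∀ s ∈ Ico 0 b, G s ≤ Gp f η s ∧ Gp f η s ^ 2 - G s ^ 2 ≤ 6 * η)
    (ha : a ∈ Icc 0 (1 - η₂)) (haα : a = α * Gp f η a) (hθ : 0 < θ) (hδ : 0 ≤ δ) (hδ1 : δ < 1)
    (h6 : 6 * η / (2 * c) ≤ θ * √(2 * c) / (4 * Gm f)) (h7 : δ * Gm f / √(2 * c) ≤ θ * √(2 * c) / (4 * Gm f)) :
    ∀ s ∈ Ico 0 (max 0 (a - θ)), s < α * (1 - δ) * G s := by
  intro s hs
  have hs0 := hs.1
  have hsa : s < a - θ := by
    rcases lt_max_iff.1 hs.2 with h | h
    · exact absurd h (not_lt.2 hs0)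
    · exact h
  have hsb : s ∈ Ico 0 b := ⟨hs0, by linarith [ha.2]⟩
  have hs1 : s ∈ Icc (0 : ℝ) 1 := ⟨hs0, by linarith [ha.2]⟩
  have ha1 : a ∈ Icc (0 : ℝ) 1 := ⟨ha.1, by linarith [ha.2]⟩
  have hsq : 0 < √(2 * c) := Real.sqrt_pos.2 (by positivity)
  have hga := Gp_pos hf hη a
  have hgs := Gp_pos hf hη s
  have hGs := hP.Gpos s hsb
  obtain ⟨h1, h1'⟩ := hG s hsb
  have hga' : √(2 * c) ≤ Gp f η a := Gp_ge_sqrt hf hη h2'.le h2.le hc' ha
  have hgs' : √(2 * c) ≤ Gp f η s := Gp_ge_sqrt hf hη h2'.le h2.le hc' ⟨hs0, by linarith [ha.2]⟩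
  have hGm : Gp f η s ≤ Gm f := Gp_le_Gm hf hη hη1 hs1
  have hGmpos : 0 < Gm f := hgs.trans_le hGm
  have hanti : Gp f η a ≤ Gp f η s := Gp_anti hf hη hs1 ha1 (by linarith)
  have hapos : 0 < a := by linarith
  have hαpos : 0 < α := by
    by_contra hneg
    push Not at hneg
    have : α * Gp f η a ≤ 0 := mul_nonpos_of_nonpos_of_nonneg hneg hga.le
    linarith
  have hα1 : α * √(2 * c) ≤ 1 := by
    have : α * √(2 * c) ≤ α * Gp f η a := mul_le_mul_of_nonneg_left hga' hαpos.le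
    linarith [ha1.2]
  have hα2 : α ≤ 1 / √(2 * c) := by
    rw [le_div_iff₀ hsq]; exact hα1
  -- main estimate
  have e1 : a ≤ α * Gp f η s := by
    have := mul_le_mul_of_nonneg_left hanti hαpos.le
    linarith
  have e2 : (Gp f η s - G s) * √(2 * c) ≤ 6 * η := by
    have : (Gp f η s - G s) * √(2 * c) ≤ (Gp f η s - G s) * (Gp f η s + G s) :=
      mul_le_mul_of_nonneg_left (by linarith) (by linarith)
    nlinarith
  have hs2 : √(2 * c) * √(2 * c) = 2 * c := Real.mul_self_sqrt (by positivity)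
  have e3 : α * (Gp f η s - G s) ≤ 6 * η / (2 * c) := by
    rw [le_div_iff₀ (by positivity), ← hs2]
    calc α * (Gp f η s - G s) * (√(2 * c) * √(2 * c))
        = (α * √(2 * c)) * ((Gp f η s - G s) * √(2 * c)) := by ring
      _ ≤ 1 * (6 * η) := mul_le_mul hα1 e2 (mul_nonneg (by linarith) hsq.le) zero_le_one
      _ = 6 * η := one_mul _
  have e4 : α * δ * G s ≤ δ * Gm f / √(2 * c) := by
    rw [le_div_iff₀ hsq]
    calc α * δ * G s * √(2 * c) = (α * √(2 * c)) * (δ * G s) := by ring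
      _ ≤ 1 * (δ * Gm f) := mul_le_mul hα1 (mul_le_mul_of_nonneg_left (h1.trans hGm) hδ)
          (mul_nonneg hδ hGs.le) zero_le_one
      _ = δ * Gm f := one_mul _
  have e5 : θ * √(2 * c) / (4 * Gm f) ≤ θ / 4 := by
    rw [div_le_div_iff₀ (by positivity) (by norm_num)]
    nlinarith [mul_le_mul_of_nonneg_left (hgs'.trans hGm) hθ.le]
  have e6 : α * (1 - δ) * G s = α * Gp f η s - α * (Gp f η s - G s) - α * δ * G s := by ring
  rw [e6]
  linarith

/-- `a = α G(a)` is solvable for `α` below the threshold. -/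
theorem exists_a (hf : IsPositiveReaction f) {η η₂ α : ℝ} (hη : 0 < η) (h2 : 0 < η₂) (h2' : η₂ < 1)
    (hα : 0 < α) (hα' : α < (1 - η₂) / Gp f η (1 - η₂)) : ∃ a ∈ Ioo 0 (1 - η₂), a = α * Gp f η a := by
  have hcont : ContinuousOn (fun s => s - α * Gp f η s) (Icc 0 (1 - η₂)) :=
    (continuous_id.sub (continuous_const.mul (Gp_continuous hf η))).continuousOn
  have h := intermediate_value_Ioo (by linarith : (0 : ℝ) ≤ 1 - η₂) hcont
  have h0 : (0 : ℝ) ∈ Ioo (0 - α * Gp f η 0) ((1 - η₂) - α * Gp f η (1 - η₂)) := by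
    constructor
    · have := mul_pos hα (Gp_pos hf hη 0)
      linarith
    · rw [lt_div_iff₀ (Gp_pos hf hη _)] at hα'
      linarith
  obtain ⟨a, ha, haeq⟩ := h h0
  exact ⟨a, ha, by simp only at haeq; linarith⟩

end Pool.Agent.Lib.MP_188651_an
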