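import Pool.Agent.Lib.MP_188651_an.Defs

open Set Filter Metric Topology InnerProductSpace Laplacian
open scoped Pointwise

namespace Pool.Agent.Lib.MP_188651_an

variable {n : ℕ}

theorem exists_max_sub {S : Set (EE n)} (hS : IsClosed S) (hne : S.Nonempty) {φ ψ : EE n → ℝ}
    (hφ : ContinuousOn φ S) (hb : ∃ C, ∀ x ∈ S, φ x ≤ C) (hψ : Continuous ψ)
    (hψt : Tendsto ψ (cocompact (EE n)) atTop) : ∃ x ∈ S, ∀ y ∈ S, φ y - ψ y ≤ φ x - ψ x := by
  obtain ⟨x0, hx0⟩ := hne
  obtain ⟨C, hC⟩ := hb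
  have hc : ∀ᶠ y in cocompact (EE n) ⊓ 𝓟 S, (fun y => φ y - ψ y) y ≤ (fun y => φ y - ψ y) x0 := by
    rw [eventually_inf_principal]
    filter_upwards [hψt.eventually_gt_atTop (C - φ x0 + ψ x0)] with y hy hyS
    have := hC y hyS
    change φ y - ψ y ≤ φ x0 - ψ x0
    linarith
  obtain ⟨x, hx, hmax⟩ := (hφ.sub hψ.continuousOn).exists_isMaxOn' hS hx0 hc
  exact ⟨x, hx, fun y hy => hmax hy⟩

theorem tendsto_norm_sub (c : EE n) : Tendsto (fun x : EE n => ‖x - c‖) (cocompact (EE n)) atTop :=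
  tendsto_atTop_mono (fun x => norm_sub_norm_le x c)
    (tendsto_atTop_add_const_right _ (-‖c‖) (tendsto_norm_cocompact_atTop (E := EE n)))

theorem continuous_hh : Continuous (hh : EE n → ℝ) := by
  unfold hh
  fun_prop

theorem tendsto_hh {ε : ℝ} (hε : 0 < ε) :
    Tendsto (fun x : EE n => ε * hh x) (cocompact (EE n)) atTop := by
  refine Tendsto.const_mul_atTop hε ?_
  refine tendsto_atTop_mono (fun x => ?_) (tendsto_norm_cocompact_atTop (E := EE n))
  unfold hh
  exact Real.le_sqrt_of_sq_le (by linarith)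

theorem hh_pos (x : EE n) : 0 < hh x := by
  unfold hh
  exact Real.sqrt_pos.2 (by positivity)

end Pool.Agent.Lib.MP_188651_an
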