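import Pool.Agent.Lib.MP_188651_an.JetA
import Pool.Agent.Lib.MP_188651_an.JetB
import Pool.Agent.Lib.MP_188651_an.JetC
import Pool.Agent.Lib.MP_188651_an.Cpt
import Pool.Agent.Lib.MP_188651_an.Bd
import Pool.Agent.Lib.MP_188651_an.Nearest

open Set Filter Metric Topology InnerProductSpace Laplacian
open scoped Pointwise

namespace Pool.Agent.Lib.MP_188651_an

variable {n : ℕ} {α ρ : ℝ} {D : Set (EE n)} {w : EE n → ℝ}

private theorem sum_mul_le_CompP {a b : Fin n → ℝ} (ha : ∑ i, a i ^ 2 ≤ 1) (hb : ∑ i, b i ^ 2 ≤ 1) :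
    |∑ i, a i * b i| ≤ 1 := by
  rw [abs_le]
  constructor
  · have h1 : 0 ≤ ∑ i, (a i + b i) ^ 2 := Finset.sum_nonneg fun i _ => sq_nonneg _
    have h2 : ∑ i, (a i + b i) ^ 2 = ∑ i, a i ^ 2 + 2 * ∑ i, a i * b i + ∑ i, b i ^ 2 := by
      rw [Finset.mul_sum, ← Finset.sum_add_distrib, ← Finset.sum_add_distrib]
      exact Finset.sum_congr rfl fun i _ => by ring
    linarith
  · have h1 : 0 ≤ ∑ i, (a i - b i) ^ 2 := Finset.sum_nonneg fun i _ => sq_nonneg _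
    have h2 : ∑ i, (a i - b i) ^ 2 = ∑ i, a i ^ 2 - 2 * ∑ i, a i * b i + ∑ i, b i ^ 2 := by
      rw [Finset.mul_sum, ← Finset.sum_sub_distrib, ← Finset.sum_add_distrib]
      exact Finset.sum_congr rfl fun i _ => by ring
    linarith

/-- far from the boundary -/
private theorem far_CompP (hDo : IsOpen D) (hw : ContDiffOn ℝ 2 w D) {x₀ : EE n} (hx₀ : x₀ ∈ D)
    {κ m ε : ℝ} (hκ : 0 < κ) (hε : 0 < ε)
    (hle : ∀ᶠ x in 𝓝 x₀, w x ≤ κ * (m + ε * hh x)) (heq : w x₀ = κ * (m + ε * hh x₀)) :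
    (Δ w) x₀ ≤ κ * (ε * n) := by
  obtain ⟨g, hg⟩ := jet_of_contDiffAt ((hw x₀ hx₀).contDiffAt (hDo.mem_nhds hx₀))
  obtain ⟨gh, Lh, hh1, -, hh3⟩ := jet_hh x₀
  have h1 := hg.sub (((jet_const (x := x₀) m).add (hh1.const_mul ε)).const_mul κ)
  have h2 : IsLocalMax (fun y => w y - κ * (m + ε * hh y)) x₀ := by
    filter_upwards [hle] with y hy
    rw [heq, sub_self]
    linarith
  have h3 := (h1.of_isLocalMax h2).2
  have h4 : κ * (ε * Lh) ≤ κ * (ε * n) :=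
    mul_le_mul_of_nonneg_left (mul_le_mul_of_nonneg_left ((le_abs_self _).trans hh3) hε.le) hκ.le
  rw [zero_add] at h3
  linarith

/-- near the boundary -/
private theorem near_CompP (hn : 1 ≤ n) (hρ : 0 < ρ) (hDo : IsOpen D) (hne : (frontier D).Nonempty)
    (hw : ContDiffOn ℝ 2 w D) {x₀ y ν : EE n} (hx₀ : x₀ ∈ D) {d₀ : ℝ} (hd₀ : 0 < d₀)
    (hd₀ρ : 2 * d₀ ≤ ρ) (hd : infDist x₀ (frontier D) = d₀) (hν : ‖ν‖ = 1)
    (hI : ball (y - ρ • ν) ρ ⊆ D) (hE : Disjoint (ball (y + ρ • ν) ρ) D) (hxy : x₀ = y - d₀ • ν)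
    {m ε Λ p2 : ℝ} {Ψ Ψ' : ℝ → ℝ} (hε : 0 < ε) (hm : 0 < m)
    (hΨ1 : ∀ᶠ z in 𝓝 d₀, HasDerivAt Ψ (Ψ' z) z) (hΨ2 : HasDerivAt Ψ' p2 d₀) (hΨ3 : |Ψ' d₀| < Λ)
    (hΨ4 : 0 < Ψ d₀)
    (hle : ∀ᶠ x in 𝓝 x₀, w x ≤ Ψ (infDist x (frontier D)) * (m + ε * hh x))
    (heq : w x₀ = Ψ d₀ * (m + ε * hh x₀)) :
    (Δ w) x₀ ≤ Ψ d₀ * (ε * n) + 6 * Λ * ε + (m + ε * hh x₀) * (p2 + 4 * n * Λ / ρ) := by
  have hΛ : 0 < Λ := (abs_nonneg _).trans_lt hΨ3
  have hn' : (1 : ℝ) ≤ n := by exact_mod_cast hn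
  set cE := y + ρ • ν with hcE
  set cI := y - ρ • ν with hcI
  have e1 : x₀ - cE = -((ρ + d₀) • ν) := by
    rw [hxy, hcE]; module
  have e2 : x₀ - cI = (ρ - d₀) • ν := by
    rw [hxy, hcI]; module
  have hρd : 0 < ρ - d₀ := by linarith
  have n1 : ‖x₀ - cE‖ = ρ + d₀ := by
    rw [e1, norm_neg, norm_smul, hν, mul_one, Real.norm_eq_abs, abs_of_pos (by linarith)]
  have n2 : ‖x₀ - cI‖ = ρ - d₀ := by
    rw [e2, norm_smul, hν, mul_one, Real.norm_eq_abs, abs_of_pos hρd]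
  have hxE : x₀ ≠ cE := by
    intro h
    rw [h, sub_self, norm_zero] at n1
    linarith
  have hxI : x₀ ≠ cI := by
    intro h
    rw [h, sub_self, norm_zero] at n2
    linarith
  -- the two distance functions
  set dE : EE n → ℝ := fun x => ‖x - cE‖ - ρ with hdE
  set dI : EE n → ℝ := fun x => ρ - ‖x - cI‖ with hdI
  have hdE0 : dE x₀ = d₀ := by rw [hdE]; simp only; rw [n1]; ring
  have hdI0 : dI x₀ = d₀ := by rw [hdI]; simp only; rw [n2]; ring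
  have hdEc : Continuous dE := by fun_prop
  have hdc : Continuous fun x : EE n => infDist x (frontier D) := continuous_infDist_pt _
  -- the comparison of values
  have hΛ' : ∀ᶠ z in 𝓝 d₀, |Ψ' z| < Λ :=
    (hΨ2.continuousAt.abs).eventually_lt continuousAt_const hΨ3
  obtain ⟨δ, hδ, hball⟩ := Metric.eventually_nhds_iff_ball.1 (hΨ1.and hΛ')
  have hlip : ∀ s ∈ ball d₀ δ, ∀ t ∈ ball d₀ δ, |Ψ s - Ψ t| ≤ Λ * |s - t| := by
    intro s hs t ht
    have := (convex_ball d₀ δ).norm_image_sub_le_of_norm_hasDerivWithin_le (f := Ψ) (f' := Ψ')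
      (C := Λ) (fun z hz => ((hball z hz).1).hasDerivWithinAt)
      (fun z hz => by rw [Real.norm_eq_abs]; exact (hball z hz).2.le) ht hs
    simpa only [Real.norm_eq_abs] using this
  have ev1 : ∀ᶠ x in 𝓝 x₀, dE x ∈ ball d₀ δ := by
    have := hdEc.continuousAt (x := x₀)
    rw [ContinuousAt, hdE0] at this
    exact this (ball_mem_nhds _ hδ)
  have ev2 : ∀ᶠ x in 𝓝 x₀, infDist x (frontier D) ∈ ball d₀ δ := by
    have := hdc.continuousAt (x := x₀)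
    rw [ContinuousAt, hd] at this
    exact this (ball_mem_nhds _ hδ)
  have hhpos : ∀ x : EE n, 0 < m + ε * hh x := fun x => by
    have := hh_pos x
    positivity
  have hmaj : ∀ᶠ x in 𝓝 x₀, w x ≤ (Ψ (dE x) + Λ * (dE x - dI x)) * (m + ε * hh x) := by
    filter_upwards [hle, ev1, ev2, hDo.mem_nhds hx₀] with x h1 h2 h3 h4
    refine h1.trans (mul_le_mul_of_nonneg_right ?_ (hhpos x).le)
    have h5 : infDist x (frontier D) ≤ dE x := infDist_le_ext hρ hE (subset_closure h4)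
    have h6 : dI x ≤ infDist x (frontier D) := int_le_infDist hI hne
    have h7 := hlip _ h3 _ h2
    have h8 : Ψ (infDist x (frontier D)) - Ψ (dE x) ≤ Λ * |infDist x (frontier D) - dE x| :=
      (le_abs_self _).trans h7
    rw [abs_of_nonpos (by linarith)] at h8
    have h9 : Λ * -(infDist x (frontier D) - dE x) ≤ Λ * (dE x - dI x) :=
      mul_le_mul_of_nonneg_left (by linarith) hΛ.le
    linarith
  -- jets
  obtain ⟨g, hg⟩ := jet_of_contDiffAt ((hw x₀ hx₀).contDiffAt (hDo.mem_nhds hx₀))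
  obtain ⟨gh, Lh, hh1, hh2, hh3⟩ := jet_hh x₀
  have jE : Jet dE x₀ (fun i => (x₀ i - cE i) / ‖x₀ - cE‖ - 0) ((n - 1) / ‖x₀ - cE‖ - 0) :=
    (jet_norm_sub hxE).sub (jet_const ρ)
  have jI : Jet dI x₀ (fun i => 0 - (x₀ i - cI i) / ‖x₀ - cI‖) (0 - (n - 1) / ‖x₀ - cI‖) :=
    (jet_const ρ).sub (jet_norm_sub hxI)
  have jP := jE.comp (T := Ψ) (T1 := Ψ') (T2 := p2) (by rw [hdE0]; exact hΨ1)
    (by rw [hdE0]; exact hΨ2)
  have jQ := jP.add ((jE.sub jI).const_mul Λ)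
  have jH := (jet_const (x := x₀) m).add (hh1.const_mul ε)
  have jB := jQ.mul jH
  have hmax : IsLocalMax
      (fun x => w x - (Ψ (dE x) + Λ * (dE x - dI x)) * (m + ε * hh x)) x₀ := by
    filter_upwards [hmaj] with x hx
    rw [hdE0, hdI0, heq]
    have : Ψ d₀ * (m + ε * hh x₀) - (Ψ d₀ + Λ * (d₀ - d₀)) * (m + ε * hh x₀) = 0 := by ring
    rw [this]
    linarith
  have hL := ((hg.sub jB).of_isLocalMax hmax).2
  have sE := sum_sq_norm_sub hxE
  have sI := sum_sq_norm_sub hxI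
  rw [hdE0, hdI0, n1, n2] at hL
  rw [n1] at sE
  rw [n2] at sI
  set gE : Fin n → ℝ := fun i => (x₀ i - cE i) / (ρ + d₀) with hgE
  set gI : Fin n → ℝ := fun i => (x₀ i - cI i) / (ρ - d₀) with hgI
  have sE' : ∑ i, gE i ^ 2 = 1 := sE
  have sI' : ∑ i, gI i ^ 2 = 1 := sI
  have cE' := sum_mul_le_CompP (a := gE) (b := gh) sE'.le hh2
  have cI' := sum_mul_le_CompP (a := gI) (b := gh) sI'.le hh2
  -- the cross term
  have hcross : ∑ i, (Ψ' d₀ * (gE i - 0) + Λ * ((gE i - 0) - (0 - gI i))) * (0 + ε * gh i) ≤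
      3 * Λ * ε := by
    have h1 : ∑ i, (Ψ' d₀ * (gE i - 0) + Λ * ((gE i - 0) - (0 - gI i))) * (0 + ε * gh i) =
        ε * ((Ψ' d₀ + Λ) * (∑ i, gE i * gh i) + Λ * ∑ i, gI i * gh i) := by
      rw [Finset.mul_sum, Finset.mul_sum, ← Finset.sum_add_distrib, Finset.mul_sum]
      exact Finset.sum_congr rfl fun i _ => by ring
    rw [h1]
    have h2 := abs_lt.1 hΨ3
    have h3 := abs_le.1 cE'
    have h4 := abs_le.1 cI'
    have h5 : (Ψ' d₀ + Λ) * (∑ i, gE i * gh i) ≤ 2 * Λ := by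
      calc (Ψ' d₀ + Λ) * (∑ i, gE i * gh i) ≤ (Ψ' d₀ + Λ) * 1 :=
            mul_le_mul_of_nonneg_left h3.2 (by linarith)
        _ ≤ 2 * Λ := by linarith
    have h6 : Λ * ∑ i, gI i * gh i ≤ Λ * 1 := mul_le_mul_of_nonneg_left h4.2 hΛ.le
    calc ε * ((Ψ' d₀ + Λ) * (∑ i, gE i * gh i) + Λ * ∑ i, gI i * gh i) ≤ ε * (3 * Λ) :=
          mul_le_mul_of_nonneg_left (by linarith) hε.le
      _ = 3 * Λ * ε := by ring
  have hsq : ∑ i, (gE i - 0) ^ 2 = 1 := by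
    rw [← sE']
    exact Finset.sum_congr rfl fun i _ => by ring
  -- the Laplacian of the first factor
  have hq1 : ((n : ℝ) - 1) / (ρ + d₀) ≤ n / ρ := by
    rw [div_le_div_iff₀ (by linarith) hρ]
    nlinarith
  have hq1' : 0 ≤ ((n : ℝ) - 1) / (ρ + d₀) := div_nonneg (by linarith) (by linarith)
  have hq2 : ((n : ℝ) - 1) / (ρ - d₀) ≤ 2 * n / ρ := by
    rw [div_le_div_iff₀ hρd hρ]
    nlinarith
  have hq3 : Ψ' d₀ * (((n : ℝ) - 1) / (ρ + d₀) - 0) ≤ Λ * (n / ρ) := by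
    rw [sub_zero]
    calc Ψ' d₀ * (((n : ℝ) - 1) / (ρ + d₀)) ≤ Λ * (((n : ℝ) - 1) / (ρ + d₀)) :=
          mul_le_mul_of_nonneg_right ((le_abs_self _).trans hΨ3.le) hq1'
      _ ≤ Λ * (n / ρ) := mul_le_mul_of_nonneg_left hq1 hΛ.le
  have hq4 : Λ * (((n : ℝ) - 1) / (ρ + d₀) - 0 - (0 - ((n : ℝ) - 1) / (ρ - d₀))) ≤
      Λ * (n / ρ + 2 * n / ρ) :=
    mul_le_mul_of_nonneg_left (by linarith) hΛ.le
  have hLQ : p2 * ∑ i, (gE i - 0) ^ 2 + Ψ' d₀ * (((n : ℝ) - 1) / (ρ + d₀) - 0) +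
      Λ * (((n : ℝ) - 1) / (ρ + d₀) - 0 - (0 - ((n : ℝ) - 1) / (ρ - d₀))) ≤
      p2 + 4 * n * Λ / ρ := by
    rw [hsq, mul_one]
    have h1 : 4 * n * Λ / ρ = Λ * (n / ρ) + Λ * (n / ρ + 2 * n / ρ) := by ring
    rw [h1]
    linarith
  have hH := mul_le_mul_of_nonneg_left hLQ (hhpos x₀).le
  have hfirst : (Ψ d₀ + Λ * (d₀ - d₀)) * (0 + ε * Lh) ≤ Ψ d₀ * (ε * n) := by
    have h1 : (Ψ d₀ + Λ * (d₀ - d₀)) * (0 + ε * Lh) = Ψ d₀ * (ε * Lh) := by ring
    rw [h1]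
    exact mul_le_mul_of_nonneg_left
      (mul_le_mul_of_nonneg_left ((le_abs_self _).trans hh3) hε.le) hΨ4.le
  linarith

/-- at the boundary -/
private theorem bdry_CompP (hρ : 0 < ρ) (hα : 0 < α) (hne : (frontier D).Nonempty) {y ν : EE n}
    (hν : ‖ν‖ = 1) (hI : ball (y - ρ • ν) ρ ⊆ D) (hE : Disjoint (ball (y + ρ • ν) ρ) D)
    {w' m ε κ X : ℝ} {Ψ Ψ' : ℝ → ℝ} (hX : 0 < X)
    (hw' : HasDerivWithinAt (fun t : ℝ => w (y + t • ν)) w' (Iic 0) 0) (hbc : w y + α * w' = 0)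
    (hε : 0 < ε) (hm : 0 < m) (hΨ1 : HasDerivAt Ψ (Ψ' 0) 0) (hΨ0 : 0 < Ψ 0)
    (hle : ∀ x ∈ D, w x ≤ min (Ψ (min (infDist x (frontier D)) X)) κ * (m + ε * hh x))
    (heq : w y = Ψ 0 * (m + ε * hh y)) :
    (m + ε * hh y) * (Ψ 0 - α * Ψ' 0) ≤ α * ε * Ψ 0 := by
  set cE := y + ρ • ν with hcE
  have hhpos : ∀ x : EE n, 0 < m + ε * hh x := fun x => by
    have := hh_pos x
    positivity
  have e1 : y - cE = -(ρ • ν) := by rw [hcE]; module
  have n1 : ‖y - cE‖ = ρ := by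
    rw [e1, norm_neg, norm_smul, hν, mul_one, Real.norm_eq_abs, abs_of_pos hρ]
  have hyE : y ≠ cE := by
    intro h
    rw [h, sub_self, norm_zero] at n1
    linarith
  obtain ⟨b, hb1, hb2⟩ := hasDerivAt_hh y ν hν
  have hd := hasDerivAt_norm_sub hν hyE
  have hin : inner ℝ (y - cE) ν / ‖y - cE‖ = -1 := by
    rw [n1, e1, inner_neg_left, real_inner_smul_left, real_inner_self_eq_norm_sq, hν]
    field_simp
  rw [hin] at hd
  have hd2 : HasDerivAt (fun t : ℝ => ‖y + t • ν - cE‖ - ρ) (-1) 0 := hd.sub_const ρ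
  have hd0 : ‖y + (0 : ℝ) • ν - cE‖ - ρ = 0 := by
    rw [zero_smul, add_zero, n1, sub_self]
  have hd3 : HasDerivAt (fun t : ℝ => Ψ (‖y + t • ν - cE‖ - ρ)) (Ψ' 0 * (-1)) 0 := by
    have h1 : HasDerivAt Ψ (Ψ' 0) (‖y + (0 : ℝ) • ν - cE‖ - ρ) := by rw [hd0]; exact hΨ1
    exact HasDerivAt.comp (0 : ℝ) h1 hd2
  have hd4 : HasDerivAt (fun t : ℝ => m + ε * hh (y + t • ν)) (ε * b) 0 :=
    (hb2.const_mul ε).const_add m
  have hd5 := hd3.mul hd4
  have hy0 : y + (0 : ℝ) • ν = y := by rw [zero_smul, add_zero]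
  have hβ : HasDerivWithinAt (fun t : ℝ => (fun x : EE n => Ψ (‖x - cE‖ - ρ) * (m + ε * hh x))
      (y + t • ν)) (Ψ' 0 * (-1) * (m + ε * hh y) + Ψ 0 * (ε * b)) (Iic 0) 0 := by
    have h1 := hd5.hasDerivWithinAt (s := Iic (0 : ℝ))
    rw [hd0, hy0] at h1
    exact h1
  have hle' : ∀ᶠ t in 𝓝[<] (0 : ℝ), w (y + t • ν) ≤
      (fun x : EE n => Ψ (‖x - cE‖ - ρ) * (m + ε * hh x)) (y + t • ν) := by
    have h1 : Ioo (-(min (2 * ρ) (min ρ X))) (0 : ℝ) ∈ 𝓝[<] (0 : ℝ) :=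
      Ioo_mem_nhdsLT (by
        have : 0 < min (2 * ρ) (min ρ X) := by positivity
        linarith)
    filter_upwards [h1] with t ht
    have ht0 : t < 0 := ht.2
    have h3 : -(2 * ρ) < t := by
      have := min_le_left (2 * ρ) (min ρ X); linarith [ht.1]
    have h4 : -ρ < t := by
      have h41 := min_le_right (2 * ρ) (min ρ X)
      have h42 := min_le_left ρ X
      linarith [ht.1]
    have h5 : -X < t := by
      have h41 := min_le_right (2 * ρ) (min ρ X)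
      have h42 := min_le_right ρ X
      linarith [ht.1]
    have hmem := mem_normal_seg hν hI ht0 h3
    have hdE : ‖y + t • ν - cE‖ - ρ = -t := by
      have h6 : y + t • ν - cE = (t - ρ) • ν := by rw [hcE]; module
      rw [h6, norm_smul, hν, mul_one, Real.norm_eq_abs, abs_of_neg (by linarith)]
      ring
    have hdI : ρ - ‖y + t • ν - (y - ρ • ν)‖ = -t := by
      have h6 : y + t • ν - (y - ρ • ν) = (t + ρ) • ν := by module
      rw [h6, norm_smul, hν, mul_one, Real.norm_eq_abs, abs_of_pos (by linarith)]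
      ring
    have h7 := infDist_le_ext hρ hE (subset_closure hmem)
    have h8 := int_le_infDist (x := y + t • ν) hI hne
    rw [hdE] at h7
    rw [hdI] at h8
    have h9 : infDist (y + t • ν) (frontier D) = -t := le_antisymm h7 h8
    have h10 := hle _ hmem
    rw [h9, min_eq_left (show -t ≤ X by linarith)] at h10
    refine h10.trans ?_
    show min (Ψ (-t)) κ * (m + ε * hh (y + t • ν)) ≤
      Ψ (‖y + t • ν - cE‖ - ρ) * (m + ε * hh (y + t • ν))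
    rw [hdE]
    exact mul_le_mul_of_nonneg_right (min_le_left _ _) (hhpos _).le
  have heq' : w y = (fun x : EE n => Ψ (‖x - cE‖ - ρ) * (m + ε * hh x)) y := by
    show w y = Ψ (‖y - cE‖ - ρ) * (m + ε * hh y)
    rw [n1, sub_self]
    exact heq
  have hfin := bd_le (y := y) (ν := ν) (φ := w)
    (β := fun x : EE n => Ψ (‖x - cE‖ - ρ) * (m + ε * hh x)) hw' hβ hle' heq'
  have h1 : α * (Ψ' 0 * (-1) * (m + ε * hh y) + Ψ 0 * (ε * b)) ≤ α * w' :=
    mul_le_mul_of_nonneg_left hfin hα.le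
  have h2 : α * w' = -(Ψ 0 * (m + ε * hh y)) := by rw [← heq]; linarith
  rw [h2] at h1
  have h3 := (abs_le.1 hb1).1
  have h4 : α * ε * Ψ 0 * (-1) ≤ α * ε * Ψ 0 * b := mul_le_mul_of_nonneg_left h3 (by positivity)
  nlinarith

theorem compare_psi (hn : 1 ≤ n) (hρ : 0 < ρ) (hD : BallDomain ρ D) (hne : (frontier D).Nonempty) (hα : 0 < α)
    (hw : ContDiffOn ℝ 2 w D)
    (hwc : ContinuousOn w (closure D)) (hwb : ∃ C, ∀ x ∈ closure D, w x ≤ C)
    (hbc : ∀ y ∈ frontier D, ∀ ν, IsOutwardNormal D y ν →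
      ∃ w', HasDerivWithinAt (fun t : ℝ => w (y + t • ν)) w' (Iic 0) 0 ∧ w y + α * w' = 0)
    {X κ₂ lam' Λ c₂ : ℝ} {Ψ Ψ' Ψ'' : ℝ → ℝ} (hX : 0 < X) (hlam : 0 < lam') (hc₂ : 0 < c₂)
    (hΨ : ∀ d ∈ Icc 0 X, (∀ᶠ z in 𝓝 d, HasDerivAt Ψ (Ψ' z) z) ∧ HasDerivAt Ψ' (Ψ'' d) d ∧ |Ψ' d| < Λ ∧
      0 < Ψ d)
    (hΨ0 : Ψ 0 < κ₂) (hΨX : κ₂ ≤ Ψ X) (hb : 0 < Ψ 0 - α * Ψ' 0) (hX2 : 2 * X ≤ ρ)
    (hcorr : 4 * n * Λ ≤ lam' / 2 * ρ)
    (hnear : ∀ x ∈ D, 0 < w x → infDist x (frontier D) < X → Ψ (infDist x (frontier D)) < κ₂ →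
      ∃ c, -c * w x ≤ (Δ w) x ∧
        lam' ≤ -Ψ'' (infDist x (frontier D)) - c * Ψ (infDist x (frontier D)))
    (hfar : ∀ x ∈ D, 0 < w x → (X ≤ infDist x (frontier D) ∨ κ₂ ≤ Ψ (infDist x (frontier D))) →
      c₂ * w x ≤ (Δ w) x) :
    ∀ x ∈ closure D, w x ≤ 0 := by
  intro xs hxs
  by_contra hcon
  push Not at hcon
  have h0X : (0 : ℝ) ∈ Icc 0 X := ⟨le_rfl, hX.le⟩
  have hΨ00 : 0 < Ψ 0 := (hΨ 0 h0X).2.2.2
  have hκ : 0 < κ₂ := hΨ00.trans hΨ0
  have hΨd : ∀ d ∈ Icc 0 X, HasDerivAt Ψ (Ψ' d) d := fun d hd => (hΨ d hd).1.self_of_nhds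
  have hΛ : 0 < Λ := (abs_nonneg _).trans_lt (hΨ 0 h0X).2.2.1
  -- the function `P`
  set P : EE n → ℝ := fun x => min (Ψ (min (infDist x (frontier D)) X)) κ₂ with hP
  have hmemI : ∀ x : EE n, min (infDist x (frontier D)) X ∈ Icc 0 X := fun x =>
    ⟨le_min infDist_nonneg hX.le, min_le_right _ _⟩
  have hΨc : ContinuousOn Ψ (Icc 0 X) := fun d hd => (hΨd d hd).continuousAt.continuousWithinAt
  have hPc : Continuous P := by
    refine Continuous.min ?_ continuous_const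
    exact hΨc.comp_continuous ((continuous_infDist_pt _).min continuous_const) hmemI
  obtain ⟨dm, hdm, hdm2⟩ := isCompact_Icc.exists_isMinOn (nonempty_Icc.2 hX.le) hΨc
  set pm : ℝ := min (Ψ dm) κ₂ with hpm
  have hpm0 : 0 < pm := lt_min (hΨ dm hdm).2.2.2 hκ
  have hPm : ∀ x, pm ≤ P x := fun x => min_le_min (hdm2 (hmemI x)) le_rfl
  have hP0 : ∀ x, 0 < P x := fun x => hpm0.trans_le (hPm x)
  have hPκ : ∀ x, P x ≤ κ₂ := fun x => min_le_right _ _
  -- the constants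
  set m₀ : ℝ := w xs / (2 * κ₂) with hm₀
  have hm₀0 : 0 < m₀ := by positivity
  have hev : ∀ (A B : ℝ), 0 < B → ∀ᶠ ε in 𝓝[>] (0 : ℝ), A * ε < B := by
    intro A B hB
    have h1 : Tendsto (fun ε : ℝ => A * ε) (𝓝[>] 0) (𝓝 (A * 0)) :=
      (continuous_const.mul continuous_id).continuousAt.continuousWithinAt
    rw [mul_zero] at h1
    exact h1.eventually_lt_const hB
  obtain ⟨ε, hε, e1, e2, e3, e4⟩ : ∃ ε : ℝ, 0 < ε ∧ hh xs * ε < m₀ ∧ (n : ℝ) * ε < c₂ * m₀ ∧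
      (κ₂ * n + 6 * Λ) * ε < lam' / 2 * m₀ ∧ α * Ψ 0 * ε < m₀ * (Ψ 0 - α * Ψ' 0) := by
    have h1 := (hev (hh xs) m₀ hm₀0).and ((hev n (c₂ * m₀) (by positivity)).and
      ((hev (κ₂ * n + 6 * Λ) (lam' / 2 * m₀) (by positivity)).and
        ((hev (α * Ψ 0) (m₀ * (Ψ 0 - α * Ψ' 0)) (by positivity)).and self_mem_nhdsWithin)))
    obtain ⟨ε, h2, h3, h4, h5, h6⟩ := h1.exists
    exact ⟨ε, h6, h2, h3, h4, h5⟩
  -- the maximum point
  obtain ⟨C, hC⟩ := hwb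
  obtain ⟨x₀, hx₀, hmax⟩ := exists_max_sub (S := closure D) isClosed_closure ⟨xs, hxs⟩
    (φ := fun x => w x / P x) (ψ := fun x => ε * hh x)
    (hwc.div hPc.continuousOn fun x _ => (hP0 x).ne')
    ⟨max C 0 / pm, fun x hx => by
      show w x / P x ≤ max C 0 / pm
      exact (div_le_div_of_nonneg_right ((hC x hx).trans (le_max_left _ _)) (hP0 x).le).trans
        (div_le_div_of_nonneg_left (le_max_right _ _) hpm0 (hPm x))⟩
    (continuous_const.mul continuous_hh) (tendsto_hh hε)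
  set m : ℝ := w x₀ / P x₀ - ε * hh x₀ with hm
  have hmm : m₀ ≤ m := by
    have h1 : w xs / P xs - ε * hh xs ≤ m := hmax xs hxs
    have h2 : w xs / κ₂ ≤ w xs / P xs := div_le_div_of_nonneg_left hcon.le (hP0 xs) (hPκ xs)
    have h3 : w xs / κ₂ = m₀ + m₀ := by rw [hm₀]; field_simp; ring
    linarith
  have hmpos : 0 < m := hm₀0.trans_le hmm
  have hhpos : ∀ x : EE n, 0 < m + ε * hh x := fun x => by
    have := hh_pos x
    positivity
  have hle : ∀ x ∈ closure D, w x ≤ P x * (m + ε * hh x) := by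
    intro x hx
    have h1 : w x / P x - ε * hh x ≤ m := hmax x hx
    have h2 : w x / P x ≤ m + ε * hh x := by linarith
    rw [div_le_iff₀ (hP0 x)] at h2
    linarith
  have heq : w x₀ = P x₀ * (m + ε * hh x₀) := by
    have h1 : m + ε * hh x₀ = w x₀ / P x₀ := by rw [hm]; ring
    rw [h1]
    field_simp [(hP0 x₀).ne']
  have hwpos : 0 < w x₀ := by rw [heq]; exact mul_pos (hP0 x₀) (hhpos x₀)
  have hmle : m₀ ≤ m + ε * hh x₀ := by
    have := hh_pos x₀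
    have : 0 < ε * hh x₀ := by positivity
    linarith
  have hdne : 0 ≤ infDist x₀ (frontier D) := infDist_nonneg
  by_cases hcase : X ≤ infDist x₀ (frontier D) ∨ κ₂ ≤ Ψ (infDist x₀ (frontier D))
  · -- far from the boundary
    have hx₀D : x₀ ∈ D := by
      by_contra hnot
      have hfr : x₀ ∈ frontier D := by
        rw [frontier, hD.isOpen.interior_eq]
        exact ⟨hx₀, hnot⟩
      rw [infDist_zero_of_mem hfr] at hcase
      rcases hcase with h | h <;> linarith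
    have hPx₀ : P x₀ = κ₂ := by
      show min (Ψ (min (infDist x₀ (frontier D)) X)) κ₂ = κ₂
      rw [min_eq_right_iff]
      rcases hcase with h | h
      · rw [min_eq_right h]; exact hΨX
      · rcases le_total (infDist x₀ (frontier D)) X with h' | h'
        · rw [min_eq_left h']; exact h
        · rw [min_eq_right h']; exact hΨX
    have h1 := far_CompP hD.isOpen hw hx₀D hκ hε (m := m) (by
      filter_upwards [hD.isOpen.mem_nhds hx₀D] with x hx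
      exact (hle x (subset_closure hx)).trans (mul_le_mul_of_nonneg_right (hPκ x) (hhpos x).le))
      (by rw [heq, hPx₀])
    have h2 := (hfar x₀ hx₀D hwpos hcase).trans h1
    rw [heq, hPx₀] at h2
    have h3 : c₂ * (m + ε * hh x₀) ≤ ε * n := by
      have : κ₂ * (c₂ * (m + ε * hh x₀)) ≤ κ₂ * (ε * n) := by linarith
      exact le_of_mul_le_mul_left this hκ
    have h4 : c₂ * m₀ ≤ c₂ * (m + ε * hh x₀) := mul_le_mul_of_nonneg_left hmle hc₂.le
    linarith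
  · push Not at hcase
    obtain ⟨hdX, hdκ⟩ := hcase
    have hPx₀ : P x₀ = Ψ (infDist x₀ (frontier D)) := by
      show min (Ψ (min (infDist x₀ (frontier D)) X)) κ₂ = _
      rw [min_eq_left hdX.le, min_eq_left hdκ.le]
    by_cases hx₀D : x₀ ∈ D
    · -- near the boundary
      obtain ⟨hd0, y, hy, ν, hν, hI, hE, hxy⟩ := nearest hρ hD hne hx₀D
      set d₀ := infDist x₀ (frontier D) with hd₀
      obtain ⟨p1, p2, p3, p4⟩ := hΨ d₀ ⟨hd0.le, hdX.le⟩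
      have h1 := near_CompP hn hρ hD.isOpen hne hw hx₀D hd0 (by linarith) hd₀.symm hν hI hE hxy
        (m := m) (ε := ε) hε hmpos p1 p2 p3 p4 (by
          have hev2 : ∀ᶠ x in 𝓝 x₀, infDist x (frontier D) < X :=
            (continuous_infDist_pt (frontier D)).continuousAt.eventually_lt
              continuousAt_const hdX
          filter_upwards [hD.isOpen.mem_nhds hx₀D, hev2] with x hx hx2
          refine (hle x (subset_closure hx)).trans
            (mul_le_mul_of_nonneg_right ?_ (hhpos x).le)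
          show min (Ψ (min (infDist x (frontier D)) X)) κ₂ ≤ Ψ (infDist x (frontier D))
          rw [min_eq_left hx2.le]
          exact min_le_left _ _) (by rw [heq, hPx₀])
      obtain ⟨c, hc1, hc2⟩ := hnear x₀ hx₀D hwpos hdX hdκ
      have h2 := hc1.trans h1
      rw [heq, hPx₀] at h2
      have h3 : 4 * n * Λ / ρ ≤ lam' / 2 := by
        rw [div_le_iff₀ hρ]; exact hcorr
      set H := m + ε * hh x₀ with hH
      have hH0 : 0 < H := hhpos x₀
      have h4 : H * (Ψ'' d₀ + 4 * n * Λ / ρ) ≤ H * (Ψ'' d₀ + lam' / 2) :=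
        mul_le_mul_of_nonneg_left (by linarith) hH0.le
      have h5 : H * lam' ≤ H * (-Ψ'' d₀ - c * Ψ d₀) := mul_le_mul_of_nonneg_left hc2 hH0.le
      have h6 : Ψ d₀ * (ε * n) ≤ κ₂ * (ε * n) :=
        mul_le_mul_of_nonneg_right hdκ.le (by positivity)
      have h7 : lam' / 2 * m₀ ≤ lam' / 2 * H := mul_le_mul_of_nonneg_left hmle (by positivity)
      nlinarith
    · -- at the boundary
      have hfr : x₀ ∈ frontier D := by
        rw [frontier, hD.isOpen.interior_eq]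
        exact ⟨hx₀, hx₀D⟩
      have hd0 := infDist_zero_of_mem hfr
      rw [hd0] at hPx₀
      obtain ⟨ν, hν, hI, hE⟩ := hD.normal x₀ hfr
      obtain ⟨w', hw1, hw2⟩ := hbc x₀ hfr ν ⟨hν, ρ, hρ, hI, hE⟩
      have h1 := bdry_CompP hρ hα hne hν hI hE (X := X) (κ := κ₂) (m := m) (ε := ε) (Ψ' := Ψ') hX
        hw1 hw2 hε hmpos (hΨd 0 h0X) hΨ00 (fun x hx => hle x (subset_closure hx))
        (by rw [heq, hPx₀])
      have h2 : m₀ * (Ψ 0 - α * Ψ' 0) ≤ (m + ε * hh x₀) * (Ψ 0 - α * Ψ' 0) :=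
        mul_le_mul_of_nonneg_right hmle hb.le
      linarith

end Pool.Agent.Lib.MP_188651_an
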