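import Pool.Agent.Lib.MP_188651_an.Defs

open Set Filter Metric Topology InnerProductSpace Laplacian
open scoped Pointwise

namespace Pool.Agent.Lib.MP_188651_an

variable {f : ℝ → ℝ}

private lemma contDiffAt_f (hf : IsPositiveReaction f) {s : ℝ} (hs : 0 < s) : ContDiffAt ℝ 1 f s :=
  hf.smooth.contDiffAt (Ici_mem_nhds hs)

private lemma derivWithin_f (f : ℝ → ℝ) {s : ℝ} (hs : 0 < s) :
    derivWithin f (Ici 0) s = deriv f s := derivWithin_of_mem_nhds (Ici_mem_nhds hs)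

private lemma cont_derivWithin (hf : IsPositiveReaction f) :
    ContinuousOn (derivWithin f (Ici 0)) (Ici 0) :=
  hf.smooth.continuousOn_derivWithin (uniqueDiffOn_Ici 0) le_rfl

/-- Mean value theorem on `(0, ∞)`. -/
theorem mvt_f (hf : IsPositiveReaction f) {u v : ℝ} (hv : 0 < v) (huv : v < u) :
    ∃ ξ ∈ Ioo v u, f u - f v = deriv f ξ * (u - v) := by
  have h1 : ∀ s, 0 < s → DifferentiableAt ℝ f s := fun s hs =>
    (contDiffAt_f hf hs).differentiableAt (by norm_num)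
  obtain ⟨c, hc, hc2⟩ := exists_deriv_eq_slope f huv
    (fun s hs => (h1 s (lt_of_lt_of_le hv hs.1)).continuousAt.continuousWithinAt)
    (fun s hs => (h1 s (hv.trans hs.1)).differentiableWithinAt)
  refine ⟨c, hc, ?_⟩
  rw [hc2, div_mul_cancel₀]
  linarith

/-- Constants from `f'`. -/
theorem exists_eta2 (hf : IsPositiveReaction f) : ∃ η₂ > 0, η₂ < 1 / 4 ∧ ∃ c₂ > 0,
    ∀ s ∈ Icc (1 - 2 * η₂) 1, deriv f s ≤ -c₂ := by
  have h1 := hf.deriv_one
  have h2 : ContinuousWithinAt (derivWithin f (Ici 0)) (Ici 0) 1 :=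
    cont_derivWithin hf 1 (by norm_num [mem_Ici])
  rw [Metric.continuousWithinAt_iff] at h2
  obtain ⟨δ, hδ, h3⟩ := h2 (-(derivWithin f (Ici 0) 1) / 2) (by linarith)
  refine ⟨min (δ / 4) (1 / 8), by positivity, ?_, -(derivWithin f (Ici 0) 1) / 2, by linarith, ?_⟩
  · exact lt_of_le_of_lt (min_le_right _ _) (by norm_num)
  · intro s hs
    have h4 := min_le_left (δ / 4) (1 / 8 : ℝ)
    have h5 := min_le_right (δ / 4) (1 / 8 : ℝ)
    have hs0 : 0 < s := by linarith [hs.1]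
    have h6 : dist s 1 < δ := by
      rw [Real.dist_eq, abs_lt]
      constructor
      · linarith [hs.1]
      · linarith [hs.2]
    have h7 := h3 (mem_Ici.mpr hs0.le) h6
    rw [Real.dist_eq, abs_lt, derivWithin_f f hs0] at h7
    linarith [h7.2]

theorem exists_eta3 (hf : IsPositiveReaction f) {ω η₂ : ℝ} (hω : 0 < ω) (h2 : 0 < η₂) : ∃ η₃ > 0, η₃ < η₂ ∧
    ∀ s s' : ℝ, 0 < s → s ≤ 1 → 0 < s' → s' ≤ 1 → |s - s'| ≤ η₃ → |deriv f s - deriv f s'| ≤ ω := by
  have h1 : UniformContinuousOn (derivWithin f (Ici 0)) (Icc 0 1) :=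
    isCompact_Icc.uniformContinuousOn_of_continuous
      ((cont_derivWithin hf).mono Icc_subset_Ici_self)
  rw [Metric.uniformContinuousOn_iff] at h1
  obtain ⟨δ, hδ, h3⟩ := h1 ω hω
  refine ⟨min (δ / 2) (η₂ / 2), by positivity, ?_, ?_⟩
  · exact lt_of_le_of_lt (min_le_right _ _) (by linarith)
  · intro s s' hs hs1 hs' hs1' hd
    have h4 := min_le_left (δ / 2) (η₂ / 2)
    have h5 := h3 s ⟨hs.le, hs1⟩ s' ⟨hs'.le, hs1'⟩ (by rw [Real.dist_eq]; linarith)
    rw [Real.dist_eq, derivWithin_f f hs, derivWithin_f f hs'] at h5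
    exact h5.le

end Pool.Agent.Lib.MP_188651_an
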