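import Pool.Agent.Lib.MP_188651_an.InnerPos

open Set Filter Metric Topology InnerProductSpace Laplacian
open scoped Pointwise

namespace Pool.Agent.Lib.MP_188651_an

private theorem lower_f_InnerOne {f : ℝ → ℝ} (hf : IsPositiveReaction f) {ε : ℝ} (hε : 0 < ε)
    (hε1 : ε < 1) : ∃ c > 0, ∀ s, ε ≤ s → s ≤ 1 → c * (1 - s) ≤ f s := by
  have h1 : (1 : ℝ) ∈ Ici (0 : ℝ) := by
    change (0 : ℝ) ≤ 1
    norm_num
  have hd : HasDerivWithinAt f (derivWithin f (Ici 0) 1) (Ici 0) 1 :=
    ((hf.smooth.differentiableOn (by norm_num)) 1 h1).hasDerivWithinAt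
  set p := derivWithin f (Ici 0) 1 with hp
  have hp0 : p < 0 := hf.deriv_one
  rw [hasDerivWithinAt_iff_tendsto_slope] at hd
  have hev : ∀ᶠ s in 𝓝[Ici (0 : ℝ) \ {1}] 1, slope f 1 s < p / 2 :=
    hd.eventually (gt_mem_nhds (by linarith))
  obtain ⟨δ, hδ, hsub⟩ := Metric.mem_nhdsWithin_iff.1 hev
  -- near one
  have hnear : ∀ s, ε ≤ s → s < 1 → 1 - δ < s → (-p / 2) * (1 - s) ≤ f s := by
    intro s hs hs1 hsδ
    have hmem : s ∈ ball (1 : ℝ) δ ∩ (Ici 0 \ {1}) := by
      refine ⟨?_, ?_, ?_⟩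
      · rw [mem_ball, Real.dist_eq, abs_lt]
        constructor <;> linarith
      · change (0 : ℝ) ≤ s
        linarith
      · simpa using hs1.ne
    have h2 : slope f 1 s < p / 2 := hsub hmem
    rw [slope_def_field, hf.one, sub_zero, div_lt_iff_of_neg (by linarith)] at h2
    linarith
  -- away from one
  by_cases hcase : ε ≤ 1 - δ
  · have hfc : ContinuousOn f (Icc ε (1 - δ)) :=
      hf.smooth.continuousOn.mono fun s hs => by
        have := hs.1
        change 0 ≤ s
        linarith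
    obtain ⟨s0, hs0, hs0m⟩ := isCompact_Icc.exists_isMinOn (nonempty_Icc.2 hcase) hfc
    have hf0 : 0 < f s0 := hf.pos s0 (by linarith [hs0.1]) (by linarith [hs0.2])
    refine ⟨min (-p / 2) (f s0), lt_min (by linarith) hf0, ?_⟩
    intro s hs hs1
    rcases eq_or_lt_of_le hs1 with rfl | hs1'
    · rw [hf.one]
      simp
    · by_cases hsδ : 1 - δ < s
      · refine le_trans ?_ (hnear s hs hs1' hsδ)
        exact mul_le_mul_of_nonneg_right (min_le_left _ _) (by linarith)
      · have h3 : f s0 ≤ f s := hs0m ⟨hs, not_lt.1 hsδ⟩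
        refine le_trans ?_ h3
        calc min (-p / 2) (f s0) * (1 - s) ≤ f s0 * (1 - s) :=
              mul_le_mul_of_nonneg_right (min_le_right _ _) (by linarith)
          _ ≤ f s0 * 1 := mul_le_mul_of_nonneg_left (by linarith) hf0.le
          _ = f s0 := mul_one _
  · refine ⟨-p / 2, by linarith, ?_⟩
    intro s hs hs1
    rcases eq_or_lt_of_le hs1 with rfl | hs1'
    · rw [hf.one]
      simp
    · exact hnear s hs hs1' (by linarith [not_le.1 hcase])

private theorem jet_sq_InnerOne {n : ℕ} (c x : EE n) :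
    Jet (fun y : EE n => ‖y - c‖ ^ 2) x (fun i => 2 * (x - c) i) (2 * n) := by
  have hsl : ∀ (i : Fin n) (t : ℝ),
      ‖x + t • EuclideanSpace.single i (1 : ℝ) - c‖ ^ 2 = ‖x - c‖ ^ 2 + 2 * t * (x - c) i + t ^ 2 := by
    intro i t
    have h1 : x + t • EuclideanSpace.single i (1 : ℝ) - c =
        (x - c) + t • EuclideanSpace.single i (1 : ℝ) := by
      abel
    rw [h1, norm_add_sq_real, inner_smul_right, EuclideanSpace.inner_single_right, norm_smul]
    simp
    ring
  refine ⟨fun i t => 2 * (x - c) i + 2 * t, fun _ => 2, ?_, ?_, ?_, ?_⟩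
  · intro i
    refine Filter.Eventually.of_forall fun t => ?_
    have h1 : (fun t : ℝ => ‖x + t • EuclideanSpace.single i (1 : ℝ) - c‖ ^ 2) =
        fun t => ‖x - c‖ ^ 2 + 2 * t * (x - c) i + t ^ 2 := by
      funext s
      exact hsl i s
    show HasDerivAt (fun t : ℝ => ‖x + t • EuclideanSpace.single i (1 : ℝ) - c‖ ^ 2) _ t
    rw [h1]
    have h2 := (((hasDerivAt_id t).const_mul 2).mul_const ((x - c) i)).const_add (‖x - c‖ ^ 2)
    have h3 := h2.add ((hasDerivAt_id t).pow 2)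
    refine h3.congr_deriv ?_
    simp
  · intro i
    simp
  · intro i
    have h2 := ((hasDerivAt_id (0 : ℝ)).const_mul 2).const_add (2 * (x - c) i)
    refine h2.congr_deriv ?_
    simp
  · simp
    ring

theorem inner_one (n : ℕ) {f : ℝ → ℝ} (hf : IsPositiveReaction f) {η : ℝ} (hη : 0 < η) : ∃ R > 0,
    ∀ (D : Set (EE n)) (u : EE n → ℝ) (x : EE n), IsOpen D → ContDiffOn ℝ 2 u D → (∀ y ∈ D, 0 < u y) →
      (∀ y ∈ D, u y ≤ 1) → (∀ y ∈ D, -(Δ u) y = f (u y)) → closedBall x R ⊆ D → 1 - η < u x := by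
  obtain ⟨ε, hε, hε1, R1, hR1, hpos⟩ := inner_pos n hf
  obtain ⟨c, hc, hfc⟩ := lower_f_InnerOne hf hε hε1
  have hn : (0 : ℝ) ≤ n := Nat.cast_nonneg n
  set L : ℝ := 2 * (n + 1) / (c * η) + 1 with hL
  have hL1 : 1 ≤ L := by
    have : 0 ≤ 2 * ((n : ℝ) + 1) / (c * η) := by positivity
    rw [hL]
    linarith
  have hL0 : 0 < L := by linarith
  have hLL : L ≤ L ^ 2 := by nlinarith
  have hsmall : 2 * n / (c * L ^ 2) < η := by
    rw [div_lt_iff₀ (by positivity)]
    have h1 : 2 * ((n : ℝ) + 1) / (c * η) < L := by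
      rw [hL]
      linarith
    rw [div_lt_iff₀ (by positivity)] at h1
    have h2 : L * (c * η) ≤ L ^ 2 * (c * η) := mul_le_mul_of_nonneg_right hLL (by positivity)
    nlinarith
  refine ⟨R1 + L, by linarith, ?_⟩
  intro D u x hD hu hup hu1 heq hball
  have hxL : closedBall x L ⊆ D :=
    (closedBall_subset_closedBall (by linarith)).trans hball
  have huε : ∀ y ∈ closedBall x L, ε ≤ u y := by
    intro y hy
    refine hpos D u y hD hu hup heq ?_
    refine (closedBall_subset_closedBall' ?_).trans hball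
    rw [mem_closedBall] at hy
    linarith
  set W : EE n → ℝ := fun y => 1 / L ^ 2 * ‖y - x‖ ^ 2 + 2 * n / (c * L ^ 2) with hW
  set φ : EE n → ℝ := fun y => (1 - u y) - W y with hφ
  have hcont : ContinuousOn φ (closedBall x L) := by
    have h1 : ContinuousOn u (closedBall x L) := (hu.continuousOn).mono hxL
    have h2 : Continuous W := by
      rw [hW]
      fun_prop
    exact (continuousOn_const.sub h1).sub h2.continuousOn
  have hxmem : x ∈ closedBall x L := mem_closedBall_self hL0.le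
  obtain ⟨x1, hx1, hmax⟩ := (isCompact_closedBall x L).exists_isMaxOn ⟨x, hxmem⟩ hcont
  have hkey : φ x1 ≤ 0 := by
    by_contra hcon
    rw [not_le] at hcon
    have hux1 : 0 < u x1 := hup x1 (hxL hx1)
    have hK : 0 ≤ 2 * (n : ℝ) / (c * L ^ 2) := by positivity
    have hlt : ‖x1 - x‖ < L := by
      by_contra hge
      rw [not_lt] at hge
      have h1 : (1 : ℝ) ≤ 1 / L ^ 2 * ‖x1 - x‖ ^ 2 := by
        rw [one_div, ← div_eq_inv_mul, le_div_iff₀ (by positivity), one_mul]
        exact pow_le_pow_left₀ hL0.le hge 2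
      simp only [hφ, hW] at hcon
      linarith
    have hball1 : x1 ∈ ball x L := by
      rw [mem_ball, dist_eq_norm]
      exact hlt
    have hloc : IsLocalMax φ x1 := by
      have h1 : ball x L ∈ 𝓝 x1 := isOpen_ball.mem_nhds hball1
      filter_upwards [h1] with y hy
      exact hmax (ball_subset_closedBall hy)
    have hx1D : x1 ∈ D := hxL hx1
    obtain ⟨g, hg⟩ := jet_of_contDiffAt (hu.contDiffAt (hD.mem_nhds hx1D))
    have hJ1 := Jet.sub (jet_const (x := x1) (n := n) 1) hg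
    have hJ2 := Jet.add (Jet.const_mul (1 / L ^ 2) (jet_sq_InnerOne x x1))
      (jet_const (x := x1) (n := n) (2 * n / (c * L ^ 2)))
    have hJ := Jet.sub hJ1 hJ2
    have hle := (Jet.of_isLocalMax hJ hloc).2
    have h3 : -(Δ u) x1 = f (u x1) := heq x1 hx1D
    have h4 : c * (1 - u x1) ≤ f (u x1) := hfc (u x1) (huε x1 hx1) (hu1 x1 hx1D)
    have h5 : 2 * n / (c * L ^ 2) < 1 - u x1 := by
      have h6 : 0 ≤ 1 / L ^ 2 * ‖x1 - x‖ ^ 2 := by positivity
      simp only [hφ, hW] at hcon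
      linarith
    have h7 : c * (2 * n / (c * L ^ 2)) = 1 / L ^ 2 * (2 * n) := by
      field_simp
    have h8 : c * (2 * n / (c * L ^ 2)) < c * (1 - u x1) := mul_lt_mul_of_pos_left h5 hc
    linarith
  have h9 : φ x ≤ φ x1 := hmax hxmem
  have h10 : φ x = (1 - u x) - 2 * n / (c * L ^ 2) := by
    simp only [hφ, hW, sub_self, norm_zero]
    ring
  linarith

end Pool.Agent.Lib.MP_188651_an
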