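import Pool.Agent.Lib.MP_188651_an.Gpb

open Set Filter Metric Topology InnerProductSpace Laplacian
open scoped Pointwise

namespace Pool.Agent.Lib.MP_188651_an

variable {f : ℝ → ℝ} {η lam : ℝ}

private theorem FF_quad (hf : IsPositiveReaction f) :
    ∃ C : ℝ, 0 ≤ C ∧ ∀ r ∈ Icc (0 : ℝ) 1, FF f 1 - FF f r ≤ C * (1 - r) ^ 2 := by
  obtain ⟨K, hK⟩ : ∃ K, LipschitzOnWith K f (Icc 0 1) := by
    apply ContDiffOn.exists_lipschitzOnWith (n := 1) (hf.smooth.mono Icc_subset_Ici_self)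
      one_ne_zero (convex_Icc 0 1) isCompact_Icc
  refine ⟨K, K.2, fun r hr => ?_⟩
  have hb : ∀ s ∈ Ioo r 1, f s ≤ K * (1 - r) := by
    intro s hs
    have h1 := hK.dist_le_mul s ⟨hr.1.trans hs.1.le, hs.2.le⟩ 1 ⟨zero_le_one, le_rfl⟩
    rw [hf.one, Real.dist_eq, Real.dist_eq, sub_zero] at h1
    have h2 : |s - 1| ≤ 1 - r := by
      rw [abs_sub_comm, abs_of_nonneg (by linarith [hs.2])]
      linarith [hs.1]
    calc f s ≤ |f s| := le_abs_self _
      _ ≤ K * |s - 1| := h1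
      _ ≤ K * (1 - r) := mul_le_mul_of_nonneg_left h2 K.2
  have hder : ∀ s ∈ interior (Icc r 1), deriv (FF f) s ≤ K * (1 - r) := by
    intro s hs
    rw [interior_Icc] at hs
    rw [(FF_hasDerivAt hf (lt_of_le_of_lt hr.1 hs.1)).deriv]
    exact hb s hs
  have hdiff : DifferentiableOn ℝ (FF f) (interior (Icc r 1)) := by
    intro s hs
    rw [interior_Icc] at hs
    exact (FF_hasDerivAt hf (lt_of_le_of_lt hr.1 hs.1)).differentiableAt.differentiableWithinAt
  have hcont : ContinuousOn (FF f) (Icc r 1) :=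
    (FF_continuousOn hf).mono (fun s hs => hr.1.trans hs.1)
  have := (convex_Icc r 1).image_sub_le_mul_sub_of_deriv_le hcont hdiff hder r
    ⟨le_rfl, hr.2⟩ 1 ⟨hr.2, le_rfl⟩ hr.2
  calc FF f 1 - FF f r ≤ K * (1 - r) * (1 - r) := this
    _ = K * (1 - r) ^ 2 := by ring

theorem KK_large (hf : IsPositiveReaction f) (hlam : 0 < lam) {η₂ κ₂ : ℝ} (h2 : 0 < η₂) (h2' : η₂ < 1) :
    ∃ η₀ > 0, ∀ η, 0 < η → η < η₀ → ∀ a ∈ Icc 0 (1 - η₂), κ₂ ≤ KK f η lam a 1 := by
  obtain ⟨C, hC0, hC⟩ := FF_quad hf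
  set A : ℝ := √(2 * (C + 2)) with hA
  have hApos : 0 < A := Real.sqrt_pos.2 (by linarith)
  -- choose t = √η small
  set M : ℝ := |κ₂| + 1 with hM
  have hMpos : 0 < M := by positivity
  set t₀ : ℝ := min η₂ (lam / (A ^ 3 * M)) with ht₀
  have ht₀pos : 0 < t₀ := lt_min h2 (by positivity)
  refine ⟨t₀ ^ 2, by positivity, fun η hη hlt a ha => ?_⟩
  set t : ℝ := √η with ht
  have htpos : 0 < t := Real.sqrt_pos.2 hη
  have htsq : t ^ 2 = η := Real.sq_sqrt hη.le
  have htlt : t < t₀ := by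
    have : t ^ 2 < t₀ ^ 2 := by rw [htsq]; exact hlt
    exact lt_of_pow_lt_pow_left₀ 2 ht₀pos.le this
  have ht2 : t < η₂ := htlt.trans_le (min_le_left _ _)
  have ht3 : t < lam / (A ^ 3 * M) := htlt.trans_le (min_le_right _ _)
  have hcontI : Continuous fun r : ℝ => (2 - r) / Gp f η r ^ 3 :=
    (by fun_prop : Continuous fun r : ℝ => (2 - r)).div₀
      ((Gp_continuous hf η).pow 3) (fun r => (pow_pos (Gp_pos hf hη r) 3).ne')
  -- lower bound of the integral
  have h1t : a ≤ 1 - t := by linarith [ha.2]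
  have hsplit : ∫ r in a..1, (2 - r) / Gp f η r ^ 3 =
      (∫ r in a..(1 - t), (2 - r) / Gp f η r ^ 3) + ∫ r in (1 - t)..1, (2 - r) / Gp f η r ^ 3 :=
    (intervalIntegral.integral_add_adjacent_intervals (hcontI.intervalIntegrable _ _)
      (hcontI.intervalIntegrable _ _)).symm
  have hfirst : 0 ≤ ∫ r in a..(1 - t), (2 - r) / Gp f η r ^ 3 := by
    apply intervalIntegral.integral_nonneg h1t
    intro r hr
    have : 0 < Gp f η r := Gp_pos hf hη r
    have h2r : 0 ≤ 2 - r := by linarith [hr.2]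
    positivity
  have hGle : ∀ r ∈ Icc (1 - t) 1, Gp f η r ≤ A * t := by
    intro r hr
    have hr1 : r ∈ Icc (0 : ℝ) 1 := ⟨by linarith [hr.1], hr.2⟩
    have hsq : Gp f η r ^ 2 ≤ (A * t) ^ 2 := by
      rw [Gp_sq hf hη hr1, mul_pow, hA, Real.sq_sqrt (by linarith), htsq]
      have h1 := hC r hr1
      have h3 : (1 - r) ^ 2 ≤ η := by
        rw [← htsq]
        apply pow_le_pow_left₀ (by linarith [hr.2])
        linarith [hr.1]
      have h4 : C * (1 - r) ^ 2 ≤ C * η := mul_le_mul_of_nonneg_left h3 hC0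
      nlinarith [hr1.1]
    exact le_of_sq_le_sq hsq (by positivity)
  have hsecond : 1 / (A ^ 3 * t ^ 2) ≤ ∫ r in (1 - t)..1, (2 - r) / Gp f η r ^ 3 := by
    have hb : ∫ r in (1 - t)..1, (1 / (A * t) ^ 3 : ℝ) ≤ ∫ r in (1 - t)..1, (2 - r) / Gp f η r ^ 3 := by
      apply intervalIntegral.integral_mono_on (by linarith) intervalIntegrable_const
        (hcontI.intervalIntegrable _ _)
      intro r hr
      have hG := hGle r hr
      have hGp : 0 < Gp f η r := Gp_pos hf hη r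
      apply div_le_div₀ (by linarith [hr.2]) (by linarith [hr.2]) (by positivity)
      exact pow_le_pow_left₀ hGp.le hG 3
    refine le_trans (le_of_eq ?_) hb
    rw [intervalIntegral.integral_const, smul_eq_mul]
    field_simp
    ring
  have hG1 : t ≤ Gp f η 1 := by
    have := Gp_ge hf hη 1
    exact this
  unfold KK
  rw [hsplit]
  have hI : 1 / (A ^ 3 * t ^ 2) ≤ (∫ r in a..(1 - t), (2 - r) / Gp f η r ^ 3) +
      ∫ r in (1 - t)..1, (2 - r) / Gp f η r ^ 3 := by linarith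
  have hMt : M ≤ t * (lam * (1 / (A ^ 3 * t ^ 2))) := by
    rw [lt_div_iff₀ (by positivity)] at ht3
    have : t * (lam * (1 / (A ^ 3 * t ^ 2))) = lam / (A ^ 3 * t) := by
      field_simp
    rw [this, le_div_iff₀ (by positivity)]
    nlinarith
  calc κ₂ ≤ M := by
        rw [hM]
        linarith [le_abs_self κ₂]
    _ ≤ t * (lam * (1 / (A ^ 3 * t ^ 2))) := hMt
    _ ≤ Gp f η 1 * (1 + lam * ((∫ r in a..(1 - t), (2 - r) / Gp f η r ^ 3) +
        ∫ r in (1 - t)..1, (2 - r) / Gp f η r ^ 3)) := by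
      apply mul_le_mul hG1 _ (by positivity) (Gp_pos hf hη 1).le
      have := mul_le_mul_of_nonneg_left hI hlam.le
      linarith

end Pool.Agent.Lib.MP_188651_an
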