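import Pool.Agent.Lib.MP_188651_an.Gpb

open Set Filter Metric Topology InnerProductSpace Laplacian
open scoped Pointwise

namespace Pool.Agent.Lib.MP_188651_an

variable {f : ℝ → ℝ} {η lam : ℝ}

theorem KK_small (hf : IsPositiveReaction f) (hη : 0 < η) (hη1 : η ≤ 1) (hlam : 0 < lam) {η₂ c a s : ℝ}
    (h2 : 0 < η₂) (hc : 0 < c) (hc' : c ≤ FF f 1 - FF f (1 - η₂)) (ha : 0 ≤ a) (has : a ≤ s) (hs : s ≤ 1 - η₂) :
    KK f η lam a s ≤ Gm f * (1 + lam * (2 / √(2 * c) ^ 3)) := by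
  have hsq : 0 < √(2 * c) := Real.sqrt_pos.2 (by linarith)
  have hs1 : s ≤ 1 := by linarith
  have hlow : ∀ r ∈ Icc a s, √(2 * c) ≤ Gp f η r := by
    intro r hr
    have hr1 : r ∈ Icc (0 : ℝ) 1 := ⟨ha.trans hr.1, hr.2.trans hs1⟩
    have hmono : FF f r ≤ FF f (1 - η₂) := by
      apply (FF_strictMonoOn hf).monotoneOn hr1 ⟨by linarith [ha.trans has], by linarith⟩
      exact hr.2.trans hs
    have h1 : 2 * c ≤ Gp f η r ^ 2 := by
      rw [Gp_sq hf hη hr1]
      nlinarith [hr1.2, mul_pos hη (show (0 : ℝ) < 2 - r by linarith [hr1.2])]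
    calc √(2 * c) ≤ √(Gp f η r ^ 2) := Real.sqrt_le_sqrt h1
      _ = Gp f η r := Real.sqrt_sq (Gp_pos hf hη r).le
  have hint : ∫ r in a..s, (2 - r) / Gp f η r ^ 3 ≤ 2 / √(2 * c) ^ 3 := by
    have hb : ∫ r in a..s, (2 - r) / Gp f η r ^ 3 ≤ ∫ r in a..s, (2 / √(2 * c) ^ 3 : ℝ) := by
      apply intervalIntegral.integral_mono_on has
      · apply Continuous.intervalIntegrable
        exact (by fun_prop : Continuous fun r : ℝ => (2 - r)).div₀
          ((Gp_continuous hf η).pow 3) (fun r => (pow_pos (Gp_pos hf hη r) 3).ne')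
      · exact intervalIntegrable_const
      · intro r hr
        have h1 := hlow r hr
        have h0 : 0 ≤ r := ha.trans hr.1
        have h2r : 2 - r ≤ 2 := by linarith
        apply div_le_div₀ (by norm_num) h2r (pow_pos hsq 3)
        exact pow_le_pow_left₀ hsq.le h1 3
    refine hb.trans ?_
    rw [intervalIntegral.integral_const, smul_eq_mul]
    have : 0 ≤ 2 / √(2 * c) ^ 3 := by positivity
    nlinarith
  have hGs : Gp f η s ≤ Gm f := Gp_le_Gm hf hη hη1 ⟨ha.trans has, hs1⟩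
  have hpos : 0 < Gp f η s := Gp_pos hf hη s
  unfold KK
  have h3 : 1 + lam * ∫ r in a..s, (2 - r) / Gp f η r ^ 3 ≤ 1 + lam * (2 / √(2 * c) ^ 3) := by
    have := mul_le_mul_of_nonneg_left hint hlam.le
    linarith
  have h4 : 0 ≤ 1 + lam * (2 / √(2 * c) ^ 3) := by positivity
  calc Gp f η s * (1 + lam * ∫ r in a..s, (2 - r) / Gp f η r ^ 3)
      ≤ Gp f η s * (1 + lam * (2 / √(2 * c) ^ 3)) := mul_le_mul_of_nonneg_left h3 hpos.le
    _ ≤ Gm f * (1 + lam * (2 / √(2 * c) ^ 3)) := mul_le_mul_of_nonneg_right hGs h4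

end Pool.Agent.Lib.MP_188651_an
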