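import Pool.Agent.Lib.MP_188651_an.Defs

open Set Filter Metric Topology InnerProductSpace Laplacian
open scoped Pointwise

namespace Pool.Agent.Lib.MP_188651_an

variable {f : ℝ → ℝ} {e b : ℝ} {G T : ℝ → ℝ}

private theorem pf_derivWithin (h : Profile f e b G T) {s : ℝ} (hs : s ∈ Ico 0 b) :
    HasDerivWithinAt T (1 / G s) (Ici 0) s := by
  rcases eq_or_lt_of_le hs.1 with h0 | h0
  · subst h0
    exact h.Tder0
  · exact (h.Tder s ⟨h0, hs.2⟩).hasDerivWithinAt

private theorem pf_continuousOn (h : Profile f e b G T) : ContinuousOn T (Ico 0 b) := by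
  intro s hs
  exact (pf_derivWithin h hs).continuousWithinAt.mono fun x hx => hx.1

theorem Profile.strictMonoOn (h : Profile f e b G T) : StrictMonoOn T (Ico 0 b) := by
  refine strictMonoOn_of_deriv_pos (convex_Ico 0 b) (pf_continuousOn h) ?_
  intro x hx
  rw [interior_Ico] at hx
  rw [(h.Tder x hx).deriv]
  exact div_pos one_pos (h.Gpos x ⟨hx.1.le, hx.2⟩)

theorem Profile.continuousOn (h : Profile f e b G T) : ContinuousOn T (Ico 0 b) :=
  pf_continuousOn h

/-- The data for `Jet.comp`. -/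
theorem Profile.jetData (h : Profile f e b G T) {s : ℝ} (hs : s ∈ Ioo 0 b) :
    (∀ᶠ r in 𝓝 s, HasDerivAt T (1 / G r) r) ∧
      HasDerivAt (fun r => 1 / G r) ((f s + e) / G s ^ 3) s := by
  constructor
  · filter_upwards [Ioo_mem_nhds hs.1 hs.2] with r hr
    exact h.Tder r hr
  · have hG : 0 < G s := h.Gpos s ⟨hs.1.le, hs.2⟩
    have h1 := (h.Gder s hs).fun_inv hG.ne'
    have h2 : (fun r => 1 / G r) = fun r => (G r)⁻¹ := by
      funext r
      rw [one_div]
    rw [h2]
    refine h1.congr_deriv ?_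
    field_simp

theorem Profile.derivWithin (h : Profile f e b G T) {s : ℝ} (hs : s ∈ Ico 0 b) :
    HasDerivWithinAt T (1 / G s) (Ici 0) s :=
  pf_derivWithin h hs

end Pool.Agent.Lib.MP_188651_an
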