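import Pool.Agent.Lib.MP_188651_an.LeOne
import Pool.Agent.Lib.MP_188651_an.Prof

open Set Filter Metric Topology InnerProductSpace Laplacian
open scoped Pointwise

namespace Pool.Agent.Lib.MP_188651_an

variable {n : ℕ} {f : ℝ → ℝ} {α ρ η b : ℝ} {D : Set (EE n)} {u : EE n → ℝ} {G T : ℝ → ℝ}

/-- the interior case -/
private lemma inner_case (hu : IsSol f α D u) (hP : Profile f (-η) b G T) {x c : EE n}
    (hDo : IsOpen D) (hx : x ∈ D) (hxb : u x < b) (hxc : x ≠ c)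
    (hmin : IsLocalMin (fun y => T (u y) + ‖y - c‖) x) : η * ‖x - c‖ ≤ (n - 1) * G (u x) := by
  have hpos : 0 < u x := hu.pos x hx
  have hG : 0 < G (u x) := hP.Gpos _ ⟨hpos.le, hxb⟩
  have hr : 0 < ‖x - c‖ := norm_pos_iff.mpr (sub_ne_zero.mpr hxc)
  obtain ⟨g, hg⟩ := jet_of_contDiffAt (hu.contDiffOn.contDiffAt (hDo.mem_nhds hx))
  have hlap : (Δ u) x = -f (u x) := by
    have := hu.eq x hx
    linarith
  rw [hlap] at hg
  obtain ⟨hd1, hd2⟩ := hP.jetData ⟨hpos, hxb⟩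
  have h1 := (hg.comp (T1 := fun r => 1 / G r) hd1 hd2).add (jet_norm_sub hxc)
  obtain ⟨h2, h3⟩ := h1.of_isLocalMin hmin
  have h4 : ∑ i, g i ^ 2 = G (u x) ^ 2 := by
    have h5 : ∀ i, g i ^ 2 = G (u x) ^ 2 * ((x i - c i) / ‖x - c‖) ^ 2 := by
      intro i
      have h6 := h2 i
      simp only at h6
      have h7 : g i = -(G (u x) * ((x i - c i) / ‖x - c‖)) := by
        field_simp at h6 ⊢
        linarith
      rw [h7]
      ring
    rw [Finset.sum_congr rfl fun i _ => h5 i, ← Finset.mul_sum, sum_sq_norm_sub hxc, mul_one]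
  rw [h4] at h3
  have h5 : (f (u x) + -η) / G (u x) ^ 3 * G (u x) ^ 2 + 1 / G (u x) * -f (u x) +
      (n - 1) / ‖x - c‖ = ((n - 1) * G (u x) - η * ‖x - c‖) / (G (u x) * ‖x - c‖) := by
    field_simp
    ring
  rw [h5] at h3
  have h6 : 0 < G (u x) * ‖x - c‖ := by positivity
  have h7 := (div_nonneg_iff.mp h3)
  rcases h7 with ⟨h8, -⟩ | ⟨-, h8⟩
  · linarith
  · linarith

/-- the boundary case -/
private lemma frontier_case (hα : 0 < α) (hρ : 0 < ρ) (hu : IsSol f α D u)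
    (hP : Profile f (-η) b G T) {x c ν : EE n} (hx : x ∈ frontier D) (hν : ‖ν‖ = 1)
    (hν1 : ball (x - ρ • ν) ρ ⊆ D) (hν2 : Disjoint (ball (x + ρ • ν) ρ) D)
    (hxb : u x < b) (hxc : x ≠ c)
    (hmin : ∀ᶠ y in 𝓝[closure D] x, T (u x) + ‖x - c‖ ≤ T (u y) + ‖y - c‖) :
    α * (inner ℝ (x - c) ν / ‖x - c‖) * G (u x) ≤ u x := by
  have hxcl : x ∈ closure D := frontier_subset_closure hx
  have hnn : 0 ≤ u x := hu.nonneg x hxcl
  have hG : 0 < G (u x) := hP.Gpos _ ⟨hnn, hxb⟩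
  obtain ⟨u', hu', hu2⟩ := hu.bc x hx ν ⟨hν, ρ, hρ, hν1, hν2⟩
  have hseg : ∀ t : ℝ, t ≤ 0 → -(2 * ρ) < t → x + t • ν ∈ closure D := by
    intro t ht ht2
    rcases ht.lt_or_eq with h | h
    · exact subset_closure (mem_normal_seg hν hν1 h ht2)
    · rw [h, zero_smul, add_zero]
      exact hxcl
  -- derivative of `T ∘ u` along the normal
  have hd : HasDerivWithinAt (fun t : ℝ => T (u (x + t • ν))) (1 / G (u x) * u') (Iic 0) 0 := by
    have h1 : HasDerivWithinAt (fun t : ℝ => u (x + t • ν)) u' (Iic 0 ∩ Ioi (-(2 * ρ))) 0 :=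
      hu'.mono inter_subset_left
    have h2 := hP.derivWithin (s := u x) ⟨hnn, hxb⟩
    have h3 : (fun t : ℝ => u (x + t • ν)) 0 = u x := by
      simp
    have h4 : HasDerivWithinAt (T ∘ fun t : ℝ => u (x + t • ν)) (1 / G (u x) * u')
        (Iic 0 ∩ Ioi (-(2 * ρ))) 0 :=
      HasDerivWithinAt.comp_of_eq 0 h2 h1 (fun t ht => hu.nonneg _ (hseg t ht.1 ht.2)) h3.symm
    have h5 : Ioi (-(2 * ρ)) ∈ 𝓝 (0 : ℝ) := Ioi_mem_nhds (by linarith)
    exact (hasDerivWithinAt_inter h5).mp h4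
  -- derivative of the norm
  have hd2 : HasDerivWithinAt (fun t : ℝ => (T (u x) + ‖x - c‖) - ‖x + t • ν - c‖)
      (-(inner ℝ (x - c) ν / ‖x - c‖)) (Iic 0) 0 := by
    have h1 := (hasDerivAt_norm_sub hν hxc).hasDerivWithinAt (s := Iic 0)
    exact h1.const_sub _
  have hle : ∀ᶠ t in 𝓝[<] (0 : ℝ), (fun y : EE n => (T (u x) + ‖x - c‖) - ‖y - c‖) (x + t • ν) ≤
      (fun y : EE n => T (u y)) (x + t • ν) := by
    have h1 : Tendsto (fun t : ℝ => x + t • ν) (𝓝[<] 0) (𝓝[closure D] x) := by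
      rw [tendsto_nhdsWithin_iff]
      constructor
      · have h2 : Continuous (fun t : ℝ => x + t • ν) := by fun_prop
        have h3 := h2.tendsto 0
        simp only [zero_smul, add_zero] at h3
        exact h3.mono_left nhdsWithin_le_nhds
      · have h2 : ∀ᶠ t in 𝓝[<] (0 : ℝ), -(2 * ρ) < t := by
          apply eventually_nhdsWithin_of_eventually_nhds
          exact Ioi_mem_nhds (by linarith)
        filter_upwards [h2, self_mem_nhdsWithin] with t ht1 ht2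
        exact hseg t (le_of_lt ht2) ht1
    filter_upwards [h1.eventually hmin] with t ht
    linarith
  have h6 := bd_le (φ := fun y : EE n => (T (u x) + ‖x - c‖) - ‖y - c‖)
    (β := fun y : EE n => T (u y)) hd2 hd hle (by simp)
  have h7 : u' = -(u x / α) := by
    field_simp
    linarith
  rw [h7] at h6
  have h8 : 1 / G (u x) * -(u x / α) = -(u x / (α * G (u x))) := by
    field_simp
  rw [h8] at h6
  have h9 : inner ℝ (x - c) ν / ‖x - c‖ ≤ u x / (α * G (u x)) := by linarith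
  rw [le_div_iff₀ (by positivity)] at h9
  linarith

/-- disjoint balls -/
private lemma two_balls (hρ : 0 < ρ) {x c ν : EE n} (hν : ‖ν‖ = 1) (hc : ball c ρ ⊆ D)
    (hν2 : Disjoint (ball (x + ρ • ν) ρ) D) :
    3 * ρ ^ 2 - ‖x - c‖ ^ 2 ≤ 2 * ρ * inner ℝ (x - c) ν := by
  have h1 : 2 * ρ ≤ ‖(x - c) + ρ • ν‖ := by
    by_contra hcon
    push Not at hcon
    have hm1 : (1 / 2 : ℝ) • (c + (x + ρ • ν)) ∈ ball c ρ := by
      rw [mem_ball, dist_eq_norm]
      have h2 : (1 / 2 : ℝ) • (c + (x + ρ • ν)) - c = (1 / 2 : ℝ) • ((x - c) + ρ • ν) := by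
        module
      rw [h2, norm_smul]
      norm_num
      linarith
    have hm2 : (1 / 2 : ℝ) • (c + (x + ρ • ν)) ∈ ball (x + ρ • ν) ρ := by
      rw [mem_ball, dist_eq_norm]
      have h2 : (1 / 2 : ℝ) • (c + (x + ρ • ν)) - (x + ρ • ν) =
          -((1 / 2 : ℝ) • ((x - c) + ρ • ν)) := by
        module
      rw [h2, norm_neg, norm_smul]
      norm_num
      linarith
    exact Set.disjoint_left.mp hν2 hm2 (hc hm1)
  have h2 : ‖(x - c) + ρ • ν‖ ^ 2 = ‖x - c‖ ^ 2 + 2 * (ρ * inner ℝ (x - c) ν) + ρ ^ 2 := by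
    rw [norm_add_sq_real, inner_smul_right, norm_smul, hν, mul_one, Real.norm_eq_abs, sq_abs]
  have h3 : (2 * ρ) ^ 2 ≤ ‖(x - c) + ρ • ν‖ ^ 2 := pow_le_pow_left₀ (by positivity) h1 2
  rw [h2] at h3
  linarith

theorem lower_barrier (hn : 1 ≤ n) (hf : IsPositiveReaction f) (hα : 0 < α) (hρ : 0 < ρ)
    (hD : BallDomain ρ D)
    (hu : IsSol f α D u) (hP : Profile f (-η) b G T) (hTinf : ∀ C, ∃ s ∈ Ico 0 b, C ≤ T s) (hb1 : b ≤ 1)
    (hη : 0 < η) {M : ℝ} (hG : ∀ s ∈ Ico 0 b, G s ≤ M) {R S δ : ℝ} (hRρ : R < ρ) (hδ : δ < 1)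
    (hR : ∀ x, closedBall x R ⊆ D → b ≤ u x) (hbig : (n - 1) * M < η * (ρ - R)) (hS : 0 ≤ S)
    (hgeo : 2 * ρ * (ρ + S) * (1 - δ) ≤ 3 * ρ ^ 2 - (ρ + S) ^ 2)
    {a : ℝ} (ha : a ∈ Ico 0 b) (haS : T a ≤ S)
    (haα : ∀ s ∈ Ico 0 a, s < α * (1 - δ) * G s) {c : EE n} (hc : ball c ρ ⊆ D) :
    ∀ x ∈ closure D, u x < b → ρ - ‖x - c‖ + T a ≤ T (u x) := by
  intro x hx hxb
  by_contra hcon
  push Not at hcon
  have hTmono := hP.strictMonoOn
  have hTnn : ∀ s ∈ Ico 0 b, 0 ≤ T s := by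
    intro s hs
    have h1 : T 0 ≤ T s := hTmono.monotoneOn ⟨le_rfl, hP.bpos⟩ hs hs.1
    rwa [hP.T0] at h1
  obtain ⟨b', hb', hTb'⟩ := hTinf (ρ + S + 1)
  have hunn := hu.nonneg
  -- the compact set
  set Y : Set (EE n) := (closure D ∩ u ⁻¹' Iic b') ∩ closedBall c (ρ + S + 1) with hY
  have hYc : IsCompact Y :=
    (isCompact_closedBall c (ρ + S + 1)).inter_left
      (hu.cont.preimage_isClosed_of_isClosed isClosed_closure isClosed_Iic)
  have hmem : ∀ y ∈ closure D, u y < b → T (u y) + ‖y - c‖ < ρ + T a →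
      u y < b' ∧ ‖y - c‖ < ρ + S + 1 := by
    intro y hy hyb hlt
    have h1 := hTnn (u y) ⟨hunn y hy, hyb⟩
    have h2 := norm_nonneg (y - c)
    constructor
    · by_contra h3
      push Not at h3
      have h4 : T b' ≤ T (u y) := hTmono.monotoneOn hb' ⟨hunn y hy, hyb⟩ h3
      linarith
    · linarith
  have hxY : x ∈ Y := by
    obtain ⟨h1, h2⟩ := hmem x hx hxb (by linarith)
    refine ⟨⟨hx, h1.le⟩, ?_⟩
    rw [mem_closedBall, dist_eq_norm]
    exact h2.le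
  have hcont : ContinuousOn (fun y => T (u y) + ‖y - c‖) Y := by
    apply ContinuousOn.add
    · apply hP.continuousOn.comp (hu.cont.mono fun y hy => hy.1.1)
      intro y hy
      exact ⟨hunn y hy.1.1, lt_of_le_of_lt hy.1.2 hb'.2⟩
    · fun_prop
  obtain ⟨x1, hx1, hmin⟩ := hYc.exists_isMinOn ⟨x, hxY⟩ hcont
  have hlt : T (u x1) + ‖x1 - c‖ < ρ + T a := by
    have h1 : T (u x1) + ‖x1 - c‖ ≤ T (u x) + ‖x - c‖ := hmin hxY
    linarith
  have hx1b : u x1 < b := lt_of_le_of_lt hx1.1.2 hb'.2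
  obtain ⟨hb1', hK1⟩ := hmem x1 hx1.1.1 hx1b hlt
  -- relative local minimum
  have hloc : ∀ᶠ y in 𝓝[closure D] x1, T (u x1) + ‖x1 - c‖ ≤ T (u y) + ‖y - c‖ := by
    have h1 : ∀ᶠ y in 𝓝[closure D] x1, u y < b' :=
      (hu.cont x1 hx1.1.1).eventually (Iio_mem_nhds hb1')
    have h2 : ∀ᶠ y in 𝓝[closure D] x1, ‖y - c‖ < ρ + S + 1 := by
      apply eventually_nhdsWithin_of_eventually_nhds
      have h3 : Continuous (fun y : EE n => ‖y - c‖) := by fun_prop
      exact h3.continuousAt.eventually (Iio_mem_nhds hK1)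
    filter_upwards [h1, h2, self_mem_nhdsWithin] with y hy1 hy2 hy3
    apply hmin
    refine ⟨⟨hy3, hy1.le⟩, ?_⟩
    rw [mem_closedBall, dist_eq_norm]
    exact hy2.le
  have hT1 := hTnn (u x1) ⟨hunn x1 hx1.1.1, hx1b⟩
  -- the distance to the centre
  have hfar : ρ - R ≤ ‖x1 - c‖ := by
    by_contra h1
    push Not at h1
    have h2 : closedBall x1 R ⊆ D := by
      intro y hy
      apply hc
      rw [mem_closedBall, dist_eq_norm] at hy
      rw [mem_ball, dist_eq_norm]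
      calc ‖y - c‖ = ‖(y - x1) + (x1 - c)‖ := by congr 1; abel
        _ ≤ ‖y - x1‖ + ‖x1 - c‖ := norm_add_le _ _
        _ < ρ := by linarith
    have := hR x1 h2
    linarith
  have hx1c : x1 ≠ c := by
    intro h
    rw [h, sub_self, norm_zero] at hfar
    linarith
  by_cases hx1D : x1 ∈ D
  · have h1 : IsLocalMin (fun y => T (u y) + ‖y - c‖) x1 := by
      have h2 : 𝓝[closure D] x1 = 𝓝 x1 :=
        nhdsWithin_eq_nhds.mpr (mem_of_superset (hD.isOpen.mem_nhds hx1D) subset_closure)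
      rw [h2] at hloc
      exact hloc
    have h2 := inner_case hu hP hD.isOpen hx1D hx1b hx1c h1
    have h3 := hG (u x1) ⟨hunn x1 hx1.1.1, hx1b⟩
    have hn1 : (0 : ℝ) ≤ n - 1 := by
      have : (1 : ℝ) ≤ n := by exact_mod_cast hn
      linarith
    have h4 : (n - 1) * G (u x1) ≤ (n - 1) * M := mul_le_mul_of_nonneg_left h3 hn1
    have h5 : η * (ρ - R) ≤ η * ‖x1 - c‖ := mul_le_mul_of_nonneg_left hfar hη.le
    linarith
  · have hfr : x1 ∈ frontier D := by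
      rw [frontier, hD.isOpen.interior_eq]
      exact ⟨hx1.1.1, hx1D⟩
    have hge : ρ ≤ ‖x1 - c‖ := by
      by_contra h1
      push Not at h1
      apply hx1D
      apply hc
      rw [mem_ball, dist_eq_norm]
      exact h1
    have hr0 : 0 < ‖x1 - c‖ := by linarith
    obtain ⟨ν, hν, hν1, hν2⟩ := hD.normal x1 hfr
    have h1 := frontier_case hα hρ hu hP hfr hν hν1 hν2 hx1b hx1c hloc
    have h2 := two_balls hρ hν hc hν2
    have h3 : ‖x1 - c‖ ≤ ρ + S := by linarith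
    have h4 : (1 - δ) ≤ inner ℝ (x1 - c) ν / ‖x1 - c‖ := by
      rw [le_div_iff₀ hr0]
      have h5 : ‖x1 - c‖ ^ 2 ≤ (ρ + S) ^ 2 := pow_le_pow_left₀ hr0.le h3 2
      have h6 : (1 - δ) * ‖x1 - c‖ ≤ (1 - δ) * (ρ + S) :=
        mul_le_mul_of_nonneg_left h3 (by linarith)
      have h7 : 2 * ρ * ((1 - δ) * ‖x1 - c‖) ≤ 2 * ρ * inner ℝ (x1 - c) ν := by
        have h8 := mul_le_mul_of_nonneg_left h6 (show (0 : ℝ) ≤ 2 * ρ by linarith)
        linarith
      exact le_of_mul_le_mul_left h7 (by linarith)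
    have hG1 : 0 < G (u x1) := hP.Gpos _ ⟨hunn x1 hx1.1.1, hx1b⟩
    have h5 : α * (1 - δ) * G (u x1) ≤ u x1 := by
      refine le_trans ?_ h1
      apply mul_le_mul_of_nonneg_right _ hG1.le
      exact mul_le_mul_of_nonneg_left h4 hα.le
    have h6 : a ≤ u x1 := by
      by_contra h7
      push Not at h7
      have := haα (u x1) ⟨hunn x1 hx1.1.1, h7⟩
      linarith
    have h7 : T a ≤ T (u x1) := hTmono.monotoneOn ha ⟨hunn x1 hx1.1.1, hx1b⟩ h6
    linarith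

end Pool.Agent.Lib.MP_188651_an
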