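import Pool.Agent.Lib.MP_188651_an.Gpb

open Set Filter Metric Topology InnerProductSpace Laplacian
open scoped Pointwise

namespace Pool.Agent.Lib.MP_188651_an

variable {f : ℝ → ℝ}

private theorem f_cont (hf : IsPositiveReaction f) {s : ℝ} (hs : 0 < s) : ContinuousAt f s :=
  hf.smooth.continuousOn.continuousAt (Ici_mem_nhds hs)

/-- mean value theorem for `F(s) - η s` -/
private theorem mvt_phi (hf : IsPositiveReaction f) (η : ℝ) {s t : ℝ} (hs : 0 ≤ s) (hst : s < t) :
    ∃ ξ ∈ Ioo s t, (FF f t - η * t) - (FF f s - η * s) = (f ξ - η) * (t - s) := by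
  have hc : ContinuousOn (fun r => FF f r - η * r) (Icc s t) := by
    apply ContinuousOn.sub
    · exact (FF_continuousOn hf).mono fun r hr => hs.trans hr.1
    · exact (continuous_const.mul continuous_id).continuousOn
  have hd : ∀ r ∈ Ioo s t, HasDerivAt (fun r => FF f r - η * r) (f r - η) r := by
    intro r hr
    have h1 := FF_hasDerivAt hf (lt_of_le_of_lt hs hr.1)
    have h2 := (hasDerivAt_id r).const_mul η
    have h4 : HasDerivAt (fun r => FF f r - η * r) (f r - η * 1) r := h1.sub h2
    rwa [mul_one] at h4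
  obtain ⟨ξ, hξ, h⟩ := exists_hasDerivAt_eq_slope _ _ hst hc hd
  refine ⟨ξ, hξ, ?_⟩
  have : t - s ≠ 0 := (sub_pos.2 hst).ne'
  rw [h]
  field_simp

theorem lower_profile (hf : IsPositiveReaction f) {η₃ : ℝ} (h3 : 0 < η₃) (h3' : η₃ < 1) :
    ∃ c₃ > 0, ∃ η₀ > 0, ∀ η, 0 < η → η < η₀ → ∃ (b : ℝ) (G T : ℝ → ℝ), 1 - η₃ < b ∧ b < 1 ∧
      Profile f (-η) b G T ∧ (∀ C, ∃ s ∈ Ico 0 b, C ≤ T s) ∧
      (∀ s ∈ Ico 0 b, G s ≤ Gp f η s ∧ Gp f η s ^ 2 - G s ^ 2 ≤ 6 * η) ∧
      (∀ s ∈ Icc 0 (1 - η₃), c₃ ≤ G s ^ 2) := by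
  have hc3 : 0 < FF f 1 - FF f (1 - η₃) := by
    have := FF_strictMonoOn hf (⟨by linarith, by linarith⟩ : (1 - η₃) ∈ Icc (0 : ℝ) 1)
      (⟨by norm_num, le_rfl⟩ : (1 : ℝ) ∈ Icc (0 : ℝ) 1) (by linarith)
    linarith
  refine ⟨FF f 1 - FF f (1 - η₃), hc3, (FF f 1 - FF f (1 - η₃)) / 2, by linarith, ?_⟩
  set c₃ := FF f 1 - FF f (1 - η₃) with hc3def
  intro η hη hη0
  set φ : ℝ → ℝ := fun s => FF f s - η * s with hφ
  have hφc : ContinuousOn φ (Icc 0 1) := by
    apply ContinuousOn.sub
    · exact (FF_continuousOn hf).mono fun r hr => hr.1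
    · exact (continuous_const.mul continuous_id).continuousOn
  -- the least maximiser
  obtain ⟨b0, hb0, hb0max⟩ := isCompact_Icc.exists_isMaxOn (⟨0, by simp⟩ : (Icc (0:ℝ) 1).Nonempty) hφc
  set M := φ b0 with hM
  have hmaxM : ∀ s ∈ Icc (0 : ℝ) 1, φ s ≤ M := fun s hs => hb0max hs
  have hScl : IsCompact (Icc (0 : ℝ) 1 ∩ φ ⁻¹' {M}) :=
    isCompact_Icc.of_isClosed_subset
      (hφc.preimage_isClosed_of_isClosed isClosed_Icc isClosed_singleton) inter_subset_left
  obtain ⟨b, hbS, hbmin⟩ := hScl.exists_isLeast ⟨b0, hb0, rfl⟩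
  have hbI : b ∈ Icc (0 : ℝ) 1 := hbS.1
  have hbM : φ b = M := hbS.2
  have hlt : ∀ s, 0 ≤ s → s < b → φ s < M := by
    intro s hs hsb
    have hsI : s ∈ Icc (0 : ℝ) 1 := ⟨hs, hsb.le.trans hbI.2⟩
    refine lt_of_le_of_ne (hmaxM s hsI) ?_
    intro h
    exact absurd (hbmin ⟨hsI, h⟩) (not_le.2 hsb)
  have h1I : (1 : ℝ) ∈ Icc (0 : ℝ) 1 := ⟨by norm_num, le_rfl⟩
  have hφ1 : FF f 1 - η ≤ M := by
    have := hmaxM 1 h1I
    simpa [hφ] using this
  -- below `1 - η₃`
  have hlow : ∀ s, 0 ≤ s → s ≤ 1 - η₃ → c₃ / 2 ≤ M - φ s := by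
    intro s hs hs'
    have h1 : FF f s ≤ FF f (1 - η₃) := (FF_strictMonoOn hf).monotoneOn
      ⟨hs, by linarith⟩ ⟨by linarith, by linarith⟩ hs'
    have h2 : φ s ≤ FF f s := by
      simp only [hφ]
      nlinarith
    linarith
  have hb1 : 1 - η₃ < b := by
    by_contra hc
    have := hlow b hbI.1 (not_lt.1 hc)
    rw [hbM] at this
    linarith
  have hbpos : 0 < b := by linarith
  have hb2 : b < 1 := by
    refine lt_of_le_of_ne hbI.2 ?_
    intro hb
    have hf1 := f_cont hf (one_pos)
    rw [Metric.continuousAt_iff] at hf1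
    obtain ⟨δ, hδ, hδ'⟩ := hf1 η hη
    set s := max 0 (1 - δ / 2) with hs
    have hs0 : 0 ≤ s := le_max_left _ _
    have hs1 : s < 1 := max_lt (by norm_num) (by linarith)
    have hs2 : 1 - δ / 2 ≤ s := le_max_right _ _
    obtain ⟨ξ, hξ, h⟩ := mvt_phi hf η hs0 hs1
    have h1 : f ξ < η := by
      have := hδ' (x := ξ) (by rw [Real.dist_eq, abs_lt]; constructor <;> linarith [hξ.1, hξ.2])
      rw [Real.dist_eq, hf.one, sub_zero] at this
      exact (abs_lt.1 this).2
    have h2 : φ 1 - φ s = (f ξ - η) * (1 - s) := h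
    have h3 : φ 1 = M := by rw [← hb, hbM]
    have h4 := hmaxM s ⟨hs0, hs1.le⟩
    nlinarith
  -- the derivative at `b` vanishes
  have hfb : f b = η := by
    have hloc : IsLocalMax φ b := by
      filter_upwards [Icc_mem_nhds hbpos hb2] with s hs
      rw [hbM]
      exact hmaxM s hs
    have hd : HasDerivAt φ (f b - η) b := by
      have h1 := FF_hasDerivAt hf hbpos
      have h2 := (hasDerivAt_id b).const_mul η
      have h4 : HasDerivAt φ (f b - η * 1) b := h1.sub h2
      rwa [mul_one] at h4
    have := hloc.hasDerivAt_eq_zero hd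
    linarith
  -- the functions
  set H : ℝ → ℝ := fun s => M - φ (max 0 s) with hH
  set G : ℝ → ℝ := fun s => √(2 * H s) with hG
  set T : ℝ → ℝ := fun s => ∫ r in (0 : ℝ)..s, 1 / G r with hT
  have hHc : Continuous H := by
    have h1 : ContinuousOn φ (Ici 0) := by
      apply ContinuousOn.sub (FF_continuousOn hf)
      exact (continuous_const.mul continuous_id).continuousOn
    exact continuous_const.sub (h1.comp_continuous (continuous_const.max continuous_id)
      fun s => mem_Ici.2 (le_max_left _ _))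
  have hGc : Continuous G := (continuous_const.mul hHc).sqrt
  have hHs : ∀ s, 0 ≤ s → H s = M - φ s := fun s hs => by simp only [hH, max_eq_right hs]
  have hHpos : ∀ s, s < b → 0 < H s := by
    intro s hs
    have := hlt (max 0 s) (le_max_left _ _) (max_lt hbpos hs)
    simp only [hH]
    linarith
  have hGpos : ∀ s, s < b → 0 < G s := fun s hs =>
    Real.sqrt_pos.2 (mul_pos two_pos (hHpos s hs))
  have hGsq : ∀ s, s < b → G s ^ 2 = 2 * H s := fun s hs =>
    Real.sq_sqrt (mul_pos two_pos (hHpos s hs)).le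
  have hTder : ∀ s, s < b → HasDerivAt T (1 / G s) s := by
    intro s hs
    apply intervalIntegral.integral_hasDerivAt_right
    · apply ContinuousOn.intervalIntegrable
      intro r hr
      have hrb : r < b := by
        rcases le_total 0 s with h | h
        · rw [uIcc_of_le h] at hr
          exact lt_of_le_of_lt hr.2 hs
        · rw [uIcc_of_ge h] at hr
          exact lt_of_le_of_lt hr.2 hbpos
      exact (continuousAt_const.div hGc.continuousAt (hGpos r hrb).ne').continuousWithinAt
    · exact (measurable_const.div hGc.measurable).stronglyMeasurable.stronglyMeasurableAtFilter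
    · exact continuousAt_const.div hGc.continuousAt (hGpos s hs).ne'
  have hGder : ∀ s, 0 < s → s < b → HasDerivAt G (-(f s + -η) / G s) s := by
    intro s hs hsb
    have h1 : HasDerivAt (fun r => 2 * (M - (FF f r - η * r))) (2 * (0 - (f s - η))) s := by
      have h1 := FF_hasDerivAt hf hs
      have h2 := (hasDerivAt_id s).const_mul η
      have h4 : HasDerivAt (fun r => FF f r - η * r) (f s - η * 1) s := h1.sub h2
      rw [mul_one] at h4
      exact ((hasDerivAt_const s M).sub h4).const_mul 2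
    have h2 : (fun r => 2 * H r) =ᶠ[𝓝 s] fun r => 2 * (M - (FF f r - η * r)) := by
      filter_upwards [Ioi_mem_nhds hs] with r hr
      rw [hHs r (le_of_lt hr)]
    have h3 := h1.congr_of_eventuallyEq h2
    have h4 := h3.sqrt (mul_pos two_pos (hHpos s hsb)).ne'
    have h5 : 2 * (0 - (f s - η)) / (2 * √(2 * H s)) = -(f s + -η) / G s := by
      have := (hGpos s hsb).ne'
      simp only [hG] at this ⊢
      field_simp
      ring
    rw [h5] at h4
    exact h4
  refine ⟨b, G, T, hb1, hb2, ⟨hbpos, hGc.continuousOn, fun s hs => hGpos s hs.2,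
    fun s hs => hGder s hs.1 hs.2, by simp [hT], (hTder 0 hbpos).hasDerivWithinAt,
    fun s hs => hTder s hs.2⟩, ?_, ?_, ?_⟩
  · -- divergence
    intro C
    have hCD : ContDiffAt ℝ 1 f b := hf.smooth.contDiffAt (Ici_mem_nhds hbpos)
    obtain ⟨K, t, ht, hK⟩ := hCD.exists_lipschitzOnWith
    obtain ⟨δ, hδ, hδt⟩ := Metric.mem_nhds_iff.1 ht
    set K' : ℝ := (K : ℝ) + 1 with hK'
    have hKpos : 0 < K' := by positivity
    set s0 := max 0 (b - δ / 2) with hs0
    have hs0' : 0 ≤ s0 := le_max_left _ _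
    have hs0b : s0 < b := max_lt hbpos (by linarith)
    have hs0d : b - δ / 2 ≤ s0 := le_max_right _ _
    set k := √(2 * K') with hk
    have hkpos : 0 < k := Real.sqrt_pos.2 (by positivity)
    have hGle : ∀ s, s0 ≤ s → s < b → G s ≤ k * (b - s) := by
      intro s hs hsb
      have hs00 : 0 ≤ s := hs0'.trans hs
      obtain ⟨ξ, hξ, h⟩ := mvt_phi hf η hs00 hsb
      have h1 : f ξ - η ≤ K' * (b - s) := by
        have hbt : b ∈ t := hδt (Metric.mem_ball_self hδ)
        have hξt : ξ ∈ t := by
          apply hδt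
          rw [Metric.mem_ball, Real.dist_eq, abs_lt]
          constructor <;> linarith [hξ.1, hξ.2]
        have h2 := hK.dist_le_mul ξ hξt b hbt
        rw [Real.dist_eq, Real.dist_eq, hfb] at h2
        have h3 := le_abs_self (f ξ - η)
        have h4 : |ξ - b| ≤ b - s := by
          rw [abs_le]
          constructor <;> linarith [hξ.1, hξ.2]
        have h5 : (K : ℝ) * |ξ - b| ≤ K' * (b - s) := by
          apply mul_le_mul _ h4 (abs_nonneg _) hKpos.le
          linarith
        linarith
      have h6 : 2 * H s ≤ 2 * K' * (b - s) ^ 2 := by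
        rw [hHs s hs00, ← hbM]
        have h7 : φ b - φ s = (f ξ - η) * (b - s) := h
        rw [h7]
        have h8 : 0 ≤ b - s := by linarith
        nlinarith
      calc G s ≤ √(2 * K' * (b - s) ^ 2) := Real.sqrt_le_sqrt h6
        _ = k * (b - s) := by
          rw [Real.sqrt_mul (by positivity), Real.sqrt_sq (by linarith)]
    -- the comparison function
    have hmono : MonotoneOn (fun s => T s + (1 / k) * Real.log (b - s)) (Ico s0 b) := by
      apply monotoneOn_of_deriv_nonneg (convex_Ico s0 b)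
      · intro s hs
        apply ContinuousAt.continuousWithinAt
        have h1 : b - s ≠ 0 := (sub_pos.2 hs.2).ne'
        exact (hTder s hs.2).continuousAt.add (continuousAt_const.mul
          ((continuousAt_const.sub continuousAt_id).log h1))
      · intro s hs
        rw [interior_Ico] at hs
        have h1 : b - s ≠ 0 := (sub_pos.2 hs.2).ne'
        exact ((hTder s hs.2).differentiableAt.add
          ((((differentiableAt_const b).sub differentiableAt_id).log h1).const_mul _)).differentiableWithinAt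
      · intro s hs
        rw [interior_Ico] at hs
        have h1 : 0 < b - s := sub_pos.2 hs.2
        have h2 : HasDerivAt (fun s => T s + (1 / k) * Real.log (b - s))
            (1 / G s + (1 / k) * (-1 / (b - s))) s := by
          have h3 : HasDerivAt (fun s => b - s) (-1) s := by
            simpa using (hasDerivAt_id s).const_sub b
          exact (hTder s hs.2).add ((h3.log h1.ne').const_mul _)
        rw [h2.deriv]
        have h4 := hGle s hs.1.le hs.2
        have h5 := hGpos s hs.2
        have h6 : 1 / (k * (b - s)) ≤ 1 / G s := one_div_le_one_div_of_le h5 h4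
        have h7 : (1 / k) * (-1 / (b - s)) = -(1 / (k * (b - s))) := by
          field_simp
        rw [h7]
        linarith
    set X := |C - T s0| with hX
    set ε := (b - s0) * Real.exp (-(k * X)) with hε
    have hbs0 : 0 < b - s0 := by linarith
    have hεpos : 0 < ε := by positivity
    have hεle : ε ≤ b - s0 := by
      rw [hε]
      have : Real.exp (-(k * X)) ≤ 1 := by
        rw [Real.exp_le_one_iff]
        have : 0 ≤ k * X := by positivity
        linarith
      nlinarith
    refine ⟨b - ε, ⟨by linarith, by linarith⟩, ?_⟩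
    have h1 := hmono (⟨le_rfl, hs0b⟩ : s0 ∈ Ico s0 b)
      (⟨by linarith, by linarith⟩ : b - ε ∈ Ico s0 b) (by linarith)
    simp only [sub_sub_cancel] at h1
    have h2 : Real.log ε = Real.log (b - s0) - k * X := by
      rw [hε, Real.log_mul hbs0.ne' (Real.exp_pos _).ne', Real.log_exp]
      ring
    rw [h2] at h1
    have h3 : (1 / k) * (Real.log (b - s0) - k * X) = (1 / k) * Real.log (b - s0) - X := by
      field_simp
    rw [h3] at h1
    have h4 := le_abs_self (C - T s0)
    linarith
  · intro s hs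
    have hsI : s ∈ Icc (0 : ℝ) 1 := ⟨hs.1, hs.2.le.trans hbI.2⟩
    have h1 := Gp_sq hf hη hsI
    have h2 := hGsq s hs.2
    rw [hHs s hs.1] at h2
    have hMle : M ≤ FF f 1 := by
      rw [← hbM]
      have := FF_le_one hf hbI.1
      simp only [hφ]
      nlinarith
    have h3 : Gp f η s ^ 2 - G s ^ 2 = 2 * (FF f 1 - M) + 4 * η * (1 - s) := by
      rw [h1, h2]
      simp only [hφ]
      ring
    have h4 : 0 ≤ 1 - s := by linarith [hsI.2]
    have h5 : 1 - s ≤ 1 := by linarith [hsI.1]
    constructor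
    · have h6 : G s ^ 2 ≤ Gp f η s ^ 2 := by nlinarith
      exact (pow_le_pow_iff_left₀ (hGpos s hs.2).le (Gp_pos hf hη s).le two_ne_zero).1 h6
    · rw [h3]
      nlinarith
  · intro s hs
    have hsb : s < b := by linarith [hs.2]
    rw [hGsq s hsb, hHs s hs.1]
    have := hlow s hs.1 hs.2
    linarith

end Pool.Agent.Lib.MP_188651_an
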