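import Pool.Agent.Lib.MP_188651_an.TpInv

open Set Filter Metric Topology InnerProductSpace Laplacian
open scoped Pointwise

namespace Pool.Agent.Lib.MP_188651_an

variable {f : ℝ → ℝ} {η lam : ℝ}

private lemma ps_f_deriv (hf : IsPositiveReaction f) {s : ℝ} (hs : 0 < s) :
    HasDerivAt f (deriv f s) s := by
  have h1 : ContDiffAt ℝ 1 f s := (hf.smooth s hs.le).contDiffAt (Ici_mem_nhds hs)
  exact (h1.differentiableAt (by norm_num)).hasDerivAt

private noncomputable def psM (f : ℝ → ℝ) (η lam a s : ℝ) : ℝ :=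
  1 + lam * ∫ r in a..s, (2 - r) / Gp f η r ^ 3

private noncomputable def psP (f : ℝ → ℝ) (η lam a s : ℝ) : ℝ :=
  -(f s + η) * psM f η lam a s + lam * (2 - s) / Gp f η s

private lemma ps_cont (hf : IsPositiveReaction f) (hη : 0 < η) :
    Continuous (fun r => (2 - r) / Gp f η r ^ 3) := by
  have h1 := Gp_continuous hf η
  refine Continuous.div (by fun_prop) (by fun_prop) fun r => ?_
  exact (pow_pos (Gp_pos hf hη r) 3).ne'

private lemma ps_M_deriv (hf : IsPositiveReaction f) (hη : 0 < η) (a s : ℝ) :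
    HasDerivAt (psM f η lam a) (lam * ((2 - s) / Gp f η s ^ 3)) s := by
  have h1 := ps_cont hf hη
  have h2 : HasDerivAt (fun s => ∫ r in a..s, (2 - r) / Gp f η r ^ 3)
      ((2 - s) / Gp f η s ^ 3) s :=
    intervalIntegral.integral_hasDerivAt_right (h1.intervalIntegrable _ _)
      (h1.stronglyMeasurableAtFilter _ _) h1.continuousAt
  have h3 := (h2.const_mul lam).const_add 1
  exact h3

private lemma ps_K_deriv (hf : IsPositiveReaction f) (hη : 0 < η) (a : ℝ) {s : ℝ}
    (hs : s ∈ Ioo (0 : ℝ) (3 / 2)) :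
    HasDerivAt (KK f η lam a) (psP f η lam a s / Gp f η s) s := by
  have hG := (Gp_profile hf hη).Gder s hs
  have hG0 := Gp_pos hf hη s
  have h1 := hG.mul (ps_M_deriv (lam := lam) hf hη a s)
  have h2 : HasDerivAt (KK f η lam a) (-(f s + η) / Gp f η s * psM f η lam a s +
      Gp f η s * (lam * ((2 - s) / Gp f η s ^ 3))) s := h1
  refine h2.congr_deriv ?_
  unfold psP
  field_simp

private lemma ps_P_deriv (hf : IsPositiveReaction f) (hη : 0 < η) (a : ℝ) {s : ℝ}
    (hs : s ∈ Ioo (0 : ℝ) (3 / 2)) :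
    HasDerivAt (psP f η lam a) ((-deriv f s * KK f η lam a s - lam) / Gp f η s) s := by
  have hG := (Gp_profile hf hη).Gder s hs
  have hG0 := Gp_pos hf hη s
  have h1 := ((ps_f_deriv hf hs.1).add_const η).neg.mul (ps_M_deriv (lam := lam) hf hη a s)
  have h2 : HasDerivAt (fun s : ℝ => lam * (2 - s)) (lam * (-1)) s :=
    ((hasDerivAt_id s).const_sub 2).const_mul lam
  have h3 := h1.add (h2.div hG hG0.ne')
  have h4 : HasDerivAt (psP f η lam a) (-deriv f s * psM f η lam a s +
      (-(f s + η)) * (lam * ((2 - s) / Gp f η s ^ 3)) +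
      (lam * -1 * Gp f η s - lam * (2 - s) * (-(f s + η) / Gp f η s)) / Gp f η s ^ 2) s := h3
  refine h4.congr_deriv ?_
  have h5 : KK f η lam a s = Gp f η s * psM f η lam a s := rfl
  rw [h5]
  field_simp
  ring

theorem exists_psi (hf : IsPositiveReaction f) (hη : 0 < η) (hη1 : η ≤ 1) (hlam : 0 < lam) :
    ∃ Λ > 0, ∀ a ∈ Ioo (0 : ℝ) 1, ∃ (p Ψ Ψ' : ℝ → ℝ) (X : ℝ), 0 < X ∧ X ≤ Tp f η 1 ∧ p X = 1 ∧
      (∀ d ∈ Icc 0 X, p d ∈ Icc a 1 ∧ Tp f η (p d) = d + Tp f η a) ∧
      (∀ d ∈ Icc 0 X, (∀ᶠ z in 𝓝 d, HasDerivAt Ψ (Ψ' z) z) ∧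
        HasDerivAt Ψ' (-deriv f (p d) * Ψ d - lam) d ∧ |Ψ' d| < Λ ∧ 0 < Ψ d ∧ Ψ d = KK f η lam a (p d)) ∧
      p 0 = a ∧ Ψ 0 = Gp f η a ∧ Ψ' 0 = -(f a + η) + lam * (2 - a) / Gp f η a := by
  obtain ⟨P0, hP1, hP2, hP3, hP4⟩ := Tp_inv hf hη
  obtain ⟨Cf, hCf⟩ := (isCompact_Icc (a := (0 : ℝ)) (b := 1)).exists_bound_of_continuousOn
    (hf.smooth.continuousOn.mono (fun x (hx : x ∈ Icc (0 : ℝ) 1) => hx.1))
  have hCf0 : 0 ≤ Cf := (norm_nonneg _).trans (hCf 0 (by simp))
  have hsη : 0 < √η := Real.sqrt_pos.2 hη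
  set B : ℝ := 1 + lam * (2 / √η ^ 3) with hB
  have hB0 : 0 < B := by positivity
  refine ⟨(Cf + 1) * B + lam * 2 / √η + 1, by positivity, ?_⟩
  intro a ha
  have hT0 : Tp f η 0 = 0 := by
    unfold Tp
    exact intervalIntegral.integral_same
  have hTmono : StrictMono (Tp f η) := by
    apply strictMono_of_hasDerivAt_pos (f' := fun s => 1 / Gp f η s)
    · exact fun s => Tp_hasDerivAt hf hη s
    · exact fun s => one_div_pos.2 (Gp_pos hf hη s)
  have hTa : 0 < Tp f η a := by
    rw [← hT0]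
    exact hTmono ha.1
  have hT1 : Tp f η a < Tp f η 1 := hTmono ha.2
  set p : ℝ → ℝ := fun d => P0 (d + Tp f η a) with hp
  have hp0 : p 0 = a := by
    simp only [hp, zero_add]
    exact hP1 a
  have hpX : p (Tp f η 1 - Tp f η a) = 1 := by
    simp only [hp, sub_add_cancel]
    exact hP1 1
  have hpmono : StrictMono p := fun x y hxy => hP4 (by linarith)
  have hpI : ∀ d ∈ Icc 0 (Tp f η 1 - Tp f η a), p d ∈ Icc a 1 := by
    intro d hd
    constructor
    · rw [← hp0]
      exact hpmono.monotone hd.1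
    · rw [← hpX]
      exact hpmono.monotone hd.2
  have hpd : ∀ z, HasDerivAt p (Gp f η (p z)) z := by
    intro z
    exact (hP3 (z + Tp f η a)).comp_add_const z (Tp f η a)
  have hm1 : ∀ s ∈ Icc a 1, 1 ≤ psM f η lam a s := by
    intro s hs
    unfold psM
    have : 0 ≤ ∫ r in a..s, (2 - r) / Gp f η r ^ 3 := by
      apply intervalIntegral.integral_nonneg hs.1
      intro r hr
      apply div_nonneg
      · linarith [hr.2, hs.2]
      · exact (pow_pos (Gp_pos hf hη r) 3).le
    have h2 := mul_nonneg hlam.le this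
    linarith
  have hm2 : ∀ s ∈ Icc a 1, psM f η lam a s ≤ B := by
    intro s hs
    unfold psM
    have h1 : ∫ r in a..s, (2 - r) / Gp f η r ^ 3 ≤ ∫ r in a..s, 2 / √η ^ 3 := by
      apply intervalIntegral.integral_mono_on hs.1
      · exact (ps_cont hf hη).intervalIntegrable _ _
      · exact intervalIntegrable_const
      · intro r hr
        have h3 : √η ^ 3 ≤ Gp f η r ^ 3 := pow_le_pow_left₀ hsη.le (Gp_ge hf hη r) 3
        have h4 : 0 < Gp f η r ^ 3 := pow_pos (Gp_pos hf hη r) 3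
        apply div_le_div₀ (by norm_num) _ (by positivity) h3
        linarith [hr.1, ha.1]
    rw [intervalIntegral.integral_const, smul_eq_mul] at h1
    have h5 : (s - a) * (2 / √η ^ 3) ≤ 1 * (2 / √η ^ 3) := by
      apply mul_le_mul_of_nonneg_right _ (by positivity)
      linarith [hs.2, ha.1]
    have h6 := mul_le_mul_of_nonneg_left (h1.trans h5) hlam.le
    rw [hB]
    linarith
  refine ⟨p, fun d => KK f η lam a (p d), fun d => psP f η lam a (p d), Tp f η 1 - Tp f η a,
    by linarith, by linarith, hpX, ?_, ?_, hp0, ?_, ?_⟩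
  · intro d hd
    exact ⟨hpI d hd, hP2 _⟩
  · intro d hd
    have hpd1 := hpI d hd
    have hsI : p d ∈ Ioo (0 : ℝ) (3 / 2) := ⟨ha.1.trans_le hpd1.1, by linarith [hpd1.2]⟩
    have hG0 := Gp_pos hf hη (p d)
    refine ⟨?_, ?_, ?_, ?_, rfl⟩
    · have hev : ∀ᶠ z in 𝓝 d, p z ∈ Ioo (0 : ℝ) (3 / 2) :=
        (hpd d).continuousAt.eventually (Ioo_mem_nhds hsI.1 hsI.2)
      filter_upwards [hev] with z hz
      have h1 := (ps_K_deriv (lam := lam) hf hη a hz).comp z (hpd z)
      have hGz := Gp_pos hf hη (p z)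
      rw [div_mul_cancel₀ _ hGz.ne'] at h1
      exact h1
    · have h1 := (ps_P_deriv (lam := lam) hf hη a hsI).comp d (hpd d)
      rw [div_mul_cancel₀ _ hG0.ne'] at h1
      exact h1
    · have h1 : |psP f η lam a (p d)| ≤ (Cf + 1) * B + lam * 2 / √η := by
        unfold psP
        refine (abs_add_le _ _).trans (add_le_add ?_ ?_)
        · rw [abs_mul, abs_neg]
          have h2 := hCf (p d) ⟨ha.1.le.trans hpd1.1, hpd1.2⟩
          rw [Real.norm_eq_abs] at h2
          have h3 : |f (p d) + η| ≤ Cf + 1 := by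
            refine (abs_add_le _ _).trans (add_le_add h2 ?_)
            rw [abs_of_pos hη]
            exact hη1
          have h4 := hm1 (p d) hpd1
          have h5 := hm2 (p d) hpd1
          rw [abs_of_nonneg (by linarith : (0 : ℝ) ≤ psM f η lam a (p d))]
          exact mul_le_mul h3 h5 (by linarith) (by linarith)
        · rw [abs_of_nonneg (div_nonneg (mul_nonneg hlam.le (by linarith [hpd1.2])) hG0.le)]
          apply div_le_div₀ (by positivity) _ hsη (Gp_ge hf hη _)
          apply mul_le_mul_of_nonneg_left _ hlam.le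
          linarith [hpd1.1, ha.1]
      linarith
    · have h4 := hm1 (p d) hpd1
      have h5 : KK f η lam a (p d) = Gp f η (p d) * psM f η lam a (p d) := rfl
      simp only [h5]
      exact mul_pos hG0 (by linarith)
  · simp only [hp0]
    unfold KK
    rw [intervalIntegral.integral_same]
    ring
  · simp only [hp0]
    unfold psP psM
    rw [intervalIntegral.integral_same]
    ring

end Pool.Agent.Lib.MP_188651_an
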