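import Pool.Agent.Lib.MP_188651_an.Tpb

open Set Filter Metric Topology InnerProductSpace Laplacian
open scoped Pointwise

namespace Pool.Agent.Lib.MP_188651_an

variable {f : ℝ → ℝ} {η : ℝ}

theorem Tp_inv (hf : IsPositiveReaction f) (hη : 0 < η) : ∃ p : ℝ → ℝ, (∀ s, p (Tp f η s) = s) ∧
    (∀ z, Tp f η (p z) = z) ∧ (∀ z, HasDerivAt p (Gp f η (p z)) z) ∧ StrictMono p := by
  have hd := Tp_hasDerivAt hf hη
  have hpos := Gp_pos hf hη
  have hmono : StrictMono (Tp f η) := by
    apply strictMono_of_deriv_pos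
    intro s
    rw [(hd s).deriv]
    exact one_div_pos.2 (hpos s)
  have hcont : Continuous (Tp f η) := continuous_iff_continuousAt.2 (fun s => (hd s).continuousAt)
  obtain ⟨C, hC⟩ := Gp_bdd hf η
  have hCpos : 0 < C := lt_of_lt_of_le (hpos 0) (hC 0)
  have h0 : Tp f η 0 = 0 := (Gp_profile hf hη).T0
  have hm2 : Monotone (fun s => Tp f η s - (1 / C) * s) := by
    have hdd : ∀ s, HasDerivAt (fun s => Tp f η s - (1 / C) * s) (1 / Gp f η s - (1 / C) * 1) s :=
      fun s => (hd s).sub ((hasDerivAt_id s).const_mul (1 / C))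
    apply monotone_of_deriv_nonneg (fun s => (hdd s).differentiableAt)
    intro s
    rw [(hdd s).deriv]
    have : 1 / C ≤ 1 / Gp f η s := one_div_le_one_div_of_le (hpos s) (hC s)
    linarith
  have htop : Tendsto (Tp f η) atTop atTop := by
    have h1 : Tendsto (fun s : ℝ => (1 / C) * s) atTop atTop :=
      tendsto_id.const_mul_atTop (one_div_pos.2 hCpos)
    refine tendsto_atTop_mono' atTop ?_ h1
    filter_upwards [eventually_ge_atTop (0 : ℝ)] with s hs
    have := hm2 hs
    simp only [h0, mul_zero, sub_zero] at this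
    linarith
  have hbot : Tendsto (Tp f η) atBot atBot := by
    have h1 : Tendsto (fun s : ℝ => (1 / C) * s) atBot atBot :=
      tendsto_id.const_mul_atBot (one_div_pos.2 hCpos)
    refine tendsto_atBot_mono' atBot ?_ h1
    filter_upwards [eventually_le_atBot (0 : ℝ)] with s hs
    have := hm2 hs
    simp only [h0, mul_zero, sub_zero] at this
    linarith
  have hsurj : Function.Surjective (Tp f η) := hcont.surjective htop hbot
  let e : ℝ ≃o ℝ := hmono.orderIsoOfSurjective (Tp f η) hsurj
  have he : ∀ s, e s = Tp f η s := fun s => rfl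
  have hr : ∀ z, Tp f η (e.symm z) = z := fun z => by rw [← he]; exact e.apply_symm_apply z
  refine ⟨e.symm, fun s => by rw [← he]; exact e.symm_apply_apply s, hr, fun z => ?_,
    e.symm.strictMono⟩
  have hne : (1 / Gp f η (e.symm z)) ≠ 0 := (one_div_pos.2 (hpos _)).ne'
  have h := HasDerivAt.of_local_left_inverse (f := Tp f η) (g := e.symm) (a := z)
    e.symm.continuous.continuousAt (hd (e.symm z)) hne (Eventually.of_forall hr)
  simpa using h

end Pool.Agent.Lib.MP_188651_an
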