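import Pool.Agent.Lib.MP_188651_an.UpBar
import Pool.Agent.Lib.MP_188651_an.LowBar
import Pool.Agent.Lib.MP_188651_an.InnerOne
import Pool.Agent.Lib.MP_188651_an.TpInv
import Pool.Agent.Lib.MP_188651_an.Lower
import Pool.Agent.Lib.MP_188651_an.Nearest
import Pool.Agent.Lib.MP_188651_an.C2
import Pool.Agent.Lib.MP_188651_an.Smul
import Pool.Agent.Lib.MP_188651_an.Psi
import Pool.Agent.Lib.MP_188651_an.KKs
import Pool.Agent.Lib.MP_188651_an.KKl
import Pool.Agent.Lib.MP_188651_an.CompC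
import Pool.Agent.Lib.MP_188651_an.CompP
import Pool.Agent.Lib.MP_188651_an.CloseB
import Pool.Agent.Lib.MP_188651_an.FDer

open Set Filter Metric Topology InnerProductSpace Laplacian
open scoped Pointwise

namespace Pool.Agent.Lib.MP_188651_an

variable {n : ℕ}

section trap
variable {f : ℝ → ℝ} {α ρ : ℝ} {D : Set (EE n)} {u : EE n → ℝ}

theorem norm_ext {y ν : EE n} {d : ℝ} (hν : ‖ν‖ = 1) (hd : 0 ≤ d) (hρ : 0 < ρ) :
    ‖(y - d • ν) - (y + ρ • ν)‖ = ρ + d := by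
  have : (y - d • ν) - (y + ρ • ν) = -((ρ + d) • ν) := by
    rw [add_smul]; abel
  rw [this, norm_neg, norm_smul, hν, mul_one, Real.norm_eq_abs, abs_of_nonneg (by linarith)]

theorem norm_int {y ν : EE n} {d : ℝ} (hν : ‖ν‖ = 1) (hd : d ≤ ρ) :
    ‖(y - d • ν) - (y - ρ • ν)‖ = ρ - d := by
  have : (y - d • ν) - (y - ρ • ν) = (ρ - d) • ν := by
    rw [sub_smul]; abel
  rw [this, norm_smul, hν, mul_one, Real.norm_eq_abs, abs_of_nonneg (by linarith)]

theorem trap_upper (hn : 1 ≤ n) (hf : IsPositiveReaction f) (hα : 0 < α) (hρ : 0 < ρ)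
    (hD : BallDomain ρ D) (hne : (frontier D).Nonempty) (hu : IsSol f α D u) {η : ℝ} (hη : 0 < η) (hη1 : η ≤ 1)
    (hbig : (n - 1) * Gm f < η * ρ) {a : ℝ} (ha : a ∈ Icc (0 : ℝ) 1) (haα : a = α * Gp f η a)
    {x : EE n} (hx : x ∈ D) : Tp f η (u x) ≤ infDist x (frontier D) + Tp f η a := by
  obtain ⟨hd, y, hy, ν, hν, hint, hext, hxy⟩ := nearest hρ hD hne hx
  have h := upper_barrier hn hf hα hρ hD ⟨x, hx⟩ hu (Gp_profile hf hη) (by norm_num) hη
    (fun s hs => Gp_le_Gm hf hη hη1 hs) hbig ha (fun s hs has => by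
      have h1 := Gp_anti hf hη ha hs has.le
      have h2 := mul_le_mul_of_nonneg_left h1 hα.le
      linarith) hext x (subset_closure hx)
  have h2 : ‖x - (y + ρ • ν)‖ = ρ + infDist x (frontier D) := by
    conv_lhs => rw [hxy]
    exact norm_ext hν hd.le hρ
  rw [h2] at h
  linarith

theorem trap_lower (hn : 1 ≤ n) (hf : IsPositiveReaction f) (hα : 0 < α) (hρ : 0 < ρ)
    (hD : BallDomain ρ D) (hne : (frontier D).Nonempty) (hu : IsSol f α D u) {η b : ℝ} {G T : ℝ → ℝ}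
    (hP : Profile f (-η) b G T) (hTinf : ∀ C, ∃ s ∈ Ico 0 b, C ≤ T s) (hb1 : b ≤ 1)
    (hη : 0 < η) {M : ℝ} (hG : ∀ s ∈ Ico 0 b, G s ≤ M) {R S δ : ℝ} (hRρ : R < ρ) (hδ : δ < 1)
    (hR : ∀ x, closedBall x R ⊆ D → b ≤ u x) (hbig : (n - 1) * M < η * (ρ - R)) (hS : 0 ≤ S)
    (hgeo : 2 * ρ * (ρ + S) * (1 - δ) ≤ 3 * ρ ^ 2 - (ρ + S) ^ 2)
    {a : ℝ} (ha : a ∈ Ico 0 b) (haS : T a ≤ S)
    (haα : ∀ s ∈ Ico 0 a, s < α * (1 - δ) * G s) {x : EE n} (hx : x ∈ D) (hxb : u x < b) :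
    infDist x (frontier D) + T a ≤ T (u x) := by
  obtain ⟨hd, y, hy, ν, hν, hint, hext, hxy⟩ := nearest hρ hD hne hx
  have hdR : infDist x (frontier D) ≤ R := by
    by_contra hcon
    push Not at hcon
    have := hR x (closedBall_subset_of_infDist hx hne hcon)
    linarith
  have h := lower_barrier hn hf hα hρ hD hu hP hTinf hb1 hη hG hRρ hδ hR hbig hS hgeo ha haS haα hint x
    (subset_closure hx) hxb
  have h2 : ‖x - (y - ρ • ν)‖ = ρ - infDist x (frontier D) := by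
    conv_lhs => rw [hxy]
    exact norm_int hν (by linarith)
  rw [h2] at h
  linarith

end trap

section final
variable {f : ℝ → ℝ}

/-- The difference of two solutions. -/
theorem sub_facts {α : ℝ} {D : Set (EE n)} {u v : EE n → ℝ} (hD : IsOpen D) (hu : IsSol f α D u)
    (hv : IsSol f α D v) :
    ContDiffOn ℝ 2 (fun x => u x - v x) D ∧ ContinuousOn (fun x => u x - v x) (closure D) ∧
    (∃ C, ∀ x ∈ closure D, u x - v x ≤ C) ∧
    (∀ y ∈ frontier D, ∀ ν, IsOutwardNormal D y ν →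
      ∃ w', HasDerivWithinAt (fun t : ℝ => u (y + t • ν) - v (y + t • ν)) w' (Iic 0) 0 ∧
        (u y - v y) + α * w' = 0) ∧
    (∀ x ∈ D, (Δ (fun x => u x - v x)) x = -(f (u x) - f (v x))) := by
  refine ⟨hu.contDiffOn.sub hv.contDiffOn, hu.cont.sub hv.cont, ?_, ?_, ?_⟩
  · obtain ⟨C, hC⟩ := hu.bdd
    obtain ⟨C', hC'⟩ := hv.bdd
    refine ⟨C + C', fun x hx => ?_⟩
    have h1 := abs_le.mp (hC x hx)
    have h2 := abs_le.mp (hC' x hx)
    linarith [h1.1, h1.2, h2.1, h2.2]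
  · intro y hy ν hν
    obtain ⟨u', h1, h2⟩ := hu.bc y hy ν hν
    obtain ⟨v', h3, h4⟩ := hv.bc y hy ν hν
    exact ⟨u' - v', h1.sub h3, by linarith⟩
  · intro x hx
    have h1 : ContDiffAt ℝ 2 u x := hu.contDiffOn.contDiffAt (hD.mem_nhds hx)
    have h2 : ContDiffAt ℝ 2 v x := hv.contDiffOn.contDiffAt (hD.mem_nhds hx)
    have h3 := h1.laplacian_sub h2
    have h4 : (fun x => u x - v x) = u - v := rfl
    rw [h4, h3]
    have h5 := hu.eq x hx
    have h6 := hv.eq x hx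
    have h7 : (-(Δ u)) x = -((Δ u) x) := rfl
    linarith

/-- All constants that depend on `f` only (and then `η`, `δ`), with the lower profile. -/
structure Consts (f : ℝ → ℝ) (η₂ c₂ c lam κ₂ ω η₃ c₃ η b θ δ : ℝ) (G T : ℝ → ℝ) : Prop where
  h2 : 0 < η₂
  h2' : η₂ < 1 / 4
  c2 : 0 < c₂
  hc2 : ∀ s ∈ Icc (1 - 2 * η₂) 1, deriv f s ≤ -c₂
  hc : 0 < c
  hcF : c ≤ FF f 1 - FF f (1 - η₂)
  hlam : lam = c * √(2 * c) / 2
  hk : κ₂ = Gm f * (1 + lam * (2 / √(2 * c) ^ 3)) + 1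
  hω : ω = lam / (4 * κ₂)
  h3 : 0 < η₃
  h3' : η₃ < η₂
  hosc : ∀ s s' : ℝ, 0 < s → s ≤ 1 → 0 < s' → s' ≤ 1 → |s - s'| ≤ η₃ → |deriv f s - deriv f s'| ≤ ω
  hc3 : 0 < c₃
  hη : 0 < η
  hη1 : η ≤ 1
  hb : 1 - η₃ < b
  hb1 : b < 1
  hP : Profile f (-η) b G T
  hTinf : ∀ C, ∃ s ∈ Ico 0 b, C ≤ T s
  hG : ∀ s ∈ Ico 0 b, G s ≤ Gp f η s ∧ Gp f η s ^ 2 - G s ^ 2 ≤ 6 * η
  hG3 : ∀ s ∈ Icc 0 (1 - η₃), c₃ ≤ G s ^ 2
  hK : ∀ a ∈ Icc 0 (1 - η₂), κ₂ ≤ KK f η lam a 1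
  hθ : 0 < θ
  hθ2 : θ ≤ η₂
  hθ3 : θ / √(2 * c) ≤ η₃ / (4 * Gm f)
  hτ : 3 * η / (c₃ * √c₃) ≤ η₃ / (4 * Gm f)
  hδ : 0 < δ
  hδ1 : δ < 1
  h6 : 6 * η / (2 * c) ≤ θ * √(2 * c) / (4 * Gm f)
  h7 : δ * Gm f / √(2 * c) ≤ θ * √(2 * c) / (4 * Gm f)

theorem Gm_pos (hf : IsPositiveReaction f) : 0 < Gm f := by
  unfold Gm
  apply Real.sqrt_pos.mpr
  have := FF_le_one hf (s := 0) le_rfl
  rw [FF_zero] at this
  linarith

theorem exists_consts (hf : IsPositiveReaction f) :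
    ∃ (η₂ c₂ c lam κ₂ ω η₃ c₃ η b θ δ : ℝ) (G T : ℝ → ℝ), Consts f η₂ c₂ c lam κ₂ ω η₃ c₃ η b θ δ G T := by
  obtain ⟨η₂, h2, h2', c₂, hc2, hc2'⟩ := exists_eta2 hf
  obtain ⟨c, hcdef⟩ : ∃ c, c = FF f 1 - FF f (1 - η₂) := ⟨_, rfl⟩
  have hc : 0 < c := by
    rw [hcdef]
    have := FF_strictMonoOn hf (a := 1 - η₂) (b := 1) ⟨by linarith, by linarith⟩ ⟨by norm_num, le_rfl⟩ (by linarith)
    linarith
  have hsc : 0 < √(2 * c) := Real.sqrt_pos.mpr (by linarith)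
  have hGm := Gm_pos hf
  obtain ⟨lam, hlam⟩ : ∃ lam, lam = c * √(2 * c) / 2 := ⟨_, rfl⟩
  have hlam0 : 0 < lam := by rw [hlam]; positivity
  obtain ⟨κ₂, hk⟩ : ∃ κ₂, κ₂ = Gm f * (1 + lam * (2 / √(2 * c) ^ 3)) + 1 := ⟨_, rfl⟩
  have hk0 : 0 < κ₂ := by rw [hk]; positivity
  obtain ⟨ω, hω⟩ : ∃ ω, ω = lam / (4 * κ₂) := ⟨_, rfl⟩
  have hω0 : 0 < ω := by rw [hω]; positivity
  obtain ⟨η₃, h3, h3', hosc⟩ := exists_eta3 hf hω0 h2
  obtain ⟨c₃, hc3, η₀, hη₀, hlow⟩ := lower_profile hf h3 (by linarith)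
  have hsc3 : 0 < √c₃ := Real.sqrt_pos.mpr hc3
  obtain ⟨η₀', hη₀', hKl⟩ := KK_large hf hlam0 (κ₂ := κ₂) h2 (by linarith)
  obtain ⟨θ, hθdef⟩ : ∃ θ, θ = min η₂ (√(2 * c) * (η₃ / (4 * Gm f))) := ⟨_, rfl⟩
  have hθ : 0 < θ := by rw [hθdef]; positivity
  obtain ⟨η, hηdef⟩ : ∃ η, η = min (min 1 (η₀ / 2)) (min (η₀' / 2) (min (η₃ / (4 * Gm f) * (c₃ * √c₃) / 3)
    (θ * √(2 * c) / (4 * Gm f) * (2 * c) / 6))) := ⟨_, rfl⟩
  have hη : 0 < η := by rw [hηdef]; positivity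
  have e1 : η ≤ 1 := by rw [hηdef]; exact (min_le_left _ _).trans (min_le_left _ _)
  have e2 : η ≤ η₀ / 2 := by rw [hηdef]; exact (min_le_left _ _).trans (min_le_right _ _)
  have e3 : η ≤ η₀' / 2 := by rw [hηdef]; exact (min_le_right _ _).trans (min_le_left _ _)
  have e4 : η ≤ η₃ / (4 * Gm f) * (c₃ * √c₃) / 3 := by
    rw [hηdef]; exact (min_le_right _ _).trans ((min_le_right _ _).trans (min_le_left _ _))
  have e5 : η ≤ θ * √(2 * c) / (4 * Gm f) * (2 * c) / 6 := by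
    rw [hηdef]; exact (min_le_right _ _).trans ((min_le_right _ _).trans (min_le_right _ _))
  obtain ⟨δ, hδdef⟩ : ∃ δ, δ = min (1 / 2) (θ * √(2 * c) / (4 * Gm f) * √(2 * c) / Gm f) := ⟨_, rfl⟩
  have hδ : 0 < δ := by rw [hδdef]; positivity
  have d1 : δ ≤ 1 / 2 := by rw [hδdef]; exact min_le_left _ _
  have d2 : δ ≤ θ * √(2 * c) / (4 * Gm f) * √(2 * c) / Gm f := by rw [hδdef]; exact min_le_right _ _
  obtain ⟨b, G, T, hb, hb1, hP, hTinf, hG, hG3⟩ := hlow η hη (by linarith)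
  refine ⟨η₂, c₂, c, lam, κ₂, ω, η₃, c₃, η, b, θ, δ, G, T, ?_⟩
  exact {
    h2 := h2, h2' := h2', c2 := hc2, hc2 := hc2', hc := hc, hcF := hcdef.le, hlam := hlam, hk := hk, hω := hω,
    h3 := h3, h3' := h3', hosc := hosc, hc3 := hc3, hη := hη, hη1 := e1, hb := hb, hb1 := hb1, hP := hP,
    hTinf := hTinf, hG := hG, hG3 := hG3, hK := hKl η hη (by linarith), hθ := hθ,
    hθ2 := by rw [hθdef]; exact min_le_left _ _
    hθ3 := by
      rw [div_le_iff₀ hsc, mul_comm]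
      rw [hθdef]; exact min_le_right _ _
    hτ := by
      rw [div_le_iff₀ (by positivity)]
      linarith
    hδ := hδ, hδ1 := by linarith
    h6 := by
      rw [div_le_iff₀ (by positivity)]
      linarith
    h7 := by
      rw [div_le_iff₀ hsc]
      rw [le_div_iff₀ hGm] at d2
      linarith }

variable {η₂ c₂ c lam κ₂ ω η₃ c₃ η b θ δ : ℝ} {G T : ℝ → ℝ}

/-- Conditions on the radius `ρ`. -/
structure RhoOK (n : ℕ) (f : ℝ → ℝ) (lam η₃ η b δ Λ R ρ : ℝ) (T : ℝ → ℝ) : Prop where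
  hR0 : 0 < R
  hRρ : R < ρ
  hRin : ∀ (D : Set (EE n)) (u : EE n → ℝ) (x : EE n), IsOpen D → ContDiffOn ℝ 2 u D → (∀ y ∈ D, 0 < u y) →
      (∀ y ∈ D, u y ≤ 1) → (∀ y ∈ D, -(Δ u) y = f (u y)) → closedBall x R ⊆ D → 1 - (1 - b) < u x
  hbig : (n - 1) * Gm f < η * ρ
  hbig' : (n - 1) * Gm f < η * (ρ - R)
  hgeo : 2 * ρ * (ρ + T (1 - η₃)) * (1 - δ) ≤ 3 * ρ ^ 2 - (ρ + T (1 - η₃)) ^ 2
  hX : 2 * Tp f η 1 ≤ ρ
  hΛ : 0 < Λ
  hcorr : 4 * n * Λ ≤ lam / 2 / 2 * ρ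
  hpsi : ∀ a ∈ Ioo (0 : ℝ) 1, ∃ (p Ψ Ψ' : ℝ → ℝ) (X : ℝ), 0 < X ∧ X ≤ Tp f η 1 ∧ p X = 1 ∧
      (∀ d ∈ Icc 0 X, p d ∈ Icc a 1 ∧ Tp f η (p d) = d + Tp f η a) ∧
      (∀ d ∈ Icc 0 X, (∀ᶠ z in 𝓝 d, HasDerivAt Ψ (Ψ' z) z) ∧
        HasDerivAt Ψ' (-deriv f (p d) * Ψ d - lam) d ∧ |Ψ' d| < Λ ∧ 0 < Ψ d ∧ Ψ d = KK f η lam a (p d)) ∧
      p 0 = a ∧ Ψ 0 = Gp f η a ∧ Ψ' 0 = -(f a + η) + lam * (2 - a) / Gp f η a

theorem Consts.lam_pos (C : Consts f η₂ c₂ c lam κ₂ ω η₃ c₃ η b θ δ G T) : 0 < lam := by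
  rw [C.hlam]
  have := C.hc
  positivity

theorem Consts.T_nonneg (C : Consts f η₂ c₂ c lam κ₂ ω η₃ c₃ η b θ δ G T) : 0 ≤ T (1 - η₃) := by
  have h2' := C.h2'
  have h3' := C.h3'
  have hb := C.hb
  have hb1 := C.hb1
  have h : T 0 < T (1 - η₃) := C.hP.strictMonoOn ⟨le_rfl, by linarith⟩ ⟨by linarith, by linarith⟩ (by linarith)
  rw [C.hP.T0] at h
  exact h.le

theorem exists_rho (n : ℕ) (hf : IsPositiveReaction f) (C : Consts f η₂ c₂ c lam κ₂ ω η₃ c₃ η b θ δ G T) :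
    ∃ (Λ R ρ₀ : ℝ), 0 < ρ₀ ∧ ∀ ρ > ρ₀, RhoOK n f lam η₃ η b δ Λ R ρ T := by
  have hη := C.hη
  have hlam := C.lam_pos
  have hδ := C.hδ
  have hGm := Gm_pos hf
  have hb1 := C.hb1
  obtain ⟨R, hR0, hRin⟩ := inner_one n hf (η := 1 - b) (by linarith)
  obtain ⟨Λ, hΛ, hpsi⟩ := exists_psi hf C.hη C.hη1 C.lam_pos
  have hS := C.T_nonneg
  obtain ⟨S, hSdef⟩ : ∃ S, S = T (1 - η₃) := ⟨_, rfl⟩
  rw [← hSdef] at hS
  have hT1 : 0 ≤ Tp f η 1 := by
    have h := Tp_slope_ge hf C.hη C.hη1 (a := 1) (a' := 0) le_rfl zero_le_one le_rfl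
    have h0 : Tp f η 0 = 0 := (Gp_profile hf C.hη).T0
    rw [h0] at h
    have : 0 ≤ (1 - 0) / Gm f := by positivity
    linarith
  refine ⟨Λ, R, 1 + R + n * Gm f / η + (4 * S + S ^ 2) / (2 * δ) + 2 * Tp f η 1 + 16 * n * Λ / lam, by positivity,
    fun ρ hρ => ?_⟩
  have p1 : 0 ≤ n * Gm f / η := by positivity
  have p2 : 0 ≤ (4 * S + S ^ 2) / (2 * δ) := by positivity
  have p3 : 0 ≤ 16 * n * Λ / lam := by positivity
  have q1 : n * Gm f / η < ρ - R := by linarith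
  rw [div_lt_iff₀ hη] at q1
  have q2 : (4 * S + S ^ 2) / (2 * δ) < ρ := by linarith
  rw [div_lt_iff₀ (by positivity)] at q2
  have q3 : 16 * n * Λ / lam < ρ := by linarith
  rw [div_lt_iff₀ hlam] at q3
  have hρ1 : 1 < ρ := by linarith
  exact {
    hR0 := hR0
    hRρ := by linarith
    hRin := hRin
    hbig := by nlinarith [mul_pos hη hR0]
    hbig' := by nlinarith
    hgeo := by
      rw [← hSdef]
      nlinarith [mul_nonneg hδ.le (mul_nonneg (by linarith : (0:ℝ) ≤ ρ) hS), mul_nonneg (sq_nonneg S) (by linarith : (0:ℝ) ≤ ρ - 1),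
        mul_nonneg (by linarith : (0:ℝ) ≤ ρ * (2 * δ) - (4 * S + S ^ 2)) (by linarith : (0:ℝ) ≤ ρ)]
    hX := by linarith
    hΛ := hΛ
    hcorr := by nlinarith
    hpsi := hpsi }

section
variable {α ρ R Λ : ℝ} {D : Set (EE n)} {v : EE n → ℝ}

theorem deep (hf : IsPositiveReaction f) (hα : 0 < α)
    (hρ : RhoOK n f lam η₃ η b δ Λ R ρ T) (hD : BallDomain ρ D) (hv : IsSol f α D v) (x : EE n)
    (hx : closedBall x R ⊆ D) : b ≤ v x := by
  have hρ0 : 0 < ρ := hρ.hR0.trans hρ.hRρ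
  have := hρ.hRin D v x hD.isOpen hv.contDiffOn hv.pos
    (fun y hy => hv.le_one hρ0 hf hα hD y (subset_closure hy)) hv.eq hx
  linarith

theorem low_bound (hn : 1 ≤ n) (hf : IsPositiveReaction f) (C : Consts f η₂ c₂ c lam κ₂ ω η₃ c₃ η b θ δ G T)
    (hρ : RhoOK n f lam η₃ η b δ Λ R ρ T) (hα : 0 < α) (hD : BallDomain ρ D) (hne : (frontier D).Nonempty)
    (hv : IsSol f α D v) {a α' : ℝ} (ha : a ∈ Icc 0 (1 - η₂)) (hα' : α' ≤ α) (haα : a = α' * Gp f η a)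
    {x : EE n} (hx : x ∈ D) (hxb : v x < b) : infDist x (frontier D) + T (max 0 (a - θ)) ≤ T (v x) := by
  have hρ0 : 0 < ρ := hρ.hR0.trans hρ.hRρ
  have h2 := C.h2
  have h2' := C.h2'
  have h3 := C.h3
  have h3' := C.h3'
  have hb := C.hb
  have hb1 := C.hb1
  have hθ := C.hθ
  have hm0 : 0 ≤ max 0 (a - θ) := le_max_left _ _
  have hm1 : max 0 (a - θ) ≤ 1 - η₂ := max_le (by linarith) (by linarith [ha.2])
  have hlc := low_cond hf C.hη C.hη1 C.h2 (by linarith) C.hc C.hcF (by linarith) C.hP C.hG ha haα C.hθ C.hδ.le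
    C.hδ1 C.h6 C.h7
  refine trap_lower hn hf hα hρ0 hD hne hv C.hP C.hTinf hb1.le C.hη (M := Gm f)
    (fun s hs => ((C.hG s hs).1).trans (Gp_le_Gm hf C.hη C.hη1 ⟨hs.1, by linarith [hs.2]⟩)) hρ.hRρ C.hδ1
    (deep hf hα hρ hD hv) hρ.hbig' C.T_nonneg hρ.hgeo (a := max 0 (a - θ)) ⟨hm0, by linarith⟩ ?_ ?_ hx hxb
  · exact C.hP.strictMonoOn.monotoneOn ⟨hm0, by linarith⟩ ⟨by linarith, by linarith⟩ (by linarith)
  · intro s hs
    refine (hlc s hs).trans_le ?_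
    have hG0 := C.hP.Gpos s ⟨hs.1, by linarith [hs.2]⟩
    have h1 : 0 < 1 - δ := by linarith [C.hδ1]
    exact mul_le_mul_of_nonneg_right (mul_le_mul_of_nonneg_right hα' h1.le) hG0.le

theorem close_low (hn : 1 ≤ n) (hf : IsPositiveReaction f) (C : Consts f η₂ c₂ c lam κ₂ ω η₃ c₃ η b θ δ G T)
    (hρ : RhoOK n f lam η₃ η b δ Λ R ρ T) (hα : 0 < α) (hD : BallDomain ρ D) (hne : (frontier D).Nonempty)
    (hv : IsSol f α D v) {a : ℝ} (ha : a ∈ Icc 0 (1 - η₂)) (haα : a = α * Gp f η a)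
    {x : EE n} (hx : x ∈ D) (hxb : v x < 1 - η₃) :
    infDist x (frontier D) + Tp f η a - η₃ / (2 * Gm f) ≤ Tp f η (v x) := by
  have h2 := C.h2
  have h2' := C.h2'
  have h3 := C.h3
  have h3' := C.h3'
  have hb := C.hb
  have hb1 := C.hb1
  have hθ := C.hθ
  have hGm := Gm_pos hf
  have hm0 : 0 ≤ max 0 (a - θ) := le_max_left _ _
  have hm1 : max 0 (a - θ) ≤ a := max_le ha.1 (by linarith)
  have hm2 : a - max 0 (a - θ) ≤ θ := by linarith [le_max_right 0 (a - θ)]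
  have h := low_bound hn hf C hρ hα hD hne hv ha le_rfl haα hx (by linarith)
  have hv0 := hv.pos x hx
  have hd : 0 ≤ infDist x (frontier D) := infDist_nonneg
  have hav : max 0 (a - θ) ≤ v x := by
    by_contra hcon
    push Not at hcon
    have : T (v x) < T (max 0 (a - θ)) :=
      C.hP.strictMonoOn ⟨hv0.le, by linarith⟩ ⟨hm0, by linarith [ha.2]⟩ hcon
    linarith
  have hdiff := diff_small hf C.hη C.h3 C.hc3 C.hb C.hb1 C.hP C.hG C.hG3 hm0 hav hxb.le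
  have hslope := Tp_slope_le hf C.hη h2.le C.hc C.hcF hm0 hm1 ha.2
  have hsc : 0 < √(2 * c) := Real.sqrt_pos.mpr (by linarith [C.hc])
  have h5 : (a - max 0 (a - θ)) / √(2 * c) ≤ θ / √(2 * c) := div_le_div_of_nonneg_right hm2 hsc.le
  have h6 := C.hθ3
  have h7 := C.hτ
  have h8 : η₃ / (2 * Gm f) = η₃ / (4 * Gm f) + η₃ / (4 * Gm f) := by field_simp; ring
  linarith

/-- If `Tp p ≤ dist + Tp a` then `v` is close to `p` or bigger. -/
theorem close_p (hn : 1 ≤ n) (hf : IsPositiveReaction f) (C : Consts f η₂ c₂ c lam κ₂ ω η₃ c₃ η b θ δ G T)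
    (hρ : RhoOK n f lam η₃ η b δ Λ R ρ T) (hα : 0 < α) (hD : BallDomain ρ D) (hne : (frontier D).Nonempty)
    (hv : IsSol f α D v) {a : ℝ} (ha : a ∈ Icc 0 (1 - η₂)) (haα : a = α * Gp f η a)
    {x : EE n} (hx : x ∈ D) {q : ℝ} (hq : q ≤ 1) (hqd : Tp f η q ≤ infDist x (frontier D) + Tp f η a) :
    q - η₃ ≤ v x := by
  by_contra hcon
  push Not at hcon
  have hGm := Gm_pos hf
  have h3 := C.h3
  have h := close_low hn hf C hρ hα hD hne hv ha haα hx (by linarith)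
  have h1 := Tp_slope_ge hf C.hη C.hη1 (hv.pos x hx).le (by linarith : v x ≤ q) hq
  have h4 : (q - v x) / Gm f ≤ η₃ / (2 * Gm f) := by linarith
  rw [div_le_div_iff₀ hGm (by positivity)] at h4
  nlinarith

end

theorem uniq_ball (hn : 1 ≤ n) (hf : IsPositiveReaction f) : ∃ ρ₀ > 0, ∀ ρ > ρ₀, ∀ α > 0, ∀ D : Set (EE n),
    BallDomain ρ D → ∀ u v, IsSol f α D u → IsSol f α D v → ∀ x ∈ closure D, u x ≤ v x := by
  obtain ⟨η₂, c₂, c, lam, κ₂, ω, η₃, c₃, η, b, θ, δ, G, T, C⟩ := exists_consts hf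
  obtain ⟨Λ, R, ρ₀, hρ₀, hall⟩ := exists_rho n hf C
  refine ⟨ρ₀, hρ₀, fun ρ hρ α hα D hD u v hu hv => ?_⟩
  have hρ := hall ρ hρ
  have hρ0 : 0 < ρ := hρ.hR0.trans hρ.hRρ
  have h2 := C.h2
  have h2' := C.h2'
  have h3 := C.h3
  have h3' := C.h3'
  have hb := C.hb
  have hb1 := C.hb1
  have hη := C.hη
  have hθ := C.hθ
  have hlam := C.lam_pos
  have hc := C.hc
  have hGm := Gm_pos hf
  have hsc : 0 < √(2 * c) := Real.sqrt_pos.mpr (by linarith)
  have hu1 := hu.le_one hρ0 hf hα hD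
  have hv1 := hv.le_one hρ0 hf hα hD
  obtain ⟨w1, w2, w3, w4, w5⟩ := sub_facts hD.isOpen hu hv
  -- consequences of closeness to `1`
  have hfar1 : ∀ x ∈ D, 0 < u x - v x → 1 - 2 * η₂ ≤ v x →
      c₂ * (u x - v x) ≤ (Δ (fun x => u x - v x)) x := by
    intro x hx hw hvx
    obtain ⟨ξ, hξ, hξ2⟩ := mvt_f hf (hv.pos x hx) (by linarith : v x < u x)
    rw [w5 x hx, hξ2]
    have := C.hc2 ξ ⟨by linarith [hξ.1], by linarith [hξ.2, hu1 x (subset_closure hx)]⟩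
    nlinarith
  have hdv := deep hf hα hρ hD hv
  rcases (frontier D).eq_empty_or_nonempty with hemp | hne
  · -- the whole space
    intro x hx
    have := compare_const hρ0 hD hα w1 w2 w3 w4 C.c2 (fun x hx hw => hfar1 x hx hw ?_) x hx
    · linarith
    · have hD2 := frontier_nonempty_or hD.isOpen ⟨x, by assumption⟩ hemp
      have := hdv x (by rw [hD2]; exact subset_univ _)
      linarith
  · by_cases hcase : α < (1 - η₂) / Gp f η (1 - η₂)
    · -- small `α`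
      obtain ⟨a, ha, haα⟩ := exists_a hf hη h2 (by linarith) hα hcase
      have ha' : a ∈ Icc 0 (1 - η₂) := ⟨ha.1.le, ha.2.le⟩
      obtain ⟨p, Ψ, Ψ', X, hX, hX1, hpX, hp, hΨ, hp0, hΨ0, hΨ'0⟩ := hρ.hpsi a ⟨ha.1, by linarith [ha.2]⟩
      have hGa : √(2 * c) ≤ Gp f η a := Gp_ge_sqrt hf hη (by linarith) h2.le C.hcF ha'
      have hk : ∀ s, a ≤ s → s ≤ 1 - η₂ → KK f η lam a s < κ₂ := by
        intro s hs1 hs2
        have := KK_small hf hη C.hη1 hlam h2 hc C.hcF ha'.1 hs1 hs2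
        rw [C.hk]
        linarith
      have hpos0 : (0 : ℝ) ∈ Icc 0 X := ⟨le_rfl, hX.le⟩
      have hposX : X ∈ Icc 0 X := ⟨hX.le, le_rfl⟩
      have hκ0 : 0 < κ₂ := by rw [C.hk]; positivity
      have key := compare_psi hn hρ0 hD hne hα w1 w2 w3 w4 (X := X) (κ₂ := κ₂) (lam' := lam / 2) (Λ := Λ)
        (c₂ := c₂) (Ψ := Ψ) (Ψ' := Ψ') (Ψ'' := fun d => -deriv f (p d) * Ψ d - lam) hX (by positivity) C.c2
        (fun d hd => ⟨(hΨ d hd).1, (hΨ d hd).2.1, (hΨ d hd).2.2.1, (hΨ d hd).2.2.2.1⟩) ?_ ?_ ?_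
        (by linarith [hρ.hX]) hρ.hcorr ?_ ?_
      · intro x hx
        have := key x hx
        linarith
      · -- Ψ 0 < κ₂
        rw [(hΨ 0 hpos0).2.2.2.2, hp0]
        exact hk a le_rfl ha.2.le
      · rw [(hΨ X hposX).2.2.2.2, hpX]
        exact C.hK a ha'
      · -- boundary condition
        rw [hΨ0, hΨ'0]
        have hGa0 : 0 < Gp f η a := lt_of_lt_of_le hsc hGa
        have hfa : 0 < f a := hf.pos a ha.1 (by linarith [ha.2])
        have hαG : α = a / Gp f η a := by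
          rw [eq_div_iff hGa0.ne']; exact haα.symm
        have h5 : α * (lam * (2 - a) / Gp f η a) ≤ lam / (2 * c) := by
          rw [hαG]
          have h6 : a / Gp f η a * (lam * (2 - a) / Gp f η a) = lam * (a * (2 - a)) / (Gp f η a ^ 2) := by
            field_simp
          rw [h6]
          have h7 : 2 * c ≤ Gp f η a ^ 2 := by
            have := pow_le_pow_left₀ hsc.le hGa 2
            rwa [Real.sq_sqrt (by linarith)] at this
          apply div_le_div₀ hlam.le _ (by linarith) h7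
          have : a * (2 - a) ≤ 1 := by nlinarith [sq_nonneg (1 - a)]
          nlinarith
        have h8 : lam / (2 * c) = √(2 * c) / 4 := by
          rw [C.hlam]
          field_simp
          ring
        have h9 : 0 < α * (f a + η) := by positivity
        nlinarith
      · -- near
        intro x hx hw hd hΨd
        have hdd : infDist x (frontier D) ∈ Icc 0 X := ⟨infDist_nonneg, hd.le⟩
        obtain ⟨hp1, hp2⟩ := hp _ hdd
        have hup := trap_upper hn hf hα hρ0 hD hne hu hη C.hη1 hρ.hbig ⟨ha.1.le, by linarith [ha.2]⟩ haα hx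
        have hupx : u x ≤ p (infDist x (frontier D)) := by
          by_contra hcon
          push Not at hcon
          have h5 := Tp_slope_ge hf hη C.hη1 (ha.1.le.trans hp1.1) hcon.le (hu1 x (subset_closure hx))
          have h6 : 0 < (u x - p (infDist x (frontier D))) / Gm f := div_pos (by linarith) hGm
          linarith
        have hlow := close_p hn hf C hρ hα hD hne hv ha' haα hx hp1.2 hp2.le
        obtain ⟨ξ, hξ, hξ2⟩ := mvt_f hf (hv.pos x hx) (by linarith : v x < u x)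
        refine ⟨deriv f ξ, ?_, ?_⟩
        · rw [w5 x hx, hξ2]
          linarith
        · have hosc := C.hosc ξ (p (infDist x (frontier D))) (by linarith [hξ.1, hv.pos x hx])
            (by linarith [hξ.2, hp1.2]) (by linarith [hp1.1, ha.1]) hp1.2
            (by rw [abs_le]; constructor <;> linarith [hξ.1, hξ.2])
          have h5 := (abs_le.mp hosc).2
          have hΨp := (hΨ _ hdd).2.2.2.1
          have h6 : ω * κ₂ = lam / 4 := by
            rw [C.hω]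
            field_simp
          have hω0 : 0 ≤ ω := by rw [C.hω]; positivity
          have h7 : (deriv f ξ - deriv f (p (infDist x (frontier D)))) * Ψ (infDist x (frontier D)) ≤ ω * κ₂ := by
            calc _ ≤ ω * Ψ (infDist x (frontier D)) := mul_le_mul_of_nonneg_right h5 hΨp.le
              _ ≤ ω * κ₂ := mul_le_mul_of_nonneg_left hΨd.le hω0
          show lam / 2 ≤ -(-deriv f (p (infDist x (frontier D))) * Ψ (infDist x (frontier D)) - lam) -
            deriv f ξ * Ψ (infDist x (frontier D))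
          linarith
      · -- far
        intro x hx hw hor
        apply hfar1 x hx hw
        rcases hor with hd | hΨd
        · have := close_p hn hf C hρ hα hD hne hv ha' haα hx (q := 1) le_rfl (by
            have := (hp X hposX).2
            rw [hpX] at this
            linarith)
          linarith
        · by_cases hd : X ≤ infDist x (frontier D)
          · have := close_p hn hf C hρ hα hD hne hv ha' haα hx (q := 1) le_rfl (by
              have := (hp X hposX).2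
              rw [hpX] at this
              linarith)
            linarith
          · push Not at hd
            have hdd : infDist x (frontier D) ∈ Icc 0 X := ⟨infDist_nonneg, hd.le⟩
            obtain ⟨hp1, hp2⟩ := hp _ hdd
            have hpb : 1 - η₂ < p (infDist x (frontier D)) := by
              by_contra hcon
              push Not at hcon
              have := hk _ hp1.1 hcon
              rw [← (hΨ _ hdd).2.2.2.2] at this
              linarith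
            have := close_p hn hf C hρ hα hD hne hv ha' haα hx hp1.2 hp2.le
            linarith
    · -- large `α`
      push Not at hcase
      have hG1 : 0 < Gp f η (1 - η₂) := Gp_pos hf hη _
      intro x hx
      have := compare_const hρ0 hD hα w1 w2 w3 w4 C.c2 (fun x hx hw => hfar1 x hx hw ?_) x hx
      · linarith
      · by_cases hvb : v x < b
        · have h5 := low_bound hn hf C hρ hα hD hne hv (a := 1 - η₂) (α' := (1 - η₂) / Gp f η (1 - η₂))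
            ⟨by linarith, le_rfl⟩ hcase (by field_simp) (by assumption) hvb
          have h6 : 0 ≤ infDist x (frontier D) := infDist_nonneg
          have h7 : max 0 (1 - η₂ - θ) ≤ v x := by
            by_contra hcon
            push Not at hcon
            have hv0 := hv.pos x (by assumption)
            have hm : max 0 (1 - η₂ - θ) ≤ 1 - η₂ := max_le (by linarith) (by linarith)
            have : T (v x) < T (max 0 (1 - η₂ - θ)) := C.hP.strictMonoOn ⟨hv0.le, hvb⟩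
              ⟨le_max_left _ _, by linarith⟩ hcon
            linarith
          have h8 := le_max_right 0 (1 - η₂ - θ)
          have h9 := C.hθ2
          linarith
        · linarith

end final

end Pool.Agent.Lib.MP_188651_an
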