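import Pool.Agent.Lib.MP_188651_an.ExIterL
import Pool.Agent.Lib.MP_188651_an.ExStrong
import Pool.Agent.Lib.MP_188651_an.ExNDd
import Pool.Agent.Lib.MP_188651_an.ExLapA
import Pool.Agent.Lib.MP_188651_an.Uniq
import Pool.Agent.Lib.MP_188651_an.Smul
import Pool.Agent.Lib.MP_188651_an.C2

/-!
# Existence
-/

open Set Filter Metric Topology InnerProductSpace Laplacian
open scoped Pointwise

namespace Pool.Agent.Lib.MP_188651_an

variable {n : ℕ} {ρ M α ε R : ℝ} {D : Set (EE n)} {N : EE n → EE n} {f : ℝ → ℝ} {x0 : EE n}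

theorem exists_sol (hn : 1 ≤ n) (hf : IsPositiveReaction f) : ∃ R > 0, ∀ ρ > 0, ∀ α > 0, ∀ D : Set (EE n),
    BallDomain ρ D → IsConnected D → (∃ x0, closedBall x0 R ⊆ D) → ∃ u, IsSol f α D u := by
  obtain ⟨ε, hε, hε1, R, hR, hb⟩ := bump_sub n hf
  refine ⟨R, hR, fun ρ hρ α hα D hD hc => ?_⟩
  rintro ⟨x0, hx0⟩
  rcases (frontier D).eq_empty_or_nonempty with hfr | hne
  · refine ⟨fun _ => 1, contDiffOn_const, continuousOn_const, ⟨1, fun x _ => by simp⟩, fun _ _ => one_pos, ?_, ?_⟩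
    · intro x hx
      rw [hf.one, lap_const, neg_zero]
    · intro y hy
      rw [hfr] at hy
      exact absurd hy (notMem_empty y)
  obtain ⟨N, hN⟩ := BD.of_ballDomain hρ hD
  obtain ⟨M, hM, hmono⟩ := exists_M hf
  obtain ⟨g, u, H⟩ := exists_iter hn hf hN hα hM hmono hε hε1 hR (hb x0) hx0
  obtain ⟨w, hw, hw2, h01, heq, ⟨C, hC, h₀, hh₀, hnd⟩, hpos⟩ := H.limit hn hf hN hne hα hM hε hR hx0
  have hx0D : x0 ∈ D := hx0 (mem_closedBall_self hR.le)
  have hsp := strong_min hn hN.isOpen hc.isPreconnected hw2 (fun x hx => (h01 x (subset_closure hx)).1)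
    (fun x hx => by
      have h1 := heq x hx
      have h2 := h01 x (subset_closure hx)
      have h3 : 0 ≤ f (w x) := by
        rcases h2.1.eq_or_lt with h | h
        · rw [← h, hf.zero]
        · rcases h2.2.eq_or_lt with h' | h'
          · rw [h', hf.one]
          · exact (hf.pos _ h h').le
      linarith) hx0D hpos
  exact ⟨w, hw2, hw, ⟨1, fun x hx => by
    rw [abs_le]
    have := h01 x hx
    constructor <;> linarith⟩, hsp, heq, hnd.bc hN hα hC hh₀⟩

/-- existence and uniqueness on large dilations, with a threshold independent of `α` -/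
theorem exists_unique_sol (hn : 1 ≤ n) (hf : IsPositiveReaction f) {Ω : Set (EE n)}
    (hopen : IsOpen Ω) (hconn : IsConnected Ω) (hΩ : IsUniformlyC2 Ω) :
    ∃ κ₀ : ℝ, 0 < κ₀ ∧ ∀ α κ : ℝ, 0 < α → κ₀ < κ → ∃ u : EE n → ℝ, IsSol f α (κ • Ω) u ∧
      ∀ v : EE n → ℝ, IsSol f α (κ • Ω) v → ∀ x ∈ closure (κ • Ω), v x = u x := by
  obtain ⟨ρ₀, hρ₀, huniq⟩ := uniq_ball hn hf
  obtain ⟨R, hR, hex⟩ := exists_sol (n := n) hn hf
  obtain ⟨r, hr, hΩr⟩ := ballDomain_of_C2 hopen hΩ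
  refine ⟨max ρ₀ (2 * R) / r, by positivity, fun α κ hα hκ => ?_⟩
  have hκ0 : 0 < κ := lt_trans (by positivity) hκ
  rw [div_lt_iff₀ hr, max_lt_iff] at hκ
  have hD := hΩr.smul hκ0
  have hconnD : IsConnected (κ • Ω) := hconn.image _ (continuous_const_smul κ).continuousOn
  have hball : ∃ x0, closedBall x0 R ⊆ κ • Ω := by
    rcases (frontier (κ • Ω)).eq_empty_or_nonempty with hfr | ⟨y, hy⟩
    · have huniv := frontier_nonempty_or hD.isOpen hconnD.nonempty hfr
      exact ⟨0, by rw [huniv]; exact subset_univ _⟩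
    · obtain ⟨ν, hν, hb, -⟩ := hD.normal y hy
      exact ⟨y - (κ * r) • ν, (closedBall_subset_ball (by linarith [hκ.2])).trans hb⟩
  obtain ⟨u, hu⟩ := hex (κ * r) (by positivity) α hα (κ • Ω) hD hconnD hball
  refine ⟨u, hu, fun v hv x hx => ?_⟩
  exact le_antisymm (huniq (κ * r) hκ.1 α hα _ hD v u hv hu x hx) (huniq (κ * r) hκ.1 α hα _ hD u v hu hv x hx)

end Pool.Agent.Lib.MP_188651_an
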