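import Pool.Agent.Lib.MP_188651_an.JetA
import Pool.Agent.Lib.MP_188651_an.JetB
import Pool.Agent.Lib.MP_188651_an.JetC
import Pool.Agent.Lib.MP_188651_an.Cpt
import Pool.Agent.Lib.MP_188651_an.Bd

open Set Filter Metric Topology InnerProductSpace Laplacian
open scoped Pointwise

namespace Pool.Agent.Lib.MP_188651_an

variable {n : ℕ} {f : ℝ → ℝ} {α : ℝ} {D : Set (EE n)} {u : EE n → ℝ} {ρ : ℝ}

theorem IsSol.nonneg (hu : IsSol f α D u) : ∀ x ∈ closure D, 0 ≤ u x := by
  intro x hx
  have h1 : ContinuousWithinAt u D x := (hu.cont x hx).mono subset_closure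
  have h2 : (𝓝[D] x).NeBot := mem_closure_iff_nhdsWithin_neBot.1 hx
  refine ge_of_tendsto h1.tendsto ?_
  filter_upwards [self_mem_nhdsWithin] with y hy
  exact (hu.pos y hy).le

theorem IsSol.le_one (hρ : 0 < ρ) (hf : IsPositiveReaction f) (hα : 0 < α) (hD : BallDomain ρ D)
    (hu : IsSol f α D u) : ∀ x ∈ closure D, u x ≤ 1 := by
  intro xs hxs
  by_contra hcon
  rw [not_le] at hcon
  obtain ⟨C, hC⟩ := hu.bdd
  set m := (1 + u xs) / 2 with hm
  have hm1 : 1 < m := by rw [hm]; linarith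
  have hmC : m ≤ C := by
    have := (abs_le.1 (hC xs hxs)).2
    rw [hm]; linarith
  -- the constant
  have hfc : ContinuousOn f (Icc m C) :=
    hf.smooth.continuousOn.mono fun s hs => by
      have := hs.1
      change 0 ≤ s
      linarith
  obtain ⟨s0, hs0, hs0m⟩ := isCompact_Icc.exists_isMaxOn (nonempty_Icc.2 hmC) hfc
  have hf0 : f s0 < 0 := hf.neg s0 (by linarith [hs0.1])
  have hfc0 : ∀ s ∈ Icc m C, f s ≤ f s0 := fun s hs => hs0m hs
  -- the parameter
  have hhp := hh_pos xs
  obtain ⟨ε, hε, hε1, hε2, hε3⟩ : ∃ ε : ℝ, 0 < ε ∧ ε * hh xs ≤ (u xs - 1) / 2 ∧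
      ε * n < - f s0 ∧ α * ε < 1 := by
    refine ⟨min (((u xs - 1) / 2) / hh xs) (min (- f s0 / (n + 1)) (1 / (2 * α))), ?_, ?_, ?_, ?_⟩
    · refine lt_min (by apply div_pos _ hhp; linarith) (lt_min ?_ (by positivity))
      apply div_pos (by linarith) (by positivity)
    · have h1 := min_le_left (((u xs - 1) / 2) / hh xs) (min (- f s0 / (n + 1)) (1 / (2 * α)))
      rw [le_div_iff₀ hhp] at h1
      exact h1
    · have h1 := (min_le_right (((u xs - 1) / 2) / hh xs)
        (min (- f s0 / (n + 1)) (1 / (2 * α)))).trans (min_le_left _ _)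
      have h2 : 0 < min (((u xs - 1) / 2) / hh xs) (min (- f s0 / (n + 1)) (1 / (2 * α))) := by
        refine lt_min (by apply div_pos _ hhp; linarith) (lt_min ?_ (by positivity))
        apply div_pos (by linarith) (by positivity)
      rw [le_div_iff₀ (by positivity)] at h1
      nlinarith
    · have h1 := (min_le_right (((u xs - 1) / 2) / hh xs)
        (min (- f s0 / (n + 1)) (1 / (2 * α)))).trans (min_le_right _ _)
      rw [le_div_iff₀ (by positivity)] at h1
      nlinarith
  -- the maximum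
  obtain ⟨y, hy, hmax⟩ := exists_max_sub (S := closure D) isClosed_closure ⟨xs, hxs⟩ hu.cont
    ⟨C, fun x hx => (abs_le.1 (hC x hx)).2⟩ (ψ := fun x => ε * hh x)
    (continuous_const.mul continuous_hh) (tendsto_hh hε)
  have hum : m ≤ u y := by
    have h1 := hmax xs hxs
    have h2 := mul_pos hε (hh_pos y)
    rw [hm]
    linarith
  by_cases hyD : y ∈ D
  · -- interior
    have hcd : ContDiffAt ℝ 2 u y := hu.contDiffOn.contDiffAt (hD.isOpen.mem_nhds hyD)
    obtain ⟨g, hg⟩ := jet_of_contDiffAt hcd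
    obtain ⟨g', L', hg', -, hL'⟩ := jet_hh y
    have hj := hg.sub (hg'.const_mul ε)
    have hloc : IsLocalMax (fun z => u z - ε * hh z) y := by
      filter_upwards [hD.isOpen.mem_nhds hyD] with z hz
      exact hmax z (subset_closure hz)
    have h1 := (hj.of_isLocalMax hloc).2
    have h2 := hu.eq y hyD
    have h3 := hfc0 (u y) ⟨hum, (abs_le.1 (hC y hy)).2⟩
    have h4 : ε * L' ≤ ε * n := mul_le_mul_of_nonneg_left ((le_abs_self L').trans hL') hε.le
    linarith
  · -- boundary
    have hyF : y ∈ frontier D := by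
      rw [hD.isOpen.frontier_eq]
      exact ⟨hy, hyD⟩
    obtain ⟨ν, hν, hb1, hb2⟩ := hD.normal y hyF
    obtain ⟨u', hu', hbc⟩ := hu.bc y hyF ν ⟨hν, ρ, hρ, hb1, hb2⟩
    obtain ⟨b, hb, hhd⟩ := hasDerivAt_hh y ν hν
    have hβ : HasDerivWithinAt (fun t : ℝ => (fun z => ε * hh z + (u y - ε * hh y)) (y + t • ν))
        (ε * b) (Iic 0) 0 := by
      have := ((hhd.const_mul ε).add_const (u y - ε * hh y)).hasDerivWithinAt (s := Iic 0)
      exact this
    have hle : ∀ᶠ t in 𝓝[<] (0 : ℝ), u (y + t • ν) ≤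
        (fun z => ε * hh z + (u y - ε * hh y)) (y + t • ν) := by
      have h1 : ∀ᶠ t in 𝓝[<] (0 : ℝ), -(2 * ρ) < t :=
        mem_nhdsWithin_of_mem_nhds (Ioi_mem_nhds (by linarith))
      filter_upwards [self_mem_nhdsWithin, h1] with t ht ht2
      have h2 := hmax _ (subset_closure (mem_normal_seg hν hb1 ht ht2))
      change u (y + t • ν) ≤ ε * hh (y + t • ν) + (u y - ε * hh y)
      linarith
    have h5 := bd_le (β := fun z => ε * hh z + (u y - ε * hh y)) hu' hβ hle
      (by ring)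
    have h6 : -1 ≤ b := (abs_le.1 hb).1
    have h7 : u y = - (α * u') := by linarith
    have h8 : α * (ε * b) ≤ α * u' := mul_le_mul_of_nonneg_left h5 hα.le
    have h9 : -(α * ε) ≤ α * ε * b := by
      have h10 : 0 < α * ε := mul_pos hα hε
      nlinarith
    nlinarith

end Pool.Agent.Lib.MP_188651_an
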