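import Pool.Agent.Lib.MP_188651_an.CUp
import Pool.Agent.Lib.MP_188651_an.CSolB
import Pool.Agent.Lib.MP_188651_an.ExSol
import Pool.Agent.Lib.MP_188651_an.LeOne

/-!
# Every solution is classical
-/

open Set Filter Metric Topology InnerProductSpace Laplacian
open scoped Pointwise

namespace Pool.Agent.Lib.MP_188651_an

variable {n : ℕ} {ρ α : ℝ} {D : Set (EE n)} {N : EE n → EE n} {f : ℝ → ℝ} {u : EE n → ℝ}

theorem IsSol.classical (hn : 1 ≤ n) (hf : IsPositiveReaction f) (hρ : 0 < ρ) (hα : 0 < α)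
    (hD : BallDomain ρ D) (hu : IsSol f α D u) : IsClassical f α D u := by
  refine ⟨hu, ?_⟩
  rcases (frontier D).eq_empty_or_nonempty with hfr | hne
  · have hcl : closure D = D := by
      rw [closure_eq_interior_union_frontier, hfr, union_empty, hD.isOpen.interior_eq]
    refine ⟨fderiv ℝ u, ?_, ?_, ?_⟩
    · rw [hcl]
      exact hu.contDiffOn.continuousOn_fderiv_of_isOpen hD.isOpen (by norm_num)
    · intro x hx
      rw [hcl] at hx
      exact ((hu.contDiffOn.contDiffAt (hD.isOpen.mem_nhds hx)).differentiableAt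
        (by norm_num)).hasFDerivAt.hasFDerivWithinAt
    · intro y hy
      rw [hfr] at hy
      exact absurd hy (notMem_empty y)
  obtain ⟨N, hN⟩ := BD.of_ballDomain hρ hD
  have hfc : ContinuousOn f (Icc 0 1) :=
    hf.smooth.continuousOn.mono fun s hs => hs.1
  obtain ⟨Λ, hΛ⟩ := isCompact_Icc.exists_bound_of_continuousOn hfc
  have h0 := hu.nonneg
  have h1 := hu.le_one hρ hf hα hD
  have hΛ0 : 0 ≤ Λ := (norm_nonneg _).trans (hΛ 0 ⟨le_rfl, zero_le_one⟩)
  have hUH : UH ρ D N α Λ u := by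
    refine ⟨hN, hne, hu.cont, hu.contDiffOn, fun x hx => ⟨h0 x hx, h1 x hx⟩, fun x hx => ?_,
      hu.bsub hN hα, hu.bsup hN hα⟩
    have hx' := subset_closure hx
    have h2 := hΛ (u x) ⟨h0 x hx', h1 x hx'⟩
    rw [← hu.eq x hx, norm_neg, Real.norm_eq_abs] at h2
    exact h2
  obtain ⟨G, hG1, hG2, hG3⟩ := c1_up hn hα hΛ0 hUH
  refine ⟨G, hG1, hG2, fun y hy ν hν => ?_⟩
  rw [hN.unique hy hν]
  exact hG3 y hy

/-- existence and uniqueness of classical solutions on large dilations, with a threshold independent of `α` -/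
theorem exists_unique_classical (hn : 1 ≤ n) (hf : IsPositiveReaction f) {Ω : Set (EE n)}
    (hopen : IsOpen Ω) (hconn : IsConnected Ω) (hΩ : IsUniformlyC2 Ω) :
    ∃ κ₀ : ℝ, 0 < κ₀ ∧ ∀ α κ : ℝ, 0 < α → κ₀ < κ → ∃ u : EE n → ℝ, IsClassical f α (κ • Ω) u ∧
      ∀ v : EE n → ℝ, IsSol f α (κ • Ω) v → ∀ x ∈ closure (κ • Ω), v x = u x := by
  obtain ⟨κ₀, hκ₀, h⟩ := exists_unique_sol hn hf hopen hconn hΩ
  obtain ⟨r, hr, hΩr⟩ := ballDomain_of_C2 hopen hΩ
  refine ⟨κ₀, hκ₀, fun α κ hα hκ => ?_⟩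
  have hκ0 : 0 < κ := hκ₀.trans hκ
  obtain ⟨u, hu, huniq⟩ := h α κ hα hκ
  exact ⟨u, hu.classical hn hf (mul_pos hκ0 hr) hα (hΩr.smul hκ0), huniq⟩

end Pool.Agent.Lib.MP_188651_an
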