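import Pool.Agent.Lib.MP_188651_an.Defs

open Set Filter Metric Topology InnerProductSpace Laplacian
open scoped Pointwise

namespace Pool.Agent.Lib.MP_188651_an

variable {n : ℕ} {ρ : ℝ} {D : Set (EE n)}

theorem frontier_nonempty_or (hD : IsOpen D) (hne : D.Nonempty) (h : frontier D = ∅) : D = univ := by
  have _ := hD
  exact IsClopen.eq_univ (isClopen_iff_frontier_eq_empty.2 h) hne

private theorem subset_interior_of_disjoint {S : Set (EE n)} (hS : IsPreconnected S)
    (hd : ∀ w ∈ S, w ∉ frontier D) (hmeet : (S ∩ interior D).Nonempty) : S ⊆ interior D := by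
  refine IsPreconnected.subset_left_of_subset_union (v := (closure D)ᶜ) isOpen_interior
    isClosed_closure.isOpen_compl ?_ ?_ hmeet hS
  · rw [Set.disjoint_compl_right_iff_subset]
    exact interior_subset.trans subset_closure
  · intro w hw
    by_cases h1 : w ∈ closure D
    · left
      by_contra h2
      exact hd w hw ⟨h1, h2⟩
    · exact Or.inr h1

theorem closedBall_subset_of_infDist {x : EE n} {R : ℝ} (hx : x ∈ D) (hne : (frontier D).Nonempty)
    (h : R < infDist x (frontier D)) : closedBall x R ⊆ D := by
  have _ := hne
  rcases lt_or_ge R 0 with hR | hR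
  · rw [closedBall_eq_empty.2 hR]; exact empty_subset _
  · have hdisj : ∀ w ∈ closedBall x R, w ∉ frontier D := by
      intro w hw hwf
      have h1 : infDist x (frontier D) ≤ dist x w := infDist_le_dist_of_mem hwf
      rw [mem_closedBall, dist_comm] at hw
      linarith
    have hxb : x ∈ closedBall x R := mem_closedBall_self hR
    have hxi : x ∈ interior D := by
      by_contra h2
      exact hdisj x hxb ⟨subset_closure hx, h2⟩
    exact (subset_interior_of_disjoint (convex_closedBall x R).isPreconnected hdisj
      ⟨x, hxb, hxi⟩).trans interior_subset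

theorem infDist_le_ext {c x : EE n} (hρ : 0 < ρ) (hc : Disjoint (ball c ρ) D) (hx : x ∈ closure D) :
    infDist x (frontier D) ≤ ‖x - c‖ - ρ := by
  have hcl : Disjoint (ball c ρ) (closure D) := hc.closure_right isOpen_ball
  have hcc : c ∉ closure D := fun hcD => Set.disjoint_left.1 hcl (mem_ball_self hρ) hcD
  have hex : ∃ w ∈ segment ℝ x c, w ∈ frontier D := by
    by_contra hno
    push Not at hno
    have hxi : x ∈ interior D := by
      by_contra h2
      exact hno x (left_mem_segment ℝ x c) ⟨hx, h2⟩
    have hsub := subset_interior_of_disjoint (convex_segment x c).isPreconnected hno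
      ⟨x, left_mem_segment ℝ x c, hxi⟩
    exact hcc (subset_closure (interior_subset (hsub (right_mem_segment ℝ x c))))
  obtain ⟨w, hw, hwf⟩ := hex
  have h1 : infDist x (frontier D) ≤ dist x w := infDist_le_dist_of_mem hwf
  have h2 : dist x w + dist w c = dist x c := dist_add_dist_of_mem_segment hw
  have h3 : ρ ≤ dist w c := by
    by_contra h4
    push Not at h4
    exact Set.disjoint_left.1 hcl (mem_ball.2 h4) (frontier_subset_closure hwf)
  rw [← dist_eq_norm]
  linarith

theorem int_le_infDist {c x : EE n} (hc : ball c ρ ⊆ D) (hne : (frontier D).Nonempty) :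
    ρ - ‖x - c‖ ≤ infDist x (frontier D) := by
  rw [le_infDist hne]
  intro w hw
  have h1 : ρ ≤ dist w c := by
    by_contra h4
    push Not at h4
    exact hw.2 (interior_maximal hc isOpen_ball (mem_ball.2 h4))
  have h2 : dist w c ≤ dist w x + dist x c := dist_triangle _ _ _
  rw [← dist_eq_norm, dist_comm x w]
  linarith

end Pool.Agent.Lib.MP_188651_an
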