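import Pool.Agent.Lib.MP_188651_an.CExp
import Pool.Agent.Lib.MP_188651_an.CGradA
import Pool.Agent.Lib.MP_188651_an.CGradB
import Pool.Agent.Lib.MP_188651_an.GeoA

/-!
# `C¹` regularity up to the boundary
-/

open Set Filter Metric Topology InnerProductSpace Laplacian

namespace Pool.Agent.Lib.MP_188651_an

theorem c1_up {n : ℕ} (hn : 1 ≤ n) {ρ α Λ : ℝ} (hα : 0 < α) (hΛ : 0 ≤ Λ) {D : Set (EE n)} {N : EE n → EE n}
    {u : EE n → ℝ} (hu : UH ρ D N α Λ u) :
    ∃ G : EE n → (EE n →L[ℝ] ℝ), ContinuousOn G (closure D) ∧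
      (∀ x ∈ closure D, HasFDerivWithinAt u (G x) (closure D) x) ∧
      ∀ y ∈ frontier D, u y + α * G y (N y) = 0 := by
  classical
  obtain ⟨ω, hω, hexp⟩ := exists_exp n hn hu.bd.pos hα hΛ
  have h1 := hexp D N u hu
  choose! Gb hGb using h1
  have hGb0 : ∀ y ∈ frontier D, u y + α * Gb y (N y) = 0 := fun y hy => (hGb y hy).1
  have hGb1 : ∀ y ∈ frontier D, ∀ x ∈ closure D,
      |u x - u y - Gb y (x - y)| ≤ ω ‖x - y‖ * ‖x - y‖ := fun y hy => (hGb y hy).2
  have hDo := hu.bd.isOpen
  have hfr : ∀ x ∈ closure D, x ∉ D → x ∈ frontier D := by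
    intro x hx hxD
    exact ⟨hx, by rwa [hDo.interior_eq]⟩
  have hnd : ∀ y ∈ frontier D, y ∉ D := by
    intro y hy hyD
    exact hy.2 (by rwa [hDo.interior_eq])
  refine ⟨fun x => if x ∈ D then fderiv ℝ u x else Gb x, ?_, ?_, ?_⟩
  · intro x hx
    by_cases hxD : x ∈ D
    · have hD' : D ∈ 𝓝 x := hDo.mem_nhds hxD
      have h2 : ContDiffAt ℝ 2 u x := hu.smooth.contDiffAt hD'
      have h3 : ContDiffAt ℝ 0 (fderiv ℝ u) x := h2.fderiv_right (by norm_num)
      have h4 : (fun x => if x ∈ D then fderiv ℝ u x else Gb x) =ᶠ[𝓝 x] fderiv ℝ u := by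
        filter_upwards [hD'] with z hz
        rw [if_pos hz]
      exact (h3.continuousAt.congr h4.symm).continuousWithinAt
    · have hxf := hfr x hx hxD
      rw [Metric.continuousWithinAt_iff]
      intro ε hε
      obtain ⟨δ₁, hδ₁, hb⟩ := grad_bdy hn hu.bd hω hGb1 (ε := ε / 3) (by positivity)
      obtain ⟨δ₂, hδ₂, hn2⟩ := grad_near hu.bd hω hΛ hu.smooth hu.lap hGb1 (ε := ε / 3)
        (by positivity)
      refine ⟨min (δ₁ / 2) δ₂, by positivity, ?_⟩
      intro z hz hzx
      rw [dist_eq_norm] at hzx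
      have hz1 : ‖z - x‖ < δ₁ / 2 := lt_of_lt_of_le hzx (min_le_left _ _)
      have hz2 : ‖z - x‖ < δ₂ := lt_of_lt_of_le hzx (min_le_right _ _)
      rw [dist_eq_norm, if_neg hxD]
      by_cases hzD : z ∈ D
      · rw [if_pos hzD]
        obtain ⟨y', hy', hzy⟩ := hu.bd.nearest hu.ne hz
        have hdle : infDist z (frontier D) ≤ ‖z - x‖ := by
          rw [← dist_eq_norm]
          exact infDist_le_dist_of_mem hxf
        have hd0 : 0 < infDist z (frontier D) :=
          (isClosed_frontier.notMem_iff_infDist_pos hu.ne).1 (fun h => hnd z h hzD)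
        have hball : ball z (infDist z (frontier D)) ⊆ D := by
          intro w hw
          rw [mem_ball] at hw
          exact closedBall_subset_of_infDist hzD hu.ne hw (mem_closedBall.2 le_rfl)
        obtain ⟨d, hd⟩ : ∃ d, d = infDist z (frontier D) := ⟨_, rfl⟩
        rw [← hd] at hzy hdle hd0 hball
        have h3 := hn2 y' hy' d hd0 (by linarith) (by rw [← hzy]; exact hball)
        rw [← hzy] at h3
        have h4 : ‖y' - x‖ ≤ 2 * ‖z - x‖ := by
          have e1 : y' - x = (z - x) + d • N y' := by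
            rw [hzy]
            abel
          rw [e1]
          refine (norm_add_le _ _).trans ?_
          rw [norm_smul, hu.bd.unit y' hy', Real.norm_eq_abs, abs_of_pos hd0]
          linarith
        have h5 := hb y' hy' x hxf (by linarith)
        have e2 : fderiv ℝ u z - Gb x = (fderiv ℝ u z - Gb y') + (Gb y' - Gb x) := by abel
        rw [e2]
        have h6 := norm_add_le (fderiv ℝ u z - Gb y') (Gb y' - Gb x)
        linarith
      · rw [if_neg hzD]
        have h5 := hb z (hfr z hz hzD) x hxf (by linarith)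
        linarith
  · intro x hx
    by_cases hxD : x ∈ D
    · have hD' : D ∈ 𝓝 x := hDo.mem_nhds hxD
      have h2 : ContDiffAt ℝ 2 u x := hu.smooth.contDiffAt hD'
      simp only [if_pos hxD]
      exact (h2.differentiableAt (by norm_num)).hasFDerivAt.hasFDerivWithinAt
    · have hxf := hfr x hx hxD
      simp only [if_neg hxD]
      rw [hasFDerivWithinAt_iff_isLittleO, Asymptotics.isLittleO_iff]
      intro c hc
      obtain ⟨δ, hδ, hδ2⟩ := hω.2 c hc
      have h2 : ∀ᶠ z in 𝓝[closure D] x, z ∈ ball x δ :=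
        mem_nhdsWithin_of_mem_nhds (ball_mem_nhds x hδ)
      filter_upwards [h2, self_mem_nhdsWithin] with z hz hzc
      rw [mem_ball, dist_eq_norm] at hz
      have h3 := hGb1 x hxf z hzc
      rw [Real.norm_eq_abs]
      refine h3.trans ?_
      exact mul_le_mul_of_nonneg_right (hδ2 _ (norm_nonneg _) hz.le) (norm_nonneg _)
  · intro y hy
    simp only [if_neg (hnd y hy)]
    exact hGb0 y hy

end Pool.Agent.Lib.MP_188651_an
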