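import Pool.Agent.Lib.MP_188651_an.Tpb
import Pool.Agent.Lib.MP_188651_an.Prof

open Set Filter Metric Topology InnerProductSpace Laplacian
open scoped Pointwise

namespace Pool.Agent.Lib.MP_188651_an

variable {f : ℝ → ℝ}

/-- Lower bound for `Gp` away from `1`. -/
theorem Gp_ge_sqrt (hf : IsPositiveReaction f) {η c η₂ s : ℝ} (hη : 0 < η) (h2 : η₂ ≤ 1) (h2' : 0 ≤ η₂)
    (hc' : c ≤ FF f 1 - FF f (1 - η₂)) (hs : s ∈ Icc 0 (1 - η₂)) : √(2 * c) ≤ Gp f η s := by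
  have hs1 : s ∈ Icc (0 : ℝ) 1 := ⟨hs.1, hs.2.trans (by linarith)⟩
  have he : (1 - η₂) ∈ Icc (0 : ℝ) 1 := ⟨by linarith, by linarith⟩
  have hm : FF f s ≤ FF f (1 - η₂) := (FF_strictMonoOn hf).monotoneOn hs1 he hs.2
  have hsq := Gp_sq hf hη hs1
  have hpos : 0 < η * (2 - s) := mul_pos hη (by linarith [hs1.2])
  refine Real.sqrt_le_iff.2 ⟨(Gp_pos hf hη s).le, ?_⟩
  rw [hsq]
  linarith

/-- `T₋ - T₊` varies little on `[0, 1 - η₃]`. -/
theorem diff_small (hf : IsPositiveReaction f) {η η₃ c₃ b : ℝ} {G T : ℝ → ℝ} (hη : 0 < η) (h3 : 0 < η₃)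
    (hc₃ : 0 < c₃) (hb : 1 - η₃ < b) (hb1 : b < 1) (hP : Profile f (-η) b G T)
    (hG : ∀ s ∈ Ico 0 b, G s ≤ Gp f η s ∧ Gp f η s ^ 2 - G s ^ 2 ≤ 6 * η)
    (hG3 : ∀ s ∈ Icc 0 (1 - η₃), c₃ ≤ G s ^ 2) {a v : ℝ} (ha : 0 ≤ a) (hav : a ≤ v) (hv : v ≤ 1 - η₃) :
    T v - Tp f η v - (T a - Tp f η a) ≤ 3 * η / (c₃ * √c₃) := by
  have hsc : 0 < √c₃ := Real.sqrt_pos.2 hc₃
  have hCpos : 0 ≤ 3 * η / (c₃ * √c₃) := by positivity
  have hTc : ContinuousOn T (Icc 0 (1 - η₃)) := by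
    intro s hs
    rcases hs.1.eq_or_lt with h0 | h0
    · rw [← h0]
      exact hP.Tder0.continuousWithinAt.mono Icc_subset_Ici_self
    · exact (hP.Tder s ⟨h0, hs.2.trans_lt hb⟩).continuousAt.continuousWithinAt
  have hTpc : Continuous (Tp f η) :=
    continuous_iff_continuousAt.2 (fun s => (Tp_hasDerivAt hf hη s).continuousAt)
  have hder : ∀ s ∈ Ioo (0 : ℝ) (1 - η₃),
      HasDerivAt (fun s => T s - Tp f η s) (1 / G s - 1 / Gp f η s) s := by
    intro s hs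
    exact (hP.Tder s ⟨hs.1, hs.2.trans hb⟩).sub (Tp_hasDerivAt hf hη s)
  have hbound : ∀ s ∈ Ioo (0 : ℝ) (1 - η₃), 1 / G s - 1 / Gp f η s ≤ 3 * η / (c₃ * √c₃) := by
    intro s hs
    have hsI : s ∈ Ico 0 b := ⟨hs.1.le, hs.2.trans hb⟩
    have hGpos := hP.Gpos s hsI
    have hGp := Gp_pos hf hη s
    obtain ⟨h1, h2⟩ := hG s hsI
    have h3' := hG3 s ⟨hs.1.le, hs.2.le⟩
    have hGs : √c₃ ≤ G s := Real.sqrt_le_iff.2 ⟨hGpos.le, h3'⟩
    have hGps : √c₃ ≤ Gp f η s := hGs.trans h1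
    have hprod : c₃ ≤ G s * Gp f η s := by
      calc c₃ ≤ G s ^ 2 := h3'
        _ = G s * G s := by ring
        _ ≤ G s * Gp f η s := mul_le_mul_of_nonneg_left h1 hGpos.le
    have hprod2 : c₃ * (2 * √c₃) ≤ (G s * Gp f η s) * (G s + Gp f η s) :=
      mul_le_mul hprod (by linarith) (by positivity) (by positivity)
    have hEq : 1 / G s - 1 / Gp f η s =
        (Gp f η s ^ 2 - G s ^ 2) / ((G s * Gp f η s) * (G s + Gp f η s)) := by
      field_simp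
      ring
    rw [hEq]
    have hnn : 0 ≤ Gp f η s ^ 2 - G s ^ 2 := by nlinarith
    calc (Gp f η s ^ 2 - G s ^ 2) / ((G s * Gp f η s) * (G s + Gp f η s))
        ≤ (6 * η) / (c₃ * (2 * √c₃)) :=
          div_le_div₀ (by positivity) h2 (by positivity) hprod2
      _ = 3 * η / (c₃ * √c₃) := by
          field_simp
          ring
  have hkey := Convex.image_sub_le_mul_sub_of_deriv_le (convex_Icc (0 : ℝ) (1 - η₃))
    (f := fun s => T s - Tp f η s) (hTc.sub hTpc.continuousOn)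
    (by
      rw [interior_Icc]
      intro s hs
      exact (hder s hs).differentiableAt.differentiableWithinAt)
    (C := 3 * η / (c₃ * √c₃))
    (by
      rw [interior_Icc]
      intro s hs
      rw [(hder s hs).deriv]
      exact hbound s hs)
    a ⟨ha, hav.trans hv⟩ v ⟨ha.trans hav, hv⟩ hav
  refine hkey.trans ?_
  have hva : v - a ≤ 1 := by linarith
  calc 3 * η / (c₃ * √c₃) * (v - a) ≤ 3 * η / (c₃ * √c₃) * 1 :=
        mul_le_mul_of_nonneg_left hva hCpos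
    _ = _ := mul_one _

/-- `Tp` has slope at most `1 / √(2c)` on `[0, 1 - η₂]`. -/
theorem Tp_slope_le (hf : IsPositiveReaction f) {η η₂ c a a' : ℝ} (hη : 0 < η) (h2 : 0 ≤ η₂) (hc : 0 < c)
    (hc' : c ≤ FF f 1 - FF f (1 - η₂)) (ha' : 0 ≤ a') (haa : a' ≤ a) (ha : a ≤ 1 - η₂) :
    Tp f η a - Tp f η a' ≤ (a - a') / √(2 * c) := by
  have hTpc : Continuous (Tp f η) :=
    continuous_iff_continuousAt.2 (fun s => (Tp_hasDerivAt hf hη s).continuousAt)
  have h2' : η₂ ≤ 1 := by linarith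
  have hsc : 0 < √(2 * c) := Real.sqrt_pos.2 (by positivity)
  have hkey := Convex.image_sub_le_mul_sub_of_deriv_le (convex_Icc (0 : ℝ) (1 - η₂))
    (f := Tp f η) hTpc.continuousOn
    (fun s _ => (Tp_hasDerivAt hf hη s).differentiableAt.differentiableWithinAt)
    (C := 1 / √(2 * c))
    (by
      rw [interior_Icc]
      intro s hs
      rw [(Tp_hasDerivAt hf hη s).deriv]
      exact one_div_le_one_div_of_le hsc (Gp_ge_sqrt hf hη h2' h2 hc' ⟨hs.1.le, hs.2.le⟩))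
    a' ⟨ha', haa.trans ha⟩ a ⟨ha'.trans haa, ha⟩ haa
  refine hkey.trans (le_of_eq ?_)
  ring

/-- `Tp` has slope at least `1 / Gm` on `[0, 1]`. -/
theorem Tp_slope_ge (hf : IsPositiveReaction f) {η a a' : ℝ} (hη : 0 < η) (hη1 : η ≤ 1) (ha' : 0 ≤ a')
    (haa : a' ≤ a) (ha : a ≤ 1) : (a - a') / Gm f ≤ Tp f η a - Tp f η a' := by
  have hTpc : Continuous (Tp f η) :=
    continuous_iff_continuousAt.2 (fun s => (Tp_hasDerivAt hf hη s).continuousAt)
  have hkey := Convex.mul_sub_le_image_sub_of_le_deriv (convex_Icc (0 : ℝ) 1)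
    (f := Tp f η) hTpc.continuousOn
    (fun s _ => (Tp_hasDerivAt hf hη s).differentiableAt.differentiableWithinAt)
    (C := 1 / Gm f)
    (by
      rw [interior_Icc]
      intro s hs
      rw [(Tp_hasDerivAt hf hη s).deriv]
      exact one_div_le_one_div_of_le (Gp_pos hf hη s) (Gp_le_Gm hf hη hη1 ⟨hs.1.le, hs.2.le⟩))
    a' ⟨ha', haa.trans ha⟩ a ⟨ha'.trans haa, ha⟩ haa
  refine le_trans (le_of_eq ?_) hkey
  ring

end Pool.Agent.Lib.MP_188651_an
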