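import Pool.Agent.Lib.MP_188651_an.JetA
import Pool.Agent.Lib.MP_188651_an.JetB
import Pool.Agent.Lib.MP_188651_an.JetC
import Pool.Agent.Lib.MP_188651_an.Cpt
import Pool.Agent.Lib.MP_188651_an.Bd

open Set Filter Metric Topology InnerProductSpace Laplacian
open scoped Pointwise

namespace Pool.Agent.Lib.MP_188651_an

variable {n : ℕ} {α ρ : ℝ} {D : Set (EE n)} {w : EE n → ℝ}

theorem compare_const (hρ : 0 < ρ) (hD : BallDomain ρ D) (hα : 0 < α) (hw : ContDiffOn ℝ 2 w D)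
    (hwc : ContinuousOn w (closure D)) (hwb : ∃ C, ∀ x ∈ closure D, w x ≤ C)
    (hbc : ∀ y ∈ frontier D, ∀ ν, IsOutwardNormal D y ν →
      ∃ w', HasDerivWithinAt (fun t : ℝ => w (y + t • ν)) w' (Iic 0) 0 ∧ w y + α * w' = 0)
    {c₂ : ℝ} (hc₂ : 0 < c₂) (hfar : ∀ x ∈ D, 0 < w x → c₂ * w x ≤ (Δ w) x) :
    ∀ x ∈ closure D, w x ≤ 0 := by
  by_contra hcon
  push Not at hcon
  obtain ⟨xs, hxs, hW⟩ := hcon
  set W := w xs with hWdef
  have hhs := hh_pos xs
  have hn0 : (0 : ℝ) ≤ n := Nat.cast_nonneg n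
  set S := hh xs + n / c₂ + α + 1 with hS
  have hnc : (0 : ℝ) ≤ n / c₂ := by positivity
  have hS0 : 0 < S := by positivity
  set ε := W / 2 / S with hε
  have hε0 : 0 < ε := by positivity
  have hεS : ε * S = W / 2 := by
    rw [hε]
    field_simp
  have e1 : ε * hh xs < W / 2 := by
    rw [← hεS]
    apply mul_lt_mul_of_pos_left _ hε0
    rw [hS]
    linarith
  have e2 : ε * α < W / 2 := by
    rw [← hεS]
    apply mul_lt_mul_of_pos_left _ hε0
    rw [hS]
    linarith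
  have e3 : ε * (n / c₂) < W / 2 := by
    rw [← hεS]
    apply mul_lt_mul_of_pos_left _ hε0
    rw [hS]
    linarith
  have e3' : ε * n < c₂ * (W / 2) := by
    have h1 := mul_lt_mul_of_pos_left e3 hc₂
    have h2 : c₂ * (ε * (n / c₂)) = ε * n := by
      field_simp
    linarith
  obtain ⟨x0, hx0, hmax⟩ := exists_max_sub (S := closure D) isClosed_closure ⟨xs, hxs⟩ hwc hwb
    (continuous_const.mul continuous_hh) (tendsto_hh hε0)
  replace hmax : ∀ y ∈ closure D, w y - ε * hh y ≤ w x0 - ε * hh x0 := hmax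
  have hx0W : W / 2 < w x0 := by
    have h1 := hmax xs hxs
    have h2 : 0 < ε * hh x0 := mul_pos hε0 (hh_pos x0)
    linarith
  have hx0' : x0 ∈ D ∪ frontier D := by
    rw [← closure_eq_self_union_frontier]
    exact hx0
  rcases hx0' with hxD | hxF
  · obtain ⟨g, hJ⟩ := jet_of_contDiffAt (hw.contDiffAt (hD.isOpen.mem_nhds hxD))
    obtain ⟨g', L', hJ', -, hL'⟩ := jet_hh x0
    have hJ2 := hJ.sub (hJ'.const_mul ε)
    have hloc : IsLocalMax (fun y => w y - ε * hh y) x0 := by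
      filter_upwards [hD.isOpen.mem_nhds hxD] with y hy
      exact hmax y (subset_closure hy)
    obtain ⟨-, hL⟩ := hJ2.of_isLocalMax hloc
    have h1 := hfar x0 hxD (by linarith)
    have h2 : ε * L' ≤ ε * n := mul_le_mul_of_nonneg_left (le_of_abs_le hL') hε0.le
    have h3 : c₂ * (W / 2) < c₂ * w x0 := mul_lt_mul_of_pos_left hx0W hc₂
    linarith
  · obtain ⟨ν, hν, hb, hdis⟩ := hD.normal x0 hxF
    obtain ⟨w', hw', hbc'⟩ := hbc x0 hxF ν ⟨hν, ρ, hρ, hb, hdis⟩
    obtain ⟨b, hb1, hbd⟩ := hasDerivAt_hh x0 ν hν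
    have hβ : HasDerivWithinAt (fun t : ℝ => ε * hh (x0 + t • ν) + (w x0 - ε * hh x0)) (ε * b)
        (Iic 0) 0 := ((hbd.const_mul ε).add_const _).hasDerivWithinAt
    have h1 := bd_le (y := x0) (ν := ν) (φ := w)
      (β := fun y => ε * hh y + (w x0 - ε * hh x0)) hw' hβ (by
        have h2 : ∀ᶠ t in 𝓝[<] (0 : ℝ), t ∈ Ioo (-(2 * ρ)) 0 :=
          Ioo_mem_nhdsLT (by linarith)
        filter_upwards [h2] with t ht
        have h3 := hmax _ (subset_closure (mem_normal_seg hν hb ht.2 ht.1))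
        linarith) (by ring)
    have h2 : -(ε * b) ≤ ε := by
      have := neg_le_of_abs_le hb1
      nlinarith
    have h3 : w x0 = -(α * w') := by linarith
    have h4 : α * (ε * b) ≤ α * w' := mul_le_mul_of_nonneg_left h1 hα.le
    have h5 : α * -(ε * b) ≤ α * ε := mul_le_mul_of_nonneg_left h2 hα.le
    nlinarith

end Pool.Agent.Lib.MP_188651_an
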