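import Pool.Agent.Lib.MP_188651_an.DepTaylor
import Pool.Agent.Lib.MP_188651_an.Touch
import Pool.Agent.Lib.MP_188651_an.PenMax

open Set Metric Filter Topology
open scoped RealInnerProductSpace Pointwise

namespace MP188651

/-- Constants for the comparison argument. -/
theorem compare_eps {c1 c2 c3 p1 p2 p3 p4 : ℝ} (h1 : 0 ≤ c1) (h2 : 0 ≤ c2) (h3 : 0 ≤ c3)
    (q1 : 0 < p1) (q2 : 0 < p2) (q3 : 0 < p3) (q4 : 0 < p4) :
    ∃ ε : ℝ, 0 < ε ∧ c1 * ε < p1 ∧ c2 * ε < p2 ∧ c3 * ε < p3 ∧ c3 * ε < p4 := by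
  set P := min p1 (min p2 (min p3 p4)) with hP
  have hP0 : 0 < P := by
    rw [hP]
    exact lt_min q1 (lt_min q2 (lt_min q3 q4))
  have e1 : P ≤ p1 := min_le_left _ _
  have e2 : P ≤ p2 := (min_le_right _ _).trans (min_le_left _ _)
  have e3 : P ≤ p3 := (min_le_right _ _).trans ((min_le_right _ _).trans (min_le_left _ _))
  have e4 : P ≤ p4 := (min_le_right _ _).trans ((min_le_right _ _).trans (min_le_right _ _))
  have hS : 0 < c1 + c2 + c3 + 1 := by positivity
  set ε := P / (c1 + c2 + c3 + 1) with hε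
  have hε0 : 0 < ε := by positivity
  have hεS : (c1 + c2 + c3 + 1) * ε = P := by
    rw [hε]
    field_simp
  have m1 : 0 ≤ c1 * ε := by positivity
  have m2 : 0 ≤ c2 * ε := by positivity
  have m3 : 0 ≤ c3 * ε := by positivity
  refine ⟨ε, hε0, ?_, ?_, ?_, ?_⟩ <;> nlinarith

/-- Linear comparison: a subsolution of a linear Robin problem with a strict positive
supersolution of the form `min (ψ (dep x)) B` is nonpositive. -/
theorem compare {d : ℕ} {O : Set (Eu d)} (hO : IsOpen O) {ϱ α : ℝ} {dep : Eu d → ℝ}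
    (hD : Depth O ϱ dep) (hϱ : 0 < ϱ) (hα : 0 < α) {w c : Eu d → ℝ}
    (hwc : ContinuousOn w (closure O))
    (hwb : ∃ M, ∀ x ∈ closure O, w x ≤ M) (hw2 : ∀ x ∈ O, ContDiffAt ℝ 2 w x)
    (heq : ∀ x ∈ O, -(Laplacian.laplacian w x) = c x * w x)
    (hbc : ∀ y ∈ frontier O, ∀ ν : Eu d, IsOuterNormal O y ν →
      (∀ t ∈ Icc (0 : ℝ) ϱ, y - t • ν ∈ closure O) →
      HasDerivWithinAt (fun t : ℝ => w (y - t • ν)) (w y / α) (Icc 0 ϱ) 0)
    {L B δ C K m σ : ℝ} (hL : 0 < L) (hLϱ : L < ϱ) (hB : 0 < B) (hδ : 0 < δ) (hm : 0 < m)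
    (hσ : 0 < σ) {ψ ψ' ψ'' : ℝ → ℝ}
    (hψ : ∀ t ∈ Icc 0 L, HasDerivAt ψ (ψ' t) t ∧ HasDerivAt ψ' (ψ'' t) t ∧ δ ≤ ψ t ∧
      |ψ' t| ≤ C)
    (hψL : B < ψ L) (hψ0 : α * ψ' 0 < ψ 0) (hcK : ∀ x ∈ O, |c x| ≤ K)
    (hc1 : ∀ x ∈ O, (dep x < L → B ≤ ψ (dep x)) → c x ≤ -m)
    (hc2 : ∀ x ∈ O, dep x < L → ψ (dep x) < B →
      ψ'' (dep x) + c x * ψ (dep x) + d * (C / (ϱ - L)) ≤ -σ) :
    ∀ x ∈ closure O, w x ≤ 0 := by
  by_contra hcon
  push Not at hcon
  obtain ⟨xs, hxs, hws⟩ := hcon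
  obtain ⟨Mw, hMw⟩ := hwb
  -- the comparison function
  set Ψ : Eu d → ℝ := fun x => min (ψ (min (dep x) L)) B with hΨ
  have hmem : ∀ x, min (dep x) L ∈ Icc 0 L := fun x =>
    ⟨le_min (hD.nonneg x) hL.le, min_le_right _ _⟩
  have hψc : ContinuousOn ψ (Icc 0 L) := fun t ht =>
    (hψ t ht).1.continuousAt.continuousWithinAt
  have hdepc : Continuous dep := by
    refine LipschitzWith.continuous (K := 1) (LipschitzWith.of_dist_le_mul fun x y => ?_)
    rw [Real.dist_eq, dist_eq_norm, NNReal.coe_one, one_mul]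
    exact hD.lip x y
  have hΨc : Continuous Ψ :=
    (hψc.comp_continuous (hdepc.min continuous_const) hmem).min continuous_const
  set δ' := min δ B with hδ'
  have hδ'0 : 0 < δ' := lt_min hδ hB
  have hΨlo : ∀ x, δ' ≤ Ψ x := fun x => min_le_min (hψ _ (hmem x)).2.2.1 le_rfl
  have hΨhi : ∀ x, Ψ x ≤ B := fun x => min_le_right _ _
  have hΨpos : ∀ x, 0 < Ψ x := fun x => hδ'0.trans_le (hΨlo x)
  -- the supremum of the quotient
  set S : Set ℝ := (fun x => w x / Ψ x) '' closure O with hS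
  have hSb : BddAbove S := by
    refine ⟨max Mw 0 / δ', ?_⟩
    rintro _ ⟨x, hx, rfl⟩
    show w x / Ψ x ≤ max Mw 0 / δ'
    calc w x / Ψ x ≤ max Mw 0 / Ψ x :=
          div_le_div_of_nonneg_right ((hMw x hx).trans (le_max_left _ _)) (hΨpos x).le
      _ ≤ max Mw 0 / δ' :=
          div_le_div_of_nonneg_left (le_max_right _ _) hδ'0 (hΨlo x)
  set M := sSup S with hM
  have hMle : ∀ x ∈ closure O, w x ≤ M * Ψ x := by
    intro x hx
    have h1 : w x / Ψ x ≤ M := le_csSup hSb ⟨x, hx, rfl⟩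
    rwa [div_le_iff₀ (hΨpos x)] at h1
  have hM0 : 0 < M := by
    have h1 : w xs / Ψ xs ≤ M := le_csSup hSb ⟨xs, hxs, rfl⟩
    exact (div_pos hws (hΨpos xs)).trans_le h1
  have hgap : 0 < ψ 0 - α * ψ' 0 := by linarith
  have hd0 : (0 : ℝ) ≤ d := Nat.cast_nonneg d
  obtain ⟨ε, hε, e1, e2, e3, e4⟩ := compare_eps (c1 := m + 2 * d)
    (c2 := d * (M + 2) + |K|) (c3 := 1 + α) (p1 := m * (M * B)) (p2 := M * σ)
    (p3 := M * (ψ 0 - α * ψ' 0)) (p4 := M * B) (by positivity) (by positivity)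
    (by positivity) (by positivity) (by positivity) (by positivity) (by positivity)
  -- the penalised maximum
  obtain ⟨x₁, hx₁, b, hb, hmax, htouch⟩ := penmax (X := closure O) isClosed_closure ⟨xs, hxs⟩
    (w := fun x => w x - M * Ψ x) (hwc.sub (continuous_const.mul hΨc).continuousOn)
    ⟨0, fun x hx => by have := hMle x hx; linarith⟩ hε
  have hx₁M := hMle x₁ hx₁
  have hx₁m : M * Ψ x₁ - ε ≤ w x₁ := by
    by_contra hlt
    push Not at hlt
    set η := M * Ψ x₁ - ε - w x₁ with hη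
    have hη0 : 0 < η := by rw [hη]; linarith
    have h1 : ∀ y ∈ S, y ≤ M - η / B := by
      rintro _ ⟨x, hx, rfl⟩
      show w x / Ψ x ≤ M - η / B
      rw [div_le_iff₀ (hΨpos x)]
      have h2 := hmax x hx
      have h3 : η / B * Ψ x ≤ η := by
        rw [div_mul_eq_mul_div, div_le_iff₀ hB]
        exact mul_le_mul_of_nonneg_left (hΨhi x) hη0.le
      have h4 : (M - η / B) * Ψ x = M * Ψ x - η / B * Ψ x := by ring
      rw [h4]
      linarith
    have h2 : M ≤ M - η / B := csSup_le ⟨_, ⟨xs, hxs, rfl⟩⟩ h1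
    have h3 : 0 < η / B := by positivity
    linarith
  -- the three cases
  by_cases hxO : x₁ ∈ O
  · by_cases hcase : dep x₁ < L → B ≤ ψ (dep x₁)
    · -- the constant region
      have hΨ1 : Ψ x₁ = B := by
        show min (ψ (min (dep x₁) L)) B = B
        rw [min_eq_right_iff]
        rcases lt_or_ge (dep x₁) L with h | h
        · rw [min_eq_left h.le]; exact hcase h
        · rw [min_eq_right h]; exact hψL.le
      have hq : ∀ᶠ x in 𝓝 x₁, (fun s : ℝ => s) (w x) ≤ (fun s : ℝ => s) (w x₁) + ⟪b, x - x₁⟫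
          + 0 / 2 * ⟪(0 : Eu d), x - x₁⟫ ^ 2 + (2 * ε) / 2 * ‖x - x₁‖ ^ 2 := by
        filter_upwards [hO.mem_nhds hxO] with x hx
        have h1 := htouch x (subset_closure hx)
        beta_reduce at h1 ⊢
        rw [hΨ1] at h1
        have h2 : M * Ψ x ≤ M * B := mul_le_mul_of_nonneg_left (hΨhi x) hM0.le
        linarith
      obtain ⟨p, _, hp⟩ := touch_upper (h := fun s => s) (h1 := fun _ => 1) (h2 := 0)
        (hw2 x₁ hxO) (Eventually.of_forall fun s => hasDerivAt_id s)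
        (hasDerivAt_const _ _) hq
      have h1 := heq x₁ hxO
      have h2 := hc1 x₁ hxO hcase
      rw [hΨ1] at hx₁m
      have h3 : 0 < w x₁ := by
        have : (1 + α) * ε < M * B := e4
        nlinarith
      have h4 : m * w x₁ ≤ -(c x₁) * w x₁ := mul_le_mul_of_nonneg_right (by linarith) h3.le
      have h5 : m * (M * B - ε) ≤ m * w x₁ := mul_le_mul_of_nonneg_left hx₁m hm.le
      nlinarith
    · -- the region of `ψ`
      push Not at hcase
      obtain ⟨hdL, hψB⟩ := hcase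
      have hd1 : 0 < dep x₁ := hD.pos hO hϱ hxO
      obtain ⟨e, he, htay⟩ := dep_taylor hO hD hϱ hxO (hdL.trans hLϱ)
      have hI : dep x₁ ∈ Icc 0 L := ⟨hd1.le, hdL.le⟩
      have ht1 := htay ψ ψ' (ψ'' (dep x₁)) (by
        filter_upwards [Ioo_mem_nhds hd1 hdL] with t ht
        exact (hψ t ⟨ht.1.le, ht.2.le⟩).1) (hψ _ hI).2.1 ε hε
      have hΨ1 : Ψ x₁ = ψ (dep x₁) := by
        show min (ψ (min (dep x₁) L)) B = _
        rw [min_eq_left hdL.le, min_eq_left hψB.le]
      have hnear : ∀ᶠ x in 𝓝 x₁, dep x < L :=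
        hdepc.continuousAt.eventually_lt continuousAt_const hdL
      set κ := |ψ' (dep x₁)| / (ϱ - dep x₁) with hκ
      have hq : ∀ᶠ x in 𝓝 x₁, (fun s : ℝ => s) (w x) ≤ (fun s : ℝ => s) (w x₁)
          + ⟪(M * ψ' (dep x₁)) • e + b, x - x₁⟫
          + (M * ψ'' (dep x₁)) / 2 * ⟪e, x - x₁⟫ ^ 2
          + (M * (κ + ε) + 2 * ε) / 2 * ‖x - x₁‖ ^ 2 := by
        filter_upwards [hO.mem_nhds hxO, ht1, hnear] with x hx hx2 hx3
        have h1 := htouch x (subset_closure hx)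
        beta_reduce at h1 ⊢
        rw [hΨ1] at h1
        have h2 : Ψ x ≤ ψ (dep x) := by
          show min (ψ (min (dep x) L)) B ≤ ψ (dep x)
          rw [min_eq_left hx3.le]
          exact min_le_left _ _
        have h3 := mul_le_mul_of_nonneg_left (h2.trans hx2) hM0.le
        rw [inner_add_left, real_inner_smul_left]
        nlinarith
      obtain ⟨p, _, hp⟩ := touch_upper (h := fun s => s) (h1 := fun _ => 1) (h2 := 0)
        (hw2 x₁ hxO) (Eventually.of_forall fun s => hasDerivAt_id s)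
        (hasDerivAt_const _ _) hq
      have h1 := heq x₁ hxO
      have h2 := hc2 x₁ hxO hdL hψB
      rw [hΨ1] at hx₁m hx₁M
      rw [he] at hp
      have hκle : κ ≤ C / (ϱ - L) := by
        rw [hκ]
        have hC := (hψ _ hI).2.2.2
        exact div_le_div₀ ((abs_nonneg _).trans hC) hC (by linarith) (by linarith)
      have hcabs := abs_le.1 (hcK x₁ hxO)
      have hK : K ≤ |K| := le_abs_self K
      -- `w x₁ = M ψ - θ`
      set θ := M * ψ (dep x₁) - w x₁ with hθ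
      have hθ0 : 0 ≤ θ := by rw [hθ]; linarith
      have hθε : θ ≤ ε := by rw [hθ]; linarith
      have h3 : c x₁ * θ ≤ |K| * ε := by
        calc c x₁ * θ ≤ |K| * θ := mul_le_mul_of_nonneg_right (by linarith [hcabs.2]) hθ0
          _ ≤ |K| * ε := mul_le_mul_of_nonneg_left hθε (abs_nonneg _)
      have h3' : -(|K| * ε) ≤ c x₁ * θ := by
        calc -(|K| * ε) ≤ -(|K| * θ) := by
              have := mul_le_mul_of_nonneg_left hθε (abs_nonneg K)
              linarith
          _ = (-|K|) * θ := by ring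
          _ ≤ c x₁ * θ := mul_le_mul_of_nonneg_right (by linarith [hcabs.1]) hθ0
      have h4 : c x₁ * w x₁ = c x₁ * (M * ψ (dep x₁)) - c x₁ * θ := by rw [hθ]; ring
      have h5 := mul_le_mul_of_nonneg_left h2 hM0.le
      have h6 : (d : ℝ) * (M * κ) ≤ d * (M * (C / (ϱ - L))) :=
        mul_le_mul_of_nonneg_left (mul_le_mul_of_nonneg_left hκle hM0.le) hd0
      nlinarith
  · -- the boundary
    have hfr : x₁ ∈ frontier O := by
      rw [frontier, hO.interior_eq]
      exact ⟨hx₁, hxO⟩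
    obtain ⟨ν, hν, hray⟩ := hD.bdry x₁ hfr
    have hk := hbc x₁ hfr ν hν fun t ht => (hray t ht).1
    have hdep0 : dep x₁ = 0 := by
      have := (hray 0 ⟨le_rfl, hϱ.le⟩).2
      rwa [zero_smul, sub_zero] at this
    have hν1 : ‖ν‖ = 1 := hν.1
    have hbν : -⟪b, ν⟫ ≤ ε := by
      have h1 := abs_real_inner_le_norm b ν
      rw [hν1, mul_one] at h1
      have h2 := (abs_le.1 h1).1
      linarith
    have h00 : (0 : ℝ) ∈ Icc 0 L := ⟨le_rfl, hL.le⟩
    have hsmall : Ioo (0 : ℝ) L ∈ 𝓝[>] (0 : ℝ) := Ioo_mem_nhdsGT hL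
    have hstep : ∀ t ∈ Ioo (0 : ℝ) L, w (x₁ - t • ν) ≤ w x₁ - M * Ψ x₁ + M * Ψ (x₁ - t • ν)
        + (-⟪b, ν⟫) * t + ε * t ^ 2 := by
      intro t ht
      have h1 := htouch _ (hray t ⟨ht.1.le, (ht.2.trans hLϱ).le⟩).1
      beta_reduce at h1
      have h2 : x₁ - t • ν - x₁ = (-t) • ν := by module
      rw [h2, real_inner_smul_right, norm_smul, hν1, mul_one, Real.norm_eq_abs, sq_abs] at h1
      have h3 : (-t) ^ 2 = t ^ 2 := by ring
      rw [h3] at h1
      linarith
    rcases lt_or_ge (ψ 0) B with hcase | hcase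
    · have hΨ1 : Ψ x₁ = ψ 0 := by
        show min (ψ (min (dep x₁) L)) B = _
        rw [hdep0, min_eq_left hL.le, min_eq_left hcase.le]
      have hder : HasDerivWithinAt (fun t : ℝ => w (x₁ - t • ν) - M * ψ t)
          (w x₁ / α - M * ψ' 0) (Icc 0 ϱ) 0 :=
        hk.sub ((hψ 0 h00).1.const_mul M).hasDerivWithinAt
      have h1 := right_deriv_le hϱ hder (a := -⟪b, ν⟫) (b := ε) (by
        filter_upwards [hsmall] with t ht
        have h2 := hstep t ht
        have h3 : Ψ (x₁ - t • ν) ≤ ψ t := by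
          show min (ψ (min (dep (x₁ - t • ν)) L)) B ≤ ψ t
          rw [(hray t ⟨ht.1.le, (ht.2.trans hLϱ).le⟩).2, min_eq_left ht.2.le]
          exact min_le_left _ _
        have h4 := mul_le_mul_of_nonneg_left h3 hM0.le
        rw [hΨ1] at h2
        simp only [zero_smul, sub_zero]
        linarith)
      rw [hΨ1] at hx₁m
      have h2 : w x₁ / α ≤ M * ψ' 0 + ε := by linarith
      rw [div_le_iff₀ hα] at h2
      nlinarith
    · have hΨ1 : Ψ x₁ = B := by
        show min (ψ (min (dep x₁) L)) B = _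
        rw [hdep0, min_eq_left hL.le, min_eq_right hcase]
      have h1 := right_deriv_le hϱ hk (a := -⟪b, ν⟫) (b := ε) (by
        filter_upwards [hsmall] with t ht
        have h2 := hstep t ht
        have h4 := mul_le_mul_of_nonneg_left (hΨhi (x₁ - t • ν)) hM0.le
        rw [hΨ1] at h2
        simp only [zero_smul, sub_zero]
        linarith)
      rw [hΨ1] at hx₁m
      have h2 : w x₁ / α ≤ ε := by linarith
      rw [div_le_iff₀ hα] at h2
      nlinarith

end MP188651
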