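import Mathlib

/-!
# Definitions for MP_188651_an

Robin problems `-Δu = f(u)` in `D`, `u + α ∂_ν u = 0` on `∂D`, in uniformly `C²` domains.
-/

open Set Filter Metric Topology InnerProductSpace Laplacian

namespace Pool.Agent.Lib.MP_188651_an

/-- Euclidean space `ℝⁿ`. -/
abbrev EE (n : ℕ) := EuclideanSpace ℝ (Fin n)

/-- Positive reactions: `f : [0, ∞) → ℝ` is `C¹`, `f(0) = f(1) = 0`, `f < 0` on `(1, ∞)`, `f'(1) < 0`,
`f > 0` on `(0, 1)`, `f'(0+) > 0`. -/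
structure IsPositiveReaction (f : ℝ → ℝ) : Prop where
  smooth : ContDiffOn ℝ 1 f (Ici 0)
  zero : f 0 = 0
  one : f 1 = 0
  neg : ∀ s, 1 < s → f s < 0
  pos : ∀ s, 0 < s → s < 1 → 0 < f s
  deriv_zero : 0 < derivWithin f (Ici 0) 0
  deriv_one : derivWithin f (Ici 0) 1 < 0

/-- `Ω` is uniformly `C²`: there are `r, K > 0` such that for each boundary point `y`, inside the ball of
radius `r` about `y` and after choosing a unit vector `e`, the set `Ω` is the part above the graph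
over the hyperplane orthogonal to `e` of a `C²` function `g` whose first and second derivatives are at
most `K` (on the ball of radius `r`). The value of `g` is taken at the projection
`(x - y) - ⟪e, x - y⟫ e` of `x - y` to this hyperplane. -/
def IsUniformlyC2 {n : ℕ} (Ω : Set (EE n)) : Prop :=
  ∃ r > 0, ∃ K > 0, ∀ y ∈ frontier Ω, ∃ (e : EE n) (g : EE n → ℝ), ‖e‖ = 1 ∧
    ContDiffOn ℝ 2 g (ball 0 r) ∧
    (∀ z ∈ ball (0 : EE n) r, ‖fderiv ℝ g z‖ ≤ K ∧ ‖iteratedFDeriv ℝ 2 g z‖ ≤ K) ∧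
    ∀ x ∈ ball y r, x ∈ Ω ↔ g ((x - y) - inner ℝ e (x - y) • e) < inner ℝ e (x - y)

/-- `ν` is an outward unit normal of `D` at `y`: `D` contains a ball tangent at `y` with centre
`y - ρ ν` and avoids a ball with centre `y + ρ ν`, both of radius `ρ`. -/
def IsOutwardNormal {n : ℕ} (D : Set (EE n)) (y ν : EE n) : Prop :=
  ‖ν‖ = 1 ∧ ∃ ρ > 0, ball (y - ρ • ν) ρ ⊆ D ∧ Disjoint (ball (y + ρ • ν) ρ) D

/-- `u` is a bounded positive (classical) solution of `-Δu = f(u)` in `D`, `u + α ∂_ν u = 0` on `∂D`: it is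
`C²` in `D`, continuous and bounded on the closure of `D`, positive in `D`, and at each boundary point it
has an outward normal derivative `u'`, that is the one-sided derivative at `0` of `t ↦ u(y + t ν)`
for `t ≤ 0`, with `u(y) + α u' = 0`. -/
structure IsSol {n : ℕ} (f : ℝ → ℝ) (α : ℝ) (D : Set (EE n)) (u : EE n → ℝ) : Prop where
  contDiffOn : ContDiffOn ℝ 2 u D
  cont : ContinuousOn u (closure D)
  bdd : ∃ C, ∀ x ∈ closure D, |u x| ≤ C
  pos : ∀ x ∈ D, 0 < u x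
  eq : ∀ x ∈ D, -(Δ u) x = f (u x)
  bc : ∀ y ∈ frontier D, ∀ ν, IsOutwardNormal D y ν →
    ∃ u', HasDerivWithinAt (fun t : ℝ => u (y + t • ν)) u' (Iic 0) 0 ∧ u y + α * u' = 0

/-- `D` is open and has interior and exterior tangent balls of radius `ρ` at each boundary point. -/
structure BallDomain {n : ℕ} (ρ : ℝ) (D : Set (EE n)) : Prop where
  isOpen : IsOpen D
  normal : ∀ y ∈ frontier D, ∃ ν : EE n, ‖ν‖ = 1 ∧ ball (y - ρ • ν) ρ ⊆ D ∧
    Disjoint (ball (y + ρ • ν) ρ) D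

/-- `φ` has at `x` the gradient `g` and the Laplacian `L`, in terms of the slices
`t ↦ φ (x + t e_i)`. -/
def Jet {n : ℕ} (φ : EE n → ℝ) (x : EE n) (g : Fin n → ℝ) (L : ℝ) : Prop :=
  ∃ (D1 : Fin n → ℝ → ℝ) (H : Fin n → ℝ),
    (∀ i, ∀ᶠ t in 𝓝 (0 : ℝ),
      HasDerivAt (fun t : ℝ => φ (x + t • EuclideanSpace.single i (1 : ℝ))) (D1 i t) t) ∧
    (∀ i, D1 i 0 = g i) ∧ (∀ i, HasDerivAt (D1 i) (H i) 0) ∧ ∑ i, H i = L

/-- The function `√(1 + |x|²)`. -/
noncomputable def hh {n : ℕ} (x : EE n) : ℝ := √(1 + ‖x‖ ^ 2)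

/-- Profiles: `G > 0` on `[0, b)`, `G G' = -(f + e)`, `T(s) = ∫_0^s 1/G`. -/
structure Profile (f : ℝ → ℝ) (e b : ℝ) (G T : ℝ → ℝ) : Prop where
  bpos : 0 < b
  Gcont : ContinuousOn G (Ico 0 b)
  Gpos : ∀ s ∈ Ico 0 b, 0 < G s
  Gder : ∀ s ∈ Ioo 0 b, HasDerivAt G (-(f s + e) / G s) s
  T0 : T 0 = 0
  Tder0 : HasDerivWithinAt T (1 / G 0) (Ici 0) 0
  Tder : ∀ s ∈ Ioo 0 b, HasDerivAt T (1 / G s) s


/-- The primitive of `f`. -/
noncomputable def FF (f : ℝ → ℝ) (s : ℝ) : ℝ := ∫ r in (0 : ℝ)..s, f r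

/-- `G` of the upper profile, `G² / 2 = F(1) - F(s) + η (2 - s)` for `0 ≤ s ≤ 3/2`, constant outside. -/
noncomputable def Gp (f : ℝ → ℝ) (η s : ℝ) : ℝ :=
  √(2 * (FF f 1 - FF f (max 0 (min s (3 / 2))) + η * (2 - max 0 (min s (3 / 2)))))

/-- `T` of the upper profile. -/
noncomputable def Tp (f : ℝ → ℝ) (η s : ℝ) : ℝ := ∫ r in (0 : ℝ)..s, 1 / Gp f η r

/-- Bound for the `G`s on `[0, 1]`. -/
noncomputable def Gm (f : ℝ → ℝ) : ℝ := √(2 * (FF f 1 + 2))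

/-- The supersolution of the linearised profile equation, as a function of the value `s`. -/
noncomputable def KK (f : ℝ → ℝ) (η lam a s : ℝ) : ℝ :=
  Gp f η s * (1 + lam * ∫ r in a..s, (2 - r) / Gp f η r ^ 3)

end Pool.Agent.Lib.MP_188651_an
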