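import Pool.Agent.Lib.MP_188651_an.JetA
import Pool.Agent.Lib.MP_188651_an.JetB
import Pool.Agent.Lib.MP_188651_an.JetC

open Set Filter Metric Topology InnerProductSpace Laplacian
open scoped Pointwise

namespace Pool.Agent.Lib.MP_188651_an

private theorem near_zero_InnerPos {f : ℝ → ℝ} (hf : IsPositiveReaction f) :
    ∃ m > 0, ∃ ε > 0, ε < 1 ∧ ∀ s, 0 < s → s ≤ ε → m * s < f s := by
  have hd : HasDerivWithinAt f (derivWithin f (Ici 0) 0) (Ici 0) 0 :=
    ((hf.smooth.differentiableOn (by norm_num)) 0 (by simp)).hasDerivWithinAt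
  have h1 := (hasDerivWithinAt_iff_tendsto_slope' (s := Ioi (0 : ℝ)) (by simp)).1
    (hd.mono Ioi_subset_Ici_self)
  have h2 : ∀ᶠ s in 𝓝[>] (0 : ℝ), derivWithin f (Ici 0) 0 / 2 < slope f 0 s :=
    h1.eventually (lt_mem_nhds (half_lt_self hf.deriv_zero))
  obtain ⟨δ, hδ, hδ'⟩ := mem_nhdsGT_iff_exists_Ioo_subset.1 h2
  have hδ0 : (0 : ℝ) < δ := hδ
  refine ⟨derivWithin f (Ici 0) 0 / 2, half_pos hf.deriv_zero, min (δ / 2) (1 / 2),
    lt_min (by linarith) (by norm_num), lt_of_le_of_lt (min_le_right _ _) (by norm_num), ?_⟩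
  intro s hs hs2
  have h3 : s ∈ Ioo 0 δ := ⟨hs, lt_of_le_of_lt (hs2.trans (min_le_left _ _)) (by linarith)⟩
  have h4 : derivWithin f (Ici 0) 0 / 2 < slope f 0 s := hδ' h3
  rw [slope_def_field, hf.zero, sub_zero, sub_zero, lt_div_iff₀ hs] at h4
  exact h4

private theorem slice_InnerPos {n : ℕ} (c x : EE n) (i : Fin n) (t : ℝ) :
    ‖x + t • EuclideanSpace.single i (1 : ℝ) - c‖ ^ 2 =
      ‖x - c‖ ^ 2 + 2 * (t * (x i - c i)) + t ^ 2 := by
  have e : x + t • EuclideanSpace.single i (1 : ℝ) - c =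
      (x - c) + t • EuclideanSpace.single i (1 : ℝ) := by abel
  rw [e, norm_add_sq_real, real_inner_smul_right, norm_smul, EuclideanSpace.norm_single,
    EuclideanSpace.inner_single_right]
  simp

private theorem jet_sq_InnerPos {n : ℕ} (c x : EE n) :
    Jet (fun y => ‖y - c‖ ^ 2) x (fun i => 2 * (x i - c i)) (2 * n) := by
  refine ⟨fun i t => 2 * (x i - c i) + 2 * t, fun _ => 2, ?_, ?_, ?_, ?_⟩
  · intro i
    refine Filter.Eventually.of_forall fun t => ?_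
    have e : (fun t : ℝ => ‖x + t • EuclideanSpace.single i (1 : ℝ) - c‖ ^ 2) =
        fun t : ℝ => ‖x - c‖ ^ 2 + 2 * (t * (x i - c i)) + t ^ 2 := by
      funext t
      exact slice_InnerPos c x i t
    rw [e]
    have h2 : HasDerivAt (fun t : ℝ => 2 * (t * (x i - c i))) (2 * (1 * (x i - c i))) t :=
      ((hasDerivAt_id t).mul_const _).const_mul 2
    have h3 : HasDerivAt (fun t : ℝ => t ^ 2) (2 * t) t := by
      refine (hasDerivAt_pow 2 t).congr_deriv ?_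
      norm_num
    refine ((h2.const_add _).fun_add h3).congr_deriv ?_
    ring
  · intro i
    simp
  · intro i
    refine (((hasDerivAt_id (0 : ℝ)).const_mul 2).const_add _).congr_deriv ?_
    norm_num
  · simp [mul_comm]

private theorem jet_zeta_InnerPos {n : ℕ} (c x : EE n) (R : ℝ) (hR : 0 < R) :
    ∃ g : Fin n → ℝ, Jet (fun y => (1 - ‖y - c‖ ^ 2 / R ^ 2) ^ 2) x g
      ((8 * (‖x - c‖ ^ 2 / R ^ 2) - 4 * n * (1 - ‖x - c‖ ^ 2 / R ^ 2)) / R ^ 2) := by
  have h1 := jet_sq_InnerPos c x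
  have h2 := Jet.comp (T := fun r : ℝ => (1 - r / R ^ 2) ^ 2)
    (T1 := fun r : ℝ => -2 * (1 - r / R ^ 2) / R ^ 2) (T2 := 2 / R ^ 4) h1
    (Filter.Eventually.of_forall fun r => by
      have k1 : HasDerivAt (fun r : ℝ => 1 - r / R ^ 2) (-(1 / R ^ 2)) r :=
        ((hasDerivAt_id r).div_const (R ^ 2)).const_sub 1
      refine (k1.fun_pow 2).congr_deriv ?_
      norm_num
      ring) (by
      have k1 : HasDerivAt (fun r : ℝ => 1 - r / R ^ 2) (-(1 / R ^ 2)) (‖x - c‖ ^ 2) :=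
        ((hasDerivAt_id _).div_const (R ^ 2)).const_sub 1
      refine ((k1.const_mul (-2)).div_const (R ^ 2)).congr_deriv ?_
      field_simp)
  refine ⟨fun i => -2 * (1 - ‖x - c‖ ^ 2 / R ^ 2) / R ^ 2 * (2 * (x i - c i)), ?_⟩
  · have e : (8 * (‖x - c‖ ^ 2 / R ^ 2) - 4 * n * (1 - ‖x - c‖ ^ 2 / R ^ 2)) / R ^ 2 =
        2 / R ^ 4 * ∑ i, (2 * (x i - c i)) ^ 2 +
          -2 * (1 - ‖x - c‖ ^ 2 / R ^ 2) / R ^ 2 * (2 * n) := by
      have e2 : ∑ i, (2 * (x i - c i)) ^ 2 = 4 * ‖x - c‖ ^ 2 := by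
        rw [EuclideanSpace.real_norm_sq_eq, Finset.mul_sum]
        refine Finset.sum_congr rfl fun i _ => ?_
        have : (x - c) i = x i - c i := rfl
        rw [this]
        ring
      rw [e2]
      field_simp
      ring
    rw [e]
    exact h2

theorem inner_pos (n : ℕ) {f : ℝ → ℝ} (hf : IsPositiveReaction f) : ∃ ε > 0, ε < 1 ∧ ∃ R > 0,
    ∀ (D : Set (EE n)) (u : EE n → ℝ) (x : EE n), IsOpen D → ContDiffOn ℝ 2 u D → (∀ y ∈ D, 0 < u y) →
      (∀ y ∈ D, -(Δ u) y = f (u y)) → closedBall x R ⊆ D → ε ≤ u x := by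
  obtain ⟨m, hm, ε, hε, hε1, hfm⟩ := near_zero_InnerPos hf
  set R : ℝ := 2 * n * (n + 2) / m + 1 with hRdef
  have hn : (0 : ℝ) ≤ n := Nat.cast_nonneg n
  have hR1 : 1 ≤ R := by
    have : 0 ≤ 2 * (n : ℝ) * (n + 2) / m := by positivity
    linarith
  have hR : 0 < R := by linarith
  have hR2 : 2 * (n : ℝ) * (n + 2) / m ≤ R ^ 2 := by nlinarith
  refine ⟨ε, hε, hε1, R, hR, ?_⟩
  intro D u x hD hu hupos heq hball
  by_contra hlt
  rw [not_le] at hlt
  have hxK : x ∈ closedBall x R := mem_closedBall_self hR.le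
  have hcomp : IsCompact (closedBall x R) := isCompact_closedBall x R
  have hcu : ContinuousOn u (closedBall x R) := hu.continuousOn.mono hball
  have hcz : Continuous (fun y : EE n => (1 - ‖y - x‖ ^ 2 / R ^ 2) ^ 2) := by fun_prop
  have hch : ContinuousOn (fun y : EE n => (1 - ‖y - x‖ ^ 2 / R ^ 2) ^ 2 / u y)
      (closedBall x R) :=
    hcz.continuousOn.div hcu (fun y hy => (hupos y (hball hy)).ne')
  obtain ⟨x1, hx1, hmax⟩ := hcomp.exists_isMaxOn ⟨x, hxK⟩ hch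
  have hmax' : ∀ y ∈ closedBall x R, (1 - ‖y - x‖ ^ 2 / R ^ 2) ^ 2 / u y ≤
      (1 - ‖x1 - x‖ ^ 2 / R ^ 2) ^ 2 / u x1 := fun y hy => hmax hy
  have hux := hupos x (hball hxK)
  have hux1 := hupos x1 (hball hx1)
  set z1 : ℝ := (1 - ‖x1 - x‖ ^ 2 / R ^ 2) ^ 2 with hz1
  have hz1x : 1 / u x ≤ z1 / u x1 := by
    have := hmax' x hxK
    simpa using this
  have hz1pos : 0 < z1 := by
    have h1 : 0 < z1 / u x1 := lt_of_lt_of_le (by positivity) hz1x
    rcases (div_pos_iff.1 h1) with h | h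
    · exact h.1
    · linarith [h.2]
  have hx1R : ‖x1 - x‖ ≤ R := by
    rw [mem_closedBall, dist_eq_norm] at hx1
    exact hx1
  have hx1lt : ‖x1 - x‖ < R := by
    rcases hx1R.lt_or_eq with h | h
    · exact h
    · exfalso
      rw [hz1, h, div_self (by positivity)] at hz1pos
      norm_num at hz1pos
  have hx1b : x1 ∈ ball x R := by
    rw [mem_ball, dist_eq_norm]
    exact hx1lt
  set s : ℝ := ‖x1 - x‖ ^ 2 / R ^ 2 with hs
  have hs0 : 0 ≤ s := by positivity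
  have hs1 : s < 1 := by
    rw [hs, div_lt_one (by positivity)]
    exact pow_lt_pow_left₀ hx1lt (norm_nonneg _) two_ne_zero
  have hz1le : z1 ≤ 1 := by
    rw [hz1]
    nlinarith
  set e1 : ℝ := u x1 / z1 with he1
  have he1pos : 0 < e1 := by positivity
  have he1z : e1 * z1 = u x1 := by
    rw [he1]
    field_simp
  have he1x : e1 ≤ u x := by
    rw [he1, div_le_iff₀ hz1pos]
    rw [div_le_div_iff₀ hux hux1] at hz1x
    linarith
  have hlow : ∀ y ∈ closedBall x R, e1 * (1 - ‖y - x‖ ^ 2 / R ^ 2) ^ 2 ≤ u y := by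
    intro y hy
    have h1 := hmax' y hy
    have huy := hupos y (hball hy)
    rw [div_le_div_iff₀ huy hux1] at h1
    rw [he1, div_mul_eq_mul_div, div_le_iff₀ hz1pos]
    linarith
  have hmin : IsLocalMin (fun y => u y - e1 * (1 - ‖y - x‖ ^ 2 / R ^ 2) ^ 2) x1 := by
    have hnh : closedBall x R ∈ 𝓝 x1 := closedBall_mem_nhds_of_mem hx1b
    filter_upwards [hnh] with y hy
    have h1 := hlow y hy
    have h2 : u x1 - e1 * (1 - ‖x1 - x‖ ^ 2 / R ^ 2) ^ 2 = 0 := by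
      rw [← hs, ← hz1, he1z, sub_self]
    rw [h2]
    linarith
  have hx1D : x1 ∈ D := hball hx1
  obtain ⟨gu, hju⟩ := jet_of_contDiffAt (hu.contDiffAt (hD.mem_nhds hx1D))
  obtain ⟨gz, hjz⟩ := jet_zeta_InnerPos x x1 R hR
  have hL := (Jet.of_isLocalMin (hju.sub (hjz.const_mul e1)) hmin).2
  rw [← hs] at hL
  have hΔ := heq x1 hx1D
  have hu1 : u x1 ≤ ε := by
    rw [← he1z]
    have : e1 * z1 ≤ e1 * 1 := mul_le_mul_of_nonneg_left hz1le he1pos.le
    linarith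
  have hfu := hfm (u x1) hux1 hu1
  -- the key inequality
  have hkey : -((8 * s - 4 * n * (1 - s)) / R ^ 2) ≤ m * z1 := by
    have hR2pos : 0 < R ^ 2 := by positivity
    rw [← neg_div, div_le_iff₀ hR2pos, hz1]
    have h1s : 0 < 1 - s := by linarith
    by_cases hc : (1 - s) * (n + 2) ≤ 2
    · have h1 : -(8 * s - 4 * n * (1 - s)) ≤ 0 := by nlinarith
      have h2 : 0 ≤ m * (1 - s) ^ 2 * R ^ 2 := by positivity
      linarith
    · rw [not_le] at hc
      rw [div_le_iff₀ hm] at hR2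
      -- 2 n (n+2) ≤ R^2 m
      have h1 : 2 * (n : ℝ) * (n + 2) * (1 - s) ^ 2 ≤ R ^ 2 * m * (1 - s) ^ 2 :=
        mul_le_mul_of_nonneg_right hR2 (sq_nonneg _)
      have h2 : 4 * (n : ℝ) * (1 - s) ≤ 2 * (n : ℝ) * (n + 2) * (1 - s) ^ 2 := by
        have h3 : 0 ≤ 2 * (n : ℝ) * (1 - s) := by positivity
        have h4 : 2 * (n : ℝ) * (1 - s) * 2 ≤ 2 * (n : ℝ) * (1 - s) * ((1 - s) * (n + 2)) :=
          mul_le_mul_of_nonneg_left hc.le h3
        linarith
      linarith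
  have hfin : e1 * -((8 * s - 4 * n * (1 - s)) / R ^ 2) ≤ m * u x1 := by
    have := mul_le_mul_of_nonneg_left hkey he1pos.le
    rw [← he1z]
    linarith
  linarith

end Pool.Agent.Lib.MP_188651_an
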