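import Pool.Agent.Lib.MP_188651_an.ExMaxBall
import Pool.Agent.Lib.MP_188651_an.InnerPos

/-!
# The bump subsolution
-/

open Set Filter Metric Topology InnerProductSpace Laplacian

namespace Pool.Agent.Lib.MP_188651_an

private theorem near_zero_ExBump {f : ℝ → ℝ} (hf : IsPositiveReaction f) :
    ∃ m > 0, ∃ ε > 0, ε < 1 ∧ ∀ s, 0 < s → s ≤ ε → m * s < f s := by
  have hd : HasDerivWithinAt f (derivWithin f (Ici 0) 0) (Ici 0) 0 :=
    ((hf.smooth.differentiableOn (by norm_num)) 0 (by simp)).hasDerivWithinAt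
  have h1 := (hasDerivWithinAt_iff_tendsto_slope' (s := Ioi (0 : ℝ)) (by simp)).1
    (hd.mono Ioi_subset_Ici_self)
  have h2 : ∀ᶠ s in 𝓝[>] (0 : ℝ), derivWithin f (Ici 0) 0 / 2 < slope f 0 s :=
    h1.eventually (lt_mem_nhds (half_lt_self hf.deriv_zero))
  obtain ⟨δ, hδ, hδ'⟩ := mem_nhdsGT_iff_exists_Ioo_subset.1 h2
  have hδ0 : (0 : ℝ) < δ := hδ
  refine ⟨derivWithin f (Ici 0) 0 / 2, half_pos hf.deriv_zero, min (δ / 2) (1 / 2),
    lt_min (by linarith) (by norm_num), lt_of_le_of_lt (min_le_right _ _) (by norm_num), ?_⟩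
  intro s hs hs2
  have h3 : s ∈ Ioo 0 δ := ⟨hs, lt_of_le_of_lt (hs2.trans (min_le_left _ _)) (by linarith)⟩
  have h4 : derivWithin f (Ici 0) 0 / 2 < slope f 0 s := hδ' h3
  rw [slope_def_field, hf.zero, sub_zero, sub_zero, lt_div_iff₀ hs] at h4
  exact h4

private theorem zt_eq_ExBump {n : ℕ} (ε R : ℝ) (x0 : EE n) : zt ε R x0 = fun y : EE n =>
    (ε + (-(2 * ε / R ^ 2)) * ‖y - x0‖ ^ 2) + (ε / R ^ 4) * ‖y - x0‖ ^ 4 := by
  funext y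
  unfold zt
  have h1 : (‖y - x0‖ ^ 2 / R ^ 2) ^ 2 = ‖y - x0‖ ^ 4 / R ^ 4 := by
    rw [div_pow, ← pow_mul, ← pow_mul]
  have h2 : ε * (1 - ‖y - x0‖ ^ 2 / R ^ 2) ^ 2 =
      ε * (1 - 2 * (‖y - x0‖ ^ 2 / R ^ 2) + (‖y - x0‖ ^ 2 / R ^ 2) ^ 2) := by ring
  rw [h2, h1]
  ring

private theorem lap_zt_ExBump {n : ℕ} (ε R : ℝ) (x0 x : EE n) : (Δ (zt ε R x0)) x =
    (-(2 * ε / R ^ 2)) * (2 * (n : ℝ)) + (ε / R ^ 4) * ((4 * (n : ℝ) + 8) * ‖x - x0‖ ^ 2) := by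
  obtain ⟨a1, a2, -⟩ := sq_facts x0 x
  obtain ⟨b1, b2, -⟩ := quart_facts x0 x
  have a3 : ContDiffAt ℝ 2 (fun y : EE n => ‖y - x0‖ ^ 2) x := a1.contDiffAt
  have b3 : ContDiffAt ℝ 2 (fun y : EE n => ‖y - x0‖ ^ 4) x := b1.contDiffAt
  have c1 : ContDiffAt ℝ 2 (fun _ : EE n => ε) x := contDiffAt_const
  have a4 : ContDiffAt ℝ 2 (fun y : EE n => (-(2 * ε / R ^ 2)) * ‖y - x0‖ ^ 2) x :=
    contDiffAt_const.mul a3
  have b4 : ContDiffAt ℝ 2 (fun y : EE n => (ε / R ^ 4) * ‖y - x0‖ ^ 4) x :=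
    contDiffAt_const.mul b3
  have a5 : ContDiffAt ℝ 2 (fun y : EE n => ε + (-(2 * ε / R ^ 2)) * ‖y - x0‖ ^ 2) x := c1.add a4
  rw [zt_eq_ExBump, lap_add a5 b4, lap_add c1 a4, lap_const, lap_const_mul _ a3,
    lap_const_mul _ b3, a2, b2, zero_add]

theorem zt_facts {n : ℕ} (ε R : ℝ) (x0 : EE n) : ContDiff ℝ 2 (zt ε R x0) := by
  rw [zt_eq_ExBump]
  exact (contDiff_const.add (contDiff_const.mul (sq_facts x0 x0).1)).add
    (contDiff_const.mul (quart_facts x0 x0).1)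

theorem bump_sub (n : ℕ) {f : ℝ → ℝ} (hf : IsPositiveReaction f) : ∃ ε > 0, ε < 1 ∧ ∃ R > 0,
    ∀ x0 x : EE n, ‖x - x0‖ < R → -(Δ (zt ε R x0)) x ≤ f (zt ε R x0 x) := by
  obtain ⟨m, hm, ε, hε, hε1, hfm⟩ := near_zero_ExBump hf
  set R : ℝ := 2 * n * (n + 2) / m + 1 with hRdef
  have hn : (0 : ℝ) ≤ n := Nat.cast_nonneg n
  have hR1 : 1 ≤ R := by
    have : 0 ≤ 2 * (n : ℝ) * (n + 2) / m := by positivity
    linarith
  have hR : 0 < R := by linarith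
  have hR2 : 2 * (n : ℝ) * (n + 2) / m ≤ R ^ 2 := by nlinarith
  refine ⟨ε, hε, hε1, R, hR, ?_⟩
  intro x0 x hx
  rw [lap_zt_ExBump]
  set s : ℝ := ‖x - x0‖ ^ 2 / R ^ 2 with hs
  have hs0 : 0 ≤ s := by positivity
  have hs1 : s < 1 := by
    rw [hs, div_lt_one (by positivity)]
    exact pow_lt_pow_left₀ hx (norm_nonneg _) two_ne_zero
  have hzt : zt ε R x0 x = ε * (1 - s) ^ 2 := rfl
  have hz1 : 0 < (1 - s) ^ 2 := by
    have : 0 < 1 - s := by linarith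
    positivity
  have hz2 : (1 - s) ^ 2 ≤ 1 := by nlinarith
  have e : -((-(2 * ε / R ^ 2)) * (2 * (n : ℝ)) + (ε / R ^ 4) * ((4 * (n : ℝ) + 8) * ‖x - x0‖ ^ 2)) =
      ε * -((8 * s - 4 * n * (1 - s)) / R ^ 2) := by
    rw [hs]
    field_simp
    ring
  rw [e, hzt]
  have hkey : -((8 * s - 4 * n * (1 - s)) / R ^ 2) ≤ m * (1 - s) ^ 2 := by
    have hR2pos : 0 < R ^ 2 := by positivity
    rw [← neg_div, div_le_iff₀ hR2pos]
    have h1s : 0 < 1 - s := by linarith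
    by_cases hc : (1 - s) * (n + 2) ≤ 2
    · have h1 : -(8 * s - 4 * n * (1 - s)) ≤ 0 := by nlinarith
      have h2 : 0 ≤ m * (1 - s) ^ 2 * R ^ 2 := by positivity
      linarith
    · rw [not_le] at hc
      rw [div_le_iff₀ hm] at hR2
      have h1 : 2 * (n : ℝ) * (n + 2) * (1 - s) ^ 2 ≤ R ^ 2 * m * (1 - s) ^ 2 :=
        mul_le_mul_of_nonneg_right hR2 (sq_nonneg _)
      have h2 : 4 * (n : ℝ) * (1 - s) ≤ 2 * (n : ℝ) * (n + 2) * (1 - s) ^ 2 := by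
        have h3 : 0 ≤ 2 * (n : ℝ) * (1 - s) := by positivity
        have h4 : 2 * (n : ℝ) * (1 - s) * 2 ≤ 2 * (n : ℝ) * (1 - s) * ((1 - s) * (n + 2)) :=
          mul_le_mul_of_nonneg_left hc.le h3
        linarith
      linarith
  have h1 : ε * -((8 * s - 4 * n * (1 - s)) / R ^ 2) ≤ m * (ε * (1 - s) ^ 2) := by
    have := mul_le_mul_of_nonneg_left hkey hε.le
    linarith
  have h2 : ε * (1 - s) ^ 2 ≤ ε := by
    have := mul_le_mul_of_nonneg_left hz2 hε.le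
    linarith
  have h3 := hfm (ε * (1 - s) ^ 2) (by positivity) h2
  linarith

end Pool.Agent.Lib.MP_188651_an
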