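import Pool.Agent.Lib.MP_188651_an.ExDefs

/-!
# The constant M
-/

open Set Filter Metric Topology InnerProductSpace Laplacian

namespace Pool.Agent.Lib.MP_188651_an

theorem exists_M {f : ℝ → ℝ} (hf : IsPositiveReaction f) : ∃ M > 0,
    MonotoneOn (fun s => f s + M * s) (Icc 0 1) := by
  have h1 : ContinuousOn (derivWithin f (Ici 0)) (Ici 0) :=
    hf.smooth.continuousOn_derivWithin (uniqueDiffOn_Ici 0) le_rfl
  have h2 : ContinuousOn (derivWithin f (Ici 0)) (Icc 0 1) := h1.mono Icc_subset_Ici_self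
  obtain ⟨B, hB⟩ := isCompact_Icc.exists_bound_of_continuousOn h2
  refine ⟨|B| + 1, by positivity, ?_⟩
  have hfc : ContinuousOn f (Icc 0 1) := hf.smooth.continuousOn.mono Icc_subset_Ici_self
  have hint : ∀ s ∈ interior (Icc (0 : ℝ) 1), HasDerivAt (fun s => f s + (|B| + 1) * s)
      (derivWithin f (Ici 0) s + (|B| + 1)) s := by
    intro s hs
    rw [interior_Icc] at hs
    have hnh : Ici (0 : ℝ) ∈ 𝓝 s := Ici_mem_nhds hs.1
    have hd : DifferentiableAt ℝ f s :=
      (hf.smooth.differentiableOn (by norm_num) s hs.1.le).differentiableAt hnh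
    have h3 : HasDerivAt f (derivWithin f (Ici 0) s) s := by
      rw [derivWithin_of_mem_nhds hnh]
      exact hd.hasDerivAt
    have h4 := ((hasDerivAt_id s).const_mul (|B| + 1))
    rw [mul_one] at h4
    exact h3.add h4
  apply monotoneOn_of_deriv_nonneg (convex_Icc 0 1)
  · exact hfc.add (continuousOn_const.mul continuousOn_id)
  · intro s hs
    exact (hint s hs).differentiableAt.differentiableWithinAt
  · intro s hs
    rw [(hint s hs).deriv]
    have h5 := hB s (interior_subset hs)
    rw [Real.norm_eq_abs] at h5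
    have h6 := neg_abs_le (derivWithin f (Ici 0) s)
    have h7 := le_abs_self B
    linarith

theorem dat_comp {n : ℕ} {f : ℝ → ℝ} (hf : IsPositiveReaction f) {M : ℝ} (hM : 0 < M)
    (hmono : MonotoneOn (fun s => f s + M * s) (Icc 0 1)) {D : Set (EE n)} (hD : IsOpen D) {u : EE n → ℝ}
    (hu : ContinuousOn u (closure D)) (hu2 : ContDiffOn ℝ 2 u D)
    (h01 : ∀ x ∈ closure D, 0 ≤ u x ∧ u x ≤ 1) : Dat D M (fun x => f (u x) + M * u x) := by
  refine ⟨hM, ?_, ?_, ?_, ?_⟩
  · apply ContinuousOn.add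
    · exact hf.smooth.continuousOn.comp hu (fun x hx => (h01 x hx).1)
    · exact continuousOn_const.mul hu
  · apply ContDiffOn.add
    · exact hf.smooth.comp (hu2.of_le (by norm_num)) (fun x hx => (h01 x (subset_closure hx)).1)
    · exact contDiffOn_const.mul (hu2.of_le (by norm_num))
  · intro x hx
    obtain ⟨h0, h1⟩ := h01 x hx
    have h2 : 0 ≤ f (u x) := by
      rcases h0.lt_or_eq with h3 | h3
      · rcases h1.lt_or_eq with h4 | h4
        · exact (hf.pos _ h3 h4).le
        · rw [h4, hf.one]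
      · rw [← h3, hf.zero]
    positivity
  · intro x hx
    obtain ⟨h0, h1⟩ := h01 x hx
    have h2 := hmono ⟨h0, h1⟩ ⟨zero_le_one, le_rfl⟩ h1
    simp only [hf.one, mul_one, zero_add] at h2
    exact h2

end Pool.Agent.Lib.MP_188651_an
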