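import Pool.Agent.Lib.MP_188651_an.ExGeoB
import Pool.Agent.Lib.MP_188651_an.ExLapA

/-!
# The Perron class
-/

open Set Filter Metric Topology InnerProductSpace Laplacian

namespace Pool.Agent.Lib.MP_188651_an

variable {n : ℕ} {ρ M α : ℝ} {D : Set (EE n)} {N : EE n → EE n} {g : EE n → ℝ}

theorem PCl.zero (h : BD ρ D N) (hα : 0 < α) (hg : Dat D M g) : PCl D N M α g (fun _ => 0) := by
  refine ⟨continuousOn_const, upperSemicontinuousOn_const, fun _ _ => le_rfl,
    fun _ _ => zero_le_one, ?_, ?_⟩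
  · rintro x hx φ ⟨h1, h2, h3⟩
    have h4 : ∀ᶠ z in 𝓝 x, (0 : ℝ) ≤ φ z := by
      rw [h.isOpen.nhdsWithin_eq hx] at h3
      exact h3
    have h5 : ContDiffAt ℝ 2 (fun y => -1 * φ y) x := contDiffAt_const.mul h1
    have h6 : IsLocalMax (fun y => -1 * φ y) x := by
      filter_upwards [h4] with z hz
      rw [h2]
      linarith
    have h7 := (lap_le_of_isLocalMax h5 h6).2
    rw [lap_const_mul (-1) h1] at h7
    have h8 := hg.nonneg x (subset_closure hx)
    show -(Δ φ) x + M * 0 ≤ g x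
    linarith
  · rintro y hy φ ⟨h1, h2, h3⟩
    have h4 := h.fderiv_le hy (h1.differentiableAt (by norm_num)) (by
      filter_upwards [h3] with z hz
      rw [h2]
      exact hz)
    have h5 : α * fderiv ℝ φ y (N y) ≤ 0 := mul_nonpos_of_nonneg_of_nonpos hα.le h4
    show 0 + α * fderiv ℝ φ y (N y) ≤ 0
    linarith

private theorem touchA_left_ExCls {S : Set (EE n)} {v w φ : EE n → ℝ} {x : EE n}
    (h : TouchA S (fun x => max (v x) (w x)) φ x) (hvw : w x ≤ v x) : TouchA S v φ x := by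
  obtain ⟨h1, h2, h3⟩ := h
  refine ⟨h1, ?_, ?_⟩
  · rw [h2]; exact max_eq_left hvw
  · filter_upwards [h3] with z hz
    exact (le_max_left _ _).trans hz

private theorem touchA_right_ExCls {S : Set (EE n)} {v w φ : EE n → ℝ} {x : EE n}
    (h : TouchA S (fun x => max (v x) (w x)) φ x) (hvw : v x ≤ w x) : TouchA S w φ x := by
  obtain ⟨h1, h2, h3⟩ := h
  refine ⟨h1, ?_, ?_⟩
  · rw [h2]; exact max_eq_right hvw
  · filter_upwards [h3] with z hz
    exact (le_max_right _ _).trans hz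

theorem PCl.max {v w : EE n → ℝ} (hv : PCl D N M α g v) (hw : PCl D N M α g w) :
    PCl D N M α g (fun x => max (v x) (w x)) := by
  refine ⟨hv.cont.sup hw.cont, hv.usc.sup hw.usc, fun x hx => (hv.nonneg x hx).trans (le_max_left _ _),
    fun x hx => max_le (hv.le_one x hx) (hw.le_one x hx), ?_, ?_⟩
  · intro x hx φ hφ
    rcases le_total (w x) (v x) with hvw | hvw
    · have := hv.int x hx φ (touchA_left_ExCls hφ hvw)
      show -(Δ φ) x + M * Max.max (v x) (w x) ≤ g x
      rw [max_eq_left hvw]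
      exact this
    · have := hw.int x hx φ (touchA_right_ExCls hφ hvw)
      show -(Δ φ) x + M * Max.max (v x) (w x) ≤ g x
      rw [max_eq_right hvw]
      exact this
  · intro x hx φ hφ
    rcases le_total (w x) (v x) with hvw | hvw
    · have := hv.bd x hx φ (touchA_left_ExCls hφ hvw)
      show Max.max (v x) (w x) + _ ≤ 0
      rw [max_eq_left hvw]
      exact this
    · have := hw.bd x hx φ (touchA_right_ExCls hφ hvw)
      show Max.max (v x) (w x) + _ ≤ 0
      rw [max_eq_right hvw]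
      exact this

private theorem bdd_ExCls {x : EE n} (hx : x ∈ closure D) :
    BddAbove {s : ℝ | ∃ v : EE n → ℝ, PCl D N M α g v ∧ s = v x} := by
  refine ⟨1, ?_⟩
  rintro s ⟨v, hv, rfl⟩
  exact hv.le_one x hx

theorem PCl.le_uP {v : EE n → ℝ} (hv : PCl D N M α g v) : ∀ x ∈ closure D, v x ≤ uP D N M α g x :=
  fun _ hx => le_csSup (bdd_ExCls hx) ⟨v, hv, rfl⟩

theorem uP_facts (h : BD ρ D N) (hα : 0 < α) (hg : Dat D M g) : ∀ x ∈ closure D, 0 ≤ uP D N M α g x ∧
    uP D N M α g x ≤ 1 ∧ ∀ ε > 0, ∃ v, PCl D N M α g v ∧ uP D N M α g x - ε < v x := by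
  intro x hx
  have hne : {s : ℝ | ∃ v : EE n → ℝ, PCl D N M α g v ∧ s = v x}.Nonempty :=
    ⟨0, fun _ => 0, PCl.zero h hα hg, rfl⟩
  refine ⟨(PCl.zero h hα hg).le_uP x hx, ?_, ?_⟩
  · apply csSup_le hne
    rintro s ⟨v, hv, rfl⟩
    exact hv.le_one x hx
  · intro ε hε
    obtain ⟨s, ⟨v, hv, rfl⟩, hs⟩ := exists_lt_of_lt_csSup hne
      (show uP D N M α g x - ε < sSup _ from sub_lt_self _ hε)
    exact ⟨v, hv, hs⟩

end Pool.Agent.Lib.MP_188651_an
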