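import Pool.Agent.Lib.MP_188651_an.ExDefs
import Pool.Agent.Lib.MP_188651_an.ExLapA

/-!
# Second order tests along curves
-/

open Set Filter Metric Topology InnerProductSpace Laplacian

namespace Pool.Agent.Lib.MP_188651_an

variable {n : ℕ}

/-- reflection in the hyperplane orthogonal to the unit vector `e` -/
noncomputable def refl (e w : EE n) : EE n := w - (2 * inner ℝ e w) • e

private theorem slice_max_ExCurve {σ D : ℝ → ℝ} {H : ℝ} (hm : IsLocalMax σ 0)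
    (h1 : ∀ᶠ t in 𝓝 (0 : ℝ), HasDerivAt σ (D t) t) (h2 : HasDerivAt D H 0) : H ≤ 0 := by
  have h0 : HasDerivAt σ (D 0) 0 := h1.self_of_nhds
  have hD0 : D 0 = 0 := hm.hasDerivAt_eq_zero h0
  by_contra hH
  push Not at hH
  have hev : deriv σ =ᶠ[𝓝 0] D := h1.mono fun t ht => ht.deriv
  have hdd : deriv (deriv σ) 0 = H := by
    rw [hev.deriv_eq]
    exact h2.deriv
  have hmin : IsLocalMin σ 0 := isLocalMin_of_deriv_deriv_pos (by rw [hdd]; exact hH)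
    (by rw [h0.deriv]; exact hD0) h0.continuousAt
  have hconst : σ =ᶠ[𝓝 0] fun _ => σ 0 := by
    filter_upwards [hm, hmin] with t h3 h4
    exact le_antisymm h3 h4
  have hd : deriv σ =ᶠ[𝓝 0] fun _ => 0 := by
    have h5 := hconst.deriv
    refine h5.trans ?_
    filter_upwards with t
    exact deriv_const t _
  have h6 : deriv (deriv σ) 0 = 0 := by
    rw [hd.deriv_eq]
    exact deriv_const _ _
  rw [hdd] at h6
  exact hH.ne' h6

private theorem line_ExCurve {v : EE n → ℝ} {x : EE n} (h : ContDiffAt ℝ 2 v x) (ξ : EE n) :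
    (∀ᶠ t in 𝓝 (0 : ℝ), HasDerivAt (fun t : ℝ => v (x + t • ξ)) (fderiv ℝ v (x + t • ξ) ξ) t) ∧
      HasDerivAt (fun t : ℝ => fderiv ℝ v (x + t • ξ) ξ) (iteratedFDeriv ℝ 2 v x ![ξ, ξ]) 0 := by
  have hd : ContDiffAt ℝ 1 (fderiv ℝ v) x := h.fderiv_right (m := 1) (by norm_num)
  have hev : ∀ᶠ y in 𝓝 x, DifferentiableAt ℝ v y := by
    have h1 : ∀ᶠ y in 𝓝 x, ContDiffAt ℝ 2 v y := h.eventually (by simp)
    exact h1.mono fun y hy => hy.differentiableAt (by norm_num)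
  have hline : ∀ t : ℝ, HasDerivAt (fun t : ℝ => x + t • ξ) ξ t := by
    intro t
    have h1 := ((hasDerivAt_id t).smul_const ξ).const_add x
    simpa using h1
  have hx0 : x + (0 : ℝ) • ξ = x := by simp
  constructor
  · have hc : ContinuousAt (fun t : ℝ => x + t • ξ) 0 := by
      fun_prop
    have hc' : Tendsto (fun t : ℝ => x + t • ξ) (𝓝 0) (𝓝 x) := by
      have h2 := hc.tendsto
      rwa [hx0] at h2
    filter_upwards [hc'.eventually hev] with t ht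
    exact ht.hasFDerivAt.comp_hasDerivAt t (hline t)
  · have h2 : HasFDerivAt (fderiv ℝ v) (fderiv ℝ (fderiv ℝ v) x) x :=
      (hd.differentiableAt (by norm_num)).hasFDerivAt
    have h2' : HasFDerivAt (fderiv ℝ v) (fderiv ℝ (fderiv ℝ v) x) (x + (0 : ℝ) • ξ) := by
      rw [hx0]
      exact h2
    have h3 := h2'.comp_hasDerivAt (0 : ℝ) (hline 0)
    have h4 := h3.clm_apply (hasDerivAt_const (0 : ℝ) ξ)
    rw [iteratedFDeriv_two_apply]
    simpa using h4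

theorem curve_test {v1 v2 : EE n → ℝ} {x x' ξ ξ' : EE n} {q q' : ℝ → ℝ} {q'' : ℝ}
    (h1 : ContDiffAt ℝ 2 v1 x) (h2 : ContDiffAt ℝ 2 v2 x')
    (hq : ∀ᶠ t in 𝓝 (0 : ℝ), HasDerivAt q (q' t) t) (hq' : HasDerivAt q' q'' 0)
    (hmax : ∀ᶠ t in 𝓝 (0 : ℝ), v1 (x + t • ξ) - v2 (x' + t • ξ') - q t ≤ v1 x - v2 x' - q 0) :
    iteratedFDeriv ℝ 2 v1 x ![ξ, ξ] - iteratedFDeriv ℝ 2 v2 x' ![ξ', ξ'] ≤ q'' := by
  obtain ⟨a1, a2⟩ := line_ExCurve h1 ξ
  obtain ⟨b1, b2⟩ := line_ExCurve h2 ξ'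
  have h3 := slice_max_ExCurve (σ := fun t => v1 (x + t • ξ) - v2 (x' + t • ξ') - q t)
    (D := fun t => fderiv ℝ v1 (x + t • ξ) ξ - fderiv ℝ v2 (x' + t • ξ') ξ' - q' t)
    (H := iteratedFDeriv ℝ 2 v1 x ![ξ, ξ] - iteratedFDeriv ℝ 2 v2 x' ![ξ', ξ'] - q'') ?_ ?_ ?_
  · linarith
  · filter_upwards [hmax] with t ht
    simpa using ht
  · filter_upwards [a1, b1, hq] with t ht1 ht2 ht3
    exact (ht1.sub ht2).sub ht3
  · exact (a2.sub b2).sub hq'

/-- parallel coupling -/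
theorem pc {v1 v2 θ1 θ2 φ : EE n → ℝ} {x x' : EE n} (h1 : ContDiffAt ℝ 2 v1 x)
    (h2 : ContDiffAt ℝ 2 v2 x') (hθ1 : ContDiffAt ℝ 2 θ1 x) (hθ2 : ContDiffAt ℝ 2 θ2 x')
    (hmax : ∀ᶠ p : EE n × EE n in 𝓝 (x, x'), v1 p.1 - v2 p.2 - φ (p.1 - p.2) - θ1 p.1 - θ2 p.2 ≤
      v1 x - v2 x' - φ (x - x') - θ1 x - θ2 x') :
    (Δ v1) x - (Δ v2) x' ≤ (Δ θ1) x + (Δ θ2) x' := by
  obtain ⟨a, ha⟩ : ∃ a, a = x' - x := ⟨_, rfl⟩
  have hxa : x + a = x' := by rw [ha]; abel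
  have ht : ∀ v : EE n → ℝ, ContDiffAt ℝ 2 v x' → ContDiffAt ℝ 2 (fun y => v (y + a)) x := by
    intro v hv
    rw [← hxa] at hv
    exact hv.comp x (contDiffAt_id.add contDiffAt_const)
  have h2' := ht v2 h2
  have hθ2' := ht θ2 hθ2
  have hw : ContDiffAt ℝ 2 (fun y => v1 y - v2 (y + a) - θ1 y - θ2 (y + a)) x :=
    ((h1.sub h2').sub hθ1).sub hθ2'
  have hlm : IsLocalMax (fun y => v1 y - v2 (y + a) - θ1 y - θ2 (y + a)) x := by
    have hc : ContinuousAt (fun y : EE n => (y, y + a)) x := by fun_prop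
    have hc' : Tendsto (fun y : EE n => (y, y + a)) (𝓝 x) (𝓝 (x, x')) := by
      have h3 := hc.tendsto
      rwa [hxa] at h3
    filter_upwards [hc'.eventually hmax] with y hy
    have e1 : y - (y + a) = x - x' := by rw [ha]; abel
    rw [e1] at hy
    rw [hxa]
    linarith
  have h3 := (lap_le_of_isLocalMax hw hlm).2
  rw [lap_sub ((h1.sub h2').sub hθ1) hθ2', lap_sub (h1.sub h2') hθ1, lap_sub h1 h2',
    lap_translate, lap_translate, hxa] at h3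
  linarith

end Pool.Agent.Lib.MP_188651_an
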