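import Pool.Agent.Lib.MP_188651_an.ExGeoB
import Pool.Agent.Lib.MP_188651_an.ExLapA
import Pool.Agent.Lib.MP_188651_an.ExLapB

/-!
# Strict modification of test functions at boundary points
-/

open Set Filter Metric Topology InnerProductSpace Laplacian

namespace Pool.Agent.Lib.MP_188651_an

variable {n : ℕ} {ρ : ℝ} {D : Set (EE n)} {N : EE n → EE n}

/-- For every `η > 0`, `B` there is a `C²` function `χ ≥ |x - y|⁴` on `closure D` near `y`, with `χ(y) = 0`,
`∂_N χ(y) = -η`, `Δχ ≤ -B` near `y`. -/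
theorem exists_chi (h : BD ρ D N) {y : EE n} (hy : y ∈ frontier D) {η B : ℝ} (hη : 0 < η) :
    ∃ χ : EE n → ℝ, ContDiffAt ℝ 2 χ y ∧ χ y = 0 ∧ fderiv ℝ χ y (N y) = -η ∧
      (∀ᶠ z in 𝓝[closure D] y, ‖z - y‖ ^ 4 ≤ χ z) ∧ ∀ᶠ z in 𝓝 y, (Δ χ) z ≤ -B := by
  have hρ : 0 < ρ := h.pos
  have hN : ‖N y‖ = 1 := h.unit y hy
  set c := y + ρ • N y with hc
  have hyc : y - c = -(ρ • N y) := by rw [hc]; abel
  have hnorm : ‖y - c‖ = ρ := by
    rw [hyc, norm_neg, norm_smul, hN, mul_one, Real.norm_eq_abs, abs_of_pos hρ]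
  have hne : y ≠ c := by
    intro he
    rw [← he, sub_self, norm_zero] at hnorm
    exact hρ.ne hnorm
  set A := (|B| + 1 + |((n : ℝ) - 1) / ρ * η|) / 2 with hA
  have hA0 : 0 < A := by positivity
  set e : ℝ → ℝ := fun s => η * (s - ρ) - A * (s - ρ) ^ 2 with he
  have hed : ∀ s, HasDerivAt e (η - 2 * A * (s - ρ)) s := by
    intro s
    have h1 : HasDerivAt (fun s : ℝ => s - ρ) 1 s := (hasDerivAt_id s).sub_const ρ
    have h2 := (h1.const_mul η).sub ((h1.pow 2).const_mul A)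
    exact (show HasDerivAt e _ s from h2).congr_deriv (by ring)
  have hed1 : deriv e = fun s => η - 2 * A * (s - ρ) := funext fun s => (hed s).deriv
  have hed2 : deriv (deriv e) ρ = -(2 * A) := by
    rw [hed1]
    have h1 : HasDerivAt (fun s : ℝ => s - ρ) 1 ρ := (hasDerivAt_id ρ).sub_const ρ
    have h2 := (hasDerivAt_const ρ η).sub (h1.const_mul (2 * A))
    exact (show HasDerivAt (fun s => η - 2 * A * (s - ρ)) _ ρ from h2).deriv.trans (by ring)
  have heC : ContDiff ℝ 2 e := by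
    simp only [he]
    fun_prop
  obtain ⟨hr1, hr2, hr3⟩ := radial (x := y) (c := c) (η := e) hne heC.contDiffAt
  obtain ⟨hq1, hq2, hq3⟩ := quart_facts y y
  set f1 : EE n → ℝ := fun z => ‖z - y‖ ^ 4 with hf1
  set f2 : EE n → ℝ := fun z => e ‖z - c‖ with hf2
  have hcd : ContDiffAt ℝ 2 (fun z => f1 z + f2 z) y := hq1.contDiffAt.add hr1
  refine ⟨fun z => f1 z + f2 z, hcd, ?_, ?_, ?_, ?_⟩
  · simp only [hf1, hf2, he, hnorm, sub_self, norm_zero]
    norm_num
  · have h1 : fderiv ℝ (fun z => f1 z + f2 z) y = fderiv ℝ f1 y + fderiv ℝ f2 y :=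
      fderiv_fun_add (hq1.contDiffAt.differentiableAt (by norm_num)) (hr1.differentiableAt (by norm_num))
    rw [h1, _root_.add_apply, hq3, hr3, hnorm, hed1, hyc, inner_neg_left, inner_smul_left,
      real_inner_self_eq_norm_sq, hN]
    simp only [sub_self, norm_zero]
    have : (starRingEnd ℝ) ρ = ρ := rfl
    rw [this]
    field_simp
    ring
  · have h1 : ∀ᶠ z in 𝓝 y, ‖z - c‖ - ρ < η / A := by
      have h2 : ContinuousAt (fun z : EE n => ‖z - c‖ - ρ) y := by fun_prop
      exact h2.eventually (gt_mem_nhds (by simp only [hnorm, sub_self]; positivity))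
    filter_upwards [nhdsWithin_le_nhds h1, self_mem_nhdsWithin] with z hz hzD
    have h2 : ρ ≤ ‖z - c‖ := by
      by_contra hcon
      push Not at hcon
      have h3 : z ∈ ball c ρ := by rwa [mem_ball, dist_eq_norm]
      have h4 : Disjoint (ball c ρ) (closure D) := (h.ext y hy).closure_right isOpen_ball
      exact disjoint_left.mp h4 h3 hzD
    simp only [hf1, hf2, he]
    have h5 : A * (‖z - c‖ - ρ) ≤ η := by
      rw [lt_div_iff₀ hA0] at hz
      linarith
    nlinarith [mul_nonneg (sub_nonneg.mpr h2) (sub_nonneg.mpr h5)]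
  · have h1 : (Δ (fun z => f1 z + f2 z)) y = (Δ f1) y + (Δ f2) y := lap_add hq1.contDiffAt hr1
    have h2 : (Δ (fun z => f1 z + f2 z)) y < -B := by
      rw [h1, hq2, hr2, hnorm, hed2, hed1]
      simp only [sub_self, norm_zero]
      have h3 : ((n : ℝ) - 1) / ρ * η ≤ |((n : ℝ) - 1) / ρ * η| := le_abs_self _
      have h4 : B ≤ |B| := le_abs_self _
      have h5 : 2 * A = |B| + 1 + |((n : ℝ) - 1) / ρ * η| := by rw [hA]; ring
      have h6 : (4 * (n : ℝ) + 8) * 0 ^ 2 + (-(2 * A) + ((n : ℝ) - 1) / ρ * (η - 2 * A * 0)) =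
        -(2 * A) + ((n : ℝ) - 1) / ρ * η := by ring
      rw [h6, h5]
      linarith
    filter_upwards [(lap_continuousAt hcd).eventually (gt_mem_nhds h2)] with z hz
    exact hz.le

/-- continuity of the normal derivative -/
theorem tendsto_normal_deriv (h : BD ρ D N) {y : EE n} (hy : y ∈ frontier D) {φ : EE n → ℝ}
    (hφ : ContDiffAt ℝ 2 φ y) :
    Tendsto (fun z => fderiv ℝ φ z (N z)) (𝓝[frontier D] y) (𝓝 (fderiv ℝ φ y (N y))) := by
  have h1 : ContinuousAt (fderiv ℝ φ) y :=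
    (hφ.fderiv_right (m := 1) (by norm_num)).continuousAt
  have h2 : Tendsto N (𝓝[frontier D] y) (𝓝 (N y)) := by
    rw [tendsto_iff_norm_sub_tendsto_zero]
    have h3 : Tendsto (fun z => ‖z - y‖ / ρ) (𝓝[frontier D] y) (𝓝 0) := by
      have h4 : ContinuousAt (fun z : EE n => ‖z - y‖ / ρ) y := by fun_prop
      have h5 := h4.tendsto.mono_left (nhdsWithin_le_nhds (s := frontier D))
      simpa using h5
    refine squeeze_zero' (Eventually.of_forall fun z => norm_nonneg _) ?_ h3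
    filter_upwards [self_mem_nhdsWithin] with z hz
    exact h.N_sub_le hz hy
  have h6 : Tendsto (fun z => fderiv ℝ φ z) (𝓝[frontier D] y) (𝓝 (fderiv ℝ φ y)) :=
    h1.tendsto.mono_left nhdsWithin_le_nhds
  exact (isBoundedBilinearMap_apply (𝕜 := ℝ) (E := EE n) (F := ℝ)).continuous.continuousAt.tendsto.comp
    (h6.prodMk_nhds h2)

end Pool.Agent.Lib.MP_188651_an
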