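import Pool.Agent.Lib.MP_188651_an.ExDoub
import Pool.Agent.Lib.MP_188651_an.ExExt
import Pool.Agent.Lib.MP_188651_an.ExCurve
import Pool.Agent.Lib.MP_188651_an.ExGeoB
import Pool.Agent.Lib.MP_188651_an.Cpt

/-!
# Comparison: boundary maximum points
-/

open Set Filter Metric Topology InnerProductSpace Laplacian

namespace Pool.Agent.Lib.MP_188651_an

variable {n : ℕ} {ρ M α : ℝ} {D : Set (EE n)} {N : EE n → EE n}

/-- the assumptions of the comparison principle -/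
structure CmpHyp (D : Set (EE n)) (N : EE n → EE n) (M α : ℝ) (g1 g2 U V : EE n → ℝ) : Prop where
  Mpos : 0 < M
  αpos : 0 < α
  usc : UpperSemicontinuousOn U (closure D)
  lsc : LowerSemicontinuousOn V (closure D)
  bdd : ∃ C, ∀ x ∈ closure D, |U x| ≤ C ∧ |V x| ≤ C
  U2 : ContDiffOn ℝ 2 U D
  V2 : ContDiffOn ℝ 2 V D
  Ule : ∀ x ∈ D, -(Δ U) x + M * U x ≤ g1 x
  Vge : ∀ x ∈ D, g2 x ≤ -(Δ V) x + M * V x
  gle : ∀ x ∈ D, g1 x ≤ g2 x
  g1c : ContinuousOn g1 (closure D)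
  Ub : BSub D N α U
  Vb : BSup D N α V

/-- the product of normals at nearby boundary points -/
private theorem normal_ExComp (h : BD ρ D N) {z x : EE n} (hz : z ∈ frontier D) (hx : x ∈ frontier D)
    (b : ℝ) : |b * inner ℝ (N z) (N x) - b| ≤ |b| * ‖x - z‖ / ρ := by
  have h1 : inner ℝ (N z) (N x) - 1 = inner ℝ (N z) (N x - N z) := by
    rw [inner_sub_right, real_inner_self_eq_norm_sq, h.unit z hz]
    norm_num
  have h2 : |inner ℝ (N z) (N x - N z)| ≤ ‖x - z‖ / ρ := by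
    refine (abs_real_inner_le_norm _ _).trans ?_
    rw [h.unit z hz, one_mul]
    exact h.N_sub_le hx hz
  have h3 : b * inner ℝ (N z) (N x) - b = b * (inner ℝ (N z) (N x) - 1) := by ring
  rw [h3, abs_mul, h1, mul_div_assoc]
  exact mul_le_mul_of_nonneg_left h2 (abs_nonneg b)

private theorem caseA_ExComp {g1 g2 U V : EE n → ℝ} (H : CmpHyp D N M α g1 g2 U V) (h : BD ρ D N)
    {δ b : ℝ} (hδ : 0 < δ) {z x x' : EE n} (hz : z ∈ frontier D) (j : ℕ) (hx : x ∈ frontier D)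
    (hx' : x' ∈ closure D) (hxz : ‖x - z‖ < 1)
    (hm : ∀ y ∈ closure D, ‖y - z‖ ≤ 1 → Dbl U V (fun x => δ / 2 * hh x) z ((b / α) • N z) j y x' ≤
      Dbl U V (fun x => δ / 2 * hh x) z ((b / α) • N z) j x x') :
    U x ≤ α * (δ / 2) + α * (j * ‖x - x'‖ ^ 2) / ρ + b + |b| * ‖x - z‖ / ρ + 4 * α * ‖x - z‖ ^ 3 := by
  have hα := H.αpos
  have hρ := h.pos
  set p : EE n := (b / α) • N z with hp
  obtain ⟨c1, -, d1⟩ := hh_facts x
  obtain ⟨c2, -, d2⟩ := sq_facts x' x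
  obtain ⟨c3, -, d3⟩ := inner_facts p x
  obtain ⟨c4, -, d4⟩ := quart_facts z x
  let c : ℝ := U x - (δ / 2 * hh x + j * ‖x - x'‖ ^ 2 - inner ℝ p x + ‖x - z‖ ^ 4)
  let φ : EE n → ℝ := fun y => (δ / 2 * hh y + j * ‖y - x'‖ ^ 2 - inner ℝ p y + ‖y - z‖ ^ 4) + c
  have hφc : ContDiffAt ℝ 2 φ x :=
    (((((contDiff_const.mul c1).add (contDiff_const.mul c2)).sub c3).add c4).add
      contDiff_const).contDiffAt
  have hφx : φ x = U x := by
    show (δ / 2 * hh x + j * ‖x - x'‖ ^ 2 - inner ℝ p x + ‖x - z‖ ^ 4) +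
      (U x - (δ / 2 * hh x + j * ‖x - x'‖ ^ 2 - inner ℝ p x + ‖x - z‖ ^ 4)) = U x
    ring
  have htouch : ∀ᶠ y in 𝓝[closure D] x, U y ≤ φ y := by
    have hb : ∀ᶠ y in 𝓝 x, ‖y - z‖ < 1 :=
      (by fun_prop : Continuous fun y : EE n => ‖y - z‖).continuousAt.eventually_lt
        continuousAt_const hxz
    filter_upwards [self_mem_nhdsWithin, nhdsWithin_le_nhds hb] with y hy hy1
    have h3 := hm y hy hy1.le
    unfold Dbl at h3
    rw [inner_sub_right, inner_sub_right] at h3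
    show U y ≤ (δ / 2 * hh y + j * ‖y - x'‖ ^ 2 - inner ℝ p y + ‖y - z‖ ^ 4) +
      (U x - (δ / 2 * hh x + j * ‖x - x'‖ ^ 2 - inner ℝ p x + ‖x - z‖ ^ 4))
    linarith
  have hder : HasFDerivAt φ ((((δ / 2) • fderiv ℝ (hh : EE n → ℝ) x +
      (j : ℝ) • fderiv ℝ (fun y : EE n => ‖y - x'‖ ^ 2) x) - fderiv ℝ (fun y : EE n => inner ℝ p y) x) +
      fderiv ℝ (fun y : EE n => ‖y - z‖ ^ 4) x) x := by
    refine HasFDerivAt.add_const c ?_
    refine HasFDerivAt.add ?_ (c4.differentiable two_ne_zero x).hasFDerivAt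
    refine HasFDerivAt.sub ?_ (c3.differentiable two_ne_zero x).hasFDerivAt
    refine HasFDerivAt.add ?_ ?_
    · exact (c1.differentiable two_ne_zero x).hasFDerivAt.const_mul _
    · exact (c2.differentiable two_ne_zero x).hasFDerivAt.const_mul _
  have hB := H.Ub x hx φ ⟨hφc, hφx, htouch⟩
  rw [hder.fderiv] at hB
  have hN := h.unit x hx
  have e1 : -1 ≤ fderiv ℝ (hh : EE n → ℝ) x (N x) := by
    have h3 := (fderiv ℝ (hh : EE n → ℝ) x).le_opNorm (N x)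
    rw [hN, mul_one] at h3
    have h4 := (abs_le.1 (h3.trans d1)).1
    exact h4
  have e2 : -(‖x - x'‖ ^ 2 / ρ) ≤ 2 * inner ℝ (x - x') (N x) := by
    have h3 := h.inner_le hx hx'
    have h4 : inner ℝ (x' - x) (N x) = -inner ℝ (x - x') (N x) := by
      rw [← inner_neg_left, neg_sub]
    rw [h4, norm_sub_rev] at h3
    rw [neg_le, div_eq_mul_inv]
    have h5 : -(2 * inner ℝ (x - x') (N x)) = (2 * ρ * -inner ℝ (x - x') (N x)) * ρ⁻¹ := by
      field_simp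
    rw [h5]
    exact mul_le_mul_of_nonneg_right h3 (inv_nonneg.2 hρ.le)
  have e3 := (abs_le.1 (normal_ExComp h hz hx b)).2
  have e4 : -‖x - z‖ ^ 3 ≤ ‖x - z‖ ^ 2 * inner ℝ (x - z) (N x) := by
    have h3 := (abs_le.1 (abs_real_inner_le_norm (x - z) (N x))).1
    rw [hN, mul_one] at h3
    nlinarith [sq_nonneg ‖x - z‖]
  have e5 : α * inner ℝ p (N x) = b * inner ℝ (N z) (N x) := by
    rw [hp, real_inner_smul_left]
    field_simp
  simp only [add_apply, sub_apply,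
    smul_apply, smul_eq_mul, d2, d3, d4] at hB
  have f1 : -(α * (δ / 2)) ≤ α * (δ / 2 * fderiv ℝ (hh : EE n → ℝ) x (N x)) := by
    have : 0 ≤ α * (δ / 2) * (fderiv ℝ (hh : EE n → ℝ) x (N x) + 1) :=
      mul_nonneg (by positivity) (by linarith)
    linarith
  have f2 : -(α * (j * ‖x - x'‖ ^ 2) / ρ) ≤ α * (j * (2 * inner ℝ (x - x') (N x))) := by
    have h3 : 0 ≤ α * j * (2 * inner ℝ (x - x') (N x) + ‖x - x'‖ ^ 2 / ρ) :=
      mul_nonneg (by positivity) (by linarith)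
    have h4 : α * (j * ‖x - x'‖ ^ 2) / ρ = α * j * (‖x - x'‖ ^ 2 / ρ) := by ring
    rw [h4]
    linarith
  have f4 : -(4 * α * ‖x - z‖ ^ 3) ≤ α * (4 * ‖x - z‖ ^ 2 * inner ℝ (x - z) (N x)) := by
    have : 0 ≤ 4 * α * (‖x - z‖ ^ 2 * inner ℝ (x - z) (N x) + ‖x - z‖ ^ 3) :=
      mul_nonneg (by positivity) (by linarith)
    linarith
  have f5 : α * ((δ / 2 * fderiv ℝ (hh : EE n → ℝ) x (N x) + j * (2 * inner ℝ (x - x') (N x))) -
      inner ℝ p (N x) + 4 * ‖x - z‖ ^ 2 * inner ℝ (x - z) (N x)) =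
      α * (δ / 2 * fderiv ℝ (hh : EE n → ℝ) x (N x)) + α * (j * (2 * inner ℝ (x - x') (N x))) -
      b * inner ℝ (N z) (N x) + α * (4 * ‖x - z‖ ^ 2 * inner ℝ (x - z) (N x)) := by
    rw [← e5]; ring
  rw [f5] at hB
  linarith

private theorem caseB_ExComp {g1 g2 U V : EE n → ℝ} (H : CmpHyp D N M α g1 g2 U V) (h : BD ρ D N)
    {δ b : ℝ} (hδ : 0 < δ) {z x x' : EE n} (hz : z ∈ frontier D) (j : ℕ) (hx' : x' ∈ frontier D)
    (hx : x ∈ closure D) (hxz : ‖x' - z‖ < 1)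
    (hm : ∀ y ∈ closure D, ‖y - z‖ ≤ 1 → Dbl U V (fun x => δ / 2 * hh x) z ((b / α) • N z) j x y ≤
      Dbl U V (fun x => δ / 2 * hh x) z ((b / α) • N z) j x x') :
    b ≤ V x' + α * (δ / 2) + α * (j * ‖x - x'‖ ^ 2) / ρ + |b| * ‖x' - z‖ / ρ := by
  have hα := H.αpos
  have hρ := h.pos
  set p : EE n := (b / α) • N z with hp
  obtain ⟨c1, -, d1⟩ := hh_facts x'
  obtain ⟨c2, -, d2⟩ := sq_facts x x'
  obtain ⟨c3, -, d3⟩ := inner_facts p x'
  let c : ℝ := V x' + (δ / 2 * hh x' + j * ‖x' - x‖ ^ 2 + inner ℝ p x')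
  let φ : EE n → ℝ := fun y => c - (δ / 2 * hh y + j * ‖y - x‖ ^ 2 + inner ℝ p y)
  have hφc : ContDiffAt ℝ 2 φ x' :=
    (contDiff_const.sub (((contDiff_const.mul c1).add (contDiff_const.mul c2)).add c3)).contDiffAt
  have hφx : φ x' = V x' := by
    show V x' + (δ / 2 * hh x' + j * ‖x' - x‖ ^ 2 + inner ℝ p x') -
      (δ / 2 * hh x' + j * ‖x' - x‖ ^ 2 + inner ℝ p x') = V x'
    ring
  have htouch : ∀ᶠ y in 𝓝[closure D] x', φ y ≤ V y := by
    have hb : ∀ᶠ y in 𝓝 x', ‖y - z‖ < 1 :=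
      (by fun_prop : Continuous fun y : EE n => ‖y - z‖).continuousAt.eventually_lt
        continuousAt_const hxz
    filter_upwards [self_mem_nhdsWithin, nhdsWithin_le_nhds hb] with y hy hy1
    have h3 := hm y hy hy1.le
    unfold Dbl at h3
    rw [inner_sub_right, inner_sub_right, norm_sub_rev x y, norm_sub_rev x x'] at h3
    show V x' + (δ / 2 * hh x' + j * ‖x' - x‖ ^ 2 + inner ℝ p x') -
      (δ / 2 * hh y + j * ‖y - x‖ ^ 2 + inner ℝ p y) ≤ V y
    linarith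
  have hder : HasFDerivAt φ (-(((δ / 2) • fderiv ℝ (hh : EE n → ℝ) x' +
      (j : ℝ) • fderiv ℝ (fun y : EE n => ‖y - x‖ ^ 2) x') +
      fderiv ℝ (fun y : EE n => inner ℝ p y) x')) x' := by
    refine HasFDerivAt.const_sub ?_ c
    refine HasFDerivAt.add ?_ (c3.differentiable two_ne_zero x').hasFDerivAt
    refine HasFDerivAt.add ?_ ?_
    · exact (c1.differentiable two_ne_zero x').hasFDerivAt.const_mul _
    · exact (c2.differentiable two_ne_zero x').hasFDerivAt.const_mul _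
  have hB := H.Vb x' hx' φ ⟨hφc, hφx, htouch⟩
  rw [hder.fderiv] at hB
  have hN := h.unit x' hx'
  have e1 : -1 ≤ fderiv ℝ (hh : EE n → ℝ) x' (N x') := by
    have h3 := (fderiv ℝ (hh : EE n → ℝ) x').le_opNorm (N x')
    rw [hN, mul_one] at h3
    have h4 := (abs_le.1 (h3.trans d1)).1
    exact h4
  have e2 : -(‖x - x'‖ ^ 2 / ρ) ≤ 2 * inner ℝ (x' - x) (N x') := by
    have h3 := h.inner_le hx' hx
    have h4 : inner ℝ (x - x') (N x') = -inner ℝ (x' - x) (N x') := by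
      rw [← inner_neg_left, neg_sub]
    rw [h4] at h3
    rw [neg_le, div_eq_mul_inv]
    have h5 : -(2 * inner ℝ (x' - x) (N x')) = (2 * ρ * -inner ℝ (x' - x) (N x')) * ρ⁻¹ := by
      field_simp
    rw [h5]
    exact mul_le_mul_of_nonneg_right h3 (inv_nonneg.2 hρ.le)
  have e3 := (abs_le.1 (normal_ExComp h hz hx' b)).1
  have e5 : α * inner ℝ p (N x') = b * inner ℝ (N z) (N x') := by
    rw [hp, real_inner_smul_left]
    field_simp
  simp only [add_apply, neg_apply,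
    smul_apply, smul_eq_mul, d2, d3] at hB
  have f1 : -(α * (δ / 2)) ≤ α * (δ / 2 * fderiv ℝ (hh : EE n → ℝ) x' (N x')) := by
    have : 0 ≤ α * (δ / 2) * (fderiv ℝ (hh : EE n → ℝ) x' (N x') + 1) :=
      mul_nonneg (by positivity) (by linarith)
    linarith
  have f2 : -(α * (j * ‖x - x'‖ ^ 2) / ρ) ≤ α * (j * (2 * inner ℝ (x' - x) (N x'))) := by
    have h3 : 0 ≤ α * j * (2 * inner ℝ (x' - x) (N x') + ‖x - x'‖ ^ 2 / ρ) :=
      mul_nonneg (by positivity) (by linarith)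
    have h4 : α * (j * ‖x - x'‖ ^ 2) / ρ = α * j * (‖x - x'‖ ^ 2 / ρ) := by ring
    rw [h4]
    linarith
  have f5 : α * -(δ / 2 * fderiv ℝ (hh : EE n → ℝ) x' (N x') + j * (2 * inner ℝ (x' - x) (N x')) +
      inner ℝ p (N x')) =
      -(α * (δ / 2 * fderiv ℝ (hh : EE n → ℝ) x' (N x')) + α * (j * (2 * inner ℝ (x' - x) (N x'))) +
      b * inner ℝ (N z) (N x')) := by
    rw [← e5]; ring
  rw [f5] at hB
  linarith

private theorem caseC_ExComp {g1 g2 U V : EE n → ℝ} (H : CmpHyp D N M α g1 g2 U V) (h : BD ρ D N)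
    {δ : ℝ} (hδ : 0 < δ) {z x x' p : EE n} (j : ℕ) (hx' : x' ∈ D) (hx : x ∈ D)
    (hxz : ‖x - z‖ < 1) (hxz' : ‖x' - z‖ < 1)
    (hm : ∀ y ∈ closure D, ∀ y' ∈ closure D, ‖y - z‖ ≤ 1 → ‖y' - z‖ ≤ 1 →
      Dbl U V (fun x => δ / 2 * hh x) z p j y y' ≤ Dbl U V (fun x => δ / 2 * hh x) z p j x x') :
    M * (U x - V x') ≤ g1 x - g1 x' + δ * n + (4 * (n : ℝ) + 8) * ‖x - z‖ ^ 2 := by
  obtain ⟨c1, l1, -⟩ := hh_facts x
  obtain ⟨-, l1', -⟩ := hh_facts x'
  obtain ⟨c4, l4, -⟩ := quart_facts z x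
  have hU : ContDiffAt ℝ 2 U x := H.U2.contDiffAt (h.isOpen.mem_nhds hx)
  have hV : ContDiffAt ℝ 2 V x' := H.V2.contDiffAt (h.isOpen.mem_nhds hx')
  have hθ : ∀ w : EE n, ContDiffAt ℝ 2 (fun y : EE n => δ / 2 * hh y) w := fun w =>
    (contDiff_const.mul c1).contDiffAt
  have key := pc (φ := fun w => j * ‖w‖ ^ 2 - inner ℝ p w)
    (θ1 := fun y => δ / 2 * hh y + ‖y - z‖ ^ 4) (θ2 := fun y => δ / 2 * hh y) hU hV
    ((hθ x).add c4.contDiffAt) (hθ x') (by
      have hb : ∀ᶠ y in 𝓝 x, ‖y - z‖ < 1 :=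
        (by fun_prop : Continuous fun y : EE n => ‖y - z‖).continuousAt.eventually_lt
          continuousAt_const hxz
      have hb' : ∀ᶠ y in 𝓝 x', ‖y - z‖ < 1 :=
        (by fun_prop : Continuous fun y : EE n => ‖y - z‖).continuousAt.eventually_lt
          continuousAt_const hxz'
      rw [nhds_prod_eq]
      filter_upwards [(hb.and (h.isOpen.mem_nhds hx)).prod_mk (hb'.and (h.isOpen.mem_nhds hx'))]
        with q hq
      obtain ⟨⟨q1, q2⟩, q3, q4⟩ := hq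
      have h3 := hm q.1 (subset_closure q2) q.2 (subset_closure q4) q1.le q3.le
      unfold Dbl at h3
      linarith)
  rw [lap_add (hθ x) c4.contDiffAt, lap_const_mul _ c1.contDiffAt, lap_const_mul _ c1.contDiffAt,
    l4] at key
  have h3 := H.Ule x hx
  have h4 := H.Vge x' hx'
  have h5 := H.gle x' hx'
  have h6 := (abs_le.1 l1).2
  have h7 := (abs_le.1 l1').2
  have h8 : δ / 2 * (Δ (hh : EE n → ℝ)) x ≤ δ / 2 * n := mul_le_mul_of_nonneg_left h6 (by positivity)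
  have h9 : δ / 2 * (Δ (hh : EE n → ℝ)) x' ≤ δ / 2 * n := mul_le_mul_of_nonneg_left h7 (by positivity)
  linarith

/-- case of a boundary maximum point; `δ > 0` is small -/
theorem CmpHyp.boundary {g1 g2 U V : EE n → ℝ} (H : CmpHyp D N M α g1 g2 U V) (h : BD ρ D N) {δ : ℝ}
    (hδ : 0 < δ) {z : EE n} (hz : z ∈ frontier D) (h1 : α * δ < U z - V z) (h2 : δ * n < M * (U z - V z))
    (hmax : ∀ x ∈ closure D, U x - V x - δ * hh x ≤ U z - V z - δ * hh z) : False := by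
  have hzc : z ∈ closure D := frontier_subset_closure hz
  obtain ⟨b, hb⟩ : ∃ b : ℝ, b = (U z + V z) / 2 := ⟨_, rfl⟩
  obtain ⟨x, x', hx, hx', hxz, hxz', hj, hU, hV, hm⟩ := double_seq isClosed_closure H.usc H.lsc H.bdd
    hzc (ψ := fun x => δ / 2 * hh x) (continuous_const.mul continuous_hh) ((b / α) • N z)
    (fun y hy => by
      have := hmax y hy
      show U y - V y - (δ / 2 * hh y + δ / 2 * hh y) ≤ U z - V z - (δ / 2 * hh z + δ / 2 * hh z)
      linarith)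
  have nx : Tendsto (fun j => ‖x j - z‖) atTop (𝓝 0) := tendsto_iff_norm_sub_tendsto_zero.1 hxz
  have nx' : Tendsto (fun j => ‖x' j - z‖) atTop (𝓝 0) := tendsto_iff_norm_sub_tendsto_zero.1 hxz'
  have hz1 : ∀ᶠ j in atTop, ‖x j - z‖ < 1 := nx.eventually_lt_const one_pos
  have hz1' : ∀ᶠ j in atTop, ‖x' j - z‖ < 1 := nx'.eventually_lt_const one_pos
  have hA : ∀ᶠ j in atTop, x j ∉ frontier D := by
    have t1 : Tendsto (fun j : ℕ => α * (δ / 2) + α * (j * ‖x j - x' j‖ ^ 2) / ρ + b +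
        |b| * ‖x j - z‖ / ρ + 4 * α * ‖x j - z‖ ^ 3) atTop
        (𝓝 (α * (δ / 2) + α * 0 / ρ + b + |b| * 0 / ρ + 4 * α * 0 ^ 3)) := by
      refine Tendsto.add (Tendsto.add (Tendsto.add (Tendsto.add tendsto_const_nhds ?_)
        tendsto_const_nhds) ?_) ?_
      · exact (hj.const_mul α).div_const ρ
      · exact (nx.const_mul |b|).div_const ρ
      · exact (nx.pow 3).const_mul (4 * α)
    have t2 := t1.eventually_lt hU (by
      have : α * (δ / 2) + α * 0 / ρ + b + |b| * 0 / ρ + 4 * α * 0 ^ 3 = α * (δ / 2) + b := by ring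
      rw [this, hb]
      linarith)
    filter_upwards [t2, hz1, hz1'] with j hj1 hj2 hj3 hcon
    have := caseA_ExComp H h hδ (b := b) hz j hcon (hx' j) hj2
      (fun y hy hy1 => hm j y hy (x' j) (hx' j) hy1 hj3.le)
    linarith
  have hB : ∀ᶠ j in atTop, x' j ∉ frontier D := by
    have t1 : Tendsto (fun j : ℕ => V (x' j) + α * (δ / 2) + α * (j * ‖x j - x' j‖ ^ 2) / ρ +
        |b| * ‖x' j - z‖ / ρ) atTop
        (𝓝 (V z + α * (δ / 2) + α * 0 / ρ + |b| * 0 / ρ)) := by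
      refine Tendsto.add (Tendsto.add (Tendsto.add hV tendsto_const_nhds) ?_) ?_
      · exact (hj.const_mul α).div_const ρ
      · exact (nx'.const_mul |b|).div_const ρ
    have t2 := t1.eventually_lt (tendsto_const_nhds (x := b)) (by
      have : V z + α * (δ / 2) + α * 0 / ρ + |b| * 0 / ρ = V z + α * (δ / 2) := by ring
      rw [this, hb]
      linarith)
    filter_upwards [t2, hz1, hz1'] with j hj1 hj2 hj3 hcon
    have := caseB_ExComp H h hδ (b := b) hz j hcon (hx j) hj3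
      (fun y hy hy1 => hm j (x j) (hx j) y hy hj2.le hy1)
    linarith
  have hC : ∀ᶠ j in atTop, ¬ (x j ∈ D ∧ x' j ∈ D) := by
    have g1x : Tendsto (fun j => g1 (x j)) atTop (𝓝 (g1 z)) :=
      (H.g1c z hzc).tendsto.comp (tendsto_nhdsWithin_iff.2 ⟨hxz, Eventually.of_forall hx⟩)
    have g1x' : Tendsto (fun j => g1 (x' j)) atTop (𝓝 (g1 z)) :=
      (H.g1c z hzc).tendsto.comp (tendsto_nhdsWithin_iff.2 ⟨hxz', Eventually.of_forall hx'⟩)
    have t1 : Tendsto (fun j : ℕ => g1 (x j) - g1 (x' j) + δ * n +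
        (4 * (n : ℝ) + 8) * ‖x j - z‖ ^ 2) atTop
        (𝓝 (g1 z - g1 z + δ * n + (4 * (n : ℝ) + 8) * 0 ^ 2)) := by
      refine Tendsto.add (Tendsto.add (g1x.sub g1x') tendsto_const_nhds) ?_
      exact (nx.pow 2).const_mul _
    have t2 := t1.eventually_lt ((hU.sub hV).const_mul M) (by
      have : g1 z - g1 z + δ * n + (4 * (n : ℝ) + 8) * 0 ^ 2 = δ * n := by ring
      rw [this]
      exact h2)
    filter_upwards [t2, hz1, hz1'] with j hj1 hj2 hj3 hcon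
    have := caseC_ExComp H h hδ j hcon.2 hcon.1 hj2 hj3 (hm j)
    linarith
  obtain ⟨j, ja, jb, jc⟩ := (hA.and (hB.and hC)).exists
  have hfr : ∀ w ∈ closure D, w ∉ frontier D → w ∈ D := by
    intro w hw hwf
    by_contra hcon
    exact hwf (by rw [h.isOpen.frontier_eq]; exact ⟨hw, hcon⟩)
  exact jc ⟨hfr _ (hx j) ja, hfr _ (hx' j) jb⟩

end Pool.Agent.Lib.MP_188651_an
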