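import Pool.Agent.Lib.MP_188651_an.ExComp

/-!
# Comparison principle for the linear problem
-/

open Set Filter Metric Topology InnerProductSpace Laplacian

namespace Pool.Agent.Lib.MP_188651_an

variable {n : ℕ} {ρ M α : ℝ} {D : Set (EE n)} {N : EE n → EE n}

theorem CmpHyp.interior {g1 g2 U V : EE n → ℝ} (H : CmpHyp D N M α g1 g2 U V) (h : BD ρ D N) {δ : ℝ}
    (hδ : 0 < δ) {z : EE n} (hz : z ∈ D) (h2 : δ * n < M * (U z - V z))
    (hmax : ∀ x ∈ closure D, U x - V x - δ * hh x ≤ U z - V z - δ * hh z) : False := by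
  obtain ⟨c1, l1, -⟩ := hh_facts z
  have hU : ContDiffAt ℝ 2 U z := H.U2.contDiffAt (h.isOpen.mem_nhds hz)
  have hV : ContDiffAt ℝ 2 V z := H.V2.contDiffAt (h.isOpen.mem_nhds hz)
  have hh' : ContDiffAt ℝ 2 (fun y : EE n => δ * hh y) z := (contDiff_const.mul c1).contDiffAt
  have hloc : IsLocalMax (fun x => U x - V x - δ * hh x) z := by
    filter_upwards [h.isOpen.mem_nhds hz] with x hx
    exact hmax x (subset_closure hx)
  have h3 := (lap_le_of_isLocalMax ((hU.sub hV).sub hh') hloc).2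
  rw [lap_sub (hU.sub hV) hh', lap_sub hU hV, lap_const_mul _ c1.contDiffAt] at h3
  have h4 := H.Ule z hz
  have h5 := H.Vge z hz
  have h6 := H.gle z hz
  have h7 : δ * (Δ (hh : EE n → ℝ)) z ≤ δ * n :=
    mul_le_mul_of_nonneg_left (abs_le.1 l1).2 hδ.le
  linarith

private theorem norm_le_hh_ExCompB (x : EE n) : ‖x‖ ≤ hh x := by
  unfold hh
  exact Real.le_sqrt_of_sq_le (by linarith)

theorem CmpHyp.le {g1 g2 U V : EE n → ℝ} (H : CmpHyp D N M α g1 g2 U V) (h : BD ρ D N) :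
    ∀ x ∈ closure D, U x ≤ V x := by
  intro x0 hx0
  by_contra hcon
  push Not at hcon
  have hα := H.αpos
  have hM := H.Mpos
  obtain ⟨m, hm⟩ : ∃ m : ℝ, m = U x0 - V x0 := ⟨_, rfl⟩
  have hm0 : 0 < m := by rw [hm]; linarith
  obtain ⟨K, hK⟩ : ∃ K : ℝ, K = hh x0 + α + n / M := ⟨_, rfl⟩
  have hp := hh_pos x0
  have hnM : 0 ≤ (n : ℝ) / M := by positivity
  have hK0 : 0 < K := by rw [hK]; linarith
  obtain ⟨δ, hδ⟩ : ∃ δ : ℝ, δ = m / 2 / (K + 1) := ⟨_, rfl⟩
  have hδ0 : 0 < δ := by rw [hδ]; positivity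
  have hδK : δ * K < m / 2 := by
    rw [hδ, div_mul_eq_mul_div, div_lt_iff₀ (by linarith)]
    nlinarith
  have k1 : δ * hh x0 < m / 2 := lt_of_le_of_lt (mul_le_mul_of_nonneg_left (by rw [hK]; linarith) hδ0.le) hδK
  have k2 : δ * α < m / 2 := lt_of_le_of_lt (mul_le_mul_of_nonneg_left (by rw [hK]; linarith) hδ0.le) hδK
  have k3 : δ * (n / M) < m / 2 :=
    lt_of_le_of_lt (mul_le_mul_of_nonneg_left (by rw [hK]; linarith) hδ0.le) hδK
  obtain ⟨C, hC⟩ := H.bdd
  let f : EE n → ℝ := fun x => U x - V x - δ * hh x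
  obtain ⟨R, hR1, hR2⟩ : ∃ R : ℝ, ‖x0‖ ≤ R ∧ 2 * C - f x0 ≤ δ * R := by
    refine ⟨max ‖x0‖ ((2 * C - f x0) / δ), le_max_left _ _, ?_⟩
    have h3 : (2 * C - f x0) / δ ≤ max ‖x0‖ ((2 * C - f x0) / δ) := le_max_right _ _
    rw [div_le_iff₀ hδ0] at h3
    linarith
  have husc : UpperSemicontinuousOn f (closure D ∩ closedBall 0 R) := by
    have hV : UpperSemicontinuousOn (fun x => -V x) (closure D) :=
      continuous_neg.comp_lowerSemicontinuousOn_antitone H.lsc (fun _ _ h => neg_le_neg h)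
    have hh1 : UpperSemicontinuousOn (fun x : EE n => -(δ * hh x)) (closure D) :=
      ((continuous_const.mul continuous_hh).neg).continuousOn.upperSemicontinuousOn
    have h3 := (H.usc.add hV).add hh1
    have h4 : f = fun x => U x + -V x + -(δ * hh x) := by
      funext x
      show U x - V x - δ * hh x = _
      ring
    rw [h4]
    exact h3.mono inter_subset_left
  have hcomp : IsCompact (closure D ∩ closedBall (0 : EE n) R) :=
    (isCompact_closedBall _ _).inter_left isClosed_closure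
  have hx0S : x0 ∈ closure D ∩ closedBall (0 : EE n) R :=
    ⟨hx0, by rw [mem_closedBall, dist_zero_right]; exact hR1⟩
  obtain ⟨z, ⟨hz1, hz2⟩, hz3⟩ := UpperSemicontinuousOn.exists_isMaxOn ⟨x0, hx0S⟩ hcomp husc
  have hx0z : f x0 ≤ f z := hz3 hx0S
  have hmax : ∀ x ∈ closure D, U x - V x - δ * hh x ≤ U z - V z - δ * hh z := by
    intro x hx
    by_cases hxR : ‖x‖ ≤ R
    · exact hz3 ⟨hx, by rw [mem_closedBall, dist_zero_right]; exact hxR⟩
    · push Not at hxR
      obtain ⟨h3, h4⟩ := hC x hx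
      have h5 := (abs_le.1 h3).2
      have h6 := (abs_le.1 h4).1
      have h7 : δ * R ≤ δ * hh x :=
        mul_le_mul_of_nonneg_left (hxR.le.trans (norm_le_hh_ExCompB x)) hδ0.le
      have h8 : U x - V x - δ * hh x ≤ f x0 := by linarith
      exact h8.trans hx0z
  have hzm : m / 2 < U z - V z := by
    have h3 : U x0 - V x0 - δ * hh x0 ≤ U z - V z - δ * hh z := hx0z
    have h4 : 0 < δ * hh z := mul_pos hδ0 (hh_pos z)
    linarith
  have h2 : δ * n < M * (U z - V z) := by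
    have h3 : δ * n = M * (δ * (n / M)) := by field_simp
    rw [h3]
    exact mul_lt_mul_of_pos_left (k3.trans hzm) hM
  by_cases hzD : z ∈ D
  · exact H.interior h hδ0 hzD h2 hmax
  · refine H.boundary h hδ0 (by rw [h.isOpen.frontier_eq]; exact ⟨hz1, hzD⟩) ?_ h2 hmax
    linarith

end Pool.Agent.Lib.MP_188651_an
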