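import Pool.Agent.Lib.MP_188651_an.Defs

/-!
# Definitions for the existence half
-/

open Set Filter Metric Topology InnerProductSpace Laplacian

namespace Pool.Agent.Lib.MP_188651_an

/-- `D` is open, with interior and exterior tangent balls of radius `ρ` at each boundary point `y`; `N y` is
the outward unit normal at `y ∈ ∂D`. -/
structure BD {n : ℕ} (ρ : ℝ) (D : Set (EE n)) (N : EE n → EE n) : Prop where
  pos : 0 < ρ
  isOpen : IsOpen D
  unit : ∀ y ∈ frontier D, ‖N y‖ = 1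
  int : ∀ y ∈ frontier D, ball (y - ρ • N y) ρ ⊆ D
  ext : ∀ y ∈ frontier D, Disjoint (ball (y + ρ • N y) ρ) D

/-- `φ` touches `v` from above at `x` in `S`. -/
def TouchA {n : ℕ} (S : Set (EE n)) (v φ : EE n → ℝ) (x : EE n) : Prop :=
  ContDiffAt ℝ 2 φ x ∧ φ x = v x ∧ ∀ᶠ z in 𝓝[S] x, v z ≤ φ z

/-- `φ` touches `v` from below at `x` in `S`. -/
def TouchB {n : ℕ} (S : Set (EE n)) (v φ : EE n → ℝ) (x : EE n) : Prop :=
  ContDiffAt ℝ 2 φ x ∧ φ x = v x ∧ ∀ᶠ z in 𝓝[S] x, φ z ≤ v z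

/-- viscosity subsolutions of `-Δv + M v ≤ g` in `D`. -/
def ISub {n : ℕ} (D : Set (EE n)) (M : ℝ) (g v : EE n → ℝ) : Prop :=
  ∀ x ∈ D, ∀ φ : EE n → ℝ, TouchA D v φ x → -(Δ φ) x + M * v x ≤ g x

/-- `v + α ∂_N v ≤ 0` on `∂D` in the viscosity sense. -/
def BSub {n : ℕ} (D : Set (EE n)) (N : EE n → EE n) (α : ℝ) (v : EE n → ℝ) : Prop :=
  ∀ y ∈ frontier D, ∀ φ : EE n → ℝ, TouchA (closure D) v φ y → v y + α * fderiv ℝ φ y (N y) ≤ 0

/-- `v + α ∂_N v ≥ 0` on `∂D` in the viscosity sense. -/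
def BSup {n : ℕ} (D : Set (EE n)) (N : EE n → EE n) (α : ℝ) (v : EE n → ℝ) : Prop :=
  ∀ y ∈ frontier D, ∀ φ : EE n → ℝ, TouchB (closure D) v φ y → 0 ≤ v y + α * fderiv ℝ φ y (N y)

/-- The Perron class. -/
structure PCl {n : ℕ} (D : Set (EE n)) (N : EE n → EE n) (M α : ℝ) (g v : EE n → ℝ) : Prop where
  cont : ContinuousOn v D
  usc : UpperSemicontinuousOn v (closure D)
  nonneg : ∀ x ∈ closure D, 0 ≤ v x
  le_one : ∀ x ∈ closure D, v x ≤ 1
  int : ISub D M g v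
  bd : BSub D N α v

/-- The data of the linear problem `-Δu + M u = g`. -/
structure Dat {n : ℕ} (D : Set (EE n)) (M : ℝ) (g : EE n → ℝ) : Prop where
  Mpos : 0 < M
  cont : ContinuousOn g (closure D)
  smooth : ContDiffOn ℝ 1 g D
  nonneg : ∀ x ∈ closure D, 0 ≤ g x
  le : ∀ x ∈ closure D, g x ≤ M

/-- The Perron solution. -/
noncomputable def uP {n : ℕ} (D : Set (EE n)) (N : EE n → EE n) (M α : ℝ) (g : EE n → ℝ) (x : EE n) : ℝ :=
  sSup {s : ℝ | ∃ v : EE n → ℝ, PCl D N M α g v ∧ s = v x}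

/-- Its upper semicontinuous envelope on `closure D`. -/
noncomputable def uU {n : ℕ} (D : Set (EE n)) (N : EE n → EE n) (M α : ℝ) (g : EE n → ℝ) (x : EE n) : ℝ :=
  limsup (uP D N M α g) (𝓝[closure D] x)

open Classical in
/-- `uP` in `D`, the lower limit from inside at boundary points. -/
noncomputable def uV {n : ℕ} (D : Set (EE n)) (N : EE n → EE n) (M α : ℝ) (g : EE n → ℝ) (x : EE n) : ℝ :=
  if x ∈ D then uP D N M α g x else liminf (uP D N M α g) (𝓝[D] x)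

/-- `w` is a generalised solution of `-Δw = G` in `O`: uniform limit of `C²` functions `w_k` with `-Δw_k → G`
uniformly. -/
def LimSol {n : ℕ} (O : Set (EE n)) (G w : EE n → ℝ) : Prop :=
  ∃ wk : ℕ → EE n → ℝ, (∀ k, ContDiffOn ℝ 2 (wk k) O) ∧ TendstoUniformlyOn wk w atTop O ∧
    TendstoUniformlyOn (fun k x => -(Δ (wk k)) x) G atTop O

/-- Solutions of the linear problem with the viscosity Robin condition, between 0 and 1. -/
structure LSol {n : ℕ} (D : Set (EE n)) (N : EE n → EE n) (M α : ℝ) (g u : EE n → ℝ) : Prop where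
  cont : ContinuousOn u (closure D)
  smooth : ContDiffOn ℝ 2 u D
  nonneg : ∀ x ∈ closure D, 0 ≤ u x
  le_one : ∀ x ∈ closure D, u x ≤ 1
  eq : ∀ x ∈ D, -(Δ u) x + M * u x = g x
  sub : BSub D N α u
  sup : BSup D N α u

/-- cut-off profile: `C²`, decreasing, convex, slope `-1` at `0`, zero for `d ≥ s₁`. -/
noncomputable def Ec (s₁ d : ℝ) : ℝ := (max 0 (s₁ - d)) ^ 3 / (3 * s₁ ^ 2)

/-- the cut-off profile of the distance to the boundary. -/
noncomputable def Ed {n : ℕ} (D : Set (EE n)) (s₁ : ℝ) (x : EE n) : ℝ := Ec s₁ (infDist x (frontier D))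

/-- modulus -/
noncomputable def om (L s₀ s : ℝ) : ℝ := L * (s - s ^ 2 / (2 * s₀))

/-- the doubled function of the boundary Lipschitz estimate -/
noncomputable def Phi {n : ℕ} (D : Set (EE n)) (ρ α s₀ L δ : ℝ) (u : EE n → ℝ) (x x' : EE n) : ℝ :=
  u x * Real.exp (Ed D (ρ / 2) x / α) - u x' * Real.exp (Ed D (ρ / 2) x' / α) -
    om L s₀ ‖x - x'‖ * (1 + 1 / ρ * (Ed D (ρ / 2) x + Ed D (ρ / 2) x')) -
    δ * (hh x + 2 * Ed D (ρ / 2) x + (hh x' + 2 * Ed D (ρ / 2) x'))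

/-- the quadratic barrier of the normal derivative estimate; `t`, `s` are the depths of the two points, `p` is
the square of the tangential distance -/
noncomputable def Qh (n : ℕ) (L Λ ρ h t s p : ℝ) : ℝ :=
  (L + 1) / h ^ 2 * t ^ 2 + ((2 * (L + 1) ^ 2 / ρ + 2) + n + Λ + 1) * h * t -
    ((L + 1) / h ^ 2 + n / h + Λ + 1) * s ^ 2 - (2 * (L + 1) ^ 2 / ρ + 2) * h * s + p / h

/-- depth of `x` below the tangent plane at `y` (`ν` is the outward normal) -/
noncomputable def dep {n : ℕ} (y ν x : EE n) : ℝ := inner ℝ (y - x) ν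

/-- square of the tangential distance -/
noncomputable def tan2 {n : ℕ} (y ν x : EE n) : ℝ := ‖x - y‖ ^ 2 - dep y ν x ^ 2

/-- the two point function along the normal direction -/
noncomputable def PsiN {n : ℕ} (L Λ ρ h : ℝ) (v : EE n → ℝ) (y ν x : EE n) (l : ℝ) : ℝ :=
  v x - v (x + l • ν) - Qh n L Λ ρ h (dep y ν x) (dep y ν x - l) (tan2 y ν x)

/-- uniform expansion at the boundary along the normals -/
def NDB {n : ℕ} (D : Set (EE n)) (N : EE n → EE n) (α C h₀ : ℝ) (u : EE n → ℝ) : Prop :=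
  ∀ y ∈ frontier D, ∀ h t : ℝ, 0 < h → h ≤ h₀ → 0 ≤ t → t ≤ h ^ 2 →
    |u (y - t • N y) - u y - t / α * u y| ≤ C / h ^ 2 * t ^ 2 + C * h * t

/-- the bump subsolution -/
noncomputable def zt {n : ℕ} (ε R : ℝ) (x0 x : EE n) : ℝ := ε * (1 - ‖x - x0‖ ^ 2 / R ^ 2) ^ 2

end Pool.Agent.Lib.MP_188651_an
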