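import Pool.Agent.Lib.MP_188651_an.ExDefs

/-!
# Doubling of variables: the sequences of maximum points
-/

open Set Filter Metric Topology InnerProductSpace Laplacian

namespace Pool.Agent.Lib.MP_188651_an

variable {n : ℕ}

/-- the doubled function -/
noncomputable def Dbl (U V ψ : EE n → ℝ) (z p : EE n) (j : ℕ) (y y' : EE n) : ℝ :=
  U y - V y' - (ψ y + ψ y') - j * ‖y - y'‖ ^ 2 + inner ℝ p (y - y') - ‖y - z‖ ^ 4

private theorem usc_ExDoub {S : Set (EE n)} {U V : EE n → ℝ} (hU : UpperSemicontinuousOn U S)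
    (hV : LowerSemicontinuousOn V S) {g : EE n × EE n → ℝ} (hg : Continuous g) :
    UpperSemicontinuousOn (fun q : EE n × EE n => U q.1 - V q.2 + g q) (S ×ˢ S) := by
  rintro ⟨a, b⟩ ⟨ha, hb⟩ y hy
  simp only at ha hb hy
  set η := (y - (U a - V b + g (a, b))) / 3 with hη
  have hηp : 0 < η := by rw [hη]; linarith
  have h1 : ∀ᶠ q : EE n × EE n in 𝓝[S ×ˢ S] (a, b), U q.1 < U a + η := by
    have h := hU a ha (U a + η) (by linarith)
    have ht : Tendsto (fun q : EE n × EE n => q.1) (𝓝[S ×ˢ S] (a, b)) (𝓝[S] a) :=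
      tendsto_nhdsWithin_iff.mpr ⟨(continuous_fst.tendsto (a, b)).mono_left nhdsWithin_le_nhds,
        eventually_nhdsWithin_of_forall fun q hq => hq.1⟩
    exact ht.eventually h
  have h2 : ∀ᶠ q : EE n × EE n in 𝓝[S ×ˢ S] (a, b), V b - η < V q.2 := by
    have h := hV b hb (V b - η) (by linarith)
    have ht : Tendsto (fun q : EE n × EE n => q.2) (𝓝[S ×ˢ S] (a, b)) (𝓝[S] b) :=
      tendsto_nhdsWithin_iff.mpr ⟨(continuous_snd.tendsto (a, b)).mono_left nhdsWithin_le_nhds,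
        eventually_nhdsWithin_of_forall fun q hq => hq.2⟩
    exact ht.eventually h
  have h3 : ∀ᶠ q : EE n × EE n in 𝓝[S ×ˢ S] (a, b), g q < g (a, b) + η :=
    ((hg.tendsto (a, b)).mono_left nhdsWithin_le_nhds).eventually (gt_mem_nhds (by linarith))
  filter_upwards [h1, h2, h3] with q e1 e2 e3
  have : y = U a - V b + g (a, b) + 3 * η := by rw [hη]; ring
  rw [this]
  linarith

theorem double_seq {S : Set (EE n)} (hS : IsClosed S) {U V : EE n → ℝ} (hU : UpperSemicontinuousOn U S)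
    (hV : LowerSemicontinuousOn V S) (hb : ∃ C, ∀ x ∈ S, |U x| ≤ C ∧ |V x| ≤ C) {z : EE n} (hz : z ∈ S)
    {ψ : EE n → ℝ} (hψ : Continuous ψ) (p : EE n)
    (hmax : ∀ x ∈ S, U x - V x - (ψ x + ψ x) ≤ U z - V z - (ψ z + ψ z)) :
    ∃ x x' : ℕ → EE n, (∀ j, x j ∈ S) ∧ (∀ j, x' j ∈ S) ∧ Tendsto x atTop (𝓝 z) ∧ Tendsto x' atTop (𝓝 z) ∧
      Tendsto (fun j : ℕ => (j : ℝ) * ‖x j - x' j‖ ^ 2) atTop (𝓝 0) ∧
      Tendsto (fun j => U (x j)) atTop (𝓝 (U z)) ∧ Tendsto (fun j => V (x' j)) atTop (𝓝 (V z)) ∧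
      ∀ j, ∀ y ∈ S, ∀ y' ∈ S, ‖y - z‖ ≤ 1 → ‖y' - z‖ ≤ 1 →
        Dbl U V ψ z p j y y' ≤ Dbl U V ψ z p j (x j) (x' j) := by
  classical
  set K : Set (EE n) := S ∩ closedBall z 1 with hK
  have hKc : IsCompact K := (isCompact_closedBall z 1).inter_left hS
  have hzK : z ∈ K := ⟨hz, mem_closedBall_self zero_le_one⟩
  -- the maximum points
  have hex : ∀ j : ℕ, ∃ q ∈ K ×ˢ K, ∀ r ∈ K ×ˢ K,
      Dbl U V ψ z p j r.1 r.2 ≤ Dbl U V ψ z p j q.1 q.2 := by
    intro j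
    have hg : Continuous (fun q : EE n × EE n =>
        -(ψ q.1 + ψ q.2) - j * ‖q.1 - q.2‖ ^ 2 + inner ℝ p (q.1 - q.2) - ‖q.1 - z‖ ^ 4) := by
      fun_prop
    have h1 := (usc_ExDoub hU hV hg).mono
      (Set.prod_mono (inter_subset_left : K ⊆ S) (inter_subset_left : K ⊆ S))
    obtain ⟨q, hq, hqm⟩ := h1.exists_isMaxOn
      (show (K ×ˢ K).Nonempty from ⟨(z, z), hzK, hzK⟩) (hKc.prod hKc)
    refine ⟨q, hq, fun r hr => ?_⟩
    have h2 := isMaxOn_iff.mp hqm r hr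
    unfold Dbl
    linarith
  choose q hqK hqm using hex
  set m := U z - V z - (ψ z + ψ z) with hm
  -- the comparison function without the penalisation
  set F : EE n × EE n → ℝ := fun r => U r.1 - V r.2 + (-(ψ r.1 + ψ r.2) + inner ℝ p (r.1 - r.2)) with hF
  have hFu : UpperSemicontinuousOn F (S ×ˢ S) :=
    usc_ExDoub hU hV (by fun_prop)
  have hlow : ∀ j : ℕ, m + j * ‖(q j).1 - (q j).2‖ ^ 2 + ‖(q j).1 - z‖ ^ 4 ≤ F (q j) := by
    intro j
    have h1 := hqm j (z, z) ⟨hzK, hzK⟩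
    simp only [Dbl, sub_self, norm_zero, inner_zero_right] at h1
    simp only [hF, hm]
    have h2 : (0 : ℝ) ^ 2 = 0 := by norm_num
    have h4 : (0 : ℝ) ^ 4 = 0 := by norm_num
    rw [h2, h4] at h1
    linarith
  -- F is bounded on K x K
  obtain ⟨C, hC⟩ := hb
  obtain ⟨C1, hC1⟩ : ∃ C1, ∀ x ∈ K, |ψ x| ≤ C1 := by
    obtain ⟨C1, hC1⟩ := hKc.exists_bound_of_continuousOn hψ.continuousOn
    exact ⟨C1, fun x hx => by simpa [Real.norm_eq_abs] using hC1 x hx⟩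
  have hFb : ∀ j, F (q j) ≤ 2 * C + 2 * C1 + ‖p‖ * 2 := by
    intro j
    obtain ⟨h1, h2⟩ := hqK j
    have e1 := (abs_le.mp (hC _ h1.1).1)
    have e2 := (abs_le.mp (hC _ h2.1).2)
    have e3 := (abs_le.mp (hC1 _ h1))
    have e4 := (abs_le.mp (hC1 _ h2))
    have e5 : inner ℝ p ((q j).1 - (q j).2) ≤ ‖p‖ * 2 := by
      refine (real_inner_le_norm _ _).trans ?_
      refine mul_le_mul_of_nonneg_left ?_ (norm_nonneg _)
      have d1 : dist (q j).1 z ≤ 1 := h1.2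
      have d2 : dist (q j).2 z ≤ 1 := h2.2
      rw [← dist_eq_norm]
      have := dist_triangle_right (q j).1 (q j).2 z
      linarith
    simp only [hF]
    linarith
  -- the distance tends to 0
  have hdist : Tendsto (fun j => ‖(q j).1 - (q j).2‖) atTop (𝓝 0) := by
    set B := 2 * C + 2 * C1 + ‖p‖ * 2 - m with hB
    have hsq : ∀ j : ℕ, (j : ℝ) * ‖(q j).1 - (q j).2‖ ^ 2 ≤ B := by
      intro j
      have h1 := hlow j
      have h2 := hFb j
      have h3 : 0 ≤ ‖(q j).1 - z‖ ^ 4 := by positivity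
      rw [hB]
      linarith
    rw [Metric.tendsto_atTop]
    intro ε hε
    obtain ⟨J, hJ⟩ := exists_nat_gt (B / ε ^ 2)
    refine ⟨J, fun j hj => ?_⟩
    rw [Real.dist_0_eq_abs, abs_of_nonneg (norm_nonneg _)]
    by_contra hcon
    push Not at hcon
    have h1 := hsq j
    have h2 : (J : ℝ) ≤ j := by exact_mod_cast hj
    have h3 : ε ^ 2 ≤ ‖(q j).1 - (q j).2‖ ^ 2 := by
      exact pow_le_pow_left₀ hε.le hcon 2
    have h4 : B < J * ε ^ 2 := by
      rwa [div_lt_iff₀ (by positivity)] at hJ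
    have h5 : (J : ℝ) * ε ^ 2 ≤ j * ‖(q j).1 - (q j).2‖ ^ 2 :=
      mul_le_mul h2 h3 (by positivity) (by positivity)
    linarith
  -- limsup of F
  have hup : ∀ ε > 0, ∀ᶠ j in atTop, F (q j) < m + ε := by
    intro ε hε
    by_contra hcon
    rw [not_eventually] at hcon
    obtain ⟨φ, hφ, hφ2⟩ := extraction_of_frequently_atTop hcon
    obtain ⟨a, haK, φ', hφ', hlim⟩ := hKc.tendsto_subseq (x := fun k => (q (φ k)).1) (fun k => (hqK _).1)
    have hl1 : Tendsto (fun k => (q (φ (φ' k))).1) atTop (𝓝 a) := hlim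
    have hcomp : Tendsto (fun k => φ (φ' k)) atTop atTop := hφ.tendsto_atTop.comp hφ'.tendsto_atTop
    have hd : Tendsto (fun k => (q (φ (φ' k))).1 - (q (φ (φ' k))).2) atTop (𝓝 0) :=
      tendsto_zero_iff_norm_tendsto_zero.mpr (hdist.comp hcomp)
    have hl2 : Tendsto (fun k => (q (φ (φ' k))).2) atTop (𝓝 a) := by
      have := hl1.sub hd
      simpa using this
    have hl : Tendsto (fun k => q (φ (φ' k))) atTop (𝓝[S ×ˢ S] (a, a)) := by
      refine tendsto_nhdsWithin_iff.mpr ⟨?_, Eventually.of_forall fun k => ⟨(hqK _).1.1, (hqK _).2.1⟩⟩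
      exact hl1.prodMk_nhds hl2
    have hFa : F (a, a) ≤ m := by
      have := hmax a haK.1
      simp only [hF, sub_self, inner_zero_right]
      linarith
    have hev := hl.eventually (hFu (a, a) ⟨haK.1, haK.1⟩ (m + ε) (by linarith))
    obtain ⟨k, hk⟩ := hev.exists
    exact hφ2 (φ' k) hk
  -- consequences
  have hsmall : ∀ ε > 0, ∀ᶠ j : ℕ in atTop, (j : ℝ) * ‖(q j).1 - (q j).2‖ ^ 2 < ε ∧ ‖(q j).1 - z‖ ^ 4 < ε := by
    intro ε hε
    filter_upwards [hup ε hε] with j hj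
    have h1 := hlow j
    have h3 : 0 ≤ ‖(q j).1 - z‖ ^ 4 := by positivity
    have h4 : 0 ≤ (j : ℝ) * ‖(q j).1 - (q j).2‖ ^ 2 := by positivity
    constructor <;> linarith
  have hxz : Tendsto (fun j => (q j).1) atTop (𝓝 z) := by
    rw [tendsto_iff_norm_sub_tendsto_zero]
    rw [Metric.tendsto_atTop]
    intro ε hε
    obtain ⟨J, hJ⟩ := eventually_atTop.mp (hsmall (ε ^ 4) (by positivity))
    refine ⟨J, fun j hj => ?_⟩
    rw [Real.dist_0_eq_abs, abs_of_nonneg (norm_nonneg _)]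
    exact lt_of_pow_lt_pow_left₀ 4 hε.le (hJ j hj).2
  have hd : Tendsto (fun j => (q j).1 - (q j).2) atTop (𝓝 0) :=
    tendsto_zero_iff_norm_tendsto_zero.mpr hdist
  have hxz' : Tendsto (fun j => (q j).2) atTop (𝓝 z) := by
    have := hxz.sub hd
    simpa using this
  have hjs : Tendsto (fun j : ℕ => (j : ℝ) * ‖(q j).1 - (q j).2‖ ^ 2) atTop (𝓝 0) := by
    rw [Metric.tendsto_atTop]
    intro ε hε
    obtain ⟨J, hJ⟩ := eventually_atTop.mp (hsmall ε hε)
    refine ⟨J, fun j hj => ?_⟩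
    rw [Real.dist_0_eq_abs, abs_of_nonneg (by positivity)]
    exact (hJ j hj).1
  have hxS : Tendsto (fun j => (q j).1) atTop (𝓝[S] z) :=
    tendsto_nhdsWithin_iff.mpr ⟨hxz, Eventually.of_forall fun j => (hqK j).1.1⟩
  have hxS' : Tendsto (fun j => (q j).2) atTop (𝓝[S] z) :=
    tendsto_nhdsWithin_iff.mpr ⟨hxz', Eventually.of_forall fun j => (hqK j).2.1⟩
  have hUu : ∀ ε > 0, ∀ᶠ j in atTop, U (q j).1 < U z + ε := fun ε hε =>
    hxS.eventually (hU z hz _ (by linarith))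
  have hVl : ∀ ε > 0, ∀ᶠ j in atTop, V z - ε < V (q j).2 := fun ε hε =>
    hxS'.eventually (hV z hz _ (by linarith))
  have hcon : Tendsto (fun j => -(ψ (q j).1 + ψ (q j).2) + inner ℝ p ((q j).1 - (q j).2)) atTop
      (𝓝 (-(ψ z + ψ z))) := by
    have h1 : Tendsto (fun j => ψ (q j).1) atTop (𝓝 (ψ z)) := (hψ.tendsto z).comp hxz
    have h2 : Tendsto (fun j => ψ (q j).2) atTop (𝓝 (ψ z)) := (hψ.tendsto z).comp hxz'
    have h3 : Tendsto (fun j => inner ℝ p ((q j).1 - (q j).2)) atTop (𝓝 (inner ℝ p (0 : EE n))) :=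
      Tendsto.inner tendsto_const_nhds hd
    have h4 := (h1.add h2).neg.add h3
    simpa using h4
  have hconε : ∀ ε > 0, ∀ᶠ j in atTop,
      -(ψ (q j).1 + ψ (q j).2) + inner ℝ p ((q j).1 - (q j).2) < -(ψ z + ψ z) + ε := fun ε hε =>
    hcon.eventually (gt_mem_nhds (by linarith))
  have hlow2 : ∀ ε > 0, ∀ᶠ j in atTop, U z - V z - ε < U (q j).1 - V (q j).2 := by
    intro ε hε
    filter_upwards [hconε ε hε] with j hj
    have h1 := hlow j
    have h3 : 0 ≤ ‖(q j).1 - z‖ ^ 4 := by positivity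
    have h4 : 0 ≤ (j : ℝ) * ‖(q j).1 - (q j).2‖ ^ 2 := by positivity
    simp only [hF] at h1
    linarith
  refine ⟨fun j => (q j).1, fun j => (q j).2, fun j => (hqK j).1.1, fun j => (hqK j).2.1, hxz, hxz', hjs,
    ?_, ?_, ?_⟩
  · rw [Metric.tendsto_atTop]
    intro ε hε
    have hev := (hUu ε hε).and ((hVl (ε / 2) (by linarith)).and (hlow2 (ε / 2) (by linarith)))
    obtain ⟨J, hJ⟩ := eventually_atTop.mp hev
    refine ⟨J, fun j hj => ?_⟩
    obtain ⟨h1, h2, h3⟩ := hJ j hj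
    rw [Real.dist_eq, abs_lt]
    constructor <;> linarith
  · rw [Metric.tendsto_atTop]
    intro ε hε
    have hev := (hUu (ε / 2) (by linarith)).and ((hVl ε hε).and (hlow2 (ε / 2) (by linarith)))
    obtain ⟨J, hJ⟩ := eventually_atTop.mp hev
    refine ⟨J, fun j hj => ?_⟩
    obtain ⟨h1, h2, h3⟩ := hJ j hj
    rw [Real.dist_eq, abs_lt]
    constructor <;> linarith
  · intro j y hy y' hy' hyz hyz'
    exact hqm j (y, y') ⟨⟨hy, by rwa [mem_closedBall, dist_eq_norm]⟩, ⟨hy', by rwa [mem_closedBall, dist_eq_norm]⟩⟩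

end Pool.Agent.Lib.MP_188651_an
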