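import Pool.Agent.Lib.MP_188651_an.ExDefs

/-!
# The cut-off distance
-/

open Set Filter Metric Topology InnerProductSpace Laplacian

namespace Pool.Agent.Lib.MP_188651_an

variable {n : ℕ} {ρ : ℝ} {D : Set (EE n)} {N : EE n → EE n}

private theorem hasDerivAt_max_pow_ExEc (k : ℕ) (hk : 1 ≤ k) (t : ℝ) :
    HasDerivAt (fun t : ℝ => (max 0 t) ^ (k + 1)) ((k + 1) * (max 0 t) ^ k) t := by
  rcases lt_trichotomy t 0 with h | h | h
  · have h1 : (fun t : ℝ => (max 0 t) ^ (k + 1)) =ᶠ[𝓝 t] fun _ => 0 := by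
      filter_upwards [Iio_mem_nhds h] with s hs
      rw [max_eq_left (le_of_lt hs)]
      simp
    rw [max_eq_left h.le, zero_pow (by omega), mul_zero]
    exact (hasDerivAt_const t (0 : ℝ)).congr_of_eventuallyEq h1
  · subst h
    rw [max_self, zero_pow (by omega), mul_zero]
    rw [hasDerivAt_iff_isLittleO]
    have h2 : (fun t : ℝ => (max 0 t) ^ (k + 1) - (max 0 (0 : ℝ)) ^ (k + 1) - (t - 0) • (0 : ℝ)) =O[𝓝 0]
        fun t : ℝ => t ^ (k + 1) := by
      apply Asymptotics.IsBigO.of_bound 1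
      apply Filter.Eventually.of_forall
      intro s
      simp only [max_self, smul_zero, sub_zero, one_mul]
      rw [zero_pow (by omega), sub_zero, norm_pow, norm_pow]
      apply pow_le_pow_left₀ (norm_nonneg _)
      rw [Real.norm_eq_abs, Real.norm_eq_abs, abs_of_nonneg (le_max_left _ _)]
      exact max_le (abs_nonneg _) (le_abs_self _)
    refine h2.trans_isLittleO ?_
    simp only [sub_zero]
    have := Asymptotics.isLittleO_pow_pow (𝕜 := ℝ) (m := 1) (n := k + 1) (by omega)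
    simpa using this
  · have h1 : (fun t : ℝ => (max 0 t) ^ (k + 1)) =ᶠ[𝓝 t] fun s => s ^ (k + 1) := by
      filter_upwards [Ioi_mem_nhds h] with s hs
      rw [max_eq_right (le_of_lt hs)]
    rw [max_eq_right h.le]
    have h2 := (hasDerivAt_pow (k + 1) t).congr_of_eventuallyEq h1
    simpa using h2

private theorem hasDerivAt_Ec_ExEc {s₁ : ℝ} (hs : 0 < s₁) (d : ℝ) :
    HasDerivAt (Ec s₁) (-(max 0 (s₁ - d)) ^ 2 / s₁ ^ 2) d := by
  have h1 := hasDerivAt_max_pow_ExEc 2 (by norm_num) (s₁ - d)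
  have h2 : HasDerivAt (fun d : ℝ => s₁ - d) (-1) d := by
    simpa using (hasDerivAt_id d).const_sub s₁
  have h3 := (h1.comp d h2).div_const (3 * s₁ ^ 2)
  unfold Ec
  refine h3.congr_deriv ?_
  field_simp
  push_cast
  ring

private theorem hasDerivAt_Ec'_ExEc {s₁ : ℝ} (_hs : 0 < s₁) (d : ℝ) :
    HasDerivAt (fun d => -(max 0 (s₁ - d)) ^ 2 / s₁ ^ 2) (2 * max 0 (s₁ - d) / s₁ ^ 2) d := by
  have h1 := hasDerivAt_max_pow_ExEc 1 (by norm_num) (s₁ - d)
  have h2 : HasDerivAt (fun d : ℝ => s₁ - d) (-1) d := by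
    simpa using (hasDerivAt_id d).const_sub s₁
  have h3 := ((h1.comp d h2).fun_neg).div_const (s₁ ^ 2)
  refine h3.congr_deriv ?_
  push_cast
  ring

theorem Ec_facts {s₁ : ℝ} (hs : 0 < s₁) : ContDiff ℝ 2 (Ec s₁) ∧ (∀ d, 0 ≤ Ec s₁ d) ∧
    (∀ d, 0 ≤ d → Ec s₁ d ≤ s₁ / 3) ∧ Antitone (Ec s₁) ∧
    (∀ d, deriv (Ec s₁) d = -(max 0 (s₁ - d)) ^ 2 / s₁ ^ 2) ∧
    (∀ d, deriv (deriv (Ec s₁)) d = 2 * max 0 (s₁ - d) / s₁ ^ 2) ∧ (∀ d, s₁ ≤ d → Ec s₁ d = 0) := by
  have hd1 : deriv (Ec s₁) = fun d => -(max 0 (s₁ - d)) ^ 2 / s₁ ^ 2 :=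
    funext fun d => (hasDerivAt_Ec_ExEc hs d).deriv
  have hd2 : deriv (deriv (Ec s₁)) = fun d => 2 * max 0 (s₁ - d) / s₁ ^ 2 := by
    rw [hd1]
    exact funext fun d => (hasDerivAt_Ec'_ExEc hs d).deriv
  refine ⟨?_, ?_, ?_, ?_, fun d => congrFun hd1 d, fun d => congrFun hd2 d, ?_⟩
  · rw [show (2 : WithTop ℕ∞) = 1 + 1 by norm_num, contDiff_succ_iff_deriv]
    refine ⟨fun d => (hasDerivAt_Ec_ExEc hs d).differentiableAt, by simp, ?_⟩
    rw [contDiff_one_iff_deriv]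
    refine ⟨?_, ?_⟩
    · rw [hd1]
      exact fun d => (hasDerivAt_Ec'_ExEc hs d).differentiableAt
    · rw [hd2]
      fun_prop
  · intro d
    unfold Ec
    positivity
  · intro d hd
    unfold Ec
    have h1 : max 0 (s₁ - d) ≤ s₁ := max_le hs.le (by linarith)
    have h2 : (max 0 (s₁ - d)) ^ 3 ≤ s₁ ^ 3 := pow_le_pow_left₀ (le_max_left _ _) h1 3
    calc (max 0 (s₁ - d)) ^ 3 / (3 * s₁ ^ 2) ≤ s₁ ^ 3 / (3 * s₁ ^ 2) := by gcongr
      _ = s₁ / 3 := by field_simp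
  · intro a b hab
    unfold Ec
    have h1 : max 0 (s₁ - b) ≤ max 0 (s₁ - a) := max_le_max le_rfl (by linarith)
    have h2 : (max 0 (s₁ - b)) ^ 3 ≤ (max 0 (s₁ - a)) ^ 3 :=
      pow_le_pow_left₀ (le_max_left _ _) h1 3
    gcongr
  · intro d hd
    unfold Ec
    rw [max_eq_left (by linarith)]
    simp

theorem Ed_facts {s₁ : ℝ} (hs : 0 < s₁) : Continuous (Ed D s₁) ∧ (∀ x, 0 ≤ Ed D s₁ x) ∧
    (∀ x, Ed D s₁ x ≤ s₁ / 3) ∧ ∀ x x' : EE n, |Ed D s₁ x - Ed D s₁ x'| ≤ ‖x - x'‖ := by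
  obtain ⟨h1, h2, h3, h4, h5, h6, h7⟩ := Ec_facts hs
  refine ⟨h1.continuous.comp (continuous_infDist_pt _), fun x => h2 _, fun x => h3 _ infDist_nonneg,
    fun x x' => ?_⟩
  have hlip := Convex.norm_image_sub_le_of_norm_deriv_le (f := Ec s₁) (C := 1) (s := Ici 0)
    (x := infDist x' (frontier D)) (y := infDist x (frontier D))
    (fun d _ => (hasDerivAt_Ec_ExEc hs d).differentiableAt)
    (by
      intro d hd
      rw [h5, Real.norm_eq_abs, neg_div, abs_neg, abs_of_nonneg (by positivity)]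
      rw [div_le_one (by positivity)]
      exact pow_le_pow_left₀ (le_max_left _ _) (max_le hs.le (by linarith [mem_Ici.mp hd])) 2)
    (convex_Ici 0) infDist_nonneg infDist_nonneg
  rw [one_mul] at hlip
  have h8 : |infDist x (frontier D) - infDist x' (frontier D)| ≤ ‖x - x'‖ := by
    rw [abs_le]
    have h9 := infDist_le_infDist_add_dist (s := frontier D) (x := x) (y := x')
    have h10 := infDist_le_infDist_add_dist (s := frontier D) (x := x') (y := x)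
    rw [dist_comm x' x] at h10
    rw [dist_eq_norm] at h9 h10
    constructor <;> linarith
  exact le_trans hlip h8

end Pool.Agent.Lib.MP_188651_an
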