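import Pool.Agent.Lib.MP_188651_an.ExLapA
import Pool.Agent.Lib.MP_188651_an.ExLapB

/-!
# Comparison of viscosity subsolutions on balls
-/

open Set Filter Metric Topology InnerProductSpace Laplacian

namespace Pool.Agent.Lib.MP_188651_an

variable {n : ℕ}

/-- comparison of a viscosity subsolution with a classical supersolution on a ball -/
theorem isub_comp (hn : 1 ≤ n) {D : Set (EE n)} (hD : IsOpen D) {M : ℝ} (hM : 0 ≤ M) {g v : EE n → ℝ}
    (hv : ISub D M g v) (hvc : ContinuousOn v D) {c : EE n} {r : ℝ} (hr : 0 < r) (hb : closedBall c r ⊆ D)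
    {w : EE n → ℝ} (hw : ContinuousOn w (closedBall c r)) (hw2 : ContDiffOn ℝ 2 w (ball c r))
    (hwe : ∀ x ∈ ball c r, g x ≤ -(Δ w) x + M * w x) (hbd : ∀ x ∈ sphere c r, v x ≤ w x) :
    ∀ x ∈ closedBall c r, v x ≤ w x := by
  by_contra hcon
  push Not at hcon
  obtain ⟨x0, hx0, hlt⟩ := hcon
  obtain ⟨m, hm⟩ : ∃ m : ℝ, m = v x0 - w x0 := ⟨_, rfl⟩
  have hmpos : 0 < m := by rw [hm]; linarith
  obtain ⟨ε, hε⟩ : ∃ ε : ℝ, ε = m / (2 * r ^ 2) := ⟨_, rfl⟩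
  have hεpos : 0 < ε := by rw [hε]; positivity
  have hεr : ε * r ^ 2 = m / 2 := by rw [hε]; field_simp
  have hfc : ContinuousOn (fun y => v y - (w y + (ε * r ^ 2 - ε * ‖y - c‖ ^ 2))) (closedBall c r) := by
    refine (hvc.mono hb).sub (hw.add (Continuous.continuousOn ?_))
    fun_prop
  obtain ⟨x1, hx1, hmax⟩ := (isCompact_closedBall c r).exists_isMaxOn ⟨x0, hx0⟩ hfc
  have h1 : m / 2 ≤ v x1 - (w x1 + (ε * r ^ 2 - ε * ‖x1 - c‖ ^ 2)) := by
    have h2 : v x0 - (w x0 + (ε * r ^ 2 - ε * ‖x0 - c‖ ^ 2)) ≤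
      v x1 - (w x1 + (ε * r ^ 2 - ε * ‖x1 - c‖ ^ 2)) := hmax hx0
    have h3 : 0 ≤ ε * ‖x0 - c‖ ^ 2 := by positivity
    linarith
  have hx1b : x1 ∈ ball c r := by
    rw [mem_ball]
    rcases lt_or_eq_of_le (mem_closedBall.1 hx1) with h | h
    · exact h
    · exfalso
      have h2 := hbd x1 h
      have h3 : ‖x1 - c‖ = r := by rw [← dist_eq_norm]; exact h
      rw [h3] at h1
      linarith
  have hn1 : ‖x1 - c‖ ^ 2 ≤ r ^ 2 := by
    have h3 : ‖x1 - c‖ ≤ r := by rw [← dist_eq_norm]; exact hx1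
    exact pow_le_pow_left₀ (norm_nonneg _) h3 2
  have hvw : 0 < v x1 - w x1 := by
    have := mul_le_mul_of_nonneg_left hn1 hεpos.le
    linarith
  have hwa : ContDiffAt ℝ 2 w x1 := hw2.contDiffAt (isOpen_ball.mem_nhds hx1b)
  obtain ⟨hq1, hq2, -⟩ := sq_facts c x1
  have hqa : ContDiffAt ℝ 2 (fun y : EE n => ‖y - c‖ ^ 2) x1 := hq1.contDiffAt
  have hqb : ContDiffAt ℝ 2 (fun y : EE n => ε * ‖y - c‖ ^ 2) x1 := contDiffAt_const.mul hqa
  obtain ⟨K, hK⟩ : ∃ K : ℝ, K = v x1 - w x1 + ε * ‖x1 - c‖ ^ 2 := ⟨_, rfl⟩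
  have hKa : ContDiffAt ℝ 2 (fun _ : EE n => K) x1 := contDiffAt_const
  have hwq : ContDiffAt ℝ 2 (fun y => w y - ε * ‖y - c‖ ^ 2) x1 := hwa.sub hqb
  have htouch : TouchA D v (fun y => (w y - ε * ‖y - c‖ ^ 2) + K) x1 := by
    refine ⟨hwq.add hKa, ?_, ?_⟩
    · simp only
      rw [hK]; ring
    · refine eventually_nhdsWithin_of_eventually_nhds ?_
      filter_upwards [isOpen_ball.mem_nhds hx1b] with y hy
      have h2 : v y - (w y + (ε * r ^ 2 - ε * ‖y - c‖ ^ 2)) ≤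
        v x1 - (w x1 + (ε * r ^ 2 - ε * ‖x1 - c‖ ^ 2)) := hmax (ball_subset_closedBall hy)
      rw [hK]
      linarith
  have h4 := hv x1 (hb hx1) _ htouch
  have h5 : (Δ (fun y => (w y - ε * ‖y - c‖ ^ 2) + K)) x1 = (Δ w) x1 - ε * (2 * (n : ℝ)) := by
    rw [lap_add hwq hKa, lap_sub hwa hqb, lap_const_mul ε hqa, lap_const, hq2]
    ring
  rw [h5] at h4
  have h6 := hwe x1 hx1b
  have hn' : (1 : ℝ) ≤ n := by exact_mod_cast hn
  have h9 : 0 < ε * (2 * (n : ℝ)) := by positivity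
  have h8 : 0 ≤ M * (v x1 - w x1) := by positivity
  nlinarith

end Pool.Agent.Lib.MP_188651_an
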