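import Pool.Agent.Lib.MP_188651_an.ExReg
import Pool.Agent.Lib.MP_188651_an.ExBump
import Pool.Agent.Lib.MP_188651_an.ExBumpM
import Pool.Agent.Lib.MP_188651_an.ExMaxBall

/-!
# Monotone iteration
-/

open Set Filter Metric Topology InnerProductSpace Laplacian

namespace Pool.Agent.Lib.MP_188651_an

variable {n : ℕ} {ρ M α ε R : ℝ} {D : Set (EE n)} {N : EE n → EE n} {f : ℝ → ℝ} {x0 : EE n}

/-- the sequence -/
structure Iter (D : Set (EE n)) (N : EE n → EE n) (M α : ℝ) (f : ℝ → ℝ) (ε R : ℝ) (x0 : EE n)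
    (g u : ℕ → EE n → ℝ) : Prop where
  dat : ∀ k, Dat D M (g k)
  sol : ∀ k, LSol D N M α (g k) (u k)
  anti : ∀ k, ∀ x ∈ closure D, u (k + 1) x ≤ u k x
  eq : ∀ k, ∀ x ∈ closure D, g (k + 1) x = f (u k x) + M * u k x
  low : ∀ k, ∀ x ∈ closedBall x0 R, zt ε R x0 x ≤ u k x

/-- the sequence of right-hand sides -/
private noncomputable def exiter_G (D : Set (EE n)) (N : EE n → EE n) (M α : ℝ) (f : ℝ → ℝ) :
    ℕ → EE n → ℝ
  | 0 => fun _ => M
  | (k + 1) => fun x => f (uU D N M α (exiter_G D N M α f k) x) +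
      M * uU D N M α (exiter_G D N M α f k) x

private theorem exiter_zt (hε : 0 < ε) (hR : 0 < R) {x : EE n} (hx : x ∈ closedBall x0 R) :
    0 ≤ zt ε R x0 x ∧ zt ε R x0 x ≤ ε := by
  rw [mem_closedBall, dist_eq_norm] at hx
  have h1 : 0 ≤ ‖x - x0‖ ^ 2 / R ^ 2 := by positivity
  have h2 : ‖x - x0‖ ^ 2 / R ^ 2 ≤ 1 := by
    rw [div_le_one (by positivity)]
    exact pow_le_pow_left₀ (norm_nonneg _) hx 2
  have h3 : (1 - ‖x - x0‖ ^ 2 / R ^ 2) ^ 2 ≤ 1 := by nlinarith
  unfold zt
  refine ⟨by positivity, ?_⟩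
  calc ε * (1 - ‖x - x0‖ ^ 2 / R ^ 2) ^ 2 ≤ ε * 1 := mul_le_mul_of_nonneg_left h3 hε.le
    _ = ε := mul_one ε

private theorem exiter_zt_sphere (hR : 0 < R) {x : EE n} (hx : x ∈ sphere x0 R) :
    zt ε R x0 x = 0 := by
  rw [mem_sphere, dist_eq_norm] at hx
  unfold zt
  rw [hx, div_self (by positivity)]
  ring

theorem exists_iter (hn : 1 ≤ n) (hf : IsPositiveReaction f) (h : BD ρ D N) (hα : 0 < α) (hM : 0 < M)
    (hmono : MonotoneOn (fun s => f s + M * s) (Icc 0 1)) (hε : 0 < ε) (hε1 : ε < 1) (hR : 0 < R)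
    (hb : ∀ x : EE n, ‖x - x0‖ < R → -(Δ (zt ε R x0)) x ≤ f (zt ε R x0 x)) (hx0 : closedBall x0 R ⊆ D) :
    ∃ g u : ℕ → EE n → ℝ, Iter D N M α f ε R x0 g u := by
  set G : ℕ → EE n → ℝ := exiter_G D N M α f with hG
  have hG0 : G 0 = fun _ => M := rfl
  have hGs : ∀ k, G (k + 1) = fun x => f (uU D N M α (G k) x) + M * uU D N M α (G k) x :=
    fun k => rfl
  have hdat : ∀ k, Dat D M (G k) := by
    intro k
    induction k with
    | zero =>
      rw [hG0]
      exact ⟨hM, continuousOn_const, contDiffOn_const, fun _ _ => hM.le, fun _ _ => le_rfl⟩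
    | succ k ih =>
      have hs := lin_solve hn h hα ih
      rw [hGs]
      exact dat_comp hf hM hmono h.isOpen hs.cont hs.smooth
        (fun x hx => ⟨hs.nonneg x hx, hs.le_one x hx⟩)
  have hsol : ∀ k, LSol D N M α (G k) (uU D N M α (G k)) := fun k => lin_solve hn h hα (hdat k)
  have h01 : ∀ k, ∀ x ∈ closure D, uU D N M α (G k) x ∈ Icc (0 : ℝ) 1 := fun k x hx =>
    ⟨(hsol k).nonneg x hx, (hsol k).le_one x hx⟩
  have hanti : ∀ k, ∀ x ∈ closure D, uU D N M α (G (k + 1)) x ≤ uU D N M α (G k) x := by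
    intro k
    induction k with
    | zero =>
      refine LSol.le h hM hα (hsol 1) (hsol 0) (hdat 1).cont (fun x hx => ?_)
      exact (hdat 1).le x (subset_closure hx)
    | succ k ih =>
      refine LSol.le h hM hα (hsol (k + 2)) (hsol (k + 1)) (hdat (k + 2)).cont (fun x hx => ?_)
      have hxc : x ∈ closure D := subset_closure hx
      rw [hGs (k + 1), hGs k]
      exact hmono (h01 (k + 1) x hxc) (h01 k x hxc) (ih x hxc)
  have hbD : ball x0 R ⊆ D := ball_subset_closedBall.trans hx0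
  have hcD : closedBall x0 R ⊆ closure D := hx0.trans subset_closure
  have hlow : ∀ k, ∀ x ∈ closedBall x0 R, zt ε R x0 x ≤ uU D N M α (G k) x := by
    have key : ∀ k, (∀ x ∈ ball x0 R, f (zt ε R x0 x) + M * zt ε R x0 x ≤ G k x) →
        ∀ x ∈ closedBall x0 R, zt ε R x0 x ≤ uU D N M α (G k) x := by
      intro k hk
      have hcl : closure (ball x0 R) = closedBall x0 R := closure_ball x0 hR.ne'
      have hfr : frontier (ball x0 R) = sphere x0 R := frontier_ball x0 hR.ne'
      have hz := zt_facts ε R x0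
      have := comp_bdd hn (O := ball x0 R) isOpen_ball isBounded_ball hM.le
        (u := zt ε R x0) (v := uU D N M α (G k)) hz.continuous.continuousOn
        (by rw [hcl]; exact (hsol k).cont.mono hcD) hz.contDiffOn
        ((hsol k).smooth.mono hbD) (by
          intro x hx
          rw [(hsol k).eq x (hbD hx)]
          have h1 := hb x (by rw [← dist_eq_norm]; exact hx)
          have h2 := hk x hx
          linarith) (by
          intro x hx
          rw [hfr] at hx
          rw [exiter_zt_sphere hR hx]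
          exact (h01 k x (hcD (sphere_subset_closedBall hx))).1)
      rw [hcl] at this
      exact this
    have hzI : ∀ x ∈ closedBall x0 R, zt ε R x0 x ∈ Icc (0 : ℝ) 1 := fun x hx =>
      ⟨(exiter_zt hε hR hx).1, (exiter_zt hε hR hx).2.trans hε1.le⟩
    intro k
    induction k with
    | zero =>
      apply key
      intro x hx
      have h1 := hzI x (ball_subset_closedBall hx)
      have h2 := hmono h1 ⟨zero_le_one, le_rfl⟩ h1.2
      simp only [hf.one] at h2
      rw [hG0]
      linarith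
    | succ k ih =>
      apply key
      intro x hx
      have h1 := hzI x (ball_subset_closedBall hx)
      rw [hGs k]
      exact hmono h1 (h01 k x (hcD (ball_subset_closedBall hx))) (ih x (ball_subset_closedBall hx))
  exact ⟨G, fun k => uU D N M α (G k), ⟨hdat, hsol, hanti, fun k x _ => rfl, hlow⟩⟩

end Pool.Agent.Lib.MP_188651_an
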