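import Pool.Agent.Lib.MP_188651_an.ExIter
import Pool.Agent.Lib.MP_188651_an.ExLimD

/-!
# The limit of the iteration
-/

open Set Filter Metric Topology InnerProductSpace Laplacian

namespace Pool.Agent.Lib.MP_188651_an

variable {n : ℕ} {ρ M α ε R : ℝ} {D : Set (EE n)} {N : EE n → EE n} {f : ℝ → ℝ} {x0 : EE n}

private theorem exiterl_uniform {M : ℝ} (hM : 0 < M) {f : ℝ → ℝ} (hf : ContinuousOn f (Icc 0 1))
    {S : Set (EE n)} {u : ℕ → EE n → ℝ} {w : EE n → ℝ} (hu : ∀ k, ∀ x ∈ S, u k x ∈ Icc (0 : ℝ) 1)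
    (hw : ∀ x ∈ S, w x ∈ Icc (0 : ℝ) 1) (h : TendstoUniformlyOn u w atTop S) :
    TendstoUniformlyOn (fun k => u (k + 1)) w atTop S ∧
      TendstoUniformlyOn (fun k x => f (u k x) + M * u k x - M * u (k + 1) x)
        (fun x => f (w x)) atTop S := by
  have hs : TendstoUniformlyOn (fun k => u (k + 1)) w atTop S := by
    rw [Metric.tendstoUniformlyOn_iff] at h ⊢
    intro e he
    exact (tendsto_add_atTop_nat 1).eventually (h e he)
  refine ⟨hs, ?_⟩
  rw [Metric.tendstoUniformlyOn_iff] at h hs ⊢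
  intro e he
  have huc := isCompact_Icc.uniformContinuousOn_of_continuous hf
  rw [Metric.uniformContinuousOn_iff] at huc
  obtain ⟨δ, hδ, hδ2⟩ := huc (e / 2) (by positivity)
  filter_upwards [h δ hδ, h (e / (4 * M)) (by positivity), hs (e / (4 * M)) (by positivity)]
    with k h1 h2 h3 x hx
  have a1 := hδ2 (w x) (hw x hx) (u k x) (hu k x hx) (h1 x hx)
  have a2 := h2 x hx
  have a3 := h3 x hx
  rw [Real.dist_eq] at a1 a2 a3 ⊢
  have e1 : f (w x) - (f (u k x) + M * u k x - M * u (k + 1) x) =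
      (f (w x) - f (u k x)) + M * (w x - u k x) - M * (w x - u (k + 1) x) := by ring
  rw [e1]
  have b2 : |M * (w x - u k x)| < e / 4 := by
    rw [abs_mul, abs_of_pos hM]
    rw [lt_div_iff₀ (by positivity)] at a2
    linarith
  have b3 : |M * (w x - u (k + 1) x)| < e / 4 := by
    rw [abs_mul, abs_of_pos hM]
    rw [lt_div_iff₀ (by positivity)] at a3
    linarith
  rw [abs_lt] at *
  constructor <;> linarith [a1.1, a1.2, b2.1, b2.2, b3.1, b3.2]

theorem Iter.limit (hn : 1 ≤ n) (hf : IsPositiveReaction f) (h : BD ρ D N) (hne : (frontier D).Nonempty)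
    (hα : 0 < α) (hM : 0 < M) (hε : 0 < ε) (hR : 0 < R) (hx0 : closedBall x0 R ⊆ D)
    {g u : ℕ → EE n → ℝ} (H : Iter D N M α f ε R x0 g u) :
    ∃ w : EE n → ℝ, ContinuousOn w (closure D) ∧ ContDiffOn ℝ 2 w D ∧
      (∀ x ∈ closure D, 0 ≤ w x ∧ w x ≤ 1) ∧ (∀ x ∈ D, -(Δ w) x = f (w x)) ∧
      (∃ C > 0, ∃ h₀ > 0, NDB D N α C h₀ w) ∧ 0 < w x0 := by
  obtain ⟨L, hL, C, hC, h₀, hh₀, hreg⟩ := lsol_reg n h.pos hα hM
  have hu01 : ∀ k, ∀ x ∈ closure D, u k x ∈ Icc (0 : ℝ) 1 := fun k x hx =>
    ⟨(H.sol k).nonneg x hx, (H.sol k).le_one x hx⟩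
  have hanti : ∀ x ∈ closure D, Antitone (fun k => u k x) := fun x hx =>
    antitone_nat_of_succ_le fun k => H.anti k x hx
  set w : EE n → ℝ := fun x => ⨅ k, u k x with hw
  have hlim : ∀ x ∈ closure D, Tendsto (fun k => u k x) atTop (𝓝 (w x)) := by
    intro x hx
    exact tendsto_atTop_ciInf (hanti x hx) ⟨0, by rintro _ ⟨k, rfl⟩; exact (hu01 k x hx).1⟩
  have hw01 : ∀ x ∈ closure D, w x ∈ Icc (0 : ℝ) 1 := by
    intro x hx
    exact isClosed_Icc.mem_of_tendsto (hlim x hx) (Eventually.of_forall fun k => hu01 k x hx)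
  have hwl : ∀ x ∈ closure D, ∀ x' ∈ closure D, |w x - w x'| ≤ L * ‖x - x'‖ := by
    intro x hx x' hx'
    have h1 : Tendsto (fun k => |u k x - u k x'|) atTop (𝓝 |w x - w x'|) :=
      ((hlim x hx).sub (hlim x' hx')).abs
    exact le_of_tendsto h1 (Eventually.of_forall fun k =>
      (hreg D N (g k) (u k) h hne (H.dat k) (H.sol k)).1 x hx x' hx')
  have hwc : ContinuousOn w (closure D) := by
    have : LipschitzOnWith ⟨L, hL.le⟩ w (closure D) := by
      apply LipschitzOnWith.of_dist_le_mul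
      intro x hx y hy
      rw [Real.dist_eq, dist_eq_norm]
      exact hwl x hx y hy
    exact this.continuousOn
  -- interior regularity
  have hfc : ContinuousOn f (Icc 0 1) := hf.smooth.continuousOn.mono (fun x hx => hx.1)
  have hloc : ∀ x ∈ D, ∃ r > 0, ContDiffOn ℝ 2 w (ball x r) ∧ ∀ z ∈ ball x r, -(Δ w) z = f (w z) := by
    intro x hx
    obtain ⟨r, hr, hrD⟩ := Metric.isOpen_iff.1 h.isOpen x hx
    have hcl : closedBall x (r / 2) ⊆ D :=
      (closedBall_subset_ball (by linarith)).trans hrD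
    have hclc : closedBall x (r / 2) ⊆ closure D := hcl.trans subset_closure
    have hbD : ball x (r / 2) ⊆ D := ball_subset_closedBall.trans hcl
    have hunif : TendstoUniformlyOn u w atTop (closedBall x (r / 2)) :=
      Antitone.tendstoUniformlyOn_of_forall_tendsto (isCompact_closedBall x (r / 2))
        (fun k => ((H.sol k).cont).mono hclc) (fun y hy => hanti y (hclc hy)) (hwc.mono hclc)
        (fun y hy => hlim y (hclc hy))
    have hunif' := hunif.mono ball_subset_closedBall
    obtain ⟨c1, c2⟩ := exiterl_uniform (n := n) hM hfc (S := ball x (r / 2))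
      (fun k y hy => hu01 k y (subset_closure (hbD hy)))
      (fun y hy => hw01 y (subset_closure (hbD hy))) hunif'
    have hLS : LimSol (ball x (r / 2)) (fun y => f (w y)) w := by
      refine ⟨fun k => u (k + 1), fun k => ((H.sol (k + 1)).smooth).mono hbD, c1, ?_⟩
      refine c2.congr (Eventually.of_forall fun k y hy => ?_)
      have h1 := (H.sol (k + 1)).eq y (hbD hy)
      have h2 := H.eq k y (subset_closure (hbD hy))
      show f (u k y) + M * u k y - M * u (k + 1) y = -(Δ (u (k + 1))) y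
      linarith
    have hr2 : 0 < r / 2 := by positivity
    have hc1 := hLS.c1 hr2
    have hG : ContDiffOn ℝ 1 (fun y => f (w y)) (ball x (r / 2)) :=
      hf.smooth.comp hc1 (fun y hy => (hw01 y (subset_closure (hbD hy))).1)
    obtain ⟨d1, d2⟩ := hLS.c2 hr2 hG
    exact ⟨r / 2, hr2, d1, d2⟩
  refine ⟨w, hwc, ?_, fun x hx => hw01 x hx, ?_, ?_, ?_⟩
  · intro x hx
    obtain ⟨r, hr, h1, -⟩ := hloc x hx
    exact (h1.contDiffAt (ball_mem_nhds x hr)).contDiffWithinAt
  · intro x hx
    obtain ⟨r, hr, -, h2⟩ := hloc x hx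
    exact h2 x (mem_ball_self hr)
  · refine ⟨C, hC, min h₀ (min 1 ρ), lt_min hh₀ (lt_min one_pos h.pos), ?_⟩
    intro y hy t s ht hth hs hst
    have ht0 : t ≤ h₀ := hth.trans (min_le_left _ _)
    have ht1 : t ≤ 1 := hth.trans ((min_le_right _ _).trans (min_le_left _ _))
    have htρ : t ≤ ρ := hth.trans ((min_le_right _ _).trans (min_le_right _ _))
    have hyc : y ∈ closure D := frontier_subset_closure hy
    have hmem : y - s • N y ∈ closure D := by
      rcases hs.eq_or_lt with h0 | h0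
      · rw [← h0, zero_smul, sub_zero]
        exact hyc
      · apply subset_closure
        apply h.int y hy
        rw [mem_ball, dist_eq_norm]
        have e1 : y - s • N y - (y - ρ • N y) = (ρ - s) • N y := by
          rw [sub_smul]; abel
        have hsρ : s ≤ ρ := by nlinarith
        rw [e1, norm_smul, h.unit y hy, mul_one, Real.norm_eq_abs, abs_of_nonneg (by linarith)]
        linarith
    have h1 : Tendsto (fun k => |u k (y - s • N y) - u k y - s / α * u k y|) atTop
        (𝓝 |w (y - s • N y) - w y - s / α * w y|) :=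
      (((hlim _ hmem).sub (hlim y hyc)).sub ((hlim y hyc).const_mul (s / α))).abs
    exact le_of_tendsto h1 (Eventually.of_forall fun k =>
      (hreg D N (g k) (u k) h hne (H.dat k) (H.sol k)).2 y hy t s ht ht0 hs hst)
  · have hx0D : x0 ∈ closure D := subset_closure (hx0 (mem_closedBall_self hR.le))
    have h1 : ε ≤ w x0 := by
      refine ge_of_tendsto (hlim x0 hx0D) (Eventually.of_forall fun k => ?_)
      have h2 := H.low k x0 (mem_closedBall_self hR.le)
      unfold zt at h2
      simpa using h2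
    linarith

end Pool.Agent.Lib.MP_188651_an
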