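import Pool.Agent.Lib.MP_188651_an.ExCls
import Pool.Agent.Lib.MP_188651_an.ExBall
import Pool.Agent.Lib.MP_188651_an.ExISub
import Pool.Agent.Lib.MP_188651_an.ExMaxBall

/-!
# Lifts
-/

open Set Filter Metric Topology InnerProductSpace Laplacian

namespace Pool.Agent.Lib.MP_188651_an

variable {n : ℕ} {ρ M α : ℝ} {D : Set (EE n)} {N : EE n → EE n} {g : EE n → ℝ}

theorem PCl.lift (hn : 1 ≤ n) (hD : IsOpen D) (hg : Dat D M g) {v : EE n → ℝ} (hv : PCl D N M α g v) {c : EE n} {r : ℝ}
    (hr : 0 < r) (hb : closedBall c r ⊆ D) (hMr : M * r ^ 2 ≤ 1) :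
    ∃ w : EE n → ℝ, PCl D N M α g w ∧ (∀ x ∈ closure D, v x ≤ w x) ∧
      ContinuousOn w (closedBall c r) ∧ ContDiffOn ℝ 2 w (ball c r) ∧
      (∀ x ∈ ball c r, -(Δ w) x + M * w x = g x) ∧ ∀ x ∈ sphere c r, w x = v x := by
  classical
  have hbc : closedBall c r ⊆ closure D := hb.trans subset_closure
  have hbb : ball c r ⊆ D := ball_subset_closedBall.trans hb
  obtain ⟨w₀, hc, h2, he, hs⟩ := ball_solve hn hg.Mpos.le hr hMr (hg.cont.mono hbc)
    (hg.smooth.mono hbb) (hv.cont.mono hb)
  have hcl : closure (ball c r) = closedBall c r := closure_ball c hr.ne'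
  have hfr : frontier (ball c r) = sphere c r := frontier_ball c hr.ne'
  -- comparison with `v` and with the constant `1`
  have hvw : ∀ x ∈ closedBall c r, v x ≤ w₀ x :=
    isub_comp hn hD hg.Mpos.le hv.int hv.cont hr hb hc h2 (fun x hx => (he x hx).ge)
      fun x hx => (hs x hx).ge
  have hw1 : ∀ x ∈ closedBall c r, w₀ x ≤ 1 := by
    have h := comp_bdd hn (O := ball c r) isOpen_ball isBounded_ball hg.Mpos.le (u := w₀)
      (v := fun _ => 1) (by rw [hcl]; exact hc) continuousOn_const h2 contDiffOn_const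
      (fun x hx => by
        rw [he x hx, lap_const]
        have := hg.le x (hbc (ball_subset_closedBall hx))
        linarith)
      (fun x hx => by
        rw [hfr] at hx
        rw [hs x hx]
        exact hv.le_one x (hbc (sphere_subset_closedBall hx)))
    rwa [hcl] at h
  obtain ⟨w, hw⟩ : ∃ w : EE n → ℝ, w = (closedBall c r).piecewise w₀ v := ⟨_, rfl⟩
  have hwin : ∀ x ∈ closedBall c r, w x = w₀ x := fun x hx => by
    rw [hw]; exact piecewise_eq_of_mem _ _ _ hx
  have hwout : ∀ x, x ∉ ball c r → w x = v x := fun x hx => by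
    by_cases h : x ∈ closedBall c r
    · have h3 : x ∈ sphere c r := by
        rw [mem_sphere]
        rw [mem_closedBall] at h
        rw [mem_ball, not_lt] at hx
        exact le_antisymm h hx
      rw [hwin x h, hs x h3]
    · rw [hw]; exact piecewise_eq_of_notMem _ _ _ h
  have hle : ∀ x, v x ≤ w x := fun x => by
    by_cases h : x ∈ closedBall c r
    · rw [hwin x h]; exact hvw x h
    · rw [hwout x (fun h' => h (ball_subset_closedBall h'))]
  have hwball : ∀ x ∈ ball c r, w =ᶠ[𝓝 x] w₀ := fun x hx => by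
    filter_upwards [isOpen_ball.mem_nhds hx] with y hy
    exact hwin y (ball_subset_closedBall hy)
  have hwext : ∀ x, x ∉ closedBall c r → w =ᶠ[𝓝 x] v := fun x hx => by
    filter_upwards [isClosed_closedBall.isOpen_compl.mem_nhds hx] with y hy
    exact hwout y fun h' => hy (ball_subset_closedBall h')
  have hcont : ContinuousOn w D := by
    rw [hw]
    refine ContinuousOn.piecewise ?_ ?_ ?_
    · rintro a ⟨-, ha⟩
      rw [frontier_closedBall c hr.ne'] at ha
      exact hs a ha
    · refine hc.mono ?_
      rw [isClosed_closedBall.closure_eq]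
      exact inter_subset_right
    · exact hv.cont.mono inter_subset_left
  have hcd : ContDiffOn ℝ 2 w (ball c r) :=
    h2.congr fun x hx => hwin x (ball_subset_closedBall hx)
  have heq : ∀ x ∈ ball c r, -(Δ w) x + M * w x = g x := fun x hx => by
    rw [lap_congr (hwball x hx), hwin x (ball_subset_closedBall hx)]
    exact he x hx
  refine ⟨w, ?_, fun x _ => hle x, hc.congr hwin, hcd, heq, fun x hx => by
    rw [hwin x (sphere_subset_closedBall hx), hs x hx]⟩
  refine ⟨hcont, ?_, ?_, ?_, ?_, ?_⟩
  · -- upper semicontinuity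
    intro x hx
    by_cases hxD : x ∈ D
    · have h3 : ContinuousAt w x := hcont.continuousAt (hD.mem_nhds hxD)
      exact h3.continuousWithinAt.upperSemicontinuousWithinAt
    · have h3 : x ∉ closedBall c r := fun h => hxD (hb h)
      have h4 := hv.usc x hx
      intro y hy
      rw [(hwext x h3).self_of_nhds] at hy
      filter_upwards [h4 y hy, (hwext x h3).filter_mono nhdsWithin_le_nhds] with z hz hz2
      rw [hz2]; exact hz
  · intro x hx
    exact (hv.nonneg x hx).trans (hle x)
  · intro x hx
    by_cases h : x ∈ closedBall c r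
    · rw [hwin x h]; exact hw1 x h
    · rw [hwout x (fun h' => h (ball_subset_closedBall h'))]; exact hv.le_one x hx
  · -- subsolution
    intro x hx φ hφ
    by_cases hxb : x ∈ ball c r
    · have hwa : ContDiffAt ℝ 2 w x := hcd.contDiffAt (isOpen_ball.mem_nhds hxb)
      have hφe : ∀ᶠ z in 𝓝 x, w z ≤ φ z := by
        have := hφ.2.2
        rwa [hD.nhdsWithin_eq hx] at this
      have hmax : IsLocalMax (fun y => w y - φ y) x := by
        filter_upwards [hφe] with z hz
        have := hφ.2.1
        show w z - φ z ≤ w x - φ x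
        linarith
      have h3 := (lap_le_of_isLocalMax (hwa.sub hφ.1) hmax).2
      have h4 : (Δ (fun y => w y - φ y)) x = (Δ w) x - (Δ φ) x := lap_sub hwa hφ.1
      have h5 := heq x hxb
      have h6 : (Δ (fun y => w y - φ y)) x ≤ 0 := h3
      linarith
    · have h3 := hwout x hxb
      rw [h3]
      refine hv.int x hx φ ⟨hφ.1, by rw [hφ.2.1, h3], ?_⟩
      filter_upwards [hφ.2.2] with z hz
      exact (hle z).trans hz
  · intro y hy φ hφ
    have hyD : y ∉ D := by
      rw [hD.frontier_eq] at hy
      exact hy.2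
    have h3 := hwout y (fun h => hyD (hbb h))
    rw [h3]
    refine hv.bd y hy φ ⟨hφ.1, by rw [hφ.2.1, h3], ?_⟩
    filter_upwards [hφ.2.2] with z hz
    exact (hle z).trans hz

end Pool.Agent.Lib.MP_188651_an
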