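import Pool.Agent.Lib.MP_188651_an.ExLimC1
import Pool.Agent.Lib.MP_188651_an.ExLimA

/-!
# Difference quotients of generalised solutions
-/

open Set Filter Metric Topology InnerProductSpace Laplacian

namespace Pool.Agent.Lib.MP_188651_an

variable {n : ℕ}

/-- uniform convergence of the difference quotients of a `C¹` function -/
private theorem ld_quot {c : EE n} {R R' : ℝ} (hR : R' < R) {F : EE n → ℝ}
    (hF : ContDiffOn ℝ 1 F (ball c R)) (e : EE n) {ε : ℝ} (hε : 0 < ε) :
    ∃ h0 > 0, ∀ h : ℝ, 0 < h → h < h0 → ∀ x ∈ ball c R',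
      |h⁻¹ * (F (x + h • e) - F x) - fderiv ℝ F x e| ≤ ε := by
  set R1 : ℝ := (R' + R) / 2 with hR1
  have h1 : R' < R1 := by rw [hR1]; linarith
  have h2 : R1 < R := by rw [hR1]; linarith
  have hsub : closedBall c R1 ⊆ ball c R := closedBall_subset_ball h2
  have hcd : ContinuousOn (fderiv ℝ F) (closedBall c R1) :=
    (hF.continuousOn_fderiv_of_isOpen isOpen_ball le_rfl).mono hsub
  have huc := (isCompact_closedBall c R1).uniformContinuousOn_of_continuous hcd
  rw [Metric.uniformContinuousOn_iff] at huc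
  set ε' : ℝ := ε / (‖e‖ + 1) with hε'
  have hε'p : 0 < ε' := by positivity
  obtain ⟨δ, hδ, huc⟩ := huc ε' hε'p
  set δ' : ℝ := min δ (R1 - R') with hδ'
  have hδ'p : 0 < δ' := lt_min hδ (by linarith)
  refine ⟨δ' / (‖e‖ + 1), by positivity, ?_⟩
  intro h hh hh0 x hx
  have hhe : ‖h • e‖ < δ' := by
    rw [norm_smul, Real.norm_of_nonneg hh.le]
    rw [lt_div_iff₀ (by positivity)] at hh0
    nlinarith [norm_nonneg e]
  have hxB : x ∈ closedBall c R1 := by
    rw [mem_ball] at hx
    rw [mem_closedBall]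
    linarith
  have hball : ball x δ' ⊆ closedBall c R1 := by
    intro y hy
    rw [mem_ball] at hx hy
    rw [mem_closedBall]
    have := dist_triangle y x c
    have : δ' ≤ R1 - R' := min_le_right _ _
    linarith
  have key := (convex_ball x δ').norm_image_sub_le_of_norm_fderiv_le' (𝕜 := ℝ) (f := F)
    (φ := fderiv ℝ F x) (C := ε') (x := x) (y := x + h • e)
    (fun y hy => ((hF.contDiffAt (isOpen_ball.mem_nhds (hsub (hball hy)))).differentiableAt
      (by simp)))
    (fun y hy => by
      have := huc y (hball hy) x hxB (lt_of_lt_of_le hy (min_le_left _ _))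
      rw [dist_eq_norm] at this
      exact this.le)
    (mem_ball_self hδ'p) (by
      rw [mem_ball, dist_eq_norm, add_sub_cancel_left]
      exact hhe)
  rw [add_sub_cancel_left, map_smul, smul_eq_mul, norm_smul, Real.norm_of_nonneg hh.le] at key
  have h3 : h⁻¹ * (F (x + h • e) - F x) - fderiv ℝ F x e =
      h⁻¹ * (F (x + h • e) - F x - h * fderiv ℝ F x e) := by
    field_simp
  rw [h3, abs_mul, abs_of_pos (inv_pos.2 hh)]
  rw [Real.norm_eq_abs] at key
  calc h⁻¹ * |F (x + h • e) - F x - h * fderiv ℝ F x e| ≤ h⁻¹ * (ε' * (h * ‖e‖)) :=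
        mul_le_mul_of_nonneg_left key (inv_pos.2 hh).le
    _ = ε' * ‖e‖ := by field_simp
    _ ≤ ε := by
        rw [hε', div_mul_eq_mul_div, div_le_iff₀ (by positivity)]
        nlinarith [norm_nonneg e]

/-- difference quotients -/
theorem LimSol.deriv {c : EE n} {R R' : ℝ} (hR' : 0 < R') (hR : R' < R) {G w : EE n → ℝ}
    (h : LimSol (ball c R) G w) (hG : ContDiffOn ℝ 1 G (ball c R)) (e : EE n) :
    LimSol (ball c R') (fun x => fderiv ℝ G x e) (fun x => fderiv ℝ w x e) := by
  have hw1 : ContDiffOn ℝ 1 w (ball c R) := h.c1 (hR'.trans hR)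
  obtain ⟨wk, hwk, hw, hGk⟩ := h
  rw [Metric.tendstoUniformlyOn_iff] at hw hGk
  -- for every `ε` there is a good pair `(k, h)`
  have key : ∀ ε : ℝ, 0 < ε → ∃ v : EE n → ℝ, ContDiffOn ℝ 2 v (ball c R') ∧
      (∀ x ∈ ball c R', |fderiv ℝ w x e - v x| < ε) ∧
      (∀ x ∈ ball c R', |fderiv ℝ G x e - (-(Δ v) x)| < ε) := by
    intro ε hε
    obtain ⟨h1, h1p, H1⟩ := ld_quot hR hw1 e (ε := ε / 2) (by positivity)
    obtain ⟨h2, h2p, H2⟩ := ld_quot hR hG e (ε := ε / 2) (by positivity)
    set h0 : ℝ := min (min h1 h2) ((R - R') / (‖e‖ + 1)) with hh0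
    have h0p : 0 < h0 := by
      refine lt_min (lt_min h1p h2p) ?_
      have : 0 < R - R' := by linarith
      positivity
    set t : ℝ := h0 / 2 with ht
    have htp : 0 < t := by positivity
    have htl : t < h0 := by rw [ht]; linarith
    have ht1 : t < h1 := lt_of_lt_of_le htl ((min_le_left _ _).trans (min_le_left _ _))
    have ht2 : t < h2 := lt_of_lt_of_le htl ((min_le_left _ _).trans (min_le_right _ _))
    have ht3 : t < (R - R') / (‖e‖ + 1) := lt_of_lt_of_le htl (min_le_right _ _)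
    have hte : ‖t • e‖ < R - R' := by
      rw [norm_smul, Real.norm_of_nonneg htp.le]
      rw [lt_div_iff₀ (by positivity)] at ht3
      nlinarith [norm_nonneg e]
    have hin : ∀ x ∈ ball c R', x ∈ ball c R ∧ x + t • e ∈ ball c R := by
      intro x hx
      rw [mem_ball] at hx
      refine ⟨by rw [mem_ball]; linarith, ?_⟩
      rw [mem_ball]
      have h3 : dist (x + t • e) c ≤ dist (x + t • e) x + dist x c := dist_triangle _ _ _
      rw [dist_eq_norm (x + t • e) x, add_sub_cancel_left] at h3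
      linarith
    set η : ℝ := ε * t / 8 with hη
    have hηp : 0 < η := by positivity
    obtain ⟨k, hk1, hk2⟩ := ((hw η hηp).and (hGk η hηp)).exists
    have hCk : ∀ x ∈ ball c R, ContDiffAt ℝ 2 (wk k) x := fun x hx =>
      (hwk k).contDiffAt (isOpen_ball.mem_nhds hx)
    have hshift : ∀ x ∈ ball c R', ContDiffAt ℝ 2 (fun y => wk k (y + t • e)) x := by
      intro x hx
      have h3 : ContDiffAt ℝ 2 (wk k) ((fun y : EE n => y + t • e) x) := hCk _ (hin x hx).2
      exact h3.comp x (contDiffAt_id.add contDiffAt_const)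
    refine ⟨fun x => t⁻¹ * (wk k (x + t • e) - wk k x), ?_, ?_, ?_⟩
    · intro x hx
      apply ContDiffAt.contDiffWithinAt
      exact contDiffAt_const.mul ((hshift x hx).sub (hCk x (hin x hx).1))
    · intro x hx
      have e1 := hk1 x (hin x hx).1
      have e2 := hk1 _ (hin x hx).2
      rw [Real.dist_eq] at e1 e2
      have e3 := H1 t htp ht1 x hx
      have e4 : fderiv ℝ w x e - t⁻¹ * (wk k (x + t • e) - wk k x) =
          -(t⁻¹ * (w (x + t • e) - w x) - fderiv ℝ w x e) +
            t⁻¹ * ((w (x + t • e) - wk k (x + t • e)) - (w x - wk k x)) := by ring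
      have e5 : |t⁻¹ * ((w (x + t • e) - wk k (x + t • e)) - (w x - wk k x))| ≤ ε / 4 := by
        rw [abs_mul, abs_of_pos (inv_pos.2 htp), ← div_eq_inv_mul, div_le_iff₀ htp]
        have := abs_sub (w (x + t • e) - wk k (x + t • e)) (w x - wk k x)
        have : ε / 4 * t = η + η := by rw [hη]; ring
        linarith
      rw [e4]
      refine lt_of_le_of_lt (abs_add_le _ _) ?_
      rw [abs_neg]
      linarith
    · intro x hx
      have e1 := hk2 x (hin x hx).1
      have e2 := hk2 _ (hin x hx).2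
      rw [Real.dist_eq] at e1 e2
      have e3 := H2 t htp ht2 x hx
      have e0 : (Δ (fun x => t⁻¹ * (wk k (x + t • e) - wk k x))) x =
          t⁻¹ * ((Δ (wk k)) (x + t • e) - (Δ (wk k)) x) := by
        rw [lap_const_mul t⁻¹ ((hshift x hx).sub (hCk x (hin x hx).1)),
          lap_sub (hshift x hx) (hCk x (hin x hx).1), lap_translate]
      rw [e0]
      have e4 : fderiv ℝ G x e - -(t⁻¹ * ((Δ (wk k)) (x + t • e) - (Δ (wk k)) x)) =
          -(t⁻¹ * (G (x + t • e) - G x) - fderiv ℝ G x e) +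
            t⁻¹ * ((G (x + t • e) - -(Δ (wk k)) (x + t • e)) - (G x - -(Δ (wk k)) x)) := by ring
      have e5 : |t⁻¹ * ((G (x + t • e) - -(Δ (wk k)) (x + t • e)) - (G x - -(Δ (wk k)) x))| ≤
          ε / 4 := by
        rw [abs_mul, abs_of_pos (inv_pos.2 htp), ← div_eq_inv_mul, div_le_iff₀ htp]
        have := abs_sub (G (x + t • e) - -(Δ (wk k)) (x + t • e)) (G x - -(Δ (wk k)) x)
        have : ε / 4 * t = η + η := by rw [hη]; ring
        linarith
      rw [e4]
      refine lt_of_le_of_lt (abs_add_le _ _) ?_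
      rw [abs_neg]
      linarith
  choose! v hv1 hv2 hv3 using key
  refine ⟨fun m => v (1 / ((m : ℝ) + 1)), fun m => hv1 _ (by positivity), ?_, ?_⟩
  · rw [Metric.tendstoUniformlyOn_iff]
    intro ε hε
    obtain ⟨N, hN⟩ := exists_nat_one_div_lt hε
    filter_upwards [eventually_ge_atTop N] with m hm x hx
    rw [Real.dist_eq]
    have h1 := hv2 (1 / ((m : ℝ) + 1)) (by positivity) x hx
    have h2 : 1 / ((m : ℝ) + 1) ≤ 1 / ((N : ℝ) + 1) := by
      apply one_div_le_one_div_of_le (by positivity)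
      have : (N : ℝ) ≤ m := by exact_mod_cast hm
      linarith
    linarith
  · rw [Metric.tendstoUniformlyOn_iff]
    intro ε hε
    obtain ⟨N, hN⟩ := exists_nat_one_div_lt hε
    filter_upwards [eventually_ge_atTop N] with m hm x hx
    rw [Real.dist_eq]
    have h1 := hv3 (1 / ((m : ℝ) + 1)) (by positivity) x hx
    have h2 : 1 / ((m : ℝ) + 1) ≤ 1 / ((N : ℝ) + 1) := by
      apply one_div_le_one_div_of_le (by positivity)
      have : (N : ℝ) ≤ m := by exact_mod_cast hm
      linarith
    linarith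

end Pool.Agent.Lib.MP_188651_an
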