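import Pool.Agent.Lib.MP_188651_an.ExPerV
import Pool.Agent.Lib.MP_188651_an.ExCompB

/-!
# Solution of the linear Robin problem
-/

open Set Filter Metric Topology InnerProductSpace Laplacian

namespace Pool.Agent.Lib.MP_188651_an

variable {n : ℕ} {ρ M α : ℝ} {D : Set (EE n)} {N : EE n → EE n} {g : EE n → ℝ}

private theorem uU_eq_ExLin (hn : 1 ≤ n) (h : BD ρ D N) (hα : 0 < α) (hg : Dat D M g) :
    ContDiffOn ℝ 2 (uU D N M α g) D ∧ ∀ x ∈ D, -(Δ (uU D N M α g)) x + M * uU D N M α g x = g x := by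
  obtain ⟨hf1, hf2, hf3, hf4, hf5⟩ := uU_facts hn h hα hg
  obtain ⟨hs1, hs2⟩ := uP_sol hn h hα hg
  refine ⟨hs1.congr hf4, fun x hx => ?_⟩
  have h1 : (Δ (uU D N M α g)) x = (Δ (uP D N M α g)) x :=
    lap_congr (by
      filter_upwards [h.isOpen.mem_nhds hx] with z hz
      exact hf4 z hz)
  rw [h1, hf4 x hx]
  exact hs2 x hx

theorem uU_le_uV (hn : 1 ≤ n) (h : BD ρ D N) (hα : 0 < α) (hg : Dat D M g) :
    ∀ x ∈ closure D, uU D N M α g x ≤ uV D N M α g x := by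
  obtain ⟨hf1, hf2, hf3, hf4, hf5⟩ := uU_facts hn h hα hg
  obtain ⟨hv1, hv2, hv3, hv4, hv5⟩ := uV_facts hn h hα hg
  obtain ⟨hs1, hs2⟩ := uP_sol hn h hα hg
  obtain ⟨hu1, hu2⟩ := uU_eq_ExLin hn h hα hg
  have hP := uP_facts h hα hg
  refine CmpHyp.le (D := D) (N := N) (M := M) (α := α) (g1 := g) (g2 := g) ⟨hg.Mpos, hα, hf1, hv1,
    ⟨1, fun x hx => ⟨?_, ?_⟩⟩, hu1, hs1.congr hv4, fun x hx => (hu2 x hx).le, fun x hx => ?_,
    fun x hx => le_refl _, hg.cont, (uU_mem hn h hα hg).bd, uV_sup hn h hα hg⟩ h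
  · rw [abs_le]
    have h1 := (hP x hx).1.trans (hf2 x hx)
    exact ⟨by linarith, hf3 x hx⟩
  · rw [abs_le]
    have h1 := hv2 x hx
    exact ⟨by linarith, (hv3 x hx).trans (hf3 x hx)⟩
  · have h1 : (Δ (uV D N M α g)) x = (Δ (uP D N M α g)) x :=
      lap_congr (by
        filter_upwards [h.isOpen.mem_nhds hx] with z hz
        exact hv4 z hz)
    rw [h1, hv4 x hx]
    exact (hs2 x hx).ge

theorem lin_solve (hn : 1 ≤ n) (h : BD ρ D N) (hα : 0 < α) (hg : Dat D M g) : LSol D N M α g (uU D N M α g) := by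
  obtain ⟨hf1, hf2, hf3, hf4, hf5⟩ := uU_facts hn h hα hg
  obtain ⟨hv1, hv2, hv3, hv4, hv5⟩ := uV_facts hn h hα hg
  obtain ⟨hu1, hu2⟩ := uU_eq_ExLin hn h hα hg
  have hP := uP_facts h hα hg
  have heq : ∀ x ∈ closure D, uU D N M α g x = uV D N M α g x := fun x hx =>
    le_antisymm (uU_le_uV hn h hα hg x hx) (hv3 x hx)
  refine ⟨?_, hu1, fun x hx => (hP x hx).1.trans (hf2 x hx), hf3, hu2, (uU_mem hn h hα hg).bd, ?_⟩
  · intro x hx
    rw [ContinuousWithinAt, tendsto_order]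
    constructor
    · intro a ha
      rw [heq x hx] at ha
      filter_upwards [hv1 x hx a ha, self_mem_nhdsWithin] with z hz hzD
      rwa [heq z hzD]
    · intro a ha
      exact hf1 x hx a ha
  · intro y hy φ hφ
    obtain ⟨h1, h2, h3⟩ := hφ
    have hyc := frontier_subset_closure hy
    have h4 := uV_sup hn h hα hg y hy φ ⟨h1, by rw [h2, heq y hyc], by
      filter_upwards [h3, self_mem_nhdsWithin] with z hz hzD
      rwa [← heq z hzD]⟩
    rwa [heq y hyc]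

theorem LSol.le (h : BD ρ D N) (hM : 0 < M) (hα : 0 < α) {g g' u u' : EE n → ℝ} (hu : LSol D N M α g u)
    (hu' : LSol D N M α g' u') (hg : ContinuousOn g (closure D)) (hle : ∀ x ∈ D, g x ≤ g' x) :
    ∀ x ∈ closure D, u x ≤ u' x := by
  refine CmpHyp.le (D := D) (N := N) (M := M) (α := α) (g1 := g) (g2 := g') ⟨hM, hα,
    hu.cont.upperSemicontinuousOn, hu'.cont.lowerSemicontinuousOn,
    ⟨1, fun x hx => ⟨?_, ?_⟩⟩, hu.smooth, hu'.smooth, fun x hx => (hu.eq x hx).le,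
    fun x hx => (hu'.eq x hx).ge, hle, hg, hu.sub, hu'.sup⟩ h
  · rw [abs_le]
    have h1 := hu.nonneg x hx
    exact ⟨by linarith, hu.le_one x hx⟩
  · rw [abs_le]
    have h1 := hu'.nonneg x hx
    exact ⟨by linarith, hu'.le_one x hx⟩

end Pool.Agent.Lib.MP_188651_an
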