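import Pool.Agent.Lib.MP_188651_an.ExEc
import Pool.Agent.Lib.MP_188651_an.ExGeoB
import Pool.Agent.Lib.MP_188651_an.ExLapA
import Pool.Agent.Lib.MP_188651_an.ExLapB
import Pool.Agent.Lib.MP_188651_an.GeoA

/-!
# Touching from below
-/

open Set Filter Metric Topology InnerProductSpace Laplacian

namespace Pool.Agent.Lib.MP_188651_an

variable {n : ℕ} {ρ : ℝ} {D : Set (EE n)} {N : EE n → EE n}

private theorem n_pos_ExTouchB {v : EE n} (hv : ‖v‖ = 1) : (1 : ℝ) ≤ n := by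
  rcases Nat.eq_zero_or_pos n with h | h
  · subst h
    have : v = 0 := Subsingleton.elim _ _
    rw [this, norm_zero] at hv
    norm_num at hv
  · exact_mod_cast h

private theorem max_ExTouchB {s₁ d : ℝ} (hs : 0 < s₁) (hd : 0 ≤ d) :
    (max 0 (s₁ - d)) ^ 2 / s₁ ^ 2 ≤ 1 ∧ 0 ≤ (max 0 (s₁ - d)) ^ 2 / s₁ ^ 2 ∧
      2 * max 0 (s₁ - d) / s₁ ^ 2 ≤ 2 / s₁ ∧ 0 ≤ 2 * max 0 (s₁ - d) / s₁ ^ 2 := by
  have h1 : max 0 (s₁ - d) ≤ s₁ := max_le hs.le (by linarith)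
  have h0 : 0 ≤ max 0 (s₁ - d) := le_max_left _ _
  refine ⟨?_, by positivity, ?_, by positivity⟩
  · rw [div_le_one (by positivity)]
    gcongr
  · rw [div_le_div_iff₀ (by positivity) hs]
    nlinarith

theorem touch_below (h : BD ρ D N) (hne : (frontier D).Nonempty) {x : EE n} (hx : x ∈ closure D) :
    ∃ φ : EE n → ℝ, ContDiffAt ℝ 2 φ x ∧ φ x = Ed D (ρ / 2) x ∧
      (∀ᶠ z in 𝓝[closure D] x, φ z ≤ Ed D (ρ / 2) z) ∧ ‖fderiv ℝ φ x‖ ≤ 1 ∧
      |(Δ φ) x| ≤ (4 + 2 * n) / ρ ∧ (x ∈ frontier D → fderiv ℝ φ x (N x) = 1) := by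
  have hρ := h.pos
  have hs : 0 < ρ / 2 := by linarith
  obtain ⟨hE1, -, -, hEa, hE2, hE3, hE4⟩ := Ec_facts hs
  obtain ⟨y, hy, hxy⟩ := h.nearest hne hx
  set d := infDist x (frontier D) with hd
  have hd0 : 0 ≤ d := infDist_nonneg
  have hν := h.unit y hy
  have hn := n_pos_ExTouchB hν
  set c := y + ρ • N y with hc
  have hxc : x - c = -((ρ + d) • N y) := by
    rw [hxy, hc, add_smul]
    abel
  have hpos : 0 < ρ + d := by linarith
  have hnorm : ‖x - c‖ = ρ + d := by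
    rw [hxc, norm_neg, norm_smul, hν, mul_one, Real.norm_eq_abs, abs_of_nonneg hpos.le]
  have hne' : x ≠ c := by
    intro he
    rw [he, sub_self, norm_zero] at hnorm
    linarith
  set η : ℝ → ℝ := fun r => Ec (ρ / 2) (r - ρ) with hη
  have hηc : ContDiff ℝ 2 η := hE1.comp (contDiff_id.sub contDiff_const)
  obtain ⟨r1, r2, r3⟩ := radial (n := n) (c := c) (x := x) (η := η) hne' hηc.contDiffAt
  have hd1 : deriv η = fun r => deriv (Ec (ρ / 2)) (r - ρ) := by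
    funext r
    exact deriv_comp_sub_const _ _ _
  have hd2 : deriv (deriv η) = fun r => deriv (deriv (Ec (ρ / 2))) (r - ρ) := by
    funext r
    rw [hd1, deriv_comp_sub_const]
  have v1 : deriv η ‖x - c‖ = -((max 0 (ρ / 2 - d)) ^ 2 / (ρ / 2) ^ 2) := by
    rw [hd1, hnorm]
    simp only
    rw [hE2, show ρ + d - ρ = d by ring]
    ring
  have v2 : deriv (deriv η) ‖x - c‖ = 2 * max 0 (ρ / 2 - d) / (ρ / 2) ^ 2 := by
    rw [hd2, hnorm]
    simp only
    rw [hE3, show ρ + d - ρ = d by ring]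
  obtain ⟨m1, m2, m3, m4⟩ := max_ExTouchB hs hd0
  refine ⟨fun z => η ‖z - c‖, r1, ?_, ?_, ?_, ?_, ?_⟩
  · simp only [hη, Ed]
    rw [hnorm, ← hd]
    congr 1
    ring
  · filter_upwards [self_mem_nhdsWithin] with z hz
    exact hEa (infDist_le_ext hρ (h.ext y hy) hz)
  · refine ContinuousLinearMap.opNorm_le_bound _ zero_le_one fun w => ?_
    rw [r3, v1, Real.norm_eq_abs, abs_mul, abs_neg, abs_of_nonneg m2, abs_div, abs_norm, one_mul]
    have h1 : |inner ℝ (x - c) w| / ‖x - c‖ ≤ ‖w‖ := by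
      rw [div_le_iff₀ (by rw [hnorm]; exact hpos)]
      have := abs_real_inner_le_norm (x - c) w
      linarith
    have h0 : 0 ≤ |inner ℝ (x - c) w| / ‖x - c‖ := by positivity
    nlinarith
  · rw [r2, v1, v2, hnorm]
    have h2 : 2 / (ρ / 2) = 4 / ρ := by field_simp; norm_num
    have h3 : ((n : ℝ) - 1) / (ρ + d) ≤ 2 * (n - 1) / ρ := by
      rw [div_le_div_iff₀ hpos hρ]
      nlinarith
    have h4 : 0 ≤ ((n : ℝ) - 1) / (ρ + d) := div_nonneg (by linarith) hpos.le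
    have h5 : ((n : ℝ) - 1) / (ρ + d) * ((max 0 (ρ / 2 - d)) ^ 2 / (ρ / 2) ^ 2) ≤ 2 * (n - 1) / ρ := by
      nlinarith
    have h6 : 0 ≤ ((n : ℝ) - 1) / (ρ + d) * ((max 0 (ρ / 2 - d)) ^ 2 / (ρ / 2) ^ 2) := mul_nonneg h4 m2
    have h7 : (4 + 2 * (n : ℝ)) / ρ = 4 / ρ + 2 * (n - 1) / ρ + 2 / ρ := by ring
    have h8 : 0 < 2 / ρ := by positivity
    have h9 : 0 ≤ 2 * ((n : ℝ) - 1) / ρ := div_nonneg (by linarith) hρ.le
    have h10 : 0 < 4 / ρ := by positivity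
    rw [abs_le, h7, mul_neg]
    constructor <;> linarith
  · intro hfr
    have hd' : d = 0 := infDist_zero_of_mem hfr
    have hxy' : x = y := by rw [hxy, hd', zero_smul, sub_zero]
    rw [r3, v1, hnorm, hxc, hd', hxy', inner_neg_left, real_inner_smul_left, real_inner_self_eq_norm_sq, hν]
    have : max 0 (ρ / 2 - 0) = ρ / 2 := by rw [sub_zero]; exact max_eq_right hs.le
    rw [this]
    field_simp

end Pool.Agent.Lib.MP_188651_an
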