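import Pool.Agent.Lib.MP_188651_an.ExTouchA
import Pool.Agent.Lib.MP_188651_an.ExTouchB
import Pool.Agent.Lib.MP_188651_an.ExLapA

/-!
# Boundary Lipschitz estimate: first point on the boundary
-/

open Set Filter Metric Topology InnerProductSpace Laplacian

namespace Pool.Agent.Lib.MP_188651_an

variable {n : ℕ} {ρ α s₀ L δ : ℝ} {D : Set (EE n)} {N : EE n → EE n} {u : EE n → ℝ}

theorem om_facts (hs₀ : 0 < s₀) (hL : 0 < L) {s : ℝ} (h0 : 0 ≤ s) (h1 : s ≤ s₀) :
    0 ≤ om L s₀ s ∧ om L s₀ s ≤ L * s ∧ L * s / 2 ≤ om L s₀ s ∧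
      HasDerivAt (om L s₀) (L * (1 - s / s₀)) s ∧ L * (1 - s / s₀) * s ≤ om L s₀ s := by
  have h2 : 0 ≤ s ^ 2 / (2 * s₀) := by positivity
  have h3 : s ^ 2 / (2 * s₀) ≤ s / 2 := by
    rw [div_le_iff₀ (by positivity)]
    nlinarith
  have h4 : L * s / 2 ≤ om L s₀ s := by
    unfold om
    nlinarith
  refine ⟨le_trans (by positivity) h4, ?_, h4, ?_, ?_⟩
  · unfold om
    nlinarith
  · have h5 : HasDerivAt (fun s : ℝ => L * (s - s ^ 2 / (2 * s₀)))
        (L * (1 - (2 : ℕ) * s ^ (2 - 1) * 1 / (2 * s₀))) s :=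
      ((hasDerivAt_id s).sub (((hasDerivAt_id s).pow 2).div_const (2 * s₀))).const_mul L
    have h6 : L * (1 - (2 : ℕ) * s ^ (2 - 1) * 1 / (2 * s₀)) = L * (1 - s / s₀) := by
      congr 2
      norm_num
      field_simp
    rw [h6] at h5
    exact h5
  · unfold om
    have h7 : L * (1 - s / s₀) * s = L * (s - 2 * (s ^ 2 / (2 * s₀))) := by
      field_simp
    rw [h7]
    nlinarith

/-- derivative of the comparison function in the normal direction -/
theorem Rf_ExLipA (h : BD ρ D N) (hs₀ : 0 < s₀) (hL : 0 < L) (hδ : 0 < δ)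
    {y x' : EE n} (hy : y ∈ frontier D) (hx' : x' ∈ closure D) (hne : y ≠ x') (hs : ‖y - x'‖ < s₀)
    {E : EE n → ℝ} (hE : ContDiffAt ℝ 2 E y) (hEy : E y = Ed D (ρ / 2) y)
    (hEN : fderiv ℝ E y (N y) = 1) (c : ℝ) :
    ContDiffAt ℝ 2 (fun z => om L s₀ ‖z - x'‖ * (1 + 1 / ρ * (E z + Ed D (ρ / 2) x')) +
      δ * (hh z + 2 * E z + c)) y ∧
    0 < fderiv ℝ (fun z => om L s₀ ‖z - x'‖ * (1 + 1 / ρ * (E z + Ed D (ρ / 2) x')) +
      δ * (hh z + 2 * E z + c)) y (N y) := by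
  have hρ := h.pos
  have hspos : 0 < ‖y - x'‖ := norm_pos_iff.2 (sub_ne_zero.2 hne)
  obtain ⟨ho1, -, -, ho2, ho3⟩ := om_facts hs₀ hL hspos.le hs.le
  have homC : ContDiffAt ℝ 2 (om L s₀) ‖y - x'‖ := by
    unfold om
    fun_prop
  obtain ⟨hr1, -, hr3⟩ := radial hne homC
  obtain ⟨hh1, -, hh3⟩ := hh_facts y
  have hhC : ContDiffAt ℝ 2 (hh : EE n → ℝ) y := hh1.contDiffAt
  refine ⟨?_, ?_⟩
  · exact (hr1.mul (contDiffAt_const.add (contDiffAt_const.mul (hE.add contDiffAt_const)))).add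
      (contDiffAt_const.mul ((hhC.add (contDiffAt_const.mul hE)).add contDiffAt_const))
  have hrD := (hr1.differentiableAt (by norm_num)).hasFDerivAt
  have hED := (hE.differentiableAt (by norm_num)).hasFDerivAt
  have hhD := (hhC.differentiableAt (by norm_num)).hasFDerivAt
  have hD := (hrD.mul (((hED.add_const (Ed D (ρ / 2) x')).const_mul (1 / ρ)).const_add 1)).add
    (((hhD.add (hED.const_mul 2)).add_const c).const_mul δ)
  have hD2 : fderiv ℝ (fun z => om L s₀ ‖z - x'‖ * (1 + 1 / ρ * (E z + Ed D (ρ / 2) x')) +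
      δ * (hh z + 2 * E z + c)) y (N y) =
      om L s₀ ‖y - x'‖ * (1 / ρ) + (1 + 1 / ρ * (Ed D (ρ / 2) y + Ed D (ρ / 2) x')) *
        (L * (1 - ‖y - x'‖ / s₀) * (inner ℝ (y - x') (N y) / ‖y - x'‖)) +
      δ * (fderiv ℝ (hh : EE n → ℝ) y (N y) + 2) := by
    have h5 := hD.fderiv
    have h6 : fderiv ℝ (fun z => om L s₀ ‖z - x'‖ * (1 + 1 / ρ * (E z + Ed D (ρ / 2) x')) +
      δ * (hh z + 2 * E z + c)) y = _ := h5
    rw [h6]
    simp only [ContinuousLinearMap.add_apply, ContinuousLinearMap.smul_apply, smul_eq_mul, hEN,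
      hr3 (N y), ho2.deriv, hEy]
    ring
  rw [hD2]
  have hN : ‖N y‖ = 1 := h.unit y hy
  have hgrad : -1 ≤ fderiv ℝ (hh : EE n → ℝ) y (N y) := by
    have h5 := (fderiv ℝ (hh : EE n → ℝ) y).le_opNorm (N y)
    rw [hN, mul_one, Real.norm_eq_abs] at h5
    have h6 := neg_abs_le (fderiv ℝ (hh : EE n → ℝ) y (N y))
    linarith
  have hin : -(‖y - x'‖ / (2 * ρ)) ≤ inner ℝ (y - x') (N y) / ‖y - x'‖ := by
    have h5 := h.inner_le hy hx'
    rw [le_div_iff₀ hspos]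
    have h6 : inner ℝ (x' - y) (N y) = -inner ℝ (y - x') (N y) := by
      rw [← inner_neg_left]
      congr 1
      abel
    rw [h6, norm_sub_rev] at h5
    have h7 : -(‖y - x'‖ / (2 * ρ)) * ‖y - x'‖ = -(‖y - x'‖ ^ 2 / (2 * ρ)) := by ring
    rw [h7, neg_le, le_div_iff₀ (by positivity)]
    linarith
  obtain ⟨-, he1, he2, -⟩ := Ed_facts (D := D) (s₁ := ρ / 2) (by positivity)
  set s := ‖y - x'‖ with hsdef
  set Q := 1 + 1 / ρ * (Ed D (ρ / 2) y + Ed D (ρ / 2) x') with hQ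
  have hQ1 : 1 ≤ Q := by
    have := he1 y
    have := he1 x'
    have : 0 ≤ 1 / ρ * (Ed D (ρ / 2) y + Ed D (ρ / 2) x') := by positivity
    linarith
  have hQ2 : Q ≤ 4 / 3 := by
    have h5 := he2 y
    have h6 := he2 x'
    have h7 : 1 / ρ * (Ed D (ρ / 2) y + Ed D (ρ / 2) x') ≤ 1 / ρ * (ρ / 3) := by
      apply mul_le_mul_of_nonneg_left _ (by positivity)
      linarith
    have h8 : 1 / ρ * (ρ / 3) = 1 / 3 := by field_simp
    linarith
  have hw : 0 ≤ L * (1 - s / s₀) := by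
    have : s / s₀ ≤ 1 := (div_le_one hs₀).2 hs.le
    apply mul_nonneg hL.le
    linarith
  set w := L * (1 - s / s₀) with hwdef
  have h9 : -(w * s * (4 / 3) / (2 * ρ)) ≤ Q * (w * (inner ℝ (y - x') (N y) / s)) := by
    have h10 : Q * (w * (-(s / (2 * ρ)))) ≤ Q * (w * (inner ℝ (y - x') (N y) / s)) := by
      apply mul_le_mul_of_nonneg_left _ (by linarith)
      exact mul_le_mul_of_nonneg_left hin hw
    refine le_trans ?_ h10
    have h11 : Q * (w * (-(s / (2 * ρ)))) = -(w * s * Q / (2 * ρ)) := by ring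
    rw [h11, neg_le_neg_iff]
    apply div_le_div_of_nonneg_right _ (by positivity)
    exact mul_le_mul_of_nonneg_left hQ2 (mul_nonneg hw hspos.le)
  have h12 : w * s * (4 / 3) / (2 * ρ) ≤ om L s₀ s * (1 / ρ) := by
    have h13 : w * s * (4 / 3) / (2 * ρ) = (w * s) * (2 / 3) * (1 / ρ) := by
      field_simp
      ring
    rw [h13]
    apply mul_le_mul_of_nonneg_right _ (by positivity)
    nlinarith [mul_nonneg hw hspos.le]
  have h14 : δ ≤ δ * (fderiv ℝ (hh : EE n → ℝ) y (N y) + 2) := by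
    nlinarith
  linarith

theorem exp_mul_ExLipA {y ν : EE n} {E R : EE n → ℝ} (hE : ContDiffAt ℝ 2 E y) (hR : ContDiffAt ℝ 2 R y)
    (hEN : fderiv ℝ E y ν = 1) :
    ContDiffAt ℝ 2 (fun z => Real.exp (-(E z) / α) * R z) y ∧
    fderiv ℝ (fun z => Real.exp (-(E z) / α) * R z) y ν =
      Real.exp (-(E y) / α) * (fderiv ℝ R y ν - R y / α) := by
  refine ⟨((hE.neg.div_const α).exp).mul hR, ?_⟩
  have hED := (hE.differentiableAt (by norm_num)).hasFDerivAt
  have hRD := (hR.differentiableAt (by norm_num)).hasFDerivAt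
  have h1 := ((hED.neg.const_mul (1 / α)).exp).mul hRD
  have h2 : (fun z => Real.exp (-(E z) / α) * R z) = fun z => Real.exp (1 / α * -(E z)) * R z := by
    funext z
    congr 2
    ring
  rw [h2]
  have h5 := h1.fderiv
  have h6 : fderiv ℝ (fun z => Real.exp (1 / α * -(E z)) * R z) y = _ := h5
  rw [h6]
  have h7 : -(E y) / α = 1 / α * -(E y) := by ring
  simp only [ContinuousLinearMap.add_apply, ContinuousLinearMap.smul_apply, smul_eq_mul, hEN,
    ContinuousLinearMap.neg_apply, h7, Pi.neg_apply]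
  ring

theorem lipbd_left (h : BD ρ D N) (hne : (frontier D).Nonempty) (hα : 0 < α)
    (hu0 : ∀ x ∈ closure D, 0 ≤ u x) (hub : BSub D N α u) (hs₀ : 0 < s₀) (hL : 0 < L) (hδ : 0 < δ)
    {x x' : EE n} (hx : x ∈ frontier D) (hx' : x' ∈ closure D) (hxx : x ≠ x') (hs : ‖x - x'‖ < s₀)
    (hpos : 0 < Phi D ρ α s₀ L δ u x x')
    (hmax : ∀ᶠ z in 𝓝[closure D] x, Phi D ρ α s₀ L δ u z x' ≤ Phi D ρ α s₀ L δ u x x') : False := by
  have hρ := h.pos
  have hxc : x ∈ closure D := frontier_subset_closure hx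
  obtain ⟨Eu, hu1, hu2, hu3, -, -, hu6⟩ := touch_above h hne hxc
  obtain ⟨El, hl1, hl2, hl3, -, -, hl6⟩ := touch_below h hne hxc
  obtain ⟨-, he1, he2, -⟩ := Ed_facts (D := D) (s₁ := ρ / 2) (by positivity)
  obtain ⟨hF1, hF2⟩ := Rf_ExLipA (L := L) (δ := δ) h hs₀ hL hδ hx hx' hxx hs hu1 hu2 (hu6 hx)
    (hh x' + 2 * Ed D (ρ / 2) x')
  set F : EE n → ℝ := fun z => om L s₀ ‖z - x'‖ * (1 + 1 / ρ * (Eu z + Ed D (ρ / 2) x')) +
      δ * (hh z + 2 * Eu z + (hh x' + 2 * Ed D (ρ / 2) x')) with hF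
  set C : ℝ := Phi D ρ α s₀ L δ u x x' + u x' * Real.exp (Ed D (ρ / 2) x' / α) with hC
  have hCpos : 0 < C := by
    have := mul_nonneg (hu0 x' hx') (Real.exp_pos (Ed D (ρ / 2) x' / α)).le
    linarith
  have hRC : ContDiffAt ℝ 2 (fun z => C + F z) x := contDiffAt_const.add hF1
  have hRD : fderiv ℝ (fun z => C + F z) x = fderiv ℝ F x := by
    rw [fderiv_const_add]
  obtain ⟨hφ1, hφ2⟩ := exp_mul_ExLipA (α := α) (ν := N x) hl1 hRC (hl6 hx)
  rw [hRD] at hφ2
  have hCF : u x * Real.exp (Ed D (ρ / 2) x / α) = C + F x := by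
    rw [hC, hF]
    simp only [hu2]
    unfold Phi
    ring
  have hval : Real.exp (-(El x) / α) * (C + F x) = u x := by
    rw [← hCF, hl2]
    have h1 : Real.exp (-Ed D (ρ / 2) x / α) * (u x * Real.exp (Ed D (ρ / 2) x / α)) =
        u x * (Real.exp (-Ed D (ρ / 2) x / α) * Real.exp (Ed D (ρ / 2) x / α)) := by ring
    rw [h1, ← Real.exp_add, neg_div, neg_add_cancel, Real.exp_zero, mul_one]
  have htouch : TouchA (closure D) u (fun z => Real.exp (-(El z) / α) * (C + F z)) x := by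
    refine ⟨hφ1, hval, ?_⟩
    have hnear : ∀ᶠ z in 𝓝[closure D] x, ‖z - x'‖ < s₀ := by
      apply mem_nhdsWithin_of_mem_nhds
      exact (isOpen_lt (by fun_prop) continuous_const).mem_nhds hs
    filter_upwards [hmax, hu3, hl3, hnear, self_mem_nhdsWithin] with z h1 h2 h3 h4 hz
    obtain ⟨ho1, -⟩ := om_facts hs₀ hL (norm_nonneg (z - x')) h4.le
    have hEz := he1 z
    have hEx' := he1 x'
    have hhz : 0 ≤ hh z := Real.sqrt_nonneg _
    have hhx' : 0 ≤ hh x' := Real.sqrt_nonneg _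
    have h5 : om L s₀ ‖z - x'‖ * (1 + 1 / ρ * (Ed D (ρ / 2) z + Ed D (ρ / 2) x')) ≤
        om L s₀ ‖z - x'‖ * (1 + 1 / ρ * (Eu z + Ed D (ρ / 2) x')) := by
      apply mul_le_mul_of_nonneg_left _ ho1
      have : 1 / ρ * (Ed D (ρ / 2) z + Ed D (ρ / 2) x') ≤ 1 / ρ * (Eu z + Ed D (ρ / 2) x') :=
        mul_le_mul_of_nonneg_left (by linarith) (by positivity)
      linarith
    have h6 : δ * (hh z + 2 * Ed D (ρ / 2) z + (hh x' + 2 * Ed D (ρ / 2) x')) ≤
        δ * (hh z + 2 * Eu z + (hh x' + 2 * Ed D (ρ / 2) x')) :=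
      mul_le_mul_of_nonneg_left (by linarith) hδ.le
    have h7 : u z * Real.exp (Ed D (ρ / 2) z / α) ≤ C + F z := by
      have h8 : u z * Real.exp (Ed D (ρ / 2) z / α) = Phi D ρ α s₀ L δ u z x' +
          u x' * Real.exp (Ed D (ρ / 2) x' / α) +
          om L s₀ ‖z - x'‖ * (1 + 1 / ρ * (Ed D (ρ / 2) z + Ed D (ρ / 2) x')) +
          δ * (hh z + 2 * Ed D (ρ / 2) z + (hh x' + 2 * Ed D (ρ / 2) x')) := by
        unfold Phi
        ring
      rw [h8, hC, hF]
      simp only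
      linarith
    have h9 : 0 ≤ C + F z := le_trans (mul_nonneg (hu0 z hz) (Real.exp_pos _).le) h7
    have h10 : u z = Real.exp (-(Ed D (ρ / 2) z) / α) * (u z * Real.exp (Ed D (ρ / 2) z / α)) := by
      have h1 : Real.exp (-Ed D (ρ / 2) z / α) * (u z * Real.exp (Ed D (ρ / 2) z / α)) =
        u z * (Real.exp (-Ed D (ρ / 2) z / α) * Real.exp (Ed D (ρ / 2) z / α)) := by ring
      rw [h1, ← Real.exp_add, neg_div, neg_add_cancel, Real.exp_zero, mul_one]
    calc u z = Real.exp (-(Ed D (ρ / 2) z) / α) * (u z * Real.exp (Ed D (ρ / 2) z / α)) := h10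
      _ ≤ Real.exp (-(Ed D (ρ / 2) z) / α) * (C + F z) :=
          mul_le_mul_of_nonneg_left h7 (Real.exp_pos _).le
      _ ≤ Real.exp (-(El z) / α) * (C + F z) := by
          apply mul_le_mul_of_nonneg_right _ h9
          apply Real.exp_le_exp.2
          apply div_le_div_of_nonneg_right _ hα.le
          linarith
  have hfin := hub x hx _ htouch
  rw [hφ2] at hfin
  have h11 : u x + α * (Real.exp (-(El x) / α) * (fderiv ℝ F x (N x) - (C + F x) / α)) =
      α * (Real.exp (-(El x) / α) * fderiv ℝ F x (N x)) := by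
    have : α * (Real.exp (-(El x) / α) * (fderiv ℝ F x (N x) - (C + F x) / α)) =
      α * (Real.exp (-(El x) / α) * fderiv ℝ F x (N x)) - Real.exp (-(El x) / α) * (C + F x) := by
      field_simp
    rw [this, hval]
    ring
  rw [h11] at hfin
  have : 0 < α * (Real.exp (-(El x) / α) * fderiv ℝ F x (N x)) := by positivity
  linarith

end Pool.Agent.Lib.MP_188651_an
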