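import Pool.Agent.Lib.MP_188651_an.ExEc
import Pool.Agent.Lib.MP_188651_an.Cpt

/-!
# Maximum points of Phi
-/

open Set Filter Metric Topology InnerProductSpace Laplacian

namespace Pool.Agent.Lib.MP_188651_an

private theorem hh_ge_norm_ExLipM {n : ℕ} (x : EE n) : ‖x‖ ≤ hh x := by
  unfold hh
  exact Real.le_sqrt_of_sq_le (by linarith)

/-- existence of maximum points of `Phi` -/
theorem exists_max_Phi {n : ℕ} {ρ α s₀ L δ : ℝ} (hρ : 0 < ρ) (hα : 0 < α) (hs₀ : 0 < s₀) (hL : 0 < L) (hδ : 0 < δ)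
    {D : Set (EE n)} {u : EE n → ℝ} (hu : ContinuousOn u (closure D))
    (hu01 : ∀ z ∈ closure D, 0 ≤ u z ∧ u z ≤ 1) (hne : D.Nonempty) :
    ∃ x ∈ closure D, ∃ x' ∈ closure D, ‖x - x'‖ ≤ s₀ ∧ ∀ z ∈ closure D, ∀ z' ∈ closure D, ‖z - z'‖ ≤ s₀ →
      Phi D ρ α s₀ L δ u z z' ≤ Phi D ρ α s₀ L δ u x x' := by
  obtain ⟨x0, hx0⟩ := hne
  have hx0' : x0 ∈ closure D := subset_closure hx0
  obtain ⟨hEc, he1, he2, -⟩ := Ed_facts (D := D) (s₁ := ρ / 2) (by positivity)
  set m := Phi D ρ α s₀ L δ u x0 x0 with hm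
  set R := max ‖x0‖ ((Real.exp (ρ / α) - m) / δ) with hR
  have hbound : ∀ z ∈ closure D, ∀ z' ∈ closure D, ‖z - z'‖ ≤ s₀ →
      m ≤ Phi D ρ α s₀ L δ u z z' → ‖z‖ ≤ R ∧ ‖z'‖ ≤ R := by
    intro z hz z' hz' hs hmz
    have h1 : u z * Real.exp (Ed D (ρ / 2) z / α) ≤ Real.exp (ρ / α) := by
      have h2 : Real.exp (Ed D (ρ / 2) z / α) ≤ Real.exp (ρ / α) := by
        apply Real.exp_le_exp.2
        apply div_le_div_of_nonneg_right _ hα.le
        have := he2 z
        linarith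
      have h3 := (hu01 z hz).2
      have h4 := (hu01 z hz).1
      calc u z * Real.exp (Ed D (ρ / 2) z / α) ≤ 1 * Real.exp (ρ / α) :=
            mul_le_mul h3 h2 (Real.exp_pos _).le zero_le_one
        _ = _ := one_mul _
    have h5 : 0 ≤ u z' * Real.exp (Ed D (ρ / 2) z' / α) :=
      mul_nonneg (hu01 z' hz').1 (Real.exp_pos _).le
    have h6 : 0 ≤ om L s₀ ‖z - z'‖ := by
      unfold om
      apply mul_nonneg hL.le
      have h7 : ‖z - z'‖ ^ 2 / (2 * s₀) ≤ ‖z - z'‖ / 2 := by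
        rw [div_le_iff₀ (by positivity)]
        nlinarith [norm_nonneg (z - z')]
      have := norm_nonneg (z - z')
      linarith
    have h8 := he1 z
    have h9 := he1 z'
    have h10 : 0 ≤ om L s₀ ‖z - z'‖ * (1 + 1 / ρ * (Ed D (ρ / 2) z + Ed D (ρ / 2) z')) := by
      positivity
    have h11 := hh_ge_norm_ExLipM z
    have h12 := hh_ge_norm_ExLipM z'
    have h13 := norm_nonneg z
    have h14 := norm_nonneg z'
    have h15 : m ≤ u z * Real.exp (Ed D (ρ / 2) z / α) - u z' * Real.exp (Ed D (ρ / 2) z' / α) -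
        om L s₀ ‖z - z'‖ * (1 + 1 / ρ * (Ed D (ρ / 2) z + Ed D (ρ / 2) z')) -
        δ * (hh z + 2 * Ed D (ρ / 2) z + (hh z' + 2 * Ed D (ρ / 2) z')) := hmz
    have h16 : δ * (‖z‖ + ‖z'‖) ≤
        δ * (hh z + 2 * Ed D (ρ / 2) z + (hh z' + 2 * Ed D (ρ / 2) z')) :=
      mul_le_mul_of_nonneg_left (by linarith) hδ.le
    have h17 : ‖z‖ + ‖z'‖ ≤ (Real.exp (ρ / α) - m) / δ := by
      rw [le_div_iff₀ hδ]
      linarith
    constructor
    · exact le_trans (by linarith) (le_max_right _ _)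
    · exact le_trans (by linarith) (le_max_right _ _)
  let K : Set (EE n × EE n) := (closedBall 0 R ×ˢ closedBall 0 R) ∩
    ((closure D ×ˢ closure D) ∩ {p | ‖p.1 - p.2‖ ≤ s₀})
  have hK : IsCompact K :=
    ((isCompact_closedBall (0 : EE n) R).prod (isCompact_closedBall (0 : EE n) R)).inter_right
      ((isClosed_closure.prod isClosed_closure).inter (isClosed_le (by fun_prop) continuous_const))
  have hmemK : ∀ z ∈ closure D, ∀ z' ∈ closure D, ‖z - z'‖ ≤ s₀ → ‖z‖ ≤ R → ‖z'‖ ≤ R →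
      (z, z') ∈ K := by
    intro z hz z' hz' hs h1 h2
    exact ⟨⟨mem_closedBall_zero_iff.2 h1, mem_closedBall_zero_iff.2 h2⟩, ⟨hz, hz'⟩, hs⟩
  have h00 : (x0, x0) ∈ K := hmemK x0 hx0' x0 hx0' (by simp [hs₀.le]) (le_max_left _ _)
    (le_max_left _ _)
  have hcont : ContinuousOn (fun p : EE n × EE n => Phi D ρ α s₀ L δ u p.1 p.2) K := by
    have hu1 : ContinuousOn (fun p : EE n × EE n => u p.1) K :=
      hu.comp continuous_fst.continuousOn fun p hp => hp.2.1.1
    have hu2 : ContinuousOn (fun p : EE n × EE n => u p.2) K :=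
      hu.comp continuous_snd.continuousOn fun p hp => hp.2.1.2
    have hE1 : Continuous (fun p : EE n × EE n => Ed D (ρ / 2) p.1) := hEc.comp continuous_fst
    have hE2 : Continuous (fun p : EE n × EE n => Ed D (ρ / 2) p.2) := hEc.comp continuous_snd
    have hh1 : Continuous (fun p : EE n × EE n => hh p.1) := continuous_hh.comp continuous_fst
    have hh2 : Continuous (fun p : EE n × EE n => hh p.2) := continuous_hh.comp continuous_snd
    have hexp1 : Continuous (fun p : EE n × EE n => Real.exp (Ed D (ρ / 2) p.1 / α)) :=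
      Real.continuous_exp.comp (hE1.div_const α)
    have hexp2 : Continuous (fun p : EE n × EE n => Real.exp (Ed D (ρ / 2) p.2 / α)) :=
      Real.continuous_exp.comp (hE2.div_const α)
    have hom : Continuous (fun p : EE n × EE n => om L s₀ ‖p.1 - p.2‖) := by
      unfold om
      fun_prop
    have hA : Continuous (fun p : EE n × EE n => om L s₀ ‖p.1 - p.2‖ *
        (1 + 1 / ρ * (Ed D (ρ / 2) p.1 + Ed D (ρ / 2) p.2))) :=
      hom.mul (continuous_const.add (continuous_const.mul (hE1.add hE2)))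
    have hB : Continuous (fun p : EE n × EE n =>
        δ * (hh p.1 + 2 * Ed D (ρ / 2) p.1 + (hh p.2 + 2 * Ed D (ρ / 2) p.2))) :=
      continuous_const.mul ((hh1.add (continuous_const.mul hE1)).add
        (hh2.add (continuous_const.mul hE2)))
    exact (((hu1.mul hexp1.continuousOn).sub (hu2.mul hexp2.continuousOn)).sub
      hA.continuousOn).sub hB.continuousOn
  obtain ⟨p, hp, hmax⟩ := hK.exists_isMaxOn ⟨(x0, x0), h00⟩ hcont
  refine ⟨p.1, hp.2.1.1, p.2, hp.2.1.2, hp.2.2, fun z hz z' hz' hs => ?_⟩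
  by_cases h : m ≤ Phi D ρ α s₀ L δ u z z'
  · obtain ⟨h1, h2⟩ := hbound z hz z' hz' hs h
    exact hmax (hmemK z hz z' hz' hs h1 h2)
  · push Not at h
    exact h.le.trans (hmax h00)

end Pool.Agent.Lib.MP_188651_an
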