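import Pool.Agent.Lib.MP_188651_an.ExNDb

/-!
# Normal derivative: boundary step
-/

open Set Filter Metric Topology InnerProductSpace Laplacian

namespace Pool.Agent.Lib.MP_188651_an

variable {n : ℕ} {ρ L Λ h K₀ : ℝ} {D : Set (EE n)} {N : EE n → EE n}

private theorem ndc_hasFDerivAt_dep (y ν x : EE n) :
    HasFDerivAt (dep y ν) (-(innerSL ℝ ν)) x := by
  have h1 : HasFDerivAt (fun z : EE n => inner ℝ ν y - innerSL ℝ ν z) (0 - innerSL ℝ ν) x :=
    (hasFDerivAt_const _ _).sub (innerSL ℝ ν).hasFDerivAt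
  have e : dep y ν = fun z : EE n => inner ℝ ν y - innerSL ℝ ν z := by
    funext z
    unfold dep
    rw [innerSL_apply_apply, inner_sub_left, real_inner_comm ν y, real_inner_comm ν z]
  rw [e]
  simpa using h1

private theorem ndc_contDiff_dep (y ν : EE n) : ContDiff ℝ 2 (dep y ν) := by
  unfold dep
  exact ContDiff.inner ℝ (contDiff_const.sub contDiff_id) contDiff_const

private theorem ndc_contDiff_tan2 (y ν : EE n) : ContDiff ℝ 2 (tan2 y ν) := by
  unfold tan2
  exact ((contDiff_id.sub contDiff_const).norm_sq ℝ).sub ((ndc_contDiff_dep y ν).pow 2)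

private theorem ndc_hasFDerivAt_tan2 (y ν x : EE n) :
    HasFDerivAt (tan2 y ν)
      ((2 : ℝ) • innerSL ℝ (x - y) + (2 * dep y ν x) • innerSL ℝ ν) x := by
  have h1 : HasFDerivAt (fun z : EE n => z - y) (ContinuousLinearMap.id ℝ (EE n)) x :=
    (hasFDerivAt_id x).sub_const y
  have h2 := h1.norm_sq
  have h3 := (ndc_hasFDerivAt_dep y ν x).pow 2
  have h4 := h2.sub h3
  refine HasFDerivAt.congr_fderiv h4 ?_
  ext w
  simp

theorem nd_bdy (hD : BD ρ D N) {y : EE n} (hy : y ∈ frontier D) (hh : 0 < h) {v : EE n → ℝ}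
    (hb : ∀ y' ∈ frontier D, ∀ φ : EE n → ℝ, TouchB (closure D) v φ y' → -(K₀ * ‖y' - y‖) ≤ fderiv ℝ φ y' (N y'))
    {x : EE n} {l : ℝ} (hl : 0 < l) (hx' : x + l • N y ∈ frontier D) (hdiff : ContDiffAt ℝ 2 v x)
    (hgrad : ‖fderiv ℝ v x‖ ≤ L)
    (hmax : ∀ᶠ z in 𝓝[closure D] (x + l • N y), PsiN L Λ ρ h v y (N y)
      (z - (dep y (N y) x - dep y (N y) z) • N y) (dep y (N y) x - dep y (N y) z) ≤ PsiN L Λ ρ h v y (N y) x l) :
    (2 * ((L + 1) / h ^ 2 + n / h + Λ + 1) * (dep y (N y) x - l) + (2 * (L + 1) ^ 2 / ρ + 2) * h) *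
      inner ℝ (N y) (N (x + l • N y)) ≤
    (L + 2 * √(tan2 y (N y) x) / h) * ‖N (x + l • N y) - N y‖ + K₀ * ‖x + l • N y - y‖ := by
  have hν := hD.unit y hy
  have hν' := hD.unit _ hx'
  obtain ⟨hp0, hp1, hd1, hsq⟩ := tan2_facts (y := y) hν x l
  set ν : EE n := N y with hνdef
  set x' : EE n := x + l • ν with hx'def
  set t : ℝ := dep y ν x with ht
  set s : ℝ := t - l with hs
  set p : ℝ := tan2 y ν x with hp
  set P : ℝ := PsiN L Λ ρ h v y ν x l with hP
  set w : EE n := N x' with hw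
  -- the projection
  let Xz : EE n → EE n := fun z => z - (t - dep y ν z) • ν
  have hX : HasFDerivAt Xz (ContinuousLinearMap.id ℝ (EE n) - (innerSL ℝ ν).smulRight ν) x' := by
    have h1 : HasFDerivAt (fun z : EE n => (t - dep y ν z) • ν)
        ((innerSL ℝ ν).smulRight ν) x' := by
      have h2 : HasFDerivAt (fun z : EE n => t - dep y ν z) (innerSL ℝ ν) x' := by
        have h3 : HasFDerivAt (fun z : EE n => t - dep y ν z)
            (0 - -(innerSL ℝ ν)) x' := (hasFDerivAt_const t x').sub (ndc_hasFDerivAt_dep y ν x')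
        rw [sub_neg_eq_add, zero_add] at h3
        exact h3
      exact h2.smul_const ν
    exact (hasFDerivAt_id x').sub h1
  have hXx' : Xz x' = x := by
    show x' - (t - dep y ν x') • ν = x
    rw [hd1, hx'def, hs]
    have : t - (t - l) = l := by ring
    rw [this]
    abel
  have hXC : ContDiff ℝ 2 Xz :=
    contDiff_id.sub ((contDiff_const.sub (ndc_contDiff_dep y ν)).smul contDiff_const)
  have hdepX : ∀ z, dep y ν (Xz z) = t := by
    intro z
    show dep y ν (z - (t - dep y ν z) • ν) = t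
    have := (tan2_facts (y := y) hν z (-(t - dep y ν z))).2.2.1
    rw [neg_smul, ← sub_eq_add_neg] at this
    rw [this]; ring
  have htanX : ∀ z, tan2 y ν (Xz z) = tan2 y ν z := by
    intro z
    show tan2 y ν (z - (t - dep y ν z) • ν) = tan2 y ν z
    have := (tan2_facts (y := y) hν z (-(t - dep y ν z))).2.1
    rw [neg_smul, ← sub_eq_add_neg] at this
    exact this
  let φ : EE n → ℝ := fun z => v (Xz z) - Qh n L Λ ρ h t (dep y ν z) (tan2 y ν z) - P
  have hQ : HasFDerivAt (fun z : EE n => Qh n L Λ ρ h t (dep y ν z) (tan2 y ν z))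
      (((2 * ((L + 1) / h ^ 2 + n / h + Λ + 1) * s + (2 * (L + 1) ^ 2 / ρ + 2) * h)) • innerSL ℝ ν +
        (1 / h) • ((2 : ℝ) • innerSL ℝ (x' - y) + (2 * s) • innerSL ℝ ν)) x' := by
    have h1 := ndc_hasFDerivAt_dep y ν x'
    have h2 := ndc_hasFDerivAt_tan2 y ν x'
    rw [hd1] at h2
    have h3 := h1.pow 2
    rw [hd1] at h3
    have h4 := (hasFDerivAt_const ((L + 1) / h ^ 2 * t ^ 2 +
      ((2 * (L + 1) ^ 2 / ρ + 2) + n + Λ + 1) * h * t) x').sub
        (h3.const_mul ((L + 1) / h ^ 2 + n / h + Λ + 1))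
    have h5 := h4.sub (h1.const_mul ((2 * (L + 1) ^ 2 / ρ + 2) * h))
    have h6 := h5.add (h2.mul_const (1 / h))
    have e : (fun z : EE n => Qh n L Λ ρ h t (dep y ν z) (tan2 y ν z)) =
        fun z : EE n => ((L + 1) / h ^ 2 * t ^ 2 +
          ((2 * (L + 1) ^ 2 / ρ + 2) + n + Λ + 1) * h * t) -
          ((L + 1) / h ^ 2 + n / h + Λ + 1) * (dep y ν z) ^ 2 -
          (2 * (L + 1) ^ 2 / ρ + 2) * h * dep y ν z + tan2 y ν z * (1 / h) := by
      funext z
      unfold Qh
      ring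
    rw [e]
    refine HasFDerivAt.congr_fderiv h6 ?_
    ext w
    simp
    ring
  have hvX : HasFDerivAt (fun z => v (Xz z))
      ((fderiv ℝ v x).comp (ContinuousLinearMap.id ℝ (EE n) - (innerSL ℝ ν).smulRight ν)) x' := by
    have h1 : HasFDerivAt v (fderiv ℝ v x) (Xz x') := by
      rw [hXx']
      exact (hdiff.differentiableAt (by norm_num)).hasFDerivAt
    exact h1.comp x' hX
  have hφd : HasFDerivAt φ ((fderiv ℝ v x).comp
      (ContinuousLinearMap.id ℝ (EE n) - (innerSL ℝ ν).smulRight ν) -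
      (((2 * ((L + 1) / h ^ 2 + n / h + Λ + 1) * s + (2 * (L + 1) ^ 2 / ρ + 2) * h)) •
        innerSL ℝ ν +
        (1 / h) • ((2 : ℝ) • innerSL ℝ (x' - y) + (2 * s) • innerSL ℝ ν))) x' :=
    (hvX.sub hQ).sub_const P
  have hφC : ContDiffAt ℝ 2 φ x' := by
    have h1 : ContDiffAt ℝ 2 (fun z => v (Xz z)) x' := by
      have h2 : ContDiffAt ℝ 2 v (Xz x') := by rw [hXx']; exact hdiff
      exact h2.comp x' hXC.contDiffAt
    have h2 : ContDiffAt ℝ 2 (fun z : EE n => Qh n L Λ ρ h t (dep y ν z) (tan2 y ν z)) x' := by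
      have h3 := (ndc_contDiff_dep y ν).contDiffAt (x := x')
      have h4 := (ndc_contDiff_tan2 y ν).contDiffAt (x := x')
      unfold Qh
      refine ContDiffAt.add ?_ (h4.div_const h)
      refine ContDiffAt.sub ?_ (contDiffAt_const.mul h3)
      exact contDiffAt_const.sub (contDiffAt_const.mul (h3.pow 2))
    exact (h1.sub h2).sub contDiffAt_const
  have hPval : P = v x - v x' - Qh n L Λ ρ h t s p := rfl
  have htouch : TouchB (closure D) v φ x' := by
    refine ⟨hφC, ?_, ?_⟩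
    · show v (Xz x') - Qh n L Λ ρ h t (dep y ν x') (tan2 y ν x') - P = v x'
      rw [hXx', hd1, hp1, hPval]
      ring
    · filter_upwards [hmax] with z hz
      have e1 : PsiN L Λ ρ h v y ν (z - (t - dep y ν z) • ν) (t - dep y ν z) =
          v (Xz z) - v z - Qh n L Λ ρ h t (dep y ν z) (tan2 y ν z) := by
        unfold PsiN
        have e2 : z - (t - dep y ν z) • ν + (t - dep y ν z) • ν = z := by abel
        have e3 := hdepX z
        have e4 := htanX z
        change dep y ν (z - (t - dep y ν z) • ν) = t at e3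
        change tan2 y ν (z - (t - dep y ν z) • ν) = tan2 y ν z at e4
        rw [e2, e3, e4]
        have e5 : t - (t - dep y ν z) = dep y ν z := by ring
        rw [e5]
      rw [e1] at hz
      show v (Xz z) - Qh n L Λ ρ h t (dep y ν z) (tan2 y ν z) - P ≤ v z
      linarith
  have hmain := hb x' hx' φ htouch
  have hfd : fderiv ℝ φ x' w = fderiv ℝ v x (w - (inner ℝ ν w : ℝ) • ν) -
      ((2 * ((L + 1) / h ^ 2 + n / h + Λ + 1) * s + (2 * (L + 1) ^ 2 / ρ + 2) * h) * inner ℝ ν w +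
        2 / h * (inner ℝ (x' - y) w + s * inner ℝ ν w)) := by
    rw [hφd.fderiv, inner_sub_left x' y w]
    simp
    ring
  rw [← hw] at hmain
  rw [hfd] at hmain
  -- estimates
  have hc1 : ‖w - (inner ℝ ν w : ℝ) • ν‖ ≤ ‖w - ν‖ := by
    have e1 : ‖w - (inner ℝ ν w : ℝ) • ν‖ ^ 2 ≤ ‖w - ν‖ ^ 2 := by
      rw [norm_sub_sq_real, norm_sub_sq_real, norm_smul, hν, hν', real_inner_smul_right,
        real_inner_comm ν w, mul_one, Real.norm_eq_abs, sq_abs]
      nlinarith [sq_nonneg (1 - (inner ℝ ν w : ℝ))]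
    exact (sq_le_sq₀ (norm_nonneg _) (norm_nonneg _)).1 e1
  have hc2 : fderiv ℝ v x (w - (inner ℝ ν w : ℝ) • ν) ≤ L * ‖w - ν‖ := by
    have e1 := (fderiv ℝ v x).le_opNorm (w - (inner ℝ ν w : ℝ) • ν)
    have e2 := le_abs_self (fderiv ℝ v x (w - (inner ℝ ν w : ℝ) • ν))
    rw [Real.norm_eq_abs] at e1
    have e3 : ‖fderiv ℝ v x‖ * ‖w - (inner ℝ ν w : ℝ) • ν‖ ≤ L * ‖w - ν‖ := by
      have hL : 0 ≤ L := (norm_nonneg _).trans hgrad
      exact mul_le_mul hgrad hc1 (norm_nonneg _) hL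
    linarith
  have hxy : (inner ℝ (x' - y) ν : ℝ) = -s := by
    rw [← hd1]
    unfold dep
    rw [← inner_neg_left, neg_sub]
  have hc3 : -(√p * ‖w - ν‖) ≤ inner ℝ (x' - y) w + s * inner ℝ ν w := by
    have e1 : (inner ℝ (x' - y) w + s * inner ℝ ν w : ℝ) =
        inner ℝ ((x' - y) + s • ν) (w - ν) := by
      rw [inner_add_left, inner_sub_right, inner_sub_right, real_inner_smul_left,
        real_inner_smul_left, hxy, real_inner_self_eq_norm_sq, hν]
      ring
    have e2 : ‖(x' - y) + s • ν‖ ≤ √p := by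
      refine Real.le_sqrt_of_sq_le ?_
      rw [norm_add_sq_real, norm_smul, real_inner_smul_right, hxy, hν, mul_one,
        Real.norm_eq_abs, sq_abs]
      have e3 := (tan2_facts (y := y) hν x' 0).2.2.2
      rw [e3, hp1, hd1]
      nlinarith
    rw [e1]
    have e3 := abs_real_inner_le_norm ((x' - y) + s • ν) (w - ν)
    have e4 := neg_abs_le (inner ℝ ((x' - y) + s • ν) (w - ν) : ℝ)
    have e5 : ‖(x' - y) + s • ν‖ * ‖w - ν‖ ≤ √p * ‖w - ν‖ :=
      mul_le_mul_of_nonneg_right e2 (norm_nonneg _)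
    linarith
  have hc4 : -(2 / h * (inner ℝ (x' - y) w + s * inner ℝ ν w)) ≤ 2 * √p / h * ‖w - ν‖ := by
    have e1 : 0 < 2 / h := by positivity
    have e2 : 2 / h * -(√p * ‖w - ν‖) ≤ 2 / h * (inner ℝ (x' - y) w + s * inner ℝ ν w) :=
      mul_le_mul_of_nonneg_left hc3 e1.le
    have e3 : 2 * √p / h * ‖w - ν‖ = -(2 / h * -(√p * ‖w - ν‖)) := by ring
    rw [e3]
    linarith
  have hfin : (L + 2 * √p / h) * ‖w - ν‖ = L * ‖w - ν‖ + 2 * √p / h * ‖w - ν‖ := by ring
  rw [hfin]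
  linarith

end Pool.Agent.Lib.MP_188651_an
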