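import Pool.Agent.Lib.MP_188651_an.ExGeoB

/-!
# Normal derivative: geometry
-/

open Set Filter Metric Topology InnerProductSpace Laplacian

namespace Pool.Agent.Lib.MP_188651_an

variable {n : ℕ} {ρ L Λ h K₀ : ℝ} {D : Set (EE n)} {N : EE n → EE n}

theorem tan2_facts {y ν : EE n} (hν : ‖ν‖ = 1) (x : EE n) (l : ℝ) : 0 ≤ tan2 y ν x ∧
    tan2 y ν (x + l • ν) = tan2 y ν x ∧ dep y ν (x + l • ν) = dep y ν x - l ∧
    ‖x - y‖ ^ 2 = tan2 y ν x + dep y ν x ^ 2 := by
  have hdep : dep y ν (x + l • ν) = dep y ν x - l := by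
    unfold dep
    have e : y - (x + l • ν) = (y - x) - l • ν := by abel
    rw [e, inner_sub_left, real_inner_smul_left, real_inner_self_eq_norm_sq, hν]
    ring
  refine ⟨?_, ?_, hdep, ?_⟩
  · unfold tan2 dep
    have h1 := abs_real_inner_le_norm (y - x) ν
    rw [hν, mul_one, norm_sub_rev] at h1
    have h2 : (inner ℝ (y - x) ν : ℝ) ^ 2 ≤ ‖x - y‖ ^ 2 := by
      rw [← sq_abs (inner ℝ (y - x) ν : ℝ)]
      exact pow_le_pow_left₀ (abs_nonneg _) h1 2
    linarith
  · unfold tan2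
    rw [hdep]
    have e : x + l • ν - y = (x - y) + l • ν := by abel
    rw [e, norm_add_sq_real, real_inner_smul_right, norm_smul, hν, mul_one, Real.norm_eq_abs,
      sq_abs]
    have e2 : (inner ℝ (x - y) ν : ℝ) = - dep y ν x := by
      unfold dep
      rw [← inner_neg_left, neg_sub]
    rw [e2]
    ring
  · unfold tan2
    ring

theorem dep_ge (h : BD ρ D N) {x y : EE n} (hy : y ∈ frontier D) (hx : x ∈ closure D) (hd : ‖x - y‖ ≤ ρ) :
    -(tan2 y (N y) x / ρ) ≤ dep y (N y) x := by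
  have hρ := h.pos
  have hν := h.unit y hy
  obtain ⟨hp, _, _, hsq⟩ := tan2_facts hν x 0
  have h1 := h.inner_le hy hx
  have e2 : (inner ℝ (x - y) (N y) : ℝ) = - dep y (N y) x := by
    unfold dep
    rw [← inner_neg_left, neg_sub]
  rw [e2, hsq] at h1
  have h2 : |dep y (N y) x| ≤ ρ := by
    unfold dep
    have h1 := abs_real_inner_le_norm (y - x) (N y)
    rw [hν, mul_one, norm_sub_rev] at h1
    linarith
  rw [← neg_div, div_le_iff₀ hρ]
  rcases le_or_gt 0 (dep y (N y) x) with ht | ht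
  · nlinarith
  · have h3 := (abs_le.1 h2).1
    nlinarith

theorem dep_le (h : BD ρ D N) {x y : EE n} (hy : y ∈ frontier D) (hx : x ∉ D) (hd : ‖x - y‖ ≤ ρ) :
    dep y (N y) x ≤ tan2 y (N y) x / ρ := by
  have hρ := h.pos
  have hν := h.unit y hy
  obtain ⟨hp, _, _, hsq⟩ := tan2_facts hν x 0
  have h1 := h.inner_ge hy hx
  have e2 : (inner ℝ (x - y) (N y) : ℝ) = - dep y (N y) x := by
    unfold dep
    rw [← inner_neg_left, neg_sub]
  rw [e2, hsq] at h1
  have h2 : |dep y (N y) x| ≤ ρ := by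
    unfold dep
    have h1 := abs_real_inner_le_norm (y - x) (N y)
    rw [hν, mul_one, norm_sub_rev] at h1
    linarith
  rw [le_div_iff₀ hρ]
  rcases le_or_gt 0 (dep y (N y) x) with ht | ht
  · have h3 := (abs_le.1 h2).2
    nlinarith
  · nlinarith

/-- if `x` is a boundary point near `y` then `x + l N(y)` is outside for small `l > 0` -/
theorem nd_exc (hD : BD ρ D N) {x y : EE n} (hy : y ∈ frontier D) (hx : x ∈ frontier D) (hd : ‖x - y‖ ≤ ρ / 4)
    {l : ℝ} (hl : 0 < l) (hl2 : l ≤ ρ / 4) : x + l • N y ∉ closure D := by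
  intro hcl
  have hρ := hD.pos
  have h1 := hD.inner_le hx hcl
  have e1 : x + l • N y - x = l • N y := by abel
  rw [e1, real_inner_smul_left, norm_smul, hD.unit y hy, Real.norm_eq_abs, abs_of_pos hl,
    mul_one] at h1
  have h2 := hD.N_sub_le hx hy
  have h3 : ‖N x - N y‖ ≤ 1 / 4 := by
    refine h2.trans ?_
    rw [div_le_iff₀ hρ]
    linarith
  have h4 : ‖N x - N y‖ ^ 2 ≤ (1 / 4) ^ 2 := pow_le_pow_left₀ (norm_nonneg _) h3 2
  rw [norm_sub_sq_real, hD.unit x hx, hD.unit y hy, real_inner_comm] at h4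
  have h5 : 2 * ρ * (inner ℝ (N y) (N x) : ℝ) ≤ l := by
    have : l * (2 * ρ * (inner ℝ (N y) (N x) : ℝ)) ≤ l * l := by nlinarith
    exact le_of_mul_le_mul_left this hl
  nlinarith

end Pool.Agent.Lib.MP_188651_an
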