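import Pool.Agent.Lib.MP_188651_an.ExReflT
import Pool.Agent.Lib.MP_188651_an.ExLapA
import Pool.Agent.Lib.MP_188651_an.ExNDb

/-!
# Normal derivative: interior step
-/

open Set Filter Metric Topology InnerProductSpace Laplacian

namespace Pool.Agent.Lib.MP_188651_an

variable {n : ℕ} {ρ L Λ h K₀ : ℝ} {D : Set (EE n)} {N : EE n → EE n}

private theorem dep_curve_ExNDi (y ν x e : EE n) (τ : ℝ) :
    dep y ν (x + τ • e) = dep y ν x - τ * inner ℝ ν e := by
  unfold dep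
  rw [sub_add_eq_sub_sub, inner_sub_left, inner_smul_left, real_inner_comm ν e]
  simp

private theorem tan2_curve_ExNDi (y ν x e : EE n) (he : ‖e‖ = 1) (τ : ℝ) :
    tan2 y ν (x + τ • e) = tan2 y ν x + 2 * τ * (inner ℝ (x - y) e + dep y ν x * inner ℝ ν e) +
      τ ^ 2 * (1 - inner ℝ ν e ^ 2) := by
  unfold tan2
  rw [dep_curve_ExNDi]
  have h1 : x + τ • e - y = (x - y) + τ • e := by abel
  rw [h1, norm_add_sq_real, norm_smul, inner_smul_right, he, mul_one, Real.norm_eq_abs, sq_abs]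
  ring

theorem nd_int {v : EE n → ℝ} {y ν x : EE n} {l : ℝ} (hν : ‖ν‖ = 1) (hh : 0 < h)
    (hx : ContDiffAt ℝ 2 v x) (hx' : ContDiffAt ℝ 2 v (x + l • ν)) (hΔ : |(Δ v) x| ≤ Λ)
    (hΔ' : |(Δ v) (x + l • ν)| ≤ Λ)
    (hmax : ∀ᶠ q : EE n × ℝ in 𝓝 (x, l), PsiN L Λ ρ h v y ν q.1 q.2 ≤ PsiN L Λ ρ h v y ν x l) : False := by
  have key : ∀ i : Fin n,
      iteratedFDeriv ℝ 2 v x ![EuclideanSpace.basisFun (Fin n) ℝ i, EuclideanSpace.basisFun (Fin n) ℝ i] -
      iteratedFDeriv ℝ 2 v (x + l • ν) ![refl ν (EuclideanSpace.basisFun (Fin n) ℝ i),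
        refl ν (EuclideanSpace.basisFun (Fin n) ℝ i)] ≤
      (2 * ((L + 1) / h ^ 2) - 2 * ((L + 1) / h ^ 2 + n / h + Λ + 1)) *
        inner ℝ ν (EuclideanSpace.basisFun (Fin n) ℝ i) ^ 2 +
        2 * (1 - inner ℝ ν (EuclideanSpace.basisFun (Fin n) ℝ i) ^ 2) / h := by
    intro i
    obtain ⟨e, he⟩ : ∃ e, e = EuclideanSpace.basisFun (Fin n) ℝ i := ⟨_, rfl⟩
    have he1 : ‖e‖ = 1 := by rw [he]; exact (EuclideanSpace.basisFun (Fin n) ℝ).norm_eq_one i
    rw [← he]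
    obtain ⟨c, hc⟩ : ∃ c : ℝ, c = inner ℝ ν e := ⟨_, rfl⟩
    obtain ⟨m, hm⟩ : ∃ m : ℝ, m = inner ℝ (x - y) e + dep y ν x * inner ℝ ν e := ⟨_, rfl⟩
    obtain ⟨A, hA⟩ : ∃ A : ℝ, A = (L + 1) / h ^ 2 := ⟨_, rfl⟩
    obtain ⟨A', hA'⟩ : ∃ A' : ℝ, A' = (L + 1) / h ^ 2 + n / h + Λ + 1 := ⟨_, rfl⟩
    obtain ⟨B, hB⟩ : ∃ B : ℝ, B = ((2 * (L + 1) ^ 2 / ρ + 2) + n + Λ + 1) * h := ⟨_, rfl⟩
    obtain ⟨B', hB'⟩ : ∃ B' : ℝ, B' = (2 * (L + 1) ^ 2 / ρ + 2) * h := ⟨_, rfl⟩
    obtain ⟨t, ht⟩ : ∃ t : ℝ, t = dep y ν x := ⟨_, rfl⟩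
    obtain ⟨p, hp⟩ : ∃ p : ℝ, p = tan2 y ν x := ⟨_, rfl⟩
    have hQ : ∀ τ : ℝ, Qh n L Λ ρ h (dep y ν (x + τ • e)) (dep y ν (x + τ • e) - (l - 2 * τ * c))
        (tan2 y ν (x + τ • e)) =
        A * (t - τ * c) ^ 2 + B * (t - τ * c) - A' * (t - l + τ * c) ^ 2 - B' * (t - l + τ * c) +
          (p + 2 * τ * m + τ ^ 2 * (1 - c ^ 2)) / h := by
      intro τ
      rw [dep_curve_ExNDi, tan2_curve_ExNDi y ν x e he1 τ, ← hc, ← ht, ← hp]
      unfold Qh
      rw [hA, hA', hB, hB', hm, ← hc, ← ht]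
      ring
    have hd := curve_test (v1 := v) (v2 := v) (x := x) (x' := x + l • ν) (ξ := e) (ξ' := refl ν e)
      (q := fun τ => A * (t - τ * c) ^ 2 + B * (t - τ * c) - A' * (t - l + τ * c) ^ 2 -
        B' * (t - l + τ * c) + (p + 2 * τ * m + τ ^ 2 * (1 - c ^ 2)) / h)
      (q' := fun τ => A * (2 * (t - τ * c) * (-c)) + B * (-c) - A' * (2 * (t - l + τ * c) * c) -
        B' * c + (2 * m + 2 * τ * (1 - c ^ 2)) / h)
      (q'' := (2 * A - 2 * A') * c ^ 2 + 2 * (1 - c ^ 2) / h) hx hx' ?_ ?_ ?_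
    · rw [hA, hA', hc] at hd
      exact hd
    · refine Filter.Eventually.of_forall fun τ => ?_
      have d1 : HasDerivAt (fun τ : ℝ => t - τ * c) (-c) τ := by
        have := ((hasDerivAt_id τ).mul_const c).const_sub t
        simpa using this
      have d2 : HasDerivAt (fun τ : ℝ => t - l + τ * c) c τ := by
        have := ((hasDerivAt_id τ).mul_const c).const_add (t - l)
        simpa using this
      have d3 : HasDerivAt (fun τ : ℝ => p + 2 * τ * m + τ ^ 2 * (1 - c ^ 2))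
          (2 * m + 2 * τ * (1 - c ^ 2)) τ := by
        have e1 := (((hasDerivAt_id τ).const_mul 2).mul_const m).const_add p
        have e2 := ((hasDerivAt_id τ).pow 2).mul_const (1 - c ^ 2)
        have e3 := e1.add e2
        refine HasDerivAt.congr_deriv (f' := _) (g' := _) e3 ?_
        simp only [id]
        norm_num
      have d4 := (((d1.pow 2).const_mul A).add (d1.const_mul B)).sub ((d2.pow 2).const_mul A')
      have d5 := (d4.sub (d2.const_mul B')).add (d3.div_const h)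
      refine d5.congr_deriv ?_
      norm_num
    · have d1 : HasDerivAt (fun τ : ℝ => 2 * (t - τ * c) * (-c)) (2 * c ^ 2) 0 := by
        have := ((((hasDerivAt_id (0 : ℝ)).mul_const c).const_sub t).const_mul 2).mul_const (-c)
        exact this.congr_deriv (by ring)
      have d2 : HasDerivAt (fun τ : ℝ => 2 * (t - l + τ * c) * c) (2 * c ^ 2) 0 := by
        have := ((((hasDerivAt_id (0 : ℝ)).mul_const c).const_add (t - l)).const_mul 2).mul_const c
        exact this.congr_deriv (by ring)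
      have d3 : HasDerivAt (fun τ : ℝ => 2 * m + 2 * τ * (1 - c ^ 2)) (2 * (1 - c ^ 2)) 0 := by
        have := (((hasDerivAt_id (0 : ℝ)).const_mul 2).mul_const (1 - c ^ 2)).const_add (2 * m)
        exact this.congr_deriv (by ring)
      have d4 := (((d1.const_mul A).add (hasDerivAt_const (0 : ℝ) (B * (-c)))).sub (d2.const_mul A'))
      have d5 := (d4.sub (hasDerivAt_const (0 : ℝ) (B' * c))).add (d3.div_const h)
      exact d5.congr_deriv (by ring)
    · have hcont : Tendsto (fun τ : ℝ => (x + τ • e, l - 2 * τ * c)) (𝓝 0) (𝓝 (x, l)) := by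
        have h1 : ContinuousAt (fun τ : ℝ => (x + τ • e, l - 2 * τ * c)) 0 := by fun_prop
        have h2 := h1.tendsto
        simpa using h2
      filter_upwards [hcont.eventually hmax] with τ hτ
      unfold PsiN at hτ
      rw [hQ τ] at hτ
      have h0 := hQ 0
      simp only [zero_smul, add_zero, mul_zero, zero_mul, sub_zero] at h0
      rw [h0] at hτ
      have hpt : x + τ • e + (l - 2 * τ * c) • ν = x + l • ν + τ • refl ν e := by
        unfold refl
        rw [← hc, sub_smul, smul_sub, smul_smul]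
        have : τ * (2 * c) = 2 * τ * c := by ring
        rw [this]
        abel
      rw [hpt] at hτ
      simpa using hτ
  have h1 := refl_test hν hx hx' _ key
  have hsum : ∑ i : Fin n, inner ℝ ν (EuclideanSpace.basisFun (Fin n) ℝ i) ^ 2 = (1 : ℝ) := by
    have h2 := (EuclideanSpace.basisFun (Fin n) ℝ).sum_sq_norm_inner_left ν
    rw [hν] at h2
    simpa using h2
  rw [Finset.sum_add_distrib, ← Finset.mul_sum, hsum] at h1
  have hs2 : ∑ i : Fin n, 2 * (1 - inner ℝ ν (EuclideanSpace.basisFun (Fin n) ℝ i) ^ 2) / h =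
      2 * (n - 1) / h := by
    rw [← Finset.sum_div, ← Finset.mul_sum, Finset.sum_sub_distrib, hsum]
    simp
  rw [hs2] at h1
  have h3 := (abs_le.mp hΔ).1
  have h4 := (abs_le.mp hΔ').2
  have h5 : 0 < 2 / h := by positivity
  have h6 : 2 * ((n : ℝ) - 1) / h = 2 * (n / h) - 2 / h := by ring
  rw [h6] at h1
  linarith

end Pool.Agent.Lib.MP_188651_an
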