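import Pool.Agent.Lib.MP_188651_an.ExDefs

/-!
# Normal derivative: the slope of the barrier
-/

open Set Filter Metric Topology InnerProductSpace Laplacian

namespace Pool.Agent.Lib.MP_188651_an

/-- the slope of the barrier at the boundary -/
theorem Qh_slope (n : ℕ) {L Λ ρ K₀ : ℝ} (hL : 0 ≤ L) (hΛ : 0 ≤ Λ) (hρ : 0 < ρ) (hK₀ : 0 ≤ K₀) : ∃ h₀ > 0,
    ∀ h s p d : ℝ, 0 < h → h ≤ h₀ → 0 ≤ p → p < (L + 1) * h ^ 3 → -(p / ρ) ≤ s → 0 ≤ d → p ≤ d ^ 2 →
    d ^ 2 ≤ 2 * p →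
    (L + 2 * √p / h) * (d / ρ) + K₀ * d <
      (2 * ((L + 1) / h ^ 2 + n / h + Λ + 1) * s + (2 * (L + 1) ^ 2 / ρ + 2) * h) / 2 := by
  have hn : (0 : ℝ) ≤ n := Nat.cast_nonneg n
  have hL1 : 0 < L + 1 := by linarith
  -- constants
  set E : ℝ := (n + Λ + 1) * (L + 1) / ρ with hE
  have hE0 : 0 ≤ E := by positivity
  set M : ℝ := L / ρ + K₀ with hM
  have hM0 : 0 ≤ M := by positivity
  -- h small: 2 M^2 (L+1) h ≤ 1/64, E h ≤ 1/8, 4 (L+1) h / ρ ≤ 1/8
  set W : ℝ := 128 * M ^ 2 * (L + 1) + 8 * E + 64 * (L + 1) / ρ + 1 with hW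
  have hW0 : 0 < W := by positivity
  refine ⟨min 1 (1 / W), by positivity, ?_⟩
  intro h s p d hh hh0 hp hpL hs hd hpd hdp
  have h1 : h ≤ 1 := hh0.trans (min_le_left _ _)
  have h2 : W * h ≤ 1 := by
    have := hh0.trans (min_le_right _ _)
    rw [le_div_iff₀ hW0] at this
    linarith
  have h3 : 128 * M ^ 2 * (L + 1) * h ≤ 1 := by
    refine le_trans (mul_le_mul_of_nonneg_right ?_ hh.le) h2
    have t1 : 0 ≤ 64 * (L + 1) / ρ := by positivity
    linarith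
  have h4 : 8 * E * h ≤ 1 := by
    refine le_trans (mul_le_mul_of_nonneg_right ?_ hh.le) h2
    have t1 : 0 ≤ 64 * (L + 1) / ρ := by positivity
    have t2 : 0 ≤ 128 * M ^ 2 * (L + 1) := by positivity
    linarith
  have h5 : 64 * (L + 1) / ρ * h ≤ 1 := by
    refine le_trans (mul_le_mul_of_nonneg_right ?_ hh.le) h2
    have t2 : 0 ≤ 128 * M ^ 2 * (L + 1) := by positivity
    linarith
  have hh2 : 0 < h ^ 2 := by positivity
  -- right-hand side
  set c : ℝ := (L + 1) / h ^ 2 + n / h + Λ + 1 with hc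
  have hc0 : 0 < c := by positivity
  have hcp : c * (p / ρ) ≤ (L + 1) ^ 2 / ρ * h + E * h ^ 2 := by
    have t1 : c * (p / ρ) = (L + 1) / ρ * (p / h ^ 2) + (n / h + Λ + 1) * (p / ρ) := by
      rw [hc]; ring
    have t2 : p / h ^ 2 ≤ (L + 1) * h := by
      rw [div_le_iff₀ hh2]
      have : (L + 1) * h * h ^ 2 = (L + 1) * h ^ 3 := by ring
      linarith
    have t3 : (L + 1) / ρ * (p / h ^ 2) ≤ (L + 1) / ρ * ((L + 1) * h) :=
      mul_le_mul_of_nonneg_left t2 (by positivity)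
    have t4 : (n / h + Λ + 1) * (p / ρ) ≤ E * h ^ 2 := by
      have u1 : n / h + Λ + 1 ≤ (n + Λ + 1) / h := by
        rw [le_div_iff₀ hh]
        have : (n / h + Λ + 1) * h = n + (Λ + 1) * h := by field_simp; ring
        rw [this]
        have : (Λ + 1) * h ≤ Λ + 1 := mul_le_of_le_one_right (by linarith) h1
        linarith
      have u2 : (n / h + Λ + 1) * (p / ρ) ≤ (n + Λ + 1) / h * (p / ρ) :=
        mul_le_mul_of_nonneg_right u1 (by positivity)
      have u3 : (n + Λ + 1) / h * (p / ρ) = (n + Λ + 1) / ρ * (p / h) := by ring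
      have u4 : p / h ≤ (L + 1) * h ^ 2 := by
        rw [div_le_iff₀ hh]
        have : (L + 1) * h ^ 2 * h = (L + 1) * h ^ 3 := by ring
        linarith
      have u5 : (n + Λ + 1) / ρ * (p / h) ≤ (n + Λ + 1) / ρ * ((L + 1) * h ^ 2) :=
        mul_le_mul_of_nonneg_left u4 (by positivity)
      have u6 : (n + Λ + 1) / ρ * ((L + 1) * h ^ 2) = E * h ^ 2 := by rw [hE]; ring
      linarith
    have t5 : (L + 1) / ρ * ((L + 1) * h) = (L + 1) ^ 2 / ρ * h := by ring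
    linarith
  have hcs : -((L + 1) ^ 2 / ρ * h + E * h ^ 2) ≤ c * s := by
    have t1 := mul_le_mul_of_nonneg_left hs hc0.le
    have t2 : c * -(p / ρ) = -(c * (p / ρ)) := by ring
    linarith
  have hEh : E * h ^ 2 ≤ h / 8 := by
    have t1 := mul_le_mul_of_nonneg_right h4 hh.le
    have t2 : 8 * E * h * h = 8 * (E * h ^ 2) := by ring
    linarith
  have hRHS : h - h / 8 ≤ (2 * c * s + (2 * (L + 1) ^ 2 / ρ + 2) * h) / 2 := by
    have t1 : (2 * c * s + (2 * (L + 1) ^ 2 / ρ + 2) * h) / 2 =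
        c * s + (L + 1) ^ 2 / ρ * h + h := by ring
    rw [t1]
    linarith
  refine lt_of_lt_of_le ?_ hRHS
  -- left-hand side: M d + 2 √p d / (h ρ)
  have hsp : √p ≤ d := by
    rw [← Real.sqrt_sq hd]
    exact Real.sqrt_le_sqrt hpd
  have hd2 : d ^ 2 < 2 * ((L + 1) * h ^ 3) := by linarith
  have e1 : (L + 2 * √p / h) * (d / ρ) + K₀ * d ≤ M * d + 2 / (h * ρ) * d ^ 2 := by
    have t1 : (L + 2 * √p / h) * (d / ρ) + K₀ * d = M * d + 2 / (h * ρ) * (√p * d) := by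
      rw [hM]; field_simp; ring
    rw [t1]
    have t2 : √p * d ≤ d ^ 2 := by
      rw [pow_two]; exact mul_le_mul_of_nonneg_right hsp hd
    have t3 := mul_le_mul_of_nonneg_left t2 (show 0 ≤ 2 / (h * ρ) by positivity)
    linarith
  -- second term ≤ h/8
  have e2 : 2 / (h * ρ) * d ^ 2 ≤ h / 8 := by
    have t1 : 2 / (h * ρ) * d ^ 2 ≤ 2 / (h * ρ) * (2 * ((L + 1) * h ^ 3)) :=
      mul_le_mul_of_nonneg_left hd2.le (by positivity)
    have t2 : 2 / (h * ρ) * (2 * ((L + 1) * h ^ 3)) = (64 * (L + 1) / ρ * h) * h / 16 := by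
      field_simp; ring
    have t3 : (64 * (L + 1) / ρ * h) * h ≤ 1 * h := mul_le_mul_of_nonneg_right h5 hh.le
    linarith
  -- first term ≤ h/4
  have e3 : M * d ≤ h / 4 := by
    refine abs_le_of_sq_le_sq' ?_ (by positivity) |>.2
    have t1 : (M * d) ^ 2 = M ^ 2 * d ^ 2 := by ring
    rw [t1]
    have t2 : M ^ 2 * d ^ 2 ≤ M ^ 2 * (2 * ((L + 1) * h ^ 3)) :=
      mul_le_mul_of_nonneg_left hd2.le (sq_nonneg _)
    have t3 : M ^ 2 * (2 * ((L + 1) * h ^ 3)) = (128 * M ^ 2 * (L + 1) * h) * h ^ 2 / 64 := by ring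
    have t4 : (128 * M ^ 2 * (L + 1) * h) * h ^ 2 ≤ 1 * h ^ 2 :=
      mul_le_mul_of_nonneg_right h3 hh2.le
    have t5 : (h / 4) ^ 2 = h ^ 2 / 16 := by ring
    rw [t5]
    linarith
  linarith

end Pool.Agent.Lib.MP_188651_an
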