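import Pool.Agent.Lib.MP_188651_an.ExNDa
import Pool.Agent.Lib.MP_188651_an.ExNDs
import Pool.Agent.Lib.MP_188651_an.ExNDi
import Pool.Agent.Lib.MP_188651_an.ExNDc

/-!
# The one-sided normal derivative estimate
-/

open Set Filter Metric Topology InnerProductSpace Laplacian

namespace Pool.Agent.Lib.MP_188651_an

private theorem small_ExND {L ρ : ℝ} (hL : 0 ≤ L) (hρ : 0 < ρ) : ∃ h₀ > 0, ∀ h : ℝ, 0 < h → h ≤ h₀ →
    (L + 1) * h ^ 3 ≤ h ^ 2 ∧ h ^ 2 ≤ ρ ^ 2 ∧ h ^ 2 + h ^ 4 + (h ^ 2 / ρ) ^ 2 < (ρ / 4) ^ 2 ∧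
      h ^ 2 + h ^ 2 / ρ < ρ / 4 ∧ h ^ 2 < 2 * ρ := by
  have hc : Continuous (fun h : ℝ => h ^ 2 + h ^ 4 + (h ^ 2 / ρ) ^ 2) := by fun_prop
  have h1 : ∀ᶠ h in 𝓝 (0 : ℝ), h ^ 2 + h ^ 4 + (h ^ 2 / ρ) ^ 2 < (ρ / 4) ^ 2 := by
    have := (hc.tendsto 0).eventually_lt_const (show (0:ℝ) ^ 2 + 0 ^ 4 + (0 ^ 2 / ρ) ^ 2 < (ρ / 4) ^ 2 by
      simp; positivity)
    exact this
  have hc2 : Continuous (fun h : ℝ => h ^ 2 + h ^ 2 / ρ) := by fun_prop
  have h2 : ∀ᶠ h in 𝓝 (0 : ℝ), h ^ 2 + h ^ 2 / ρ < ρ / 4 := by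
    have := (hc2.tendsto 0).eventually_lt_const (show (0:ℝ) ^ 2 + 0 ^ 2 / ρ < ρ / 4 by
      simp; positivity)
    exact this
  obtain ⟨e, he, he'⟩ := Metric.eventually_nhds_iff.1 (h1.and h2)
  refine ⟨min (e / 2) (min (1 / (L + 1)) ρ), by positivity, fun h hh hle => ?_⟩
  have ha : h ≤ e / 2 := hle.trans (min_le_left _ _)
  have hb : h ≤ 1 / (L + 1) := hle.trans ((min_le_right _ _).trans (min_le_left _ _))
  have hc' : h ≤ ρ := hle.trans ((min_le_right _ _).trans (min_le_right _ _))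
  have hd := he' (y := h) (by rw [Real.dist_eq, sub_zero, abs_of_pos hh]; linarith)
  refine ⟨?_, by nlinarith, hd.1, hd.2, ?_⟩
  · rw [le_div_iff₀ (by linarith)] at hb
    nlinarith [sq_nonneg h]
  · have := hd.2
    have h4 : 0 ≤ h ^ 2 / ρ := by positivity
    linarith

private theorem cont_dep_ExND {n : ℕ} (y ν : EE n) : Continuous (dep y ν) := by
  unfold dep
  fun_prop

private theorem cont_tan2_ExND {n : ℕ} (y ν : EE n) : Continuous (tan2 y ν) := by
  have := cont_dep_ExND y ν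
  unfold tan2
  fun_prop

private theorem cont_Qh_ExND (n : ℕ) (L Λ ρ h : ℝ) :
    Continuous (fun q : ℝ × ℝ × ℝ => Qh n L Λ ρ h q.1 q.2.1 q.2.2) := by
  unfold Qh
  fun_prop

/-- the set over which we maximise -/
private def SS_ExND {n : ℕ} (D : Set (EE n)) (ρ h : ℝ) (y ν : EE n) : Set (EE n × ℝ) :=
  {q | q.1 ∈ closure D ∧ ‖q.1 - y‖ ≤ ρ / 4 ∧ tan2 y ν q.1 ≤ h ^ 2 ∧ dep y ν q.1 ≤ h ^ 2 ∧ 0 ≤ q.2 ∧
    q.2 ≤ ρ / 4 ∧ q.1 + q.2 • ν ∈ closure D}

private theorem compact_ExND {n : ℕ} (D : Set (EE n)) (ρ h : ℝ) (y ν : EE n) :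
    IsCompact (SS_ExND D ρ h y ν) := by
  have hcl : IsClosed (SS_ExND D ρ h y ν) := by
    have h1 := cont_dep_ExND y ν
    have h2 := cont_tan2_ExND y ν
    have k1 : IsClosed {q : EE n × ℝ | q.1 ∈ closure D} := isClosed_closure.preimage continuous_fst
    have k2 : IsClosed {q : EE n × ℝ | ‖q.1 - y‖ ≤ ρ / 4} := isClosed_le (by fun_prop) (by fun_prop)
    have k3 : IsClosed {q : EE n × ℝ | tan2 y ν q.1 ≤ h ^ 2} :=
      isClosed_le (h2.comp continuous_fst) (by fun_prop)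
    have k4 : IsClosed {q : EE n × ℝ | dep y ν q.1 ≤ h ^ 2} :=
      isClosed_le (h1.comp continuous_fst) (by fun_prop)
    have k5 : IsClosed {q : EE n × ℝ | 0 ≤ q.2} := isClosed_le (by fun_prop) (by fun_prop)
    have k6 : IsClosed {q : EE n × ℝ | q.2 ≤ ρ / 4} := isClosed_le (by fun_prop) (by fun_prop)
    have k7 : IsClosed {q : EE n × ℝ | q.1 + q.2 • ν ∈ closure D} :=
      isClosed_closure.preimage (by fun_prop)
    exact k1.inter (k2.inter (k3.inter (k4.inter (k5.inter (k6.inter k7)))))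
  refine IsCompact.of_isClosed_subset ((isCompact_closedBall y (ρ / 4)).prod (isCompact_Icc (a := (0:ℝ)) (b := ρ / 4))) hcl ?_
  rintro ⟨x, l⟩ ⟨-, h2, -, -, h5, h6, -⟩
  exact ⟨by rw [mem_closedBall, dist_eq_norm]; exact h2, h5, h6⟩

private theorem grad_ExND {n : ℕ} {D : Set (EE n)} (hD : IsOpen D) {L : ℝ} (hL : 0 ≤ L) {v : EE n → ℝ}
    (hlip : ∀ x ∈ closure D, ∀ x' ∈ closure D, |v x - v x'| ≤ L * ‖x - x'‖) {x : EE n} (hx : x ∈ D)
    (hv : DifferentiableAt ℝ v x) : ‖fderiv ℝ v x‖ ≤ L := by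
  refine hv.hasFDerivAt.le_of_lip' hL ?_
  filter_upwards [hD.mem_nhds hx] with z hz
  rw [Real.norm_eq_abs]
  exact hlip z (subset_closure hz) x (subset_closure hx)

private theorem alg_ExND {n : ℕ} {ρ L Λ K₀ h p s d : ℝ} (hρ : 0 < ρ) (hL : 0 ≤ L) (hK₀ : 0 ≤ K₀) (hh : 0 < h)
    (hp0 : 0 ≤ p) (hd0 : 0 ≤ d) (hs_ge : -(p / ρ) ≤ s) (hs_le : s ≤ p / ρ) (hd2 : d ^ 2 = p + s ^ 2)
    (hpρ : p ≤ ρ ^ 2) (hdρ : d ≤ ρ / 2)
    (hB : p ≤ d ^ 2 → d ^ 2 ≤ 2 * p → (L + 2 * √p / h) * (d / ρ) + K₀ * d <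
      (2 * ((L + 1) / h ^ 2 + n / h + Λ + 1) * s + (2 * (L + 1) ^ 2 / ρ + 2) * h) / 2)
    {ν ν' : EE n} (hN : ‖ν' - ν‖ ≤ d / ρ) (hν : ‖ν‖ = 1) (hν' : ‖ν'‖ = 1)
    (hB1 : (2 * ((L + 1) / h ^ 2 + n / h + Λ + 1) * s + (2 * (L + 1) ^ 2 / ρ + 2) * h) * inner ℝ ν ν' ≤
      (L + 2 * √p / h) * ‖ν' - ν‖ + K₀ * d) : False := by
  have hs2 : s ^ 2 ≤ p := by
    have h1 : |s| ≤ p / ρ := abs_le.2 ⟨hs_ge, hs_le⟩
    have h2 : s ^ 2 ≤ (p / ρ) ^ 2 := by
      rw [← sq_abs]
      gcongr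
    have h3 : (p / ρ) ^ 2 ≤ p := by
      rw [div_pow, div_le_iff₀ (by positivity)]
      nlinarith
    linarith
  have hsl := hB (by nlinarith [sq_nonneg s]) (by linarith)
  have hinner : 1 / 2 ≤ inner ℝ ν ν' := by
    have h1 := norm_sub_sq_real ν' ν
    rw [hν, hν', real_inner_comm] at h1
    have h2 : ‖ν' - ν‖ ≤ 1 / 2 := by
      refine hN.trans ?_
      rw [div_le_iff₀ hρ]
      linarith
    have h3 : ‖ν' - ν‖ ^ 2 ≤ (1 / 2) ^ 2 := by gcongr
    nlinarith
  have hcoef : 0 ≤ L + 2 * √p / h := by positivity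
  set W := 2 * ((L + 1) / h ^ 2 + n / h + Λ + 1) * s + (2 * (L + 1) ^ 2 / ρ + 2) * h with hW
  have hW0 : 0 < W := by
    have h1 : 0 ≤ (L + 2 * √p / h) * (d / ρ) + K₀ * d := by positivity
    linarith
  have h1 : W * (1 / 2) ≤ W * inner ℝ ν ν' := mul_le_mul_of_nonneg_left hinner hW0.le
  have h2 : (L + 2 * √p / h) * ‖ν' - ν‖ ≤ (L + 2 * √p / h) * (d / ρ) :=
    mul_le_mul_of_nonneg_left hN hcoef
  linarith

theorem nd_one (n : ℕ) {ρ L Λ K₀ : ℝ} (hρ : 0 < ρ) (hL : 0 ≤ L) (hΛ : 0 ≤ Λ) (hK₀ : 0 ≤ K₀) :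
    ∃ C > 0, ∃ h₀ > 0, ∀ (D : Set (EE n)) (N : EE n → EE n) (y : EE n) (v : EE n → ℝ), BD ρ D N →
      y ∈ frontier D → (∀ x ∈ closure D, ∀ x' ∈ closure D, |v x - v x'| ≤ L * ‖x - x'‖) →
      ContDiffOn ℝ 2 v D → (∀ x ∈ D, |(Δ v) x| ≤ Λ) →
      (∀ y' ∈ frontier D, ∀ φ : EE n → ℝ, TouchB (closure D) v φ y' →
        -(K₀ * ‖y' - y‖) ≤ fderiv ℝ φ y' (N y')) →
      ∀ h t : ℝ, 0 < h → h ≤ h₀ → 0 ≤ t → t ≤ h ^ 2 →
        v (y - t • N y) - v y ≤ C / h ^ 2 * t ^ 2 + C * h * t := by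
  obtain ⟨ha, hha, hA⟩ := Qh_alg n hL hΛ hρ
  obtain ⟨hb, hhb, hB⟩ := Qh_slope n hL hΛ hρ hK₀
  obtain ⟨hc, hhc, hC⟩ := small_ExND hL hρ
  have hn0 : (0 : ℝ) ≤ n := Nat.cast_nonneg n
  refine ⟨(L + 1) + ((2 * (L + 1) ^ 2 / ρ + 2) + n + Λ + 1), by positivity, min ha (min hb hc), by positivity, ?_⟩
  intro D N y v hD hy hlip hv hΔ hbd h t hh hh0 ht0 ht
  have hA' := hA h
  have hle_a : h ≤ ha := hh0.trans (min_le_left _ _)
  have hle_b : h ≤ hb := hh0.trans ((min_le_right _ _).trans (min_le_left _ _))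
  have hle_c : h ≤ hc := hh0.trans ((min_le_right _ _).trans (min_le_right _ _))
  obtain ⟨hC1, hC2, hC3, hC4, hC5⟩ := hC h hh hle_c
  have hν : ‖N y‖ = 1 := hD.unit y hy
  have hyc : y ∈ closure D := frontier_subset_closure hy
  have hvc : ContinuousOn v (closure D) := by
    intro x hx
    refine Metric.continuousWithinAt_iff.2 fun ε hε => ⟨ε / (L + 1), by positivity, fun x' hx' hd => ?_⟩
    rw [Real.dist_eq]
    rw [dist_eq_norm, lt_div_iff₀ (by linarith)] at hd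
    have h1 := hlip x' hx' x hx
    nlinarith [norm_nonneg (x' - x)]
  -- the key claim
  have key : ∀ q ∈ SS_ExND D ρ h y (N y), PsiN L Λ ρ h v y (N y) q.1 q.2 ≤ 0 := by
    have hcomp := compact_ExND D ρ h y (N y)
    have hcont : ContinuousOn (fun q : EE n × ℝ => PsiN L Λ ρ h v y (N y) q.1 q.2) (SS_ExND D ρ h y (N y)) := by
      have c1 : ContinuousOn (fun q : EE n × ℝ => v q.1) (SS_ExND D ρ h y (N y)) :=
        hvc.comp continuous_fst.continuousOn fun q hq => hq.1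
      have c2 : ContinuousOn (fun q : EE n × ℝ => v (q.1 + q.2 • N y)) (SS_ExND D ρ h y (N y)) :=
        hvc.comp (f := fun q : EE n × ℝ => q.1 + q.2 • N y) (by fun_prop) fun q hq => hq.2.2.2.2.2.2
      have d1 := cont_dep_ExND y (N y)
      have d2 := cont_tan2_ExND y (N y)
      have c3 : Continuous (fun q : EE n × ℝ => Qh n L Λ ρ h (dep y (N y) q.1) (dep y (N y) q.1 - q.2) (tan2 y (N y) q.1)) := by
        have := cont_Qh_ExND n L Λ ρ h
        exact this.comp ((d1.comp continuous_fst).prodMk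
          (((d1.comp continuous_fst).sub continuous_snd).prodMk (d2.comp continuous_fst)))
      exact (c1.sub c2).sub c3.continuousOn
    obtain ⟨q, hq, hmax⟩ : ∃ q ∈ SS_ExND D ρ h y (N y), IsMaxOn (fun q : EE n × ℝ => PsiN L Λ ρ h v y (N y) q.1 q.2)
        (SS_ExND D ρ h y (N y)) q := by
      refine hcomp.exists_isMaxOn ⟨(y, 0), hyc, ?_, ?_, ?_, le_rfl, by positivity, ?_⟩ hcont
      · simp; positivity
      · simp [tan2, dep]; positivity
      · simp [dep]; positivity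
      · simpa using hyc
    suffices hneg : PsiN L Λ ρ h v y (N y) q.1 q.2 ≤ 0 from fun q' hq' => (hmax hq').trans hneg
    by_contra hpos
    rw [not_le] at hpos
    obtain ⟨x, l⟩ := q
    have hmax' : ∀ q' ∈ SS_ExND D ρ h y (N y), PsiN L Λ ρ h v y (N y) q'.1 q'.2 ≤ PsiN L Λ ρ h v y (N y) x l :=
      fun q' hq' => hmax hq'
    clear hmax
    obtain ⟨hx, hxy, hp, htt, hl0, hl1, hxl⟩ := hq
    simp only at hpos hx hxy hp htt hl0 hl1 hxl
    obtain ⟨hp0, htan, hdep, hnorm⟩ := tan2_facts (y := y) hν x l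
    set p := tan2 y (N y) x with hpdef
    set τ := dep y (N y) x with hτdef
    have hln : ‖l • N y‖ = l := by rw [norm_smul, hν, mul_one, Real.norm_eq_abs, abs_of_nonneg hl0]
    have hxly : ‖x + l • N y - y‖ ≤ ρ / 2 := by
      have : x + l • N y - y = (x - y) + l • N y := by abel
      rw [this]
      refine (norm_add_le _ _).trans ?_
      rw [hln]
      linarith
    have hs_ge : -(p / ρ) ≤ τ - l := by
      have := dep_ge hD hy hxl (by linarith)
      rwa [htan, hdep] at this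
    have hQ : Qh n L Λ ρ h τ (τ - l) p < L * (τ - (τ - l)) := by
      have h1 := hlip x hx _ hxl
      have h2 : ‖x - (x + l • N y)‖ = l := by
        rw [show x - (x + l • N y) = -(l • N y) by abel, norm_neg, hln]
      rw [h2] at h1
      have h3 := (le_abs_self _).trans h1
      unfold PsiN at hpos
      rw [← hτdef, ← hpdef] at hpos
      linarith
    obtain ⟨hpl, htl, hst⟩ := hA h τ (τ - l) p hh hle_a hp0 hp (by linarith) htt hs_ge hQ
    have hl : 0 < l := by linarith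
    have hxfr : x ∉ frontier D := fun hfr => nd_exc hD hy hfr hxy hl hl1 hxl
    have hxD : x ∈ D := by
      have : x ∈ interior D := by
        by_contra hni
        exact hxfr ⟨hx, hni⟩
      exact interior_subset this
    have hp2 : p < h ^ 2 := lt_of_lt_of_le hpl hC1
    have hpρ : p / ρ ≤ h ^ 2 / ρ := by gcongr
    have hpρ0 : 0 ≤ p / ρ := by positivity
    have hτ2 : τ ^ 2 ≤ h ^ 4 + (h ^ 2 / ρ) ^ 2 := by
      rcases le_total 0 τ with h0 | h0
      · have : τ ^ 2 ≤ (h ^ 2) ^ 2 := by gcongr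
        nlinarith [sq_nonneg (h ^ 2 / ρ)]
      · have h1 : -τ ≤ h ^ 2 / ρ := by linarith
        have : (-τ) ^ 2 ≤ (h ^ 2 / ρ) ^ 2 := by
          gcongr
          linarith
        nlinarith [sq_nonneg (h ^ 2)]
    have hxy' : ‖x - y‖ < ρ / 4 := by
      have h1 : ‖x - y‖ ^ 2 < (ρ / 4) ^ 2 := by rw [hnorm]; linarith
      exact lt_of_pow_lt_pow_left₀ 2 (by positivity) h1
    have hl2 : l < ρ / 4 := by linarith
    have cx : ContDiffAt ℝ 2 v x := hv.contDiffAt (hD.isOpen.mem_nhds hxD)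
    have d1 := cont_dep_ExND y (N y)
    have d2 := cont_tan2_ExND y (N y)
    by_cases hcase : x + l • N y ∈ D
    · -- interior
      have cx' : ContDiffAt ℝ 2 v (x + l • N y) := hv.contDiffAt (hD.isOpen.mem_nhds hcase)
      refine nd_int (Λ := Λ) (L := L) (ρ := ρ) hν hh cx cx' (hΔ x hxD) (hΔ _ hcase) (y := y) ?_
      have e1 : ∀ᶠ q : EE n × ℝ in 𝓝 (x, l), q.1 ∈ D := continuous_fst.continuousAt.eventually_mem (hD.isOpen.mem_nhds hxD)
      have e2 : ∀ᶠ q : EE n × ℝ in 𝓝 (x, l), ‖q.1 - y‖ < ρ / 4 :=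
        (show Continuous fun q : EE n × ℝ => ‖q.1 - y‖ by fun_prop).continuousAt.eventually_lt_const hxy'
      have e3 : ∀ᶠ q : EE n × ℝ in 𝓝 (x, l), tan2 y (N y) q.1 < h ^ 2 :=
        (d2.comp continuous_fst).continuousAt.eventually_lt_const hp2
      have e4 : ∀ᶠ q : EE n × ℝ in 𝓝 (x, l), dep y (N y) q.1 < h ^ 2 :=
        (d1.comp continuous_fst).continuousAt.eventually_lt_const htl
      have e5 : ∀ᶠ q : EE n × ℝ in 𝓝 (x, l), 0 < q.2 := continuous_snd.continuousAt.eventually_const_lt hl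
      have e6 : ∀ᶠ q : EE n × ℝ in 𝓝 (x, l), q.2 < ρ / 4 := continuous_snd.continuousAt.eventually_lt_const hl2
      have e7 : ∀ᶠ q : EE n × ℝ in 𝓝 (x, l), q.1 + q.2 • N y ∈ D :=
        (show Continuous fun q : EE n × ℝ => q.1 + q.2 • N y by fun_prop).continuousAt.eventually_mem
          (hD.isOpen.mem_nhds hcase)
      filter_upwards [e1, e2, e3, e4, e5, e6, e7] with q a1 a2 a3 a4 a5 a6 a7
      exact hmax' q ⟨subset_closure a1, a2.le, a3.le, a4.le, a5.le, a6.le, subset_closure a7⟩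
    · -- boundary
      have hfr : x + l • N y ∈ frontier D := ⟨hxl, fun hi => hcase (interior_subset hi)⟩
      have hz : ∀ z : EE n, z - (τ - dep y (N y) z) • N y + (τ - dep y (N y) z) • N y = z := fun z => by abel
      have hX0 : (x + l • N y) - (τ - dep y (N y) (x + l • N y)) • N y = x := by
        rw [hdep, show τ - (τ - l) = l by ring]
        abel
      have hXc : Continuous (fun z : EE n => z - (τ - dep y (N y) z) • N y) := by fun_prop
      have hXt : Tendsto (fun z : EE n => z - (τ - dep y (N y) z) • N y) (𝓝[closure D] (x + l • N y)) (𝓝 x) := by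
        have := (hXc.tendsto (x + l • N y)).mono_left (nhdsWithin_le_nhds (s := closure D))
        rwa [hX0] at this
      have hlt : Tendsto (fun z : EE n => τ - dep y (N y) z) (𝓝[closure D] (x + l • N y)) (𝓝 l) := by
        have hcc : Continuous fun z => τ - dep y (N y) z := continuous_const.sub d1
        have h0 := (hcc.tendsto (x + l • N y)).mono_left (nhdsWithin_le_nhds (s := closure D))
        have h1 : τ - dep y (N y) (x + l • N y) = l := by rw [hdep]; ring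
        rw [h1] at h0
        exact h0
      have hB1 := nd_bdy (Λ := Λ) (L := L) hD hy hh hbd hl hfr cx
        (grad_ExND hD.isOpen hL hlip hxD (cx.differentiableAt (by norm_num))) (by
          have e1 := hXt.eventually (hD.isOpen.mem_nhds hxD)
          have e2 := hXt.eventually ((show Continuous fun z : EE n => ‖z - y‖ by fun_prop).continuousAt.eventually_lt_const hxy')
          have e3 := hXt.eventually (d2.continuousAt.eventually_lt_const hp2)
          have e4 := hXt.eventually (d1.continuousAt.eventually_lt_const htl)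
          have e5 := hlt.eventually (lt_mem_nhds hl)
          have e6 := hlt.eventually (gt_mem_nhds hl2)
          filter_upwards [e1, e2, e3, e4, e5, e6, self_mem_nhdsWithin] with z a1 a2 a3 a4 a5 a6 a7
          refine hmax' (_, _) ⟨subset_closure a1, a2.le, a3.le, a4.le, a5.le, a6.le, ?_⟩
          simp only
          rw [hz]
          exact a7)
      rw [← hτdef, ← hpdef] at hB1
      have hs_le : τ - l ≤ p / ρ := by
        have := dep_le hD hy hcase (by linarith)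
        rwa [htan, hdep] at this
      have hd2 : ‖x + l • N y - y‖ ^ 2 = p + (τ - l) ^ 2 := by
        have := (tan2_facts (y := y) hν (x + l • N y) 0).2.2.2
        rw [htan, hdep] at this
        exact this
      exact alg_ExND (n := n) hρ hL hK₀ hh hp0 (norm_nonneg _) hs_ge hs_le hd2 (hp2.le.trans hC2) hxly
        (fun h1 h2 => hB h (τ - l) p _ hh hle_b hp0 hpl hs_ge (norm_nonneg _) h1 h2)
        (hD.N_sub_le hfr hy) hν (hD.unit _ hfr) hB1
  -- conclusion
  have htρ : t < 2 * ρ := lt_of_le_of_lt ht hC5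
  have h4 : 0 ≤ h ^ 2 / ρ := by positivity
  have hmem : y - t • N y ∈ closure D := by
    rcases ht0.eq_or_lt with h0 | h0
    · rw [← h0]; simpa using hyc
    · exact subset_closure (hD.seg hy h0 htρ)
  have hnt : ‖t • N y‖ = t := by rw [norm_smul, hν, mul_one, Real.norm_eq_abs, abs_of_nonneg ht0]
  have hdepy : dep y (N y) (y - t • N y) = t := by
    unfold dep
    rw [show y - (y - t • N y) = t • N y by abel, real_inner_smul_left, real_inner_self_eq_norm_sq, hν]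
    ring
  have htany : tan2 y (N y) (y - t • N y) = 0 := by
    unfold tan2
    rw [hdepy, show y - t • N y - y = -(t • N y) by abel, norm_neg, hnt]
    ring
  have hk := key (y - t • N y, t) ⟨hmem, by
    simp only
    rw [show y - t • N y - y = -(t • N y) by abel, norm_neg, hnt]; linarith, by
    simp only
    rw [htany]; positivity, by simp only; rw [hdepy]; exact ht, ht0, by simp only; linarith, by
    simp only
    rw [sub_add_cancel]; exact hyc⟩
  unfold PsiN at hk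
  simp only at hk
  rw [hdepy, htany, sub_add_cancel, sub_self] at hk
  unfold Qh at hk
  have hB0 : 0 ≤ (2 * (L + 1) ^ 2 / ρ + 2) + n + Λ + 1 := by positivity
  have h56 : ∀ A B : ℝ, 0 ≤ A → 0 ≤ B → A / h ^ 2 * t ^ 2 ≤ (A + B) / h ^ 2 * t ^ 2 ∧
      B * h * t ≤ (A + B) * h * t := by
    intro A B hA0 hB0
    have e1 : (A + B) / h ^ 2 * t ^ 2 = A / h ^ 2 * t ^ 2 + B / h ^ 2 * t ^ 2 := by ring
    have e2 : (A + B) * h * t = A * h * t + B * h * t := by ring
    have e3 : 0 ≤ B / h ^ 2 * t ^ 2 := by positivity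
    have e4 : 0 ≤ A * h * t := by positivity
    rw [e1, e2]
    constructor <;> linarith
  obtain ⟨h5, h6⟩ := h56 (L + 1) ((2 * (L + 1) ^ 2 / ρ + 2) + n + Λ + 1) (by positivity) hB0
  have h7 : ((L + 1) / h ^ 2 + n / h + Λ + 1) * (0:ℝ) ^ 2 = 0 := by ring
  have h8 : (2 * (L + 1) ^ 2 / ρ + 2) * h * 0 = 0 := by ring
  have h9 : (0:ℝ) / h = 0 := by simp
  rw [h7, h8, h9] at hk
  linarith

end Pool.Agent.Lib.MP_188651_an
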