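import Pool.Agent.Lib.MP_188651_an.ExDefs

/-!
# Normal derivative: the algebra of the barrier
-/

open Set Filter Metric Topology InnerProductSpace Laplacian

namespace Pool.Agent.Lib.MP_188651_an

theorem Qh_alg (n : ℕ) {L Λ ρ : ℝ} (hL : 0 ≤ L) (hΛ : 0 ≤ Λ) (hρ : 0 < ρ) : ∃ h₀ > 0, ∀ h t s p : ℝ,
    0 < h → h ≤ h₀ → 0 ≤ p → p ≤ h ^ 2 → s ≤ t → t ≤ h ^ 2 → -(p / ρ) ≤ s →
    Qh n L Λ ρ h t s p < L * (t - s) → p < (L + 1) * h ^ 3 ∧ t < h ^ 2 ∧ s < t := by
  have hn : (0 : ℝ) ≤ n := Nat.cast_nonneg n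
  set B : ℝ := (L + 1 + n + Λ + 1) / ρ ^ 2 + L / ρ + (n + Λ + 1) / ρ + 1 with hB
  have hB0 : 0 < B := by positivity
  refine ⟨min 1 (1 / (2 * B)), by positivity, ?_⟩
  intro h t s p hh hh0 hp hph hst hth hs hQ
  have h1 : h ≤ 1 := hh0.trans (min_le_left _ _)
  have h2 : h ≤ 1 / (2 * B) := hh0.trans (min_le_right _ _)
  have h2' : 2 * B * h ≤ 1 := by
    rw [le_div_iff₀ (by positivity)] at h2
    linarith
  -- abbreviations
  set q : ℝ := p / ρ with hq
  have hq0 : 0 ≤ q := by positivity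
  have hqρ : q * ρ = p := by rw [hq]; field_simp
  set ih : ℝ := 1 / h with hih
  have hih0 : 0 < ih := by positivity
  have hih1 : ih * h = 1 := by rw [hih]; field_simp
  have hih2 : 2 * B ≤ ih := by
    rw [hih, le_div_iff₀ hh]; exact h2'
  set D1 : ℝ := 2 * (L + 1) ^ 2 / ρ + 2 with hD1
  have hD10 : 0 < D1 := by positivity
  set a : ℝ := (L + 1) / h ^ 2 with ha
  have ha0 : 0 < a := by positivity
  have hah : a * h ^ 2 = L + 1 := by rw [ha]; field_simp
  have hnh : (n : ℝ) / h = n * ih := by rw [hih]; ring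
  have hpih : p / h = p * ih := by rw [hih]; ring
  set c : ℝ := a + n * ih + Λ + 1 with hc
  have hc0 : 0 < c := by positivity
  have hQdef : ∀ s' : ℝ, Qh n L Λ ρ h t s' p =
      a * t ^ 2 + (D1 + n + Λ + 1) * h * t - c * s' ^ 2 - D1 * h * s' + p * ih := by
    intro s'
    rw [Qh, hnh, hpih]
  set G : ℝ → ℝ := fun s' => a * t ^ 2 + (D1 + n + Λ + 1) * h * t - c * s' ^ 2 - D1 * h * s' +
    p * ih - L * (t - s') with hG
  have hGs : G s < 0 := by
    have := hQdef s
    simp only [hG]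
    linarith
  have hqh : q ≤ h ^ 2 / ρ := by
    rw [hq]; exact div_le_div_of_nonneg_right hph hρ.le
  -- helper bounds in terms of B
  have hBa : (L + 1 + n + Λ + 1) / ρ ^ 2 + L / ρ + (n + Λ + 1) / ρ ≤ B := by
    rw [hB]; linarith
  -- c * h^2 ≤ L + 1 + n + Λ + 1
  have hch : c * h ^ 2 ≤ L + 1 + n + Λ + 1 := by
    have e1 : c * h ^ 2 = (L + 1) + n * h + (Λ + 1) * h ^ 2 := by
      rw [hc]
      have : (a + n * ih + Λ + 1) * h ^ 2 = a * h ^ 2 + n * h * (ih * h) + (Λ + 1) * h ^ 2 := by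
        ring
      rw [this, hah, hih1]; ring
    rw [e1]
    have t1 : n * h ≤ n := mul_le_of_le_one_right hn h1
    have t2 : (Λ + 1) * h ^ 2 ≤ Λ + 1 :=
      mul_le_of_le_one_right (by linarith) (pow_le_one₀ hh.le h1)
    linarith
  -- c q^2 ≤ p * ((L+1+n+Λ+1)/ρ^2)
  have hcq : c * q ^ 2 ≤ p * ((L + 1 + n + Λ + 1) / ρ ^ 2) := by
    have e1 : c * q ^ 2 = c * p * p / ρ ^ 2 := by
      rw [hq]; field_simp
    rw [e1, mul_div_assoc']
    refine div_le_div_of_nonneg_right ?_ (by positivity)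
    have t1 : c * p * p ≤ c * p * h ^ 2 := mul_le_mul_of_nonneg_left hph (mul_nonneg hc0.le hp)
    have t2 : c * h ^ 2 * p ≤ (L + 1 + n + Λ + 1) * p := mul_le_mul_of_nonneg_right hch hp
    linarith
  have hLq : L * q = p * (L / ρ) := by rw [hq]; ring
  have hnq : (n + Λ + 1) * h * q ≤ p * ((n + Λ + 1) / ρ) := by
    have e1 : (n + Λ + 1) * h * q = h * (p * ((n + Λ + 1) / ρ)) := by rw [hq]; ring
    rw [e1]
    have t0 : 0 ≤ p * ((n + Λ + 1) / ρ) := by positivity
    exact mul_le_of_le_one_left t0 h1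
  have hpB : 2 * (p * B) ≤ p * ih := by
    have := mul_le_mul_of_nonneg_left hih2 hp
    linarith
  have hpsum : p * ((L + 1 + n + Λ + 1) / ρ ^ 2) + p * (L / ρ) + p * ((n + Λ + 1) / ρ) ≤ p * B := by
    have := mul_le_mul_of_nonneg_left hBa hp
    linarith [this, show p * ((L + 1 + n + Λ + 1) / ρ ^ 2 + L / ρ + (n + Λ + 1) / ρ) =
      p * ((L + 1 + n + Λ + 1) / ρ ^ 2) + p * (L / ρ) + p * ((n + Λ + 1) / ρ) by ring]
  have htge : -q ≤ t := hs.trans hst
  -- G t ≥ 0
  have hGt : 0 ≤ G t := by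
    have e1 : G t = -(n * ih + Λ + 1) * t ^ 2 + (n + Λ + 1) * h * t + p * ih := by
      simp only [hG, hc]; ring
    rw [e1]
    have hk : 0 ≤ n * ih + Λ + 1 := by positivity
    rcases le_total 0 t with ht | ht
    · have e2 : (n * ih + Λ + 1) * t ^ 2 ≤ (n * ih + Λ + 1) * (h ^ 2 * t) := by
        refine mul_le_mul_of_nonneg_left ?_ hk
        have t1 := mul_le_mul_of_nonneg_right hth ht
        linarith [sq t]
      have e3 : (n * ih + Λ + 1) * (h ^ 2 * t) = (n + (Λ + 1) * h) * h * t := by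
        have : (n * ih + Λ + 1) * (h ^ 2 * t) = (n * (ih * h) + (Λ + 1) * h) * h * t := by ring
        rw [this, hih1]; ring
      have e4 : (n + (Λ + 1) * h) * h * t ≤ (n + Λ + 1) * h * t := by
        have t1 : (Λ + 1) * h ≤ Λ + 1 := mul_le_of_le_one_right (by linarith) h1
        have h5 : 0 ≤ h * t := by positivity
        have t2 : (n + (Λ + 1) * h) * (h * t) ≤ (n + (Λ + 1)) * (h * t) :=
          mul_le_mul_of_nonneg_right (by linarith) h5
        linarith
      have : 0 ≤ p * ih := by positivity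
      linarith
    · have htq : t ^ 2 ≤ q ^ 2 := by
        apply sq_le_sq'
        · linarith
        · linarith
      have e2 : (n * ih + Λ + 1) * t ^ 2 ≤ c * q ^ 2 := by
        have t1 : n * ih + Λ + 1 ≤ c := by rw [hc]; linarith
        exact mul_le_mul t1 htq (sq_nonneg t) hc0.le
      have e3 : -((n + Λ + 1) * h * q) ≤ (n + Λ + 1) * h * t := by
        have t1 : 0 ≤ (n + Λ + 1) * h := by positivity
        have t2 := mul_le_mul_of_nonneg_left htge t1
        linarith
      have hpL : 0 ≤ p * (L / ρ) := by positivity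
      have hpBn : 0 ≤ p * B := by positivity
      linarith
  -- concavity
  have hslt : s < t := by
    rcases lt_or_eq_of_le hst with h' | h'
    · exact h'
    · rw [h'] at hGs; linarith
  have hconc : (t - -q) * G s - (t - s) * G (-q) - (s - -q) * G t =
      c * (t - s) * (s - -q) * (t - -q) := by
    simp only [hG]; ring
  have hsq : 0 ≤ s - -q := by linarith
  have htq' : 0 < t - -q := by linarith
  have hGq : G (-q) < 0 := by
    by_contra hcon
    push Not at hcon
    have e1 : 0 ≤ c * (t - s) * (s - -q) * (t - -q) := by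
      have : 0 ≤ t - s := by linarith
      positivity
    have e2 : (t - -q) * G s < 0 := mul_neg_of_pos_of_neg htq' hGs
    have e3 : 0 ≤ (t - s) * G (-q) := mul_nonneg (by linarith) hcon
    have e4 : 0 ≤ (s - -q) * G t := mul_nonneg hsq hGt
    linarith
  -- lower bound of G (-q)
  have hlow : a * t ^ 2 - L * t + p * ih / 2 ≤ G (-q) := by
    have e1 : G (-q) = a * t ^ 2 + (D1 + n + Λ + 1) * h * t - c * q ^ 2 + D1 * h * q + p * ih -
        L * t - L * q := by
      simp only [hG]; ring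
    rw [e1]
    have e2 : -((n + Λ + 1) * h * q) ≤ (D1 + n + Λ + 1) * h * t + D1 * h * q := by
      have hk : 0 ≤ (D1 + n + Λ + 1) * h := by positivity
      have t2 := mul_le_mul_of_nonneg_left htge hk
      linarith
    linarith
  have hneg : a * t ^ 2 - L * t + p * ih / 2 < 0 := lt_of_le_of_lt hlow hGq
  have hpi : 0 ≤ p * ih := by positivity
  have hat : a * t ^ 2 < L * t := by linarith
  have htpos : 0 < t := by
    by_contra hcon
    push Not at hcon
    have : L * t ≤ 0 := mul_nonpos_of_nonneg_of_nonpos hL hcon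
    have : 0 ≤ a * t ^ 2 := by positivity
    linarith
  have hatL : a * t < L := by
    have t1 : a * t * t < L * t := by
      have t2 : a * t * t = a * t ^ 2 := by ring
      rw [t2]; exact hat
    exact lt_of_mul_lt_mul_right t1 htpos.le
  refine ⟨?_, ?_, hslt⟩
  · -- p ih / 2 < L t - a t^2 ≤ ..., with u = t / h^2, a t^2 = (L+1) u^2 h^2
    have hh2 : 0 < h ^ 2 := by positivity
    have e0 : p * ih < 2 * (L * t - a * t ^ 2) := by linarith
    -- multiply by 2(L+1):  4 (L+1)(L t - a t^2) ≤ L^2 h^2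
    have e1 : 4 * (L + 1) * (L * t - a * t ^ 2) ≤ L ^ 2 * h ^ 2 := by
      have e2 : (L + 1) * (a * t ^ 2) = (a * t) ^ 2 * h ^ 2 := by
        rw [← hah]; ring
      have e3 : (L + 1) * t = (a * t) * h ^ 2 := by rw [← hah]; ring
      have e4 : 4 * (L + 1) * (L * t - a * t ^ 2) =
          (4 * L * (a * t) - 4 * (a * t) ^ 2) * h ^ 2 := by
        have : 4 * (L + 1) * (L * t - a * t ^ 2) =
          4 * L * ((L + 1) * t) - 4 * ((L + 1) * (a * t ^ 2)) := by ring
        rw [this, e2, e3]; ring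
      rw [e4]
      refine mul_le_mul_of_nonneg_right ?_ hh2.le
      have t1 := sq_nonneg (L - 2 * (a * t))
      have t2 : (L - 2 * (a * t)) ^ 2 = L ^ 2 - (4 * L * (a * t) - 4 * (a * t) ^ 2) := by ring
      linarith
    have e5 : p = p * ih * h := by rw [mul_assoc, hih1, mul_one]
    have hL1 : 0 < L + 1 := by linarith
    have e6 : 2 * (L + 1) * (p * ih) < 4 * (L + 1) * (L * t - a * t ^ 2) := by
      have t1 := mul_lt_mul_of_pos_left e0 (show 0 < 2 * (L + 1) by linarith)
      linarith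
    have e7 : 2 * (L + 1) * (p * ih) < L ^ 2 * h ^ 2 := lt_of_lt_of_le e6 e1
    have e8 : 2 * (L + 1) * p < L ^ 2 * h ^ 3 := by
      have t1 : 2 * (L + 1) * (p * ih) * h < L ^ 2 * h ^ 2 * h := mul_lt_mul_of_pos_right e7 hh
      have t2 : 2 * (L + 1) * (p * ih) * h = 2 * (L + 1) * (p * ih * h) := by ring
      rw [t2, ← e5] at t1
      linarith [t1, show L ^ 2 * h ^ 2 * h = L ^ 2 * h ^ 3 by ring]
    have e9 : L ^ 2 * h ^ 3 ≤ 2 * (L + 1) * ((L + 1) * h ^ 3) := by
      have hh3 : 0 < h ^ 3 := by positivity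
      have t1 : L ^ 2 ≤ 2 * (L + 1) * (L + 1) := by
        have t3 : 2 * (L + 1) * (L + 1) = 2 * L ^ 2 + 4 * L + 2 := by ring
        have t4 := sq_nonneg L
        linarith
      have t2 := mul_le_mul_of_nonneg_right t1 hh3.le
      linarith
    have e10 : 2 * (L + 1) * p < 2 * (L + 1) * ((L + 1) * h ^ 3) := lt_of_lt_of_le e8 e9
    exact lt_of_mul_lt_mul_left e10 (by positivity)
  · have hh2 : 0 < h ^ 2 := by positivity
    have e1 : (a * t) * h ^ 2 < (L + 1) * h ^ 2 := by
      refine mul_lt_mul_of_pos_right ?_ hh2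
      linarith
    have e2 : (a * t) * h ^ 2 = (L + 1) * t := by rw [← hah]; ring
    rw [e2] at e1
    exact lt_of_mul_lt_mul_left e1 (by linarith)

end Pool.Agent.Lib.MP_188651_an
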