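import Pool.Agent.Lib.MP_188651_an.ExND
import Pool.Agent.Lib.MP_188651_an.ExLapA
import Pool.Agent.Lib.MP_188651_an.ExLapB
import Pool.Agent.Lib.MP_188651_an.ExGeoB

/-!
# The normal derivative estimate
-/

open Set Filter Metric Topology InnerProductSpace Laplacian

namespace Pool.Agent.Lib.MP_188651_an

theorem nd_two (n : ℕ) {ρ α L Λ : ℝ} (hρ : 0 < ρ) (hα : 0 < α) (hL : 0 ≤ L) (hΛ : 0 ≤ Λ) :
    ∃ C > 0, ∃ h₀ > 0, ∀ (D : Set (EE n)) (N : EE n → EE n) (u : EE n → ℝ), BD ρ D N →
      (∀ x ∈ closure D, 0 ≤ u x ∧ u x ≤ 1) →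
      (∀ x ∈ closure D, ∀ x' ∈ closure D, |u x - u x'| ≤ L * ‖x - x'‖) →
      ContDiffOn ℝ 2 u D → (∀ x ∈ D, |(Δ u) x| ≤ Λ) → BSub D N α u → BSup D N α u → NDB D N α C h₀ u := by
  obtain ⟨C, hC, h₀, hh₀, H⟩ := nd_one n (ρ := ρ) (L := L + 1 / α) (Λ := Λ) (K₀ := (L + 1 / ρ) / α) hρ
    (by positivity) hΛ (by positivity)
  refine ⟨C, hC, h₀, hh₀, ?_⟩
  intro D N u hD hu01 hlip hsm hlap hsub hsup y hy h t hh hh1 ht0 ht1
  have hyc : y ∈ closure D := frontier_subset_closure hy
  have hNy : ‖N y‖ = 1 := hD.unit y hy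
  set b : ℝ := u y / α with hb
  have hb0 : 0 ≤ b := div_nonneg (hu01 y hyc).1 hα.le
  have hb1 : b ≤ 1 / α := div_le_div_of_nonneg_right (hu01 y hyc).2 hα.le
  have hanorm : ‖b • N y‖ ≤ 1 / α := by
    rw [norm_smul, hNy, mul_one, Real.norm_of_nonneg hb0]
    exact hb1
  -- the geometric estimate
  have hgeo : ∀ y' ∈ frontier D, 1 - inner ℝ (N y) (N y') ≤ ‖y' - y‖ / ρ := by
    intro y' hy'
    have h1 := hD.N_sub_le hy hy'
    have hNy' : ‖N y'‖ = 1 := hD.unit y' hy'
    have h2 : ‖N y - N y'‖ ^ 2 = 2 - 2 * inner ℝ (N y) (N y') := by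
      rw [norm_sub_sq_real, hNy, hNy']
      ring
    have h3 : ‖N y - N y'‖ ≤ 2 := by
      refine (norm_sub_le _ _).trans ?_
      rw [hNy, hNy']
      norm_num
    have h4 := norm_nonneg (N y - N y')
    rw [norm_sub_rev y' y]
    nlinarith
  have hginner : ∀ y' ∈ frontier D, inner ℝ (N y) (N y') ≤ (1 : ℝ) := by
    intro y' hy'
    have h1 := real_inner_le_norm (N y) (N y')
    rw [hNy, hD.unit y' hy'] at h1
    linarith
  -- the comparison function with sign
  have key : ∀ σ : ℝ, (σ = 1 ∨ σ = -1) →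
      σ * (u (y - t • N y) - u y - t / α * u y) ≤ C / h ^ 2 * t ^ 2 + C * h * t := by
    intro σ hσ
    have hσ1 : |σ| = 1 := by
      rcases hσ with rfl | rfl <;> simp
    set v : EE n → ℝ := fun x => σ * (u x + inner ℝ (b • N y) x) with hv
    have hvlip : ∀ x ∈ closure D, ∀ x' ∈ closure D, |v x - v x'| ≤ (L + 1 / α) * ‖x - x'‖ := by
      intro x hx x' hx'
      have h1 : v x - v x' = σ * ((u x - u x') + inner ℝ (b • N y) (x - x')) := by
        rw [hv, inner_sub_right]
        ring
      rw [h1, abs_mul, hσ1, one_mul]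
      refine (abs_add_le _ _).trans ?_
      have h2 := hlip x hx x' hx'
      have h3 : |(inner ℝ (b • N y) (x - x') : ℝ)| ≤ 1 / α * ‖x - x'‖ :=
        (abs_real_inner_le_norm _ _).trans (mul_le_mul_of_nonneg_right hanorm (norm_nonneg _))
      linarith
    have hin : ∀ x : EE n, ContDiffAt ℝ 2 (fun z : EE n => (inner ℝ (b • N y) z : ℝ)) x := fun x =>
      (inner_facts (b • N y) x).1.contDiffAt
    have hind : ∀ x w : EE n, fderiv ℝ (fun z : EE n => (inner ℝ (b • N y) z : ℝ)) x w =
        inner ℝ (b • N y) w := fun x => (inner_facts (b • N y) x).2.2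
    have hvsm : ContDiffOn ℝ 2 v D := by
      apply ContDiffOn.mul contDiffOn_const
      exact hsm.add (inner_facts (b • N y) (0 : EE n)).1.contDiffOn
    have hvlap : ∀ x ∈ D, |(Δ v) x| ≤ Λ := by
      intro x hx
      have hux : ContDiffAt ℝ 2 u x := hsm.contDiffAt (hD.isOpen.mem_nhds hx)
      have h1 : (Δ v) x = σ * ((Δ u) x + 0) := by
        rw [hv, lap_const_mul σ (hux.add (hin x)), lap_add hux (hin x), (inner_facts (b • N y) x).2.1]
      rw [h1, add_zero, abs_mul, hσ1, one_mul]
      exact hlap x hx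
    have hvb : ∀ y' ∈ frontier D, ∀ φ : EE n → ℝ, TouchB (closure D) v φ y' →
        -((L + 1 / ρ) / α * ‖y' - y‖) ≤ fderiv ℝ φ y' (N y') := by
      intro y' hy' φ hφ
      have hy'c : y' ∈ closure D := frontier_subset_closure hy'
      obtain ⟨hφ1, hφ2, hφ3⟩ := hφ
      have hg := hgeo y' hy'
      have hg2 := hginner y' hy'
      have hl := hlip y' hy'c y hyc
      have hl1 := le_abs_self (u y' - u y)
      have hl2 := neg_abs_le (u y' - u y)
      have hφD := (hφ1.differentiableAt (by norm_num)).hasFDerivAt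
      have hinD := ((hin y').differentiableAt (by norm_num)).hasFDerivAt
      have hn := norm_nonneg (y' - y)
      have hgoal : α * ((L + 1 / ρ) / α * ‖y' - y‖) = L * ‖y' - y‖ + ‖y' - y‖ / ρ := by
        field_simp
      have hib : (inner ℝ (b • N y) (N y') : ℝ) = b * inner ℝ (N y) (N y') := by
        rw [real_inner_smul_left]
      have hαb : α * b = u y := by
        rw [hb]
        field_simp
      have huy := (hu01 y hyc).2
      have huy0 := (hu01 y hyc).1
      have hprod : u y * (1 - inner ℝ (N y) (N y')) ≤ ‖y' - y‖ / ρ := by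
        have h0 : 0 ≤ 1 - (inner ℝ (N y) (N y') : ℝ) := by linarith
        calc u y * (1 - inner ℝ (N y) (N y')) ≤ 1 * (1 - inner ℝ (N y) (N y')) :=
              mul_le_mul_of_nonneg_right huy h0
          _ ≤ ‖y' - y‖ / ρ := by rw [one_mul]; exact hg
      have hprod0 : 0 ≤ u y * (1 - inner ℝ (N y) (N y')) := mul_nonneg huy0 (by linarith)
      have hdivn : 0 ≤ ‖y' - y‖ / ρ := by positivity
      have hLn : 0 ≤ L * ‖y' - y‖ := by positivity
      suffices hs : -(L * ‖y' - y‖ + ‖y' - y‖ / ρ) ≤ α * fderiv ℝ φ y' (N y') by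
        rw [← hgoal] at hs
        have h3 : α * -((L + 1 / ρ) / α * ‖y' - y‖) ≤ α * fderiv ℝ φ y' (N y') := by linarith
        exact le_of_mul_le_mul_left h3 hα
      rcases hσ with rfl | rfl
      · have hψ : TouchB (closure D) u (fun z => φ z - inner ℝ (b • N y) z) y' := by
          refine ⟨hφ1.sub (hin y'), ?_, ?_⟩
          · simp only [hφ2, hv]
            ring
          · filter_upwards [hφ3] with z hz
            simp only [hv] at hz
            linarith
        have h1 := hsup y' hy' _ hψ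
        have h2 : fderiv ℝ (fun z => φ z - inner ℝ (b • N y) z) y' (N y') =
            fderiv ℝ φ y' (N y') - inner ℝ (b • N y) (N y') := by
          have h4 := (hφD.sub hinD).fderiv
          have h5 : fderiv ℝ (fun z => φ z - inner ℝ (b • N y) z) y' = _ := h4
          rw [h5, ContinuousLinearMap.sub_apply, hind]
        rw [h2, hib] at h1
        have h6 : α * (fderiv ℝ φ y' (N y') - b * inner ℝ (N y) (N y')) =
            α * fderiv ℝ φ y' (N y') - (α * b) * inner ℝ (N y) (N y') := by ring
        rw [h6, hαb] at h1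
        linarith
      · have hψ : TouchA (closure D) u (fun z => -φ z - inner ℝ (b • N y) z) y' := by
          refine ⟨hφ1.neg.sub (hin y'), ?_, ?_⟩
          · simp only [hφ2, hv]
            ring
          · filter_upwards [hφ3] with z hz
            simp only [hv] at hz
            linarith
        have h1 := hsub y' hy' _ hψ
        have h2 : fderiv ℝ (fun z => -φ z - inner ℝ (b • N y) z) y' (N y') =
            -fderiv ℝ φ y' (N y') - inner ℝ (b • N y) (N y') := by
          have h4 := (hφD.neg.sub hinD).fderiv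
          have h5 : fderiv ℝ (fun z => -φ z - inner ℝ (b • N y) z) y' = _ := h4
          rw [h5, ContinuousLinearMap.sub_apply, hind, ContinuousLinearMap.neg_apply]
        rw [h2, hib] at h1
        have h6 : α * (-fderiv ℝ φ y' (N y') - b * inner ℝ (N y) (N y')) =
            -(α * fderiv ℝ φ y' (N y')) - (α * b) * inner ℝ (N y) (N y') := by ring
        rw [h6, hαb] at h1
        linarith
    have hmain := H D N y v hD hy hvlip hvsm hvlap hvb h t hh hh1 ht0 ht1
    have h9 : v (y - t • N y) - v y = σ * (u (y - t • N y) - u y - t / α * u y) := by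
      have h10 : (inner ℝ (b • N y) (t • N y) : ℝ) = b * t := by
        rw [real_inner_smul_right, real_inner_smul_left, real_inner_self_eq_norm_sq, hNy]
        ring
      simp only [hv]
      rw [inner_sub_right, h10, hb]
      ring
    rw [h9] at hmain
    exact hmain
  rw [abs_le]
  have k1 := key 1 (Or.inl rfl)
  have k2 := key (-1) (Or.inr rfl)
  constructor <;> linarith

end Pool.Agent.Lib.MP_188651_an
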