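import Pool.Agent.Lib.MP_188651_an.ExLift
import Pool.Agent.Lib.MP_188651_an.ExLipInt

/-!
# Continuity of the Perron solution
-/

open Set Filter Metric Topology InnerProductSpace Laplacian

namespace Pool.Agent.Lib.MP_188651_an

variable {n : ℕ} {ρ M α : ℝ} {D : Set (EE n)} {N : EE n → EE n} {g : EE n → ℝ}

theorem uP_cont (hn : 1 ≤ n) (h : BD ρ D N) (hα : 0 < α) (hg : Dat D M g) : ContinuousOn (uP D N M α g) D := by
  intro x0 hx0
  apply ContinuousAt.continuousWithinAt
  obtain ⟨r0, hr0, hb0⟩ := Metric.nhds_basis_closedBall.mem_iff.1 (h.isOpen.mem_nhds hx0)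
  have hM := hg.Mpos
  obtain ⟨r, hrdef⟩ : ∃ r, r = min r0 (min 1 (1 / M)) := ⟨_, rfl⟩
  have hr : 0 < r := by rw [hrdef]; positivity
  have hr1 : r ≤ 1 := by rw [hrdef]; exact (min_le_right _ _).trans (min_le_left _ _)
  have hrM : r ≤ 1 / M := by rw [hrdef]; exact (min_le_right _ _).trans (min_le_right _ _)
  have hb : closedBall x0 r ⊆ D := (closedBall_subset_closedBall (by rw [hrdef]; exact min_le_left _ _)).trans hb0
  have hMr : M * r ^ 2 ≤ 1 := by
    have h1 : M * r ≤ 1 := by
      rw [le_div_iff₀ hM] at hrM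
      linarith
    nlinarith
  obtain ⟨C, hC, hlip⟩ := lip_int n
  have hsub : ball x0 r ⊆ closure D := ball_subset_closedBall.trans (hb.trans subset_closure)
  have key : ∀ x ∈ ball x0 (r / 2), ∀ x' ∈ ball x0 (r / 2),
      uP D N M α g x ≤ uP D N M α g x' + C * (1 / r + M * r) * ‖x - x'‖ := by
    intro x hx x' hx'
    have hxc : x ∈ closure D := hsub (ball_subset_ball (by linarith) hx)
    have hxc' : x' ∈ closure D := hsub (ball_subset_ball (by linarith) hx')
    apply le_of_forall_pos_lt_add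
    intro ε hε
    obtain ⟨v, hv, hvx⟩ := (uP_facts h hα hg x hxc).2.2 ε hε
    obtain ⟨w, hw, hvw, hwc, hw2, hweq, -⟩ := PCl.lift hn h.isOpen hg hv hr hb hMr
    have h1 := hlip x0 r 1 M w hr zero_le_one hM.le hw2
      (fun z hz => by
        have k1 := hw.nonneg z (hsub hz)
        have k2 := hw.le_one z (hsub hz)
        rw [abs_le]; constructor <;> linarith)
      (fun z hz => by
        have k1 := hw.nonneg z (hsub hz)
        have k2 := hw.le_one z (hsub hz)
        have k3 := hg.nonneg z (hsub hz)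
        have k4 := hg.le z (hsub hz)
        have k5 := hweq z hz
        have k6 : M * w z ≤ M * 1 := mul_le_mul_of_nonneg_left k2 hM.le
        have k7 : 0 ≤ M * w z := mul_nonneg hM.le k1
        rw [abs_le]; constructor <;> linarith)
      x hx x' hx'
    have h2 := (abs_le.1 h1).2
    have h3 := hw.le_uP x' hxc'
    have h4 := hvw x hxc
    linarith
  rw [Metric.continuousAt_iff]
  intro ε hε
  obtain ⟨K, hK⟩ : ∃ K, K = C * (1 / r + M * r) := ⟨_, rfl⟩
  have hK0 : 0 ≤ K := by rw [hK]; positivity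
  refine ⟨min (r / 2) (ε / (K + 1)), by positivity, ?_⟩
  intro x hx
  have hx1 : x ∈ ball x0 (r / 2) := lt_of_lt_of_le hx (min_le_left _ _)
  have hx2 : dist x x0 < ε / (K + 1) := lt_of_lt_of_le hx (min_le_right _ _)
  have hx0' : x0 ∈ ball x0 (r / 2) := mem_ball_self (by linarith)
  have h1 := key x hx1 x0 hx0'
  have h2 := key x0 hx0' x hx1
  rw [← hK] at h1 h2
  rw [norm_sub_rev] at h2
  rw [dist_eq_norm] at hx2
  rw [lt_div_iff₀ (by linarith)] at hx2
  have h3 : K * ‖x - x0‖ < ε := by
    have := norm_nonneg (x - x0)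
    nlinarith
  rw [Real.dist_eq, abs_lt]
  constructor <;> linarith

end Pool.Agent.Lib.MP_188651_an
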