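import Pool.Agent.Lib.MP_188651_an.ExPerS

/-!
# The upper envelope
-/

open Set Filter Metric Topology InnerProductSpace Laplacian

namespace Pool.Agent.Lib.MP_188651_an

variable {n : ℕ} {ρ M α : ℝ} {D : Set (EE n)} {N : EE n → EE n} {g : EE n → ℝ}

private theorem env_ExPerB {S : Set (EE n)} {f : EE n → ℝ} (h0 : ∀ x ∈ S, 0 ≤ f x)
    (h1 : ∀ x ∈ S, f x ≤ 1) {x : EE n} (hx : x ∈ S) :
    (∀ a, limsup f (𝓝[S] x) < a → ∀ᶠ z in 𝓝[S] x, f z < a) ∧
    (∀ a, a < limsup f (𝓝[S] x) → ∃ᶠ z in 𝓝[S] x, a < f z) ∧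
    (∀ a, (∀ᶠ z in 𝓝[S] x, f z ≤ a) → limsup f (𝓝[S] x) ≤ a) := by
  have hne : (𝓝[S] x).NeBot := mem_closure_iff_nhdsWithin_neBot.1 (subset_closure hx)
  have hb : (𝓝[S] x).IsBoundedUnder (· ≤ ·) f :=
    isBoundedUnder_of_eventually_le (a := 1) (by
      filter_upwards [self_mem_nhdsWithin] with z hz using h1 z hz)
  have hb' : (𝓝[S] x).IsBoundedUnder (· ≥ ·) f :=
    isBoundedUnder_of_eventually_ge (a := 0) (by
      filter_upwards [self_mem_nhdsWithin] with z hz using h0 z hz)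
  have hc : (𝓝[S] x).IsCoboundedUnder (· ≤ ·) f := hb'.isCoboundedUnder_le
  refine ⟨fun a ha => eventually_lt_of_limsup_lt ha hb, fun a ha => frequently_lt_of_lt_limsup hc ha,
    fun a ha => limsup_le_of_le hc ha⟩

theorem uU_facts (hn : 1 ≤ n) (h : BD ρ D N) (hα : 0 < α) (hg : Dat D M g) :
    UpperSemicontinuousOn (uU D N M α g) (closure D) ∧ (∀ x ∈ closure D, uP D N M α g x ≤ uU D N M α g x) ∧
    (∀ x ∈ closure D, uU D N M α g x ≤ 1) ∧ (∀ x ∈ D, uU D N M α g x = uP D N M α g x) ∧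
    ∀ y ∈ closure D, ∃ x : ℕ → EE n, (∀ k, x k ∈ closure D) ∧ Tendsto x atTop (𝓝 y) ∧
      Tendsto (fun k => uP D N M α g (x k)) atTop (𝓝 (uU D N M α g y)) := by
  have hf := uP_facts h hα hg
  have h0 : ∀ x ∈ closure D, 0 ≤ uP D N M α g x := fun x hx => (hf x hx).1
  have h1 : ∀ x ∈ closure D, uP D N M α g x ≤ 1 := fun x hx => (hf x hx).2.1
  refine ⟨?_, ?_, ?_, ?_, ?_⟩
  · intro x hx a ha
    obtain ⟨b, hb1, hb2⟩ := exists_between ha
    have h2 := (env_ExPerB h0 h1 hx).1 b hb1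
    have h3 : ∀ᶠ z in 𝓝[closure D] x, ∀ᶠ z' in 𝓝[closure D] z, uP D N M α g z' < b :=
      eventually_eventually_nhdsWithin.2 h2
    filter_upwards [h3, self_mem_nhdsWithin] with z hz hzD
    exact lt_of_le_of_lt ((env_ExPerB h0 h1 hzD).2.2 b (hz.mono fun _ h => h.le)) hb2
  · intro x hx
    by_contra hlt
    push Not at hlt
    have h2 := (env_ExPerB h0 h1 hx).1 _ hlt
    exact absurd (h2.self_of_nhdsWithin hx) (lt_irrefl _)
  · intro x hx
    apply (env_ExPerB h0 h1 hx).2.2 1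
    filter_upwards [self_mem_nhdsWithin] with z hz using h1 z hz
  · intro x hx
    have h2 : 𝓝[closure D] x = 𝓝 x :=
      nhdsWithin_eq_nhds.2 (mem_of_superset (h.isOpen.mem_nhds hx) subset_closure)
    have h3 : Tendsto (uP D N M α g) (𝓝[closure D] x) (𝓝 (uP D N M α g x)) := by
      rw [h2]
      exact (uP_cont hn h hα hg).continuousAt (h.isOpen.mem_nhds hx)
    have hne : (𝓝[closure D] x).NeBot := by rw [h2]; infer_instance
    exact h3.limsup_eq
  · intro y hy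
    have h2 := env_ExPerB h0 h1 hy
    have key : ∀ k : ℕ, ∃ x ∈ closure D, dist x y < 1 / ((k : ℝ) + 1) ∧
        |uP D N M α g x - uU D N M α g y| < 1 / ((k : ℝ) + 1) := by
      intro k
      have hk : (0 : ℝ) < 1 / ((k : ℝ) + 1) := by positivity
      have h3 := h2.1 (uU D N M α g y + 1 / ((k : ℝ) + 1)) (lt_add_of_pos_right _ hk)
      have h4 := h2.2.1 (uU D N M α g y - 1 / ((k : ℝ) + 1)) (sub_lt_self _ hk)
      have h5 : ∀ᶠ z in 𝓝[closure D] y, dist z y < 1 / ((k : ℝ) + 1) :=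
        mem_nhdsWithin_of_mem_nhds (Metric.ball_mem_nhds y hk)
      obtain ⟨z, ⟨hz1, hz2, hz3⟩, hz4⟩ := (h4.and_eventually
        ((h3.and (h5.and self_mem_nhdsWithin)))).exists.imp fun z hz =>
          (⟨⟨hz.2.2.2, hz.2.2.1, hz.2.1⟩, hz.1⟩ : (z ∈ closure D ∧ dist z y < 1 / ((k : ℝ) + 1) ∧
            uP D N M α g z < uU D N M α g y + 1 / ((k : ℝ) + 1)) ∧
            uU D N M α g y - 1 / ((k : ℝ) + 1) < uP D N M α g z)
      refine ⟨z, hz1, hz2, ?_⟩
      rw [abs_lt]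
      constructor <;> linarith
    choose x hx1 hx2 hx3 using key
    refine ⟨x, hx1, ?_, ?_⟩
    · rw [tendsto_iff_dist_tendsto_zero]
      exact squeeze_zero (fun _ => dist_nonneg) (fun k => (hx2 k).le)
        tendsto_one_div_add_atTop_nhds_zero_nat
    · rw [tendsto_iff_dist_tendsto_zero]
      exact squeeze_zero (fun _ => dist_nonneg) (fun k => by rw [Real.dist_eq]; exact (hx3 k).le)
        tendsto_one_div_add_atTop_nhds_zero_nat

end Pool.Agent.Lib.MP_188651_an
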