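import Pool.Agent.Lib.MP_188651_an.ExPerB

/-!
# The lower envelope
-/

open Set Filter Metric Topology InnerProductSpace Laplacian

namespace Pool.Agent.Lib.MP_188651_an

variable {n : ℕ} {ρ M α : ℝ} {D : Set (EE n)} {N : EE n → EE n} {g : EE n → ℝ}

private theorem env_ExPerC {S : Set (EE n)} {f : EE n → ℝ} (h0 : ∀ x ∈ S, 0 ≤ f x)
    (h1 : ∀ x ∈ S, f x ≤ 1) {x : EE n} (hx : x ∈ closure S) :
    (∀ a, a < liminf f (𝓝[S] x) → ∀ᶠ z in 𝓝[S] x, a < f z) ∧
    (∀ a, liminf f (𝓝[S] x) < a → ∃ᶠ z in 𝓝[S] x, f z < a) ∧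
    (∀ a, (∀ᶠ z in 𝓝[S] x, a ≤ f z) → a ≤ liminf f (𝓝[S] x)) := by
  have hne : (𝓝[S] x).NeBot := mem_closure_iff_nhdsWithin_neBot.1 hx
  have hb : (𝓝[S] x).IsBoundedUnder (· ≤ ·) f :=
    isBoundedUnder_of_eventually_le (a := 1) (by
      filter_upwards [self_mem_nhdsWithin] with z hz using h1 z hz)
  have hb' : (𝓝[S] x).IsBoundedUnder (· ≥ ·) f :=
    isBoundedUnder_of_eventually_ge (a := 0) (by
      filter_upwards [self_mem_nhdsWithin] with z hz using h0 z hz)
  have hc : (𝓝[S] x).IsCoboundedUnder (· ≥ ·) f := hb.isCoboundedUnder_ge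
  refine ⟨fun a ha => eventually_lt_of_lt_liminf ha hb', fun a ha => frequently_lt_of_liminf_lt hc ha,
    fun a ha => le_liminf_of_le hc ha⟩

theorem uV_facts (hn : 1 ≤ n) (h : BD ρ D N) (hα : 0 < α) (hg : Dat D M g) :
    LowerSemicontinuousOn (uV D N M α g) (closure D) ∧ (∀ x ∈ closure D, 0 ≤ uV D N M α g x) ∧
    (∀ x ∈ closure D, uV D N M α g x ≤ uU D N M α g x) ∧ (∀ x ∈ D, uV D N M α g x = uP D N M α g x) ∧
    ∀ y ∈ frontier D, ∃ x : ℕ → EE n, (∀ k, x k ∈ D) ∧ Tendsto x atTop (𝓝 y) ∧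
      Tendsto (fun k => uP D N M α g (x k)) atTop (𝓝 (uV D N M α g y)) := by
  have hf := uP_facts h hα hg
  have h0 : ∀ x ∈ D, 0 ≤ uP D N M α g x := fun x hx => (hf x (subset_closure hx)).1
  have h1 : ∀ x ∈ D, uP D N M α g x ≤ 1 := fun x hx => (hf x (subset_closure hx)).2.1
  have hin : ∀ x ∈ D, uV D N M α g x = uP D N M α g x := fun x hx => if_pos hx
  have hout : ∀ x, x ∉ D → uV D N M α g x = liminf (uP D N M α g) (𝓝[D] x) :=
    fun x hx => if_neg hx
  have hseq : ∀ y ∈ frontier D, ∃ x : ℕ → EE n, (∀ k, x k ∈ D) ∧ Tendsto x atTop (𝓝 y) ∧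
      Tendsto (fun k => uP D N M α g (x k)) atTop (𝓝 (uV D N M α g y)) := by
    intro y hy
    have hy' := hy
    rw [h.isOpen.frontier_eq] at hy'
    have h2 := env_ExPerC h0 h1 hy'.1
    rw [← hout y hy'.2] at h2
    have key : ∀ k : ℕ, ∃ x ∈ D, dist x y < 1 / ((k : ℝ) + 1) ∧
        |uP D N M α g x - uV D N M α g y| < 1 / ((k : ℝ) + 1) := by
      intro k
      have hk : (0 : ℝ) < 1 / ((k : ℝ) + 1) := by positivity
      have h3 := h2.1 (uV D N M α g y - 1 / ((k : ℝ) + 1)) (sub_lt_self _ hk)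
      have h4 := h2.2.1 (uV D N M α g y + 1 / ((k : ℝ) + 1)) (lt_add_of_pos_right _ hk)
      have h5 : ∀ᶠ z in 𝓝[D] y, dist z y < 1 / ((k : ℝ) + 1) :=
        mem_nhdsWithin_of_mem_nhds (Metric.ball_mem_nhds y hk)
      obtain ⟨z, hz⟩ := (h4.and_eventually ((h3.and (h5.and self_mem_nhdsWithin)))).exists
      obtain ⟨hz1, hz2, hz3, hz4⟩ := hz
      refine ⟨z, hz4, hz3, ?_⟩
      rw [abs_lt]
      constructor <;> linarith
    choose x hx1 hx2 hx3 using key
    refine ⟨x, hx1, ?_, ?_⟩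
    · rw [tendsto_iff_dist_tendsto_zero]
      exact squeeze_zero (fun _ => dist_nonneg) (fun k => (hx2 k).le)
        tendsto_one_div_add_atTop_nhds_zero_nat
    · rw [tendsto_iff_dist_tendsto_zero]
      exact squeeze_zero (fun _ => dist_nonneg) (fun k => by rw [Real.dist_eq]; exact (hx3 k).le)
        tendsto_one_div_add_atTop_nhds_zero_nat
  refine ⟨?_, ?_, ?_, hin, hseq⟩
  · intro x hx a ha
    by_cases hxD : x ∈ D
    · rw [hin x hxD] at ha
      have h2 : ∀ᶠ z in 𝓝 x, a < uP D N M α g z :=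
        ((uP_cont hn h hα hg).continuousAt (h.isOpen.mem_nhds hxD)).eventually (lt_mem_nhds ha)
      apply mem_nhdsWithin_of_mem_nhds
      filter_upwards [h2, h.isOpen.mem_nhds hxD] with z hz hzD
      rw [hin z hzD]
      exact hz
    · rw [hout x hxD] at ha
      obtain ⟨b, hb1, hb2⟩ := exists_between ha
      have h2 := (env_ExPerC h0 h1 hx).1 b hb2
      rw [eventually_nhdsWithin_iff] at h2
      obtain ⟨O, hO1, hO2, hO3⟩ := _root_.eventually_nhds_iff.1 h2
      filter_upwards [mem_nhdsWithin_of_mem_nhds (hO2.mem_nhds hO3), self_mem_nhdsWithin]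
        with z hzO hzD
      by_cases hz : z ∈ D
      · rw [hin z hz]
        exact hb1.trans (hO1 z hzO hz)
      · rw [hout z hz]
        refine lt_of_lt_of_le hb1 ((env_ExPerC h0 h1 hzD).2.2 b ?_)
        filter_upwards [mem_nhdsWithin_of_mem_nhds (hO2.mem_nhds hzO), self_mem_nhdsWithin]
          with z' hz' hz'D
        exact (hO1 z' hz' hz'D).le
  · intro x hx
    by_cases hxD : x ∈ D
    · rw [hin x hxD]; exact h0 x hxD
    · rw [hout x hxD]
      apply (env_ExPerC h0 h1 hx).2.2 0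
      filter_upwards [self_mem_nhdsWithin] with z hz using h0 z hz
  · intro x hx
    obtain ⟨hU1, hU2, hU3, hU4, -⟩ := uU_facts hn h hα hg
    by_cases hxD : x ∈ D
    · rw [hin x hxD, hU4 x hxD]
    · have hxf : x ∈ frontier D := by
        rw [h.isOpen.frontier_eq]
        exact ⟨hx, hxD⟩
      obtain ⟨xs, hxs1, hxs2, hxs3⟩ := hseq x hxf
      by_contra hlt
      push Not at hlt
      obtain ⟨b, hb1, hb2⟩ := exists_between hlt
      have h2 := hU1 x hx b hb1
      have h3 : Tendsto xs atTop (𝓝[closure D] x) :=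
        tendsto_nhdsWithin_iff.2 ⟨hxs2, Eventually.of_forall fun k => subset_closure (hxs1 k)⟩
      have h4 : ∀ᶠ k in atTop, uU D N M α g (xs k) < b := h3.eventually h2
      have h5 : ∀ᶠ k in atTop, b < uP D N M α g (xs k) := hxs3.eventually (lt_mem_nhds hb2)
      obtain ⟨k, hk1, hk2⟩ := (h4.and h5).exists
      have := hU2 (xs k) (subset_closure (hxs1 k))
      linarith

end Pool.Agent.Lib.MP_188651_an
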