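import Pool.Agent.Lib.MP_188651_an.ExPerA

/-!
# The Perron solution is a classical solution inside
-/

open Set Filter Metric Topology InnerProductSpace Laplacian

namespace Pool.Agent.Lib.MP_188651_an

variable {n : ℕ} {ρ M α : ℝ} {D : Set (EE n)} {N : EE n → EE n} {g : EE n → ℝ}

theorem ExPerS_ball (hn : 1 ≤ n) (h : BD ρ D N) (hα : 0 < α) (hg : Dat D M g) {c : EE n} {r : ℝ}
    (hr : 0 < r) (hb : closedBall c r ⊆ D) (hMr : M * r ^ 2 ≤ 1) :
    ∃ w : EE n → ℝ, ContDiffOn ℝ 2 w (ball c r) ∧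
      (∀ x ∈ ball c r, -(Δ w) x + M * w x = g x) ∧ ∀ x ∈ closedBall c r, uP D N M α g x = w x := by
  have hDo : IsOpen D := h.isOpen
  have hcont : ContinuousOn (uP D N M α g) D := uP_cont hn h hα hg
  have hclD : D ⊆ closure D := subset_closure
  obtain ⟨w, hwc, hw2, hwe, hws⟩ := ball_solve hn hg.Mpos.le hr hMr (g := g) (b := uP D N M α g)
    (hg.cont.mono (hb.trans hclD)) (hg.smooth.mono (ball_subset_closedBall.trans hb)) (hcont.mono hb)
  refine ⟨w, hw2, hwe, fun x hx => le_antisymm ?_ ?_⟩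
  · -- every member of the class is below `w`
    refine le_of_forall_pos_lt_add fun ε hε => ?_
    obtain ⟨v, hv, hvx⟩ := (uP_facts h hα hg x (hclD (hb hx))).2.2 ε hε
    have h1 := isub_comp hn hDo hg.Mpos.le hv.int hv.cont hr hb hwc hw2
      (fun y hy => (hwe y hy).ge)
      (fun y hy => by
        rw [hws y hy]
        exact hv.le_uP y (hclD (hb (sphere_subset_closedBall hy)))) x hx
    linarith
  · refine le_of_forall_pos_le_add fun ε hε => ?_
    -- a member of the class which is close to `uP` on the sphere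
    have hex : ∃ v : EE n → ℝ, PCl D N M α g v ∧ ∀ y ∈ sphere c r, uP D N M α g y - ε < v y := by
      refine (isCompact_sphere c r).induction_on
        (p := fun s => ∃ v : EE n → ℝ, PCl D N M α g v ∧ ∀ y ∈ s, uP D N M α g y - ε < v y) ?_ ?_ ?_ ?_
      · exact ⟨_, PCl.zero h hα hg, fun y hy => absurd hy (notMem_empty y)⟩
      · rintro s t hst ⟨v, hv, hvt⟩
        exact ⟨v, hv, fun y hy => hvt y (hst hy)⟩
      · rintro s t ⟨v, hv, hvs⟩ ⟨v', hv', hvt⟩
        refine ⟨_, hv.max hv', ?_⟩
        rintro y (hy | hy)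
        · exact lt_of_lt_of_le (hvs y hy) (le_max_left _ _)
        · exact lt_of_lt_of_le (hvt y hy) (le_max_right _ _)
      · intro p hp
        have hpD : p ∈ D := hb (sphere_subset_closedBall hp)
        obtain ⟨v, hv, hvp⟩ := (uP_facts h hα hg p (hclD hpD)).2.2 ε hε
        have hca : ContinuousAt (fun y => v y - (uP D N M α g y - ε)) p :=
          (hv.cont.continuousAt (hDo.mem_nhds hpD)).sub
            ((hcont.continuousAt (hDo.mem_nhds hpD)).sub continuousAt_const)
        have hev : ∀ᶠ y in 𝓝 p, 0 < v y - (uP D N M α g y - ε) :=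
          hca.eventually (lt_mem_nhds (by linarith))
        refine ⟨{y | 0 < v y - (uP D N M α g y - ε)}, mem_nhdsWithin_of_mem_nhds hev, v, hv, ?_⟩
        intro y hy
        have hy' : 0 < v y - (uP D N M α g y - ε) := hy
        linarith
    obtain ⟨v, hv, hvs⟩ := hex
    obtain ⟨w', hw', -, hw'c, hw'2, hw'e, hw's⟩ := hv.lift hn hDo hg hr hb hMr
    have hcl : closure (ball c r) = closedBall c r := closure_ball c hr.ne'
    have hfr : frontier (ball c r) = sphere c r := frontier_ball c hr.ne'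
    have hcε : ContDiffOn ℝ 2 (fun _ : EE n => ε) (ball c r) := contDiffOn_const
    have h1 := comp_bdd hn (O := ball c r) isOpen_ball isBounded_ball hg.Mpos.le (u := w)
      (v := fun y => w' y + ε) (by rw [hcl]; exact hwc)
      (by rw [hcl]; exact hw'c.add continuousOn_const) hw2 (hw'2.add hcε)
      (by
        intro y hy
        have hya : ContDiffAt ℝ 2 w' y := hw'2.contDiffAt (isOpen_ball.mem_nhds hy)
        have hyc : ContDiffAt ℝ 2 (fun _ : EE n => ε) y := contDiffAt_const
        rw [lap_add hya hyc, lap_const]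
        have h2 := hwe y hy
        have h3 := hw'e y hy
        have h4 := mul_pos hg.Mpos hε
        nlinarith)
      (by
        intro y hy
        rw [hfr] at hy
        rw [hws y hy]
        simp only [hw's y hy]
        linarith [hvs y hy])
      x (by rw [hcl]; exact hx)
    have h2 : w' x ≤ uP D N M α g x := hw'.le_uP x (hclD (hb hx))
    have h3 : w x ≤ w' x + ε := h1
    linarith

theorem uP_sol (hn : 1 ≤ n) (h : BD ρ D N) (hα : 0 < α) (hg : Dat D M g) : ContDiffOn ℝ 2 (uP D N M α g) D ∧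
    ∀ x ∈ D, -(Δ (uP D N M α g)) x + M * uP D N M α g x = g x := by
  have hkey : ∀ x ∈ D, ContDiffAt ℝ 2 (uP D N M α g) x ∧
      -(Δ (uP D N M α g)) x + M * uP D N M α g x = g x := by
    intro c hc
    obtain ⟨ε, hε, hεD⟩ := Metric.nhds_basis_closedBall.mem_iff.1 (h.isOpen.mem_nhds hc)
    have hM := hg.Mpos
    obtain ⟨r, hr, hrε, hMr⟩ : ∃ r : ℝ, 0 < r ∧ r ≤ ε ∧ M * r ^ 2 ≤ 1 := by
      refine ⟨min ε (1 / (M + 1)), by positivity, min_le_left _ _, ?_⟩
      have h1 : min ε (1 / (M + 1)) ≤ 1 / (M + 1) := min_le_right _ _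
      have h2 : 0 < min ε (1 / (M + 1)) := by positivity
      have h3 : min ε (1 / (M + 1)) ^ 2 ≤ (1 / (M + 1)) ^ 2 := pow_le_pow_left₀ h2.le h1 2
      calc M * min ε (1 / (M + 1)) ^ 2 ≤ M * (1 / (M + 1)) ^ 2 := mul_le_mul_of_nonneg_left h3 hM.le
        _ = M / (M + 1) ^ 2 := by rw [div_pow, one_pow]; ring
        _ ≤ 1 := by
            rw [div_le_one (by positivity)]
            nlinarith
    have hb : closedBall c r ⊆ D := (closedBall_subset_closedBall hrε).trans hεD
    obtain ⟨w, hw2, hwe, hwx⟩ := ExPerS_ball hn h hα hg hr hb hMr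
    have hev : uP D N M α g =ᶠ[𝓝 c] w := by
      filter_upwards [ball_mem_nhds c hr] with y hy
      exact hwx y (ball_subset_closedBall hy)
    have hcb : c ∈ ball c r := mem_ball_self hr
    refine ⟨(hw2.contDiffAt (isOpen_ball.mem_nhds hcb)).congr_of_eventuallyEq hev, ?_⟩
    rw [lap_congr hev, hwx c (mem_closedBall_self hr.le)]
    exact hwe c hcb
  exact ⟨fun x hx => (hkey x hx).1.contDiffWithinAt, fun x hx => (hkey x hx).2⟩

end Pool.Agent.Lib.MP_188651_an
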