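import Pool.Agent.Lib.MP_188651_an.ExExt

/-!
# Stability of the boundary condition
-/

open Set Filter Metric Topology InnerProductSpace Laplacian

namespace Pool.Agent.Lib.MP_188651_an

variable {n : ℕ} {ρ M α : ℝ} {D : Set (EE n)} {N : EE n → EE n} {g : EE n → ℝ}

/-- a `C²` function at `x` touches from above after a vertical translation -/
private theorem touch_ExStab {S : Set (EE n)} {v φ : EE n → ℝ} {x : EE n} (hφ : ContDiffAt ℝ 2 φ x)
    (h : ∀ᶠ z in 𝓝[S] x, v z - φ z ≤ v x - φ x) :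
    TouchA S v (fun z => φ z + (v x - φ x)) x := by
  refine ⟨hφ.add contDiffAt_const, by ring, ?_⟩
  filter_upwards [h] with z hz
  linarith

private theorem lap_shift_ExStab {φ : EE n → ℝ} {x : EE n} (c : ℝ) (hφ : ContDiffAt ℝ 2 φ x) :
    (Δ (fun z => φ z + c)) x = (Δ φ) x := by
  rw [lap_add hφ contDiffAt_const, lap_const, add_zero]

theorem stab (h : BD ρ D N) (hα : 0 < α) (hg : Dat D M g) {y : EE n} (hy : y ∈ frontier D) {U : EE n → ℝ}
    (v : ℕ → EE n → ℝ) (hv : ∀ k, PCl D N M α g (v k)) (hle : ∀ k, ∀ x ∈ closure D, v k x ≤ U x)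
    (x : ℕ → EE n) (hx : ∀ k, x k ∈ closure D) (hxy : Tendsto x atTop (𝓝 y))
    (hlim : Tendsto (fun k => v k (x k)) atTop (𝓝 (U y))) {φ : EE n → ℝ} (hφ : TouchA (closure D) U φ y) :
    U y + α * fderiv ℝ φ y (N y) ≤ 0 := by
  by_contra hcon
  push Not at hcon
  obtain ⟨hφ1, hφ2, hφ3⟩ := hφ
  set P := U y + α * fderiv ℝ φ y (N y) with hP
  have hyc : y ∈ closure D := frontier_subset_closure hy
  -- the modification
  obtain ⟨χ, hχ1, hχ2, hχ3, hχ4, hχ5⟩ := exists_chi (η := P / (2 * α)) (B := |(Δ φ) y| + 1 + (M + 1)) h hy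
    (by positivity)
  set ψ : EE n → ℝ := fun z => φ z + χ z with hψ
  have hψc : ContDiffAt ℝ 2 ψ y := hφ1.add hχ1
  have hψy : ψ y = U y := by simp only [hψ, hφ2, hχ2, add_zero]
  have hψd : fderiv ℝ ψ y (N y) = fderiv ℝ φ y (N y) - P / (2 * α) := by
    have h1 : fderiv ℝ ψ y = fderiv ℝ φ y + fderiv ℝ χ y := by
      simp only [hψ]
      exact fderiv_fun_add (hφ1.differentiableAt (by norm_num)) (hχ1.differentiableAt (by norm_num))
    rw [h1, _root_.add_apply, hχ3]
    ring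
  have hψP : 0 < U y + α * fderiv ℝ ψ y (N y) := by
    rw [hψd]
    have h1 : U y + α * (fderiv ℝ φ y (N y) - P / (2 * α)) = P - P / 2 := by
      rw [hP]; field_simp; ring
    rw [h1]; linarith
  set κ := (U y + α * fderiv ℝ ψ y (N y)) / 3 with hκ
  have hκp : 0 < κ := by positivity
  -- properties near y
  have e1 : ∀ᶠ z in 𝓝 y, ContDiffAt ℝ 2 ψ z := hψc.eventually (by simp)
  have e2 : ∀ᶠ z in 𝓝 y, M + 1 ≤ -(Δ ψ) z := by
    have a1 : ∀ᶠ z in 𝓝 y, (Δ φ) z < |(Δ φ) y| + 1 :=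
      (lap_continuousAt hφ1).eventually (gt_mem_nhds (by
        have := le_abs_self ((Δ φ) y)
        linarith))
    have a2 : ∀ᶠ z in 𝓝 y, ContDiffAt ℝ 2 φ z := hφ1.eventually (by simp)
    have a3 : ∀ᶠ z in 𝓝 y, ContDiffAt ℝ 2 χ z := hχ1.eventually (by simp)
    filter_upwards [a1, a2, a3, hχ5] with z b1 b2 b3 b4
    have : (Δ ψ) z = (Δ φ) z + (Δ χ) z := lap_add b2 b3
    rw [this]
    linarith
  have e3 : ∀ᶠ z in 𝓝 y, z ∈ closure D → U z + ‖z - y‖ ^ 4 ≤ ψ z := by
    have := hφ3.and hχ4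
    rw [eventually_nhdsWithin_iff] at this
    filter_upwards [this] with z hz hzD
    obtain ⟨b1, b2⟩ := hz hzD
    simp only [hψ]
    linarith
  have e4 : ∀ᶠ z in 𝓝 y, z ∈ frontier D → fderiv ℝ ψ y (N y) - κ / α < fderiv ℝ ψ z (N z) := by
    have := (tendsto_normal_deriv h hy hψc).eventually
      (lt_mem_nhds (show fderiv ℝ ψ y (N y) - κ / α < fderiv ℝ ψ y (N y) by
        have : 0 < κ / α := by positivity
        linarith))
    rwa [eventually_nhdsWithin_iff] at this
  obtain ⟨r, hr, hball⟩ := Metric.eventually_nhds_iff.mp (e1.and (e2.and (e3.and e4)))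
  set K := closure D ∩ closedBall y (r / 2) with hK
  have hKc : IsCompact K := (isCompact_closedBall y (r / 2)).inter_left isClosed_closure
  have hin : ∀ z ∈ K, dist z y < r := fun z hz => lt_of_le_of_lt hz.2 (by linarith)
  -- maximum points
  have hex : ∀ k, ∃ z ∈ K, ∀ w ∈ K, v k w - ψ w ≤ v k z - ψ z := by
    intro k
    have h1 : UpperSemicontinuousOn (fun w => v k w - ψ w) K := by
      intro a ha c hc
      simp only at hc
      set η := (c - (v k a - ψ a)) / 2 with hη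
      have hη0 : 0 < η := by rw [hη]; linarith
      have c1 : ∀ᶠ w in 𝓝[K] a, v k w < v k a + η :=
        ((hv k).usc.mono inter_subset_left) a ha _ (by linarith)
      have c2 : ∀ᶠ w in 𝓝[K] a, ψ a - η < ψ w :=
        nhdsWithin_le_nhds ((hball (hin a ha)).1.continuousAt.eventually (lt_mem_nhds (by linarith)))
      filter_upwards [c1, c2] with w d1 d2
      have : c = v k a - ψ a + 2 * η := by rw [hη]; ring
      rw [this]
      linarith
    obtain ⟨z, hz, hm⟩ := h1.exists_isMaxOn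
      (show K.Nonempty from ⟨y, hyc, mem_closedBall_self (by linarith)⟩) hKc
    exact ⟨z, hz, fun w hw => isMaxOn_iff.mp hm w hw⟩
  choose z hzK hzm using hex
  -- gap
  have hgap : Tendsto (fun k => ψ (x k) - v k (x k)) atTop (𝓝 0) := by
    have h1 : Tendsto (fun k => ψ (x k)) atTop (𝓝 (ψ y)) := hψc.continuousAt.tendsto.comp hxy
    have h2 := h1.sub hlim
    rwa [hψy, sub_self] at h2
  have hxK : ∀ᶠ k in atTop, x k ∈ K := by
    filter_upwards [hxy.eventually (closedBall_mem_nhds y (show 0 < r / 2 by linarith))] with k hk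
    exact ⟨hx k, hk⟩
  have hkey : ∀ᶠ k in atTop, ‖z k - y‖ ^ 4 ≤ ψ (x k) - v k (x k) ∧
      ψ (z k) - (ψ (x k) - v k (x k)) ≤ v k (z k) := by
    filter_upwards [hxK] with k hk
    have h1 := hzm k (x k) hk
    have h2 := (hball (hin _ (hzK k))).2.2.1 (hzK k).1
    have h3 := hle k (z k) (hzK k).1
    constructor <;> linarith
  have hzy : Tendsto z atTop (𝓝 y) := by
    rw [tendsto_iff_norm_sub_tendsto_zero, Metric.tendsto_atTop]
    intro ε hε
    have h1 : ∀ᶠ k in atTop, ψ (x k) - v k (x k) < ε ^ 4 :=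
      hgap.eventually (gt_mem_nhds (by positivity))
    obtain ⟨J, hJ⟩ := eventually_atTop.mp (h1.and hkey)
    refine ⟨J, fun j hj => ?_⟩
    rw [Real.dist_0_eq_abs, abs_of_nonneg (norm_nonneg _)]
    have h2 := hJ j hj
    exact lt_of_pow_lt_pow_left₀ 4 hε.le (lt_of_le_of_lt h2.2.1 h2.1)
  -- one good k
  have f1 : ∀ᶠ k in atTop, dist (z k) y < r / 2 := hzy.eventually (ball_mem_nhds y (by linarith))
  have f2 : ∀ᶠ k in atTop, ψ (x k) - v k (x k) < κ / 2 :=
    hgap.eventually (gt_mem_nhds (by positivity))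
  have f3 : ∀ᶠ k in atTop, U y - κ / 2 < ψ (z k) := by
    have h1 : Tendsto (fun k => ψ (z k)) atTop (𝓝 (ψ y)) := hψc.continuousAt.tendsto.comp hzy
    exact h1.eventually (lt_mem_nhds (by rw [hψy]; linarith))
  obtain ⟨k, ⟨g1, g2⟩, g3, g4⟩ := ((hkey.and f1).and (f2.and f3)).exists
  have hloc : ∀ᶠ w in 𝓝[closure D] (z k), v k w - ψ w ≤ v k (z k) - ψ (z k) := by
    rw [eventually_nhdsWithin_iff]
    filter_upwards [isOpen_ball.mem_nhds (show z k ∈ ball y (r / 2) from g2)] with w hw hwD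
    exact hzm k w ⟨hwD, ball_subset_closedBall hw⟩
  have hzr : dist (z k) y < r := hin _ (hzK k)
  obtain ⟨b1, b2, b3, b4⟩ := hball hzr
  by_cases hzD : z k ∈ D
  · have hT := touch_ExStab (S := D) (v := v k) b1
      (hloc.filter_mono (nhdsWithin_mono _ subset_closure))
    have h1 := (hv k).int (z k) hzD _ hT
    rw [lap_shift_ExStab _ b1] at h1
    have h2 := hg.le (z k) (subset_closure hzD)
    have h3 := (hv k).nonneg (z k) (subset_closure hzD)
    have h4 : 0 ≤ M * v k (z k) := mul_nonneg hg.Mpos.le h3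
    linarith
  · have hzF : z k ∈ frontier D := by
      rw [frontier, h.isOpen.interior_eq]
      exact ⟨(hzK k).1, hzD⟩
    have hT := touch_ExStab (S := closure D) (v := v k) b1 hloc
    have h1 := (hv k).bd (z k) hzF _ hT
    have h2 : fderiv ℝ (fun w => ψ w + (v k (z k) - ψ (z k))) (z k) = fderiv ℝ ψ (z k) := by
      rw [fderiv_add_const]
    rw [h2] at h1
    have h3 := b4 hzF
    have h4 : U y - κ < v k (z k) := by linarith
    have h5 : α * (fderiv ℝ ψ y (N y) - κ / α) < α * fderiv ℝ ψ (z k) (N (z k)) :=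
      mul_lt_mul_of_pos_left h3 hα
    have h6 : α * (fderiv ℝ ψ y (N y) - κ / α) = α * fderiv ℝ ψ y (N y) - κ := by
      field_simp
    have h7 : U y + α * fderiv ℝ ψ y (N y) = 3 * κ := by rw [hκ]; ring
    linarith

end Pool.Agent.Lib.MP_188651_an
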