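import Pool.Agent.Lib.MP_188651_an.ExPerB
import Pool.Agent.Lib.MP_188651_an.ExStab

/-!
# The upper envelope belongs to the Perron class
-/

open Set Filter Metric Topology InnerProductSpace Laplacian

namespace Pool.Agent.Lib.MP_188651_an

variable {n : ℕ} {ρ M α : ℝ} {D : Set (EE n)} {N : EE n → EE n} {g : EE n → ℝ}

theorem uU_mem (hn : 1 ≤ n) (h : BD ρ D N) (hα : 0 < α) (hg : Dat D M g) : PCl D N M α g (uU D N M α g) := by
  obtain ⟨hf1, hf2, hf3, hf4, hf5⟩ := uU_facts hn h hα hg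
  obtain ⟨hs1, hs2⟩ := uP_sol hn h hα hg
  have hP := uP_facts h hα hg
  refine ⟨?_, hf1, ?_, hf3, ?_, ?_⟩
  · exact hs1.continuousOn.congr hf4
  · intro x hx
    exact (hP x hx).1.trans (hf2 x hx)
  · intro x hx φ hφ
    obtain ⟨h1, h2, h3⟩ := hφ
    have hD : D ∈ 𝓝 x := h.isOpen.mem_nhds hx
    have hC : ContDiffAt ℝ 2 (uP D N M α g) x := hs1.contDiffAt hD
    have hmax : IsLocalMax (fun z => uP D N M α g z - φ z) x := by
      have h4 : ∀ᶠ z in 𝓝 x, uU D N M α g z ≤ φ z := by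
        rwa [nhdsWithin_eq_nhds.mpr hD] at h3
      filter_upwards [h4, hD] with z hz hzD
      rw [hf4 z hzD] at hz
      have h5 : φ x = uP D N M α g x := by rw [h2, hf4 x hx]
      simp only [h5, sub_self]
      linarith
    have h6 := (lap_le_of_isLocalMax (hC.sub h1) hmax).2
    rw [lap_sub hC h1] at h6
    have h7 := hs2 x hx
    rw [hf4 x hx]
    linarith
  · intro y hy φ hφ
    obtain ⟨x, hx1, hx2, hx3⟩ := hf5 y (frontier_subset_closure hy)
    have hv : ∀ k : ℕ, ∃ v, PCl D N M α g v ∧ uP D N M α g (x k) - 1 / ((k : ℝ) + 1) < v (x k) :=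
      fun k => (hP (x k) (hx1 k)).2.2 _ (by positivity)
    choose v hv1 hv2 using hv
    refine stab h hα hg hy v hv1 (fun k z hz => ((hv1 k).le_uP z hz).trans (hf2 z hz)) x hx1 hx2 ?_ hφ
    have h0 : Tendsto (fun k : ℕ => uP D N M α g (x k) - 1 / ((k : ℝ) + 1)) atTop
        (𝓝 (uU D N M α g y)) := by
      have := hx3.sub tendsto_one_div_add_atTop_nhds_zero_nat
      simpa using this
    exact tendsto_of_tendsto_of_tendsto_of_le_of_le h0 hx3 (fun k => (hv2 k).le)
      (fun k => (hv1 k).le_uP (x k) (hx1 k))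

end Pool.Agent.Lib.MP_188651_an
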