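import Pool.Agent.Lib.MP_188651_an.ExPerC
import Pool.Agent.Lib.MP_188651_an.ExPerU
import Pool.Agent.Lib.MP_188651_an.ExExt

/-!
# The bump argument
-/

open Set Filter Metric Topology InnerProductSpace Laplacian

namespace Pool.Agent.Lib.MP_188651_an

variable {n : ℕ} {ρ M α : ℝ} {D : Set (EE n)} {N : EE n → EE n} {g : EE n → ℝ}

private theorem near_ExPerV (y : EE n) {r : ℝ} {z : EE n} (hz : ‖z - y‖ < r) :
    ∀ᶠ x in 𝓝 z, ‖x - y‖ < r :=
  (by fun_prop : Continuous fun x : EE n => ‖x - y‖).continuousAt.eventually_lt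
    continuousAt_const hz

private theorem far_ExPerV (y : EE n) {r : ℝ} {z : EE n} (hz : r < ‖z - y‖) :
    ∀ᶠ x in 𝓝 z, r < ‖x - y‖ :=
  continuousAt_const.eventually_lt
    (by fun_prop : Continuous fun x : EE n => ‖x - y‖).continuousAt hz

/-- adding a bump to an element of the Perron class -/
private theorem bump_ExPerV (h : BD ρ D N) (hα : 0 < α) (hg : Dat D M g) {U ψ : EE n → ℝ}
    (hU : PCl D N M α g U) {y : EE n} {r : ℝ} (hr : 0 < r)
    (c2 : ∀ z, ‖z - y‖ < r → ContDiffAt ℝ 2 ψ z)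
    (hlow : ∀ z ∈ closure D, r / 2 < ‖z - y‖ → ‖z - y‖ < r → ψ z ≤ U z)
    (h1 : ∀ z, ‖z - y‖ < r → ψ z ≤ 1)
    (hlap : ∀ z, ‖z - y‖ < r → M + 1 ≤ (Δ ψ) z)
    (hbd : ∀ z ∈ frontier D, ‖z - y‖ < r → ψ z + α * fderiv ℝ ψ z (N z) ≤ 0) :
    ∃ w : EE n → ℝ, PCl D N M α g w ∧ ∀ z, ‖z - y‖ < r → ψ z ≤ w z := by
  obtain ⟨w, hw⟩ : ∃ w : EE n → ℝ, ∀ z, w z = if ‖z - y‖ < r then max (U z) (ψ z) else U z :=
    ⟨_, fun z => rfl⟩
  have hUw : ∀ z, U z ≤ w z := by
    intro z
    rw [hw]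
    split_ifs
    · exact le_max_left _ _
    · exact le_rfl
  have hψw : ∀ z, ‖z - y‖ < r → ψ z ≤ w z := by
    intro z hz
    rw [hw, if_pos hz]
    exact le_max_right _ _
  have hfar : ∀ z ∈ closure D, r / 2 < ‖z - y‖ → w z = U z := by
    intro z hz hz2
    rw [hw]
    split_ifs with h3
    · exact max_eq_left (hlow z hz hz2 h3)
    · rfl
  have hcase : ∀ z, w z = U z ∨ (‖z - y‖ < r ∧ w z = ψ z) := by
    intro z
    rw [hw]
    split_ifs with h3
    · rcases le_total (U z) (ψ z) with h4 | h4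
      · right
        exact ⟨h3, max_eq_right h4⟩
      · left
        exact max_eq_left h4
    · left
      rfl
  have hle1 : ∀ x ∈ closure D, w x ≤ 1 := by
    intro x hx
    rcases hcase x with h3 | ⟨h3, h4⟩
    · rw [h3]
      exact hU.le_one x hx
    · rw [h4]
      exact h1 x h3
  refine ⟨w, ⟨?_, ?_, ?_, hle1, ?_, ?_⟩, hψw⟩
  · intro z hz
    by_cases hzr : ‖z - y‖ < r
    · have e : (fun x => max (U x) (ψ x)) =ᶠ[𝓝 z] w := by
        filter_upwards [near_ExPerV y hzr] with x hx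
        rw [hw, if_pos hx]
      have c : ContinuousAt (fun x => max (U x) (ψ x)) z :=
        (hU.cont.continuousAt (h.isOpen.mem_nhds hz)).max (c2 z hzr).continuousAt
      exact (c.congr e).continuousWithinAt
    · have hz2 : r / 2 < ‖z - y‖ := by
        push Not at hzr
        linarith
      have e : U =ᶠ[𝓝 z] w := by
        filter_upwards [far_ExPerV y hz2, h.isOpen.mem_nhds hz] with x hx hx2
        exact (hfar x (subset_closure hx2) hx).symm
      exact ((hU.cont.continuousAt (h.isOpen.mem_nhds hz)).congr e).continuousWithinAt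
  · rw [upperSemicontinuousOn_iff]
    intro z hz
    rw [upperSemicontinuousWithinAt_iff]
    intro c hc
    have u1 := upperSemicontinuousWithinAt_iff.1
      (upperSemicontinuousOn_iff.1 hU.usc z hz) c ((hUw z).trans_lt hc)
    by_cases hzr : ‖z - y‖ < r
    · have u2 : ∀ᶠ x in 𝓝 z, ψ x < c :=
        (c2 z hzr).continuousAt.eventually_lt continuousAt_const ((hψw z hzr).trans_lt hc)
      filter_upwards [u1, nhdsWithin_le_nhds u2, nhdsWithin_le_nhds (near_ExPerV y hzr)]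
        with x hx1 hx2 hx3
      rw [hw, if_pos hx3]
      exact max_lt hx1 hx2
    · have hz2 : r / 2 < ‖z - y‖ := by
        push Not at hzr
        linarith
      filter_upwards [u1, self_mem_nhdsWithin, nhdsWithin_le_nhds (far_ExPerV y hz2)]
        with x hx1 hx2 hx3
      rw [hfar x hx2 hx3]
      exact hx1
  · intro x hx
    exact (hU.nonneg x hx).trans (hUw x)
  · intro x hx θ hθ
    obtain ⟨t1, t2, t3⟩ := hθ
    rcases hcase x with h3 | ⟨h3, h4⟩
    · rw [h3]
      refine hU.int x hx θ ⟨t1, t2.trans h3, ?_⟩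
      filter_upwards [t3] with z hz
      exact (hUw z).trans hz
    · have hloc : IsLocalMax (fun z => ψ z - θ z) x := by
        have t3' : ∀ᶠ z in 𝓝 x, w z ≤ θ z := by
          rwa [h.isOpen.nhdsWithin_eq hx] at t3
        filter_upwards [t3', near_ExPerV y h3] with z hz hz2
        show ψ z - θ z ≤ ψ x - θ x
        have h5 := hψw z hz2
        rw [t2, h4]
        linarith
      have h6 := (lap_le_of_isLocalMax ((c2 x h3).sub t1) hloc).2
      rw [lap_sub (c2 x h3) t1] at h6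
      have h7 := hlap x h3
      have h8 := hle1 x (subset_closure hx)
      have h9 := hg.nonneg x (subset_closure hx)
      have h10 : M * w x ≤ M * 1 := mul_le_mul_of_nonneg_left h8 hg.Mpos.le
      linarith
  · intro x hx θ hθ
    obtain ⟨t1, t2, t3⟩ := hθ
    rcases hcase x with h3 | ⟨h3, h4⟩
    · rw [h3]
      refine hU.bd x hx θ ⟨t1, t2.trans h3, ?_⟩
      filter_upwards [t3] with z hz
      exact (hUw z).trans hz
    · have d1 : DifferentiableAt ℝ ψ x := (c2 x h3).differentiableAt two_ne_zero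
      have d2 : DifferentiableAt ℝ θ x := t1.differentiableAt two_ne_zero
      have h5 := h.fderiv_le hx (φ := fun z => θ z - ψ z) (d2.sub d1) (by
        filter_upwards [t3, nhdsWithin_le_nhds (near_ExPerV y h3)] with z hz hz2
        have h5 := hψw z hz2
        rw [t2, h4]
        linarith)
      have h6 : fderiv ℝ (fun z => θ z - ψ z) x = fderiv ℝ θ x - fderiv ℝ ψ x := fderiv_sub d2 d1
      rw [h6, sub_apply] at h5
      have h7 := hbd x hx h3
      have h8 : α * fderiv ℝ θ x (N x) ≤ α * fderiv ℝ ψ x (N x) :=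
        mul_le_mul_of_nonneg_left (by linarith) hα.le
      rw [h4]
      linarith

/-- the bump argument -/
theorem uV_sup (hn : 1 ≤ n) (h : BD ρ D N) (hα : 0 < α) (hg : Dat D M g) : BSup D N α (uV D N M α g) := by
  intro y hy φ hφ
  obtain ⟨φ1, φ2, φ3⟩ := hφ
  have hU := uU_mem hn h hα hg
  obtain ⟨-, V0, VU, VP, Vseq⟩ := uV_facts hn h hα hg
  have hyc : y ∈ closure D := frontier_subset_closure hy
  by_contra hcon
  push Not at hcon
  have hd : DifferentiableAt ℝ φ y := φ1.differentiableAt two_ne_zero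
  have hV1 : ∀ z ∈ closure D, uV D N M α g z ≤ 1 := fun z hz => (VU z hz).trans (hU.le_one z hz)
  -- the value at `y` is less than one
  have hlt : uV D N M α g y < 1 := by
    refine lt_of_le_of_ne (hV1 y hyc) fun heq => ?_
    have h5 := h.fderiv_le hy (φ := fun z => -φ z) hd.neg (by
      filter_upwards [φ3, self_mem_nhdsWithin] with z hz hz2
      have := hV1 z hz2
      rw [φ2, heq]
      linarith)
    have h6 : fderiv ℝ (fun z => -φ z) y = -fderiv ℝ φ y := fderiv_neg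
    rw [h6, neg_apply] at h5
    have h7 : 0 ≤ α * fderiv ℝ φ y (N y) := mul_nonneg hα.le (by linarith)
    have h8 := V0 y hyc
    linarith
  obtain ⟨η, hη, hη2⟩ : ∃ η > 0, uV D N M α g y + α * (fderiv ℝ φ y (N y) + η) < 0 := by
    refine ⟨-(uV D N M α g y + α * fderiv ℝ φ y (N y)) / (2 * α), ?_, ?_⟩
    · exact div_pos (by linarith) (by positivity)
    · have : uV D N M α g y + α * (fderiv ℝ φ y (N y) +
          -(uV D N M α g y + α * fderiv ℝ φ y (N y)) / (2 * α)) =
          (uV D N M α g y + α * fderiv ℝ φ y (N y)) / 2 := by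
        field_simp
        ring
      rw [this]
      linarith
  obtain ⟨χ, χ1, χ2, χ3, χ4, χ5⟩ := exists_chi h hy (B := |(Δ φ) y| + M + 2) hη
  -- the modified test function
  obtain ⟨τ, hτ⟩ : ∃ τ : EE n → ℝ, τ = fun z => φ z - χ z := ⟨_, rfl⟩
  have τ1 : ContDiffAt ℝ 2 τ y := by rw [hτ]; exact φ1.sub χ1
  have τy : τ y = uV D N M α g y := by rw [hτ]; show φ y - χ y = _; rw [χ2, sub_zero, φ2]
  have τd : fderiv ℝ τ y (N y) = fderiv ℝ φ y (N y) + η := by
    have h6 : fderiv ℝ τ y = fderiv ℝ φ y - fderiv ℝ χ y := by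
      rw [hτ]
      exact fderiv_sub hd (χ1.differentiableAt two_ne_zero)
    rw [h6, sub_apply, χ3]
    ring
  have e1 : ∀ᶠ z in 𝓝 y, ContDiffAt ℝ 2 τ z := τ1.eventually (by simp)
  have e2 : ∀ᶠ z in 𝓝 y, z ∈ closure D → τ z ≤ uV D N M α g z - ‖z - y‖ ^ 4 := by
    have h6 : ∀ᶠ z in 𝓝[closure D] y, τ z ≤ uV D N M α g z - ‖z - y‖ ^ 4 := by
      filter_upwards [φ3, χ4] with z hz1 hz2
      rw [hτ]
      show φ z - χ z ≤ _
      linarith
    exact eventually_nhdsWithin_iff.1 h6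
  have e3 : ∀ᶠ z in 𝓝 y, M + 1 ≤ (Δ τ) z := by
    have h6 : ∀ᶠ z in 𝓝 y, (Δ φ) y - 1 < (Δ φ) z :=
      (lap_continuousAt φ1).eventually (lt_mem_nhds (by linarith))
    have h7 : ∀ᶠ z in 𝓝 y, ContDiffAt ℝ 2 φ z := φ1.eventually (by simp)
    have h8 : ∀ᶠ z in 𝓝 y, ContDiffAt ℝ 2 χ z := χ1.eventually (by simp)
    filter_upwards [h6, h7, h8, χ5] with z z1 z2 z3 z4
    rw [hτ, lap_sub z2 z3]
    have := neg_abs_le ((Δ φ) y)
    linarith
  obtain ⟨κ, hκ, hκ2⟩ : ∃ κ > 0, τ y + α * fderiv ℝ τ y (N y) < -κ := by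
    refine ⟨-(τ y + α * fderiv ℝ τ y (N y)) / 2, ?_, ?_⟩
    · rw [τy, τd]
      linarith
    · have : τ y + α * fderiv ℝ τ y (N y) < 0 := by rw [τy, τd]; exact hη2
      linarith
  have e4 : ∀ᶠ z in 𝓝 y, z ∈ frontier D → τ z + α * fderiv ℝ τ z (N z) < -κ := by
    have h6 : Tendsto (fun z => τ z + α * fderiv ℝ τ z (N z)) (𝓝[frontier D] y)
        (𝓝 (τ y + α * fderiv ℝ τ y (N y))) :=
      (τ1.continuousAt.tendsto.mono_left nhdsWithin_le_nhds).add
        ((tendsto_normal_deriv h hy τ1).const_mul α)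
    exact eventually_nhdsWithin_iff.1 (h6.eventually_lt_const hκ2)
  obtain ⟨κ', hκ', hκ2'⟩ : ∃ κ' > 0, τ y < 1 - κ' :=
    ⟨(1 - τ y) / 2, by rw [τy]; linarith, by rw [τy]; linarith⟩
  have e5 : ∀ᶠ z in 𝓝 y, τ z < 1 - κ' :=
    τ1.continuousAt.eventually_lt continuousAt_const hκ2'
  obtain ⟨r, hr, hball⟩ := Metric.eventually_nhds_iff.1 (e1.and (e2.and (e3.and (e4.and e5))))
  have hball' : ∀ z, ‖z - y‖ < r → _ := fun z hz => hball (by rw [dist_eq_norm]; exact hz)
  obtain ⟨δ, hδ, d1, d2, d3⟩ : ∃ δ > 0, δ ≤ (r / 2) ^ 4 ∧ δ ≤ κ ∧ δ ≤ κ' :=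
    ⟨min ((r / 2) ^ 4) (min κ κ'), lt_min (by positivity) (lt_min hκ hκ'), min_le_left _ _,
      (min_le_right _ _).trans (min_le_left _ _), (min_le_right _ _).trans (min_le_right _ _)⟩
  have hfd : ∀ z, fderiv ℝ (fun z => τ z + δ) z = fderiv ℝ τ z := fun z => fderiv_add_const δ
  obtain ⟨w, hw, hw2⟩ := bump_ExPerV h hα hg hU (y := y) (ψ := fun z => τ z + δ) hr
    (fun z hz => (hball' z hz).1.add contDiffAt_const)
    (fun z hz hz1 hz2 => by
      have h6 := (hball' z hz2).2.1 hz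
      have h7 : (r / 2) ^ 4 ≤ ‖z - y‖ ^ 4 := pow_le_pow_left₀ (by positivity) hz1.le 4
      have h8 := VU z hz
      linarith)
    (fun z hz => by
      have h6 := (hball' z hz).2.2.2.2
      linarith)
    (fun z hz => by
      have h6 := (hball' z hz).2.2.1
      rw [lap_add (hball' z hz).1 contDiffAt_const, lap_const]
      linarith)
    (fun z hz hz2 => by
      have h6 := (hball' z hz2).2.2.2.1 hz
      rw [hfd]
      linarith)
  obtain ⟨x, x1, x2, x3⟩ := Vseq y hy
  have h6 : ∀ᶠ k in atTop, τ (x k) + δ ≤ uP D N M α g (x k) := by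
    have h7 : ∀ᶠ k in atTop, ‖x k - y‖ < r :=
      (tendsto_iff_norm_sub_tendsto_zero.1 x2).eventually_lt_const hr
    filter_upwards [h7] with k hk
    exact (hw2 (x k) hk).trans (hw.le_uP (x k) (subset_closure (x1 k)))
  have h7 : Tendsto (fun k => τ (x k) + δ) atTop (𝓝 (τ y + δ)) :=
    (τ1.continuousAt.tendsto.comp x2).add_const δ
  have h8 := le_of_tendsto_of_tendsto h7 x3 h6
  rw [τy] at h8
  linarith

end Pool.Agent.Lib.MP_188651_an
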