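import Pool.Agent.Lib.MP_188651_an.ExPoly
import Pool.Agent.Lib.MP_188651_an.ExMaxBall

/-!
# Injectivity
-/

open Set Filter Metric Topology InnerProductSpace Laplacian

namespace Pool.Agent.Lib.MP_188651_an

variable {n : ℕ}

theorem lapP_inj (hn : 1 ≤ n) {r : ℝ} (hr : 0 < r) (Q : MvPolynomial (Fin n) ℝ) (h : lapP (qP n r * Q) = 0) :
    Q = 0 := by
  have hw : ∀ x : EE n, pf (qP n r * Q) x = (r ^ 2 - ‖x‖ ^ 2) * pf Q x := by
    intro x
    rw [← pf_qP r x]
    simp [pf]
  have hlap : ∀ x : EE n, (Δ (pf (qP n r * Q))) x = 0 := by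
    intro x
    rw [lap_pf, h]
    simp [pf]
  have h0 := ball_bound hn (c := (0 : EE n)) hr (u := pf (qP n r * Q)) (A := 0) (B := 0)
    (contDiff_pf _).continuous.continuousOn (contDiff_pf _).contDiffOn
    (by
      intro x hx
      rw [mem_sphere_zero_iff_norm] at hx
      rw [hw, hx, sub_self, zero_mul, abs_zero])
    (by
      intro x _
      rw [hlap, abs_zero])
  have h1 : ∀ x : EE n, ‖x‖ < r → pf Q x = 0 := by
    intro x hx
    have h2 := h0 x (by rw [mem_closedBall_zero_iff]; exact hx.le)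
    have h3 : pf (qP n r * Q) x = 0 := by
      have : |pf (qP n r * Q) x| ≤ 0 := by simpa using h2
      exact abs_nonpos_iff.mp this
    rw [hw] at h3
    rcases mul_eq_zero.mp h3 with h4 | h4
    · exfalso
      have : ‖x‖ ^ 2 < r ^ 2 := by
        apply pow_lt_pow_left₀ hx (norm_nonneg _) (by norm_num)
      linarith
    · exact h4
  set ε : ℝ := r / (n + 1) with hε
  have hεpos : 0 < ε := by positivity
  apply MvPolynomial.funext_set (fun _ => Ioo (-ε) ε)
    (fun _ => Ioo_infinite (by linarith))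
  intro x hx
  rw [map_zero]
  have hx' : ∀ i, |x i| < ε := by
    intro i
    have := hx i (mem_univ i)
    rw [abs_lt]
    exact this
  have h5 := h1 (WithLp.toLp 2 x) (by
    have h6 : ‖(WithLp.toLp 2 x : EE n)‖ ^ 2 ≤ n * ε ^ 2 := by
      rw [EuclideanSpace.norm_sq_eq]
      calc ∑ i, ‖(WithLp.toLp 2 x : EE n) i‖ ^ 2 ≤ ∑ _i : Fin n, ε ^ 2 := by
            apply Finset.sum_le_sum
            intro i _
            exact pow_le_pow_left₀ (norm_nonneg _) (hx' i).le 2
        _ = n * ε ^ 2 := by simp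
    have h7 : (n : ℝ) * ε ^ 2 < r ^ 2 := by
      rw [hε, div_pow]
      have hn1 : (0 : ℝ) < (n : ℝ) + 1 := by positivity
      rw [mul_div_assoc', div_lt_iff₀ (by positivity)]
      have hr2 : 0 < r ^ 2 := by positivity
      have hn0 : (0 : ℝ) ≤ n := Nat.cast_nonneg n
      nlinarith [mul_nonneg hn0 hr2.le, mul_nonneg (mul_nonneg hn0 hn0) hr2.le]
    exact lt_of_pow_lt_pow_left₀ 2 hr.le (lt_of_le_of_lt h6 h7))
  exact h5

end Pool.Agent.Lib.MP_188651_an
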