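import Pool.Agent.Lib.MP_188651_an.ExPolyDeg
import Pool.Agent.Lib.MP_188651_an.ExPolyInj

/-!
# Polynomial solutions of the Poisson equation on balls
-/

open Set Filter Metric Topology InnerProductSpace Laplacian

namespace Pool.Agent.Lib.MP_188651_an

variable {n : ℕ}

theorem lapP_add_ExPolySol (P Q : MvPolynomial (Fin n) ℝ) : lapP (P + Q) = lapP P + lapP Q := by
  simp [lapP, Finset.sum_add_distrib]

theorem lapP_smul_ExPolySol (c : ℝ) (P : MvPolynomial (Fin n) ℝ) : lapP (c • P) = c • lapP P := by
  simp [lapP, Finset.smul_sum]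

theorem poly_solve (hn : 1 ≤ n) {r : ℝ} (hr : 0 < r) (P : MvPolynomial (Fin n) ℝ) :
    ∃ Q : MvPolynomial (Fin n) ℝ, lapP (qP n r * Q) = P := by
  set k := P.totalDegree with hk
  set V := MvPolynomial.restrictTotalDegree (Fin n) ℝ k with hV
  let L : V →ₗ[ℝ] V :=
    { toFun := fun Q => ⟨lapP (qP n r * Q.1), (MvPolynomial.mem_restrictTotalDegree _ _ _).mpr
        (lapP_degree r k Q.1 ((MvPolynomial.mem_restrictTotalDegree _ _ _).mp Q.2))⟩
      map_add' := fun Q Q' => by
        apply Subtype.ext
        simp only [Submodule.coe_add, mul_add, lapP_add_ExPolySol]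
      map_smul' := fun c Q => by
        apply Subtype.ext
        simp only [Submodule.coe_smul, mul_smul_comm, lapP_smul_ExPolySol, RingHom.id_apply] }
  have hinj : Function.Injective L := by
    rw [← LinearMap.ker_eq_bot, LinearMap.ker_eq_bot']
    intro Q hQ
    apply Subtype.ext
    apply lapP_inj hn hr
    exact congrArg Subtype.val hQ
  have hsurj : Function.Surjective L := LinearMap.injective_iff_surjective.mp hinj
  obtain ⟨Q, hQ⟩ := hsurj ⟨P, (MvPolynomial.mem_restrictTotalDegree _ _ _).mpr le_rfl⟩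
  exact ⟨Q.1, congrArg Subtype.val hQ⟩

end Pool.Agent.Lib.MP_188651_an
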