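import Pool.Agent.Lib.MP_188651_an.ExSW
import Pool.Agent.Lib.MP_188651_an.ExPolySol
import Pool.Agent.Lib.MP_188651_an.ExLimA

/-!
# Generalised solutions of the Dirichlet problem on balls
-/

open Set Filter Metric Topology InnerProductSpace Laplacian

namespace Pool.Agent.Lib.MP_188651_an

variable {n : ℕ}

private theorem pf_add_ExPois (P Q : MvPolynomial (Fin n) ℝ) (x : EE n) :
    pf (P + Q) x = pf P x + pf Q x := by
  rw [pf, pf, pf, map_add]

private theorem pf_neg_ExPois (P : MvPolynomial (Fin n) ℝ) (x : EE n) :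
    pf (-P) x = -pf P x := by
  rw [pf, pf, map_neg]

private theorem pf_mul_ExPois (P Q : MvPolynomial (Fin n) ℝ) (x : EE n) :
    pf (P * Q) x = pf P x * pf Q x := by
  rw [pf, pf, pf, map_mul]

private theorem lapP_add_ExPois (P Q : MvPolynomial (Fin n) ℝ) : lapP (P + Q) = lapP P + lapP Q := by
  rw [lapP, lapP, lapP, ← Finset.sum_add_distrib]
  refine Finset.sum_congr rfl fun i _ => ?_
  rw [map_add, map_add]

private theorem contDiff_ExPois (P : MvPolynomial (Fin n) ℝ) (c : EE n) :
    ContDiff ℝ 2 (fun x => pf P (x - c)) :=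
  (contDiff_pf P).comp (contDiff_id.sub contDiff_const)

private theorem lap_ExPois (P : MvPolynomial (Fin n) ℝ) (c x : EE n) :
    (Δ (fun x => pf P (x - c))) x = pf (lapP P) (x - c) := by
  have h1 := lap_translate (pf P) (-c) x
  have h2 : (fun y : EE n => pf P (y + -c)) = fun y => pf P (y - c) := by
    funext y
    rw [sub_eq_add_neg]
  rw [h2, lap_pf, ← sub_eq_add_neg] at h1
  exact h1

theorem poisson_lim (hn : 1 ≤ n) {c : EE n} {r : ℝ} (hr : 0 < r) {G b : EE n → ℝ}
    (hG : ContinuousOn G (closedBall c r)) (hb : ContinuousOn b (closedBall c r)) :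
    ∃ w : EE n → ℝ, ContinuousOn w (closedBall c r) ∧ LimSol (ball c r) G w ∧ ∀ x ∈ sphere c r, w x = b x := by
  have hn0 : (0 : ℝ) < n := by exact_mod_cast hn
  have hε : ∀ k : ℕ, (0 : ℝ) < 1 / (k + 1) := fun k => Nat.one_div_pos_of_nat
  choose P hP using fun k : ℕ => exists_poly_near hG (hε k)
  choose B hB using fun k : ℕ => exists_poly_near hb (hε k)
  choose Q hQ using fun k : ℕ => poly_solve hn hr (-(P k + lapP (B k)))
  obtain ⟨W, hW⟩ : ∃ W : ℕ → EE n → ℝ, W = fun k x => pf (B k + qP n r * Q k) (x - c) := ⟨_, rfl⟩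
  have hW2 : ∀ k, ContDiff ℝ 2 (W k) := by
    intro k
    rw [hW]
    exact contDiff_ExPois _ c
  have hWl : ∀ k x, (Δ (W k)) x = -pf (P k) (x - c) := by
    intro k x
    rw [hW]
    show (Δ (fun x => pf (B k + qP n r * Q k) (x - c))) x = _
    rw [lap_ExPois, lapP_add_ExPois, hQ k, ← pf_neg_ExPois]
    congr 1
    ring
  have hWs : ∀ k, ∀ x ∈ sphere c r, W k x = pf (B k) (x - c) := by
    intro k x hx
    rw [hW]
    show pf (B k + qP n r * Q k) (x - c) = _
    have h1 : ‖x - c‖ = r := by rw [← dist_eq_norm]; exact hx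
    rw [pf_add_ExPois, pf_mul_ExPois, pf_qP, h1]
    ring
  -- the differences
  have hd : ∀ k l : ℕ, ∀ x ∈ closedBall c r, |W k x - W l x| ≤
      (1 / (k + 1) + 1 / (l + 1)) * (1 + r ^ 2 / (2 * n)) := by
    intro k l x hx
    have h1 := ball_bound hn hr (u := fun x => W k x - W l x)
      ((hW2 k).sub (hW2 l)).continuous.continuousOn ((hW2 k).sub (hW2 l)).contDiffOn
      (A := 1 / (k + 1) + 1 / (l + 1)) (B := 1 / (k + 1) + 1 / (l + 1)) ?_ ?_ x hx
    · refine h1.trans (le_of_eq ?_)
      ring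
    · intro y hy
      have h2 := hB k y (sphere_subset_closedBall hy)
      have h3 := hB l y (sphere_subset_closedBall hy)
      rw [hWs k y hy, hWs l y hy]
      rw [abs_le] at h2 h3 ⊢
      constructor <;> linarith [h2.1, h2.2, h3.1, h3.2]
    · intro y hy
      have h2 := hP k y (ball_subset_closedBall hy)
      have h3 := hP l y (ball_subset_closedBall hy)
      rw [lap_sub (hW2 k).contDiffAt (hW2 l).contDiffAt, hWl, hWl]
      rw [abs_le] at h2 h3 ⊢
      constructor <;> linarith [h2.1, h2.2, h3.1, h3.2]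
  obtain ⟨K, hK⟩ : ∃ K : ℝ, K = 1 + r ^ 2 / (2 * n) := ⟨_, rfl⟩
  have hK0 : 0 < K := by rw [hK]; positivity
  have hlim : ∀ a : ℝ, Tendsto (fun k : ℕ => a * (1 / ((k : ℝ) + 1))) atTop (𝓝 0) := by
    intro a
    have h1 := (tendsto_one_div_add_atTop_nhds_zero_nat (𝕜 := ℝ)).const_mul a
    rwa [mul_zero] at h1
  have hmono : ∀ k N : ℕ, N ≤ k → (1 : ℝ) / (k + 1) ≤ 1 / (N + 1) := by
    intro k N h
    apply one_div_le_one_div_of_le (by positivity)
    have : (N : ℝ) ≤ k := by exact_mod_cast h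
    linarith
  have hucs : UniformCauchySeqOn W atTop (closedBall c r) := by
    rw [Metric.uniformCauchySeqOn_iff]
    intro ε hε'
    have h1 := (hlim (2 * K)).eventually (gt_mem_nhds hε')
    obtain ⟨N, hN⟩ := h1.exists
    refine ⟨N, fun k hk l hl x hx => ?_⟩
    rw [Real.dist_eq]
    have h2 := hd k l x hx
    rw [← hK] at h2
    have h3 := hmono k N hk
    have h4 := hmono l N hl
    have h5 : ((1 : ℝ) / (k + 1) + 1 / (l + 1)) * K ≤ (1 / (N + 1) + 1 / (N + 1)) * K :=
      mul_le_mul_of_nonneg_right (by linarith) hK0.le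
    linarith
  have hpt : ∀ x ∈ closedBall c r, ∃ z, Tendsto (fun k => W k x) atTop (𝓝 z) := by
    intro x hx
    apply cauchySeq_tendsto_of_complete
    exact hucs.cauchy_map hx
  classical
  obtain ⟨w, hw⟩ : ∃ w : EE n → ℝ, w = fun x =>
    if hx : x ∈ closedBall c r then (hpt x hx).choose else 0 := ⟨_, rfl⟩
  have hwt : ∀ x ∈ closedBall c r, Tendsto (fun k => W k x) atTop (𝓝 (w x)) := by
    intro x hx
    rw [hw]
    simp only [dif_pos hx]
    exact (hpt x hx).choose_spec
  have hunif : TendstoUniformlyOn W w atTop (closedBall c r) :=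
    hucs.tendstoUniformlyOn_of_tendsto hwt
  refine ⟨w, ?_, ⟨W, fun k => (hW2 k).contDiffOn, hunif.mono ball_subset_closedBall, ?_⟩, ?_⟩
  · exact hunif.continuousOn (Frequently.of_forall fun k => (hW2 k).continuous.continuousOn)
  · rw [Metric.tendstoUniformlyOn_iff]
    intro ε hε'
    filter_upwards [(hlim 1).eventually (gt_mem_nhds hε')] with k hk x hx
    rw [hWl, neg_neg, Real.dist_eq]
    have h2 := hP k x (ball_subset_closedBall hx)
    linarith
  · intro x hx
    have h1 := hwt x (sphere_subset_closedBall hx)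
    have h2 : Tendsto (fun k => W k x) atTop (𝓝 (b x)) := by
      rw [Metric.tendsto_atTop]
      intro ε hε'
      obtain ⟨N, hN⟩ := ((hlim 1).eventually (gt_mem_nhds hε')).exists
      refine ⟨N, fun k hk => ?_⟩
      rw [hWs k x hx, dist_comm, Real.dist_eq]
      have h3 := hB k x (sphere_subset_closedBall hx)
      have h4 := hmono k N hk
      linarith
    exact tendsto_nhds_unique h1 h2

end Pool.Agent.Lib.MP_188651_an
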