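import Pool.Agent.Lib.MP_188651_an.ExLapA
import Pool.Agent.Lib.MP_188651_an.ExLapB

/-!
# Polynomials and the Laplacian
-/

open Set Filter Metric Topology InnerProductSpace Laplacian

namespace Pool.Agent.Lib.MP_188651_an

variable {n : ℕ}

/-- the polynomial function -/
noncomputable def pf (P : MvPolynomial (Fin n) ℝ) (x : EE n) : ℝ := MvPolynomial.eval (fun i => x i) P

/-- the Laplacian of a polynomial -/
noncomputable def lapP (P : MvPolynomial (Fin n) ℝ) : MvPolynomial (Fin n) ℝ :=
  ∑ i, MvPolynomial.pderiv i (MvPolynomial.pderiv i P)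

/-- `r² - |X|²` -/
noncomputable def qP (n : ℕ) (r : ℝ) : MvPolynomial (Fin n) ℝ :=
  MvPolynomial.C (r ^ 2) - ∑ i, MvPolynomial.X i ^ 2

theorem contDiff_pf (P : MvPolynomial (Fin n) ℝ) : ContDiff ℝ 2 (pf P) := by
  induction P using MvPolynomial.induction_on with
  | C a =>
    have : pf (MvPolynomial.C a : MvPolynomial (Fin n) ℝ) = fun _ => a := by
      funext x; simp [pf]
    rw [this]; exact contDiff_const
  | add p q hp hq =>
    have : pf (p + q) = fun x => pf p x + pf q x := by
      funext x; simp [pf]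
    rw [this]; exact hp.add hq
  | mul_X p i hp =>
    have : pf (p * MvPolynomial.X i) = fun x => pf p x * x i := by
      funext x; simp [pf]
    rw [this]
    exact hp.mul ((EuclideanSpace.proj i : EE n →L[ℝ] ℝ).contDiff)

theorem hasDerivAt_pf_ExPoly (P : MvPolynomial (Fin n) ℝ) (x : EE n) (i : Fin n) (t : ℝ) :
    HasDerivAt (fun t : ℝ => pf P (x + t • EuclideanSpace.single i (1 : ℝ)))
      (pf (MvPolynomial.pderiv i P) (x + t • EuclideanSpace.single i (1 : ℝ))) t := by
  classical
  induction P using MvPolynomial.induction_on with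
  | C a =>
    simp only [pf, MvPolynomial.pderiv_C, MvPolynomial.eval_C, map_zero]
    exact hasDerivAt_const t a
  | add p q hp hq =>
    simp only [pf, map_add] at hp hq ⊢
    exact hp.add hq
  | mul_X p j hp =>
    have hX : HasDerivAt (fun t : ℝ => (x + t • EuclideanSpace.single i (1 : ℝ) : EE n) j)
        ((Pi.single i (1 : ℝ) : Fin n → ℝ) j) t := by
      have : (fun t : ℝ => (x + t • EuclideanSpace.single i (1 : ℝ) : EE n) j) =
          fun t : ℝ => x j + t * (Pi.single i (1 : ℝ) : Fin n → ℝ) j := by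
        funext s
        simp [EuclideanSpace.single, Pi.single_apply]
      rw [this]
      have h1 := ((hasDerivAt_id t).mul_const ((Pi.single i (1 : ℝ) : Fin n → ℝ) j)).const_add (x j)
      simpa using h1
    have h2 := hp.mul hX
    have e1 : (fun t : ℝ => pf (p * MvPolynomial.X j) (x + t • EuclideanSpace.single i (1 : ℝ))) =
        (fun t : ℝ => pf p (x + t • EuclideanSpace.single i (1 : ℝ))) *
        fun t : ℝ => (x + t • EuclideanSpace.single i (1 : ℝ) : EE n) j := by
      funext s
      simp [pf]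
    rw [e1]
    refine h2.congr_deriv ?_
    rw [MvPolynomial.pderiv_mul, MvPolynomial.pderiv_X]
    simp only [pf, map_add, map_mul, MvPolynomial.eval_X]
    congr 2
    by_cases hij : j = i
    · subst hij; simp
    · simp [Pi.single_apply, hij]

theorem jet_pf_ExPoly (P : MvPolynomial (Fin n) ℝ) (x : EE n) :
    Jet (pf P) x (fun i => pf (MvPolynomial.pderiv i P) x) (pf (lapP P) x) := by
  refine ⟨fun i t => pf (MvPolynomial.pderiv i P) (x + t • EuclideanSpace.single i (1 : ℝ)),
    fun i => pf (MvPolynomial.pderiv i (MvPolynomial.pderiv i P)) x, ?_, ?_, ?_, ?_⟩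
  · intro i
    exact Filter.Eventually.of_forall fun t => hasDerivAt_pf_ExPoly P x i t
  · intro i
    simp
  · intro i
    have := hasDerivAt_pf_ExPoly (MvPolynomial.pderiv i P) x i 0
    simpa using this
  · simp [pf, lapP]

theorem lap_pf (P : MvPolynomial (Fin n) ℝ) (x : EE n) : (Δ (pf P)) x = pf (lapP P) x := by
  obtain ⟨g', h'⟩ := jet_of_contDiffAt ((contDiff_pf P).contDiffAt (x := x))
  have h := jet_pf_ExPoly P x
  obtain ⟨D1, H, h1, h2, h3, h4⟩ := h'
  obtain ⟨D1', H', h1', h2', h3', h4'⟩ := h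
  have key : ∀ i, D1 i =ᶠ[𝓝 0] D1' i := by
    intro i
    filter_upwards [h1 i, h1' i] with t ht ht'
    exact ht.unique ht'
  rw [← h4, ← h4']
  refine Finset.sum_congr rfl fun i _ => ?_
  exact (h3 i).unique ((h3' i).congr_of_eventuallyEq (key i))

theorem pf_qP (r : ℝ) (x : EE n) : pf (qP n r) x = r ^ 2 - ‖x‖ ^ 2 := by
  rw [EuclideanSpace.norm_sq_eq]
  simp [pf, qP]

end Pool.Agent.Lib.MP_188651_an
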