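import Pool.Agent.Lib.MP_188651_an.ExPoly

/-!
# Degree
-/

open Set Filter Metric Topology InnerProductSpace Laplacian

namespace Pool.Agent.Lib.MP_188651_an

variable {n : ℕ}

theorem totalDegree_pderiv_ExPolyDeg (i : Fin n) (P : MvPolynomial (Fin n) ℝ) :
    (MvPolynomial.pderiv i P).totalDegree ≤ P.totalDegree - 1 := by
  classical
  unfold MvPolynomial.totalDegree
  apply Finset.sup_le
  intro m hm
  rw [MvPolynomial.mem_support_iff, MvPolynomial.coeff_pderiv] at hm
  have h1 : m + Finsupp.single i 1 ∈ P.support := by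
    rw [MvPolynomial.mem_support_iff]
    intro h0
    apply hm
    rw [h0, zero_mul]
  have h2 := Finset.le_sup (f := fun s : Fin n →₀ ℕ => s.sum fun _ e => e) h1
  rw [Finsupp.sum_add_index' (fun _ => rfl) (fun _ _ _ => rfl), Finsupp.sum_single_index rfl] at h2
  omega

theorem lapP_degree (r : ℝ) (k : ℕ) (Q : MvPolynomial (Fin n) ℝ) (h : Q.totalDegree ≤ k) :
    (lapP (qP n r * Q)).totalDegree ≤ k := by
  classical
  have h1 : (qP n r).totalDegree ≤ 2 := by
    unfold qP
    refine (MvPolynomial.totalDegree_sub _ _).trans ?_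
    apply max_le
    · rw [MvPolynomial.totalDegree_C]; omega
    · refine (MvPolynomial.totalDegree_finsetSum _ _).trans ?_
      apply Finset.sup_le
      intro i _
      rw [MvPolynomial.totalDegree_X_pow]
  have h2 : (qP n r * Q).totalDegree ≤ k + 2 := by
    refine (MvPolynomial.totalDegree_mul _ _).trans ?_
    omega
  unfold lapP
  refine (MvPolynomial.totalDegree_finsetSum _ _).trans ?_
  apply Finset.sup_le
  intro i _
  have h3 := totalDegree_pderiv_ExPolyDeg i (qP n r * Q)
  have h4 := totalDegree_pderiv_ExPolyDeg i (MvPolynomial.pderiv i (qP n r * Q))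
  omega

end Pool.Agent.Lib.MP_188651_an
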