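import Pool.Agent.Lib.MP_188651_an.ExCurve

/-!
# Second order test along reflected curves
-/

open Set Filter Metric Topology InnerProductSpace Laplacian

namespace Pool.Agent.Lib.MP_188651_an

variable {n : ℕ}

private theorem refl_eq_ExReflT {e : EE n} (he : ‖e‖ = 1) (w : EE n) :
    (Submodule.reflection (Submodule.span ℝ {e})ᗮ) w = refl e w := by
  rw [Submodule.reflection_orthogonal_apply, Submodule.reflection_singleton_apply, he, refl]
  simp
  rw [two_mul, add_smul, two_smul]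

theorem refl_test {v1 v2 : EE n → ℝ} {x x' e : EE n} (he : ‖e‖ = 1) (h1 : ContDiffAt ℝ 2 v1 x)
    (h2 : ContDiffAt ℝ 2 v2 x') (κ : Fin n → ℝ)
    (h : ∀ i, iteratedFDeriv ℝ 2 v1 x ![EuclideanSpace.basisFun (Fin n) ℝ i, EuclideanSpace.basisFun (Fin n) ℝ i] -
      iteratedFDeriv ℝ 2 v2 x' ![refl e (EuclideanSpace.basisFun (Fin n) ℝ i),
        refl e (EuclideanSpace.basisFun (Fin n) ℝ i)] ≤ κ i) :
    (Δ v1) x - (Δ v2) x' ≤ ∑ i, κ i := by
  have e1 : (Δ v1) x = ∑ i, iteratedFDeriv ℝ 2 v1 x ![EuclideanSpace.basisFun (Fin n) ℝ i,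
      EuclideanSpace.basisFun (Fin n) ℝ i] := by
    rw [laplacian_eq_iteratedFDeriv_orthonormalBasis v1 (EuclideanSpace.basisFun (Fin n) ℝ)]
  have e2 : (Δ v2) x' = ∑ i, iteratedFDeriv ℝ 2 v2 x' ![refl e (EuclideanSpace.basisFun (Fin n) ℝ i),
      refl e (EuclideanSpace.basisFun (Fin n) ℝ i)] := by
    rw [laplacian_eq_iteratedFDeriv_orthonormalBasis v2 ((EuclideanSpace.basisFun (Fin n) ℝ).map
      (Submodule.reflection (Submodule.span ℝ {e})ᗮ))]
    refine Finset.sum_congr rfl fun i _ => ?_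
    rw [OrthonormalBasis.map_apply, refl_eq_ExReflT he]
  rw [e1, e2, ← Finset.sum_sub_distrib]
  exact Finset.sum_le_sum fun i _ => h i

end Pool.Agent.Lib.MP_188651_an
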