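import Pool.Agent.Lib.MP_188651_an.ExNDt
import Pool.Agent.Lib.MP_188651_an.ExLip
import Pool.Agent.Lib.MP_188651_an.ExLin

/-!
# Uniform regularity of solutions of the linear problem
-/

open Set Filter Metric Topology InnerProductSpace Laplacian

namespace Pool.Agent.Lib.MP_188651_an

theorem lsol_reg (n : ℕ) {ρ α M : ℝ} (hρ : 0 < ρ) (hα : 0 < α) (hM : 0 < M) :
    ∃ L > 0, ∃ C > 0, ∃ h₀ > 0, ∀ (D : Set (EE n)) (N : EE n → EE n) (g u : EE n → ℝ), BD ρ D N →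
      (frontier D).Nonempty → Dat D M g → LSol D N M α g u →
      (∀ x ∈ closure D, ∀ x' ∈ closure D, |u x - u x'| ≤ L * ‖x - x'‖) ∧ NDB D N α C h₀ u := by
  obtain ⟨L, hL, h1⟩ := lip_bd n (Λ := M) hρ hα hM.le
  obtain ⟨C, hC, h₀, hh₀, h2⟩ := nd_two n (Λ := M) hρ hα hL.le hM.le
  refine ⟨L, hL, C, hC, h₀, hh₀, fun D N g u hD hne hg hu => ?_⟩
  have h01 : ∀ x ∈ closure D, 0 ≤ u x ∧ u x ≤ 1 := fun x hx => ⟨hu.nonneg x hx, hu.le_one x hx⟩
  have hΔ : ∀ x ∈ D, |(Δ u) x| ≤ M := by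
    intro x hx
    have h3 := hu.eq x hx
    have h4 := hg.nonneg x (subset_closure hx)
    have h5 := hg.le x (subset_closure hx)
    have h6 := h01 x (subset_closure hx)
    rw [abs_le]
    constructor <;> nlinarith
  have h3 := h1 D N u hD hne hu.cont hu.smooth h01 hΔ hu.sub hu.sup
  exact ⟨h3, h2 D N u hD h01 h3 hu.smooth hΔ hu.sub hu.sup⟩

end Pool.Agent.Lib.MP_188651_an
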