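import Pool.Agent.Lib.MP_188651_an.ExPoly

/-!
# Stone-Weierstrass
-/

open Set Filter Metric Topology InnerProductSpace Laplacian

namespace Pool.Agent.Lib.MP_188651_an

variable {n : ℕ}

/-- Stone-Weierstrass -/
theorem exists_poly_near {c : EE n} {r : ℝ} {G : EE n → ℝ} (hG : ContinuousOn G (closedBall c r)) {ε : ℝ}
    (hε : 0 < ε) : ∃ P : MvPolynomial (Fin n) ℝ, ∀ x ∈ closedBall c r, |G x - pf P (x - c)| ≤ ε := by
  haveI : CompactSpace (closedBall c r) := isCompact_iff_compactSpace.mp (isCompact_closedBall c r)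
  let X : Fin n → C(closedBall c r, ℝ) := fun i => ⟨fun x => ((x : EE n) - c) i, by fun_prop⟩
  let Φ : MvPolynomial (Fin n) ℝ →ₐ[ℝ] C(closedBall c r, ℝ) := MvPolynomial.aeval X
  have hΦ : ∀ (P : MvPolynomial (Fin n) ℝ) (x : closedBall c r), Φ P x = pf P ((x : EE n) - c) := by
    intro P x
    induction P using MvPolynomial.induction_on with
    | C a =>
      rw [pf, MvPolynomial.eval_C, MvPolynomial.aeval_C]
      rfl
    | add p q hp hq =>
      rw [map_add, ContinuousMap.add_apply, hp, hq, pf, pf, pf, map_add]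
    | mul_X p i hp =>
      rw [map_mul, ContinuousMap.mul_apply, hp, pf, pf, map_mul, MvPolynomial.eval_X]
      congr 1
      rw [MvPolynomial.aeval_X]
      rfl
  have hsep : Φ.range.SeparatesPoints := by
    intro x y hxy
    have h1 : ∃ i, (x : EE n) i ≠ (y : EE n) i := by
      by_contra hcon
      push Not at hcon
      apply hxy
      apply Subtype.ext
      ext i
      exact hcon i
    obtain ⟨i, hi⟩ := h1
    refine ⟨Φ (MvPolynomial.X i), ⟨Φ (MvPolynomial.X i), ⟨MvPolynomial.X i, rfl⟩, rfl⟩, ?_⟩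
    rw [MvPolynomial.aeval_X]
    show ((x : EE n) - c) i ≠ ((y : EE n) - c) i
    intro h
    apply hi
    have h2 : (x : EE n) i - c i = (y : EE n) i - c i := h
    linarith
  obtain ⟨⟨g, P, hP⟩, hg⟩ :=
    ContinuousMap.exists_mem_subalgebra_near_continuous_of_separatesPoints Φ.range hsep
      (fun x : closedBall c r => G x) (continuousOn_iff_continuous_restrict.mp hG) ε hε
  refine ⟨P, fun x hx => ?_⟩
  have h1 := hg ⟨x, hx⟩
  have h2 : g ⟨x, hx⟩ = pf P (x - c) := by
    rw [← hΦ P ⟨x, hx⟩]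
    exact congrArg (fun f : C(closedBall c r, ℝ) => f ⟨x, hx⟩) hP.symm
  have h3 : ‖g ⟨x, hx⟩ - G x‖ < ε := h1
  rw [h2, ← norm_neg, neg_sub, Real.norm_eq_abs] at h3
  exact h3.le

end Pool.Agent.Lib.MP_188651_an
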