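import Pool.Agent.Lib.MP_188651_an.ExEc
import Pool.Agent.Lib.MP_188651_an.ExGeoB
import Pool.Agent.Lib.MP_188651_an.ExLapA
import Pool.Agent.Lib.MP_188651_an.ExLapB
import Pool.Agent.Lib.MP_188651_an.GeoA

/-!
# Touching from above
-/

open Set Filter Metric Topology InnerProductSpace Laplacian

namespace Pool.Agent.Lib.MP_188651_an

variable {n : ℕ} {ρ : ℝ} {D : Set (EE n)} {N : EE n → EE n}

private theorem n_pos_ExTouchA {v : EE n} (hv : ‖v‖ = 1) : (1 : ℝ) ≤ n := by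
  rcases Nat.eq_zero_or_pos n with h | h
  · subst h
    have : v = 0 := Subsingleton.elim _ _
    rw [this, norm_zero] at hv
    norm_num at hv
  · exact_mod_cast h

private theorem max_ExTouchA {s₁ d : ℝ} (hs : 0 < s₁) (hd : 0 ≤ d) :
    (max 0 (s₁ - d)) ^ 2 / s₁ ^ 2 ≤ 1 ∧ 0 ≤ (max 0 (s₁ - d)) ^ 2 / s₁ ^ 2 ∧
      2 * max 0 (s₁ - d) / s₁ ^ 2 ≤ 2 / s₁ ∧ 0 ≤ 2 * max 0 (s₁ - d) / s₁ ^ 2 := by
  have h1 : max 0 (s₁ - d) ≤ s₁ := max_le hs.le (by linarith)
  have h0 : 0 ≤ max 0 (s₁ - d) := le_max_left _ _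
  refine ⟨?_, by positivity, ?_, by positivity⟩
  · rw [div_le_one (by positivity)]
    gcongr
  · rw [div_le_div_iff₀ (by positivity) hs]
    nlinarith

theorem touch_above (h : BD ρ D N) (hne : (frontier D).Nonempty) {x : EE n} (hx : x ∈ closure D) :
    ∃ φ : EE n → ℝ, ContDiffAt ℝ 2 φ x ∧ φ x = Ed D (ρ / 2) x ∧
      (∀ᶠ z in 𝓝[closure D] x, Ed D (ρ / 2) z ≤ φ z) ∧ ‖fderiv ℝ φ x‖ ≤ 1 ∧
      |(Δ φ) x| ≤ (4 + 2 * n) / ρ ∧ (x ∈ frontier D → fderiv ℝ φ x (N x) = 1) := by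
  have hρ := h.pos
  have hs : 0 < ρ / 2 := by linarith
  obtain ⟨hE1, -, -, hEa, hE2, hE3, hE4⟩ := Ec_facts hs
  obtain ⟨y, hy, hxy⟩ := h.nearest hne hx
  set d := infDist x (frontier D) with hd
  have hd0 : 0 ≤ d := infDist_nonneg
  have hν := h.unit y hy
  have hn := n_pos_ExTouchA hν
  rcases lt_or_ge (ρ / 2) d with hcase | hcase
  · refine ⟨fun _ => 0, contDiffAt_const, ?_, ?_, ?_, ?_, ?_⟩
    · simp only [Ed]
      rw [← hd, hE4 d hcase.le]
    · have h1 : ∀ᶠ z in 𝓝 x, ρ / 2 < infDist z (frontier D) :=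
        (continuous_infDist_pt _).continuousAt.eventually_const_lt hcase
      filter_upwards [nhdsWithin_le_nhds h1] with z hz
      simp only [Ed]
      rw [hE4 _ hz.le]
    · simp
    · rw [lap_const, abs_zero]
      positivity
    · intro hfr
      have : d = 0 := infDist_zero_of_mem hfr
      linarith
  · set c := y - ρ • N y with hc
    have hxc : x - c = (ρ - d) • N y := by
      rw [hxy, hc, sub_smul]
      abel
    have hnorm : ‖x - c‖ = ρ - d := by
      rw [hxc, norm_smul, hν, mul_one, Real.norm_eq_abs, abs_of_nonneg (by linarith)]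
    have hpos : 0 < ρ - d := by linarith
    have hne' : x ≠ c := by
      intro he
      rw [he, sub_self, norm_zero] at hnorm
      linarith
    set η : ℝ → ℝ := fun r => Ec (ρ / 2) (ρ - r) with hη
    have hηc : ContDiff ℝ 2 η := hE1.comp (contDiff_const.sub contDiff_id)
    obtain ⟨r1, r2, r3⟩ := radial (n := n) (c := c) (x := x) (η := η) hne' hηc.contDiffAt
    have hd1 : deriv η = fun r => -deriv (Ec (ρ / 2)) (ρ - r) := by
      funext r
      exact deriv_comp_const_sub _ _ _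
    have hd2 : deriv (deriv η) = fun r => deriv (deriv (Ec (ρ / 2))) (ρ - r) := by
      funext r
      rw [hd1, deriv.fun_neg, deriv_comp_const_sub, neg_neg]
    have v1 : deriv η ‖x - c‖ = (max 0 (ρ / 2 - d)) ^ 2 / (ρ / 2) ^ 2 := by
      rw [hd1, hnorm]
      simp only
      rw [hE2, show ρ - (ρ - d) = d by ring]
      ring
    have v2 : deriv (deriv η) ‖x - c‖ = 2 * max 0 (ρ / 2 - d) / (ρ / 2) ^ 2 := by
      rw [hd2, hnorm]
      simp only
      rw [hE3, show ρ - (ρ - d) = d by ring]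
    obtain ⟨m1, m2, m3, m4⟩ := max_ExTouchA hs hd0
    refine ⟨fun z => η ‖z - c‖, r1, ?_, ?_, ?_, ?_, ?_⟩
    · simp only [hη, Ed]
      rw [hnorm, ← hd]
      congr 1
      ring
    · filter_upwards [self_mem_nhdsWithin] with z _
      exact hEa (int_le_infDist (h.int y hy) hne)
    · refine ContinuousLinearMap.opNorm_le_bound _ zero_le_one fun w => ?_
      rw [r3, v1, Real.norm_eq_abs, abs_mul, abs_of_nonneg m2, abs_div, abs_norm, one_mul]
      have h1 : |inner ℝ (x - c) w| / ‖x - c‖ ≤ ‖w‖ := by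
        rw [div_le_iff₀ (by rw [hnorm]; exact hpos)]
        have := abs_real_inner_le_norm (x - c) w
        linarith
      have h0 : 0 ≤ |inner ℝ (x - c) w| / ‖x - c‖ := by positivity
      nlinarith
    · rw [r2, v1, v2, hnorm]
      have h2 : 2 / (ρ / 2) = 4 / ρ := by field_simp; norm_num
      have h3 : ((n : ℝ) - 1) / (ρ - d) ≤ 2 * (n - 1) / ρ := by
        rw [div_le_div_iff₀ hpos hρ]
        nlinarith
      have h4 : 0 ≤ ((n : ℝ) - 1) / (ρ - d) := div_nonneg (by linarith) hpos.le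
      have h5 : ((n : ℝ) - 1) / (ρ - d) * ((max 0 (ρ / 2 - d)) ^ 2 / (ρ / 2) ^ 2) ≤ 2 * (n - 1) / ρ := by
        nlinarith
      have h6 : 0 ≤ ((n : ℝ) - 1) / (ρ - d) * ((max 0 (ρ / 2 - d)) ^ 2 / (ρ / 2) ^ 2) := mul_nonneg h4 m2
      rw [abs_of_nonneg (by linarith)]
      have h7 : (4 + 2 * (n : ℝ)) / ρ = 4 / ρ + 2 * (n - 1) / ρ + 2 / ρ := by ring
      have h8 : 0 < 2 / ρ := by positivity
      rw [h7]
      linarith
    · intro hfr
      have hd' : d = 0 := infDist_zero_of_mem hfr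
      have hxy' : x = y := by rw [hxy, hd', zero_smul, sub_zero]
      rw [r3, v1, hnorm, hxc, hd', hxy', real_inner_smul_left, real_inner_self_eq_norm_sq, hν]
      have : max 0 (ρ / 2 - 0) = ρ / 2 := by rw [sub_zero]; exact max_eq_right hs.le
      rw [this]
      field_simp
      simp [hρ.ne']

end Pool.Agent.Lib.MP_188651_an
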