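import Pool.Agent.Lib.MP_188651_an.Defs

open Set Filter Metric Topology InnerProductSpace Laplacian
open scoped Pointwise

namespace Pool.Agent.Lib.MP_188651_an

variable {f : ℝ → ℝ} {η : ℝ}

theorem FF_zero (f : ℝ → ℝ) : FF f 0 = 0 := by
  unfold FF
  exact intervalIntegral.integral_same

private theorem cont_FFb (hf : IsPositiveReaction f) : ContinuousOn f (Ici 0) :=
  hf.smooth.continuousOn

/-- a continuous extension of `f` -/
private theorem ext_FFb (hf : IsPositiveReaction f) :
    Continuous (fun s : ℝ => f (max 0 s)) :=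
  (cont_FFb hf).comp_continuous (by fun_prop) (fun s => mem_Ici.2 (le_max_left _ _))

private theorem FF_eq_ext_FFb {s : ℝ} (hs : 0 ≤ s) :
    FF f s = ∫ r in (0 : ℝ)..s, f (max 0 r) := by
  unfold FF
  apply intervalIntegral.integral_congr
  intro r hr
  rw [uIcc_of_le hs] at hr
  simp only [max_eq_right hr.1]

private theorem ext_deriv_FFb (hf : IsPositiveReaction f) (s : ℝ) :
    HasDerivAt (fun u => ∫ r in (0 : ℝ)..u, f (max 0 r)) (f (max 0 s)) s :=
  ((ext_FFb hf).integral_hasStrictDerivAt 0 s).hasDerivAt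

theorem FF_hasDerivAt (hf : IsPositiveReaction f) {s : ℝ} (hs : 0 < s) : HasDerivAt (FF f) (f s) s := by
  have h := ext_deriv_FFb hf s
  rw [max_eq_right hs.le] at h
  refine h.congr_of_eventuallyEq ?_
  filter_upwards [lt_mem_nhds hs] with r hr
  exact FF_eq_ext_FFb hr.le

theorem FF_continuousOn (hf : IsPositiveReaction f) : ContinuousOn (FF f) (Ici 0) := by
  have hc : Continuous (fun u => ∫ r in (0 : ℝ)..u, f (max 0 r)) :=
    continuous_iff_continuousAt.2 (fun s => (ext_deriv_FFb hf s).continuousAt)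
  exact hc.continuousOn.congr (fun s hs => FF_eq_ext_FFb hs)

theorem FF_strictMonoOn (hf : IsPositiveReaction f) : StrictMonoOn (FF f) (Icc 0 1) := by
  apply strictMonoOn_of_deriv_pos (convex_Icc 0 1)
    ((FF_continuousOn hf).mono (fun s hs => hs.1))
  intro s hs
  rw [interior_Icc] at hs
  rw [(FF_hasDerivAt hf hs.1).deriv]
  exact hf.pos s hs.1 hs.2

theorem FF_le_one (hf : IsPositiveReaction f) {s : ℝ} (hs : 0 ≤ s) : FF f s ≤ FF f 1 := by
  rcases le_total s 1 with h | h
  · exact (FF_strictMonoOn hf).monotoneOn ⟨hs, h⟩ ⟨zero_le_one, le_refl _⟩ h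
  · have hanti : AntitoneOn (FF f) (Ici 1) := by
      apply antitoneOn_of_deriv_nonpos (convex_Ici 1)
        ((FF_continuousOn hf).mono (fun s hs => mem_Ici.2 (zero_le_one.trans (mem_Ici.1 hs))))
      · intro s hs
        rw [interior_Ici] at hs
        exact (FF_hasDerivAt hf (zero_lt_one.trans hs)).differentiableAt.differentiableWithinAt
      · intro s hs
        rw [interior_Ici] at hs
        rw [(FF_hasDerivAt hf (zero_lt_one.trans hs)).deriv]
        exact (hf.neg s hs).le
    exact hanti (mem_Ici.2 le_rfl) (mem_Ici.2 h) h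

end Pool.Agent.Lib.MP_188651_an
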