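import Pool.Agent.Lib.MP_188651_an.FFb

open Set Filter Metric Topology InnerProductSpace Laplacian
open scoped Pointwise

namespace Pool.Agent.Lib.MP_188651_an

variable {f : ℝ → ℝ} {η : ℝ}

private theorem clamp_nonneg_Gpb (s : ℝ) : 0 ≤ max (0 : ℝ) (min s (3 / 2)) := le_max_left _ _

private theorem clamp_le_Gpb (s : ℝ) : max (0 : ℝ) (min s (3 / 2)) ≤ 3 / 2 :=
  max_le (by norm_num) (min_le_right _ _)

private theorem clamp_eq_Gpb {s : ℝ} (h0 : 0 ≤ s) (h1 : s ≤ 3 / 2) :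
    max (0 : ℝ) (min s (3 / 2)) = s := by
  rw [min_eq_left h1, max_eq_right h0]

private theorem inner_ge_Gpb (hf : IsPositiveReaction f) (hη : 0 < η) (s : ℝ) :
    η ≤ 2 * (FF f 1 - FF f (max 0 (min s (3 / 2))) + η * (2 - max 0 (min s (3 / 2)))) := by
  have h1 := FF_le_one hf (clamp_nonneg_Gpb s)
  have h2 := clamp_le_Gpb s
  nlinarith

theorem Gp_continuous (hf : IsPositiveReaction f) (η : ℝ) : Continuous (Gp f η) := by
  have hc : Continuous (fun s : ℝ => max (0 : ℝ) (min s (3 / 2))) := by fun_prop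
  have hF : Continuous (fun s : ℝ => FF f (max (0 : ℝ) (min s (3 / 2)))) :=
    (FF_continuousOn hf).comp_continuous hc (fun s => mem_Ici.2 (clamp_nonneg_Gpb s))
  unfold Gp
  exact Real.continuous_sqrt.comp
    (continuous_const.mul ((continuous_const.sub hF).add
      (continuous_const.mul (continuous_const.sub hc))))

theorem Gp_ge (hf : IsPositiveReaction f) (hη : 0 < η) (s : ℝ) : √η ≤ Gp f η s :=
  Real.sqrt_le_sqrt (inner_ge_Gpb hf hη s)

theorem Gp_pos (hf : IsPositiveReaction f) (hη : 0 < η) (s : ℝ) : 0 < Gp f η s :=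
  lt_of_lt_of_le (Real.sqrt_pos.2 hη) (Gp_ge hf hη s)

theorem Gp_bdd (hf : IsPositiveReaction f) (η : ℝ) : ∃ C, ∀ s, Gp f η s ≤ C := by
  obtain ⟨C, hC⟩ := (isCompact_Icc (a := (0 : ℝ)) (b := 3 / 2)).exists_bound_of_continuousOn
    (Gp_continuous hf η).continuousOn
  refine ⟨C, fun s => ?_⟩
  have h := hC (max (0 : ℝ) (min s (3 / 2))) ⟨clamp_nonneg_Gpb s, clamp_le_Gpb s⟩
  have he : Gp f η (max (0 : ℝ) (min s (3 / 2))) = Gp f η s := by
    unfold Gp
    rw [clamp_eq_Gpb (clamp_nonneg_Gpb s) (clamp_le_Gpb s)]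
  rw [he] at h
  exact (le_abs_self _).trans h

theorem Gp_sq (hf : IsPositiveReaction f) (hη : 0 < η) {s : ℝ} (hs : s ∈ Icc (0 : ℝ) 1) :
    Gp f η s ^ 2 = 2 * (FF f 1 - FF f s + η * (2 - s)) := by
  have h := inner_ge_Gpb hf hη s
  unfold Gp
  rw [Real.sq_sqrt (hη.le.trans h), clamp_eq_Gpb hs.1 (hs.2.trans (by norm_num))]

theorem Gp_le_Gm (hf : IsPositiveReaction f) (hη : 0 < η) (hη1 : η ≤ 1) {s : ℝ} (hs : s ∈ Icc (0 : ℝ) 1) :
    Gp f η s ≤ Gm f := by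
  unfold Gp Gm
  rw [clamp_eq_Gpb hs.1 (hs.2.trans (by norm_num))]
  apply Real.sqrt_le_sqrt
  have h0 : 0 ≤ FF f s := by
    rw [← FF_zero f]
    exact (FF_strictMonoOn hf).monotoneOn ⟨le_refl _, zero_le_one⟩ hs hs.1
  have : η * (2 - s) ≤ 2 := by nlinarith [hs.1, hs.2]
  linarith

theorem Gp_anti (hf : IsPositiveReaction f) (hη : 0 < η) : AntitoneOn (Gp f η) (Icc 0 1) := by
  intro s hs t ht hst
  unfold Gp
  rw [clamp_eq_Gpb hs.1 (hs.2.trans (by norm_num)), clamp_eq_Gpb ht.1 (ht.2.trans (by norm_num))]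
  apply Real.sqrt_le_sqrt
  have h := (FF_strictMonoOn hf).monotoneOn hs ht hst
  nlinarith

end Pool.Agent.Lib.MP_188651_an
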