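import Pool.Agent.Lib.MP_188651_an.Gpb

open Set Filter Metric Topology InnerProductSpace Laplacian
open scoped Pointwise

namespace Pool.Agent.Lib.MP_188651_an

variable {f : ℝ → ℝ} {η : ℝ}

private theorem Tp_deriv_aux_Tpb (hf : IsPositiveReaction f) (hη : 0 < η) (s : ℝ) :
    HasDerivAt (Tp f η) (1 / Gp f η s) s := by
  have hc : Continuous (fun r : ℝ => 1 / Gp f η r) :=
    continuous_const.div (Gp_continuous hf η) (fun r => (Gp_pos hf hη r).ne')
  have h := (hc.integral_hasStrictDerivAt 0 s).hasDerivAt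
  exact h

theorem Gp_profile (hf : IsPositiveReaction f) (hη : 0 < η) : Profile f η (3 / 2) (Gp f η) (Tp f η) := by
  refine ⟨by norm_num, (Gp_continuous hf η).continuousOn, fun s _ => Gp_pos hf hη s, ?_, ?_,
    (Tp_deriv_aux_Tpb hf hη 0).hasDerivWithinAt, fun s _ => Tp_deriv_aux_Tpb hf hη s⟩
  · intro s hs
    have hval : Gp f η s = √(2 * (FF f 1 - FF f s + η * (2 - s))) := by
      unfold Gp
      rw [min_eq_left hs.2.le, max_eq_right hs.1.le]
    have hev : Gp f η =ᶠ[𝓝 s] fun r => √(2 * (FF f 1 - FF f r + η * (2 - r))) := by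
      filter_upwards [isOpen_Ioo.mem_nhds hs] with r hr
      unfold Gp
      rw [min_eq_left hr.2.le, max_eq_right hr.1.le]
    have hpos := Gp_pos hf hη s
    have hinner : HasDerivAt (fun r => 2 * (FF f 1 - FF f r + η * (2 - r)))
        (2 * (0 - f s + η * (0 - 1))) s :=
      (((hasDerivAt_const s (FF f 1)).sub (FF_hasDerivAt hf hs.1)).add
        (((hasDerivAt_const s (2 : ℝ)).sub (hasDerivAt_id s)).const_mul η)).const_mul 2
    have hne : 2 * (FF f 1 - FF f s + η * (2 - s)) ≠ 0 := by
      intro h0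
      rw [hval, h0, Real.sqrt_zero] at hpos
      exact lt_irrefl _ hpos
    have h := (hinner.sqrt hne).congr_of_eventuallyEq hev
    have hval2 : 2 * (0 - f s + η * (0 - 1)) / (2 * √(2 * (FF f 1 - FF f s + η * (2 - s)))) =
        -(f s + η) / Gp f η s := by
      rw [← hval]
      field_simp
      ring
    exact h.congr_deriv hval2
  · unfold Tp
    exact intervalIntegral.integral_same

theorem Tp_hasDerivAt (hf : IsPositiveReaction f) (hη : 0 < η) (s : ℝ) :
    HasDerivAt (Tp f η) (1 / Gp f η s) s := Tp_deriv_aux_Tpb hf hη s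

end Pool.Agent.Lib.MP_188651_an
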