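import Pool.Agent.Lib.MP_188651_an.LeOne
import Pool.Agent.Lib.MP_188651_an.Prof

open Set Filter Metric Topology InnerProductSpace Laplacian
open scoped Pointwise

namespace Pool.Agent.Lib.MP_188651_an

variable {n : ℕ} {f : ℝ → ℝ} {α ρ η b : ℝ} {D : Set (EE n)} {u : EE n → ℝ} {G T : ℝ → ℝ}

theorem upper_barrier (hn : 1 ≤ n) (hf : IsPositiveReaction f) (hα : 0 < α) (hρ : 0 < ρ)
    (hD : BallDomain ρ D) (hne : D.Nonempty)
    (hu : IsSol f α D u) (hP : Profile f η b G T) (hb : 1 < b) (hη : 0 < η) {M : ℝ} (hG : ∀ s ∈ Icc (0 : ℝ) 1, G s ≤ M)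
    (hbig : (n - 1) * M < η * ρ) {a : ℝ} (ha : a ∈ Icc (0 : ℝ) 1)
    (haα : ∀ s ∈ Icc (0 : ℝ) 1, a < s → α * G s < s) {c : EE n} (hc : Disjoint (ball c ρ) D) :
    ∀ x ∈ closure D, T (u x) ≤ ‖x - c‖ - ρ + T a := by
  have hu0 := hu.nonneg
  have hu1 := hu.le_one hρ hf hα hD
  have hmem : ∀ x ∈ closure D, u x ∈ Ico 0 b := fun x hx => ⟨hu0 x hx, (hu1 x hx).trans_lt hb⟩
  have hTc : ContinuousOn (fun x => T (u x)) (closure D) :=
    hP.continuousOn.comp hu.cont hmem
  have hmono := hP.strictMonoOn.monotoneOn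
  have hTb : ∃ C, ∀ x ∈ closure D, T (u x) ≤ C :=
    ⟨T 1, fun x hx => hmono (hmem x hx) ⟨zero_le_one, hb⟩ (hu1 x hx)⟩
  obtain ⟨x1, hx1, hmax⟩ := exists_max_sub (S := closure D) isClosed_closure hne.closure hTc hTb
    (ψ := fun x => ‖x - c‖) (by fun_prop) (tendsto_norm_sub c)
  replace hmax : ∀ y ∈ closure D, T (u y) - ‖y - c‖ ≤ T (u x1) - ‖x1 - c‖ := hmax
  have hx1c : ρ ≤ ‖x1 - c‖ := by
    have h1 : Disjoint (ball c ρ) (closure D) := hc.closure_right isOpen_ball
    by_contra hlt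
    push Not at hlt
    exact Set.disjoint_left.1 h1 (by rw [mem_ball, dist_eq_norm]; exact hlt) hx1
  have hx1c0 : 0 < ‖x1 - c‖ := hρ.trans_le hx1c
  have hx1ne : x1 ≠ c := by
    intro h
    rw [h, sub_self, norm_zero] at hx1c0
    exact lt_irrefl _ hx1c0
  have hkey : T (u x1) - ‖x1 - c‖ ≤ T a - ρ := by
    have hx1' : x1 ∈ D ∪ frontier D := by
      rw [← closure_eq_self_union_frontier]
      exact hx1
    have hGpos : 0 < G (u x1) := hP.Gpos _ (hmem x1 hx1)
    rcases hx1' with hxD | hxF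
    · exfalso
      obtain ⟨g, hJ⟩ := jet_of_contDiffAt (hu.contDiffOn.contDiffAt (hD.isOpen.mem_nhds hxD))
      have hs : u x1 ∈ Ioo 0 b := ⟨hu.pos x1 hxD, (hmem x1 hx1).2⟩
      obtain ⟨hd1, hd2⟩ := hP.jetData hs
      have hJ2 := (hJ.comp hd1 hd2).sub (jet_norm_sub hx1ne)
      have hloc : IsLocalMax (fun y => T (u y) - ‖y - c‖) x1 := by
        filter_upwards [hD.isOpen.mem_nhds hxD] with y hy
        exact hmax y (subset_closure hy)
      obtain ⟨hgr, hL⟩ := hJ2.of_isLocalMax hloc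
      have hgi : ∀ i, g i = G (u x1) * ((x1 i - c i) / ‖x1 - c‖) := by
        intro i
        have h1 := hgr i
        have h2 : 1 / G (u x1) * g i = (x1 i - c i) / ‖x1 - c‖ := by linarith
        rw [← h2]
        field_simp
      have hsum : ∑ i, g i ^ 2 = G (u x1) ^ 2 := by
        simp_rw [hgi, mul_pow]
        rw [← Finset.mul_sum]
        have h1 := sum_sq_norm_sub hx1ne
        rw [h1, mul_one]
      have hΔ : (Δ u) x1 = -f (u x1) := by
        have := hu.eq x1 hxD
        linarith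
      rw [hsum, hΔ] at hL
      have h1 : (f (u x1) + η) / G (u x1) ^ 3 * G (u x1) ^ 2 + 1 / G (u x1) * -f (u x1) =
          η / G (u x1) := by
        field_simp
        ring
      rw [h1, sub_nonpos, div_le_div_iff₀ hGpos hx1c0] at hL
      have h2 : ((n : ℝ) - 1) * G (u x1) ≤ (n - 1) * M := by
        have h3 : (0 : ℝ) ≤ (n : ℝ) - 1 := by
          have : (1 : ℝ) ≤ n := by exact_mod_cast hn
          linarith
        exact mul_le_mul_of_nonneg_left (hG _ ⟨hu0 x1 hx1, hu1 x1 hx1⟩) h3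
      have h3 : η * ρ ≤ η * ‖x1 - c‖ := mul_le_mul_of_nonneg_left hx1c hη.le
      linarith
    · obtain ⟨ν, hν, hbν, hdis⟩ := hD.normal x1 hxF
      obtain ⟨u', hu', hbc'⟩ := hu.bc x1 hxF ν ⟨hν, ρ, hρ, hbν, hdis⟩
      have hmaps : MapsTo (fun t : ℝ => u (x1 + t • ν)) (Ioc (-(2 * ρ)) 0) (Ici 0) := by
        intro t ht
        apply hu0
        rcases eq_or_lt_of_le ht.2 with h0 | h0
        · rw [h0, zero_smul, add_zero]
          exact hx1
        · exact subset_closure (mem_normal_seg hν hbν h0 ht.1)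
      have hTd : HasDerivWithinAt T (1 / G (u x1)) (Ici 0) (u (x1 + (0 : ℝ) • ν)) := by
        rw [zero_smul, add_zero]
        exact hP.derivWithin (hmem x1 hx1)
      have hcomp : HasDerivWithinAt (fun t : ℝ => T (u (x1 + t • ν))) (1 / G (u x1) * u')
          (Iic 0) 0 := by
        have h1 : HasDerivWithinAt (fun t : ℝ => u (x1 + t • ν)) u' (Ioc (-(2 * ρ)) 0) 0 :=
          hu'.mono (fun t ht => ht.2)
        have h2 := HasDerivWithinAt.comp (0 : ℝ) hTd h1 hmaps
        exact h2.mono_of_mem_nhdsWithin (Ioc_mem_nhdsLE (by linarith))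
      have hβ : HasDerivWithinAt (fun t : ℝ => ‖x1 + t • ν - c‖ + (T (u x1) - ‖x1 - c‖))
          (inner ℝ (x1 - c) ν / ‖x1 - c‖) (Iic 0) 0 :=
        ((hasDerivAt_norm_sub hν hx1ne).add_const _).hasDerivWithinAt
      have h1 := bd_le (y := x1) (ν := ν) (φ := fun y => T (u y))
        (β := fun y => ‖y - c‖ + (T (u x1) - ‖x1 - c‖)) hcomp hβ (by
          have h2 : ∀ᶠ t in 𝓝[<] (0 : ℝ), t ∈ Ioo (-(2 * ρ)) 0 :=
            Ioo_mem_nhdsLT (by linarith)
          filter_upwards [h2] with t ht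
          have h3 := hmax _ (subset_closure (mem_normal_seg hν hbν ht.2 ht.1))
          linarith) (by ring)
      have h2 : -1 ≤ inner ℝ (x1 - c) ν / ‖x1 - c‖ := by
        rw [le_div_iff₀ hx1c0]
        have h3 := abs_real_inner_le_norm (x1 - c) ν
        rw [hν, mul_one] at h3
        have h4 := neg_le_of_abs_le h3
        linarith
      have h3 : -1 ≤ 1 / G (u x1) * u' := h2.trans h1
      have h4 : -G (u x1) ≤ u' := by
        have h5 := mul_le_mul_of_nonneg_left h3 hGpos.le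
        have h6 : G (u x1) * (1 / G (u x1) * u') = u' := by
          field_simp
        linarith
      have h5 : u x1 ≤ α * G (u x1) := by
        have h6 := mul_le_mul_of_nonneg_left h4 hα.le
        linarith
      have h6 : u x1 ≤ a := by
        by_contra hlt
        push Not at hlt
        have h7 := haα (u x1) ⟨hu0 x1 hx1, hu1 x1 hx1⟩ hlt
        linarith
      have h7 : T (u x1) ≤ T a := hmono (hmem x1 hx1) ⟨ha.1, ha.2.trans_lt hb⟩ h6
      linarith
  intro x hx
  have h1 := hmax x hx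
  linarith

end Pool.Agent.Lib.MP_188651_an
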